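import Pool.Agent.H16.TSS.ES.LAlg_7

/-! The parts of this file: ES.LBd_1, ES.LBd_9. -/

section

/-!
ES-LBd: calculus of the bounds `Bd k r f c` (see `Defs`), i.e. of the weighted norms
`∑_ν sup_t (1+|ν|)^k e^{r(t)|ν|} |f_ν(t)| ≤ c` in the majorant form.
Products: the majorants are convolved (`one_add_len_le`, `len_add`, `summable_prod_shift`).
-/

open scoped BoundedContinuousFunction

namespace ES

theorem one_le_one_add (ν : Gx) : (1 : ℝ) ≤ 1 + (len ν : ℝ) := by
  have : (0 : ℝ) ≤ (len ν : ℝ) := Nat.cast_nonneg _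
  linarith

theorem Bd.neg {k : ℕ} {r : ℝ → ℝ} {f : WT} {c : ℝ} (hf : Bd k r f c) : Bd k r (-f) c := by
  obtain ⟨m, hm0, hm, hmc, hmb⟩ := hf
  refine ⟨m, hm0, hm, hmc, fun ν t => ?_⟩
  have : ‖(-f).co ν t‖ = ‖f.co ν t‖ := by
    simp
  rw [this]
  exact hmb ν t

theorem pow_exp_bound (n : ℕ) {m : ℝ} (hm : 0 < m) :
    ∃ C : ℝ, 0 ≤ C ∧ ∀ x : ℝ, 0 ≤ x → (1 + x) ^ n ≤ C * Real.exp (m * x) := by
  refine ⟨n.factorial / m ^ n * Real.exp m, by positivity, fun x hx => ?_⟩
  have h1 := Real.pow_div_factorial_le_exp (m * (1 + x)) (by positivity) n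
  have h2 : Real.exp (m * (1 + x)) = Real.exp m * Real.exp (m * x) := by
    rw [← Real.exp_add]
    ring_nf
  rw [h2, div_le_iff₀ (by positivity), mul_pow] at h1
  have h3 : (1 + x) ^ n ≤ (Real.exp m * Real.exp (m * x) * n.factorial) / m ^ n := by
    rw [le_div_iff₀ (by positivity)]
    linarith
  refine h3.trans (le_of_eq ?_)
  ring

/-- Every element with a norm at a positive radius; constructor: coefficients with a summable
majorant at a radius bounded below by a positive number. -/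
theorem exists_WT_of_bd {k : ℕ} {r : ℝ → ℝ} {r0 : ℝ} (hr0 : 0 < r0) (hr : ∀ t, r0 ≤ r t)
    (φ : Gx → Ct) (m : Gx → ℝ) (hm : Summable m)
    (h : ∀ ν t, (1 + (len ν : ℝ)) ^ k * Real.exp (r t * len ν) * ‖φ ν t‖ ≤ m ν) :
    ∃ f : WT, f.co = φ ∧ Bd k r f (∑' ν, m ν) := by
  have hm0 : ∀ ν, 0 ≤ m ν := fun ν => le_trans (by positivity) (h ν 0)
  have hφ : Rapid φ := by
    intro j
    obtain ⟨C, hC0, hC⟩ := pow_exp_bound j hr0
    refine Summable.of_nonneg_of_le (fun ν => by positivity) (fun ν => ?_) (hm.mul_left C)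
    have hx : (0 : ℝ) ≤ (len ν : ℝ) := Nat.cast_nonneg _
    have hj : 0 < (1 + (len ν : ℝ)) ^ j := by positivity
    have h1 : ‖φ ν‖ ≤ C * m ν / (1 + (len ν : ℝ)) ^ j := by
      rw [BoundedContinuousFunction.norm_le (by
        have := hm0 ν
        positivity)]
      intro t
      rw [le_div_iff₀ hj]
      calc ‖φ ν t‖ * (1 + (len ν : ℝ)) ^ j ≤ ‖φ ν t‖ * (C * Real.exp (r0 * len ν)) :=
            mul_le_mul_of_nonneg_left (hC _ hx) (norm_nonneg _)
        _ ≤ ‖φ ν t‖ * (C * Real.exp (r t * len ν)) := by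
            have := hr t
            gcongr
        _ = C * (Real.exp (r t * len ν) * ‖φ ν t‖) := by ring
        _ ≤ C * ((1 + (len ν : ℝ)) ^ k * Real.exp (r t * len ν) * ‖φ ν t‖) := by
            refine mul_le_mul_of_nonneg_left ?_ hC0
            refine mul_le_mul_of_nonneg_right ?_ (norm_nonneg _)
            exact le_mul_of_one_le_left (Real.exp_nonneg _) (one_le_pow₀ (one_le_one_add ν))
        _ ≤ C * m ν := mul_le_mul_of_nonneg_left (h ν t) hC0
    calc (1 + (len ν : ℝ)) ^ j * ‖φ ν‖ ≤ (1 + (len ν : ℝ)) ^ j *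
          (C * m ν / (1 + (len ν : ℝ)) ^ j) := mul_le_mul_of_nonneg_left h1 hj.le
      _ = C * m ν := by field_simp
  exact ⟨⟨φ, hφ⟩, rfl, m, hm0, hm, le_rfl, h⟩

end ES

end

section

/-!
ES-LBd: calculus of the bounds `Bd k r f c` (see `Defs`), i.e. of the weighted norms
`∑_ν sup_t (1+|ν|)^k e^{r(t)|ν|} |f_ν(t)| ≤ c` in the majorant form.
Products: the majorants are convolved (`one_add_len_le`, `len_add`, `summable_prod_shift`).
-/

open scoped BoundedContinuousFunction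

namespace ES

theorem Bd.mono {k : ℕ} {r : ℝ → ℝ} {f : WT} {c c' : ℝ} (h : Bd k r f c) (hc : c ≤ c') :
    Bd k r f c' := by
  obtain ⟨m, hm0, hm, hc', hb⟩ := h
  exact ⟨m, hm0, hm, hc'.trans hc, hb⟩

end ES

end
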