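import Pool.Agent.H16.TSS.ES.LAlg_7

/-! The parts of this file: ES.LBd, ES.LBd_2, ES.LBd_3. -/

section

/-!
ES-LBd: calculus of the bounds `Bd k r f c` (see `Defs`), i.e. of the weighted norms
`∑_ν sup_t (1+|ν|)^k e^{r(t)|ν|} |f_ν(t)| ≤ c` in the majorant form.
Products: the majorants are convolved (`one_add_len_le`, `len_add`, `summable_prod_shift`).
-/

open scoped BoundedContinuousFunction

namespace ES

theorem wt_pos (k : ℕ) (r : ℝ) (ν : Gx) :
    0 < (1 + (len ν : ℝ)) ^ k * Real.exp (r * len ν) := by positivity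

end ES

end

section

/-!
ES-LBd: calculus of the bounds `Bd k r f c` (see `Defs`), i.e. of the weighted norms
`∑_ν sup_t (1+|ν|)^k e^{r(t)|ν|} |f_ν(t)| ≤ c` in the majorant form.
Products: the majorants are convolved (`one_add_len_le`, `len_add`, `summable_prod_shift`).
-/

open scoped BoundedContinuousFunction

namespace ES

theorem Bd.smul {k : ℕ} {r : ℝ → ℝ} {f : WT} {c : ℝ} (a : ℂ) (hf : Bd k r f c) :
    Bd k r (a • f) (‖a‖ * c) := by
  obtain ⟨m, hm0, hm, hmc, hmb⟩ := hf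
  refine ⟨fun ν => ‖a‖ * m ν, fun ν => mul_nonneg (norm_nonneg _) (hm0 ν), hm.mul_left _, ?_,
    fun ν t => ?_⟩
  · rw [tsum_mul_left]
    exact mul_le_mul_of_nonneg_left hmc (norm_nonneg _)
  · have : ‖(a • f).co ν t‖ = ‖a‖ * ‖f.co ν t‖ := by
      simp
    rw [this]
    calc (1 + (len ν : ℝ)) ^ k * Real.exp (r t * len ν) * (‖a‖ * ‖f.co ν t‖)
        = ‖a‖ * ((1 + (len ν : ℝ)) ^ k * Real.exp (r t * len ν) * ‖f.co ν t‖) := by ring
      _ ≤ _ := mul_le_mul_of_nonneg_left (hmb ν t) (norm_nonneg _)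

/-- total mass of a convolution -/
theorem tsum_conv_real {a b : Gx → ℝ} (ha : Summable a) (hb : Summable b)
    (ha0 : ∀ ν, 0 ≤ a ν) (hb0 : ∀ ν, 0 ≤ b ν) :
    ∑' ν, ∑' μ, a μ * b (ν - μ) = (∑' ν, a ν) * ∑' ν, b ν := by
  have hs := summable_prod_shift ha hb ha0 hb0
  have h := ha.mul_of_nonneg hb ha0 hb0
  let e : Gx × Gx ≃ Gx × Gx :=
    { toFun := fun p => (p.2, p.1 - p.2)
      invFun := fun p => (p.1 + p.2, p.1)
      left_inv := fun p => by ext <;> simp
      right_inv := fun p => by ext <;> simp }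
  have h1 : ∑' ν, ∑' μ, a μ * b (ν - μ) = ∑' p : Gx × Gx, a p.2 * b (p.1 - p.2) :=
    (hs.tsum_prod).symm
  have h2 : ∑' p : Gx × Gx, a p.2 * b (p.1 - p.2) = ∑' p : Gx × Gx, a p.1 * b p.2 :=
    e.tsum_eq (fun p : Gx × Gx => a p.1 * b p.2)
  rw [h1, h2]
  exact (ha.tsum_mul_tsum hb h).symm

end ES

end

section

/-!
ES-LBd: calculus of the bounds `Bd k r f c` (see `Defs`), i.e. of the weighted norms
`∑_ν sup_t (1+|ν|)^k e^{r(t)|ν|} |f_ν(t)| ≤ c` in the majorant form.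
Products: the majorants are convolved (`one_add_len_le`, `len_add`, `summable_prod_shift`).
-/

open scoped BoundedContinuousFunction

namespace ES

theorem Bd.nonneg {k : ℕ} {r : ℝ → ℝ} {f : WT} {c : ℝ} (h : Bd k r f c) : 0 ≤ c := by
  obtain ⟨m, hm0, _, hc, _⟩ := h
  exact (tsum_nonneg hm0).trans hc

theorem Bd.zero (k : ℕ) (r : ℝ → ℝ) {c : ℝ} (hc : 0 ≤ c) : Bd k r 0 c := by
  refine ⟨0, fun _ => le_rfl, summable_zero, ?_, fun ν t => ?_⟩
  · simpa using hc
  · simp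

theorem Bd.cst (k : ℕ) (r : ℝ → ℝ) {φ : Ct} {c : ℝ} (h : ∀ t, ‖φ t‖ ≤ c) :
    Bd k r (ES.cst φ) c := by
  classical
  have hc : 0 ≤ c := (norm_nonneg _).trans (h 0)
  refine ⟨fun ν => if ν = 0 then c else 0, fun ν => ?_, ?_, ?_, fun ν t => ?_⟩
  · dsimp only
    split_ifs
    · exact hc
    · exact le_rfl
  · refine summable_of_ne_finset_zero (s := {0}) fun ν hν => ?_
    have : ν ≠ 0 := by simpa using hν
    simp [this]
  · rw [tsum_ite_eq]
  · unfold ES.cst
    by_cases hν : ν = 0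
    · subst hν
      simp only [Pi.single_eq_same, len_zero, Nat.cast_zero, add_zero, one_pow, mul_zero,
        Real.exp_zero, one_mul, if_true]
      exact h t
    · simp only [Pi.single_apply, hν, if_false]
      simp

theorem Bd.one (k : ℕ) (r : ℝ → ℝ) : Bd k r 1 1 := by
  have h := Bd.cst k r (φ := 1) (c := 1) (fun t => by simp)
  have e : ES.cst 1 = 1 := WT.ext rfl
  rwa [e] at h

end ES

end
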