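import Pool.Agent.H16.TSS.ES.LExp_3
import Pool.Agent.H16.TSS.M02
import Pool.Agent.H16.TSS.M03

/-! The parts of this file: ES.LBd_10, ES.LBd_7, ES.LBd_5, ES.LExp_1. -/

section

/-!
ES-LBd: calculus of the bounds `Bd k r f c` (see `Defs`), i.e. of the weighted norms
`∑_ν sup_t (1+|ν|)^k e^{r(t)|ν|} |f_ν(t)| ≤ c` in the majorant form.
Products: the majorants are convolved (`one_add_len_le`, `len_add`, `summable_prod_shift`).
-/

open scoped BoundedContinuousFunction

namespace ES

theorem Bd.mul {k : ℕ} {r : ℝ → ℝ} (hr0 : ∀ t, 0 ≤ r t) {f g : WT} {c d : ℝ}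
    (hf : Bd k r f c) (hg : Bd k r g d) :
    Bd k r (f * g) (c * d) := by
  have hc0 := hf.nonneg
  obtain ⟨m, hm0, hm, hmc, hmb⟩ := hf
  obtain ⟨n, hn0, hn, hnc, hnb⟩ := hg
  have hs := summable_prod_shift hm hn hm0 hn0
  refine ⟨fun ν => ∑' μ, m μ * n (ν - μ), fun ν => tsum_nonneg fun μ =>
    mul_nonneg (hm0 _) (hn0 _), hs.prod, ?_, fun ν t => ?_⟩
  · rw [tsum_conv_real hm hn hm0 hn0]
    exact mul_le_mul hmc hnc (tsum_nonneg hn0) hc0
  · have hs' : Summable fun μ => m μ * n (ν - μ) := hs.prod_factor ν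
    have h2 : Summable fun μ => ‖f.co μ t * g.co (ν - μ) t‖ := by
      have h3 : Summable fun μ => ‖f.co μ‖ * ‖g.co (ν - μ)‖ :=
        (summable_prod_shift (rapid_norm f.rapid) (rapid_norm g.rapid) (fun _ => norm_nonneg _)
          (fun _ => norm_nonneg _)).prod_factor ν
      refine Summable.of_nonneg_of_le (fun _ => norm_nonneg _) (fun μ => ?_) h3
      rw [norm_mul]
      exact mul_le_mul ((f.co μ).norm_coe_le_norm t) ((g.co (ν - μ)).norm_coe_le_norm t)
        (norm_nonneg _) (norm_nonneg _)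
    rw [WT.mul_co_apply]
    calc (1 + (len ν : ℝ)) ^ k * Real.exp (r t * len ν) * ‖∑' μ, f.co μ t * g.co (ν - μ) t‖
        ≤ (1 + (len ν : ℝ)) ^ k * Real.exp (r t * len ν) * ∑' μ, ‖f.co μ t * g.co (ν - μ) t‖ :=
          mul_le_mul_of_nonneg_left (norm_tsum_le_tsum_norm h2) (wt_pos k _ ν).le
      _ = ∑' μ, (1 + (len ν : ℝ)) ^ k * Real.exp (r t * len ν) *
            ‖f.co μ t * g.co (ν - μ) t‖ := by rw [tsum_mul_left]
      _ ≤ ∑' μ, m μ * n (ν - μ) := by
        refine Summable.tsum_le_tsum (fun μ => ?_) (h2.mul_left _) hs'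
        have e1 : (1 + (len ν : ℝ)) ^ k ≤
            (1 + (len μ : ℝ)) ^ k * (1 + (len (ν - μ) : ℝ)) ^ k := by
          rw [← mul_pow]
          exact pow_le_pow_left₀ (by positivity) (one_add_len_le ν μ) k
        have e2 : Real.exp (r t * len ν) ≤
            Real.exp (r t * len μ) * Real.exp (r t * len (ν - μ)) := by
          rw [← Real.exp_add, ← mul_add]
          refine Real.exp_le_exp.mpr (mul_le_mul_of_nonneg_left ?_ (hr0 t))
          have h := len_add μ (ν - μ)
          have h' : μ + (ν - μ) = ν := by abel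
          rw [h'] at h
          exact_mod_cast h
        rw [norm_mul]
        calc (1 + (len ν : ℝ)) ^ k * Real.exp (r t * len ν) * (‖f.co μ t‖ * ‖g.co (ν - μ) t‖)
            ≤ ((1 + (len μ : ℝ)) ^ k * (1 + (len (ν - μ) : ℝ)) ^ k) *
              (Real.exp (r t * len μ) * Real.exp (r t * len (ν - μ))) *
              (‖f.co μ t‖ * ‖g.co (ν - μ) t‖) := by
                refine mul_le_mul_of_nonneg_right ?_ (by positivity)
                exact mul_le_mul e1 e2 (by positivity) (by positivity)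
          _ = ((1 + (len μ : ℝ)) ^ k * Real.exp (r t * len μ) * ‖f.co μ t‖) *
              ((1 + (len (ν - μ) : ℝ)) ^ k * Real.exp (r t * len (ν - μ)) *
                ‖g.co (ν - μ) t‖) := by ring
          _ ≤ m μ * n (ν - μ) := mul_le_mul (hmb μ t) (hnb (ν - μ) t) (by positivity) (hm0 μ)

theorem Bd.pow {k : ℕ} {r : ℝ → ℝ} (hr0 : ∀ t, 0 ≤ r t) {f : WT} {c : ℝ} (hf : Bd k r f c)
    (n : ℕ) : Bd k r (f ^ n) (c ^ n) := by
  induction n with
  | zero => simpa using Bd.one k r
  | succ n ih =>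
    rw [pow_succ, pow_succ]
    exact Bd.mul hr0 ih hf

end ES

end

section

/-!
ES-LBd: calculus of the bounds `Bd k r f c` (see `Defs`), i.e. of the weighted norms
`∑_ν sup_t (1+|ν|)^k e^{r(t)|ν|} |f_ν(t)| ≤ c` in the majorant form.
Products: the majorants are convolved (`one_add_len_le`, `len_add`, `summable_prod_shift`).
-/

open scoped BoundedContinuousFunction

namespace ES

theorem Bd.add {k : ℕ} {r : ℝ → ℝ} {f g : WT} {c d : ℝ} (hf : Bd k r f c) (hg : Bd k r g d) :
    Bd k r (f + g) (c + d) := by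
  obtain ⟨m, hm0, hm, hmc, hmb⟩ := hf
  obtain ⟨n, hn0, hn, hnc, hnb⟩ := hg
  refine ⟨fun ν => m ν + n ν, fun ν => add_nonneg (hm0 ν) (hn0 ν), hm.add hn, ?_, fun ν t => ?_⟩
  · rw [hm.tsum_add hn]
    exact add_le_add hmc hnc
  · refine le_trans ?_ (add_le_add (hmb ν t) (hnb ν t))
    rw [← mul_add]
    refine mul_le_mul_of_nonneg_left ?_ (wt_pos k _ ν).le
    exact norm_add_le _ _

end ES

end

section

/-!
ES-LBd: calculus of the bounds `Bd k r f c` (see `Defs`), i.e. of the weighted norms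
`∑_ν sup_t (1+|ν|)^k e^{r(t)|ν|} |f_ν(t)| ≤ c` in the majorant form.
Products: the majorants are convolved (`one_add_len_le`, `len_add`, `summable_prod_shift`).
-/

open scoped BoundedContinuousFunction

namespace ES

theorem Bd.sub {k : ℕ} {r : ℝ → ℝ} {f g : WT} {c d : ℝ} (hf : Bd k r f c) (hg : Bd k r g d) :
    Bd k r (f - g) (c + d) := by
  rw [sub_eq_add_neg]
  exact hf.add hg.neg

end ES

end

section

/-!
ES-LExp: the exponential in `WT`.
`texpc f ν = ∑' n, (f^n).co ν / n!`.  With `N_k(f) = ∑ (1+|ν|)^k ‖f_ν‖` one has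
`N_k(f^n) ≤ N_k(f)^n`, so the family is rapidly decreasing for every `f`.
Useful device: for a bound `Bd k r f c` the partial sums of the exponential satisfy `Bd k r _ (exp c)`
and the series of differences is dominated by `c^n/n!`.
Additivity: Cauchy product (`tsum_mul_tsum_eq_tsum_sum_antidiagonal_of_summable_norm` in the complete
ring `Ct`, after exchanging sums), or uniqueness.  Derivations: `∂ (f^n) = n f^(n-1) ∂ f`.
-/

open scoped BoundedContinuousFunction

namespace ES

/-! ### norms and absolutely convergent series -/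

theorem Bd.texp {k : ℕ} {r : ℝ → ℝ} (hr0 : ∀ t, 0 ≤ r t) {f : WT} {c : ℝ} (hf : Bd k r f c) :
    Bd k r (ES.texp f) (Real.exp c) := by
  have h1 : ∀ n, Bd k r (et f n) (c ^ n / n.factorial) := by
    intro n
    unfold et
    have h2 := Bd.smul ((n.factorial : ℂ)⁻¹) (Bd.pow hr0 hf n)
    rwa [norm_fact, inv_mul_eq_div] at h2
  have h3 := Bd_series h1 (Real.summable_pow_div_factorial c) (HS_apply (texp_HS f))
  rwa [← exp_tsum] at h3

end ES

end
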