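import Pool.Agent.H16.TSS.ES.Defs_1
import Pool.Agent.H16.TSS.ES.LExp

/-! The parts of this file: ES.Sys, ES.Ifc, ES.RTree, ES.SDef, ES.XDef. -/

section

/-!
Project ES: data on a time interval, the sub-block system.

`Dat` : an Euler-Reynolds flow in moving (volume preserving) coordinates `X = id + ξ`,
   coordinate velocity `U = ∂_t ξ`, velocity `v`, pressure `p`, Reynolds stress `R`,
   all seen as elements of `WT` (functions on a lifted torus, frequencies `κ`, variables `< i`).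
   `F = I + Dξ`, `M = adj F = F⁻¹`, `B = M (v - U)`,
   equation  `∂_t v + (B·D) v + Mᵀ D p = D·(R Mᵀ)`.
-/

open scoped BoundedContinuousFunction

namespace ES

abbrev Vec := Fin 2 → WT
abbrev Mat := Fin 2 → Fin 2 → WT

/-- Identity matrix. -/
noncomputable def idm : Mat := fun a b => if a = b then 1 else 0

/-- Gradient of a vector field: `(grad ξ) a b = D_b ξ_a`. -/
noncomputable def grad (κ : Kp) (ξ : Vec) : Mat := fun a b => D κ b (ξ a)

/-- Adjugate of a 2x2 matrix. -/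
noncomputable def adj (F : Mat) : Mat := fun a b =>
  if a = 0 then (if b = 0 then F 1 1 else -F 0 1) else (if b = 0 then -F 1 0 else F 0 0)

/-- Determinant. -/
noncomputable def det2 (F : Mat) : WT := F 0 0 * F 1 1 - F 0 1 * F 1 0

/-- `F x`. -/
noncomputable def mulv (F : Mat) (x : Vec) : Vec := fun a => ∑ b, F a b * x b

/-- `Mᵀ q`. -/
noncomputable def mulvT (M : Mat) (q : Vec) : Vec := fun a => ∑ j, M j a * q j

/-- Divergence. -/
noncomputable def dvg (κ : Kp) (x : Vec) : WT := ∑ a, D κ a (x a)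

/-- `(x·D) y`. -/
noncomputable def adv (κ : Kp) (x y : Vec) : Vec := fun a => ∑ b, x b * D κ b (y a)

/-- `Mᵀ D p`. -/
noncomputable def gradT (κ : Kp) (M : Mat) (p : WT) : Vec := mulvT M fun j => D κ j p

/-- Row divergence of a matrix: `a ↦ ∑_j D_j X_{a j}`. -/
noncomputable def dvm (κ : Kp) (X : Mat) : Vec := fun a => ∑ j, D κ j (X a j)

/-- `R Mᵀ`. -/
noncomputable def mulT (R M : Mat) : Mat := fun a j => ∑ k, R a k * M j k

/-- `I + Dξ`. -/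
noncomputable def Fm (κ : Kp) (ξ : Vec) : Mat := fun a b => idm a b + grad κ ξ a b

/-- Data on a time interval. -/
structure Dat where
  κ : Kp
  i : ℕ
  ξ : Vec
  U : Vec
  v : Vec
  p : WT
  R : Mat

namespace Dat

noncomputable def F (d : Dat) : Mat := Fm d.κ d.ξ
noncomputable def M (d : Dat) : Mat := adj d.F
noncomputable def B (d : Dat) : Vec := mulv d.M (d.v - d.U)
noncomputable def G (d : Dat) : Mat := grad d.κ d.v
/-- Material acceleration `-Mᵀ D p + D·(R Mᵀ)`. -/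
noncomputable def acc (d : Dat) : Vec := fun a => -gradT d.κ d.M d.p a + dvm d.κ (mulT d.R d.M) a
/-- Right hand side of `∂_t v = ...`. -/
noncomputable def rhs (d : Dat) : Vec := fun a => d.acc a - adv d.κ d.B d.v a

/-- Restriction to a smaller time interval (clamping). -/
noncomputable def tcl (d : Dat) (a b : ℝ) : Dat where
  κ := d.κ
  i := d.i
  ξ j := ES.tcl a b (d.ξ j)
  U j := ES.tcl a b (d.U j)
  v j := ES.tcl a b (d.v j)
  p := ES.tcl a b d.p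
  R j k := ES.tcl a b (d.R j k)

end Dat

/-- Good data on `[t0,t1]` with frequency bound `lam`, gradient bound `g`, relative velocity bound
`g/lam`, stress bound `σ`, radius `ρ`, deformation bound `c`, acceleration bound `A`. -/
structure Good (d : Dat) (t0 t1 lam g σ ρ c A : ℝ) : Prop where
  ht : t0 < t1
  kb : KB d.κ lam
  k0 : ∀ a j, d.i ≤ j → d.κ.k a j = 0
  levξ : ∀ a, Lev d.i (d.ξ a)
  levU : ∀ a, Lev d.i (d.U a)
  levv : ∀ a, Lev d.i (d.v a)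
  levp : Lev d.i d.p
  levR : ∀ a b, Lev d.i (d.R a b)
  rξ : ∀ a, IsR (d.ξ a)
  rU : ∀ a, IsR (d.U a)
  rv : ∀ a, IsR (d.v a)
  rp : IsR d.p
  rR : ∀ a b, IsR (d.R a b)
  cξ : ∀ a, Cl t0 t1 (d.ξ a)
  cU : ∀ a, Cl t0 t1 (d.U a)
  cv : ∀ a, Cl t0 t1 (d.v a)
  cp : Cl t0 t1 d.p
  cR : ∀ a b, Cl t0 t1 (d.R a b)
  fξ : ∀ a, Fin0 ρ (d.ξ a)
  fU : ∀ a, Fin0 ρ (d.U a)
  fv : ∀ a, Fin0 ρ (d.v a)
  fp : Fin0 ρ d.p
  symm : ∀ a b, d.R a b = d.R b a
  tdξ : ∀ a, TD t0 t1 (d.ξ a) (d.U a)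
  tdv : ∀ a, TD t0 t1 (d.v a) (d.rhs a)
  det : det2 d.F = 1
  div : dvg d.κ d.B = 0
  bF : ∀ a b, Bd 0 (cr ρ) (grad d.κ d.ξ a b) c
  bB : ∀ a, Bd 0 (cr ρ) (d.B a) (g / lam)
  bG : ∀ a b, Bd 0 (cr ρ) (d.G a b) g
  bR : ∀ a b, Bd 0 (cr ρ) (d.R a b) σ
  bA : ∀ a, Bd 0 (cr ρ) (d.acc a) A

/-! ### The sub-block system -/

/-- Parameters of a sub-block `[ta,tb]`, with ramps `[ta,s1]` and `[s2,tb]`, wave frequency `L`,
direction `k0`, amplitude `b`, initial values `ζa`, `Ea`. -/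
structure SB where
  d : Dat
  ta : ℝ
  s1 : ℝ
  s2 : ℝ
  tb : ℝ
  L : ℕ
  k0 : Fin 2 → ℤ
  b : WT
  ζa : Vec
  Ea : Vec

/-- `sin θ_i`. -/
noncomputable def sn (i : ℕ) : WT :=
  (2 * Complex.I)⁻¹ • (eb (Finsupp.single i 1) - eb (Finsupp.single i (-1)))

/-- `cos θ_i`. -/
noncomputable def cs (i : ℕ) : WT :=
  (2 : ℂ)⁻¹ • (eb (Finsupp.single i 1) + eb (Finsupp.single i (-1)))

/-- Trapezoidal cutoff: `0` outside `(ta,tb)`, `1` on `[s1,s2]`, linear in between. -/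
noncomputable def trapR (ta s1 s2 tb t : ℝ) : ℝ :=
  max 0 (min 1 (min ((t - ta) / (s1 - ta)) ((tb - t) / (tb - s2))))

theorem trapR_nonneg (ta s1 s2 tb t : ℝ) : 0 ≤ trapR ta s1 s2 tb t := le_max_left _ _

theorem trapR_le_one (ta s1 s2 tb t : ℝ) : trapR ta s1 s2 tb t ≤ 1 :=
  max_le zero_le_one (min_le_left _ _)

theorem trapR_continuous (ta s1 s2 tb : ℝ) : Continuous (trapR ta s1 s2 tb) := by
  unfold trapR; fun_prop

/-- The cutoff as a coefficient. -/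
noncomputable def trap (ta s1 s2 tb : ℝ) : Ct :=
  BoundedContinuousFunction.ofNormedAddCommGroup (fun t => ((trapR ta s1 s2 tb t : ℝ) : ℂ))
    (Complex.continuous_ofReal.comp (trapR_continuous ta s1 s2 tb)) 1 (by
      intro t
      rw [Complex.norm_real, Real.norm_eq_abs, abs_of_nonneg (trapR_nonneg _ _ _ _ _)]
      exact trapR_le_one _ _ _ _ _)

theorem trap_apply (ta s1 s2 tb t : ℝ) : trap ta s1 s2 tb t = ((trapR ta s1 s2 tb t : ℝ) : ℂ) := rfl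

/-! Derived functions of the unknown `ζ`. -/

/-- `P = I + Dζ`. -/
noncomputable def Pm (d : Dat) (ζ : Vec) : Mat := Fm d.κ ζ

/-- `F` in the new coordinates: `F^ζ (I + Dζ)`. -/
noncomputable def FF (d : Dat) (ζ : Vec) : Mat := fun a b =>
  ∑ c, comp d.κ ζ (d.F a c) * Pm d ζ c b

/-- `M` in the new coordinates. -/
noncomputable def MM (d : Dat) (ζ : Vec) : Mat := adj (FF d ζ)

/-- `D(v^ζ)`. -/
noncomputable def LL (d : Dat) (ζ : Vec) : Mat := fun a b =>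
  ∑ c, comp d.κ ζ (d.G a c) * Pm d ζ c b

/-- `R^ζ`. -/
noncomputable def RR (d : Dat) (ζ : Vec) : Mat := fun a b => comp d.κ ζ (d.R a b)

/-- `v^ζ`. -/
noncomputable def vz (d : Dat) (ζ : Vec) : Vec := fun a => comp d.κ ζ (d.v a)

namespace SB

/-- New frequencies. -/
noncomputable def κ' (P : SB) : Kp := upd P.d.κ P.d.i fun a => (P.L : ℤ) * P.k0 a

/-- Cutoff. -/
noncomputable def χ (P : SB) : Ct := trap P.ta P.s1 P.s2 P.tb

/-- Initial wave `D'^⊥ (L⁻¹ √2 b sin θ)`. -/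
noncomputable def W0 (P : SB) : Vec := fun a =>
  ((P.L : ℂ)⁻¹) • dp P.κ' a (((Real.sqrt 2 : ℝ) : ℂ) • (P.b * sn P.d.i))

/-- `β = -∂_θ⁻¹ (D·W)`. -/
noncomputable def bet (P : SB) (W : Vec) : WT := -ith P.d.i (dvg P.d.κ W)

/-- The right hand side `f`. -/
noncomputable def f (P : SB) (ζ E W : Vec) : Vec := fun a =>
  -(2 * mulv (LL P.d ζ) (E + W) a)
  - adv P.d.κ (E + W) (mulv (FF P.d ζ) E) a
  - (adv P.d.κ W (mulv (FF P.d ζ) (E + W)) a
      + P.bet W * mulv (FF P.d ζ) (fun c => dth P.d.i (E c + W c)) a)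
  - dvm P.d.κ (mulT (RR P.d ζ) (MM P.d ζ)) a

/-- `g = f - (F - I) a - (Mᵀ - I) q`. -/
noncomputable def g (P : SB) (ζ E W a q : Vec) : Vec := fun j =>
  P.f ζ E W j - (mulv (FF P.d ζ) a j - a j) - (mulvT (MM P.d ζ) q j - q j)

/-- The sub-block system. -/
structure Sol (P : SB) (ζ E W a q : Vec) : Prop where
  hζ : ∀ j, ζ j = P.ζa j + intg P.ta P.tb (comp P.d.κ ζ (P.d.B j) + mulv (Pm P.d ζ) E j)
  hE : ∀ j, E j = P.Ea j + intg P.ta P.tb (mean P.d.i (a j))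
  hW : ∀ j, W j = cst P.χ * (P.W0 j + intg P.s1 P.s2 (osc P.d.i (a j)))
  ha : ∀ j, a j = ∑ b, Ps P.κ' j b (P.g ζ E W a q b)
  hq : ∀ j, q j = ∑ b, Pg P.κ' j b (P.g ζ E W a q b)

/-- The radius function of the sub-block. -/
noncomputable def r (P : SB) (ρ0 m : ℝ) : ℝ → ℝ := rad ρ0 m P.ta P.tb

end SB

/-- Hypotheses for a sub-block.  `w` = bound for the wave amplitude, `m` = loss of radius,
`η` = bound for the initial mean perturbation. -/
structure SBH (P : SB) (lam g σ ρ c A ρ0 m w η : ℝ) : Prop where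
  good : Good P.d P.ta P.tb lam g σ ρ c A
  h1 : P.ta < P.s1
  h2 : P.s1 < P.s2
  h3 : P.s2 < P.tb
  hm : 0 < m
  hm1 : m ≤ 1
  hρ : ρ ≤ 2
  hρ0 : 2 * m ≤ ρ0
  hρ1 : ρ0 + 2 * m ≤ ρ
  hlam : 1 ≤ lam
  hw : 0 < w
  hlw : lam * w ≤ g
  hσ0 : 0 ≤ σ
  hσ : σ ≤ w ^ 2
  hc : c ≤ 1 / 100
  hL : lam * (1 + 1 / m) ≤ P.L
  hk : ∀ a, |P.k0 a| ≤ 2
  bb : Bd 0 (cr (ρ0 + m)) P.b w
  bl : Lev P.d.i P.b
  br : IsR P.b
  bt : ∀ t₀, frz t₀ P.b = P.b
  zb : ∀ j, Bd 2 (cr ρ0) (P.ζa j) (1 / (1024 * lam * (1 + 1 / m)))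
  zl : ∀ j, Lev P.d.i (P.ζa j)
  zr : ∀ j, IsR (P.ζa j)
  zt : ∀ j t₀, frz t₀ (P.ζa j) = P.ζa j
  zd : det2 (Fm P.d.κ P.ζa) = 1
  hη0 : 0 ≤ η
  hη : η ≤ w
  eb' : ∀ j, Bd 1 (cr ρ0) (P.Ea j) η
  el : ∀ j, Lev P.d.i (P.Ea j)
  er : ∀ j, IsR (P.Ea j)
  et : ∀ j t₀, frz t₀ (P.Ea j) = P.Ea j
  ed : dvg P.d.κ P.Ea = 0
  ez : ∀ j, Pnz P.d.κ (P.Ea j) = P.Ea j

/-- Regularity and bounds of a solution of the sub-block system, `K = 1 + 1/m`, `h = tb - ta`. -/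
structure SBR (P : SB) (C0 lam g ρ0 m w η : ℝ) (ζ E W a q : Vec) : Prop where
  sol : P.Sol ζ E W a q
  lζ : ∀ j, Lev P.d.i (ζ j)
  lE : ∀ j, Lev P.d.i (E j)
  lW : ∀ j, Lev (P.d.i + 1) (W j)
  la : ∀ j, Lev (P.d.i + 1) (a j)
  lq : ∀ j, Lev (P.d.i + 1) (q j)
  mW : ∀ j, mean P.d.i (W j) = 0
  rζ : ∀ j, IsR (ζ j)
  rE : ∀ j, IsR (E j)
  rW : ∀ j, IsR (W j)
  ra : ∀ j, IsR (a j)
  rq : ∀ j, IsR (q j)
  cζ : ∀ j, Cl P.ta P.tb (ζ j)
  cE : ∀ j, Cl P.ta P.tb (E j)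
  cW : ∀ j, Cl P.ta P.tb (W j)
  ca : ∀ j, Cl P.ta P.tb (a j)
  cq : ∀ j, Cl P.ta P.tb (q j)
  b0 : P.b = 0 → ∀ j, W j = 0 ∧ osc P.d.i (a j) = 0 ∧ osc P.d.i (q j) = 0
  nζ : ∀ j, Bd 2 (P.r ρ0 m) (ζ j - P.ζa j) (C0 * (1 + 1 / m) ^ 2 * (P.tb - P.ta) * g / lam)
  nζ' : ∀ j, Bd 2 (P.r ρ0 m) (ζ j) (1 / (256 * lam * (1 + 1 / m)))
  nE : ∀ j, Bd 1 (P.r ρ0 m) (E j)
    (2 * η + C0 * (1 + 1 / m) ^ 4 * (P.tb - P.ta) * lam * w ^ 2)
  nE' : ∀ j, Bd 1 (P.r ρ0 m) (E j) (2 * w)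
  nW1 : ∀ j, Bd 1 (P.r ρ0 m) (W j) (C0 * (1 + 1 / m) * w)
  nW0 : ∀ j, Bd 0 (P.r ρ0 m) (W j) (C0 * w)
  nWW : ∀ j, Bd 1 (P.r ρ0 m) (W j - cst P.χ * P.W0 j)
    (C0 * (1 + 1 / m) ^ 4 * (P.tb - P.ta) * g * w)
  nWt : ∀ j, Bd 0 (P.r ρ0 m) (dth P.d.i (W j)) (C0 * w)
  na : ∀ j, Bd 0 (P.r ρ0 m) (a j) (C0 * (1 + 1 / m) ^ 4 * g * w)
  nq : ∀ j, Bd 0 (P.r ρ0 m) (q j) (C0 * (1 + 1 / m) ^ 4 * g * w)
  nam : ∀ j, Bd 0 (P.r ρ0 m) (mean P.d.i (a j)) (C0 * (g * η + (1 + 1 / m) ^ 4 * lam * w ^ 2))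
  nqm : ∀ j, Bd 0 (P.r ρ0 m) (mean P.d.i (q j)) (C0 * (g * η + (1 + 1 / m) ^ 4 * lam * w ^ 2))

end ES

end

section

/-!
Project ES: interface between the parts.

Part I (analysis) proves `block_thm` (statement below, `BlockStatement`).
Part II (Eulerian) proves the facts about `BI` listed below.
Part III (recursion) uses `BlockStatement` and the facts about `BI` only.
-/

open scoped BoundedContinuousFunction

namespace ES

/-- Eulerian velocity fields on the plane. -/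
abbrev Fld := (Fin 2 → ℝ) → ℝ → (Fin 2 → ℝ)

/-- Coordinate map at time `t`. -/
noncomputable def Xm (d : Dat) (t : ℝ) (z : Fin 2 → ℝ) : Fin 2 → ℝ :=
  fun a => z a + evR d.κ (d.ξ a) z t

/-- `d` represents `V` on `[t0,t1]`. -/
def Rep (d : Dat) (V : Fld) (t0 t1 : ℝ) : Prop :=
  ∀ t ∈ Set.Icc t0 t1, Function.Bijective (Xm d t) ∧
    ∀ z a, V (Xm d t z) t a = evR d.κ (d.v a) z t

/-- `V` is represented on `[t0,t1]` by good data with the given bounds (`lam` frequency, `g`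
gradient, `σ` Reynolds stress, `ρ` analyticity radius, `c` deformation, `A` acceleration). -/
def BI (V : Fld) (t0 t1 lam g σ ρ c A : ℝ) : Prop :=
  ∃ d : Dat, Good d t0 t1 lam g σ ρ c A ∧ Rep d V t0 t1

/-- Partitions of `[s,t]` into consecutive pieces of three kinds (exact pieces `G`, pieces of kind
1 and 2), with the numbers of pieces of kind 1 and 2. -/
inductive Prt (G B1 B2 : ℝ → ℝ → Prop) : ℝ → ℝ → ℕ → ℕ → Prop
  | good {s t : ℝ} : s < t → G s t → Prt G B1 B2 s t 0 0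
  | fast {s t : ℝ} : s < t → B1 s t → Prt G B1 B2 s t 1 0
  | tail {s t : ℝ} : s < t → B2 s t → Prt G B1 B2 s t 0 1
  | cat {s t u : ℝ} {n m n' m' : ℕ} : Prt G B1 B2 s t n m → Prt G B1 B2 t u n' m' →
      Prt G B1 B2 s u (n + n') (m + m')

/-- The statement of the block theorem (proved in Part I), with constants `C0`, `p`. -/
def BlockStatement (C0 : ℝ) (p : ℕ) : Prop :=
  ∀ (V : Fld) (t0 t1 lam g σ ρ c A m w ℓr ν : ℝ) (L P : ℕ),
    BI V t0 t1 lam g σ ρ c A →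
    0 < m → m ≤ 1 → ρ ≤ 2 → 8 * m * P + 2 * m ≤ ρ →
    1 ≤ lam → 0 < w → 0 < σ → C0 * σ ≤ w ^ 2 → lam * w ≤ g → 0 ≤ c → c ≤ 1 / 200 →
    (1 + 1 / m) * lam ≤ L → Real.exp (-(m * L / (4 * lam))) ≤ 1 / L →
    C0 * (1 + 1 / m) ^ p * (t1 - t0) * g ≤ 1 →
    0 < ν → ν ≤ 1 / 4 → C0 * (1 + 1 / m) ^ p * w ^ 2 * ((t1 - t0) * g + (lam / L) ^ 2) ≤ ν ^ 2 * σ →
    0 < ℓr → ℓr * (C0 * 2 ^ P) ≤ t1 - t0 →
    ∃ V' : Fld,
      (∀ x t, t ∉ Set.Ioo t0 t1 → V' x t = V x t) ∧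
      (∀ x t a, |V' x t a - V x t a| ≤ C0 * w) ∧
      Prt (fun s t => BI V' s t (2 * L) (C0 * (L * w + (1 + 1 / m) ^ p * g)) 0 (ρ - 8 * m * P)
            (c + C0 * (1 + 1 / m) ^ p * (t1 - t0) * g)
            (A + C0 * (1 + 1 / m) ^ p * (g * w + w / ℓr)))
          (fun s t => t - s = ℓr ∧
            BI V' s t (2 * L) (C0 * (L * w + (1 + 1 / m) ^ p * g))
            (C0 * (1 + 1 / m) ^ p / L * (w / ℓr + g * w)) (ρ - 8 * m * P)
            (c + C0 * (1 + 1 / m) ^ p * (t1 - t0) * g)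
            (A + C0 * (1 + 1 / m) ^ p * (g * w + w / ℓr)))
          (fun s t => t - s = (t1 - t0) / 2 ^ P ∧
            BI V' s t lam (g * (1 + C0 * (1 + 1 / m) ^ p * (t1 - t0) * g)) (σ * ν ^ (2 * P))
            (ρ - 8 * m * P) (c + C0 * (1 + 1 / m) ^ p * (t1 - t0) * g)
            (A + C0 * (1 + 1 / m) ^ p * (g * w + w / ℓr)))
          t0 t1 (6 * P) 1

/-! ### Facts about `BI` (Part II) -/

/-- Test functions: smooth, `2π`-periodic, divergence free. -/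
structure Tst (φ : Fld) : Prop where
  smooth : ContDiff ℝ 2 (fun x : (Fin 2 → ℝ) × ℝ => φ x.1 x.2)
  per : ∀ x (n : Fin 2 → ℤ) t, φ (fun a => x a + 2 * Real.pi * n a) t = φ x t
  div : ∀ x t, ∑ a : Fin 2, fderiv ℝ (fun y => φ y t a) x (Pi.single a 1) = 0

/-- The box `[0,2π]^2`. -/
def Bx : Set (Fin 2 → ℝ) := Set.Icc 0 (fun _ => 2 * Real.pi)

/-- Spatial pairing at time `t`. -/
noncomputable def pr (V φ : Fld) (t : ℝ) : ℝ := ∫ x in Bx, ∑ a, V x t a * φ x t a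

/-- The integrand of the weak formulation, integrated in space at time `t`. -/
noncomputable def wf (V φ : Fld) (t : ℝ) : ℝ :=
  ∫ x in Bx, ((∑ a, V x t a * deriv (fun s => φ x s a) t) +
    ∑ a, ∑ b, V x t a * V x t b * fderiv ℝ (fun y => φ y t a) x (Pi.single b 1))

/-- Weak formulation on `[s,t]` with error `ε (t-s) Λ`, `Λ` a bound of the gradient of the test
function. -/
def WE (V : Fld) (s t ε : ℝ) : Prop :=
  ∀ φ : Fld, Tst φ → ∀ Λ : ℝ,
    (∀ x τ a b, |fderiv ℝ (fun y => φ y τ a) x (Pi.single b 1)| ≤ Λ) →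
    |(∫ τ in s..t, wf V φ τ) - (pr V φ t - pr V φ s)| ≤ ε * (t - s) * Λ

/-- Weakly divergence free at time `t`. -/
def DF (V : Fld) (t : ℝ) : Prop :=
  ∀ ψ : (Fin 2 → ℝ) → ℝ, ContDiff ℝ 2 ψ → (∀ x (n : Fin 2 → ℤ), ψ (fun a => x a + 2 * Real.pi * n a) = ψ x) →
    ∫ x in Bx, ∑ a, V x t a * fderiv ℝ ψ x (Pi.single a 1) = 0

/-- Periodic at time `t`. -/
def PerF (V : Fld) (t : ℝ) : Prop :=
  ∀ x (n : Fin 2 → ℤ), V (fun a => x a + 2 * Real.pi * n a) t = V x t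

/-- Lipschitz in space-time on the time interval `[s,t]`. -/
def Lp (V : Fld) (s t Λ : ℝ) : Prop :=
  ∀ τ ∈ Set.Icc s t, ∀ τ' ∈ Set.Icc s t, ∀ x y : Fin 2 → ℝ, ∀ a,
    |V x τ a - V y τ' a| ≤ Λ * (‖x - y‖ + |τ - τ'|)

/-- The list of facts of Part II. -/
structure BIFacts : Prop where
  mono : ∀ (V : Fld) (t0 t1 lam g σ ρ c A lam' g' σ' ρ' c' A' : ℝ),
    BI V t0 t1 lam g σ ρ c A → 0 < lam → lam ≤ lam' → g ≤ g' → g / lam ≤ g' / lam' → σ ≤ σ' →
    ρ' ≤ ρ → 0 ≤ ρ' → c ≤ c' → A ≤ A' → BI V t0 t1 lam' g' σ' ρ' c' A'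
  restrict : ∀ (V : Fld) (t0 t1 s0 s1 lam g σ ρ c A : ℝ),
    BI V t0 t1 lam g σ ρ c A → t0 ≤ s0 → s0 < s1 → s1 ≤ t1 → BI V s0 s1 lam g σ ρ c A
  congr : ∀ (V V' : Fld) (t0 t1 lam g σ ρ c A : ℝ),
    BI V t0 t1 lam g σ ρ c A → (∀ x, ∀ t ∈ Set.Icc t0 t1, V' x t = V x t) →
    BI V' t0 t1 lam g σ ρ c A
  lip : ∀ (V : Fld) (t0 t1 lam g σ ρ c A v0 : ℝ),
    BI V t0 t1 lam g σ ρ c A → 0 < ρ → 0 ≤ c → c ≤ 1 / 10 →
    (∀ x, ∀ t ∈ Set.Icc t0 t1, ∀ a, |V x t a| ≤ v0) →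
    Lp V t0 t1 (A + 8 * g * (1 + v0))
  per : ∀ (V : Fld) (t0 t1 lam g σ ρ c A : ℝ), BI V t0 t1 lam g σ ρ c A →
    ∀ t ∈ Set.Icc t0 t1, PerF V t
  divf : ∀ (V : Fld) (t0 t1 lam g σ ρ c A : ℝ), BI V t0 t1 lam g σ ρ c A → 0 < ρ → 0 ≤ c →
    c ≤ 1 / 10 → ∀ t ∈ Set.Icc t0 t1, DF V t
  weak : ∀ (V : Fld) (t0 t1 lam g σ ρ c A : ℝ), BI V t0 t1 lam g σ ρ c A → 0 < ρ → 0 ≤ c →
    c ≤ 1 / 10 → WE V t0 t1 (4 * (2 * Real.pi) ^ 2 * σ)
  smooth : ∀ (V : Fld) (t0 t1 lam g ρ c A : ℝ), BI V t0 t1 lam g 0 ρ c A → 0 < ρ → 0 ≤ c →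
    c ≤ 1 / 10 → ∀ n : ℕ,
    ContDiffOn ℝ n (fun x : (Fin 2 → ℝ) × ℝ => V x.1 x.2) (Set.univ ×ˢ Set.Ioo t0 t1)

end ES

namespace ES

end ES

end

section

/-!
Project ES, Part III, module RTree: trees of consecutive intervals.

A tree `τ : PT` describes a partition of `[τ.lo, τ.hi]` into consecutive closed intervals, exact
leaves `ex s t` and bad leaves `bd s t`.  All proofs are short inductions on the tree.
-/

namespace ES

/-- Trees of consecutive intervals: exact leaves and bad leaves. -/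
inductive PT : Type
  | ex (s t : ℝ) : PT
  | bd (s t : ℝ) : PT
  | cat (l r : PT) : PT

namespace PT

/-- Left end. -/
def lo : PT → ℝ
  | ex s _ => s
  | bd s _ => s
  | cat l _ => l.lo

/-- Right end. -/
def hi : PT → ℝ
  | ex _ t => t
  | bd _ t => t
  | cat _ r => r.hi

/-- Number of bad leaves. -/
def nb : PT → ℕ
  | ex _ _ => 0
  | bd _ _ => 1
  | cat l r => l.nb + r.nb

/-- Union of the closed bad leaves. -/
def bads : PT → Set ℝ
  | ex _ _ => ∅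
  | bd s t => Set.Icc s t
  | cat l r => l.bads ∪ r.bads

/-- Union of the open bad leaves. -/
def obads : PT → Set ℝ
  | ex _ _ => ∅
  | bd s t => Set.Ioo s t
  | cat l r => l.obads ∪ r.obads

/-- All end points of leaves. -/
def ends : PT → Set ℝ
  | ex s t => {s, t}
  | bd s t => {s, t}
  | cat l r => l.ends ∪ r.ends

/-- Validity: exact leaves satisfy `G`, bad leaves satisfy `B`, consecutive leaves fit. -/
def Valid (G B : ℝ → ℝ → Prop) : PT → Prop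
  | ex s t => s < t ∧ G s t
  | bd s t => s < t ∧ B s t
  | cat l r => l.Valid G B ∧ r.Valid G B ∧ l.hi = r.lo

theorem Valid.lt {G B : ℝ → ℝ → Prop} {τ : PT} (h : τ.Valid G B) : τ.lo < τ.hi := by
  induction τ with
  | ex s t => exact h.1
  | bd s t => exact h.1
  | cat l r ihl ihr =>
    obtain ⟨h1, h2, h3⟩ := h
    have a1 := ihl h1
    have a2 := ihr h2
    show l.lo < r.hi
    linarith

theorem Valid.mono {G B G' B' : ℝ → ℝ → Prop} {τ : PT} (h : τ.Valid G B)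
    (hG : ∀ s t, τ.lo ≤ s → t ≤ τ.hi → G s t → G' s t)
    (hB : ∀ s t, τ.lo ≤ s → t ≤ τ.hi → B s t → B' s t) : τ.Valid G' B' := by
  induction τ with
  | ex s t => exact ⟨h.1, hG s t le_rfl le_rfl h.2⟩
  | bd s t => exact ⟨h.1, hB s t le_rfl le_rfl h.2⟩
  | cat l r ihl ihr =>
    obtain ⟨h1, h2, h3⟩ := h
    have a1 := h1.lt
    have a2 := h2.lt
    have e1 : (cat l r).lo = l.lo := rfl
    have e2 : (cat l r).hi = r.hi := rfl
    rw [e1, e2] at hG hB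
    refine ⟨ihl h1 ?_ ?_, ihr h2 ?_ ?_, h3⟩
    · intro s t b1 b2
      exact hG s t b1 (by linarith)
    · intro s t b1 b2
      exact hB s t b1 (by linarith)
    · intro s t b1 b2
      exact hG s t (by linarith) b2
    · intro s t b1 b2
      exact hB s t (by linarith) b2

theorem bads_closed (τ : PT) : IsClosed τ.bads := by
  induction τ with
  | ex s t => exact isClosed_empty
  | bd s t => exact isClosed_Icc
  | cat l r ihl ihr => exact ihl.union ihr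

theorem ends_finite (τ : PT) : τ.ends.Finite := by
  induction τ with
  | ex s t => exact Set.toFinite ({s, t} : Set ℝ)
  | bd s t => exact Set.toFinite ({s, t} : Set ℝ)
  | cat l r ihl ihr => exact ihl.union ihr

theorem obads_sub_bads (τ : PT) : τ.obads ⊆ τ.bads := by
  induction τ with
  | ex s t => exact Set.Subset.refl _
  | bd s t => exact Set.Ioo_subset_Icc_self
  | cat l r ihl ihr => exact Set.union_subset_union ihl ihr

theorem lo_mem_ends (τ : PT) : τ.lo ∈ τ.ends := by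
  induction τ with
  | ex s t => exact Or.inl rfl
  | bd s t => exact Or.inl rfl
  | cat l r ihl ihr => exact Or.inl ihl

theorem hi_mem_ends (τ : PT) : τ.hi ∈ τ.ends := by
  induction τ with
  | ex s t => exact Or.inr rfl
  | bd s t => exact Or.inr rfl
  | cat l r ihl ihr => exact Or.inr ihr

theorem Valid.bads_sub {G B : ℝ → ℝ → Prop} {τ : PT} (h : τ.Valid G B) :
    τ.bads ⊆ Set.Icc τ.lo τ.hi := by
  induction τ with
  | ex s t => exact Set.empty_subset _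
  | bd s t => exact Set.Subset.refl _
  | cat l r ihl ihr =>
    obtain ⟨h1, h2, h3⟩ := h
    have a1 := h1.lt
    have a2 := h2.lt
    intro x hx
    show l.lo ≤ x ∧ x ≤ r.hi
    rcases hx with hx | hx
    · have := ihl h1 hx
      exact ⟨this.1, by linarith [this.2]⟩
    · have := ihr h2 hx
      exact ⟨by linarith [this.1], this.2⟩

theorem Valid.ends_sub {G B : ℝ → ℝ → Prop} {τ : PT} (h : τ.Valid G B) :
    τ.ends ⊆ Set.Icc τ.lo τ.hi := by
  induction τ with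
  | ex s t =>
    intro x hx
    have a1 : s < t := h.1
    show s ≤ x ∧ x ≤ t
    rcases hx with hx | hx
    · rw [hx]
      exact ⟨le_rfl, a1.le⟩
    · rw [Set.mem_singleton_iff.1 hx]
      exact ⟨a1.le, le_rfl⟩
  | bd s t =>
    intro x hx
    have a1 : s < t := h.1
    show s ≤ x ∧ x ≤ t
    rcases hx with hx | hx
    · rw [hx]
      exact ⟨le_rfl, a1.le⟩
    · rw [Set.mem_singleton_iff.1 hx]
      exact ⟨a1.le, le_rfl⟩
  | cat l r ihl ihr =>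
    obtain ⟨h1, h2, h3⟩ := h
    have a1 := h1.lt
    have a2 := h2.lt
    intro x hx
    show l.lo ≤ x ∧ x ≤ r.hi
    rcases hx with hx | hx
    · have := ihl h1 hx
      exact ⟨this.1, by linarith [this.2]⟩
    · have := ihr h2 hx
      exact ⟨by linarith [this.1], this.2⟩

theorem Valid.obads_sub {G B : ℝ → ℝ → Prop} {τ : PT} (h : τ.Valid G B) :
    τ.obads ⊆ Set.Ioo τ.lo τ.hi := by
  induction τ with
  | ex s t => exact Set.empty_subset _
  | bd s t => exact Set.Subset.refl _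
  | cat l r ihl ihr =>
    obtain ⟨h1, h2, h3⟩ := h
    have a1 := h1.lt
    have a2 := h2.lt
    intro x hx
    show l.lo < x ∧ x < r.hi
    rcases hx with hx | hx
    · have := ihl h1 hx
      exact ⟨this.1, by linarith [this.2]⟩
    · have := ihr h2 hx
      exact ⟨by linarith [this.1], this.2⟩

/-- A time which is not in a closed bad leaf and not an end point is inside an exact leaf, whose
interior does not meet the closed bad leaves. -/
theorem Valid.cover {G B : ℝ → ℝ → Prop} {τ : PT} (h : τ.Valid G B) {t : ℝ}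
    (ht : t ∈ Set.Icc τ.lo τ.hi) (h1 : t ∉ τ.bads) (h2 : t ∉ τ.ends) :
    ∃ s u, G s u ∧ τ.lo ≤ s ∧ u ≤ τ.hi ∧ t ∈ Set.Ioo s u ∧
      ∀ t' ∈ Set.Ioo s u, t' ∉ τ.bads := by
  induction τ with
  | ex s u =>
    refine ⟨s, u, h.2, le_rfl, le_rfl, ?_, fun t' _ h' => h'⟩
    have b1 : t ≠ s := fun e => h2 (Or.inl e)
    have b2 : t ≠ u := fun e => h2 (Or.inr e)
    exact ⟨lt_of_le_of_ne ht.1 (Ne.symm b1), lt_of_le_of_ne ht.2 b2⟩
  | bd s u => exact absurd ht h1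
  | cat l r ihl ihr =>
    obtain ⟨g1, g2, g3⟩ := h
    have a1 := g1.lt
    have a2 := g2.lt
    have b1 : t ∉ l.bads := fun e => h1 (Or.inl e)
    have b2 : t ∉ r.bads := fun e => h1 (Or.inr e)
    have c1 : t ∉ l.ends := fun e => h2 (Or.inl e)
    have c2 : t ∉ r.ends := fun e => h2 (Or.inr e)
    have htl : l.lo ≤ t := ht.1
    have htr : t ≤ r.hi := ht.2
    rcases le_total t l.hi with hle | hle
    · obtain ⟨s, u, d1, d2, d3, d4, d5⟩ := ihl g1 ⟨htl, hle⟩ b1 c1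
      refine ⟨s, u, d1, d2, ?_, d4, ?_⟩
      · show u ≤ r.hi
        linarith
      · rintro t' ht' (e | e)
        · exact d5 t' ht' e
        · have := (g2.bads_sub e).1
          linarith [ht'.2]
    · obtain ⟨s, u, d1, d2, d3, d4, d5⟩ := ihr g2 ⟨by linarith, htr⟩ b2 c2
      refine ⟨s, u, d1, ?_, d3, d4, ?_⟩
      · show l.lo ≤ s
        linarith
      · rintro t' ht' (e | e)
        · have := (g1.bads_sub e).2
          linarith [ht'.1]
        · exact d5 t' ht' e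

/-- Every time is in a leaf. -/
theorem Valid.leaf {G B : ℝ → ℝ → Prop} {τ : PT} (h : τ.Valid G B) {t : ℝ}
    (ht : t ∈ Set.Icc τ.lo τ.hi) :
    ∃ s u, (G s u ∨ B s u) ∧ s < u ∧ τ.lo ≤ s ∧ u ≤ τ.hi ∧ t ∈ Set.Icc s u := by
  induction τ with
  | ex s u => exact ⟨s, u, Or.inl h.2, h.1, le_rfl, le_rfl, ht⟩
  | bd s u => exact ⟨s, u, Or.inr h.2, h.1, le_rfl, le_rfl, ht⟩
  | cat l r ihl ihr =>
    obtain ⟨g1, g2, g3⟩ := h
    have a1 := g1.lt
    have a2 := g2.lt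
    have htl : l.lo ≤ t := ht.1
    have htr : t ≤ r.hi := ht.2
    rcases le_total t l.hi with hle | hle
    · obtain ⟨s, u, d1, d2, d3, d4, d5⟩ := ihl g1 ⟨htl, hle⟩
      refine ⟨s, u, d1, d2, d3, ?_, d5⟩
      show u ≤ r.hi
      linarith
    · obtain ⟨s, u, d1, d2, d3, d4, d5⟩ := ihr g2 ⟨by linarith, htr⟩
      refine ⟨s, u, d1, d2, ?_, d4, d5⟩
      show l.lo ≤ s
      linarith

/-- The closed bad set is a union of `nb` closed bad leaves. -/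
theorem Valid.bads_eq {G B : ℝ → ℝ → Prop} {τ : PT} (h : τ.Valid G B) :
    ∃ a b : Fin τ.nb → ℝ, (∀ i, a i < b i ∧ B (a i) (b i)) ∧
      τ.bads = ⋃ i, Set.Icc (a i) (b i) := by
  induction τ with
  | ex s t =>
    refine ⟨fun _ => 0, fun _ => 0, fun i => Fin.elim0 i, ?_⟩
    ext x
    constructor
    · intro hx
      exact absurd hx (Set.notMem_empty x)
    · intro hx
      obtain ⟨i, -⟩ := Set.mem_iUnion.1 hx
      exact Fin.elim0 i
  | bd s t =>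
    refine ⟨fun _ => s, fun _ => t, fun _ => h, ?_⟩
    ext x
    constructor
    · intro hx
      exact Set.mem_iUnion.2 ⟨(0 : Fin 1), hx⟩
    · intro hx
      obtain ⟨i, hi⟩ := Set.mem_iUnion.1 hx
      exact hi
  | cat l r ihl ihr =>
    obtain ⟨g1, g2, g3⟩ := h
    obtain ⟨a1, b1, c1, d1⟩ := ihl g1
    obtain ⟨a2, b2, c2, d2⟩ := ihr g2
    refine ⟨(Fin.append a1 a2 : Fin (l.nb + r.nb) → ℝ), (Fin.append b1 b2 : Fin (l.nb + r.nb) → ℝ),
      ?_, ?_⟩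
    · intro i
      refine Fin.addCases (motive := fun i : Fin (l.nb + r.nb) =>
        Fin.append a1 a2 i < Fin.append b1 b2 i ∧ B (Fin.append a1 a2 i) (Fin.append b1 b2 i))
        (fun j => ?_) (fun j => ?_) i
      · rw [Fin.append_left, Fin.append_left]
        exact c1 j
      · rw [Fin.append_right, Fin.append_right]
        exact c2 j
    · show l.bads ∪ r.bads = _
      rw [d1, d2]
      ext x
      constructor
      · rintro (hx | hx)
        · obtain ⟨j, hj⟩ := Set.mem_iUnion.1 hx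
          refine Set.mem_iUnion.2 ⟨Fin.castAdd r.nb j, ?_⟩
          show x ∈ Set.Icc (Fin.append a1 a2 (Fin.castAdd r.nb j))
            (Fin.append b1 b2 (Fin.castAdd r.nb j))
          rw [Fin.append_left, Fin.append_left]
          exact hj
        · obtain ⟨j, hj⟩ := Set.mem_iUnion.1 hx
          refine Set.mem_iUnion.2 ⟨Fin.natAdd l.nb j, ?_⟩
          show x ∈ Set.Icc (Fin.append a1 a2 (Fin.natAdd l.nb j))
            (Fin.append b1 b2 (Fin.natAdd l.nb j))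
          rw [Fin.append_right, Fin.append_right]
          exact hj
      · intro hx
        obtain ⟨i, hi⟩ := Set.mem_iUnion.1 hx
        revert hi
        refine Fin.addCases (motive := fun i : Fin (l.nb + r.nb) =>
          x ∈ Set.Icc (Fin.append a1 a2 i) (Fin.append b1 b2 i) →
            x ∈ (⋃ i, Set.Icc (a1 i) (b1 i)) ∪ ⋃ i, Set.Icc (a2 i) (b2 i))
          (fun j => ?_) (fun j => ?_) i
        · rw [Fin.append_left, Fin.append_left]
          exact fun hj => Or.inl (Set.mem_iUnion.2 ⟨j, hj⟩)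
        · rw [Fin.append_right, Fin.append_right]
          exact fun hj => Or.inr (Set.mem_iUnion.2 ⟨j, hj⟩)

/-- Conversion of `Prt`. -/
theorem of_Prt {G B1 B2 : ℝ → ℝ → Prop} {s t : ℝ} {n m : ℕ} (h : Prt G B1 B2 s t n m) :
    ∃ τ : PT, τ.lo = s ∧ τ.hi = t ∧ τ.nb = n + m ∧
      τ.Valid G (fun a b => B1 a b ∨ B2 a b) := by
  induction h with
  | good h1 h2 => exact ⟨PT.ex _ _, rfl, rfl, rfl, h1, h2⟩
  | fast h1 h2 => exact ⟨PT.bd _ _, rfl, rfl, rfl, h1, Or.inl h2⟩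
  | tail h1 h2 => exact ⟨PT.bd _ _, rfl, rfl, rfl, h1, Or.inr h2⟩
  | cat _ _ ih1 ih2 =>
    obtain ⟨τ1, a1, a2, a3, a4⟩ := ih1
    obtain ⟨τ2, b1, b2, b3, b4⟩ := ih2
    refine ⟨PT.cat τ1 τ2, a1, b2, ?_, a4, b4, by rw [a2, b1]⟩
    show τ1.nb + τ2.nb = _
    omega

/-- Gluing of Lipschitz bounds. -/
theorem Valid.lp {V : Fld} {Λ : ℝ} {G B : ℝ → ℝ → Prop} {τ : PT} (h : τ.Valid G B)
    (hG : ∀ s t, G s t → Lp V s t Λ) (hB : ∀ s t, B s t → Lp V s t Λ) : Lp V τ.lo τ.hi Λ := by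
  induction τ with
  | ex s t => exact hG s t h.2
  | bd s t => exact hB s t h.2
  | cat l r ihl ihr =>
    obtain ⟨g1, g2, g3⟩ := h
    have a1 := g1.lt
    have a2 := g2.lt
    have L1 := ihl g1
    have L2 := ihr g2
    show Lp V l.lo r.hi Λ
    have hml : l.hi ∈ Set.Icc l.lo l.hi := ⟨a1.le, le_rfl⟩
    have hmr : l.hi ∈ Set.Icc r.lo r.hi := ⟨g3.ge, by linarith⟩
    intro u hu u' hu' x y a
    rcases le_total u l.hi with h1 | h1 <;> rcases le_total u' l.hi with h2 | h2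
    · exact L1 u ⟨hu.1, h1⟩ u' ⟨hu'.1, h2⟩ x y a
    · have c1 := L1 u ⟨hu.1, h1⟩ l.hi hml x y a
      have c2 := L2 l.hi hmr u' ⟨by linarith, hu'.2⟩ y y a
      have c3 := abs_sub_le (V x u a) (V y l.hi a) (V y u' a)
      rw [sub_self, norm_zero] at c2
      rw [abs_of_nonpos (by linarith : u - l.hi ≤ 0)] at c1
      rw [abs_of_nonpos (by linarith : l.hi - u' ≤ 0)] at c2
      rw [abs_of_nonpos (by linarith : u - u' ≤ 0)]
      linarith
    · have c1 := L2 u ⟨by linarith, hu.2⟩ l.hi hmr x y a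
      have c2 := L1 l.hi hml u' ⟨hu'.1, h2⟩ y y a
      have c3 := abs_sub_le (V x u a) (V y l.hi a) (V y u' a)
      rw [sub_self, norm_zero] at c2
      rw [abs_of_nonneg (by linarith : 0 ≤ u - l.hi)] at c1
      rw [abs_of_nonneg (by linarith : 0 ≤ l.hi - u')] at c2
      rw [abs_of_nonneg (by linarith : 0 ≤ u - u')]
      linarith
    · exact L2 u ⟨by linarith, hu.2⟩ u' ⟨by linarith, hu'.2⟩ x y a

end PT

end ES

end

section

/-! ES-SDef: hypotheses structures for the estimates of the sub-block system. -/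

open scoped BoundedContinuousFunction

namespace ES

/-- Data bounds at the radius `r + 2m`. -/
structure DH (d : Dat) (lam g σ c m r0 : ℝ) (r : ℝ → ℝ) : Prop where
  kb : KB d.κ lam
  hlam : 1 ≤ lam
  hm : 0 < m
  hm1 : m ≤ 1
  r00 : 0 < r0
  hr : ∀ t, r0 ≤ r t
  hr2 : ∀ t, r t ≤ 2
  hc0 : 0 ≤ c
  hc : c ≤ 1 / 100
  hg : 0 ≤ g
  hσ : 0 ≤ σ
  bF : ∀ a b, Bd 0 (fun t => r t + 2 * m) (grad d.κ d.ξ a b) c
  bB : ∀ a, Bd 0 (fun t => r t + 2 * m) (d.B a) (g / lam)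
  bG : ∀ a b, Bd 0 (fun t => r t + 2 * m) (d.G a b) g
  bR : ∀ a b, Bd 0 (fun t => r t + 2 * m) (d.R a b) σ

/-- Smallness of `ζ`. -/
def ZH (lam m : ℝ) (r : ℝ → ℝ) (ζ : Vec) : Prop :=
  ∀ j, Bd 2 r (ζ j) (1 / (256 * lam * (1 + 1 / m)))

/-- Difference of two `ζ`. -/
def DZ (lam m : ℝ) (r : ℝ → ℝ) (ζ ζ' : Vec) (s : ℝ) : Prop :=
  ∀ j, Bd 2 r (ζ j - ζ' j) (s / (512 * lam * (1 + 1 / m)))

/-- Bounds of the unknowns `ζ, E, W` in the ball. -/
structure BH (lam m w : ℝ) (r : ℝ → ℝ) (ζ E W : Vec) : Prop where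
  z : ZH lam m r ζ
  e : ∀ j, Bd 1 r (E j) (2 * w)
  w0 : ∀ j, Bd 0 r (W j) (33 * w)
  w1 : ∀ j, Bd 1 r (W j) (129 * (1 + 1 / m) * w)

/-- Solutions of the sub-block system in the ball (output of the fixed point theorem). -/
structure SB0 (P : SB) (lam g ρ0 m w : ℝ) (ζ E W a q : Vec) : Prop where
  sol : P.Sol ζ E W a q
  lζ : ∀ j, Lev P.d.i (ζ j)
  lE : ∀ j, Lev P.d.i (E j)
  lW : ∀ j, Lev (P.d.i + 1) (W j)
  la : ∀ j, Lev (P.d.i + 1) (a j)
  lq : ∀ j, Lev (P.d.i + 1) (q j)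
  mW : ∀ j, mean P.d.i (W j) = 0
  rζ : ∀ j, IsR (ζ j)
  rE : ∀ j, IsR (E j)
  rW : ∀ j, IsR (W j)
  ra : ∀ j, IsR (a j)
  rq : ∀ j, IsR (q j)
  cζ : ∀ j, Cl P.ta P.tb (ζ j)
  cE : ∀ j, Cl P.ta P.tb (E j)
  cW : ∀ j, Cl P.ta P.tb (W j)
  ca : ∀ j, Cl P.ta P.tb (a j)
  cq : ∀ j, Cl P.ta P.tb (q j)
  b0 : P.b = 0 → ∀ j, W j = 0 ∧ osc P.d.i (a j) = 0 ∧ osc P.d.i (q j) = 0
  nζ : ∀ j, Bd 2 (P.r ρ0 m) (ζ j - P.ζa j) (1 / (512 * lam * (1 + 1 / m)))
  nE : ∀ j, Bd 1 (P.r ρ0 m) (E j - P.Ea j) w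
  nW : ∀ j, Bd 1 (P.r ρ0 m) (W j - cst P.χ * P.W0 j) w
  na : ∀ j, Bd 0 (P.r ρ0 m) (a j) (10 ^ 6 * (1 + 1 / m) ^ 2 * g * w)
  nq : ∀ j, Bd 0 (P.r ρ0 m) (q j) (10 ^ 6 * (1 + 1 / m) ^ 2 * g * w)

end ES

end

section

/-! ES-XDef: definitions for the exactness part and the new data (EW 2, EW 3). -/

open scoped BoundedContinuousFunction

namespace ES

/-- `(TF F Ψ)`: `F D^⊥Ψ = D·(TF F Ψ)`. -/
noncomputable def TF (F : Mat) (Ψ : WT) : Mat := fun a j => if j = 0 then F a 1 * Ψ else -(F a 0 * Ψ)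

/-- `(TA κ Ψ y)`: `(D^⊥Ψ · D) y = D·(TA κ Ψ y)`. -/
noncomputable def TA (κ : Kp) (Ψ : WT) (y : Vec) : Mat :=
  fun a j => if j = 0 then Ψ * D κ 1 (y a) else -(Ψ * D κ 0 (y a))

/-- `Mᵀ D π = D·(TM M π)`. -/
noncomputable def TM (M : Mat) (π : WT) : Mat := fun a j => M j a * π

/-- Product of matrices. -/
noncomputable def mulM (F P : Mat) : Mat := fun a b => ∑ c, F a c * P c b

/-- New coordinates `ξ' = ζ + ξ^ζ`. -/
noncomputable def nX (d : Dat) (ζ : Vec) : Vec := fun a => ζ a + comp d.κ ζ (d.ξ a)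

/-- New coordinate velocity `V = v^ζ + F' E`. -/
noncomputable def nV (d : Dat) (ζ E : Vec) : Vec := fun a => vz d ζ a + mulv (FF d ζ) E a

/-- New velocity `u = V + F' W`. -/
noncomputable def nu' (d : Dat) (ζ E W : Vec) : Vec := fun a => nV d ζ E a + mulv (FF d ζ) W a

/-- The time derivative of `ζ`. -/
noncomputable def dz (d : Dat) (ζ E : Vec) : Vec := fun j => comp d.κ ζ (d.B j) + mulv (Pm d ζ) E j

/-- Pressure potential of a vector. -/
noncomputable def pot (κ : Kp) (q : Vec) : WT := Lin κ (dvg κ q)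

/-- Stream function of a vector. -/
noncomputable def strm (κ : Kp) (x : Vec) : WT := Lin κ (∑ b, dp κ b (x b))

/-- The data on the gap `[s1,s2]`. -/
noncomputable def SB.gapD (P : SB) (ζ E W q : Vec) : Dat :=
  Dat.tcl
    { κ := P.κ'
      i := P.d.i + 1
      ξ := nX P.d ζ
      U := nV P.d ζ E
      v := nu' P.d ζ E W
      p := comp P.d.κ ζ P.d.p + pot P.κ' q
      R := 0 } P.s1 P.s2

/-- The data on a ramp `[s,t]`, with stress `Q`. -/
noncomputable def SB.rampD (P : SB) (ζ E W q : Vec) (Q : Mat) (s t : ℝ) : Dat :=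
  Dat.tcl
    { κ := P.κ'
      i := P.d.i + 1
      ξ := nX P.d ζ
      U := nV P.d ζ E
      v := nu' P.d ζ E W
      p := comp P.d.κ ζ P.d.p + pot P.d.κ (fun j => mean P.d.i (q j))
      R := Q } s t

/-- Force on a ramp: `h = F' Wt - {f}`. -/
noncomputable def SB.force (P : SB) (ζ E W Wt : Vec) : Vec :=
  fun a => mulv (FF P.d ζ) Wt a - osc P.d.i (P.f ζ E W a)

/-- Linear function of time from `0` at `a` to `1` at `b`, clamped. -/
noncomputable def lin01 (a b : ℝ) : Ct :=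
  BoundedContinuousFunction.ofNormedAddCommGroup
    (fun t => (((clp a b t - a) / (b - a) : ℝ) : ℂ))
    (Complex.continuous_ofReal.comp (((clp_continuous a b).sub continuous_const).div_const _))
    (|(b - a)| / |(b - a)|) (by
      intro t
      rw [Complex.norm_real, Real.norm_eq_abs, abs_div]
      refine div_le_div_of_nonneg_right ?_ (abs_nonneg _)
      unfold clp
      rcases le_total a (min b t) with h | h
      · rw [max_eq_right h, abs_of_nonneg (by linarith)]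
        exact (by linarith [min_le_left b t] : min b t - a ≤ b - a).trans (le_abs_self _)
      · rw [max_eq_left h]; simp)

/-- The data on the final interval (no wave), `E1 = E(tb)`. -/
noncomputable def SB.finD (P : SB) (ζ E q : Vec) (Q : Mat) : Dat where
  κ := P.d.κ
  i := P.d.i
  ξ := nX P.d ζ
  U := nV P.d ζ E
  v := fun a => nV P.d ζ E a - cst (lin01 P.ta P.tb) * mulv (FF P.d ζ) (fun j => frz P.tb (E j)) a
  p := comp P.d.κ ζ P.d.p + pot P.d.κ q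
  R := Q

end ES

end
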