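import Pool.Agent.H16.TSS.M06

/-! The parts of this file: ES.RParB, ES.RPCa. -/

section

/-!
Project ES, Part III, module RParB: two exact formulas.

`lN/hN = 2 C0 K^p √(C0 δ_n) / (lamN δ_{n+1}) · gN 4^n`, `gN = 2 C0 lamN √(C0 δ_n)`, so the product is
`4 C0² K^p 4^n C0 δ_n/δ_{n+1}`.
`xN`: `hN/(2 C0 lN(n+1)) = 4^(-n)/gN n · lamN(n+1) δ_{n+2}/(4 C0² K(n+1)^p √(C0 δ_{n+1}))`; exponent of `2`:
`-n³ + β n³ + (n+1)³ + β (n+1)³ - 2β (n+2)³ = 3(1-3β)n² + (3-21β)n + (1-15β)`.  Use `sqrt_del`.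
-/

open Filter

namespace ES

private theorem RParB_alg1 {C0 S L σ K q : ℝ} (hC : 0 < C0) (hS : 0 < S) (hL : 0 < L)
    (hσ : 0 < σ) (hq : 0 < q) :
    (2 * C0 * K * S / (L * σ)) / ((1 / q) / (2 * C0 * L * S)) = 4 * C0 ^ 2 * K * q * (S ^ 2 / σ) := by
  field_simp
  ring

private theorem RParB_alg2 {a b x y : ℝ} (hb : 0 < b) (hx : 0 < x) (hy : 0 < y) :
    (a / x ^ 4) / (b / y ^ 4) = a / b * (y / x) ^ 4 := by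
  field_simp

private theorem RParB_alg3 {C0 c A B La Lb Q K q x : ℝ} (hc : c ^ 2 = C0) (hc0 : 0 < c)
    (hA : 0 < A) (hB : 0 < B) (hLa : 0 < La) (hLb : 0 < Lb) (hQ : 0 < Q) (hK : 0 < K)
    (hx : 0 < x) :
    (q / (2 * C0 * La * (c * A / x ^ 2))) /
      (2 * C0 * (2 * C0 * K * (c * B / (x + 1) ^ 2) / (Lb * (Q / (x + 2) ^ 4)))) =
      q * (Lb * Q / (La * A * B)) * (x ^ 2 * (x + 1) ^ 2 / (x + 2) ^ 4) / (8 * C0 ^ 4 * K) := by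
  subst hc
  have h1 : 0 < x + 1 := by linarith
  have h2 : 0 < x + 2 := by linarith
  field_simp
  ring

/-- Exact ratio: `lN n/hN n = 4 C0^3 KN^p 4^n δ_n/δ_{n+1}`. -/
theorem lN_div_hN {C0 : ℝ} (hC : 1 ≤ C0) (p : ℕ) (β : ℝ) {n : ℕ} (hn : 1 ≤ n) :
    lN C0 p β n / hN C0 β n = 4 * C0 ^ 3 * KN n ^ p * 4 ^ n *
      ((2 : ℝ) ^ (2 * β * (((n : ℝ) + 1) ^ 3 - (n : ℝ) ^ 3)) * (((n : ℝ) + 1) / n) ^ 4) := by
  have hC0 : 0 < C0 := by linarith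
  have hn0 : (0 : ℝ) < n := by exact_mod_cast hn
  have hd := del_pos β hn
  have hS : 0 < Real.sqrt (C0 * del β n) := Real.sqrt_pos.2 (mul_pos hC0 hd)
  have hS2 : Real.sqrt (C0 * del β n) ^ 2 = C0 * del β n := Real.sq_sqrt (mul_pos hC0 hd).le
  have hq : (0 : ℝ) < 4 ^ n := by positivity
  have e1 : lN C0 p β n / hN C0 β n =
      4 * C0 ^ 2 * KN n ^ p * 4 ^ n * (Real.sqrt (C0 * del β n) ^ 2 / sigN β n) := by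
    unfold lN hN gN
    rw [one_div_pow]
    exact RParB_alg1 hC0 hS (lamN_pos n) (sigN_pos β n) hq
  have hb : (0 : ℝ) < (2 : ℝ) ^ (-(2 * β * ((n + 1 : ℕ) : ℝ) ^ 3)) :=
    Real.rpow_pos_of_pos (by norm_num) _
  have hn1 : (0 : ℝ) < ((n + 1 : ℕ) : ℝ) := by positivity
  have e2 : del β n / sigN β n = (2 : ℝ) ^ (2 * β * (((n : ℝ) + 1) ^ 3 - (n : ℝ) ^ 3)) *
      (((n : ℝ) + 1) / n) ^ 4 := by
    unfold sigN del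
    rw [RParB_alg2 hb hn0 hn1, ← Real.rpow_sub (by norm_num), Nat.cast_add, Nat.cast_one]
    congr 2
    ring
  rw [e1, hS2, mul_div_assoc, e2]
  ring

/-- Exact value of the number whose logarithm is the number of passes. -/
theorem xN_eq {C0 : ℝ} (hC : 1 ≤ C0) (p : ℕ) (β : ℝ) {n : ℕ} (hn : 1 ≤ n) :
    hN C0 β n / (2 * C0 * lN C0 p β (n + 1)) =
      (1 / 4) ^ n * (2 : ℝ) ^ (3 * (1 - 3 * β) * (n : ℝ) ^ 2 + (3 - 21 * β) * n + (1 - 15 * β)) *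
        ((n : ℝ) ^ 2 * ((n : ℝ) + 1) ^ 2 / ((n : ℝ) + 2) ^ 4) / (8 * C0 ^ 4 * KN (n + 1) ^ p) := by
  have hC0 : 0 < C0 := by linarith
  have hn0 : (0 : ℝ) < n := by exact_mod_cast hn
  have h2 : ∀ x : ℝ, (0 : ℝ) < (2 : ℝ) ^ x := fun x => Real.rpow_pos_of_pos (by norm_num) x
  have hK : 0 < KN (n + 1) ^ p :=
    pow_pos (lt_of_lt_of_le one_pos (KN_pos (Nat.le_add_left 1 n))) p
  have e0 : ((n + 1 : ℕ) : ℝ) = (n : ℝ) + 1 := by push_cast; ring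
  have e00 : ((n + 1 + 1 : ℕ) : ℝ) = (n : ℝ) + 2 := by push_cast; ring
  have e1 : (2 : ℝ) ^ (3 * (1 - 3 * β) * (n : ℝ) ^ 2 + (3 - 21 * β) * n + (1 - 15 * β)) =
      (2 : ℝ) ^ (((n : ℝ) + 1) ^ 3) * (2 : ℝ) ^ (-(2 * β * ((n : ℝ) + 2) ^ 3)) /
        ((2 : ℝ) ^ ((n : ℝ) ^ 3) * (2 : ℝ) ^ (-(β * (n : ℝ) ^ 3)) *
          (2 : ℝ) ^ (-(β * ((n : ℝ) + 1) ^ 3))) := by
    rw [← Real.rpow_add (by norm_num), ← Real.rpow_add (by norm_num),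
      ← Real.rpow_add (by norm_num), ← Real.rpow_sub (by norm_num)]
    congr 1
    ring
  have e2 := RParB_alg3 (C0 := C0) (c := Real.sqrt C0) (A := (2 : ℝ) ^ (-(β * (n : ℝ) ^ 3)))
    (B := (2 : ℝ) ^ (-(β * ((n : ℝ) + 1) ^ 3))) (La := (2 : ℝ) ^ ((n : ℝ) ^ 3))
    (Lb := (2 : ℝ) ^ (((n : ℝ) + 1) ^ 3)) (Q := (2 : ℝ) ^ (-(2 * β * ((n : ℝ) + 2) ^ 3)))
    (K := KN (n + 1) ^ p) (q := (1 / 4 : ℝ) ^ n) (x := (n : ℝ)) (Real.sq_sqrt hC0.le)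
    (Real.sqrt_pos.2 hC0) (h2 _) (h2 _) (h2 _) (h2 _) (h2 _) hK hn0
  rw [e1, ← e2]
  unfold hN lN gN
  rw [sqrt_del hC β hn, sqrt_del hC β (Nat.le_add_left 1 n), lamN_rpow, lamN_rpow, e0]
  unfold sigN del
  rw [e00]

end ES

end

section

/-!
Project ES, Part III, module RPCa: bounds for the number of passes `PN`.

Let `x = hN n/(2 C0 lN (n+1))` (`xN_eq`).  Its exponent of `2` is
`e(n) - 2n`, `e(n) = 3(1-3β)n² + (3-21β)n + (1-15β)`, with `0 ≤ β < 1/3`.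
Lower bound: `8 C0^4 KN(n+1)^p (n+2)^4/(n²(n+1)²) ≤ 2^n` eventually (`gauge`; `n²(n+1)² ≥ 1`), so
`x ≥ 2^(e(n) - 3n)` and `e(n) - 3n ≥ 2n + 21` eventually (the quadratic coefficient is positive).
Upper bound: `x ≤ 2^(e(n))` (all other factors are at most `1`) and `e(n) ≤ 3n²+3n+1 ≤ 7 n²`.
`2^(Nat.log 2 k) ≤ k < 2^(Nat.log 2 k + 1)` for `k = ⌊x⌋₊ ≥ 1`, `⌊x⌋₊ ≤ x < ⌊x⌋₊ + 1`.
-/

open Filter

namespace ES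

theorem ev_xN_ge {C0 : ℝ} (hC : 1 ≤ C0) (p : ℕ) {β : ℝ} (hβ0 : 0 ≤ β) (hβ : β < 1 / 3) :
    ∀ᶠ n : ℕ in atTop, (2 : ℝ) ^ (2 * (n : ℝ) + 21) ≤ hN C0 β n / (2 * C0 * lN C0 p β (n + 1)) := by
  have ha : 0 < 3 * (1 - 3 * β) := by linarith
  filter_upwards [gauge (8 * C0 ^ 4) p 4 (a := 1) one_pos,
    eventually_ge_atTop (⌈34 / (3 * (1 - 3 * β))⌉₊ + 1)] with n hg hn
  have hn1 : 1 ≤ n := by omega
  have hnR : (1 : ℝ) ≤ n := by exact_mod_cast hn1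
  rw [xN_eq hC p β hn1]
  have hK : 1 ≤ KN (n + 1) := KN_pos (by omega)
  have hKp : 1 ≤ KN (n + 1) ^ p := one_le_pow₀ hK
  have hC4 : 1 ≤ C0 ^ 4 := one_le_pow₀ hC
  have hD : 0 < 8 * C0 ^ 4 * KN (n + 1) ^ p * ((n : ℝ) + 2) ^ 4 := by positivity
  set e : ℝ := 3 * (1 - 3 * β) * (n : ℝ) ^ 2 + (3 - 21 * β) * n + (1 - 15 * β) with he
  have hq : (1 : ℝ) ≤ (n : ℝ) ^ 2 * ((n : ℝ) + 1) ^ 2 := by
    have h1 : (1 : ℝ) ≤ (n : ℝ) ^ 2 := one_le_pow₀ hnR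
    have h2 : (1 : ℝ) ≤ ((n : ℝ) + 1) ^ 2 := one_le_pow₀ (by linarith)
    nlinarith
  have h4 : ((1 : ℝ) / 4) ^ n = (2 : ℝ) ^ (-(2 * (n : ℝ))) := by
    rw [Real.rpow_neg (by norm_num), Real.rpow_mul (by norm_num), Real.rpow_natCast]
    rw [one_div, inv_pow]
    norm_num
  have hmain : (2 : ℝ) ^ (e - 3 * n) ≤ (1 / 4) ^ n * (2 : ℝ) ^ e *
      ((n : ℝ) ^ 2 * ((n : ℝ) + 1) ^ 2 / ((n : ℝ) + 2) ^ 4) / (8 * C0 ^ 4 * KN (n + 1) ^ p) := by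
    have hre : (1 / 4 : ℝ) ^ n * (2 : ℝ) ^ e *
      ((n : ℝ) ^ 2 * ((n : ℝ) + 1) ^ 2 / ((n : ℝ) + 2) ^ 4) / (8 * C0 ^ 4 * KN (n + 1) ^ p) =
      ((1 / 4 : ℝ) ^ n * (2 : ℝ) ^ e * ((n : ℝ) ^ 2 * ((n : ℝ) + 1) ^ 2)) /
        (8 * C0 ^ 4 * KN (n + 1) ^ p * ((n : ℝ) + 2) ^ 4) := by
      have h8 : (8 * C0 ^ 4 * KN (n + 1) ^ p) ≠ 0 := by positivity
      have h9 : ((n : ℝ) + 2) ^ 4 ≠ 0 := by positivity
      field_simp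
    rw [hre, le_div_iff₀ hD]
    rw [h4, ← Real.rpow_add (by norm_num)]
    have h5 : (2 : ℝ) ^ (e - 3 * n) * (8 * C0 ^ 4 * KN (n + 1) ^ p * ((n : ℝ) + 2) ^ 4) ≤
        (2 : ℝ) ^ (e - 3 * n) * (2 : ℝ) ^ (1 * (n : ℝ)) :=
      mul_le_mul_of_nonneg_left hg (by positivity)
    rw [← Real.rpow_add (by norm_num)] at h5
    have h6 : e - 3 * n + 1 * (n : ℝ) = -(2 * (n : ℝ)) + e := by ring
    rw [h6] at h5
    refine h5.trans ?_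
    have h7 : 0 < (2 : ℝ) ^ (-(2 * (n : ℝ)) + e) := by positivity
    nlinarith
  refine le_trans ?_ hmain
  apply Real.rpow_le_rpow_of_exponent_le (by norm_num)
  have hnn : 34 / (3 * (1 - 3 * β)) ≤ (n : ℝ) := by
    refine (Nat.le_ceil _).trans ?_
    exact_mod_cast (by omega : ⌈34 / (3 * (1 - 3 * β))⌉₊ ≤ n)
  have hnn2 : 34 ≤ 3 * (1 - 3 * β) * n := by
    rw [div_le_iff₀ ha] at hnn
    linarith
  have hnn3 : 34 * (n : ℝ) ≤ 3 * (1 - 3 * β) * (n : ℝ) ^ 2 := by nlinarith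
  have hb : β * n ≤ (1 / 3) * n := by nlinarith
  rw [he]
  nlinarith

theorem ev_xN_le {C0 : ℝ} (hC : 1 ≤ C0) (p : ℕ) {β : ℝ} (hβ0 : 0 ≤ β) (hβ : β < 1 / 3) :
    ∀ᶠ n : ℕ in atTop, hN C0 β n / (2 * C0 * lN C0 p β (n + 1)) ≤ (2 : ℝ) ^ (7 * (n : ℝ) ^ 2) := by
  filter_upwards [eventually_ge_atTop 1] with n hn1
  have hnR : (1 : ℝ) ≤ n := by exact_mod_cast hn1
  rw [xN_eq hC p β hn1]
  have hK : 1 ≤ KN (n + 1) := KN_pos (by omega)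
  have hKp : 1 ≤ KN (n + 1) ^ p := one_le_pow₀ hK
  have hC4 : 1 ≤ C0 ^ 4 := one_le_pow₀ hC
  set e : ℝ := 3 * (1 - 3 * β) * (n : ℝ) ^ 2 + (3 - 21 * β) * n + (1 - 15 * β) with he
  have hD : 1 ≤ 8 * C0 ^ 4 * KN (n + 1) ^ p := by nlinarith
  have h1 : ((1 : ℝ) / 4) ^ n ≤ 1 := pow_le_one₀ (by norm_num) (by norm_num)
  have h2 : (n : ℝ) ^ 2 * ((n : ℝ) + 1) ^ 2 / ((n : ℝ) + 2) ^ 4 ≤ 1 := by
    rw [div_le_one (by positivity)]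
    have h3 : (n : ℝ) ^ 2 ≤ ((n : ℝ) + 2) ^ 2 := by nlinarith
    have h4 : ((n : ℝ) + 1) ^ 2 ≤ ((n : ℝ) + 2) ^ 2 := by nlinarith
    calc (n : ℝ) ^ 2 * ((n : ℝ) + 1) ^ 2 ≤ ((n : ℝ) + 2) ^ 2 * ((n : ℝ) + 2) ^ 2 := by gcongr
      _ = ((n : ℝ) + 2) ^ 4 := by ring
  have h2' : 0 ≤ (n : ℝ) ^ 2 * ((n : ℝ) + 1) ^ 2 / ((n : ℝ) + 2) ^ 4 := by positivity
  have he0 : 0 < (2 : ℝ) ^ e := by positivity
  have h10 : (0 : ℝ) ≤ (1 / 4) ^ n := by positivity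
  have h5 : (1 / 4) ^ n * (2 : ℝ) ^ e *
      ((n : ℝ) ^ 2 * ((n : ℝ) + 1) ^ 2 / ((n : ℝ) + 2) ^ 4) / (8 * C0 ^ 4 * KN (n + 1) ^ p) ≤
      (2 : ℝ) ^ e := by
    have h6 : (1 / 4) ^ n * (2 : ℝ) ^ e *
      ((n : ℝ) ^ 2 * ((n : ℝ) + 1) ^ 2 / ((n : ℝ) + 2) ^ 4) ≤ 1 * (2 : ℝ) ^ e * 1 := by gcongr
    have h6' : 0 ≤ (1 / 4) ^ n * (2 : ℝ) ^ e *
      ((n : ℝ) ^ 2 * ((n : ℝ) + 1) ^ 2 / ((n : ℝ) + 2) ^ 4) := by positivity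
    calc _ ≤ (1 / 4) ^ n * (2 : ℝ) ^ e *
      ((n : ℝ) ^ 2 * ((n : ℝ) + 1) ^ 2 / ((n : ℝ) + 2) ^ 4) := div_le_self h6' hD
      _ ≤ 1 * (2 : ℝ) ^ e * 1 := h6
      _ = (2 : ℝ) ^ e := by ring
  refine h5.trans ?_
  apply Real.rpow_le_rpow_of_exponent_le (by norm_num)
  rw [he]
  have hb : 0 ≤ β * (n : ℝ) ^ 2 := by positivity
  have hb1 : 0 ≤ β * (n : ℝ) := by positivity
  nlinarith

private theorem RPCa_rpow_nat (n k : ℕ) (hk : (k : ℝ) = 2 * (n : ℝ) + 21) :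
    (2 : ℝ) ^ (2 * (n : ℝ) + 21) = ((2 ^ k : ℕ) : ℝ) := by
  rw [← hk, Real.rpow_natCast]
  push_cast
  rfl

theorem ev_le_PN {C0 : ℝ} (hC : 1 ≤ C0) (p : ℕ) {β : ℝ} (hβ0 : 0 ≤ β) (hβ : β < 1 / 3) :
    ∀ᶠ n : ℕ in atTop, 2 * n + 20 ≤ PN C0 p β n := by
  filter_upwards [ev_xN_ge hC p hβ0 hβ] with n hx
  unfold PN
  rw [RPCa_rpow_nat n (2 * n + 21) (by push_cast; ring)] at hx
  have h1 : 2 ^ (2 * n + 21) ≤ ⌊hN C0 β n / (2 * C0 * lN C0 p β (n + 1))⌋₊ := Nat.le_floor hx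
  have h2 : 2 * n + 21 ≤ Nat.log 2 ⌊hN C0 β n / (2 * C0 * lN C0 p β (n + 1))⌋₊ :=
    Nat.le_log_of_pow_le (by norm_num) h1
  omega

theorem ev_PN_le {C0 : ℝ} (hC : 1 ≤ C0) (p : ℕ) {β : ℝ} (hβ0 : 0 ≤ β) (hβ : β < 1 / 3) :
    ∀ᶠ n : ℕ in atTop, PN C0 p β n ≤ 7 * n ^ 2 := by
  filter_upwards [ev_xN_le hC p hβ0 hβ] with n hx
  unfold PN
  have h0 : (2 : ℝ) ^ (7 * (n : ℝ) ^ 2) = ((2 ^ (7 * n ^ 2) : ℕ) : ℝ) := by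
    have : (7 * (n : ℝ) ^ 2) = ((7 * n ^ 2 : ℕ) : ℝ) := by push_cast; ring
    rw [this, Real.rpow_natCast]
    push_cast
    rfl
  rw [h0] at hx
  have h1 : ⌊hN C0 β n / (2 * C0 * lN C0 p β (n + 1))⌋₊ ≤ 2 ^ (7 * n ^ 2) := by
    have := Nat.floor_le_floor hx
    rwa [Nat.floor_natCast] at this
  calc Nat.log 2 ⌊hN C0 β n / (2 * C0 * lN C0 p β (n + 1))⌋₊ ≤ Nat.log 2 (2 ^ (7 * n ^ 2)) :=
        Nat.log_mono_right h1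
    _ = 7 * n ^ 2 := Nat.log_pow (by norm_num) _

theorem ev_lr {C0 : ℝ} (hC : 1 ≤ C0) (p : ℕ) {β : ℝ} (hβ0 : 0 ≤ β) (hβ : β < 1 / 3) :
    ∀ᶠ n : ℕ in atTop, lN C0 p β (n + 1) * (C0 * 2 ^ PN C0 p β n) ≤ hN C0 β n / 2 := by
  filter_upwards [ev_xN_ge hC p hβ0 hβ, eventually_ge_atTop 1] with n hx hn1
  have hl : 0 < lN C0 p β (n + 1) := lN_pos hC p β (by omega)
  have hC0 : 0 < C0 := by linarith
  have hx1 : 1 ≤ hN C0 β n / (2 * C0 * lN C0 p β (n + 1)) :=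
    (Real.one_le_rpow (by norm_num) (by positivity)).trans hx
  have hf : ⌊hN C0 β n / (2 * C0 * lN C0 p β (n + 1))⌋₊ ≠ 0 := by
    have : 1 ≤ ⌊hN C0 β n / (2 * C0 * lN C0 p β (n + 1))⌋₊ := Nat.le_floor (by simpa using hx1)
    omega
  have h1 : 2 ^ PN C0 p β n ≤ ⌊hN C0 β n / (2 * C0 * lN C0 p β (n + 1))⌋₊ :=
    Nat.pow_log_le_self 2 hf
  have h2 : ((2 : ℝ) ^ PN C0 p β n) ≤ hN C0 β n / (2 * C0 * lN C0 p β (n + 1)) := by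
    have h3 : ((2 ^ PN C0 p β n : ℕ) : ℝ) ≤ (⌊hN C0 β n / (2 * C0 * lN C0 p β (n + 1))⌋₊ : ℝ) := by
      exact_mod_cast h1
    have h4 := Nat.floor_le (by linarith : 0 ≤ hN C0 β n / (2 * C0 * lN C0 p β (n + 1)))
    push_cast at h3
    linarith
  rw [le_div_iff₀ (by positivity)] at h2
  nlinarith

theorem ev_lr2 {C0 : ℝ} (hC : 1 ≤ C0) (p : ℕ) {β : ℝ} (hβ0 : 0 ≤ β) (hβ : β < 1 / 3) :
    ∀ᶠ n : ℕ in atTop, hN C0 β n / 2 ^ PN C0 p β n ≤ 4 * C0 * lN C0 p β (n + 1) := by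
  filter_upwards [eventually_ge_atTop 1] with n hn1
  have hl : 0 < lN C0 p β (n + 1) := lN_pos hC p β (by omega)
  have hC0 : 0 < C0 := by linarith
  have h1 : ⌊hN C0 β n / (2 * C0 * lN C0 p β (n + 1))⌋₊ < 2 ^ (PN C0 p β n + 1) :=
    Nat.lt_pow_succ_log_self (by norm_num) _
  have h2 : hN C0 β n / (2 * C0 * lN C0 p β (n + 1)) ≤ 2 ^ (PN C0 p β n + 1) := by
    have h3 := Nat.lt_floor_add_one (hN C0 β n / (2 * C0 * lN C0 p β (n + 1)))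
    have h4 : ((⌊hN C0 β n / (2 * C0 * lN C0 p β (n + 1))⌋₊ + 1 : ℕ) : ℝ) ≤
        ((2 ^ (PN C0 p β n + 1) : ℕ) : ℝ) := by exact_mod_cast h1
    push_cast at h4
    linarith
  rw [div_le_iff₀ (by positivity)] at h2
  rw [div_le_iff₀ (by positivity)]
  rw [pow_succ] at h2
  nlinarith

end ES

end
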