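import Pool.Agent.H16.TSS.M06

/-! The parts of this file: ES.RPCc, ES.RPCd, ES.RPCe, ES.RPCf, ES.RPCh, ES.RPCi. -/

section

/-!
Project ES, Part III, module RPCc: the parameter conditions `gw`, `kl`, `ex`, `w1`.

`gw`: `wN n ≤ √(C0 del n)` since `del` is decreasing (for `n ≥ 1`), and `2 ≤ 2 C0`.
`kl`: `2 KN n ≤ 2^((n+1)³-n³)` by `gauge` (exponent `3n²+3n+1 ≥ n`).
`ex`: `mN n · lamN(n+1)/(8 lamN n) = 2^(3n²+3n+1)/(1600 n⁴) ≥ 2^(n²)` eventually, and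
`exp(-2^(n²)) ≤ 2^(-(n+1)³)` as `2^(n²) ≥ (n+1)³` eventually (`2 ≤ e`).
`w1`: `del` is decreasing.
-/

open Filter

namespace ES

theorem del_anti {β : ℝ} (hβ0 : 0 ≤ β) {n : ℕ} (hn : 1 ≤ n) : del β (n + 1) ≤ del β n := by
  have hn1 : (1 : ℝ) ≤ n := by exact_mod_cast hn
  have hn0 : (0 : ℝ) < n := by linarith
  unfold del
  push_cast
  have h1 : (n : ℝ) ^ 3 ≤ ((n : ℝ) + 1) ^ 3 := pow_le_pow_left₀ hn0.le (by linarith) 3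
  have h2 : (n : ℝ) ^ 4 ≤ ((n : ℝ) + 1) ^ 4 := pow_le_pow_left₀ hn0.le (by linarith) 4
  have h3 : (2 : ℝ) ^ (-(2 * β * ((n : ℝ) + 1) ^ 3)) ≤ (2 : ℝ) ^ (-(2 * β * (n : ℝ) ^ 3)) := by
    apply Real.rpow_le_rpow_of_exponent_le one_le_two
    have := mul_le_mul_of_nonneg_left h1 (by positivity : 0 ≤ 2 * β)
    linarith
  exact div_le_div₀ (by positivity) h3 (by positivity) h2

theorem ev_gw {C0 : ℝ} (hC : 1 ≤ C0) {β : ℝ} (hβ0 : 0 ≤ β) {n : ℕ} (hn : 1 ≤ n) :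
    2 * (lamN n : ℝ) * wN C0 β n ≤ gN C0 β n := by
  have hC0 : 0 ≤ C0 := by linarith
  have h1 : wN C0 β n ≤ Real.sqrt (C0 * del β n) :=
    Real.sqrt_le_sqrt (mul_le_mul_of_nonneg_left (del_anti hβ0 hn) hC0)
  have hl := lamN_pos n
  have h0 : 0 ≤ Real.sqrt (C0 * del β n) := Real.sqrt_nonneg _
  have h2 : 2 * (lamN n : ℝ) * wN C0 β n ≤ 2 * (lamN n : ℝ) * Real.sqrt (C0 * del β n) :=
    mul_le_mul_of_nonneg_left h1 (by positivity)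
  have h3 : 2 * (lamN n : ℝ) * Real.sqrt (C0 * del β n) ≤
      C0 * (2 * (lamN n : ℝ) * Real.sqrt (C0 * del β n)) :=
    le_mul_of_one_le_left (by positivity) hC
  have h4 : gN C0 β n = C0 * (2 * (lamN n : ℝ) * Real.sqrt (C0 * del β n)) := by
    unfold gN; ring
  rw [h4]
  exact h2.trans h3

private theorem RPCc_lam (n : ℕ) :
    (lamN (n + 1) : ℝ) = lamN n * 2 ^ (3 * n ^ 2 + 3 * n + 1) := by
  have : lamN (n + 1) = lamN n * 2 ^ (3 * n ^ 2 + 3 * n + 1) := by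
    unfold lamN
    rw [← pow_add]
    congr 1
    ring
  rw [this]
  push_cast
  ring

private theorem RPCc_KN {n : ℕ} (hn : 1 ≤ n) : KN n ≤ KN (n + 1) := by
  rw [KN_eq hn, KN_eq (by omega)]
  push_cast
  have h2 : (n : ℝ) ^ 4 ≤ ((n : ℝ) + 1) ^ 4 := pow_le_pow_left₀ (Nat.cast_nonneg n) (by linarith) 4
  linarith

private theorem RPCc_two (n : ℕ) : (2 : ℝ) ^ n ≤ 2 ^ (3 * n ^ 2 + 3 * n + 1) :=
  pow_le_pow_right₀ one_le_two (by nlinarith)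

theorem ev_kl : ∀ᶠ n : ℕ in atTop, KN n * (2 * (lamN n : ℝ)) ≤ lamN (n + 1) := by
  filter_upwards [gauge 2 1 0 one_pos, eventually_ge_atTop 1] with n h1 hn
  rw [one_mul, Real.rpow_natCast, pow_one, pow_zero, mul_one] at h1
  rw [RPCc_lam]
  have h2 := RPCc_KN hn
  have h3 := RPCc_two n
  have h4 : 2 * KN n ≤ 2 ^ (3 * n ^ 2 + 3 * n + 1) := by linarith
  have h5 := mul_le_mul_of_nonneg_left h4 (lamN_pos n).le
  linarith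

theorem ev_ex : ∀ᶠ n : ℕ in atTop,
    Real.exp (-(mN n * lamN (n + 1) / (8 * lamN n))) ≤ 1 / (lamN (n + 1) : ℝ) := by
  filter_upwards [gauge 1600 0 7 one_pos, eventually_ge_atTop 1] with n h1 hn
  rw [one_mul, Real.rpow_natCast, pow_zero, mul_one] at h1
  have hn1 : (1 : ℝ) ≤ n := by exact_mod_cast hn
  have hn0 : (0 : ℝ) < n := by linarith
  have hl := lamN_pos n
  have hl1 := lamN_pos (n + 1)
  have h3 := RPCc_two n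
  have e1 : mN n * lamN (n + 1) / (8 * lamN n) = 2 ^ (3 * n ^ 2 + 3 * n + 1) / (1600 * (n : ℝ) ^ 4) := by
    rw [RPCc_lam, mN]
    field_simp
    ring
  rw [e1, Real.exp_neg, one_div]
  apply inv_anti₀ hl1
  have h4 : ((n : ℝ) + 1) ^ 3 ≤ 2 ^ (3 * n ^ 2 + 3 * n + 1) / (1600 * (n : ℝ) ^ 4) := by
    rw [le_div_iff₀ (by positivity)]
    have h5 : ((n : ℝ) + 1) ^ 3 ≤ ((n : ℝ) + 2) ^ 3 := pow_le_pow_left₀ (by positivity) (by linarith) 3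
    have h6 : (n : ℝ) ^ 4 ≤ ((n : ℝ) + 2) ^ 4 := pow_le_pow_left₀ (by positivity) (by linarith) 4
    have h7 : ((n : ℝ) + 1) ^ 3 * (n : ℝ) ^ 4 ≤ ((n : ℝ) + 2) ^ 3 * ((n : ℝ) + 2) ^ 4 :=
      mul_le_mul h5 h6 (by positivity) (by positivity)
    calc ((n : ℝ) + 1) ^ 3 * (1600 * (n : ℝ) ^ 4) = 1600 * (((n : ℝ) + 1) ^ 3 * (n : ℝ) ^ 4) := by
          ring
      _ ≤ 1600 * (((n : ℝ) + 2) ^ 3 * ((n : ℝ) + 2) ^ 4) := by linarith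
      _ = 1600 * ((n : ℝ) + 2) ^ 7 := by ring
      _ ≤ 2 ^ n := h1
      _ ≤ _ := h3
  have h5 : (lamN (n + 1) : ℝ) ≤ Real.exp (((n : ℝ) + 1) ^ 3) := by
    have h6 : (lamN (n + 1) : ℝ) = 2 ^ ((n + 1) ^ 3) := by
      unfold lamN
      push_cast
      rfl
    have h7 : (((n : ℝ) + 1) ^ 3) = (((n + 1) ^ 3 : ℕ) : ℝ) * 1 := by push_cast; ring
    rw [h6, h7, Real.exp_nat_mul]
    apply pow_le_pow_left₀ (by norm_num)
    linarith [Real.add_one_le_exp (1 : ℝ)]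
  exact h5.trans (Real.exp_le_exp.2 h4)

theorem ev_w1 {C0 : ℝ} (hC : 1 ≤ C0) {β : ℝ} (hβ0 : 0 ≤ β) (n : ℕ) :
    wN C0 β (n + 1) ≤ wN C0 β n :=
  Real.sqrt_le_sqrt (mul_le_mul_of_nonneg_left (del_anti hβ0 (by omega : 1 ≤ n + 1)) (by linarith))

end ES

end

section

/-!
Project ES, Part III, module RPCd: the parameter conditions `hg`, `nu`.

`hg`: `hN gN = 4^(-n)` (`hN_gN`) and `C0 KN^p ≤ (1/400) 2^n` eventually (`gauge`).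
`nu`: `wN² = C0 sigN` (`wN_sq`), `hN gN = 4^(-n)`, `(2 lamN n/lamN(n+1))² = 4·2^(-2(3n²+3n+1)) ≤ 4^(-n)`,
so the left side is at most `C0² KN^p · 2 · 4^(-n) sigN n`, and `2 C0² KN^p ≤ 2^n` eventually.
-/

open Filter

namespace ES

private theorem RPCd_lam (n : ℕ) :
    (lamN (n + 1) : ℝ) = lamN n * 2 ^ (3 * n ^ 2 + 3 * n + 1) := by
  have : lamN (n + 1) = lamN n * 2 ^ (3 * n ^ 2 + 3 * n + 1) := by
    unfold lamN
    rw [← pow_add]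
    congr 1
    ring
  rw [this]
  push_cast
  ring

private theorem RPCd_KN {n : ℕ} (hn : 1 ≤ n) (p : ℕ) : KN n ^ p ≤ KN (n + 1) ^ p := by
  apply pow_le_pow_left₀ (by linarith [KN_pos hn])
  rw [KN_eq hn, KN_eq (by omega)]
  push_cast
  have h2 : (n : ℝ) ^ 4 ≤ ((n : ℝ) + 1) ^ 4 := pow_le_pow_left₀ (Nat.cast_nonneg n) (by linarith) 4
  linarith

/-- `C KN^p (1/2)^n ≤ 1` eventually -/
private theorem RPCd_ev (C : ℝ) (hC : 0 ≤ C) (p : ℕ) :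
    ∀ᶠ n : ℕ in atTop, C * KN n ^ p * (1 / 2) ^ n ≤ 1 := by
  filter_upwards [gauge C p 0 one_pos, eventually_ge_atTop 1] with n h1 hn
  rw [one_mul, Real.rpow_natCast, pow_zero, mul_one] at h1
  have h2 : C * KN n ^ p ≤ 2 ^ n := (mul_le_mul_of_nonneg_left (RPCd_KN hn p) hC).trans h1
  have h3 : C * KN n ^ p * (1 / 2) ^ n ≤ 2 ^ n * (1 / 2) ^ n :=
    mul_le_mul_of_nonneg_right h2 (by positivity)
  have h4 : (2 : ℝ) ^ n * (1 / 2) ^ n = 1 := by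
    rw [← mul_pow]
    norm_num
  linarith

private theorem RPCd_quarter (n : ℕ) : (1 / 4 : ℝ) ^ n = (1 / 2) ^ n * (1 / 2) ^ n := by
  rw [← mul_pow]
  norm_num

theorem ev_hg {C0 : ℝ} (hC : 1 ≤ C0) (p : ℕ) (β : ℝ) :
    ∀ᶠ n : ℕ in atTop,
      C0 * KN n ^ p * hN C0 β n * gN C0 β n ≤ 1 / 200 * (1 / 2) ^ (n + 1) := by
  filter_upwards [RPCd_ev (400 * C0) (by linarith) p, eventually_ge_atTop 1] with n h1 hn
  have e1 : C0 * KN n ^ p * hN C0 β n * gN C0 β n = C0 * KN n ^ p * (hN C0 β n * gN C0 β n) := by ring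
  rw [e1, hN_gN hC β hn, RPCd_quarter]
  have h2 : (0 : ℝ) < (1 / 2) ^ n := by positivity
  have h3 : (400 * C0 * KN n ^ p * (1 / 2) ^ n) * (1 / 2) ^ n ≤ 1 * (1 / 2) ^ n :=
    mul_le_mul_of_nonneg_right h1 h2.le
  rw [pow_succ]
  linarith

theorem ev_nu {C0 : ℝ} (hC : 1 ≤ C0) (p : ℕ) (β : ℝ) :
    ∀ᶠ n : ℕ in atTop, C0 * KN n ^ p * wN C0 β n ^ 2 *
      (hN C0 β n * gN C0 β n + (2 * (lamN n : ℝ) / lamN (n + 1)) ^ 2) ≤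
        (1 / 2) ^ n * sigN β n := by
  filter_upwards [RPCd_ev (2 * C0 ^ 2) (by positivity) p, eventually_ge_atTop 1] with n h1 hn
  have hs := sigN_pos β n
  have hl := lamN_pos n
  have hK : 0 < KN n := by linarith [KN_pos hn]
  have h2 : (0 : ℝ) < (1 / 2) ^ n := by positivity
  rw [wN_sq hC, hN_gN hC β hn]
  have e1 : 2 * (lamN n : ℝ) / lamN (n + 1) = 2 / 2 ^ (3 * n ^ 2 + 3 * n + 1) := by
    rw [RPCd_lam]
    field_simp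
  have e2 : 2 * (lamN n : ℝ) / lamN (n + 1) ≤ (1 / 2) ^ n := by
    rw [e1, div_le_iff₀ (by positivity)]
    have h3 : (2 : ℝ) ^ (n + 1) ≤ 2 ^ (3 * n ^ 2 + 3 * n + 1) :=
      pow_le_pow_right₀ one_le_two (by nlinarith)
    have h4 : (1 / 2 : ℝ) ^ n * 2 ^ (n + 1) = 2 := by
      rw [pow_succ, ← mul_assoc, ← mul_pow]
      norm_num
    have h5 := mul_le_mul_of_nonneg_left h3 h2.le
    linarith
  have e3 : (2 * (lamN n : ℝ) / lamN (n + 1)) ^ 2 ≤ (1 / 4) ^ n := by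
    rw [RPCd_quarter, ← sq]
    exact pow_le_pow_left₀ (by positivity) e2 2
  have h3 : C0 * KN n ^ p * (C0 * sigN β n) *
      ((1 / 4) ^ n + (2 * (lamN n : ℝ) / lamN (n + 1)) ^ 2) ≤
      C0 * KN n ^ p * (C0 * sigN β n) * ((1 / 4) ^ n + (1 / 4) ^ n) :=
    mul_le_mul_of_nonneg_left (by linarith) (by positivity)
  refine h3.trans ?_
  have e4 : C0 * KN n ^ p * (C0 * sigN β n) * ((1 / 4) ^ n + (1 / 4) ^ n) =
      (2 * C0 ^ 2 * KN n ^ p * (1 / 2) ^ n) * ((1 / 2) ^ n * sigN β n) := by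
    rw [RPCd_quarter]
    ring
  rw [e4]
  have := mul_le_mul_of_nonneg_right h1 (by positivity : 0 ≤ (1 / 2) ^ n * sigN β n)
  linarith

end ES

end

section

/-!
Project ES, Part III, module RPCe: the parameter conditions `g1`, `g2`.

`gN (n+1) = 2 C0 lamN(n+1) wN n`.  `gN n/(lamN(n+1) wN n)
 = 2 C0 2^(-(1-β)((n+1)³-n³)) ((n+1)/n)²` (as `√(C0 del n)/√(C0 del (n+1)) = 2^(β((n+1)³-n³)) ((n+1)/n)²`),
and `(1-β)(3n²+3n+1) ≥ 2n²` for `β < 1/3`; with `gauge` this gives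
`KN^p gN n ≤ lamN(n+1) wN n` (hence `g1`, as `C0 (1+1) = 2 C0`) and `2 gN n ≤ gN(n+1)`.
-/

open Filter

namespace ES

theorem gN_succ (C0 β : ℝ) (n : ℕ) :
    gN C0 β (n + 1) = 2 * C0 * (lamN (n + 1) : ℝ) * wN C0 β n := rfl

private theorem RPCe_KN {n : ℕ} (hn : 1 ≤ n) (p : ℕ) : KN n ^ p ≤ KN (n + 1) ^ p := by
  apply pow_le_pow_left₀ (by linarith [KN_pos hn])
  rw [KN_eq hn, KN_eq (by omega)]
  push_cast
  have h2 : (n : ℝ) ^ 4 ≤ ((n : ℝ) + 1) ^ 4 := pow_le_pow_left₀ (Nat.cast_nonneg n) (by linarith) 4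
  linarith

theorem ev_KgN {C0 : ℝ} (hC : 1 ≤ C0) (p : ℕ) {β : ℝ} (hβ0 : 0 ≤ β) (hβ : β < 1 / 3) :
    ∀ᶠ n : ℕ in atTop, KN n ^ p * gN C0 β n ≤ (lamN (n + 1) : ℝ) * wN C0 β n := by
  filter_upwards [gauge (2 * C0) p 2 one_pos, eventually_ge_atTop 1] with n h1 hn
  have hC0 : 0 < C0 := by linarith
  have hn1 : (1 : ℝ) ≤ n := by exact_mod_cast hn
  have hn0 : (0 : ℝ) < n := by linarith
  have hK : 0 < KN n := by linarith [KN_pos hn]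
  have hK1 : 0 < KN (n + 1) := by linarith [KN_pos (by omega : 1 ≤ n + 1)]
  unfold gN wN
  rw [sqrt_del hC β hn, sqrt_del hC β (by omega : 1 ≤ n + 1), lamN_rpow, lamN_rpow]
  push_cast
  set s := Real.sqrt C0 with hs
  have hs0 : 0 < s := Real.sqrt_pos.2 hC0
  -- the left side
  have e1 : KN n ^ p * (2 * C0 * (2 : ℝ) ^ ((n : ℝ) ^ 3) *
      (s * (2 : ℝ) ^ (-(β * (n : ℝ) ^ 3)) / (n : ℝ) ^ 2)) =
      (2 * C0 * KN n ^ p / (n : ℝ) ^ 2) * (s * (2 : ℝ) ^ ((1 - β) * (n : ℝ) ^ 3)) := by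
    have : (2 : ℝ) ^ ((1 - β) * (n : ℝ) ^ 3) =
        (2 : ℝ) ^ ((n : ℝ) ^ 3) * (2 : ℝ) ^ (-(β * (n : ℝ) ^ 3)) := by
      rw [← Real.rpow_add (by norm_num)]
      congr 1
      ring
    rw [this]
    ring
  have e2 : (2 : ℝ) ^ (((n : ℝ) + 1) ^ 3) *
      (s * (2 : ℝ) ^ (-(β * ((n : ℝ) + 1) ^ 3)) / ((n : ℝ) + 1) ^ 2) =
      ((2 : ℝ) ^ ((1 - β) * (3 * (n : ℝ) ^ 2 + 3 * n + 1)) / ((n : ℝ) + 1) ^ 2) *
        (s * (2 : ℝ) ^ ((1 - β) * (n : ℝ) ^ 3)) := by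
    have : (2 : ℝ) ^ (((n : ℝ) + 1) ^ 3) * (2 : ℝ) ^ (-(β * ((n : ℝ) + 1) ^ 3)) =
        (2 : ℝ) ^ ((1 - β) * (3 * (n : ℝ) ^ 2 + 3 * n + 1)) * (2 : ℝ) ^ ((1 - β) * (n : ℝ) ^ 3) := by
      rw [← Real.rpow_add (by norm_num), ← Real.rpow_add (by norm_num)]
      congr 1
      ring
    calc _ = ((2 : ℝ) ^ (((n : ℝ) + 1) ^ 3) * (2 : ℝ) ^ (-(β * ((n : ℝ) + 1) ^ 3))) * s /
          ((n : ℝ) + 1) ^ 2 := by ring
      _ = _ := by rw [this]; ring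
  rw [e1, e2]
  refine mul_le_mul_of_nonneg_right ?_ (by positivity)
  -- `2 C0 KN^p / n² ≤ 2^(...)/(n+1)²`
  have h2 : (2 : ℝ) ^ ((1 : ℝ) * n) ≤ (2 : ℝ) ^ ((1 - β) * (3 * (n : ℝ) ^ 2 + 3 * n + 1)) := by
    apply Real.rpow_le_rpow_of_exponent_le one_le_two
    have h3 : (2 / 3 : ℝ) ≤ 1 - β := by linarith
    have h4 : 2 / 3 * (3 * (n : ℝ) ^ 2 + 3 * n + 1) ≤ (1 - β) * (3 * (n : ℝ) ^ 2 + 3 * n + 1) :=
      mul_le_mul_of_nonneg_right h3 (by positivity)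
    nlinarith
  have h3 : 2 * C0 * KN n ^ p * ((n : ℝ) + 1) ^ 2 ≤
      2 * C0 * KN (n + 1) ^ p * ((n : ℝ) + 2) ^ 2 := by
    have h4 : ((n : ℝ) + 1) ^ 2 ≤ ((n : ℝ) + 2) ^ 2 :=
      pow_le_pow_left₀ (by positivity) (by linarith) 2
    have h5 : 2 * C0 * KN n ^ p ≤ 2 * C0 * KN (n + 1) ^ p :=
      mul_le_mul_of_nonneg_left (RPCe_KN hn p) (by positivity)
    exact mul_le_mul h5 h4 (by positivity) (by positivity)
  have h4 : 2 * C0 * KN n ^ p * ((n : ℝ) + 1) ^ 2 ≤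
      (2 : ℝ) ^ ((1 - β) * (3 * (n : ℝ) ^ 2 + 3 * n + 1)) := by linarith
  rw [div_le_div_iff₀ (by positivity) (by positivity)]
  have h5 : (1 : ℝ) ≤ (n : ℝ) ^ 2 := one_le_pow₀ hn1
  have h6 : (2 : ℝ) ^ ((1 - β) * (3 * (n : ℝ) ^ 2 + 3 * n + 1)) * 1 ≤
      (2 : ℝ) ^ ((1 - β) * (3 * (n : ℝ) ^ 2 + 3 * n + 1)) * (n : ℝ) ^ 2 :=
    mul_le_mul_of_nonneg_left h5 (by positivity)
  linarith

theorem ev_g1 {C0 : ℝ} (hC : 1 ≤ C0) (p : ℕ) {β : ℝ} (hβ0 : 0 ≤ β) (hβ : β < 1 / 3) :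
    ∀ᶠ n : ℕ in atTop,
      C0 * ((lamN (n + 1) : ℝ) * wN C0 β n + KN n ^ p * gN C0 β n) ≤ gN C0 β (n + 1) := by
  filter_upwards [ev_KgN hC p hβ0 hβ] with n h1
  rw [gN_succ]
  have h2 := mul_le_mul_of_nonneg_left h1 (by linarith : 0 ≤ C0)
  linarith

theorem ev_g2 {C0 : ℝ} (hC : 1 ≤ C0) {β : ℝ} (hβ0 : 0 ≤ β) (hβ : β < 1 / 3) :
    ∀ᶠ n : ℕ in atTop, 2 * gN C0 β n ≤ gN C0 β (n + 1) := by
  filter_upwards [ev_KgN hC 0 hβ0 hβ] with n h1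
  rw [pow_zero, one_mul] at h1
  rw [gN_succ]
  have h0 : 0 ≤ (lamN (n + 1) : ℝ) * wN C0 β n :=
    mul_nonneg (lamN_pos _).le (wN_pos hC β n).le
  have h2 : (lamN (n + 1) : ℝ) * wN C0 β n ≤ C0 * ((lamN (n + 1) : ℝ) * wN C0 β n) :=
    le_mul_of_one_le_left h0 hC
  linarith

end ES

end

section

/-!
Project ES, Part III, module RPCf: the parameter conditions `s1`, `A1`.

`lN (n+1) = 2 C0 KN(n+1)^p wN n/(lamN(n+1) sigN(n+1))`, so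
`C0 KN n^p/lamN(n+1) · wN n/lN(n+1) = (KN n/KN(n+1))^p sigN(n+1)/2 ≤ sigN(n+1)/2`.
Second half: `C0 KN n^p gN n wN n/lamN(n+1) ≤ sigN(n+1)/2` eventually:
`gN n wN n/(lamN(n+1) sigN(n+1)) = 2 C0² 2^(-e(n)) (n+2)⁴/(n²(n+1)²)`,
`e(n) = 3(1-3β)n² + (3-21β)n + (1-15β) ≥ 2n` eventually, `gauge`.
`A1`: `C0 KN^p (gN wN + wN/lN(n+1)) ≤ lamN(n+1) sigN(n+1)` by `s1`; `sigN(n+1) ≤ wN n` eventually and
`gN n ≤ gN(n+1)/2`, `gN(n+1)/2 = C0 lamN(n+1) wN n ≥ lamN(n+1) wN n`.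
-/

open Filter

namespace ES

/-- the quadratic exponent is eventually at least `n` -/
private theorem RPCf_exp {β : ℝ} (hβ : β < 1 / 3) :
    ∀ᶠ n : ℕ in atTop, (n : ℝ) ≤
      3 * (1 - 3 * β) * (n : ℝ) ^ 2 + (3 - 21 * β) * n + (1 - 15 * β) := by
  have h0 : 0 < 3 * (1 - 3 * β) := by linarith
  have h1 : ∀ᶠ n : ℕ in atTop, 10 / (3 * (1 - 3 * β)) ≤ (n : ℝ) :=
    tendsto_natCast_atTop_atTop.eventually_ge_atTop _
  filter_upwards [h1, eventually_ge_atTop 1] with n hn hn1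
  have hn0 : (1 : ℝ) ≤ n := by exact_mod_cast hn1
  rw [div_le_iff₀ h0] at hn
  have h2 : 10 * (n : ℝ) ≤ 3 * (1 - 3 * β) * (n : ℝ) ^ 2 := by nlinarith
  nlinarith

/-- the product of the gradient and the amplitude -/
private theorem RPCf_gw {C0 : ℝ} (hC : 1 ≤ C0) (β : ℝ) {n : ℕ} (hn : 1 ≤ n) :
    gN C0 β n * wN C0 β n / (lamN (n + 1) : ℝ)
      = 2 * C0 ^ 2 * (2 : ℝ) ^ (-(3 * (1 - 3 * β) * (n : ℝ) ^ 2 + (3 - 21 * β) * n + (1 - 15 * β)))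
        * (((n : ℝ) + 2) ^ 4 / ((n : ℝ) ^ 2 * ((n : ℝ) + 1) ^ 2)) * sigN β (n + 1) := by
  have hn0 : (0 : ℝ) < n := by exact_mod_cast hn
  have c1 : ((n + 1 : ℕ) : ℝ) = (n : ℝ) + 1 := by push_cast; ring
  have c2 : ((n + 1 + 1 : ℕ) : ℝ) = (n : ℝ) + 2 := by push_cast; ring
  have hs : Real.sqrt C0 * Real.sqrt C0 = C0 := Real.mul_self_sqrt (by linarith)
  have e1 : wN C0 β n = Real.sqrt C0 * (2 : ℝ) ^ (-(β * ((n : ℝ) + 1) ^ 3)) / ((n : ℝ) + 1) ^ 2 := by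
    unfold wN
    rw [sqrt_del hC β (by omega : 1 ≤ n + 1), c1]
  have e2 : gN C0 β n = 2 * C0 * (2 : ℝ) ^ ((n : ℝ) ^ 3)
      * (Real.sqrt C0 * (2 : ℝ) ^ (-(β * (n : ℝ) ^ 3)) / (n : ℝ) ^ 2) := by
    unfold gN
    rw [sqrt_del hC β hn, lamN_rpow]
  have e3 : (lamN (n + 1) : ℝ) = (2 : ℝ) ^ (((n : ℝ) + 1) ^ 3) := by rw [lamN_rpow, c1]
  have e4 : sigN β (n + 1) = (2 : ℝ) ^ (-(2 * β * ((n : ℝ) + 2) ^ 3)) / ((n : ℝ) + 2) ^ 4 := by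
    unfold sigN del
    rw [c2]
  have key : (2 : ℝ) ^ ((n : ℝ) ^ 3) * (2 : ℝ) ^ (-(β * (n : ℝ) ^ 3))
      * (2 : ℝ) ^ (-(β * ((n : ℝ) + 1) ^ 3))
      = (2 : ℝ) ^ (-(3 * (1 - 3 * β) * (n : ℝ) ^ 2 + (3 - 21 * β) * n + (1 - 15 * β)))
        * (2 : ℝ) ^ (-(2 * β * ((n : ℝ) + 2) ^ 3)) * (2 : ℝ) ^ (((n : ℝ) + 1) ^ 3) := by
    rw [← Real.rpow_add (by norm_num), ← Real.rpow_add (by norm_num),
      ← Real.rpow_add (by norm_num), ← Real.rpow_add (by norm_num)]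
    congr 1
    ring
  rw [e1, e2, e3, e4]
  have hL : (0 : ℝ) < (2 : ℝ) ^ (((n : ℝ) + 1) ^ 3) := Real.rpow_pos_of_pos (by norm_num) _
  generalize (2 : ℝ) ^ ((n : ℝ) ^ 3) = a1 at key ⊢
  generalize (2 : ℝ) ^ (-(β * (n : ℝ) ^ 3)) = a2 at key ⊢
  generalize (2 : ℝ) ^ (-(β * ((n : ℝ) + 1) ^ 3)) = a3 at key ⊢
  generalize (2 : ℝ) ^ (-(3 * (1 - 3 * β) * (n : ℝ) ^ 2 + (3 - 21 * β) * n + (1 - 15 * β))) = a4
    at key ⊢
  generalize (2 : ℝ) ^ (-(2 * β * ((n : ℝ) + 2) ^ 3)) = a5 at key ⊢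
  generalize (2 : ℝ) ^ (((n : ℝ) + 1) ^ 3) = a6 at key hL ⊢
  have hn1 : (n : ℝ) + 1 ≠ 0 := by positivity
  have hn2 : (n : ℝ) + 2 ≠ 0 := by positivity
  have e5 : 2 * C0 * a1 * (Real.sqrt C0 * a2 / (n : ℝ) ^ 2) * (Real.sqrt C0 * a3 / ((n : ℝ) + 1) ^ 2)
      / a6 = 2 * C0 * (Real.sqrt C0 * Real.sqrt C0) * (a1 * a2 * a3)
        / ((n : ℝ) ^ 2 * ((n : ℝ) + 1) ^ 2 * a6) := by
    field_simp
  rw [e5, key, hs]
  field_simp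

private theorem RPCf_second {C0 : ℝ} (hC : 1 ≤ C0) (p : ℕ) {β : ℝ} (hβ : β < 1 / 3) : ∀ᶠ n : ℕ in atTop,
      C0 * KN n ^ p / (lamN (n + 1) : ℝ) * (gN C0 β n * wN C0 β n) ≤ sigN β (n + 1) / 2 := by
  filter_upwards [RPCf_exp hβ, gauge (4 * C0 ^ 3) p 4 (a := 1) one_pos,
    eventually_ge_atTop 1] with n he hg hn
  have hn0 : (1 : ℝ) ≤ n := by exact_mod_cast hn
  have hσ := sigN_pos β (n + 1)
  have hK0 := KN_pos hn
  have hKK : KN n ≤ KN (n + 1) := by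
    rw [KN_eq hn, KN_eq (by omega : 1 ≤ n + 1)]
    have : (n : ℝ) ^ 4 ≤ ((n + 1 : ℕ) : ℝ) ^ 4 :=
      pow_le_pow_left₀ (by positivity) (by push_cast; linarith) 4
    linarith
  have e1 : C0 * KN n ^ p / (lamN (n + 1) : ℝ) * (gN C0 β n * wN C0 β n)
      = C0 * KN n ^ p * (gN C0 β n * wN C0 β n / (lamN (n + 1) : ℝ)) := by ring
  rw [e1, RPCf_gw hC β hn]
  set e : ℝ := 3 * (1 - 3 * β) * (n : ℝ) ^ 2 + (3 - 21 * β) * n + (1 - 15 * β) with hedef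
  have h1 : (2 : ℝ) ^ (-e) ≤ (2 : ℝ) ^ (-(1 * (n : ℝ))) :=
    Real.rpow_le_rpow_of_exponent_le (by norm_num) (by linarith)
  have h2 : ((n : ℝ) + 2) ^ 4 / ((n : ℝ) ^ 2 * ((n : ℝ) + 1) ^ 2) ≤ ((n : ℝ) + 2) ^ 4 := by
    apply div_le_self (by positivity)
    have : (1 : ℝ) ≤ (n : ℝ) ^ 2 := one_le_pow₀ hn0
    have h3 : (1 : ℝ) ≤ ((n : ℝ) + 1) ^ 2 := one_le_pow₀ (by linarith)
    exact one_le_mul_of_one_le_of_one_le this h3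
  have h3 : KN n ^ p ≤ KN (n + 1) ^ p := pow_le_pow_left₀ (by linarith) hKK p
  have h4 : 4 * C0 ^ 3 * KN n ^ p * ((n : ℝ) + 2) ^ 4 ≤ (2 : ℝ) ^ (1 * (n : ℝ)) := by
    refine le_trans ?_ hg
    exact mul_le_mul_of_nonneg_right (mul_le_mul_of_nonneg_left h3 (by positivity)) (by positivity)
  have h5 : (2 : ℝ) ^ (-(1 * (n : ℝ))) * (2 : ℝ) ^ (1 * (n : ℝ)) = 1 := by
    rw [← Real.rpow_add (by norm_num)]; simp
  have hp0 : (0 : ℝ) < (2 : ℝ) ^ (-(1 * (n : ℝ))) := Real.rpow_pos_of_pos (by norm_num) _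
  have h6 : (2 : ℝ) ^ (-e) * (((n : ℝ) + 2) ^ 4 / ((n : ℝ) ^ 2 * ((n : ℝ) + 1) ^ 2))
      ≤ (2 : ℝ) ^ (-(1 * (n : ℝ))) * ((n : ℝ) + 2) ^ 4 :=
    mul_le_mul h1 h2 (by positivity) hp0.le
  have h7 : 4 * C0 ^ 3 * KN n ^ p * ((2 : ℝ) ^ (-e)
      * (((n : ℝ) + 2) ^ 4 / ((n : ℝ) ^ 2 * ((n : ℝ) + 1) ^ 2))) ≤ 1 := by
    have h8 := mul_le_mul_of_nonneg_left h6 (by positivity : 0 ≤ 4 * C0 ^ 3 * KN n ^ p)
    have h9 := mul_le_mul_of_nonneg_left h4 hp0.le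
    rw [h5] at h9
    refine h8.trans (le_trans (le_of_eq ?_) h9)
    ring
  have h10 := mul_le_mul_of_nonneg_right h7 (by positivity : 0 ≤ sigN β (n + 1) / 2)
  refine le_trans (le_of_eq ?_) (h10.trans (le_of_eq (one_mul _)))
  ring

private theorem RPCf_first {C0 : ℝ} (hC : 1 ≤ C0) (p : ℕ) (β : ℝ) {n : ℕ} (hn : 1 ≤ n) :
    C0 * KN n ^ p / (lamN (n + 1) : ℝ) * (wN C0 β n / lN C0 p β (n + 1)) ≤ sigN β (n + 1) / 2 := by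
  have hσ := sigN_pos β (n + 1)
  have hK0 := KN_pos hn
  have hK1 := KN_pos (by omega : 1 ≤ n + 1)
  have hw := wN_pos hC β n
  have hl := lamN_pos (n + 1)
  have hKK : KN n ≤ KN (n + 1) := by
    rw [KN_eq hn, KN_eq (by omega : 1 ≤ n + 1)]
    have : (n : ℝ) ^ 4 ≤ ((n + 1 : ℕ) : ℝ) ^ 4 :=
      pow_le_pow_left₀ (by positivity) (by push_cast; linarith) 4
    linarith
  have h3 : KN n ^ p ≤ KN (n + 1) ^ p := pow_le_pow_left₀ (by linarith) hKK p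
  have hKp : 0 < KN (n + 1) ^ p := by positivity
  have hC0 : 0 < C0 := by linarith
  have e1 : C0 * KN n ^ p / (lamN (n + 1) : ℝ) * (wN C0 β n / lN C0 p β (n + 1))
      = KN n ^ p / KN (n + 1) ^ p * (sigN β (n + 1) / 2) := by
    have h4 : lN C0 p β (n + 1) =
      2 * C0 * KN (n + 1) ^ p * wN C0 β n / ((lamN (n + 1) : ℝ) * sigN β (n + 1)) := rfl
    rw [h4]
    field_simp
  rw [e1]
  have h5 : KN n ^ p / KN (n + 1) ^ p ≤ 1 := (div_le_one hKp).2 h3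
  have := mul_le_mul_of_nonneg_right h5 (by positivity : 0 ≤ sigN β (n + 1) / 2)
  linarith

theorem ev_s1 {C0 : ℝ} (hC : 1 ≤ C0) (p : ℕ) {β : ℝ} (hβ0 : 0 ≤ β) (hβ : β < 1 / 3) :
    ∀ᶠ n : ℕ in atTop, C0 * KN n ^ p / (lamN (n + 1) : ℝ) *
      (wN C0 β n / lN C0 p β (n + 1) + gN C0 β n * wN C0 β n) ≤ sigN β (n + 1) := by
  filter_upwards [RPCf_second hC p hβ, eventually_ge_atTop 1] with n h2 hn
  have h1 := RPCf_first hC p β hn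
  rw [mul_add]
  linarith

theorem sigN_le_wN {C0 : ℝ} (hC : 1 ≤ C0) {β : ℝ} (hβ0 : 0 ≤ β) (n : ℕ) :
    sigN β (n + 1) ≤ wN C0 β n := by
  have h1 : 0 < del β (n + 1) := del_pos β (by omega)
  have c1 : ((n + 1 : ℕ) : ℝ) = (n : ℝ) + 1 := by push_cast; ring
  have c2 : ((n + 1 + 1 : ℕ) : ℝ) = (n : ℝ) + 2 := by push_cast; ring
  have hn0 : (0 : ℝ) ≤ n := Nat.cast_nonneg _
  have h2 : del β (n + 1 + 1) ≤ del β (n + 1) := by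
    unfold del
    rw [c1, c2]
    have h3 : (2 : ℝ) ^ (-(2 * β * ((n : ℝ) + 2) ^ 3)) ≤ (2 : ℝ) ^ (-(2 * β * ((n : ℝ) + 1) ^ 3)) := by
      apply Real.rpow_le_rpow_of_exponent_le (by norm_num)
      have h4 : ((n : ℝ) + 1) ^ 3 ≤ ((n : ℝ) + 2) ^ 3 :=
        pow_le_pow_left₀ (by linarith) (by linarith) 3
      have := mul_le_mul_of_nonneg_left h4 (by linarith : 0 ≤ 2 * β)
      linarith
    have h5 : ((n : ℝ) + 1) ^ 4 ≤ ((n : ℝ) + 2) ^ 4 :=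
      pow_le_pow_left₀ (by linarith) (by linarith) 4
    have h6 : (0 : ℝ) ≤ (2 : ℝ) ^ (-(2 * β * ((n : ℝ) + 1) ^ 3)) :=
      (Real.rpow_pos_of_pos (by norm_num) _).le
    exact div_le_div₀ h6 h3 (by positivity) h5
  have h3 : del β (n + 1) ≤ 1 := by
    unfold del
    rw [c1, div_le_one (by positivity)]
    have h4 : (2 : ℝ) ^ (-(2 * β * ((n : ℝ) + 1) ^ 3)) ≤ 1 := by
      apply Real.rpow_le_one_of_one_le_of_nonpos (by norm_num)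
      have : 0 ≤ β * ((n : ℝ) + 1) ^ 3 := by positivity
      linarith
    have h5 : (1 : ℝ) ≤ ((n : ℝ) + 1) ^ 4 := one_le_pow₀ (by linarith)
    linarith
  have h4 : del β (n + 1) ≤ Real.sqrt (C0 * del β (n + 1)) := by
    apply Real.le_sqrt_of_sq_le
    nlinarith
  calc sigN β (n + 1) = del β (n + 1 + 1) := rfl
    _ ≤ del β (n + 1) := h2
    _ ≤ wN C0 β n := h4

theorem ev_A1 {C0 : ℝ} (hC : 1 ≤ C0) (p : ℕ) {β : ℝ} (hβ0 : 0 ≤ β) (hβ : β < 1 / 3) :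
    ∀ᶠ n : ℕ in atTop, gN C0 β n + C0 * KN n ^ p *
      (gN C0 β n * wN C0 β n + wN C0 β n / lN C0 p β (n + 1)) ≤ gN C0 β (n + 1) := by
  filter_upwards [ev_s1 hC p hβ0 hβ, ev_g2 hC hβ0 hβ] with n h1 h2
  have hl := lamN_pos (n + 1)
  have h3 : C0 * KN n ^ p * (gN C0 β n * wN C0 β n + wN C0 β n / lN C0 p β (n + 1))
      ≤ lamN (n + 1) * sigN β (n + 1) := by
    have h4 := mul_le_mul_of_nonneg_left h1 hl.le
    refine le_trans (le_of_eq ?_) h4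
    field_simp
    ring
  have h5 := sigN_le_wN hC hβ0 n
  have h6 : (lamN (n + 1) : ℝ) * sigN β (n + 1) ≤ gN C0 β (n + 1) / 2 := by
    rw [gN_succ]
    have h7 := mul_le_mul_of_nonneg_left h5 hl.le
    have h8 : 0 < wN C0 β n := wN_pos hC β n
    have h9 : (lamN (n + 1) : ℝ) * wN C0 β n ≤ C0 * ((lamN (n + 1) : ℝ) * wN C0 β n) :=
      le_mul_of_one_le_left (by positivity) hC
    linarith
  linarith

end ES

end

section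

/-!
Project ES, Part III, module RPCh: limits and summability of the parameters.

`wN n ≤ √C0/(n+1)²` (`sqrt_del`, `β ≥ 0`).  `gN (n+1)`, `lN`, `sigN` explicit.
Hoelder sum: `wN n^(1-β) (gN(n+1))^β ≤ 2 C0² /(n+1)²`: with `q = √C0 2^(-β(n+1)³)/(n+1)²`,
`wN n = q`, `gN(n+1) = 2 C0 2^((n+1)³) q`, so the product is `(2 C0)^β 2^(β(n+1)³) q
= (2C0)^β √C0/(n+1)²`.
`lN n ≤ 2^(-(1-3β)n³ + O(n²))`: exponent `-(n³) - β n³ + 2β(n+1)³`; tends to `0` since `β < 1/3 < 1`.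
-/

open Filter Topology

namespace ES

private theorem RPCh_sq : Summable fun n : ℕ => 1 / ((n : ℝ) + 1) ^ 2 := by
  have h := (summable_nat_add_iff 1).mpr (Real.summable_one_div_nat_pow.mpr (le_refl 2))
  refine h.congr fun n => ?_
  push_cast
  rfl

private theorem RPCh_wN {C0 : ℝ} (hC : 1 ≤ C0) (β : ℝ) (n : ℕ) :
    wN C0 β n = Real.sqrt C0 * (2 : ℝ) ^ (-(β * ((n : ℝ) + 1) ^ 3)) / ((n : ℝ) + 1) ^ 2 := by
  have h := sqrt_del hC β (n := n + 1) (by omega)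
  unfold wN
  rw [h]
  push_cast
  rfl

private theorem RPCh_pow_le (x : ℝ) (hx : 0 ≤ x) : (2 : ℝ) ^ (-x) ≤ 1 :=
  Real.rpow_le_one_of_one_le_of_nonpos (by norm_num) (by linarith)

theorem summable_wN {C0 : ℝ} (hC : 1 ≤ C0) {β : ℝ} (hβ0 : 0 ≤ β) :
    Summable fun n : ℕ => wN C0 β n := by
  refine Summable.of_nonneg_of_le (fun n => (wN_pos hC β n).le) (fun n => ?_)
    (RPCh_sq.mul_left (Real.sqrt C0))
  rw [RPCh_wN hC β n, mul_div_assoc]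
  refine mul_le_mul_of_nonneg_left ?_ (Real.sqrt_nonneg _)
  exact div_le_div_of_nonneg_right
    (RPCh_pow_le _ (mul_nonneg hβ0 (by positivity))) (by positivity)

theorem summable_hoelder {C0 : ℝ} (hC : 1 ≤ C0) {β : ℝ} (hβ0 : 0 ≤ β) (hβ : β < 1 / 3) :
    Summable fun n : ℕ => wN C0 β n ^ (1 - β) * gN C0 β (n + 1) ^ β := by
  refine (RPCh_sq.mul_left ((2 * C0) ^ β * Real.sqrt C0)).congr fun n => ?_
  have hw := wN_pos hC β n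
  have hL : (0 : ℝ) < lamN (n + 1) := lamN_pos (n + 1)
  have hC0 : 0 < 2 * C0 := by linarith
  rw [gN_succ, Real.mul_rpow (mul_pos hC0 hL).le hw.le, Real.mul_rpow hC0.le hL.le]
  have h1 : wN C0 β n ^ (1 - β) * wN C0 β n ^ β = wN C0 β n := by
    rw [← Real.rpow_add hw]
    rw [show 1 - β + β = 1 by ring, Real.rpow_one]
  have h2 : (lamN (n + 1) : ℝ) ^ β * (2 : ℝ) ^ (-(β * ((n : ℝ) + 1) ^ 3)) = 1 := by
    rw [lamN_rpow, ← Real.rpow_mul (by norm_num), ← Real.rpow_add (by norm_num)]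
    rw [show (((n + 1 : ℕ) : ℝ) ^ 3 * β + -(β * ((n : ℝ) + 1) ^ 3)) = 0 by push_cast; ring,
      Real.rpow_zero]
  calc (2 * C0) ^ β * Real.sqrt C0 * (1 / ((n : ℝ) + 1) ^ 2)
      = (2 * C0) ^ β * (Real.sqrt C0 * ((lamN (n + 1) : ℝ) ^ β *
        (2 : ℝ) ^ (-(β * ((n : ℝ) + 1) ^ 3))) / ((n : ℝ) + 1) ^ 2) := by rw [h2]; ring
    _ = (2 * C0) ^ β * ((lamN (n + 1) : ℝ) ^ β * wN C0 β n) := by
        rw [RPCh_wN hC β n]; ring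
    _ = (2 * C0) ^ β * ((lamN (n + 1) : ℝ) ^ β * (wN C0 β n ^ (1 - β) * wN C0 β n ^ β)) := by
        rw [h1]
    _ = wN C0 β n ^ (1 - β) * ((2 * C0) ^ β * (lamN (n + 1) : ℝ) ^ β * wN C0 β n ^ β) := by ring

theorem tendsto_gN {C0 : ℝ} (hC : 1 ≤ C0) {β : ℝ} (hβ0 : 0 ≤ β) (hβ : β < 1 / 3) :
    Tendsto (fun n : ℕ => gN C0 β n) atTop atTop := by
  obtain ⟨N, hN⟩ := eventually_atTop.mp ((ev_g2 hC hβ0 hβ).and (eventually_ge_atTop 1))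
  have hN1 : 1 ≤ N := (hN N le_rfl).2
  have hpos := gN_pos hC β hN1
  have h : ∀ k : ℕ, gN C0 β N * 2 ^ k ≤ gN C0 β (k + N) := by
    intro k
    induction k with
    | zero => simp
    | succ k ih =>
      have h1 := (hN (k + N) (Nat.le_add_left _ _)).1
      rw [show k + 1 + N = k + N + 1 by ring]
      calc gN C0 β N * 2 ^ (k + 1) = 2 * (gN C0 β N * 2 ^ k) := by ring
        _ ≤ 2 * gN C0 β (k + N) := by linarith
        _ ≤ _ := h1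
  rw [← tendsto_add_atTop_iff_nat N]
  refine tendsto_atTop_mono h ?_
  exact (tendsto_pow_atTop_atTop_of_one_lt (by norm_num)).const_mul_atTop hpos

theorem tendsto_sigN {β : ℝ} (hβ0 : 0 ≤ β) :
    Tendsto (fun n : ℕ => sigN β n) atTop (𝓝 0) := by
  refine squeeze_zero (fun n => (sigN_pos β n).le) (fun n => ?_)
    tendsto_one_div_add_atTop_nhds_zero_nat
  unfold sigN del
  have h1 : (1 : ℝ) ≤ ((n + 1 : ℕ) : ℝ) := by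
    push_cast
    linarith [Nat.cast_nonneg (α := ℝ) n]
  have h2 : ((n + 1 : ℕ) : ℝ) ≤ ((n + 1 : ℕ) : ℝ) ^ 4 := le_self_pow₀ h1 (by norm_num)
  have h3 : ((n : ℝ) + 1) = ((n + 1 : ℕ) : ℝ) := by push_cast; rfl
  rw [h3]
  exact div_le_div₀ (by norm_num) (RPCh_pow_le _ (by positivity)) (by linarith) h2

theorem tendsto_lN {C0 : ℝ} (hC : 1 ≤ C0) (p : ℕ) {β : ℝ} (hβ0 : 0 ≤ β) (hβ : β < 1 / 3) :
    Tendsto (fun n : ℕ => lN C0 p β n) atTop (𝓝 0) := by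
  rw [← tendsto_add_atTop_iff_nat 1]
  have hlim : Tendsto (fun n : ℕ => (1 / 2 : ℝ) ^ n) atTop (𝓝 0) :=
    tendsto_pow_atTop_nhds_zero_of_lt_one (by norm_num) (by norm_num)
  refine squeeze_zero' (Eventually.of_forall fun n => (lN_pos hC p β (by omega)).le) ?_ hlim
  filter_upwards [gauge (2 * C0 * Real.sqrt C0) p 4 (a := 1) one_pos, eventually_ge_atTop 6]
    with n hg hn
  have hn' : (6 : ℝ) ≤ n := by exact_mod_cast hn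
  have hK : 0 < KN (n + 1) := lt_of_lt_of_le one_pos (KN_pos (by omega))
  have hs : 0 ≤ Real.sqrt C0 := Real.sqrt_nonneg _
  have hx : lN C0 p β (n + 1) = (2 * C0 * Real.sqrt C0 * KN (n + 1) ^ p * ((n : ℝ) + 2) ^ 4) *
      (1 / ((n : ℝ) + 1) ^ 2) *
      (2 : ℝ) ^ (-(β * ((n : ℝ) + 1) ^ 3) - ((n : ℝ) + 1) ^ 3 + 2 * β * ((n : ℝ) + 2) ^ 3) := by
    unfold lN sigN
    rw [sqrt_del hC β (n := n + 1) (by omega), lamN_rpow]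
    unfold del
    rw [Real.rpow_add (by norm_num), Real.rpow_sub (by norm_num)]
    push_cast
    rw [show (n : ℝ) + 1 + 1 = n + 2 by ring]
    rw [Real.rpow_neg (by norm_num : (0 : ℝ) ≤ 2) (2 * β * ((n : ℝ) + 2) ^ 3)]
    have e1 : (2 : ℝ) ^ (((n : ℝ) + 1) ^ 3) ≠ 0 := (Real.rpow_pos_of_pos (by norm_num) _).ne'
    have e2 : (2 : ℝ) ^ (2 * β * ((n : ℝ) + 2) ^ 3) ≠ 0 :=
      (Real.rpow_pos_of_pos (by norm_num) _).ne'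
    have e3 : ((n : ℝ) + 1) ≠ 0 := by positivity
    have e4 : ((n : ℝ) + 2) ≠ 0 := by positivity
    field_simp
  rw [hx]
  have hexp : (2 : ℝ) ^ (-(β * ((n : ℝ) + 1) ^ 3) - ((n : ℝ) + 1) ^ 3 +
      2 * β * ((n : ℝ) + 2) ^ 3) ≤ (2 : ℝ) ^ (-(2 * (n : ℝ))) := by
    refine Real.rpow_le_rpow_of_exponent_le (by norm_num) ?_
    have h1 : 0 ≤ 2 * ((n : ℝ) + 2) ^ 3 - ((n : ℝ) + 1) ^ 3 := by
      nlinarith [pow_nonneg (by linarith : (0 : ℝ) ≤ n) 3, pow_nonneg (by linarith : (0 : ℝ) ≤ n) 2]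
    have h2 : β * (2 * ((n : ℝ) + 2) ^ 3 - ((n : ℝ) + 1) ^ 3) ≤
        1 / 3 * (2 * ((n : ℝ) + 2) ^ 3 - ((n : ℝ) + 1) ^ 3) :=
      mul_le_mul_of_nonneg_right hβ.le h1
    have h3 : 6 * (n : ℝ) ^ 2 ≤ (n : ℝ) ^ 3 := by nlinarith [sq_nonneg (n : ℝ)]
    have h4 : 6 * (n : ℝ) ≤ (n : ℝ) ^ 2 := by nlinarith
    nlinarith
  have hg' : 2 * C0 * Real.sqrt C0 * KN (n + 1) ^ p * ((n : ℝ) + 2) ^ 4 ≤ (2 : ℝ) ^ (n : ℝ) := by
    rw [one_mul] at hg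
    exact hg
  have h5 : 1 / ((n : ℝ) + 1) ^ 2 ≤ 1 := by
    rw [div_le_one (by positivity)]
    nlinarith
  have h6 : 0 ≤ 2 * C0 * Real.sqrt C0 * KN (n + 1) ^ p * ((n : ℝ) + 2) ^ 4 := by positivity
  calc _ ≤ (2 : ℝ) ^ (n : ℝ) * 1 * (2 : ℝ) ^ (-(2 * (n : ℝ))) := by
        refine mul_le_mul (mul_le_mul hg' h5 (by positivity) (by positivity)) hexp
          (by positivity) (by positivity)
    _ = (1 / 2 : ℝ) ^ n := by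
        rw [mul_one, ← Real.rpow_add (by norm_num), one_div, inv_pow, ← Real.rpow_natCast,
          ← Real.rpow_neg (by norm_num)]
        congr 1
        ring

end ES

end

section

/-!
Project ES, Part III, module RPCi: the exponent of the dimension.

For `d > 2β/(1-β)`: `2^(2β n³ + 4n²) (4 C0 lN n)^d ≤ 1` eventually:
`lN n = 2 C0 KN^p √C0 2^(-β n³) n^(-2) 2^(-n³) 2^(2β(n+1)³) (n+1)⁴`, hence
`lN n ≤ 2^(-(1-β) n³ + 9 n²)` eventually (`gauge`; `2β(3n²+3n+1) ≤ 2(3n²+3n+1)/3 ≤ 5n²`), and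
`2β n³ + 4n² - d((1-β)n³ - 10 n²) → -∞`.
-/

open Filter

namespace ES

private theorem RPCi_lN {C0 : ℝ} (hC : 1 ≤ C0) (p : ℕ) (β : ℝ) {n : ℕ} (hn : 1 ≤ n) :
    lN C0 p β n = 2 * C0 * Real.sqrt C0 * KN n ^ p * (((n : ℝ) + 1) ^ 4 / (n : ℝ) ^ 2)
      * (2 : ℝ) ^ (-((1 - β) * (n : ℝ) ^ 3) + 2 * β * (3 * (n : ℝ) ^ 2 + 3 * n + 1)) := by
  have hn0 : (0 : ℝ) < n := by exact_mod_cast hn
  have c1 : ((n + 1 : ℕ) : ℝ) = (n : ℝ) + 1 := by push_cast; ring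
  have e4 : sigN β n = (2 : ℝ) ^ (-(2 * β * ((n : ℝ) + 1) ^ 3)) / ((n : ℝ) + 1) ^ 4 := by
    unfold sigN del
    rw [c1]
  have key : (2 : ℝ) ^ (-(β * (n : ℝ) ^ 3))
      = (2 : ℝ) ^ (-((1 - β) * (n : ℝ) ^ 3) + 2 * β * (3 * (n : ℝ) ^ 2 + 3 * n + 1))
        * (2 : ℝ) ^ ((n : ℝ) ^ 3) * (2 : ℝ) ^ (-(2 * β * ((n : ℝ) + 1) ^ 3)) := by
    rw [← Real.rpow_add (by norm_num), ← Real.rpow_add (by norm_num)]
    congr 1
    ring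
  unfold lN
  rw [sqrt_del hC β hn, lamN_rpow, e4, key]
  have h1 : (0 : ℝ) < (2 : ℝ) ^ ((n : ℝ) ^ 3) := Real.rpow_pos_of_pos (by norm_num) _
  have h2 : (0 : ℝ) < (2 : ℝ) ^ (-(2 * β * ((n : ℝ) + 1) ^ 3)) :=
    Real.rpow_pos_of_pos (by norm_num) _
  generalize (2 : ℝ) ^ ((n : ℝ) ^ 3) = a1 at h1 ⊢
  generalize (2 : ℝ) ^ (-(2 * β * ((n : ℝ) + 1) ^ 3)) = a2 at h2 ⊢
  generalize (2 : ℝ) ^ (-((1 - β) * (n : ℝ) ^ 3) + 2 * β * (3 * (n : ℝ) ^ 2 + 3 * n + 1)) = a3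
  have hn1 : (n : ℝ) + 1 ≠ 0 := by positivity
  field_simp

private theorem RPCi_le {C0 : ℝ} (hC : 1 ≤ C0) (p : ℕ) {β : ℝ} (hβ : β < 1 / 3) :
    ∀ᶠ n : ℕ in atTop, 4 * C0 * lN C0 p β n
      ≤ (2 : ℝ) ^ (-((1 - β) * (n : ℝ) ^ 3) + 6 * (n : ℝ) ^ 2) := by
  filter_upwards [gauge (8 * C0 ^ 2 * Real.sqrt C0) p 4 (a := 1) one_pos,
    eventually_ge_atTop 1] with n hg hn
  have hn0 : (1 : ℝ) ≤ n := by exact_mod_cast hn
  have hK0 := KN_pos hn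
  have hKK : KN n ≤ KN (n + 1) := by
    rw [KN_eq hn, KN_eq (by omega : 1 ≤ n + 1)]
    have : (n : ℝ) ^ 4 ≤ ((n + 1 : ℕ) : ℝ) ^ 4 :=
      pow_le_pow_left₀ (by positivity) (by push_cast; linarith) 4
    linarith
  have h3 : KN n ^ p ≤ KN (n + 1) ^ p := pow_le_pow_left₀ (by linarith) hKK p
  have hs0 : 0 ≤ Real.sqrt C0 := Real.sqrt_nonneg _
  have h1 : ((n : ℝ) + 1) ^ 4 / (n : ℝ) ^ 2 ≤ ((n : ℝ) + 2) ^ 4 := by
    have h2 : ((n : ℝ) + 1) ^ 4 / (n : ℝ) ^ 2 ≤ ((n : ℝ) + 1) ^ 4 :=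
      div_le_self (by positivity) (one_le_pow₀ hn0)
    exact h2.trans (pow_le_pow_left₀ (by positivity) (by linarith) 4)
  have h4 : 8 * C0 ^ 2 * Real.sqrt C0 * KN n ^ p * (((n : ℝ) + 1) ^ 4 / (n : ℝ) ^ 2)
      ≤ (2 : ℝ) ^ (1 * (n : ℝ)) := by
    refine le_trans ?_ hg
    have hC0 : 0 < C0 := by linarith
    have hK1 : 0 < KN (n + 1) := by linarith
    exact mul_le_mul (mul_le_mul_of_nonneg_left h3 (by positivity)) h1 (by positivity)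
      (by positivity)
  rw [RPCi_lN hC p β hn]
  have hp : (0 : ℝ) < (2 : ℝ) ^ (-((1 - β) * (n : ℝ) ^ 3) + 2 * β * (3 * (n : ℝ) ^ 2 + 3 * n + 1)) :=
    Real.rpow_pos_of_pos (by norm_num) _
  have h5 := mul_le_mul_of_nonneg_right h4 hp.le
  refine le_trans (le_of_eq (by ring)) (h5.trans ?_)
  rw [← Real.rpow_add (by norm_num)]
  apply Real.rpow_le_rpow_of_exponent_le (by norm_num)
  nlinarith [mul_nonneg (by linarith : (0 : ℝ) ≤ 1 / 3 - β)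
    (by positivity : (0 : ℝ) ≤ 3 * (n : ℝ) ^ 2 + 3 * n + 1)]

theorem ev_dim {C0 : ℝ} (hC : 1 ≤ C0) (p : ℕ) {β : ℝ} (hβ0 : 0 ≤ β) (hβ : β < 1 / 3) {d : ℝ}
    (hd : 2 * β / (1 - β) < d) :
    ∀ᶠ n : ℕ in atTop,
      (2 : ℝ) ^ (2 * β * (n : ℝ) ^ 3 + 4 * (n : ℝ) ^ 2) * (4 * C0 * lN C0 p β n) ^ d ≤ 1 := by
  have h1β : 0 < 1 - β := by linarith
  have hd0 : 0 < d := lt_of_le_of_lt (div_nonneg (by linarith) h1β.le) hd
  rw [div_lt_iff₀ h1β] at hd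
  set g : ℝ := d * (1 - β) - 2 * β with hg
  have hg0 : 0 < g := by linarith
  have hev : ∀ᶠ n : ℕ in atTop, (4 + 6 * d) / g ≤ (n : ℝ) :=
    tendsto_natCast_atTop_atTop.eventually_ge_atTop _
  filter_upwards [RPCi_le hC p hβ, hev, eventually_ge_atTop 1] with n h1 h2 hn
  have hl : 0 < lN C0 p β n := lN_pos hC p β hn
  have hC0 : 0 < C0 := by linarith
  have h3 : (4 * C0 * lN C0 p β n) ^ d
      ≤ ((2 : ℝ) ^ (-((1 - β) * (n : ℝ) ^ 3) + 6 * (n : ℝ) ^ 2)) ^ d :=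
    Real.rpow_le_rpow (by positivity) h1 hd0.le
  rw [← Real.rpow_mul (by norm_num)] at h3
  have hp : (0 : ℝ) < (2 : ℝ) ^ (2 * β * (n : ℝ) ^ 3 + 4 * (n : ℝ) ^ 2) :=
    Real.rpow_pos_of_pos (by norm_num) _
  refine (mul_le_mul_of_nonneg_left h3 hp.le).trans ?_
  rw [← Real.rpow_add (by norm_num)]
  apply Real.rpow_le_one_of_one_le_of_nonpos (by norm_num)
  rw [div_le_iff₀ hg0] at h2
  have h4 := mul_le_mul_of_nonneg_right h2 (sq_nonneg (n : ℝ))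
  have e : 2 * β * (n : ℝ) ^ 3 + 4 * (n : ℝ) ^ 2
      + (-((1 - β) * (n : ℝ) ^ 3) + 6 * (n : ℝ) ^ 2) * d
      = (4 + 6 * d) * (n : ℝ) ^ 2 - (n : ℝ) * g * (n : ℝ) ^ 2 := by rw [hg]; ring
  rw [e]
  linarith

end ES

end
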