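import Pool.Agent.H16.TSS.ES.Defs_1

/-! The parts of this file: ES.LEv, ES.LReal. -/

section

/-!
ES-LEv: evaluation of elements of `WT` at points of the plane.
`ev κ f z t = ∑' ν, f_ν(t) exp(i (κ_0(ν) z_0 + κ_1(ν) z_1))`, absolutely convergent, with all
derivatives in `z` (rapid decrease); use `hasFDerivAt_tsum`, `contDiff_tsum`, `continuous_tsum`.
-/

open scoped BoundedContinuousFunction

namespace ES

/-! ### the characters -/

/-- The character attached to the index `ν`. -/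
noncomputable def lEv_ch (κ : Kp) (ν : Gx) (z : Fin 2 → ℝ) : ℂ :=
  Complex.exp (Complex.I * ((kap κ 0 ν : ℂ) * (z 0 : ℂ) + (kap κ 1 ν : ℂ) * (z 1 : ℂ)))

theorem lEv_norm (κ : Kp) (ν : Gx) (z : Fin 2 → ℝ) : ‖lEv_ch κ ν z‖ = 1 := by
  unfold lEv_ch
  have h : Complex.I * ((kap κ 0 ν : ℂ) * (z 0 : ℂ) + (kap κ 1 ν : ℂ) * (z 1 : ℂ))
      = ((((kap κ 0 ν : ℝ) * z 0 + (kap κ 1 ν : ℝ) * z 1 : ℝ)) : ℂ) * Complex.I := by
    push_cast; ring
  rw [h, Complex.norm_exp_ofReal_mul_I]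

private theorem lEv_ch_zero (κ : Kp) (z : Fin 2 → ℝ) : lEv_ch κ 0 z = 1 := by
  simp [lEv_ch]

private theorem lEv_ch_add (κ : Kp) (μ ν : Gx) (z : Fin 2 → ℝ) :
    lEv_ch κ (μ + ν) z = lEv_ch κ μ z * lEv_ch κ ν z := by
  unfold lEv_ch
  rw [← Complex.exp_add, kap_add, kap_add]
  congr 1
  push_cast; ring

private theorem lEv_ch_neg (κ : Kp) (ν : Gx) (z : Fin 2 → ℝ) :
    lEv_ch κ (-ν) z = (starRingEnd ℂ) (lEv_ch κ ν z) := by
  unfold lEv_ch
  rw [← Complex.exp_conj, kap_neg, kap_neg]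
  congr 1
  simp only [map_mul, map_add, Complex.conj_I, Complex.conj_ofReal, map_intCast]
  push_cast; ring

theorem lEv_ev (κ : Kp) (f : WT) (z : Fin 2 → ℝ) (t : ℝ) :
    ev κ f z t = ∑' ν, f.co ν t * lEv_ch κ ν z := rfl

theorem lEv_sum (κ : Kp) (f : WT) (z : Fin 2 → ℝ) (t : ℝ) :
    Summable fun ν => f.co ν t * lEv_ch κ ν z := by
  refine Summable.of_norm_bounded (rapid_norm f.rapid) fun ν => ?_
  rw [norm_mul, lEv_norm, mul_one]
  exact (f.co ν).norm_coe_le_norm t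

theorem ev_one (κ : Kp) (z : Fin 2 → ℝ) (t : ℝ) : ev κ 1 z t = 1 := by
  rw [lEv_ev, tsum_eq_single 0]
  · simp [WT.co_one, lEv_ch_zero]
  · intro ν hν
    simp [WT.co_one, hν]

theorem ev_add (κ : Kp) (f g : WT) (z : Fin 2 → ℝ) (t : ℝ) :
    ev κ (f + g) z t = ev κ f z t + ev κ g z t := by
  rw [lEv_ev, lEv_ev, lEv_ev, ← (lEv_sum κ f z t).tsum_add (lEv_sum κ g z t)]
  refine tsum_congr fun ν => ?_
  simp only [WT.co_add, Pi.add_apply, BoundedContinuousFunction.coe_add]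
  ring

theorem ev_smul (κ : Kp) (c : ℂ) (f : WT) (z : Fin 2 → ℝ) (t : ℝ) :
    ev κ (c • f) z t = c * ev κ f z t := by
  rw [lEv_ev, lEv_ev, ← tsum_mul_left]
  refine tsum_congr fun ν => ?_
  simp only [WT.co_smul, Pi.smul_apply, BoundedContinuousFunction.coe_smul, smul_eq_mul]
  ring

theorem ev_mul (κ : Kp) (f g : WT) (z : Fin 2 → ℝ) (t : ℝ) :
    ev κ (f * g) z t = ev κ f z t * ev κ g z t := by
  have hF : Summable fun ν => ‖f.co ν t * lEv_ch κ ν z‖ := by
    refine Summable.of_nonneg_of_le (fun _ => norm_nonneg _) (fun ν => ?_) (rapid_norm f.rapid)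
    rw [norm_mul, lEv_norm, mul_one]
    exact (f.co ν).norm_coe_le_norm t
  have hG : Summable fun ν => ‖g.co ν t * lEv_ch κ ν z‖ := by
    refine Summable.of_nonneg_of_le (fun _ => norm_nonneg _) (fun ν => ?_) (rapid_norm g.rapid)
    rw [norm_mul, lEv_norm, mul_one]
    exact (g.co ν).norm_coe_le_norm t
  have hFG := summable_mul_of_summable_norm hF hG
  rw [lEv_ev κ f, lEv_ev κ g, tsum_mul_tsum_of_summable_norm hF hG]
  let e : Gx × Gx ≃ Gx × Gx :=
    { toFun := fun p => (p.2, p.1 - p.2)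
      invFun := fun p => (p.1 + p.2, p.1)
      left_inv := fun p => by ext <;> simp
      right_inv := fun p => by ext <;> simp }
  have hs : Summable fun p : Gx × Gx =>
      (f.co p.2 t * lEv_ch κ p.2 z) * (g.co (p.1 - p.2) t * lEv_ch κ (p.1 - p.2) z) :=
    (e.summable_iff (f := fun p : Gx × Gx =>
      (f.co p.1 t * lEv_ch κ p.1 z) * (g.co p.2 t * lEv_ch κ p.2 z))).2 hFG
  rw [← e.tsum_eq (fun p : Gx × Gx =>
      (f.co p.1 t * lEv_ch κ p.1 z) * (g.co p.2 t * lEv_ch κ p.2 z))]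
  change _ = ∑' p : Gx × Gx,
      (f.co p.2 t * lEv_ch κ p.2 z) * (g.co (p.1 - p.2) t * lEv_ch κ (p.1 - p.2) z)
  rw [hs.tsum_prod, lEv_ev]
  refine tsum_congr fun ν => ?_
  rw [WT.mul_co_apply, ← tsum_mul_right]
  refine tsum_congr fun μ => ?_
  have h : lEv_ch κ ν z = lEv_ch κ μ z * lEv_ch κ (ν - μ) z := by
    rw [← lEv_ch_add]; congr 1; abel
  rw [h]; ring

/-- Real elements have real values. -/
theorem ev_real {κ : Kp} {f : WT} (hf : IsR f) (z : Fin 2 → ℝ) (t : ℝ) :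
    ev κ f z t = (evR κ f z t : ℂ) := by
  have h : (starRingEnd ℂ) (ev κ f z t) = ev κ f z t := by
    rw [lEv_ev, Complex.conj_tsum, ← (Equiv.neg Gx).tsum_eq]
    refine tsum_congr fun ν => ?_
    rw [Equiv.neg_apply, map_mul, ← lEv_ch_neg, neg_neg, ← hf (-ν) t, neg_neg]
  unfold evR
  exact (Complex.conj_eq_iff_re.1 h).symm

/-! ### differentiability -/

end ES

end

section

/-!
ES-LReal: closure properties of real elements `IsR` (all coefficientwise; for products use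
`WT.mul_co_apply` and the change of variable `μ ↦ -μ`; for derivations `kap_neg`).
-/

open scoped BoundedContinuousFunction

namespace ES

theorem IsR.zero : IsR 0 := by
  intro ν t
  simp

private theorem lreal_cst {φ : Ct} (h : ∀ t, (starRingEnd ℂ) (φ t) = φ t) : IsR (ES.cst φ) := by
  intro ν t
  unfold ES.cst
  by_cases hν : ν = 0
  · subst hν
    rw [neg_zero]
    simp only [Pi.single_eq_same]
    exact (h t).symm
  · have hν' : -ν ≠ 0 := neg_ne_zero.2 hν
    simp only [Pi.single_eq_of_ne hν, Pi.single_eq_of_ne hν']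
    simp

theorem IsR.one : IsR 1 := by
  have h : IsR (ES.cst 1) := lreal_cst (fun t => by simp)
  exact h

theorem IsR.cst {φ : Ct} (h : ∀ t, (starRingEnd ℂ) (φ t) = φ t) : IsR (ES.cst φ) := lreal_cst h

theorem IsR.add {f g : WT} (hf : IsR f) (hg : IsR g) : IsR (f + g) := by
  intro ν t
  simp only [WT.co_add, Pi.add_apply, BoundedContinuousFunction.add_apply, map_add, hf ν t, hg ν t]

theorem IsR.neg {f : WT} (hf : IsR f) : IsR (-f) := by
  intro ν t
  simp only [WT.co_neg, Pi.neg_apply, BoundedContinuousFunction.neg_apply, map_neg, hf ν t]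

theorem IsR.sub {f g : WT} (hf : IsR f) (hg : IsR g) : IsR (f - g) := by
  rw [sub_eq_add_neg]
  exact hf.add hg.neg

theorem IsR.mul {f g : WT} (hf : IsR f) (hg : IsR g) : IsR (f * g) := by
  intro ν t
  rw [WT.mul_co_apply, WT.mul_co_apply, Complex.conj_tsum,
    ← (Equiv.neg Gx).tsum_eq (fun μ => f.co μ t * g.co (-ν - μ) t)]
  refine tsum_congr fun μ => ?_
  rw [Equiv.neg_apply, map_mul, hf μ t, show -ν - -μ = -(ν - μ) by abel, hg (ν - μ) t]

theorem IsR.smul {c : ℝ} {f : WT} (hf : IsR f) : IsR ((c : ℂ) • f) := by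
  intro ν t
  simp only [WT.co_smul, Pi.smul_apply, BoundedContinuousFunction.smul_apply, smul_eq_mul,
    map_mul, Complex.conj_ofReal, hf ν t]

theorem IsR.sum {ι : Type*} (s : Finset ι) {f : ι → WT} (hf : ∀ j ∈ s, IsR (f j)) :
    IsR (∑ j ∈ s, f j) := by
  classical
  induction s using Finset.induction_on with
  | empty =>
    rw [Finset.sum_empty]
    exact IsR.zero
  | insert a s ha ih =>
    rw [Finset.sum_insert ha]
    exact (hf a (Finset.mem_insert_self a s)).add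
      (ih fun j hj => hf j (Finset.mem_insert_of_mem hj))

/-- Multipliers with a conjugation symmetric symbol. -/
theorem IsR.mlt {s : Gx → ℂ} (hs : PG s) (h : ∀ ν, s (-ν) = (starRingEnd ℂ) (s ν)) {f : WT}
    (hf : IsR f) : IsR (ES.mlt s hs f) := by
  intro ν t
  simp only [mlt_co, BoundedContinuousFunction.smul_apply, smul_eq_mul, map_mul, h ν, hf ν t]

private theorem lreal_ksq (κ : Kp) (ν : Gx) : ksq κ (-ν) = ksq κ ν := by
  unfold ksq
  rw [kap_neg, kap_neg]
  push_cast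
  ring

theorem IsR.D {κ : Kp} {a : Fin 2} {f : WT} (hf : IsR f) : IsR (ES.D κ a f) := by
  refine IsR.mlt _ (fun ν => ?_) hf
  rw [kap_neg, map_mul, Complex.conj_I, map_intCast]
  push_cast
  ring

theorem IsR.dp {κ : Kp} {a : Fin 2} {f : WT} (hf : IsR f) : IsR (ES.dp κ a f) := by
  unfold ES.dp
  split_ifs
  · rw [LinearMap.neg_apply]
    exact hf.D.neg
  · exact hf.D

theorem IsR.dth {i : ℕ} {f : WT} (hf : IsR f) : IsR (ES.dth i f) := by
  refine IsR.mlt _ (fun ν => ?_) hf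
  rw [Finsupp.neg_apply, map_mul, Complex.conj_I, map_intCast]
  push_cast
  ring

theorem IsR.mean {i : ℕ} {f : WT} (hf : IsR f) : IsR (ES.mean i f) := by
  refine IsR.mlt _ (fun ν => ?_) hf
  simp only [Finsupp.neg_apply, neg_eq_zero]
  split_ifs <;> simp

theorem IsR.osc {i : ℕ} {f : WT} (hf : IsR f) : IsR (ES.osc i f) := by
  refine IsR.mlt _ (fun ν => ?_) hf
  simp only [Finsupp.neg_apply, neg_eq_zero]
  split_ifs <;> simp

theorem IsR.ith {i : ℕ} {f : WT} (hf : IsR f) : IsR (ES.ith i f) := by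
  refine IsR.mlt _ (fun ν => ?_) hf
  simp only [Finsupp.neg_apply, neg_eq_zero]
  split_ifs
  · simp
  · rw [map_inv₀, map_mul, Complex.conj_I, map_intCast]
    push_cast
    congr 1
    ring

theorem IsR.Pg {κ : Kp} {a b : Fin 2} {f : WT} (hf : IsR f) : IsR (ES.Pg κ a b f) := by
  refine IsR.mlt _ (fun ν => ?_) hf
  rw [kap_neg, kap_neg, lreal_ksq, map_div₀, map_mul, map_intCast, map_intCast,
    Complex.conj_ofReal]
  push_cast
  ring

private theorem lreal_pnz {κ : Kp} {f : WT} (hf : IsR f) : IsR (ES.Pnz κ f) := by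
  refine IsR.mlt _ (fun ν => ?_) hf
  rw [lreal_ksq]
  split_ifs <;> simp

theorem IsR.Pnz {κ : Kp} {f : WT} (hf : IsR f) : IsR (ES.Pnz κ f) := lreal_pnz hf

theorem IsR.Lin {κ : Kp} {f : WT} (hf : IsR f) : IsR (ES.Lin κ f) := by
  refine IsR.mlt _ (fun ν => ?_) hf
  rw [lreal_ksq, map_neg, map_inv₀, Complex.conj_ofReal]

theorem IsR.tcomp {g : C(ℝ, ℝ)} {f : WT} (hf : IsR f) : IsR (ES.tcomp g f) := by
  intro ν t
  exact hf ν (g t)

theorem IsR.tcl {a b : ℝ} {f : WT} (hf : IsR f) : IsR (ES.tcl a b f) := hf.tcomp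

theorem IsR.frz {t₀ : ℝ} {f : WT} (hf : IsR f) : IsR (ES.frz t₀ f) := hf.tcomp

theorem IsR.intg {a b : ℝ} {f : WT} (hf : IsR f) : IsR (ES.intg a b f) := by
  intro ν t
  rw [intg_co, intg_co]
  have h : (fun s => f.co (-ν) s) = fun s => (starRingEnd ℂ) (f.co ν s) := by
    funext s
    exact hf ν s
  rw [h]
  exact intervalIntegral.intervalIntegral_conj

end ES

end
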