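import Pool.Agent.H16.TSS.ES.LPic
import Pool.Agent.H16.TSS.ES.Stmt
import Pool.Agent.H16.TSS.ES.XAvg
import Pool.Agent.H16.TSS.M07
import Pool.Agent.H16.TSS.M08
import Pool.Agent.H16.TSS.M09

/-! The parts of this file: ES.LSqrt, ES.RPCb, ES.RPCg, ES.RPC, ES.R2Db, ES.BRep, ES.R3Dd, ES.V08, ES.XAmp, ES.XStep. -/

section

/-!
ES-LSqrt: square roots of time independent elements close to one:
`s = 1 + u`, `u = (y - u²)/2` by `fixpt` on the ball `N0(u) ≤ 1/2`.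
-/

open scoped BoundedContinuousFunction

namespace ES

private theorem LSqrt_frz_iff {f : WT} : (∀ t₀, frz t₀ f = f) ↔
    ∀ ν t₀ t, f.co ν t₀ = f.co ν t := by
  constructor
  · intro h ν t₀ t
    have h1 : (frz t₀ f).co ν t = f.co ν t := by rw [h t₀]
    rw [← h1, frz_co]
  · intro h t₀
    apply WT.ext
    funext ν
    ext t
    rw [frz_co]
    exact h ν t₀ t

private theorem LSqrt_frz_mul (t₀ : ℝ) (f g : WT) : frz t₀ (f * g) = frz t₀ f * frz t₀ g := by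
  apply WT.ext
  funext ν
  ext t
  rw [frz_co, WT.mul_co_apply, WT.mul_co_apply]
  exact tsum_congr fun μ => by rw [frz_co, frz_co]

theorem exists_sqrt {ρ : ℝ} (hρ : 0 < ρ) {y : WT} (hy : Bd 0 (cr ρ) y (1 / 2)) (ry : IsR y) {i : ℕ}
    (ly : Lev i y) (ty : ∀ t₀, frz t₀ y = y) :
    ∃ s : WT, s * s = 1 + y ∧ Bd 0 (cr ρ) s (3 / 2) ∧ IsR s ∧ Lev i s ∧ ∀ t₀, frz t₀ s = s := by
  have hr0 : ∀ t, 0 ≤ cr ρ t := fun _ => hρ.le
  obtain ⟨x, hx, ⟨hxR, hxL, hxT⟩, hxb⟩ := fixpt (ι := Fin 1) (fun _ => 0) (fun _ => 1 / 2)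
    (fun _ => by norm_num) (r := cr ρ) (r0 := ρ) hρ (fun _ => le_rfl)
    (fun u j => ((1 / 2 : ℝ) : ℂ) • (y - u j * u j)) 0
    (fun u => IsR (u 0) ∧ Lev i (u 0) ∧ ∀ t₀, frz t₀ (u 0) = u 0)
    ⟨IsR.zero, Lev.zero i, LSqrt_frz_iff.2 fun ν t₀ t => rfl⟩
    (fun u _ ⟨h1, h2, h3⟩ => by
      refine ⟨(ry.sub (h1.mul h1)).smul, (ly.sub (h2.mul h2)).smul _, ?_⟩
      have h4 : ∀ t₀, frz t₀ (u 0 * u 0) = u 0 * u 0 := fun t₀ => by
        rw [LSqrt_frz_mul, h3 t₀]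
      rw [LSqrt_frz_iff] at ty h4 ⊢
      intro ν t₀ t
      simp only [WT.co_smul, Pi.smul_apply, BoundedContinuousFunction.smul_apply, WT.co_sub,
        Pi.sub_apply, BoundedContinuousFunction.sub_apply]
      rw [ty ν t₀ t, h4 ν t₀ t])
    (fun xs z hQ hz => by
      refine ⟨IsR_of_tendsto (fun n => (hQ n).1) (hz 0), Lev_of_tendsto (fun n => (hQ n).2.1) (hz 0),
        ?_⟩
      rw [LSqrt_frz_iff]
      intro ν t₀ t
      have h1 := hz 0 ν t₀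
      have h2 := hz 0 ν t
      have h3 : (fun n => (xs n 0).co ν t₀) = fun n => (xs n 0).co ν t := by
        funext n
        exact LSqrt_frz_iff.1 (hQ n).2.2 ν t₀ t
      rw [h3] at h1
      exact tendsto_nhds_unique h1 h2)
    (fun j => by
      have h1 : ((fun (u : Fin 1 → WT) (j : Fin 1) => ((1 / 2 : ℝ) : ℂ) • (y - u j * u j)) 0 - 0) j
          = ((1 / 2 : ℝ) : ℂ) • y := by simp
      rw [h1]
      refine (hy.smul _).mono (le_of_eq ?_)
      rw [Complex.norm_real, Real.norm_eq_abs, abs_of_pos (by norm_num)])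
    (fun u v s _ _ hs hu hv huv j => by
      have hu' : Bd 0 (cr ρ) (u j) (1 * (1 / 2)) := by simpa using hu j
      have hv' : Bd 0 (cr ρ) (v j) (1 * (1 / 2)) := by simpa using hv j
      have h1 : ((fun j => ((1 / 2 : ℝ) : ℂ) • (y - u j * u j)) -
          (fun j => ((1 / 2 : ℝ) : ℂ) • (y - v j * v j)) : Fin 1 → WT) j
          = ((1 / 2 : ℝ) : ℂ) • (-((u - v) j * (u j + v j))) := by
        simp only [Pi.sub_apply]
        rw [← smul_sub]
        congr 1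
        ring
      change Bd 0 (cr ρ) (((fun j => ((1 / 2 : ℝ) : ℂ) • (y - u j * u j)) -
          (fun j => ((1 / 2 : ℝ) : ℂ) • (y - v j * v j)) : Fin 1 → WT) j) _
      rw [h1]
      refine (((huv j).mul hr0 (hu'.add hv')).neg.smul _).mono (le_of_eq ?_)
      rw [Complex.norm_real, Real.norm_eq_abs, abs_of_pos (by norm_num)]
      ring)
  have hx0 : x 0 = ((1 / 2 : ℝ) : ℂ) • (y - x 0 * x 0) := (congrFun hx 0).symm
  have hx2 : (2 : ℂ) • x 0 = y - x 0 * x 0 := by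
    conv_lhs => rw [hx0]
    rw [smul_smul]
    norm_num
  refine ⟨1 + x 0, ?_, ?_, IsR.one.add hxR, (Lev.one i).add hxL, ?_⟩
  · have h2 : (2 : ℂ) • x 0 = x 0 + x 0 := two_smul ℂ (x 0)
    rw [h2] at hx2
    linear_combination hx2
  · have h1 := hxb 0
    have h2 : Bd 0 (cr ρ) (x 0) (1 * (1 / 2)) := by simpa using h1
    exact ((Bd.one 0 (cr ρ)).add h2).mono (by norm_num)
  · rw [LSqrt_frz_iff] at hxT ⊢
    have h1 : ∀ t₀, frz t₀ (1 : WT) = 1 := by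
      rw [LSqrt_frz_iff]
      intro ν t₀ t
      rw [WT.co_one]
      by_cases h : ν = 0
      · subst h; simp
      · simp [h]
    rw [LSqrt_frz_iff] at h1
    intro ν t₀ t
    simp only [WT.co_add, Pi.add_apply, BoundedContinuousFunction.add_apply]
    rw [h1 ν t₀ t, hxT ν t₀ t]

end ES

end

section

/-!
Project ES, Part III, module RPCb: the parameter conditions `mP`, `mP2`, `s2`.

`mP`: `8 m P ≤ 8·7n²/(200 n⁴) = 0.28/n² ≤ 1/(n(n+1))` (`ev_PN_le`).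
`mP2`: `8 m P + 2 m ≤ 1`.
`s2`: `sigN n/sigN (n+1) = 2^(2β((n+2)³-(n+1)³)) ((n+2)/(n+1))⁴`, exponent
`2β(3n²+9n+7) ≤ 2n²+6n+5`, `((n+2)/(n+1))⁴ ≤ 16 = 2^4`, and `(1/2)^(nP) ≤ 2^(-n(2n+20))`.
-/

open Filter

namespace ES

private theorem RPCb_mP {n P : ℕ} (hn : 1 ≤ n) (hP : P ≤ 7 * n ^ 2) :
    8 * mN n * P ≤ 28 / 100 / (n : ℝ) ^ 2 := by
  have hn0 : (0 : ℝ) < n := by exact_mod_cast hn
  have hP' : (P : ℝ) ≤ 7 * (n : ℝ) ^ 2 := by exact_mod_cast hP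
  unfold mN
  have h1 : 8 * (1 / (200 * (n : ℝ) ^ 4)) * P ≤ 8 * (1 / (200 * (n : ℝ) ^ 4)) * (7 * (n : ℝ) ^ 2) :=
    mul_le_mul_of_nonneg_left hP' (by positivity)
  refine h1.trans (le_of_eq ?_)
  field_simp
  norm_num

theorem ev_mP {C0 : ℝ} (hC : 1 ≤ C0) (p : ℕ) {β : ℝ} (hβ0 : 0 ≤ β) (hβ : β < 1 / 3) :
    ∀ᶠ n : ℕ in atTop, 8 * mN n * PN C0 p β n ≤ 1 / (n : ℝ) - 1 / ((n : ℝ) + 1) := by
  filter_upwards [ev_PN_le hC p hβ0 hβ, eventually_ge_atTop 1] with n hP hn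
  have hn0 : (1 : ℝ) ≤ n := by exact_mod_cast hn
  refine (RPCb_mP hn hP).trans ?_
  have h1 : 1 / (n : ℝ) - 1 / ((n : ℝ) + 1) = 1 / ((n : ℝ) * (n + 1)) := by
    field_simp
    ring
  rw [h1, div_le_div_iff₀ (by positivity) (by positivity)]
  nlinarith

theorem ev_mP2 {C0 : ℝ} (hC : 1 ≤ C0) (p : ℕ) {β : ℝ} (hβ0 : 0 ≤ β) (hβ : β < 1 / 3) :
    ∀ᶠ n : ℕ in atTop, 8 * mN n * PN C0 p β n + 2 * mN n ≤ 1 := by
  filter_upwards [ev_PN_le hC p hβ0 hβ, eventually_ge_atTop 1] with n hP hn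
  have hn0 : (1 : ℝ) ≤ n := by exact_mod_cast hn
  have h1 := RPCb_mP hn hP
  have h2 : 28 / 100 / (n : ℝ) ^ 2 ≤ 28 / 100 := by
    apply div_le_self (by norm_num)
    nlinarith
  have h3 := mN_le hn
  linarith

theorem ev_s2 {C0 : ℝ} (hC : 1 ≤ C0) (p : ℕ) {β : ℝ} (hβ0 : 0 ≤ β) (hβ : β < 1 / 3) :
    ∀ᶠ n : ℕ in atTop,
      sigN β n * ((1 / 2 : ℝ) ^ n) ^ PN C0 p β n ≤ sigN β (n + 1) := by
  filter_upwards [ev_le_PN hC p hβ0 hβ, eventually_ge_atTop 1] with n hP hn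
  have hn0 : (1 : ℝ) ≤ n := by exact_mod_cast hn
  unfold sigN del
  have c1 : ((n + 1 : ℕ) : ℝ) = (n : ℝ) + 1 := by push_cast; ring
  have c2 : ((n + 1 + 1 : ℕ) : ℝ) = (n : ℝ) + 2 := by push_cast; ring
  rw [c1, c2]
  set E1 : ℝ := (2 : ℝ) ^ (-(2 * β * ((n : ℝ) + 1) ^ 3)) with hE1
  have hE10 : 0 < E1 := Real.rpow_pos_of_pos (by norm_num) _
  -- the power of one half
  have h1 : ((1 / 2 : ℝ) ^ n) ^ PN C0 p β n ≤ (1 / 2 : ℝ) ^ (2 * n ^ 2 + 6 * n + 9) := by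
    rw [← pow_mul]
    apply pow_le_pow_of_le_one (by norm_num) (by norm_num)
    have h2 : n * (2 * n + 20) ≤ n * PN C0 p β n := Nat.mul_le_mul_left _ hP
    nlinarith
  -- the other exponential
  have h2 : E1 * (1 / 2 : ℝ) ^ (2 * n ^ 2 + 6 * n + 5) ≤ (2 : ℝ) ^ (-(2 * β * ((n : ℝ) + 2) ^ 3)) := by
    have h3 : (1 / 2 : ℝ) ^ (2 * n ^ 2 + 6 * n + 5)
        = (2 : ℝ) ^ (-(2 * (n : ℝ) ^ 2 + 6 * n + 5)) := by
      rw [Real.rpow_neg (by norm_num), one_div, inv_pow]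
      congr 1
      rw [← Real.rpow_natCast]
      congr 1
      push_cast
      ring
    rw [h3, hE1, ← Real.rpow_add (by norm_num)]
    apply Real.rpow_le_rpow_of_exponent_le (by norm_num)
    nlinarith [mul_nonneg hβ0 (by positivity : (0 : ℝ) ≤ 3 * (n : ℝ) ^ 2 + 9 * n + 7)]
  have h4 : 1 / ((n : ℝ) + 1) ^ 4 ≤ 16 / ((n : ℝ) + 2) ^ 4 := by
    rw [div_le_div_iff₀ (by positivity) (by positivity)]
    have h5 : ((n : ℝ) + 2) ^ 4 ≤ (2 * ((n : ℝ) + 1)) ^ 4 :=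
      pow_le_pow_left₀ (by positivity) (by linarith) 4
    have h6 : (2 * ((n : ℝ) + 1)) ^ 4 = 16 * ((n : ℝ) + 1) ^ 4 := by ring
    linarith
  have e1 : (1 / 2 : ℝ) ^ (2 * n ^ 2 + 6 * n + 9) = (1 / 2 : ℝ) ^ (2 * n ^ 2 + 6 * n + 5) / 16 := by
    rw [show 2 * n ^ 2 + 6 * n + 9 = (2 * n ^ 2 + 6 * n + 5) + 4 by ring, pow_add]
    norm_num
    ring
  calc E1 / ((n : ℝ) + 1) ^ 4 * ((1 / 2 : ℝ) ^ n) ^ PN C0 p β n
      ≤ E1 / ((n : ℝ) + 1) ^ 4 * (1 / 2 : ℝ) ^ (2 * n ^ 2 + 6 * n + 9) :=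
        mul_le_mul_of_nonneg_left h1 (by positivity)
    _ = (E1 * (1 / 2 : ℝ) ^ (2 * n ^ 2 + 6 * n + 5)) / 16 * (1 / ((n : ℝ) + 1) ^ 4) := by
        rw [e1]; ring
    _ ≤ (E1 * (1 / 2 : ℝ) ^ (2 * n ^ 2 + 6 * n + 5)) / 16 * (16 / ((n : ℝ) + 2) ^ 4) :=
        mul_le_mul_of_nonneg_left h4 (by positivity)
    _ = (E1 * (1 / 2 : ℝ) ^ (2 * n ^ 2 + 6 * n + 5)) / ((n : ℝ) + 2) ^ 4 := by ring
    _ ≤ _ := div_le_div_of_nonneg_right h2 (by positivity)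

end ES

end

section

/-!
Project ES, Part III, module RPCg: the parameter conditions `hl`, `hl'`, `cnt`.

From `lN_div_hN`: `lN n/hN n ≥ 1` for `n ≥ 1` (all factors are at least `1`, `β ≥ 0`).
`cnt`: `2·4C0·lN/hN·(6P+1) = 2^(2β(..)) · [32 C0⁴ KN^p 4^n ((n+1)/n)⁴ (6P+1)]` and the bracket is at
most `2^(8n+4)` eventually (`ev_PN_le`, `gauge`).
-/

open Filter

namespace ES

private theorem RPCg_cube (n : ℕ) : 0 ≤ ((n : ℝ) + 1) ^ 3 - (n : ℝ) ^ 3 := by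
  have h : ((n : ℝ) + 1) ^ 3 - (n : ℝ) ^ 3 = 3 * (n : ℝ) ^ 2 + 3 * n + 1 := by ring
  rw [h]
  positivity

theorem hN_le_lN {C0 : ℝ} (hC : 1 ≤ C0) (p : ℕ) {β : ℝ} (hβ0 : 0 ≤ β) {n : ℕ} (hn : 1 ≤ n) :
    hN C0 β n ≤ lN C0 p β n := by
  rw [← one_le_div (hN_pos hC β hn), lN_div_hN hC p β hn]
  have h1 : (1 : ℝ) ≤ C0 ^ 3 := one_le_pow₀ hC
  have h2 : (1 : ℝ) ≤ KN n ^ p := one_le_pow₀ (KN_pos hn)
  have h3 : (1 : ℝ) ≤ 4 ^ n := one_le_pow₀ (by norm_num)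
  have h4 : (1 : ℝ) ≤ (2 : ℝ) ^ (2 * β * (((n : ℝ) + 1) ^ 3 - (n : ℝ) ^ 3)) :=
    Real.one_le_rpow (by norm_num) (mul_nonneg (by positivity) (RPCg_cube n))
  have hn0 : (0 : ℝ) < n := by exact_mod_cast hn
  have h5 : (1 : ℝ) ≤ (((n : ℝ) + 1) / n) ^ 4 := by
    refine one_le_pow₀ ?_
    rw [one_le_div hn0]
    linarith
  have h6 : (1 : ℝ) ≤ (2 : ℝ) ^ (2 * β * (((n : ℝ) + 1) ^ 3 - (n : ℝ) ^ 3)) *
      (((n : ℝ) + 1) / n) ^ 4 := one_le_mul_of_one_le_of_one_le h4 h5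
  have h7 : (1 : ℝ) ≤ 4 * C0 ^ 3 := by linarith
  exact one_le_mul_of_one_le_of_one_le
    (one_le_mul_of_one_le_of_one_le (one_le_mul_of_one_le_of_one_le h7 h2) h3) h6

theorem ev_cnt {C0 : ℝ} (hC : 1 ≤ C0) (p : ℕ) {β : ℝ} (hβ0 : 0 ≤ β) (hβ : β < 1 / 3) :
    ∀ᶠ n : ℕ in atTop,
      2 * (4 * C0 * lN C0 p β n) / hN C0 β n * (6 * (PN C0 p β n : ℝ) + 1) ≤
        (2 : ℝ) ^ (2 * β * (((n : ℝ) + 1) ^ 3 - (n : ℝ) ^ 3) + 4 * (2 * (n : ℝ) + 1)) := by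
  have hg := gauge (32 * C0 ^ 4 * 16 * 43) p 2 (a := 1) one_pos
  filter_upwards [hg, ev_PN_le hC p hβ0 hβ, eventually_ge_atTop 1] with n h1 h2 hn
  have hn0 : (0 : ℝ) < n := by exact_mod_cast hn
  have hn1 : (1 : ℝ) ≤ n := by exact_mod_cast hn
  have hC0 : 0 < C0 := by linarith
  have e1 : 2 * (4 * C0 * lN C0 p β n) / hN C0 β n = 8 * C0 * (lN C0 p β n / hN C0 β n) := by
    ring
  rw [e1, lN_div_hN hC p β hn, Real.rpow_add (by norm_num)]
  set X : ℝ := (2 : ℝ) ^ (2 * β * (((n : ℝ) + 1) ^ 3 - (n : ℝ) ^ 3)) with hX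
  have hX0 : 0 < X := by positivity
  have hK : KN n ≤ KN (n + 1) := by
    rw [KN_eq hn, KN_eq (by omega)]
    have : (n : ℝ) ^ 4 ≤ ((n + 1 : ℕ) : ℝ) ^ 4 := by
      gcongr
      linarith
    linarith
  have hK1 : 1 ≤ KN n := KN_pos hn
  have hKp : KN n ^ p ≤ KN (n + 1) ^ p := pow_le_pow_left₀ (by linarith) hK p
  have hKp0 : 0 < KN n ^ p := by positivity
  have hKp1 : 0 ≤ KN (n + 1) ^ p := hKp0.le.trans hKp
  have hr : (((n : ℝ) + 1) / n) ^ 4 ≤ 16 := by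
    have h3 : ((n : ℝ) + 1) / n ≤ 2 := by
      rw [div_le_iff₀ hn0]
      linarith
    calc (((n : ℝ) + 1) / n) ^ 4 ≤ 2 ^ 4 := pow_le_pow_left₀ (by positivity) h3 4
      _ = 16 := by norm_num
  have hP : 6 * (PN C0 p β n : ℝ) + 1 ≤ 43 * ((n : ℝ) + 2) ^ 2 := by
    have h3 : (PN C0 p β n : ℝ) ≤ 7 * (n : ℝ) ^ 2 := by exact_mod_cast h2
    nlinarith
  have hP0 : 0 ≤ 6 * (PN C0 p β n : ℝ) + 1 := by positivity
  have key : 32 * C0 ^ 4 * KN n ^ p * (((n : ℝ) + 1) / n) ^ 4 * (6 * (PN C0 p β n : ℝ) + 1) ≤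
      (2 : ℝ) ^ (1 * (n : ℝ)) := by
    refine le_trans ?_ h1
    calc 32 * C0 ^ 4 * KN n ^ p * (((n : ℝ) + 1) / n) ^ 4 * (6 * (PN C0 p β n : ℝ) + 1)
        ≤ 32 * C0 ^ 4 * KN (n + 1) ^ p * 16 * (43 * ((n : ℝ) + 2) ^ 2) := by
          have h5 : 0 ≤ 32 * C0 ^ 4 * KN (n + 1) ^ p := mul_nonneg (by positivity) hKp1
          refine mul_le_mul (mul_le_mul ?_ hr (by positivity) h5) hP hP0 (by positivity)
          exact mul_le_mul_of_nonneg_left hKp (by positivity)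
      _ = 32 * C0 ^ 4 * 16 * 43 * KN (n + 1) ^ p * ((n : ℝ) + 2) ^ 2 := by ring
  have h4n : (4 : ℝ) ^ n = (2 : ℝ) ^ (2 * (n : ℝ)) := by
    rw [Real.rpow_mul (by norm_num), Real.rpow_natCast]
    norm_num
  calc 8 * C0 * (4 * C0 ^ 3 * KN n ^ p * 4 ^ n * (X * (((n : ℝ) + 1) / n) ^ 4)) *
        (6 * (PN C0 p β n : ℝ) + 1)
      = X * (4 ^ n * (32 * C0 ^ 4 * KN n ^ p * (((n : ℝ) + 1) / n) ^ 4 *
          (6 * (PN C0 p β n : ℝ) + 1))) := by ring
    _ ≤ X * ((2 : ℝ) ^ (2 * (n : ℝ)) * (2 : ℝ) ^ (1 * (n : ℝ))) := by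
        rw [h4n]
        gcongr
    _ = X * (2 : ℝ) ^ (2 * (n : ℝ) + 1 * (n : ℝ)) := by rw [Real.rpow_add (by norm_num)]
    _ ≤ X * (2 : ℝ) ^ (4 * (2 * (n : ℝ) + 1)) := by
        refine mul_le_mul_of_nonneg_left ?_ hX0.le
        exact Real.rpow_le_rpow_of_exponent_le (by norm_num) (by linarith)

end ES

end

section

/-!
Project ES, Part III, module RPC: all parameter conditions hold for large `n` (assembly, complete).
-/

open Filter

namespace ES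

theorem ev_PC {C0 : ℝ} (hC : 1 ≤ C0) (p : ℕ) {β : ℝ} (hβ0 : 0 ≤ β) (hβ : β < 1 / 3) :
    ∀ᶠ n : ℕ in atTop, PC C0 p β n := by
  filter_upwards [ev_mP hC p hβ0 hβ, ev_mP2 hC p hβ0 hβ, ev_kl, ev_ex, ev_hg hC p β, ev_nu hC p β,
    ev_lr hC p hβ0 hβ, ev_lr2 hC p hβ0 hβ, ev_g1 hC p hβ0 hβ, ev_g2 hC hβ0 hβ, ev_s1 hC p hβ0 hβ,
    ev_s2 hC p hβ0 hβ, ev_A1 hC p hβ0 hβ, ev_cnt hC p hβ0 hβ, eventually_ge_atTop 4] with n
    h1 h2 h3 h4 h5 h6 h7 h8 h9 h10 h11 h12 h13 h14 h15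
  exact
    { n4 := h15
      mP := h1
      mP2 := h2
      gw := ev_gw hC hβ0 (by omega)
      kl := h3
      ex := h4
      hg := h5
      nu := h6
      lr := h7
      lr2 := h8
      g1 := h9
      g2 := h10
      s1 := h11
      s2 := h12
      A1 := h13
      hl := hN_le_lN hC p hβ0 (by omega)
      hl' := hN_le_lN hC p hβ0 (by omega)
      w1 := ev_w1 hC hβ0 n
      cnt := h14 }

end ES

end

section

/-!
Project ES, Part III, module R2Db: the Hoelder sum and the starting stage.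

`hoelder_sum`: `gN (n0+k) ≤ gN (n0+k+1)` (`g2`), so the term is at most
`(C0 wN)^(1-β) (2 gN (n0+k+1) (1+8(1+v)))^β = const · wN^(1-β) gN(n+1)^β`; `summable_hoelder` shifted.
`exists_start`: `ev_PC` and `tendsto_gN`.
-/

open MeasureTheory Set Filter Topology

namespace ES

theorem hoelder_sum {C0 : ℝ} (hC : 1 ≤ C0) {p : ℕ} {β : ℝ} (hβ0 : 0 ≤ β) (hβ : β < 1 / 3)
    {n0 : ℕ} (hP : ∀ n, n0 ≤ n → PC C0 p β n) {v : ℝ} (hv : 0 ≤ v) :
    Summable fun k => (C0 * wN C0 β (n0 + k)) ^ (1 - β) *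
      (gN C0 β (n0 + k) * (1 + 8 * (1 + v)) + gN C0 β (n0 + (k + 1)) * (1 + 8 * (1 + v))) ^ β := by
  have hM : 0 < 1 + 8 * (1 + v) := by linarith
  have h1β : 0 ≤ 1 - β := by linarith
  have hs : Summable fun k => wN C0 β (n0 + k) ^ (1 - β) * gN C0 β (n0 + k + 1) ^ β :=
    (summable_hoelder hC hβ0 hβ).comp_injective (add_right_injective n0)
  refine Summable.of_nonneg_of_le ?_ ?_ (hs.mul_left (C0 ^ (1 - β) * (2 * (1 + 8 * (1 + v))) ^ β))
  · intro k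
    have hpc := hP (n0 + k) (by omega)
    have h4 := hpc.n4
    have hw := wN_pos hC β (n0 + k)
    have hg := gN_pos hC β (n := n0 + k) (by omega)
    have hg' := gN_pos hC β (n := n0 + (k + 1)) (by omega)
    positivity
  · intro k
    have hpc := hP (n0 + k) (by omega)
    have h4 := hpc.n4
    have hw := wN_pos hC β (n0 + k)
    have hg := gN_pos hC β (n := n0 + k) (by omega)
    have hg' := gN_pos hC β (n := n0 + k + 1) (by omega)
    have hg2 := hpc.g2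
    have hC0 : 0 ≤ C0 := by linarith
    rw [← add_assoc, Real.mul_rpow hC0 hw.le]
    have h5 : (gN C0 β (n0 + k) * (1 + 8 * (1 + v)) + gN C0 β (n0 + k + 1) * (1 + 8 * (1 + v))) ^ β ≤
        (2 * (1 + 8 * (1 + v))) ^ β * gN C0 β (n0 + k + 1) ^ β := by
      rw [← Real.mul_rpow (by positivity) hg'.le]
      apply Real.rpow_le_rpow (by positivity) _ hβ0
      have : gN C0 β (n0 + k) ≤ gN C0 β (n0 + k + 1) := by linarith
      have := mul_le_mul_of_nonneg_right this hM.le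
      linarith
    calc C0 ^ (1 - β) * wN C0 β (n0 + k) ^ (1 - β) *
        (gN C0 β (n0 + k) * (1 + 8 * (1 + v)) + gN C0 β (n0 + k + 1) * (1 + 8 * (1 + v))) ^ β
        ≤ C0 ^ (1 - β) * wN C0 β (n0 + k) ^ (1 - β) *
          ((2 * (1 + 8 * (1 + v))) ^ β * gN C0 β (n0 + k + 1) ^ β) :=
          mul_le_mul_of_nonneg_left h5 (by positivity)
      _ = _ := by ring

/-- Choice of the starting stage. -/
theorem exists_start {C0 : ℝ} (hC : 1 ≤ C0) (p : ℕ) {β : ℝ} (hβ0 : 0 ≤ β) (hβ : β < 1 / 3) :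
    ∃ n0 : ℕ, (∀ n, n0 ≤ n → PC C0 p β n) ∧ 100 ≤ gN C0 β n0 := by
  obtain ⟨N1, h1⟩ := eventually_atTop.1 (ev_PC hC p hβ0 hβ)
  obtain ⟨N2, h2⟩ := eventually_atTop.1 ((tendsto_gN hC hβ0 hβ).eventually (eventually_ge_atTop 100))
  exact ⟨max N1 N2, fun n hn => h1 n ((le_max_left _ _).trans hn), h2 _ (le_max_right _ _)⟩

end ES

end

section

/-!
ES-BRep: representations of fields: evaluation at frozen/clamped times, gluing.
-/

open scoped BoundedContinuousFunction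

namespace ES

theorem evR_frz (κ : Kp) (f : WT) (z : Fin 2 → ℝ) (t t' : ℝ) :
    evR κ (frz t f) z t' = evR κ f z t := rfl

private theorem brep_clp {s t' t : ℝ} (ht : t ∈ Set.Icc s t') : clp s t' t = t := by
  unfold clp
  rw [min_eq_right ht.2, max_eq_right ht.1]

theorem evR_tcl (κ : Kp) (f : WT) (z : Fin 2 → ℝ) {s t' t : ℝ} (ht : t ∈ Set.Icc s t') :
    evR κ (tcl s t' f) z t = evR κ f z t := by
  have h1 : evR κ (tcl s t' f) z t = evR κ f z (clp s t' t) := rfl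
  rw [h1, brep_clp ht]

private theorem brep_kap (κ : Kp) (i : ℕ) (k : Fin 2 → ℤ) (a : Fin 2) {ν : Gx} (h : ν i = 0) :
    kap (upd κ i k) a ν = kap κ a ν := by
  unfold kap Finsupp.sum
  refine Finset.sum_congr rfl fun j hj => ?_
  have hji : j ≠ i := by
    rintro rfl
    exact (Finsupp.mem_support_iff.mp hj) h
  change ν j * Function.update (κ.k a) i (k a) j = ν j * κ.k a j
  rw [Function.update_of_ne hji]

/-- The frequency of a variable which does not occur is irrelevant. -/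
theorem evR_upd (κ : Kp) (i : ℕ) (k : Fin 2 → ℤ) (hκ : ∀ a, κ.k a i = 0) {f : WT}
    (hf : osc i f = 0) (z : Fin 2 → ℝ) (t : ℝ) : evR (upd κ i k) f z t = evR κ f z t := by
  have h0 : ∀ ν : Gx, ν i ≠ 0 → f.co ν = 0 := by
    intro ν hν
    have h1 : (osc i f).co ν = 0 := by rw [hf]; rfl
    have h2 : (osc i f).co ν = (if ν i = 0 then (0 : ℂ) else 1) • f.co ν := rfl
    rw [h2, if_neg hν, one_smul] at h1
    exact h1
  unfold evR ev
  congr 1
  refine tsum_congr fun ν => ?_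
  by_cases hν : ν i = 0
  · rw [brep_kap κ i k 0 hν, brep_kap κ i k 1 hν]
  · rw [h0 ν hν]
    simp

theorem Rep.tcl {d : Dat} {V : Fld} {t0 t1 s t : ℝ} (h : Rep d V t0 t1) (h0 : t0 ≤ s)
    (h1 : t ≤ t1) : Rep (d.tcl s t) V s t := by
  intro u hu
  have hX : Xm (d.tcl s t) u = Xm d u := by
    funext z a
    change z a + evR d.κ (ES.tcl s t (d.ξ a)) z u = z a + evR d.κ (d.ξ a) z u
    rw [evR_tcl d.κ (d.ξ a) z hu]
  have h2 := h u ⟨h0.trans hu.1, hu.2.trans h1⟩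
  refine ⟨by rw [hX]; exact h2.1, fun z a => ?_⟩
  rw [hX, h2.2 z a]
  change _ = evR d.κ (ES.tcl s t (d.v a)) z u
  rw [evR_tcl d.κ (d.v a) z hu]

/-- `Rep` only depends on `κ`, `ξ`, `v`. -/
theorem Rep.congr_dat {d d' : Dat} {V : Fld} {t0 t1 : ℝ} (h : Rep d V t0 t1) (hκ : d'.κ = d.κ)
    (hξ : d'.ξ = d.ξ) (hv : d'.v = d.v) : Rep d' V t0 t1 := by
  intro t ht
  have hX : Xm d' t = Xm d t := by
    funext z a
    change z a + evR d'.κ (d'.ξ a) z t = z a + evR d.κ (d.ξ a) z t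
    rw [hκ, hξ]
  have h2 := h t ht
  refine ⟨by rw [hX]; exact h2.1, fun z a => ?_⟩
  rw [hX, h2.2 z a, hκ, hv]

/-- Two data with the same values at time `t`. -/
def EqAt (d d' : Dat) (t : ℝ) : Prop :=
  (∀ z a, evR d.κ (d.ξ a) z t = evR d'.κ (d'.ξ a) z t) ∧
    ∀ z a, evR d.κ (d.v a) z t = evR d'.κ (d'.v a) z t

private theorem brep_eqX {d d' : Dat} {t : ℝ} (h : EqAt d d' t) : Xm d t = Xm d' t := by
  funext z a
  change z a + evR d.κ (d.ξ a) z t = z a + evR d'.κ (d'.ξ a) z t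
  rw [h.1 z a]

/-- The field carried by the data `d` at time `t`. -/
private noncomputable def brepW (d : Dat) (x : Fin 2 → ℝ) (t : ℝ) : Fin 2 → ℝ :=
  fun a => evR d.κ (d.v a) (Function.invFun (Xm d t) x) t

private theorem brepW_apply {d : Dat} {t : ℝ} (h : Function.Bijective (Xm d t)) (z : Fin 2 → ℝ)
    (a : Fin 2) : brepW d (Xm d t z) t a = evR d.κ (d.v a) z t := by
  have h1 : Function.invFun (Xm d t) (Xm d t z) = z :=
    Function.leftInverse_invFun h.injective z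
  unfold brepW
  rw [h1]

/-- Gluing: four consecutive intervals. -/
theorem glue4 (V : Fld) (τ : ℕ → ℝ) (hτ : ∀ j < 4, τ j < τ (j + 1)) (D : ℕ → Dat)
    (hb : ∀ j < 4, ∀ t ∈ Set.Icc (τ j) (τ (j + 1)), Function.Bijective (Xm (D j) t))
    (hj : ∀ j < 3, EqAt (D j) (D (j + 1)) (τ (j + 1)))
    (h0 : ∀ z a, V (Xm (D 0) (τ 0) z) (τ 0) a = evR (D 0).κ ((D 0).v a) z (τ 0))
    (h1 : ∀ z a, V (Xm (D 3) (τ 4) z) (τ 4) a = evR (D 3).κ ((D 3).v a) z (τ 4)) :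
    ∃ V' : Fld, (∀ x t, t ∉ Set.Ioo (τ 0) (τ 4) → V' x t = V x t) ∧
      ∀ j < 4, Rep (D j) V' (τ j) (τ (j + 1)) := by
  classical
  have a0 : τ 0 < τ 1 := hτ 0 (by norm_num)
  have a1 : τ 1 < τ 2 := hτ 1 (by norm_num)
  have a2 : τ 2 < τ 3 := hτ 2 (by norm_num)
  have a3 : τ 3 < τ 4 := hτ 3 (by norm_num)
  let V' : Fld := fun x t =>
    if t ≤ τ 0 then V x t else if τ 4 ≤ t then V x t else
      if t ≤ τ 1 then brepW (D 0) x t else if t ≤ τ 2 then brepW (D 1) x t else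
        if t ≤ τ 3 then brepW (D 2) x t else brepW (D 3) x t
  have v0 : ∀ x t, t ≤ τ 0 → V' x t = V x t := fun x t h => if_pos h
  have v5 : ∀ x t, τ 4 ≤ t → V' x t = V x t := fun x t h => by
    change (if t ≤ τ 0 then V x t else if τ 4 ≤ t then V x t else _) = V x t
    rw [if_pos h]
    split_ifs <;> rfl
  have v1 : ∀ x t, τ 0 < t → t ≤ τ 1 → V' x t = brepW (D 0) x t := fun x t h h' => by
    change (if t ≤ τ 0 then V x t else if τ 4 ≤ t then V x t else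
      if t ≤ τ 1 then brepW (D 0) x t else _) = _
    rw [if_neg (not_le.2 h), if_neg (not_le.2 (by linarith)), if_pos h']
  have v2 : ∀ x t, τ 1 < t → t ≤ τ 2 → V' x t = brepW (D 1) x t := fun x t h h' => by
    change (if t ≤ τ 0 then V x t else if τ 4 ≤ t then V x t else
      if t ≤ τ 1 then brepW (D 0) x t else if t ≤ τ 2 then brepW (D 1) x t else _) = _
    rw [if_neg (not_le.2 (by linarith)), if_neg (not_le.2 (by linarith)), if_neg (not_le.2 h),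
      if_pos h']
  have v3 : ∀ x t, τ 2 < t → t ≤ τ 3 → V' x t = brepW (D 2) x t := fun x t h h' => by
    change (if t ≤ τ 0 then V x t else if τ 4 ≤ t then V x t else
      if t ≤ τ 1 then brepW (D 0) x t else if t ≤ τ 2 then brepW (D 1) x t else
        if t ≤ τ 3 then brepW (D 2) x t else _) = _
    rw [if_neg (not_le.2 (by linarith)), if_neg (not_le.2 (by linarith)),
      if_neg (not_le.2 (by linarith)), if_neg (not_le.2 h), if_pos h']
  have v4 : ∀ x t, τ 3 < t → t < τ 4 → V' x t = brepW (D 3) x t := fun x t h h' => by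
    change (if t ≤ τ 0 then V x t else if τ 4 ≤ t then V x t else
      if t ≤ τ 1 then brepW (D 0) x t else if t ≤ τ 2 then brepW (D 1) x t else
        if t ≤ τ 3 then brepW (D 2) x t else brepW (D 3) x t) = _
    rw [if_neg (not_le.2 (by linarith)), if_neg (not_le.2 h'),
      if_neg (not_le.2 (by linarith)), if_neg (not_le.2 (by linarith)), if_neg (not_le.2 h)]
  -- passing through a junction
  have key : ∀ j < 3, (∀ x, V' x (τ (j + 1)) = brepW (D j) x (τ (j + 1))) →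
      ∀ z a, V' (Xm (D (j + 1)) (τ (j + 1)) z) (τ (j + 1)) a =
        evR (D (j + 1)).κ ((D (j + 1)).v a) z (τ (j + 1)) := by
    intro j hj3 hV z a
    have hE := hj j hj3
    have hlt : τ j < τ (j + 1) := hτ j (by omega)
    rw [hV, ← brep_eqX hE, brepW_apply (hb j (by omega) _ ⟨hlt.le, le_refl _⟩), hE.2 z a]
  refine ⟨V', fun x t ht => ?_, fun j hj4 t ht => ⟨hb j hj4 t ht, fun z a => ?_⟩⟩
  · rcases le_or_gt t (τ 0) with h | h
    · exact v0 x t h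
    · refine v5 x t ?_
      by_contra h2
      exact ht ⟨h, not_le.1 h2⟩
  · have hB := hb j hj4 t ht
    interval_cases j
    · rcases eq_or_lt_of_le ht.1 with h | h
      · subst h
        rw [v0 _ _ (le_refl _)]
        exact h0 z a
      · rw [v1 _ _ h ht.2]
        exact brepW_apply hB z a
    · rcases eq_or_lt_of_le ht.1 with h | h
      · subst h
        exact key 0 (by norm_num) (fun x => v1 _ _ a0 (le_refl _)) z a
      · rw [v2 _ _ h ht.2]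
        exact brepW_apply hB z a
    · rcases eq_or_lt_of_le ht.1 with h | h
      · subst h
        exact key 1 (by norm_num) (fun x => v2 _ _ a1 (le_refl _)) z a
      · rw [v3 _ _ h ht.2]
        exact brepW_apply hB z a
    · rcases eq_or_lt_of_le ht.1 with h | h
      · subst h
        exact key 2 (by norm_num) (fun x => v3 _ _ a2 (le_refl _)) z a
      · rcases eq_or_lt_of_le ht.2 with h' | h'
        · have h4 : t = τ 4 := h'
          subst h4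
          rw [v5 _ _ (le_refl _)]
          exact h1 z a
        · rw [v4 _ _ h h']
          exact brepW_apply hB z a

end ES

end

section

/-!
Project ES, Part III: the three-dimensional field (definitions).

`v3 c V x t = (c/(2π)) (V (2π x_0, 2π x_1) (c t) 0, V (..) (c t) 1, 0)`, `c = T0/T`.
-/

open MeasureTheory Set EulerTimes

namespace ES

/-- Projection of `ℝ³` to the first two coordinates, multiplied by `2π`. -/
noncomputable def prj (x : R3) : Fin 2 → ℝ := fun a => 2 * Real.pi * x (Fin.castSucc a)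

/-- The three-dimensional field. -/
noncomputable def v3 (c : ℝ) (V : Fld) : R3 → ℝ → R3 := fun x t =>
  WithLp.toLp 2 ![c / (2 * Real.pi) * V (prj x) (c * t) 0,
    c / (2 * Real.pi) * V (prj x) (c * t) 1, 0]

end ES

end

section

/-!
ES-V08 (Part II, helper27): integrals over the box depending on the time.

`hasDerivAt_integral_Bx`: `hasDerivAt_integral_of_dominated_loc_of_deriv_le` on a small closed
interval around `t`, the bound of the derivative by compactness (`IsCompact` of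
`Bx ×ˢ Icc (t-δ) (t+δ)`).  `continuous_integral_Bx`: `continuous_parametric_integral_of_continuous`
(`isCompact_Icc`), `continuousOn_integral_Bx`: compose with the clamp `clp a b` first.
-/

open MeasureTheory

namespace ES

theorem continuous_integral_Bx {G : (Fin 2 → ℝ) → ℝ → ℝ}
    (h : Continuous fun p : (Fin 2 → ℝ) × ℝ => G p.1 p.2) :
    Continuous fun t => ∫ z in Bx, G z t := by
  have hf : Continuous (Function.uncurry fun (t : ℝ) (z : Fin 2 → ℝ) => G z t) :=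
    h.comp (continuous_snd.prodMk continuous_fst)
  exact continuous_parametric_integral_of_continuous (μ := volume) hf (s := Bx) isCompact_Icc

private theorem v08_clp_mem {a b : ℝ} (hab : a ≤ b) (t : ℝ) : clp a b t ∈ Set.Icc a b := by
  unfold clp
  exact ⟨le_max_left _ _, max_le hab (min_le_left _ _)⟩

private theorem v08_clp_eq {a b t : ℝ} (ht : t ∈ Set.Icc a b) : clp a b t = t := by
  unfold clp
  rw [min_eq_right ht.2, max_eq_right ht.1]

theorem continuousOn_integral_Bx {G : (Fin 2 → ℝ) → ℝ → ℝ} {a b : ℝ} (hab : a ≤ b)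
    (h : ContinuousOn (fun p : (Fin 2 → ℝ) × ℝ => G p.1 p.2) (Set.univ ×ˢ Set.Icc a b)) :
    ContinuousOn (fun t => ∫ z in Bx, G z t) (Set.Icc a b) := by
  have hc : Continuous fun p : (Fin 2 → ℝ) × ℝ => G p.1 (clp a b p.2) := by
    have h1 : Continuous fun p : (Fin 2 → ℝ) × ℝ => ((p.1, clp a b p.2) : (Fin 2 → ℝ) × ℝ) :=
      continuous_fst.prodMk ((clp_continuous a b).comp continuous_snd)
    exact h.comp_continuous h1 (fun p => ⟨Set.mem_univ _, v08_clp_mem hab _⟩)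
  have h2 := continuous_integral_Bx (G := fun z t => G z (clp a b t)) hc
  refine h2.continuousOn.congr ?_
  intro t ht
  dsimp only
  rw [v08_clp_eq ht]

theorem hasDerivAt_integral_Bx {G G' : (Fin 2 → ℝ) → ℝ → ℝ} {a b : ℝ}
    (hG : Continuous fun p : (Fin 2 → ℝ) × ℝ => G p.1 p.2)
    (hG' : Continuous fun p : (Fin 2 → ℝ) × ℝ => G' p.1 p.2)
    (hd : ∀ z, ∀ t ∈ Set.Ioo a b, HasDerivAt (fun s => G z s) (G' z t) t) {t : ℝ}
    (ht : t ∈ Set.Ioo a b) :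
    HasDerivAt (fun s => ∫ z in Bx, G z s) (∫ z in Bx, G' z t) t := by
  have hcB : IsCompact Bx := isCompact_Icc
  have hGt : ∀ s, Continuous fun z => G z s := fun s =>
    hG.comp (continuous_id.prodMk continuous_const)
  have hG't : ∀ s, Continuous fun z => G' z s := fun s =>
    hG'.comp (continuous_id.prodMk continuous_const)
  have hcK : IsCompact (Bx ×ˢ Set.Icc ((a + t) / 2) ((t + b) / 2)) := hcB.prod isCompact_Icc
  obtain ⟨C, hC⟩ := hcK.exists_bound_of_continuousOn hG'.continuousOn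
  have hs : Set.Icc ((a + t) / 2) ((t + b) / 2) ∈ nhds t := by
    apply Icc_mem_nhds
    · linarith [ht.1]
    · linarith [ht.2]
  have hmeas : MeasurableSet Bx := measurableSet_Icc
  have hfin : volume Bx ≠ ⊤ := hcB.measure_lt_top.ne
  refine (hasDerivAt_integral_of_dominated_loc_of_deriv_le (μ := volume.restrict Bx) (F := fun s z => G z s)
    (F' := fun s z => G' z s) (bound := fun _ => C) hs ?_ ?_ ?_ ?_ ?_ ?_).2
  · exact Filter.Eventually.of_forall fun s => (hGt s).aestronglyMeasurable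
  · exact (hGt t).continuousOn.integrableOn_compact hcB
  · exact (hG't t).aestronglyMeasurable
  · rw [ae_restrict_iff' hmeas]
    exact Filter.Eventually.of_forall fun z hz s hs' => hC (z, s) ⟨hz, hs'⟩
  · exact (integrableOn_const hfin (C := C))
  · refine Filter.Eventually.of_forall fun z s hs' => hd z s ⟨?_, ?_⟩
    · linarith [ht.1, hs'.1]
    · linarith [ht.2, hs'.2]

end ES

end

section

/-!
ES-XAmp: choice of the three amplitudes (EW 4).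
`rc = w²/16`, `σ ≤ w²/1600`, `S = M0 (rc I - Rav) M0ᵀ`, `γ_0 = S00/8 + S01/4`, `γ_1 = S00/8 - S01/4`,
`γ_2 = S11 - S00/4`, `b_j² = (H/ω) γ_j`, `H/ω ∈ [6,9]`.
`S/rc - I` has entries `≤ 0.031`, hence `γ_j = γ_j(rc I) (1 + y_j)` with `N0(y_j) ≤ 1/2`
(`γ(rc I) = rc/8, rc/8, 3rc/4`), `N0(b_j) ≤ √(9·(3/4)·rc)·(3/2) ≤ w`.
-/

open scoped BoundedContinuousFunction

namespace ES

/-- The three directions. -/
def kdir (j : Fin 3) : Fin 2 → ℤ := fun a =>
  if j = 0 then (if a = 0 then 1 else -2) else if j = 1 then (if a = 0 then 1 else 2)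
  else (if a = 0 then 1 else 0)

/-- Level `i`, real, time independent. -/
private structure XAmp_ok (i : ℕ) (f : WT) : Prop where
  l : Lev i f
  r : IsR f
  t : ∀ t₀, frz t₀ f = f

private theorem XAmp_ok.add {i : ℕ} {f g : WT} (hf : XAmp_ok i f) (hg : XAmp_ok i g) :
    XAmp_ok i (f + g) :=
  ⟨hf.l.add hg.l, hf.r.add hg.r, fun t₀ => by
    have h1 := hf.t t₀
    have h2 := hg.t t₀
    unfold frz at *
    rw [tcomp_add, h1, h2]⟩

private theorem XAmp_ok.sub {i : ℕ} {f g : WT} (hf : XAmp_ok i f) (hg : XAmp_ok i g) :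
    XAmp_ok i (f - g) :=
  ⟨hf.l.sub hg.l, hf.r.sub hg.r, fun t₀ => by
    have h1 := hf.t t₀
    have h2 := hg.t t₀
    unfold frz at *
    rw [tcomp_sub, h1, h2]⟩

private theorem XAmp_ok.neg {i : ℕ} {f : WT} (hf : XAmp_ok i f) : XAmp_ok i (-f) :=
  ⟨hf.l.neg, hf.r.neg, fun t₀ => by
    have h1 := hf.t t₀
    unfold frz at *
    rw [tcomp_neg, h1]⟩

private theorem XAmp_ok.mul {i : ℕ} {f g : WT} (hf : XAmp_ok i f) (hg : XAmp_ok i g) :
    XAmp_ok i (f * g) :=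
  ⟨hf.l.mul hg.l, hf.r.mul hg.r, fun t₀ => by
    have h1 := hf.t t₀
    have h2 := hg.t t₀
    unfold frz at *
    rw [tcomp_mul, h1, h2]⟩

private theorem XAmp_ok.smul {i : ℕ} (c : ℝ) {f : WT} (hf : XAmp_ok i f) :
    XAmp_ok i ((c : ℂ) • f) :=
  ⟨hf.l.smul _, hf.r.smul, fun t₀ => by
    have h1 := hf.t t₀
    unfold frz at *
    rw [tcomp_smul, h1]⟩

private theorem XAmp_ok.D {i : ℕ} (κ : Kp) (a : Fin 2) {f : WT} (hf : XAmp_ok i f) :
    XAmp_ok i (ES.D κ a f) :=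
  ⟨hf.l.D κ a, hf.r.D, fun t₀ => by
    have h1 := hf.t t₀
    unfold frz at *
    rw [tcomp_D, h1]⟩

private theorem XAmp_ok.one (i : ℕ) : XAmp_ok i 1 := ⟨Lev.one i, IsR.one, fun _ => tcomp_one _⟩

private theorem XAmp_ok.zero (i : ℕ) : XAmp_ok i 0 := ⟨Lev.zero i, IsR.zero, fun _ => tcomp_zero _⟩

private theorem XAmp_ok.idm (i : ℕ) (a b : Fin 2) : XAmp_ok i (ES.idm a b) := by
  unfold ES.idm
  split_ifs
  · exact XAmp_ok.one i
  · exact XAmp_ok.zero i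

private theorem XAmp_ok.Fm {i : ℕ} (κ : Kp) {ξ : Vec} (h : ∀ k, XAmp_ok i (ξ k)) (a b : Fin 2) :
    XAmp_ok i (ES.Fm κ ξ a b) := (XAmp_ok.idm i a b).add ((h a).D κ b)

private theorem XAmp_ok.adj {i : ℕ} {F : Mat} (h : ∀ a b, XAmp_ok i (F a b)) (a b : Fin 2) :
    XAmp_ok i (ES.adj F a b) := by
  unfold ES.adj
  split_ifs
  · exact h 1 1
  · exact (h 0 1).neg
  · exact (h 1 0).neg
  · exact h 0 0

private theorem XAmp_adj_bd {r : ℝ → ℝ} {F : Mat} {c : ℝ} (h : ∀ k l, Bd 0 r (F k l - idm k l) c)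
    (k l : Fin 2) : Bd 0 r (adj F k l - idm k l) c := by
  fin_cases k <;> fin_cases l
  · exact h 1 1
  · have := (h 0 1).neg
    have e : -(F 0 1 - idm 0 1) = adj F 0 1 - idm 0 1 := by
      simp [adj, idm]
    rwa [e] at this
  · have := (h 1 0).neg
    have e : -(F 1 0 - idm 1 0) = adj F 1 0 - idm 1 0 := by
      simp [adj, idm]
    rwa [e] at this
  · exact h 0 0

/-- The normalized matrix `S`. -/
private noncomputable def XAmp_S (M Rh : Mat) : Mat := fun k l =>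
  ∑ a, ∑ b, M k a * ((idm a b - Rh a b) * M l b)

private theorem XAmp_S_bd {ρ : ℝ} (hρ : 0 ≤ ρ) {M Rh : Mat}
    (hM : ∀ k l, Bd 0 (cr ρ) (M k l - idm k l) (1 / 100))
    (hR : ∀ k l, Bd 0 (cr ρ) (Rh k l) (1 / 100)) (k l : Fin 2) :
    Bd 0 (cr ρ) (XAmp_S M Rh k l - idm k l) (31 / 1000) := by
  have hr : ∀ t, 0 ≤ cr ρ t := fun _ => hρ
  have mm : ∀ {f g : WT}, Bd 0 (cr ρ) f (1 / 100) → Bd 0 (cr ρ) g (1 / 100) →
      Bd 0 (cr ρ) (f * g) (1 / 10000) := fun hf hg => (Bd.mul hr hf hg).mono (by norm_num)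
  have mm3 : ∀ {f g h : WT}, Bd 0 (cr ρ) f (1 / 100) → Bd 0 (cr ρ) g (1 / 100) →
      Bd 0 (cr ρ) h (1 / 100) → Bd 0 (cr ρ) (f * g * h) (1 / 1000000) :=
    fun hf hg hh => (Bd.mul hr (mm hf hg) hh).mono (by norm_num)
  set m : Mat := fun k l => M k l - idm k l with hm
  have e : XAmp_S M Rh k l - idm k l = (m k l + m l k + (m k 0 * m l 0 + m k 1 * m l 1)) -
      (Rh k l + ((m k 0 * Rh 0 l + m k 1 * Rh 1 l) + (Rh k 0 * m l 0 + Rh k 1 * m l 1)) +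
        ((m k 0 * Rh 0 0 * m l 0 + m k 0 * Rh 0 1 * m l 1) +
          (m k 1 * Rh 1 0 * m l 0 + m k 1 * Rh 1 1 * m l 1))) := by
    unfold XAmp_S
    have e1 : ∀ k l, M k l = idm k l + m k l := fun k l => by rw [hm]; ring
    simp only [Fin.sum_univ_two, e1]
    fin_cases k <;> fin_cases l <;> simp [idm] <;> ring
  rw [e]
  have b1 := ((hM k l).add (hM l k)).add ((mm (hM k 0) (hM l 0)).add (mm (hM k 1) (hM l 1)))
  have b2 := (mm (hM k 0) (hR 0 l)).add (mm (hM k 1) (hR 1 l))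
  have b3 := (mm (hR k 0) (hM l 0)).add (mm (hR k 1) (hM l 1))
  have b4 := ((mm3 (hM k 0) (hR 0 0) (hM l 0)).add (mm3 (hM k 0) (hR 0 1) (hM l 1))).add
    ((mm3 (hM k 1) (hR 1 0) (hM l 0)).add (mm3 (hM k 1) (hR 1 1) (hM l 1)))
  exact (b1.sub (((hR k l).add (b2.add b3)).add b4)).mono (by norm_num)

private theorem XAmp_sqrt_bd {x w : ℝ} (hw : 0 < w) (hx : 9 * x ≤ 4 * w ^ 2) :
    Real.sqrt x * (3 / 2) ≤ w := by
  have h1 : Real.sqrt x ≤ 2 / 3 * w := by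
    rw [Real.sqrt_le_left (by positivity)]
    nlinarith
  linarith

/-- The square root with its bound. -/
private theorem XAmp_root {ρ w : ℝ} (hρ : 0 < ρ) (hw : 0 < w) {i : ℕ} {y : WT}
    (hy : Bd 0 (cr ρ) y (1 / 2)) (oy : XAmp_ok i y) {x : ℝ} (hx0 : 0 ≤ x)
    (hx : 9 * x ≤ 4 * w ^ 2) :
    ∃ b : WT, b * b = (x : ℂ) • (1 + y) ∧ Bd 0 (cr ρ) b w ∧ XAmp_ok i b := by
  obtain ⟨s, hs, hsb, hsr, hsl, hst⟩ := exists_sqrt hρ hy oy.r oy.l oy.t
  refine ⟨((Real.sqrt x : ℝ) : ℂ) • s, ?_, ?_, XAmp_ok.smul _ ⟨hsl, hsr, hst⟩⟩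
  · rw [smul_mul_smul_comm, hs, ← Complex.ofReal_mul, Real.mul_self_sqrt hx0]
  · refine (Bd.smul _ hsb).mono ?_
    rw [Complex.norm_real, Real.norm_eq_abs, abs_of_nonneg (Real.sqrt_nonneg _)]
    exact XAmp_sqrt_bd hw hx

theorem exists_amp {κ : Kp} {ρ w σ ω Hb : ℝ} (hρ : 0 < ρ) (hw : 0 < w) (hσ0 : 0 ≤ σ)
    (hσ : 1600 * σ ≤ w ^ 2) (hω : 0 < ω) (h6 : 6 * ω ≤ Hb) (h9 : Hb ≤ 9 * ω) {i : ℕ}
    {ξ0 : Vec} (hF0 : ∀ k l, Bd 0 (cr ρ) (Fm κ ξ0 k l - idm k l) (1 / 100))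
    (hdet : det2 (Fm κ ξ0) = 1) (lF : ∀ k, Lev i (ξ0 k)) (rF : ∀ k, IsR (ξ0 k))
    (tF : ∀ k t₀, frz t₀ (ξ0 k) = ξ0 k)
    {Ri : Mat} (hR : ∀ k l, Bd 0 (cr ρ) (Ri k l) (Hb * σ)) (sR : ∀ k l, Ri k l = Ri l k)
    (lR : ∀ k l, Lev i (Ri k l)) (rR : ∀ k l, IsR (Ri k l)) (tR : ∀ k l t₀, frz t₀ (Ri k l) = Ri k l) :
    ∃ b : Fin 3 → WT, (∀ j, Bd 0 (cr ρ) (b j) w) ∧ (∀ j, Lev i (b j)) ∧ (∀ j, IsR (b j)) ∧
      (∀ j t₀, frz t₀ (b j) = b j) ∧
      ∀ k l, ∑ j, ((ω : ℂ) * kp (kdir j) l) • (b j * b j * ∑ e, kp (kdir j) e • Fm κ ξ0 k e) =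
        ((Hb * (w ^ 2 / 16) : ℝ) : ℂ) • adj (Fm κ ξ0) l k - mulT Ri (adj (Fm κ ξ0)) k l := by
  have hHb : 0 < Hb := by linarith
  have okF : ∀ k l, XAmp_ok i (Fm κ ξ0 k l) := XAmp_ok.Fm κ fun k => ⟨lF k, rF k, tF k⟩
  have okM : ∀ k l, XAmp_ok i (adj (Fm κ ξ0) k l) := XAmp_ok.adj okF
  have bdM := XAmp_adj_bd hF0
  generalize hFF : Fm κ ξ0 = F at *
  set rc : ℝ := Hb * (w ^ 2 / 16) with hrc
  have hrc0 : 0 < rc := by positivity
  set Rh : Mat := fun k l => ((rc⁻¹ : ℝ) : ℂ) • Ri k l with hRh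
  have okR : ∀ k l, XAmp_ok i (Rh k l) := fun k l => XAmp_ok.smul _ ⟨lR k l, rR k l, tR k l⟩
  have bdR : ∀ k l, Bd 0 (cr ρ) (Rh k l) (1 / 100) := by
    intro k l
    refine (Bd.smul _ (hR k l)).mono ?_
    rw [Complex.norm_real, Real.norm_eq_abs, abs_of_pos (inv_pos.2 hrc0), inv_mul_le_iff₀ hrc0,
      hrc]
    nlinarith
  have hRi : ∀ k l, Ri k l = (rc : ℂ) • Rh k l := by
    intro k l
    rw [hRh]
    simp only
    rw [smul_smul, ← Complex.ofReal_mul, mul_inv_cancel₀ hrc0.ne', Complex.ofReal_one, one_smul]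
  have sRh : Rh 1 0 = Rh 0 1 := by
    rw [hRh]
    simp only
    rw [sR 1 0]
  have bdS := XAmp_S_bd hρ.le bdM bdR
  have okS : ∀ k l, XAmp_ok i (XAmp_S (adj F) Rh k l) := by
    intro k l
    unfold XAmp_S
    simp only [Fin.sum_univ_two]
    have h1 : ∀ a b, XAmp_ok i (adj F k a * ((idm a b - Rh a b) * adj F l b)) := fun a b =>
      (okM k a).mul (((XAmp_ok.idm i a b).sub (okR a b)).mul (okM l b))
    exact ((h1 0 0).add (h1 0 1)).add ((h1 1 0).add (h1 1 1))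
  have hi00 : idm 0 0 = 1 := by simp [idm]
  have hi11 : idm 1 1 = 1 := by simp [idm]
  have hi01 : idm 0 1 = 0 := by simp [idm]
  -- the three square roots
  have r0 := XAmp_root (x := rc / (8 * ω)) (y := (XAmp_S (adj F) Rh 0 0 - idm 0 0) +
      ((2 : ℝ) : ℂ) • (XAmp_S (adj F) Rh 0 1 - idm 0 1)) hρ hw
    (((bdS 0 0).add (Bd.smul _ (bdS 0 1))).mono (by
      rw [Complex.norm_real]; norm_num))
    (((okS 0 0).sub (XAmp_ok.idm i 0 0)).add (XAmp_ok.smul _ ((okS 0 1).sub (XAmp_ok.idm i 0 1))))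
    (by positivity) (by
      rw [mul_div_assoc', div_le_iff₀ (by positivity), hrc]
      have : 0 < w ^ 2 := by positivity
      nlinarith)
  have r1 := XAmp_root (x := rc / (8 * ω)) (y := (XAmp_S (adj F) Rh 0 0 - idm 0 0) -
      ((2 : ℝ) : ℂ) • (XAmp_S (adj F) Rh 0 1 - idm 0 1)) hρ hw
    (((bdS 0 0).sub (Bd.smul _ (bdS 0 1))).mono (by
      rw [Complex.norm_real]; norm_num))
    (((okS 0 0).sub (XAmp_ok.idm i 0 0)).sub (XAmp_ok.smul _ ((okS 0 1).sub (XAmp_ok.idm i 0 1))))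
    (by positivity) (by
      rw [mul_div_assoc', div_le_iff₀ (by positivity), hrc]
      have : 0 < w ^ 2 := by positivity
      nlinarith)
  have r2 := XAmp_root (x := 3 * rc / (4 * ω)) (y :=
      ((4 / 3 : ℝ) : ℂ) • (XAmp_S (adj F) Rh 1 1 - idm 1 1) -
      ((1 / 3 : ℝ) : ℂ) • (XAmp_S (adj F) Rh 0 0 - idm 0 0)) hρ hw
    (((Bd.smul _ (bdS 1 1)).sub (Bd.smul _ (bdS 0 0))).mono (by
      rw [Complex.norm_real, Complex.norm_real]; norm_num))
    ((XAmp_ok.smul _ ((okS 1 1).sub (XAmp_ok.idm i 1 1))).sub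
      (XAmp_ok.smul _ ((okS 0 0).sub (XAmp_ok.idm i 0 0))))
    (by positivity) (by
      rw [mul_div_assoc', div_le_iff₀ (by positivity), hrc]
      have : 0 < w ^ 2 := by positivity
      nlinarith)
  obtain ⟨b0, hb0, bb0, ob0⟩ := r0
  obtain ⟨b1, hb1, bb1, ob1⟩ := r1
  obtain ⟨b2, hb2, bb2, ob2⟩ := r2
  have ok : ∀ j : Fin 3, Bd 0 (cr ρ) ((![b0, b1, b2] : Fin 3 → WT) j) w ∧
      XAmp_ok i ((![b0, b1, b2] : Fin 3 → WT) j) := by
    intro j
    fin_cases j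
    · exact ⟨bb0, ob0⟩
    · exact ⟨bb1, ob1⟩
    · exact ⟨bb2, ob2⟩
  refine ⟨![b0, b1, b2], fun j => (ok j).1, fun j => (ok j).2.l, fun j => (ok j).2.r,
    fun j => (ok j).2.t, ?_⟩
  intro k l
  have hωc : (ω : ℂ) ≠ 0 := by exact_mod_cast hω.ne'
  -- constants
  have hG0 : (ω : ℂ) • (b0 * b0) = ((rc / 8 : ℝ) : ℂ) • (XAmp_S (adj F) Rh 0 0 +
      (2 : ℂ) • XAmp_S (adj F) Rh 0 1) := by
    rw [hb0, smul_smul, hi00, hi01]
    congr 1
    · push_cast; field_simp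
    · push_cast; rw [sub_zero]; ring
  have hG1 : (ω : ℂ) • (b1 * b1) = ((rc / 8 : ℝ) : ℂ) • (XAmp_S (adj F) Rh 0 0 -
      (2 : ℂ) • XAmp_S (adj F) Rh 0 1) := by
    rw [hb1, smul_smul, hi00, hi01]
    congr 1
    · push_cast; field_simp
    · push_cast; rw [sub_zero]; ring
  have hG2 : (ω : ℂ) • (b2 * b2) = ((rc / 8 : ℝ) : ℂ) • ((8 : ℂ) • XAmp_S (adj F) Rh 1 1 -
      (2 : ℂ) • XAmp_S (adj F) Rh 0 0) := by
    rw [hb2, smul_smul, hi00, hi11]
    have e1 : (ω : ℂ) * ((3 * rc / (4 * ω) : ℝ) : ℂ) = ((rc / 8 : ℝ) : ℂ) * 6 := by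
      push_cast; field_simp; ring
    rw [e1, mul_smul]
    congr 1
    have e2 : (1 : WT) + (((4 / 3 : ℝ) : ℂ) • (XAmp_S (adj F) Rh 1 1 - 1) -
        ((1 / 3 : ℝ) : ℂ) • (XAmp_S (adj F) Rh 0 0 - 1)) =
        ((4 / 3 : ℝ) : ℂ) • XAmp_S (adj F) Rh 1 1 - ((1 / 3 : ℝ) : ℂ) • XAmp_S (adj F) Rh 0 0 := by
      have e3 : (1 : WT) = ((4 / 3 : ℝ) : ℂ) • (1 : WT) - ((1 / 3 : ℝ) : ℂ) • (1 : WT) := by
        rw [← sub_smul]
        push_cast
        norm_num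
      rw [smul_sub, smul_sub]
      linear_combination e3
    rw [e2, smul_sub, smul_smul, smul_smul]
    congr 2 <;> push_cast <;> norm_num
  have key : ∀ (kk : ℂ) (B X : WT), ((ω : ℂ) * kk) • (B * X) = kk • (((ω : ℂ) • B) * X) := by
    intro kk B X
    rw [smul_mul_assoc, smul_smul, mul_comm]
  have hdet' : F 0 0 * F 1 1 - F 0 1 * F 1 0 = 1 := hdet
  have hM00 : adj F 0 0 = F 1 1 := by simp [adj]
  have hM01 : adj F 0 1 = -F 0 1 := by simp [adj]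
  have hM10 : adj F 1 0 = -F 1 0 := by simp [adj]
  have hM11 : adj F 1 1 = F 0 0 := by simp [adj]
  have hi10 : idm 1 0 = 0 := by simp [idm]
  rw [Fin.sum_univ_three]
  simp only [key, Matrix.cons_val_zero, Matrix.cons_val_one, Matrix.cons_val_two,
    Matrix.head_cons, Matrix.tail_cons, hG0, hG1, hG2, Fin.sum_univ_two]
  unfold mulT
  simp only [Fin.sum_univ_two, hRi]
  have hrc8 : (rc : ℂ) = ((rc / 8 : ℝ) : ℂ) * 8 := by push_cast; ring
  rw [hrc8]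
  generalize ((rc / 8 : ℝ) : ℂ) = G
  have h2 : (algebraMap ℂ WT) 2 = 2 := map_ofNat _ 2
  unfold XAmp_S
  simp only [Fin.sum_univ_two, Algebra.smul_def, map_mul, map_ofNat]
  fin_cases k <;> fin_cases l <;>
    simp [kp, kdir, hM00, hM01, hM10, hM11, hi00, hi01, hi10, hi11, sRh, h2]
  · linear_combination 8 * (algebraMap ℂ WT) G * (F 1 1 - Rh 0 0 * F 1 1 + Rh 0 1 * F 0 1) * hdet'
  · linear_combination 8 * (algebraMap ℂ WT) G *
      (-F 1 0 + Rh 0 0 * F 1 0 - Rh 0 1 * F 0 0) * hdet'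
  · linear_combination 8 * (algebraMap ℂ WT) G *
      (-F 0 1 - Rh 0 1 * F 1 1 + Rh 1 1 * F 0 1) * hdet'
  · linear_combination 8 * (algebraMap ℂ WT) G * (F 0 0 + Rh 0 1 * F 1 0 - Rh 1 1 * F 0 0) * hdet'

end ES

end

section

/-!
ES-XStep: one sub-block step inside a block `[t0,t1]` with data `d` (EW 4): `mk_SBH`, `sb_exists0`,
`sb_post`, `det_P`, `psi_exists`, `avg_id`; `Ψb = Ψa + frz tb (intg ta tb φ)`,
`πb = frz tb (intg ta tb π)`.  Bounds of `F'`: `Bd.sub_frz`, `td_FF`, `new_DV'`, `frz_FF_left/right`.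
-/

open scoped BoundedContinuousFunction

namespace ES

theorem XStep_frz_dp (t₀ : ℝ) (κ : Kp) (a : Fin 2) (f : WT) :
    ES.frz t₀ (dp κ a f) = dp κ a (ES.frz t₀ f) := by
  unfold dp
  split_ifs
  · rw [LinearMap.neg_apply, LinearMap.neg_apply]
    unfold ES.frz
    rw [tcomp_neg, tcomp_D]
  · unfold ES.frz
    rw [tcomp_D]

theorem XStep_frz_add (t₀ : ℝ) (f g : WT) :
    ES.frz t₀ (f + g) = ES.frz t₀ f + ES.frz t₀ g := tcomp_add _ f g

theorem XStep_frz_sub (t₀ : ℝ) (f g : WT) :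
    ES.frz t₀ (f - g) = ES.frz t₀ f - ES.frz t₀ g := tcomp_sub _ f g

theorem XStep_frz_Pnz (t₀ : ℝ) (κ : Kp) (f : WT) :
    ES.frz t₀ (Pnz κ f) = Pnz κ (ES.frz t₀ f) := tcomp_mlt _ _ f

theorem XStep_intg_Pnz (a b : ℝ) (κ : Kp) (f : WT) :
    intg a b (Pnz κ f) = Pnz κ (intg a b f) := intg_mlt a b _ f

private theorem XStep_frz_idm (t₀ : ℝ) (a b : Fin 2) : ES.frz t₀ (idm a b) = idm a b := by
  unfold idm ES.frz
  split_ifs
  · exact tcomp_one _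
  · exact tcomp_zero _

private theorem XStep_frz_Fm (t₀ : ℝ) (κ : Kp) (ξ : Vec) (a b : Fin 2) :
    ES.frz t₀ (Fm κ ξ a b) = Fm κ (fun j => ES.frz t₀ (ξ j)) a b := by
  have h : ∀ x : Vec, Fm κ x a b = idm a b + D κ b (x a) := fun _ => rfl
  rw [h, h, XStep_frz_add, XStep_frz_idm]
  unfold ES.frz
  rw [tcomp_D]

theorem XStep_frz_det (t₀ : ℝ) (κ : Kp) (ξ : Vec) :
    det2 (Fm κ (fun j => ES.frz t₀ (ξ j))) = ES.frz t₀ (det2 (Fm κ ξ)) := by
  unfold det2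
  rw [XStep_frz_sub]
  have hm : ∀ f g : WT, ES.frz t₀ (f * g) = ES.frz t₀ f * ES.frz t₀ g := fun f g =>
    tcomp_mul _ f g
  rw [hm, hm, XStep_frz_Fm, XStep_frz_Fm, XStep_frz_Fm, XStep_frz_Fm]

end ES

end
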