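import Pool.Agent.H16.TSS.ES.LBd_4
import Pool.Agent.H16.TSS.ES.LTime
import Pool.Agent.H16.TSS.M05
import Pool.Agent.H16.TSS.M09

/-! The parts of this file: ES.LAbs, ES.RInitD, ES.RWfD, ES.V01, ES.V02, ES.XPsi. -/

section

/-!
ES-LAbs: absorption and closure of the bounds.
The set of `c` with `Bd k r f c` is `[N, ∞)` (if nonempty): the minimal majorant is
`m ν = sup_t (1+|ν|)^k e^{r(t)|ν|} ‖f_ν(t)‖`.
-/

open scoped BoundedContinuousFunction

namespace ES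

/-- Closure. -/
theorem Bd.closed {k : ℕ} {r : ℝ → ℝ} {f : WT} {c : ℝ} (h : ∀ e > 0, Bd k r f (c + e)) :
    Bd k r f c := by
  obtain ⟨M1, hM10, hM1, _, hM1b⟩ := h 1 one_pos
  have hbdd : ∀ ν, BddAbove (Set.range fun t : ℝ =>
      (1 + (len ν : ℝ)) ^ k * Real.exp (r t * len ν) * ‖f.co ν t‖) := by
    intro ν
    refine ⟨M1 ν, ?_⟩
    rintro _ ⟨t, rfl⟩
    exact hM1b ν t
  have h0 : ∀ ν, 0 ≤ ⨆ t : ℝ, (1 + (len ν : ℝ)) ^ k * Real.exp (r t * len ν) * ‖f.co ν t‖ := by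
    intro ν
    exact Real.iSup_nonneg fun t => by positivity
  have hle : ∀ M : Gx → ℝ, (∀ ν t, (1 + (len ν : ℝ)) ^ k * Real.exp (r t * len ν) * ‖f.co ν t‖
      ≤ M ν) → ∀ ν, (⨆ t : ℝ, (1 + (len ν : ℝ)) ^ k * Real.exp (r t * len ν) * ‖f.co ν t‖)
      ≤ M ν := fun M hM ν => ciSup_le fun t => hM ν t
  have hs : Summable fun ν => ⨆ t : ℝ,
      (1 + (len ν : ℝ)) ^ k * Real.exp (r t * len ν) * ‖f.co ν t‖ :=
    Summable.of_nonneg_of_le h0 (hle M1 hM1b) hM1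
  refine ⟨fun ν => ⨆ t : ℝ, (1 + (len ν : ℝ)) ^ k * Real.exp (r t * len ν) * ‖f.co ν t‖,
    h0, hs, ?_, fun ν t => le_ciSup (hbdd ν) t⟩
  refine le_of_forall_pos_le_add fun e he => ?_
  obtain ⟨M, _, hM, hMc, hMb⟩ := h e he
  exact (hs.tsum_le_tsum (hle M hMb) hM).trans hMc

/-- Absorption for a family. -/
theorem Bd.absorbV {ι : Type*} {k : ℕ} {r : ℝ → ℝ} {f : ι → WT} {c0 a : ℝ}
    (h0 : ∀ j, Bd k r (f j) c0)
    (h : ∀ c, 0 ≤ c → (∀ j, Bd k r (f j) c) → ∀ j, Bd k r (f j) (a + c / 2)) (j : ι) :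
    Bd k r (f j) (2 * a) := by
  have hn : ∀ n : ℕ, ∀ i, Bd k r (f i) (2 * a + (c0 - 2 * a) * (1 / 2) ^ n) := by
    intro n
    induction n with
    | zero =>
      intro i
      simpa using h0 i
    | succ n ih =>
      intro i
      have h1 := h _ (ih i).nonneg ih i
      refine h1.mono (le_of_eq ?_)
      rw [pow_succ]
      ring
  refine Bd.closed fun e he => ?_
  have ht : Filter.Tendsto (fun n : ℕ => (c0 - 2 * a) * (1 / 2 : ℝ) ^ n) Filter.atTop
      (nhds ((c0 - 2 * a) * 0)) :=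
    (tendsto_pow_atTop_nhds_zero_of_lt_one (by norm_num) (by norm_num)).const_mul _
  rw [mul_zero] at ht
  obtain ⟨n, hn'⟩ := (ht.eventually (gt_mem_nhds he)).exists
  exact (hn n j).mono (by linarith)

/-- Bounds with a small radius from a bound at a constant positive radius; every element with a
bound at a positive radius has all powers at smaller radii. -/
theorem Bd.of_cr {k : ℕ} {ρ : ℝ} {r : ℝ → ℝ} {f : WT} {c : ℝ} (h : Bd k (cr ρ) f c)
    (hr : ∀ t, r t ≤ ρ) : Bd k r f c := h.weaken le_rfl hr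

/-- Constant radius bounds from a radius bounded below. -/
theorem Bd.to_cr {k : ℕ} {ρ : ℝ} {r : ℝ → ℝ} {f : WT} {c : ℝ} (h : Bd k r f c)
    (hr : ∀ t, ρ ≤ r t) : Bd k (cr ρ) f c := h.weaken le_rfl hr

/-- Difference of an element and its value at a time, from a bound of the derivative. -/
theorem Bd.sub_frz {k : ℕ} {ρ : ℝ} {f f' : WT} {c t0 t1 : ℝ} (ht : t0 < t1) (hTD : TD t0 t1 f f')
    (hCl : Cl t0 t1 f) (h : Bd k (cr ρ) f' c) (s : ℝ) :
    Bd k (cr ρ) (f - ES.frz s f) ((t1 - t0) * c) := by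
  obtain ⟨M, hM0, hM, hMc, hMb⟩ := h
  have hd : 0 < t1 - t0 := by linarith
  refine ⟨fun ν => (t1 - t0) * M ν, fun ν => mul_nonneg hd.le (hM0 ν), hM.mul_left _, ?_,
    fun ν t => ?_⟩
  · rw [tsum_mul_left]
    exact mul_le_mul_of_nonneg_left hMc hd.le
  · rw [Cl_iff] at hCl
    obtain ⟨W, hW⟩ : ∃ W, W = (1 + (len ν : ℝ)) ^ k * Real.exp (cr ρ t * len ν) := ⟨_, rfl⟩
    have hWpos : 0 < W := by rw [hW]; positivity
    have hf' : ∀ y, ‖f'.co ν y‖ ≤ M ν / W := by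
      intro y
      rw [le_div_iff₀ hWpos, mul_comm, hW]
      exact hMb ν y
    have hC0 : 0 ≤ M ν / W := (norm_nonneg _).trans (hf' 0)
    -- increments on the closed interval
    have key : ∀ x y, t0 ≤ x → x ≤ y → y ≤ t1 →
        ‖f.co ν y - f.co ν x‖ ≤ (M ν / W) * (t1 - t0) := by
      intro x y hx hxy hy
      have h1 : ∫ z in x..y, f'.co ν z = f.co ν y - f.co ν x := by
        refine intervalIntegral.integral_eq_sub_of_hasDerivAt_of_le hxy
          (f.co ν).continuous.continuousOn (fun z hz => ?_)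
          ((f'.co ν).continuous.intervalIntegrable _ _)
        exact hTD ν z ⟨lt_of_le_of_lt hx hz.1, lt_of_lt_of_le hz.2 hy⟩
      rw [← h1]
      refine (intervalIntegral.norm_integral_le_of_norm_le_const fun z _ => hf' z).trans ?_
      rw [abs_of_nonneg (by linarith)]
      exact mul_le_mul_of_nonneg_left (by linarith) hC0
    have hcl := fun u : ℝ => clp_mem ht.le u
    have hfin : ‖f.co ν t - f.co ν s‖ ≤ (M ν / W) * (t1 - t0) := by
      rw [← hCl ν t, ← hCl ν s]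
      rcases le_total (clp t0 t1 s) (clp t0 t1 t) with hst | hst
      · exact key _ _ (hcl s).1 hst (hcl t).2
      · rw [norm_sub_rev]
        exact key _ _ (hcl t).1 hst (hcl s).2
    have e1 : (f - ES.frz s f).co ν t = f.co ν t - f.co ν s := by
      rw [WT.co_sub]
      rfl
    rw [e1, ← hW]
    calc W * ‖f.co ν t - f.co ν s‖ ≤ W * ((M ν / W) * (t1 - t0)) :=
          mul_le_mul_of_nonneg_left hfin hWpos.le
      _ = (t1 - t0) * M ν := by field_simp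

end ES

end

section

/-!
Project ES, Part III: the initial field.
-/

namespace ES

/-- The initial field. -/
noncomputable def Vin (T0 : ℝ) : Fld := fun x t a =>
  if a = 0 then (1 + clp 0 T0 t / T0) * Real.sin (x 1) else 0

end ES

end

section

/-!
Project ES, Part III: uncurried fields.
-/

namespace ES

/-- Uncurried field. -/
def uc (V : Fld) : (Fin 2 → ℝ) × ℝ → (Fin 2 → ℝ) := fun x => V x.1 x.2

end ES

end

section

/-!
ES-V01 (Part II, helper27): closure facts for the derived quantities of good data.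
Everything follows from the closure lemmas `IsR.*` (LReal), `Cl.*` (LTime), unfolding
`Dat.F, Dat.M, Dat.B, Dat.G, Dat.acc, Dat.rhs` and the operations of `Sys`
(`fin_cases` on indices, `Finset` sums over `Fin 2`).
-/

namespace ES

theorem isR_idm (a b : Fin 2) : IsR (idm a b) := by
  unfold idm
  split_ifs
  · exact IsR.one
  · exact IsR.zero

theorem isR_Fm {κ : Kp} {ξ : Vec} (h : ∀ a, IsR (ξ a)) (a b : Fin 2) : IsR (Fm κ ξ a b) := by
  unfold Fm grad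
  exact (isR_idm a b).add (h a).D

theorem isR_adj {F : Mat} (h : ∀ a b, IsR (F a b)) (a b : Fin 2) : IsR (adj F a b) := by
  unfold adj
  split_ifs
  · exact h 1 1
  · exact (h 0 1).neg
  · exact (h 1 0).neg
  · exact h 0 0

theorem isR_mulv {F : Mat} {x : Vec} (h : ∀ a b, IsR (F a b)) (hx : ∀ a, IsR (x a)) (a : Fin 2) :
    IsR (mulv F x a) := by
  unfold mulv
  exact IsR.sum _ fun b _ => (h a b).mul (hx b)

theorem cl_idm (s t : ℝ) (a b : Fin 2) : Cl s t (idm a b) := by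
  unfold idm
  split_ifs
  · exact Cl.one s t
  · exact Cl.zero s t

theorem cl_Fm {s t : ℝ} {κ : Kp} {ξ : Vec} (h : ∀ a, Cl s t (ξ a)) (a b : Fin 2) :
    Cl s t (Fm κ ξ a b) := by
  unfold Fm grad
  exact (cl_idm s t a b).add ((h a).D κ b)

theorem cl_adj {s t : ℝ} {F : Mat} (h : ∀ a b, Cl s t (F a b)) (a b : Fin 2) :
    Cl s t (adj F a b) := by
  unfold adj
  split_ifs
  · exact h 1 1
  · exact (h 0 1).neg
  · exact (h 1 0).neg
  · exact h 0 0

theorem cl_mulv {s t : ℝ} {F : Mat} {x : Vec} (h : ∀ a b, Cl s t (F a b))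
    (hx : ∀ a, Cl s t (x a)) (a : Fin 2) : Cl s t (mulv F x a) := by
  unfold mulv
  exact Cl.sum _ fun b _ => (h a b).mul (hx b)

theorem cl_dvg {s t : ℝ} {κ : Kp} {x : Vec} (hx : ∀ a, Cl s t (x a)) : Cl s t (dvg κ x) := by
  unfold dvg
  exact Cl.sum _ fun b _ => (hx b).D κ b

namespace Good

variable {d : Dat} {t0 t1 lam g σ ρ c A : ℝ}

theorem isR_F (h : Good d t0 t1 lam g σ ρ c A) (a b : Fin 2) : IsR (d.F a b) := isR_Fm h.rξ a b

theorem isR_M (h : Good d t0 t1 lam g σ ρ c A) (a b : Fin 2) : IsR (d.M a b) :=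
  isR_adj h.isR_F a b

theorem isR_B (h : Good d t0 t1 lam g σ ρ c A) (a : Fin 2) : IsR (d.B a) :=
  isR_mulv h.isR_M (fun c => (h.rv c).sub (h.rU c)) a

theorem cl_F (h : Good d t0 t1 lam g σ ρ c A) (a b : Fin 2) : Cl t0 t1 (d.F a b) :=
  cl_Fm h.cξ a b

theorem cl_M (h : Good d t0 t1 lam g σ ρ c A) (a b : Fin 2) : Cl t0 t1 (d.M a b) :=
  cl_adj h.cl_F a b

end Good

end ES

end

section

/-!
ES-V02 (Part II, helper27): identities of good data in `WT`.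

* `piolaM`: `M = adj (I + Dξ)`, so `∑_j D_j M_{j0} = D_0 F_11 - D_1 F_10 = D_0 D_1 ξ_1 - D_1 D_0 ξ_1 = 0`
  (`D_comm`), similarly for the second column.
* `FM`, `MF`: adjugate identities with `det2 F = 1`.
* `FB`: `B = M (v - U)` and `F M = 1`.
* `dvg_MU`: by `tdξ`, `TD.D`, `TD.mul`: `det2 F` has the time derivative
  `∑_{a,j} M_{ja} D_j U_a` (2x2 computation), which equals `dvg (M U)` by `piolaM` and `D_mul`.
  As `det2 F = 1`, this derivative is zero on `(t0,t1)` (`TD.unique` with `TD.one`), all terms being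
  clamped (`Good.cl_M`, `cU`, `cl_mulv`, `cl_dvg`).
* `dvg_Mv`: `M v = B + M U` and `h.div`.
-/

namespace ES

private theorem v02_F00 (d : Dat) : d.F 0 0 = 1 + D d.κ 0 (d.ξ 0) := by
  simp [Dat.F, Fm, idm, grad]

private theorem v02_F01 (d : Dat) : d.F 0 1 = D d.κ 1 (d.ξ 0) := by
  simp [Dat.F, Fm, idm, grad]

private theorem v02_F10 (d : Dat) : d.F 1 0 = D d.κ 0 (d.ξ 1) := by
  simp [Dat.F, Fm, idm, grad]

private theorem v02_F11 (d : Dat) : d.F 1 1 = 1 + D d.κ 1 (d.ξ 1) := by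
  simp [Dat.F, Fm, idm, grad]

private theorem v02_M00 (d : Dat) : d.M 0 0 = d.F 1 1 := by simp [Dat.M, adj]

private theorem v02_M01 (d : Dat) : d.M 0 1 = -d.F 0 1 := by simp [Dat.M, adj]

private theorem v02_M10 (d : Dat) : d.M 1 0 = -d.F 1 0 := by simp [Dat.M, adj]

private theorem v02_M11 (d : Dat) : d.M 1 1 = d.F 0 0 := by simp [Dat.M, adj]

private theorem v02_p0 (d : Dat) : D d.κ 0 (d.F 1 1) - D d.κ 1 (d.F 1 0) = 0 := by
  rw [v02_F11, v02_F10, map_add, D_one, D_comm d.κ d.κ 0 1, zero_add, sub_self]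

private theorem v02_p1 (d : Dat) : D d.κ 1 (d.F 0 0) - D d.κ 0 (d.F 0 1) = 0 := by
  rw [v02_F00, v02_F01, map_add, D_one, D_comm d.κ d.κ 0 1, zero_add, sub_self]

theorem piolaM (d : Dat) (a : Fin 2) : ∑ j, D d.κ j (d.M j a) = 0 := by
  rw [Fin.sum_univ_two]
  fin_cases a
  · show D d.κ 0 (d.M 0 0) + D d.κ 1 (d.M 1 0) = 0
    rw [v02_M00, v02_M10, map_neg, ← sub_eq_add_neg]
    exact v02_p0 d
  · show D d.κ 0 (d.M 0 1) + D d.κ 1 (d.M 1 1) = 0
    rw [v02_M01, v02_M11, map_neg, neg_add_eq_sub]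
    exact v02_p1 d

namespace Good

variable {d : Dat} {t0 t1 lam g σ ρ c A : ℝ}

theorem FM (h : Good d t0 t1 lam g σ ρ c A) (a b : Fin 2) :
    ∑ j, d.F a j * d.M j b = if a = b then 1 else 0 := by
  have hd := h.det
  unfold det2 at hd
  rw [Fin.sum_univ_two]
  fin_cases a <;> fin_cases b
  · show d.F 0 0 * d.M 0 0 + d.F 0 1 * d.M 1 0 = if (0 : Fin 2) = 0 then 1 else 0
    rw [v02_M00, v02_M10, if_pos rfl, ← hd]
    ring
  · show d.F 0 0 * d.M 0 1 + d.F 0 1 * d.M 1 1 = if (0 : Fin 2) = 1 then 1 else 0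
    rw [v02_M01, v02_M11, if_neg (by decide)]
    ring
  · show d.F 1 0 * d.M 0 0 + d.F 1 1 * d.M 1 0 = if (1 : Fin 2) = 0 then 1 else 0
    rw [v02_M00, v02_M10, if_neg (by decide)]
    ring
  · show d.F 1 0 * d.M 0 1 + d.F 1 1 * d.M 1 1 = if (1 : Fin 2) = 1 then 1 else 0
    rw [v02_M01, v02_M11, if_pos rfl, ← hd]
    ring

theorem MF (h : Good d t0 t1 lam g σ ρ c A) (a b : Fin 2) :
    ∑ j, d.M a j * d.F j b = if a = b then 1 else 0 := by
  have hd := h.det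
  unfold det2 at hd
  rw [Fin.sum_univ_two]
  fin_cases a <;> fin_cases b
  · show d.M 0 0 * d.F 0 0 + d.M 0 1 * d.F 1 0 = if (0 : Fin 2) = 0 then 1 else 0
    rw [v02_M00, v02_M01, if_pos rfl, ← hd]
    ring
  · show d.M 0 0 * d.F 0 1 + d.M 0 1 * d.F 1 1 = if (0 : Fin 2) = 1 then 1 else 0
    rw [v02_M00, v02_M01, if_neg (by decide)]
    ring
  · show d.M 1 0 * d.F 0 0 + d.M 1 1 * d.F 1 0 = if (1 : Fin 2) = 0 then 1 else 0
    rw [v02_M10, v02_M11, if_neg (by decide)]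
    ring
  · show d.M 1 0 * d.F 0 1 + d.M 1 1 * d.F 1 1 = if (1 : Fin 2) = 1 then 1 else 0
    rw [v02_M10, v02_M11, if_pos rfl, ← hd]
    ring

theorem FB (h : Good d t0 t1 lam g σ ρ c A) (a : Fin 2) :
    ∑ j, d.F a j * d.B j = d.v a - d.U a := by
  have hB : ∀ j, d.B j = ∑ b, d.M j b * (d.v b - d.U b) := fun j => rfl
  simp_rw [hB, Finset.mul_sum]
  rw [Finset.sum_comm]
  have h1 : ∀ b, ∑ j, d.F a j * (d.M j b * (d.v b - d.U b)) =
      (if a = b then 1 else 0) * (d.v b - d.U b) := by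
    intro b
    rw [← h.FM a b, Finset.sum_mul]
    exact Finset.sum_congr rfl fun j _ => by ring
  simp_rw [h1]
  rw [Finset.sum_eq_single a]
  · rw [if_pos rfl, one_mul]
  · intro b _ hb
    rw [if_neg (Ne.symm hb), zero_mul]
  · intro h2
    exact absurd (Finset.mem_univ a) h2

theorem dvg_MU (h : Good d t0 t1 lam g σ ρ c A) : dvg d.κ (mulv d.M d.U) = 0 := by
  have e : dvg d.κ (mulv d.M d.U) =
      (D d.κ 0 (d.U 0) * d.F 1 1 + d.F 0 0 * D d.κ 1 (d.U 1)) -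
        (D d.κ 1 (d.U 0) * d.F 1 0 + d.F 0 1 * D d.κ 0 (d.U 1)) := by
    have e1 : dvg d.κ (mulv d.M d.U) = D d.κ 0 (d.M 0 0 * d.U 0 + d.M 0 1 * d.U 1) +
        D d.κ 1 (d.M 1 0 * d.U 0 + d.M 1 1 * d.U 1) := by
      simp only [dvg, mulv, Fin.sum_univ_two]
    rw [e1, v02_M00, v02_M01, v02_M10, v02_M11]
    simp only [map_add, D_mul, map_neg]
    have p0 := v02_p0 d
    have p1 := v02_p1 d
    linear_combination d.U 0 * p0 + d.U 1 * p1
  have hF00 : TD t0 t1 (d.F 0 0) (D d.κ 0 (d.U 0)) := by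
    rw [v02_F00]
    have := (TD.one t0 t1).add ((h.tdξ 0).D d.κ 0)
    rwa [zero_add] at this
  have hF11 : TD t0 t1 (d.F 1 1) (D d.κ 1 (d.U 1)) := by
    rw [v02_F11]
    have := (TD.one t0 t1).add ((h.tdξ 1).D d.κ 1)
    rwa [zero_add] at this
  have hF01 : TD t0 t1 (d.F 0 1) (D d.κ 1 (d.U 0)) := by
    rw [v02_F01]
    exact (h.tdξ 0).D d.κ 1
  have hF10 : TD t0 t1 (d.F 1 0) (D d.κ 0 (d.U 1)) := by
    rw [v02_F10]
    exact (h.tdξ 1).D d.κ 0
  have hdet : TD t0 t1 (det2 d.F) (dvg d.κ (mulv d.M d.U)) := by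
    have h1 := (hF00.mul hF11).sub (hF01.mul hF10)
    rw [e]
    exact h1
  rw [h.det] at hdet
  have hcl : Cl t0 t1 (dvg d.κ (mulv d.M d.U)) :=
    cl_dvg (fun a => cl_mulv (fun a b => h.cl_M a b) h.cU a)
  exact TD.unique h.ht hdet (TD.one t0 t1) hcl (Cl.zero t0 t1)

theorem dvg_Mv (h : Good d t0 t1 lam g σ ρ c A) : dvg d.κ (mulv d.M d.v) = 0 := by
  have e : dvg d.κ (mulv d.M d.v) = dvg d.κ d.B + dvg d.κ (mulv d.M d.U) := by
    simp only [dvg, Dat.B, mulv, Fin.sum_univ_two, Pi.sub_apply]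
    have e1 : d.M 0 0 * (d.v 0 - d.U 0) + d.M 0 1 * (d.v 1 - d.U 1) +
        (d.M 0 0 * d.U 0 + d.M 0 1 * d.U 1) = d.M 0 0 * d.v 0 + d.M 0 1 * d.v 1 := by ring
    have e2 : d.M 1 0 * (d.v 0 - d.U 0) + d.M 1 1 * (d.v 1 - d.U 1) +
        (d.M 1 0 * d.U 0 + d.M 1 1 * d.U 1) = d.M 1 0 * d.v 0 + d.M 1 1 * d.v 1 := by ring
    rw [← e1, ← e2]
    simp only [map_add]
    ring
  rw [e, h.div, h.dvg_MU, add_zero]

end Good

end ES

end

section

/-!
ES-XPsi: potentials on a sub-block (EW 4, Lemma 4.2).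
`φ = strm ⟨a⟩`, `π = pot ⟨q⟩`, `Ψ = Ψa + ∫φ`.
`N0(Sm) ≤ 16 K g N0(Ψ) + 1125 w²`; `pot_bd`: `N0(φ), N0(π) ≤ 8 (16 K g ψ + 1125 w²)`;
`ψ ≤ ψa + h N0(φ)`, absorption.
-/

open scoped BoundedContinuousFunction

namespace ES

/-- The mean stress: `⟨f⟩ = D·Sm`. -/
noncomputable def Sm (P : SB) (ζ E W : Vec) (Ψ : WT) : Mat := fun a j =>
  -(2 * TA P.d.κ Ψ (vz P.d ζ) a j) - TA P.d.κ Ψ (mulv (FF P.d ζ) E) a j
    - mean P.d.i (mulv (FF P.d ζ) W a * W j) - mulT (RR P.d ζ) (MM P.d ζ) a j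

section
variable {P : SB} {lam g σ ρ c A ρ0 m w η : ℝ} {ζ E W a q : Vec}

theorem XPsi_lev_dp {i : ℕ} (κ : Kp) (j : Fin 2) {f : WT} (hf : Lev i f) :
    Lev i (dp κ j f) := by
  unfold dp
  split_ifs
  · exact (Lev.D κ 1 hf).neg
  · exact Lev.D κ 0 hf

theorem XPsi_cl_dp {s t : ℝ} (κ : Kp) (j : Fin 2) {f : WT} (hf : Cl s t f) :
    Cl s t (dp κ j f) := by
  unfold dp
  split_ifs
  · exact (Cl.D κ 1 hf).neg
  · exact Cl.D κ 0 hf

theorem XPsi_intg_dp (s t : ℝ) (κ : Kp) (j : Fin 2) (f : WT) :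
    intg s t (dp κ j f) = dp κ j (intg s t f) := by
  unfold dp
  split_ifs
  · rw [LinearMap.neg_apply, LinearMap.neg_apply, map_neg, intg_D]
  · rw [intg_D]

end

end ES

end
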