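import Pool.Agent.H16.TSS.ES.LCompA_1
import Pool.Agent.H16.TSS.ES.SDer
import Pool.Agent.H16.TSS.ES.SPost
import Pool.Agent.H16.TSS.ES.XNew
import Pool.Agent.H16.TSS.M12

/-! The parts of this file: ES.XSta, ES.BCore. -/

section

/-!
ES-XSta: states between the sub-blocks of a block `[t0,t1]` with data `d` (EW 4).
-/

open scoped BoundedContinuousFunction

namespace ES

/-- Data frozen at time `t`. -/
noncomputable def Dat.frz (d : Dat) (t : ℝ) : Dat where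
  κ := d.κ
  i := d.i
  ξ j := ES.frz t (d.ξ j)
  U j := ES.frz t (d.U j)
  v j := ES.frz t (d.v j)
  p := ES.frz t d.p
  R j k := ES.frz t (d.R j k)

/-- Initial deformation of the block, `F0 = I + D ξ(t0)`. -/
noncomputable def F0 (d : Dat) (t0 : ℝ) : Mat := Fm d.κ (fun j => frz t0 (d.ξ j))

/-- State at the time `t` (initial values of the next sub-block). -/
structure StA (d : Dat) (t0 ρ0 y e ψ δ t : ℝ) (ζa Ea : Vec) (Ψa : WT) : Prop where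
  zb : ∀ j, Bd 2 (cr ρ0) (ζa j) y
  zl : ∀ j, Lev d.i (ζa j)
  zr : ∀ j, IsR (ζa j)
  zt : ∀ j t₀, ES.frz t₀ (ζa j) = ζa j
  zd : det2 (Fm d.κ ζa) = 1
  eb : ∀ j, Bd 1 (cr ρ0) (Ea j) e
  el : ∀ j, Lev d.i (Ea j)
  er : ∀ j, IsR (Ea j)
  et : ∀ j t₀, ES.frz t₀ (Ea j) = Ea j
  eΨ : ∀ j, Ea j = dp d.κ j Ψa
  zΨ : Pnz d.κ Ψa = Ψa
  bΨ : Bd 0 (cr ρ0) Ψa ψ
  lΨ : Lev d.i Ψa
  rΨ : IsR Ψa
  tΨ : ∀ t₀, ES.frz t₀ Ψa = Ψa
  hδ : ∀ k l, Bd 0 (cr ρ0) (FF (d.frz t) ζa k l - F0 d t0 k l) δ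

private theorem XSta_Fm_zero (κ : Kp) (a b : Fin 2) : Fm κ 0 a b = idm a b := by
  show idm a b + D κ b (0 : WT) = idm a b
  rw [map_zero, add_zero]

private theorem XSta_det_zero (κ : Kp) : det2 (Fm κ 0) = 1 := by
  unfold det2
  rw [XSta_Fm_zero, XSta_Fm_zero, XSta_Fm_zero, XSta_Fm_zero]
  simp [idm]

private theorem XSta_FF_zero (d : Dat) (k l : Fin 2) : FF d 0 k l = d.F k l := by
  have h : ∀ c, comp d.κ 0 (d.F k c) * Pm d 0 c l = d.F k c * idm c l := by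
    intro c
    rw [comp_id]
    show d.F k c * Fm d.κ 0 c l = _
    rw [XSta_Fm_zero]
  show ∑ c, comp d.κ 0 (d.F k c) * Pm d 0 c l = _
  rw [Finset.sum_congr rfl fun c _ => h c, Fin.sum_univ_two]
  fin_cases l <;> simp [idm]

private theorem XSta_frz_zero (t : ℝ) : ES.frz t 0 = 0 := tcomp_zero _

/-- Start of the block. -/
theorem StA.start {d : Dat} {t0 t1 lam g σ ρ c A ρ0 : ℝ} (G : Good d t0 t1 lam g σ ρ c A)
    (h : ρ0 ≤ ρ) : StA d t0 ρ0 0 0 0 0 t0 0 0 0 := by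
  have hz : ∀ j : Fin 2, (0 : Vec) j = 0 := fun j => rfl
  exact
    { zb := fun j => Bd.zero 2 _ le_rfl
      zl := fun j => Lev.zero _
      zr := fun j => IsR.zero
      zt := fun j t₀ => XSta_frz_zero t₀
      zd := XSta_det_zero _
      eb := fun j => Bd.zero 1 _ le_rfl
      el := fun j => Lev.zero _
      er := fun j => IsR.zero
      et := fun j t₀ => XSta_frz_zero t₀
      eΨ := fun j => by rw [map_zero]; rfl
      zΨ := map_zero _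
      bΨ := Bd.zero 0 _ le_rfl
      lΨ := Lev.zero _
      rΨ := IsR.zero
      tΨ := fun t₀ => XSta_frz_zero t₀
      hδ := fun k l => by
        rw [XSta_FF_zero]
        have h1 : (d.frz t0).F k l - F0 d t0 k l = 0 := sub_self _
        rw [h1]
        exact Bd.zero 0 _ le_rfl }

/-- The sub-block parameters. -/
noncomputable def mkSB (d : Dat) (ta tb ℓr : ℝ) (L : ℕ) (k0 : Fin 2 → ℤ) (b : WT)
    (ζa Ea : Vec) : SB where
  d := d.tcl ta tb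
  ta := ta
  s1 := ta + ℓr
  s2 := tb - ℓr
  tb := tb
  L := L
  k0 := k0
  b := b
  ζa := ζa
  Ea := Ea

private theorem XSta_frz_tcl {ta tb τ : ℝ} (hτ : clp ta tb τ = τ) (f : WT) :
    ES.frz τ (ES.tcl ta tb f) = ES.frz τ f := by
  apply WT.ext
  funext ν
  ext t
  rw [frz_co, frz_co]
  change f.co ν (clp ta tb τ) = f.co ν τ
  rw [hτ]

private theorem XSta_frz_idm (t₀ : ℝ) (a b : Fin 2) : ES.frz t₀ (idm a b) = idm a b := by
  unfold idm ES.frz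
  split_ifs
  · exact tcomp_one _
  · exact tcomp_zero _

private theorem XSta_frz_Fm (t₀ : ℝ) (κ : Kp) (ζ : Vec) (a b : Fin 2) :
    ES.frz t₀ (Fm κ ζ a b) = Fm κ (fun j => ES.frz t₀ (ζ j)) a b := by
  show ES.frz t₀ (idm a b + D κ b (ζ a)) = idm a b + D κ b (ES.frz t₀ (ζ a))
  have h1 : ES.frz t₀ (idm a b + D κ b (ζ a)) = ES.frz t₀ (idm a b) + ES.frz t₀ (D κ b (ζ a)) :=
    tcomp_add _ _ _
  have h2 : ES.frz t₀ (D κ b (ζ a)) = D κ b (ES.frz t₀ (ζ a)) := tcomp_D _ _ _ _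
  rw [h1, XSta_frz_idm, h2]

private theorem XSta_bd_idm (k : ℕ) (r : ℝ → ℝ) (a b : Fin 2) : Bd k r (idm a b) 1 := by
  unfold idm
  split_ifs
  · exact Bd.one k r
  · exact Bd.zero k r zero_le_one

private theorem XSta_frz_FF {d : Dat} {lam g σ ρ c A : ℝ}
    {ta tb ℓr ρ0 m w η : ℝ} {L : ℕ} {k0 : Fin 2 → ℤ} {b : WT} {ζa Ea ζ E W a q : Vec}
    (H : SBH (mkSB d ta tb ℓr L k0 b ζa Ea) lam g σ ρ c A ρ0 m w η)
    (S : SB0 (mkSB d ta tb ℓr L k0 b ζa Ea) lam g ρ0 m w ζ E W a q) {τ : ℝ}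
    (hτ : clp ta tb τ = τ) (k l : Fin 2) :
    ES.frz τ (FF (d.tcl ta tb) ζ k l) = FF (d.frz τ) (fun j => ES.frz τ (ζ j)) k l := by
  have hB := SB0.bh H S
  have hD : DH (d.tcl ta tb) lam g σ c m m ((mkSB d ta tb ℓr L k0 b ζa Ea).r ρ0 m) := H.dh
  have hC : CH d.κ lam m m ((mkSB d ta tb ℓr L k0 b ζa Ea).r ρ0 m) ζ := hD.ch hB.z
  have hm := H.hm
  have hF : ∀ e, Bd 0 (fun t => (mkSB d ta tb ℓr L k0 b ζa Ea).r ρ0 m t + m)
      ((d.tcl ta tb).F k e) (1 + c) := by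
    intro e
    exact (XSta_bd_idm 0 _ k e).add ((hD.bF k e).weaken le_rfl fun t => by linarith)
  have hFe : ∀ e, ES.frz τ ((d.tcl ta tb).F k e) = (d.frz τ).F k e := by
    intro e
    show ES.frz τ (Fm d.κ (fun j => ES.tcl ta tb (d.ξ j)) k e) =
      Fm d.κ (fun j => ES.frz τ (d.ξ j)) k e
    rw [XSta_frz_Fm]
    congr 1
    funext j
    exact XSta_frz_tcl hτ _
  have h1 : ∀ e, ES.frz τ (comp d.κ ζ ((d.tcl ta tb).F k e) * Pm (d.tcl ta tb) ζ e l) =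
      comp d.κ (fun j => ES.frz τ (ζ j)) ((d.frz τ).F k e) *
        Pm (d.frz τ) (fun j => ES.frz τ (ζ j)) e l := by
    intro e
    have e1 : ES.frz τ (comp d.κ ζ ((d.tcl ta tb).F k e) * Pm (d.tcl ta tb) ζ e l) =
        ES.frz τ (comp d.κ ζ ((d.tcl ta tb).F k e)) * ES.frz τ (Pm (d.tcl ta tb) ζ e l) :=
      tcomp_mul _ _ _
    have e2 : ES.frz τ (comp d.κ ζ ((d.tcl ta tb).F k e)) =
        comp d.κ (fun j => ES.frz τ (ζ j)) (ES.frz τ ((d.tcl ta tb).F k e)) :=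
      tcomp_comp hC (hF e) _
    have e3 : ES.frz τ (Pm (d.tcl ta tb) ζ e l) = Pm (d.frz τ) (fun j => ES.frz τ (ζ j)) e l :=
      XSta_frz_Fm τ d.κ ζ e l
    rw [e1, e2, e3, hFe]
  show ES.frz τ (∑ e, comp d.κ ζ ((d.tcl ta tb).F k e) * Pm (d.tcl ta tb) ζ e l) =
    ∑ e, comp d.κ (fun j => ES.frz τ (ζ j)) ((d.frz τ).F k e) *
      Pm (d.frz τ) (fun j => ES.frz τ (ζ j)) e l
  have h2 : ES.frz τ (∑ e, comp d.κ ζ ((d.tcl ta tb).F k e) * Pm (d.tcl ta tb) ζ e l) =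
      ∑ e, ES.frz τ (comp d.κ ζ ((d.tcl ta tb).F k e) * Pm (d.tcl ta tb) ζ e l) :=
    tcomp_sum _ _ _
  rw [h2]
  exact Finset.sum_congr rfl fun e _ => h1 e

/-- `F'` at the left end of the sub-block. -/
theorem frz_FF_left {d : Dat} {t0 t1 lam g σ ρ c A : ℝ} (G : Good d t0 t1 lam g σ ρ c A)
    {ta tb ℓr ρ0 m w η : ℝ} {L : ℕ} {k0 : Fin 2 → ℤ} {b : WT} {ζa Ea ζ E W a q : Vec}
    (H : SBH (mkSB d ta tb ℓr L k0 b ζa Ea) lam g σ ρ c A ρ0 m w η)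
    (S : SB0 (mkSB d ta tb ℓr L k0 b ζa Ea) lam g ρ0 m w ζ E W a q) (k l : Fin 2) :
    ES.frz ta (FF (d.tcl ta tb) ζ k l) = FF (d.frz ta) ζa k l := by
  have hab : ta < tb := H.good.ht
  have h1 : (fun j => ES.frz ta (ζ j)) = ζa := by
    funext j
    have h2 := S.sol.hζ j
    have h3 : ES.frz ta (ζ j) = ES.frz ta (ζa j) + ES.frz ta (intg ta tb
        (comp d.κ ζ ((d.tcl ta tb).B j) + mulv (Pm (d.tcl ta tb) ζ) E j)) := by
      have h4 : ζ j = ζa j + intg ta tb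
        (comp d.κ ζ ((d.tcl ta tb).B j) + mulv (Pm (d.tcl ta tb) ζ) E j) := h2
      conv_lhs => rw [h4]
      exact tcomp_add _ _ _
    rw [h3, intg_at_left hab.le, add_zero]
    exact H.zt j ta
  rw [XSta_frz_FF H S (clp_of_mem (Set.left_mem_Icc.2 hab.le)) k l, h1]

/-- `F'` at the right end of the sub-block. -/
theorem frz_FF_right {d : Dat} {t0 t1 lam g σ ρ c A : ℝ} (G : Good d t0 t1 lam g σ ρ c A)
    {ta tb ℓr ρ0 m w η : ℝ} {L : ℕ} {k0 : Fin 2 → ℤ} {b : WT} {ζa Ea ζ E W a q : Vec}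
    (H : SBH (mkSB d ta tb ℓr L k0 b ζa Ea) lam g σ ρ c A ρ0 m w η)
    (S : SB0 (mkSB d ta tb ℓr L k0 b ζa Ea) lam g ρ0 m w ζ E W a q) (k l : Fin 2) :
    ES.frz tb (FF (d.tcl ta tb) ζ k l) = FF (d.frz tb) (fun j => ES.frz tb (ζ j)) k l := by
  have hab : ta < tb := H.good.ht
  exact XSta_frz_FF H S (clp_of_mem (Set.right_mem_Icc.2 hab.le)) k l

/-- Hypotheses of the sub-block from the state. -/
theorem mk_SBH {d : Dat} {t0 t1 lam g σ ρ c A : ℝ} (G : Good d t0 t1 lam g σ ρ c A)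
    {ta tb ℓr ρ0 m w y e ψ δ : ℝ} {L : ℕ} {k0 : Fin 2 → ℤ} {b : WT} {ζa Ea : Vec} {Ψa : WT}
    (h0 : t0 ≤ ta) (h2 : tb ≤ t1) (hℓ : 0 < ℓr) (hℓ2 : 2 * ℓr < tb - ta)
    (hm : 0 < m) (hm1 : m ≤ 1) (hρ : ρ ≤ 2) (hρ0 : 3 * m ≤ ρ0) (hρ1 : ρ0 + 2 * m ≤ ρ)
    (hlam : 1 ≤ lam) (hw : 0 < w) (hlw : lam * w ≤ g) (hσ0 : 0 ≤ σ) (hσ : σ ≤ w ^ 2)
    (hc : c ≤ 1 / 100) (hL : lam * (1 + 1 / m) ≤ L) (hk : ∀ a, |k0 a| ≤ 2)
    (bb : Bd 0 (cr (ρ0 + m)) b w) (bl : Lev d.i b) (br : IsR b) (bt : ∀ t₀, ES.frz t₀ b = b)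
    (hh : 10 ^ 13 * (1 + 1 / m) ^ 5 * (t1 - t0) * g ≤ 1)
    (St : StA d t0 ρ0 y e ψ δ ta ζa Ea Ψa)
    (hy : y ≤ 10 ^ 8 * (1 + 1 / m) ^ 2 * (t1 - t0) * g / lam)
    (he0 : 0 ≤ e) (he : e ≤ 10 ^ 8 * (1 + 1 / m) ^ 4 * (t1 - t0) * lam * w ^ 2) :
    SBH (mkSB d ta tb ℓr L k0 b ζa Ea) lam g σ ρ c A ρ0 m w e := by
  have hab : ta < tb := by linarith
  have ht : 0 < t1 - t0 := by linarith [G.ht]
  have hlam0 : 0 < lam := by linarith
  have hg : 0 < g := (mul_pos hlam0 hw).trans_le hlw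
  obtain ⟨K, hK⟩ : ∃ K, K = 1 + 1 / m := ⟨_, rfl⟩
  have hK1 : 1 ≤ K := by
    have : 0 < 1 / m := by positivity
    rw [hK]
    linarith
  have hK0 : 0 < K := by linarith
  rw [← hK] at hh hy he
  have htg : 0 < (t1 - t0) * g := by positivity
  have p3 : K ^ 3 ≤ K ^ 5 := pow_le_pow_right₀ hK1 (by norm_num)
  have p4 : K ^ 4 ≤ K ^ 5 := pow_le_pow_right₀ hK1 (by norm_num)
  have q3 : K ^ 3 * ((t1 - t0) * g) ≤ K ^ 5 * ((t1 - t0) * g) :=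
    mul_le_mul_of_nonneg_right p3 htg.le
  have q4 : K ^ 4 * ((t1 - t0) * g) ≤ K ^ 5 * ((t1 - t0) * g) :=
    mul_le_mul_of_nonneg_right p4 htg.le
  have hh' : 10 ^ 13 * (K ^ 5 * ((t1 - t0) * g)) ≤ 1 := by
    have e1 : 10 ^ 13 * (K ^ 5 * ((t1 - t0) * g)) = 10 ^ 13 * K ^ 5 * (t1 - t0) * g := by ring
    rw [e1]
    exact hh
  exact
    { good := G.tclX h0 hab h2
      h1 := by show ta < ta + ℓr; linarith
      h2 := by show ta + ℓr < tb - ℓr; linarith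
      h3 := by show tb - ℓr < tb; linarith
      hm := hm
      hm1 := hm1
      hρ := hρ
      hρ0 := by linarith
      hρ1 := hρ1
      hlam := hlam
      hw := hw
      hlw := hlw
      hσ0 := hσ0
      hσ := hσ
      hc := hc
      hL := hL
      hk := hk
      bb := bb
      bl := bl
      br := br
      bt := bt
      zb := fun j => by
        refine (St.zb j).mono (hy.trans ?_)
        rw [← hK, div_le_div_iff₀ hlam0 (by positivity)]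
        have e1 : 10 ^ 8 * K ^ 2 * (t1 - t0) * g * (1024 * lam * K) =
          (1024 * 10 ^ 8 * (K ^ 3 * ((t1 - t0) * g))) * lam := by ring
        rw [e1]
        exact mul_le_mul_of_nonneg_right (by nlinarith [q3, hh']) hlam0.le
      zl := St.zl
      zr := St.zr
      zt := St.zt
      zd := St.zd
      hη0 := he0
      hη := by
        refine he.trans ?_
        have e1 : 10 ^ 8 * K ^ 4 * (t1 - t0) * lam * w ^ 2 =
          (10 ^ 8 * (K ^ 4 * (t1 - t0)) * (lam * w)) * w := by ring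
        rw [e1]
        have e2 : 10 ^ 8 * (K ^ 4 * (t1 - t0)) * (lam * w) ≤
            10 ^ 8 * (K ^ 4 * (t1 - t0)) * g := mul_le_mul_of_nonneg_left hlw (by positivity)
        have e3 : 10 ^ 8 * (K ^ 4 * (t1 - t0)) * g = 10 ^ 8 * (K ^ 4 * ((t1 - t0) * g)) := by ring
        have e4 : 10 ^ 8 * (K ^ 4 * (t1 - t0)) * (lam * w) ≤ 1 := by
          rw [e3] at e2
          have e5 : 0 ≤ K ^ 5 * ((t1 - t0) * g) := by positivity
          linarith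
        calc 10 ^ 8 * (K ^ 4 * (t1 - t0)) * (lam * w) * w ≤ 1 * w :=
              mul_le_mul_of_nonneg_right e4 hw.le
          _ = w := one_mul w
      eb' := St.eb
      el := St.el
      er := St.er
      et := St.et
      ed := by
        show ∑ j, D d.κ j (Ea j) = 0
        rw [Finset.sum_congr rfl fun j _ => by rw [St.eΨ j]]
        exact div_dp d.κ Ψa
      ez := fun j => by
        show Pnz d.κ (Ea j) = Ea j
        rw [St.eΨ j]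
        unfold dp
        split_ifs
        · rw [LinearMap.neg_apply, map_neg, Pnz_D]
        · rw [Pnz_D] }

end ES

end

section

/-!
ES-BCore: the four steps of a pass and the potential at the end (EW 4, Lemma 4.3, Prop. 4.4).
-/

open scoped BoundedContinuousFunction

namespace ES

/-- Division points of the block. -/
noncomputable def tau (t0 t1 : ℝ) (j : ℕ) : ℝ :=
  if j ≤ 3 then t0 + j * ((t1 - t0) / 6) else t1

/-- Directions. -/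
def kd (j : ℕ) : Fin 2 → ℤ := fun a =>
  if j = 0 then (if a = 0 then 1 else -2) else if j = 1 then (if a = 0 then 1 else 2)
  else (if a = 0 then 1 else 0)

/-- Value of the previous sub-block at the junction. -/
noncomputable def pv (t : ℝ) (x : ℕ → Vec) : ℕ → Vec
  | 0 => 0
  | j + 1 => fun k => frz t (x j k)

/-- The sub-block number `j` of the pass. -/
noncomputable def PS (d : Dat) (t0 t1 ℓr : ℝ) (L : ℕ) (b : ℕ → WT) (ζ E : ℕ → Vec) (j : ℕ) : SB :=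
  mkSB d (tau t0 t1 j) (tau t0 t1 (j + 1)) ℓr L (kd j) (b j)
    (pv (tau t0 t1 j) ζ j) (pv (tau t0 t1 j) E j)

/-- The solution of the pass. -/
structure Pass (d : Dat) (t0 t1 lam g σ ρ c A m w ℓr : ℝ) (L : ℕ) (b : ℕ → WT)
    (ζ E W a q : ℕ → Vec) (Ψ1 : WT) : Prop where
  b3 : b 3 = 0
  H : ∀ j < 4, ∃ η, SBH (PS d t0 t1 ℓr L b ζ E j) lam g σ ρ c A (ρ - (j + 2) * m) m w η ∧
    SB0 (PS d t0 t1 ℓr L b ζ E j) lam g (ρ - (j + 2) * m) m w (ζ j) (E j) (W j) (a j) (q j) ∧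
    SBR (PS d t0 t1 ℓr L b ζ E j) (10 ^ 7) lam g (ρ - (j + 2) * m) m w η
      (ζ j) (E j) (W j) (a j) (q j)
  P : ∀ j < 4, det2 (Pm (PS d t0 t1 ℓr L b ζ E j).d (ζ j)) = 1
  y : ∀ j < 4, ∀ k, Bd 1 ((PS d t0 t1 ℓr L b ζ E j).r (ρ - (j + 2) * m) m) (ζ j k)
    (10 ^ 8 * (1 + 1 / m) ^ 2 * (t1 - t0) * g / lam)
  e : ∀ j < 4, ∀ k, Bd 1 ((PS d t0 t1 ℓr L b ζ E j).r (ρ - (j + 2) * m) m) (E j k)
    (10 ^ 8 * (1 + 1 / m) ^ 4 * (t1 - t0) * lam * w ^ 2)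
  Ψ : ∀ k, frz t1 (E 3 k) = dp d.κ k Ψ1
  bΨ : Bd 0 (cr (ρ - 6 * m)) Ψ1 (8 * (t1 - t0) * w ^ 2 *
    (10 ^ 11 * (1 + 1 / m) ^ 4 * (t1 - t0) * g + 10 * (1 + 1 / m) ^ 2 * (lam / L) ^ 2))
  lΨ : Lev d.i Ψ1
  rΨ : IsR Ψ1
  tΨ : ∀ t₀, frz t₀ Ψ1 = Ψ1

theorem BCore_mono {d : Dat} {t0 ρ0 y e ψ δ t : ℝ} {ζa Ea : Vec} {Ψa : WT}
    (h : StA d t0 ρ0 y e ψ δ t ζa Ea Ψa) {y' e' ψ' δ' : ℝ} (hy : y ≤ y') (he : e ≤ e')
    (hψ : ψ ≤ ψ') (hδ : δ ≤ δ') : StA d t0 ρ0 y' e' ψ' δ' t ζa Ea Ψa where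
  zb j := (h.zb j).mono hy
  zl := h.zl
  zr := h.zr
  zt := h.zt
  zd := h.zd
  eb j := (h.eb j).mono he
  el := h.el
  er := h.er
  et := h.et
  eΨ := h.eΨ
  zΨ := h.zΨ
  bΨ := h.bΨ.mono hψ
  lΨ := h.lΨ
  rΨ := h.rΨ
  tΨ := h.tΨ
  hδ k l := (h.hδ k l).mono hδ

theorem BCore_tau0 (t0 t1 : ℝ) : tau t0 t1 0 = t0 := by simp [tau]

theorem BCore_tau1 (t0 t1 : ℝ) : tau t0 t1 1 = t0 + 1 * ((t1 - t0) / 6) := by simp [tau]

theorem BCore_tau2 (t0 t1 : ℝ) : tau t0 t1 2 = t0 + 2 * ((t1 - t0) / 6) := by simp [tau]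

theorem BCore_tau3 (t0 t1 : ℝ) : tau t0 t1 3 = t0 + 3 * ((t1 - t0) / 6) := by simp [tau]

theorem BCore_tau4 (t0 t1 : ℝ) : tau t0 t1 4 = t1 := by simp [tau]

theorem BCore_tau {t0 t1 : ℝ} (h : t0 < t1) {j : ℕ} (hj : j < 4) :
    t0 ≤ tau t0 t1 j ∧ tau t0 t1 j - t0 ≤ (t1 - t0) / 2 ∧ tau t0 t1 (j + 1) ≤ t1 ∧
      (t1 - t0) / 6 ≤ tau t0 t1 (j + 1) - tau t0 t1 j := by
  interval_cases j
  · show t0 ≤ tau t0 t1 0 ∧ tau t0 t1 0 - t0 ≤ (t1 - t0) / 2 ∧ tau t0 t1 1 ≤ t1 ∧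
      (t1 - t0) / 6 ≤ tau t0 t1 1 - tau t0 t1 0
    rw [BCore_tau0, BCore_tau1]
    refine ⟨?_, ?_, ?_, ?_⟩ <;> linarith
  · show t0 ≤ tau t0 t1 1 ∧ tau t0 t1 1 - t0 ≤ (t1 - t0) / 2 ∧ tau t0 t1 2 ≤ t1 ∧
      (t1 - t0) / 6 ≤ tau t0 t1 2 - tau t0 t1 1
    rw [BCore_tau1, BCore_tau2]
    refine ⟨?_, ?_, ?_, ?_⟩ <;> linarith
  · show t0 ≤ tau t0 t1 2 ∧ tau t0 t1 2 - t0 ≤ (t1 - t0) / 2 ∧ tau t0 t1 3 ≤ t1 ∧
      (t1 - t0) / 6 ≤ tau t0 t1 3 - tau t0 t1 2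
    rw [BCore_tau2, BCore_tau3]
    refine ⟨?_, ?_, ?_, ?_⟩ <;> linarith
  · show t0 ≤ tau t0 t1 3 ∧ tau t0 t1 3 - t0 ≤ (t1 - t0) / 2 ∧ tau t0 t1 4 ≤ t1 ∧
      (t1 - t0) / 6 ≤ tau t0 t1 4 - tau t0 t1 3
    rw [BCore_tau3, BCore_tau4]
    refine ⟨?_, ?_, ?_, ?_⟩ <;> linarith

theorem BCore_kd (j : ℕ) (a : Fin 2) : |kd j a| ≤ 2 := by
  unfold kd
  split_ifs <;> norm_num

/-- The state at the beginning of the sub-block number `j`. -/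
def BCore_ST (d : Dat) (t0 t1 lam g ρ m w : ℝ) (j : ℕ) (ζa Ea : Vec) (Ψa : WT) : Prop :=
  StA d t0 (ρ - ((j : ℝ) + 2) * m) (10 ^ 7 * (1 + 1 / m) ^ 2 * (tau t0 t1 j - t0) * g / lam)
    (2 ^ j * (10 ^ 7 * (1 + 1 / m) ^ 4 * (tau t0 t1 j - t0) * lam * w ^ 2))
    (2 ^ j * (18000 * (tau t0 t1 j - t0) * w ^ 2)) (14 * (1 + 1 / m) * (tau t0 t1 j - t0) * g)
    (tau t0 t1 j) ζa Ea Ψa

/-- The integral over a sub-block. -/
private theorem BCore_int {ta tb : ℝ} (h : ta ≤ tb) (f : WT) (ν : Gx) (t : ℝ) :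
    (frz tb (intg ta tb (tcl ta tb f))).co ν t = ∫ s in ta..tb, f.co ν s := by
  rw [frz_right_intg h]
  apply intervalIntegral.integral_congr
  intro s hs
  rw [Set.uIcc_of_le h] at hs
  show f.co ν (clp ta tb s) = f.co ν s
  rw [clp_of_mem hs]

theorem BCore_addint {t0 t1 : ℝ} (ht : t0 < t1) (f : WT) :
    frz (tau t0 t1 1) (intg (tau t0 t1 0) (tau t0 t1 1) (tcl (tau t0 t1 0) (tau t0 t1 1) f)) +
      frz (tau t0 t1 2) (intg (tau t0 t1 1) (tau t0 t1 2) (tcl (tau t0 t1 1) (tau t0 t1 2) f)) +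
      frz (tau t0 t1 3) (intg (tau t0 t1 2) (tau t0 t1 3) (tcl (tau t0 t1 2) (tau t0 t1 3) f)) +
      frz (tau t0 t1 4) (intg (tau t0 t1 3) (tau t0 t1 4) (tcl (tau t0 t1 3) (tau t0 t1 4) f)) =
      frz t1 (intg t0 t1 f) := by
  have h0 : tau t0 t1 0 ≤ tau t0 t1 1 := by
    have := (BCore_tau ht (show 0 < 4 by norm_num)).2.2.2
    linarith
  have h1 : tau t0 t1 1 ≤ tau t0 t1 2 := by
    have := (BCore_tau ht (show 1 < 4 by norm_num)).2.2.2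
    linarith
  have h2 : tau t0 t1 2 ≤ tau t0 t1 3 := by
    have := (BCore_tau ht (show 2 < 4 by norm_num)).2.2.2
    linarith
  have h3 : tau t0 t1 3 ≤ tau t0 t1 4 := by
    have := (BCore_tau ht (show 3 < 4 by norm_num)).2.2.2
    linarith
  apply WT.ext
  funext ν
  ext t
  show ((frz (tau t0 t1 1) (intg (tau t0 t1 0) (tau t0 t1 1)
      (tcl (tau t0 t1 0) (tau t0 t1 1) f))).co ν t +
    (frz (tau t0 t1 2) (intg (tau t0 t1 1) (tau t0 t1 2)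
      (tcl (tau t0 t1 1) (tau t0 t1 2) f))).co ν t) +
    (frz (tau t0 t1 3) (intg (tau t0 t1 2) (tau t0 t1 3)
      (tcl (tau t0 t1 2) (tau t0 t1 3) f))).co ν t +
    (frz (tau t0 t1 4) (intg (tau t0 t1 3) (tau t0 t1 4)
      (tcl (tau t0 t1 3) (tau t0 t1 4) f))).co ν t = _
  rw [BCore_int h0, BCore_int h1, BCore_int h2, BCore_int h3, frz_right_intg ht.le]
  have hi : ∀ a b : ℝ, IntervalIntegrable (fun s => f.co ν s) MeasureTheory.volume a b :=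
    fun a b => (f.co ν).continuous.intervalIntegrable a b
  rw [intervalIntegral.integral_add_adjacent_intervals (hi _ _) (hi _ _),
    intervalIntegral.integral_add_adjacent_intervals (hi _ _) (hi _ _),
    intervalIntegral.integral_add_adjacent_intervals (hi _ _) (hi _ _), BCore_tau0, BCore_tau4]

/-- Choice between four objects. -/
def BCore_sel {α : Type*} (x0 x1 x2 x3 : α) : ℕ → α
  | 0 => x0
  | 1 => x1
  | 2 => x2
  | _ => x3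

theorem BCore_frz_idm (t₀ : ℝ) (a b : Fin 2) : frz t₀ (idm a b) = idm a b := by
  unfold idm frz
  split_ifs
  · exact tcomp_one _
  · exact tcomp_zero _

end ES

end
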