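import Pool.Agent.H16.TSS.ES.LEv_1
import Pool.Agent.H16.TSS.M11

/-! The parts of this file: ES.V03, ES.V04. -/

section

/-!
ES-V03 (Part II, helper27): pointwise values of the matrices and the coordinate map `Xm`.

Use `LEv` (`ev_*`, `evR_add`, `evR_mul`, `abs_evR_le`, `hasFDerivAt_evR`, `continuous_evR`,
`evR_periodic`) and the `WT` identities of V02 evaluated at a point.
For the bounds: `abs_evR_le` needs `Bd 0 r f c` with `r ≥ 0`; here `r = cr ρ`, `ρ ≥ 0`.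
`M - I`: `M_{00} - 1 = F_{11} - 1`, `M_{01} = -F_{01}` etc.
`det`: `ContinuousLinearMap.det`, `LinearMap.det_toLin'`/`LinearMap.det_pi`-style computation in
dimension 2, value `F00 F11 - F01 F10 = 1` (evaluate `h.det`).
`hasStrictFDerivAt_Xm`: `hasStrictFDerivAt_of_hasFDerivAt_of_continuousAt` and `continuous_evR`.
-/

namespace ES

theorem evR_zero (κ : Kp) (z : Fin 2 → ℝ) (t : ℝ) : evR κ 0 z t = 0 := by
  unfold evR
  rw [ev_zero, Complex.zero_re]

theorem evR_one (κ : Kp) (z : Fin 2 → ℝ) (t : ℝ) : evR κ 1 z t = 1 := by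
  unfold evR
  rw [ev_one, Complex.one_re]

theorem evR_neg (κ : Kp) (f : WT) (z : Fin 2 → ℝ) (t : ℝ) : evR κ (-f) z t = -evR κ f z t := by
  unfold evR
  rw [ev_neg, Complex.neg_re]

theorem evR_sub (κ : Kp) (f g : WT) (z : Fin 2 → ℝ) (t : ℝ) :
    evR κ (f - g) z t = evR κ f z t - evR κ g z t := by
  unfold evR
  rw [ev_sub, Complex.sub_re]

theorem evR_sum (κ : Kp) {ι : Type*} (s : Finset ι) (f : ι → WT) (z : Fin 2 → ℝ) (t : ℝ) :
    evR κ (∑ j ∈ s, f j) z t = ∑ j ∈ s, evR κ (f j) z t := by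
  unfold evR
  rw [ev_sum, Complex.re_sum]

/-- The trivial bound by the sum of the norms of the coefficients. -/
theorem abs_evR_le_tsum (κ : Kp) (f : WT) (z : Fin 2 → ℝ) (t : ℝ) :
    |evR κ f z t| ≤ ∑' ν, ‖f.co ν‖ := by
  refine abs_evR_le (r := cr 0) (fun _ => le_refl _) ?_ z t
  refine ⟨fun ν => ‖f.co ν‖, fun _ => norm_nonneg _, rapid_norm f.rapid, le_refl _, ?_⟩
  intro ν t
  rw [pow_zero, one_mul, show cr 0 t = 0 from rfl, zero_mul, Real.exp_zero, one_mul]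
  exact (f.co ν).norm_coe_le_norm t

theorem Xm_apply (d : Dat) (t : ℝ) (z : Fin 2 → ℝ) (a : Fin 2) :
    Xm d t z a = z a + evR d.κ (d.ξ a) z t := rfl

theorem Xm_periodic (d : Dat) (t : ℝ) (z : Fin 2 → ℝ) (n : Fin 2 → ℤ) :
    Xm d t (fun a => z a + 2 * Real.pi * n a) = fun a => Xm d t z a + 2 * Real.pi * n a := by
  funext a
  rw [Xm_apply, Xm_apply, evR_periodic]
  ring

theorem continuous_Xm (d : Dat) : Continuous fun p : (Fin 2 → ℝ) × ℝ => Xm d p.2 p.1 := by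
  refine continuous_pi fun a => ?_
  exact ((continuous_apply a).comp continuous_fst).add (continuous_evR d.κ (d.ξ a))

/-- Derivative of `Xm`. -/
noncomputable def DX (d : Dat) (t : ℝ) (z : Fin 2 → ℝ) : (Fin 2 → ℝ) →L[ℝ] (Fin 2 → ℝ) :=
  ContinuousLinearMap.pi fun a =>
    ∑ b, evR d.κ (d.F a b) z t • (ContinuousLinearMap.proj b : (Fin 2 → ℝ) →L[ℝ] ℝ)

/-- Inverse of the derivative of `Xm`. -/
noncomputable def DY (d : Dat) (t : ℝ) (z : Fin 2 → ℝ) : (Fin 2 → ℝ) →L[ℝ] (Fin 2 → ℝ) :=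
  ContinuousLinearMap.pi fun a =>
    ∑ b, evR d.κ (d.M a b) z t • (ContinuousLinearMap.proj b : (Fin 2 → ℝ) →L[ℝ] ℝ)

theorem DX_apply (d : Dat) (t : ℝ) (z w : Fin 2 → ℝ) (a : Fin 2) :
    DX d t z w a = ∑ b, evR d.κ (d.F a b) z t * w b := by
  simp [DX]

theorem DY_apply (d : Dat) (t : ℝ) (z w : Fin 2 → ℝ) (a : Fin 2) :
    DY d t z w a = ∑ b, evR d.κ (d.M a b) z t * w b := by
  simp [DY]

private theorem v03_idm (κ : Kp) (a b : Fin 2) (z : Fin 2 → ℝ) (t : ℝ) :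
    evR κ (idm a b) z t = if a = b then 1 else 0 := by
  unfold idm
  split_ifs
  · exact evR_one _ _ _
  · exact evR_zero _ _ _

private theorem v03_F (d : Dat) (a b : Fin 2) (z : Fin 2 → ℝ) (t : ℝ) :
    evR d.κ (d.F a b) z t - (if a = b then 1 else 0) = evR d.κ (grad d.κ d.ξ a b) z t := by
  have h1 : d.F a b = idm a b + grad d.κ d.ξ a b := rfl
  rw [h1, evR_add, v03_idm]
  ring

namespace Good

variable {d : Dat} {t0 t1 lam g σ ρ c A : ℝ}

theorem evR_FM (h : Good d t0 t1 lam g σ ρ c A) (a b : Fin 2) (z : Fin 2 → ℝ) (t : ℝ) :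
    ∑ j, evR d.κ (d.F a j) z t * evR d.κ (d.M j b) z t = if a = b then 1 else 0 := by
  have h1 := congrArg (fun f => evR d.κ f z t) (h.FM a b)
  simp only [evR_sum] at h1
  simp only [evR_mul (h.isR_F a _) (h.isR_M _ b)] at h1
  rw [h1]
  split_ifs
  · exact evR_one _ _ _
  · exact evR_zero _ _ _

theorem evR_MF (h : Good d t0 t1 lam g σ ρ c A) (a b : Fin 2) (z : Fin 2 → ℝ) (t : ℝ) :
    ∑ j, evR d.κ (d.M a j) z t * evR d.κ (d.F j b) z t = if a = b then 1 else 0 := by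
  have h1 := congrArg (fun f => evR d.κ f z t) (h.MF a b)
  simp only [evR_sum] at h1
  simp only [evR_mul (h.isR_M a _) (h.isR_F _ b)] at h1
  rw [h1]
  split_ifs
  · exact evR_one _ _ _
  · exact evR_zero _ _ _

theorem evR_FB (h : Good d t0 t1 lam g σ ρ c A) (a : Fin 2) (z : Fin 2 → ℝ) (t : ℝ) :
    ∑ j, evR d.κ (d.F a j) z t * evR d.κ (d.B j) z t
      = evR d.κ (d.v a) z t - evR d.κ (d.U a) z t := by
  have h1 := congrArg (fun f => evR d.κ f z t) (h.FB a)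
  simp only [evR_sum, evR_sub] at h1
  simp only [evR_mul (h.isR_F a _) (h.isR_B _)] at h1
  exact h1

theorem abs_F_sub (h : Good d t0 t1 lam g σ ρ c A) (hρ : 0 ≤ ρ) (a b : Fin 2) (z : Fin 2 → ℝ)
    (t : ℝ) : |evR d.κ (d.F a b) z t - (if a = b then 1 else 0)| ≤ c := by
  rw [v03_F]
  exact abs_evR_le (r := cr ρ) (fun _ => hρ) (h.bF a b) z t

theorem abs_M_sub (h : Good d t0 t1 lam g σ ρ c A) (hρ : 0 ≤ ρ) (a b : Fin 2) (z : Fin 2 → ℝ)
    (t : ℝ) : |evR d.κ (d.M a b) z t - (if a = b then 1 else 0)| ≤ c := by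
  have h00 := h.abs_F_sub hρ 0 0 z t
  have h01 := h.abs_F_sub hρ 0 1 z t
  have h10 := h.abs_F_sub hρ 1 0 z t
  have h11 := h.abs_F_sub hρ 1 1 z t
  simp at h00 h01 h10 h11
  have m00 : d.M 0 0 = d.F 1 1 := by simp [Dat.M, adj]
  have m01 : d.M 0 1 = -d.F 0 1 := by simp [Dat.M, adj]
  have m10 : d.M 1 0 = -d.F 1 0 := by simp [Dat.M, adj]
  have m11 : d.M 1 1 = d.F 0 0 := by simp [Dat.M, adj]
  fin_cases a <;> fin_cases b
  · simp [m00]
    exact h11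
  · simp [m01, evR_neg]
    exact h01
  · simp [m10, evR_neg]
    exact h10
  · simp [m11]
    exact h00

theorem abs_G (h : Good d t0 t1 lam g σ ρ c A) (hρ : 0 ≤ ρ) (a b : Fin 2) (z : Fin 2 → ℝ)
    (t : ℝ) : |evR d.κ (D d.κ b (d.v a)) z t| ≤ g := by
  exact abs_evR_le (r := cr ρ) (fun _ => hρ) (h.bG a b) z t

theorem abs_R (h : Good d t0 t1 lam g σ ρ c A) (hρ : 0 ≤ ρ) (a b : Fin 2) (z : Fin 2 → ℝ)
    (t : ℝ) : |evR d.κ (d.R a b) z t| ≤ σ := by
  exact abs_evR_le (r := cr ρ) (fun _ => hρ) (h.bR a b) z t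

theorem abs_acc (h : Good d t0 t1 lam g σ ρ c A) (hρ : 0 ≤ ρ) (a : Fin 2) (z : Fin 2 → ℝ)
    (t : ℝ) : |evR d.κ (d.acc a) z t| ≤ A := by
  exact abs_evR_le (r := cr ρ) (fun _ => hρ) (h.bA a) z t

theorem DX_DY (h : Good d t0 t1 lam g σ ρ c A) (t : ℝ) (z w : Fin 2 → ℝ) :
    DX d t z (DY d t z w) = w := by
  funext a
  rw [DX_apply]
  simp only [DY_apply, Fin.sum_univ_two]
  have h0 := h.evR_FM a 0 z t
  have h1 := h.evR_FM a 1 z t
  rw [Fin.sum_univ_two] at h0 h1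
  fin_cases a
  · simp at h0 h1 ⊢
    linear_combination w 0 * h0 + w 1 * h1
  · simp at h0 h1 ⊢
    linear_combination w 0 * h0 + w 1 * h1

theorem DY_DX (h : Good d t0 t1 lam g σ ρ c A) (t : ℝ) (z w : Fin 2 → ℝ) :
    DY d t z (DX d t z w) = w := by
  funext a
  rw [DY_apply]
  simp only [DX_apply, Fin.sum_univ_two]
  have h0 := h.evR_MF a 0 z t
  have h1 := h.evR_MF a 1 z t
  rw [Fin.sum_univ_two] at h0 h1
  fin_cases a
  · simp at h0 h1 ⊢
    linear_combination w 0 * h0 + w 1 * h1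
  · simp at h0 h1 ⊢
    linear_combination w 0 * h0 + w 1 * h1

theorem det_DX (h : Good d t0 t1 lam g σ ρ c A) (t : ℝ) (z : Fin 2 → ℝ) :
    (DX d t z).det = 1 := by
  have h1 : (DX d t z).toLinearMap =
      Matrix.toLin' (Matrix.of fun a b => evR d.κ (d.F a b) z t) := by
    refine LinearMap.ext fun w => ?_
    funext a
    rw [Matrix.toLin'_apply]
    change DX d t z w a = _
    rw [DX_apply]
    rfl
  have h2 := congrArg (fun f => evR d.κ f z t) h.det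
  simp only [det2, evR_sub, evR_one, evR_mul (h.isR_F _ _) (h.isR_F _ _)] at h2
  change LinearMap.det (DX d t z).toLinearMap = 1
  rw [h1, LinearMap.det_toLin', Matrix.det_fin_two]
  exact h2

end Good

theorem hasFDerivAt_Xm (d : Dat) (t : ℝ) (z : Fin 2 → ℝ) :
    HasFDerivAt (Xm d t) (DX d t z) z := by
  rw [hasFDerivAt_pi']
  intro a
  have h1 : HasFDerivAt (fun z : Fin 2 → ℝ => z a)
      (ContinuousLinearMap.proj a : (Fin 2 → ℝ) →L[ℝ] ℝ) z :=
    (ContinuousLinearMap.proj a : (Fin 2 → ℝ) →L[ℝ] ℝ).hasFDerivAt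
  have h2 := h1.add (hasFDerivAt_evR d.κ (d.ξ a) z t)
  have h3 : (ContinuousLinearMap.proj a : (Fin 2 → ℝ) →L[ℝ] ℝ).comp (DX d t z) =
      (ContinuousLinearMap.proj a : (Fin 2 → ℝ) →L[ℝ] ℝ) +
        ∑ b : Fin 2, evR d.κ (D d.κ b (d.ξ a)) z t •
          (ContinuousLinearMap.proj b : (Fin 2 → ℝ) →L[ℝ] ℝ) := by
    refine ContinuousLinearMap.ext fun w => ?_
    change DX d t z w a = _
    have h4 : ∀ b, evR d.κ (d.F a b) z t =
        (if a = b then 1 else 0) + evR d.κ (D d.κ b (d.ξ a)) z t := by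
      intro b
      have h5 := v03_F d a b z t
      change _ = evR d.κ (D d.κ b (d.ξ a)) z t at h5
      linarith
    rw [DX_apply]
    simp only [h4, Fin.sum_univ_two]
    fin_cases a
    · simp
      ring
    · simp
      ring
  rw [h3]
  exact h2

end ES

end

section

/-!
ES-V04 (Part II, helper27): the coordinate maps are bijective with a Lipschitz inverse.

If `|∂_b ξ_a| ≤ c ≤ 1/10` then `|ξ_a(z) - ξ_a(z')| ≤ 2 c ‖z-z'‖ ≤ ‖z-z'‖/5` (mean value inequality,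
e.g. `Convex.norm_image_sub_le_of_norm_hasFDerivWithin_le` with `hasFDerivAt_evR` and
`abs_evR_le`; the norm of `∑_b x_b • proj b` on `Fin 2 → ℝ` (sup norm) is at most `|x_0| + |x_1|`).
Injective: `‖X z - X z'‖ ≥ (4/5) ‖z - z'‖`.  Surjective: `z ↦ y - ξ(z)` is a contraction
(`ContractingWith` with constant `1/5`, `ContractingWith.fixedPoint`).
-/

namespace ES

theorem xi_lip {κ : Kp} {ξ : Vec} {ρ c : ℝ} (hρ : 0 ≤ ρ) (hc : c ≤ 1 / 10)
    (hb : ∀ a b, Bd 0 (cr ρ) (grad κ ξ a b) c) (t : ℝ) (z z' : Fin 2 → ℝ) (a : Fin 2) :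
    |evR κ (ξ a) z t - evR κ (ξ a) z' t| ≤ 1 / 5 * ‖z - z'‖ := by
  have h1 : ∀ x ∈ (Set.univ : Set (Fin 2 → ℝ)),
      HasFDerivWithinAt (fun z => evR κ (ξ a) z t)
        (∑ b : Fin 2, evR κ (D κ b (ξ a)) x t •
          (ContinuousLinearMap.proj b : (Fin 2 → ℝ) →L[ℝ] ℝ)) Set.univ x :=
    fun x _ => (hasFDerivAt_evR κ (ξ a) x t).hasFDerivWithinAt
  have h2 : ∀ x ∈ (Set.univ : Set (Fin 2 → ℝ)),
      ‖(∑ b : Fin 2, evR κ (D κ b (ξ a)) x t •
          (ContinuousLinearMap.proj b : (Fin 2 → ℝ) →L[ℝ] ℝ))‖ ≤ 1 / 5 := by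
    intro x _
    refine ContinuousLinearMap.opNorm_le_bound _ (by norm_num) fun w => ?_
    have h3 : ∀ b, |evR κ (D κ b (ξ a)) x t| ≤ 1 / 10 := fun b =>
      (abs_evR_le (fun _ => hρ) (hb a b) x t).trans hc
    have h4 : ∀ b, |w b| ≤ ‖w‖ := fun b => norm_le_pi_norm w b
    have h5 : ∀ b, |evR κ (D κ b (ξ a)) x t * w b| ≤ 1 / 10 * ‖w‖ := fun b => by
      rw [abs_mul]
      exact mul_le_mul (h3 b) (h4 b) (abs_nonneg _) (by norm_num)
    simp only [Fin.sum_univ_two, ContinuousLinearMap.add_apply, ContinuousLinearMap.smul_apply,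
      ContinuousLinearMap.proj_apply, smul_eq_mul, Real.norm_eq_abs]
    calc |evR κ (D κ 0 (ξ a)) x t * w 0 + evR κ (D κ 1 (ξ a)) x t * w 1|
        ≤ |evR κ (D κ 0 (ξ a)) x t * w 0| + |evR κ (D κ 1 (ξ a)) x t * w 1| := abs_add_le _ _
      _ ≤ 1 / 10 * ‖w‖ + 1 / 10 * ‖w‖ := add_le_add (h5 0) (h5 1)
      _ = 1 / 5 * ‖w‖ := by ring
  have h3 := Convex.norm_image_sub_le_of_norm_hasFDerivWithin_le h1 h2 convex_univ
    (Set.mem_univ z') (Set.mem_univ z)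
  simpa only [Real.norm_eq_abs] using h3

private theorem v04_lip {κ : Kp} {ξ : Vec} {ρ c : ℝ} (hρ : 0 ≤ ρ) (hc : c ≤ 1 / 10)
    (hb : ∀ a b, Bd 0 (cr ρ) (grad κ ξ a b) c) (t : ℝ) (z z' : Fin 2 → ℝ) :
    ‖(fun a => evR κ (ξ a) z t) - (fun a => evR κ (ξ a) z' t)‖ ≤ 1 / 5 * ‖z - z'‖ := by
  rw [pi_norm_le_iff_of_nonneg (by positivity)]
  intro a
  exact xi_lip hρ hc hb t z z' a

private theorem v04_inv {κ : Kp} {ξ : Vec} {ρ c : ℝ} (hρ : 0 ≤ ρ) (hc : c ≤ 1 / 10)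
    (hb : ∀ a b, Bd 0 (cr ρ) (grad κ ξ a b) c) (t : ℝ) (z z' : Fin 2 → ℝ) :
    ‖z - z'‖ ≤ 2 * ‖(fun a => z a + evR κ (ξ a) z t) - (fun a => z' a + evR κ (ξ a) z' t)‖ := by
  have h1 := v04_lip hρ hc hb t z z'
  have h2 : z - z' = ((fun a => z a + evR κ (ξ a) z t) - (fun a => z' a + evR κ (ξ a) z' t))
      - ((fun a => evR κ (ξ a) z t) - (fun a => evR κ (ξ a) z' t)) := by
    funext a
    simp only [Pi.sub_apply]
    ring
  have h3 : ‖z - z'‖ ≤ ‖(fun a => z a + evR κ (ξ a) z t) - (fun a => z' a + evR κ (ξ a) z' t)‖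
      + ‖(fun a => evR κ (ξ a) z t) - (fun a => evR κ (ξ a) z' t)‖ := by
    calc ‖z - z'‖ = ‖((fun a => z a + evR κ (ξ a) z t) - (fun a => z' a + evR κ (ξ a) z' t))
      - ((fun a => evR κ (ξ a) z t) - (fun a => evR κ (ξ a) z' t))‖ := by rw [← h2]
      _ ≤ _ := norm_sub_le _ _
  have h4 : 0 ≤ ‖z - z'‖ := norm_nonneg _
  linarith

theorem bij_of_grad {κ : Kp} {ξ : Vec} {ρ c : ℝ} (hρ : 0 ≤ ρ) (hc : c ≤ 1 / 10)
    (hb : ∀ a b, Bd 0 (cr ρ) (grad κ ξ a b) c) (t : ℝ) :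
    Function.Bijective (fun (z : Fin 2 → ℝ) (a : Fin 2) => z a + evR κ (ξ a) z t) := by
  constructor
  · intro z z' h
    have h1 := v04_inv hρ hc hb t z z'
    have h2 : (fun a => z a + evR κ (ξ a) z t) = (fun a => z' a + evR κ (ξ a) z' t) := h
    rw [h2, sub_self, norm_zero, mul_zero] at h1
    exact sub_eq_zero.mp (norm_le_zero_iff.mp h1)
  · intro y
    have hK : ContractingWith (1 / 5 : NNReal)
        (fun z : Fin 2 → ℝ => y - fun a => evR κ (ξ a) z t) := by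
      refine ⟨?_, LipschitzWith.of_dist_le_mul fun z z' => ?_⟩
      · rw [← NNReal.coe_lt_coe]
        push_cast
        norm_num
      · rw [dist_eq_norm, dist_eq_norm, sub_sub_sub_cancel_left, norm_sub_rev]
        have h := v04_lip hρ hc hb t z z'
        have h5 : ((1 / 5 : NNReal) : ℝ) = 1 / 5 := by push_cast; rfl
        rw [h5]
        exact h
    have hfix := hK.fixedPoint_isFixedPt
    refine ⟨ContractingWith.fixedPoint _ hK, ?_⟩
    funext a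
    have h := congrFun hfix a
    simp only [Pi.sub_apply] at h
    linarith

namespace Good

variable {d : Dat} {t0 t1 lam g σ ρ c A : ℝ}

/-- In particular `Rep` always has its first half. -/
theorem bij (h : Good d t0 t1 lam g σ ρ c A) (hρ : 0 ≤ ρ) (hc : c ≤ 1 / 10) (t : ℝ) :
    Function.Bijective (Xm d t) := bij_of_grad hρ hc h.bF t

theorem inv_lip (h : Good d t0 t1 lam g σ ρ c A) (hρ : 0 ≤ ρ) (hc : c ≤ 1 / 10) (t : ℝ)
    (z z' : Fin 2 → ℝ) : ‖z - z'‖ ≤ 2 * ‖Xm d t z - Xm d t z'‖ :=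
  v04_inv hρ hc h.bF t z z'

/-- The inverse map, jointly continuous. -/
theorem exists_inv (h : Good d t0 t1 lam g σ ρ c A) (hρ : 0 ≤ ρ) (hc : c ≤ 1 / 10) :
    ∃ Y : ℝ → (Fin 2 → ℝ) → (Fin 2 → ℝ), (∀ t x, Xm d t (Y t x) = x) ∧
      (∀ t z, Y t (Xm d t z) = z) ∧
      Continuous fun p : (Fin 2 → ℝ) × ℝ => Y p.2 p.1 := by
  refine ⟨fun t => (Equiv.ofBijective _ (h.bij hρ hc t)).symm, fun t x => ?_, fun t z => ?_, ?_⟩
  · exact (Equiv.ofBijective _ (h.bij hρ hc t)).apply_symm_apply x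
  · exact (Equiv.ofBijective _ (h.bij hρ hc t)).symm_apply_apply z
  · rw [continuous_iff_continuousAt]
    rintro ⟨x₀, s₀⟩
    have hX : ∀ t x, Xm d t ((Equiv.ofBijective _ (h.bij hρ hc t)).symm x) = x := fun t x =>
      (Equiv.ofBijective _ (h.bij hρ hc t)).apply_symm_apply x
    rw [ContinuousAt, tendsto_iff_norm_sub_tendsto_zero]
    have hcont : Continuous fun p : (Fin 2 → ℝ) × ℝ =>
        2 * ‖p.1 - Xm d p.2 ((Equiv.ofBijective _ (h.bij hρ hc s₀)).symm x₀)‖ := by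
      refine continuous_const.mul (continuous_fst.sub ?_).norm
      exact (continuous_Xm d).comp (continuous_const.prodMk continuous_snd)
    have hlim : Filter.Tendsto (fun p : (Fin 2 → ℝ) × ℝ =>
        2 * ‖p.1 - Xm d p.2 ((Equiv.ofBijective _ (h.bij hρ hc s₀)).symm x₀)‖)
        (nhds (x₀, s₀)) (nhds 0) := by
      have h1 := hcont.tendsto (x₀, s₀)
      simp only [hX, sub_self, norm_zero, mul_zero] at h1
      exact h1
    refine squeeze_zero (fun p => norm_nonneg _) (fun p => ?_) hlim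
    have h2 := h.inv_lip hρ hc p.2 ((Equiv.ofBijective _ (h.bij hρ hc p.2)).symm p.1)
      ((Equiv.ofBijective _ (h.bij hρ hc s₀)).symm x₀)
    rw [hX] at h2
    exact h2

end Good

end ES

end
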