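import Pool.Agent.H16.TSS.ES.Stmt

/-! The parts of this file: ES.BArith, ES.RAvgA, ES.RDimA, ES.RDimC, ES.R3Dh, ES.Stmt_1. -/

section

/-!
ES-BArith: the elementary inequalities used in the block theorem (file `BBlock`), stated with a
minimal context so that they are fast to check.
-/

namespace ES

theorem ba_gx {g x : ℝ} (hg : 0 ≤ g) (hx0 : 0 ≤ x) (hx : x ≤ 1 / 5) :
    g * (1 + x) * (1 + 4 * (x * (1 + x) / 2)) ≤ g * (1 + 4 * x) := by
  have e : (1 + x) * (1 + 4 * (x * (1 + x) / 2)) ≤ 1 + 4 * x := by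
    have e1 : x ^ 2 ≤ x * (1 / 5) := by rw [sq]; exact mul_le_mul_of_nonneg_left hx hx0
    have e2 : x ^ 3 ≤ x * (1 / 25) := by
      have h3 : x ^ 3 = x ^ 2 * x := by ring
      have h4 : x ^ 2 * x ≤ x * (1 / 5) * x := mul_le_mul_of_nonneg_right e1 hx0
      have h5 : x * (1 / 5) * x = x ^ 2 * (1 / 5) := by ring
      rw [h3]
      linarith
    have h6 : (1 + x) * (1 + 4 * (x * (1 + x) / 2)) = 1 + 3 * x + 4 * x ^ 2 + 2 * x ^ 3 := by ring
    rw [h6]
    linarith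
  calc g * (1 + x) * (1 + 4 * (x * (1 + x) / 2))
      = g * ((1 + x) * (1 + 4 * (x * (1 + x) / 2))) := by ring
    _ ≤ g * (1 + 4 * x) := mul_le_mul_of_nonneg_left e hg

theorem ba_nu {ν x : ℝ} (hν : 0 ≤ ν) (hν4 : ν ≤ 1 / 4) (hx0 : 0 ≤ x) (hx : x ≤ 1 / 5) :
    ν * (1 + x) ≤ 3 / 10 := by
  have : ν * (1 + x) ≤ 1 / 4 * (1 + 1 / 5) :=
    mul_le_mul hν4 (by linarith) (by linarith) (by norm_num)
  linarith

theorem ba_Y {g w ℓr ν x : ℝ} (hg : 0 ≤ g) (hw : 0 ≤ w) (hℓ : 0 < ℓr) (hν : 0 ≤ ν)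
    (hν4 : ν ≤ 1 / 4) (hx0 : 0 ≤ x) (hx : x ≤ 1 / 5) :
    g * (1 + x) * (ν * w) + ν * w / ℓr ≤ 3 / 10 * (g * w + w / ℓr) := by
  have e3 := ba_nu hν hν4 hx0 hx
  have e4 : 0 ≤ g * w := mul_nonneg hg hw
  have e5 : 0 ≤ w / ℓr := div_nonneg hw hℓ.le
  have e1 : g * (1 + x) * (ν * w) = (g * w) * (ν * (1 + x)) := by ring
  have e2 : ν * w / ℓr = (w / ℓr) * ν := by ring
  have e6 : (g * w) * (ν * (1 + x)) ≤ (g * w) * (3 / 10) := mul_le_mul_of_nonneg_left e3 e4
  have e7 : (w / ℓr) * ν ≤ (w / ℓr) * (3 / 10) := mul_le_mul_of_nonneg_left (by linarith) e5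
  rw [e1, e2]
  linarith

theorem ba_AA {A C K Y Y' : ℝ} (hC : 0 ≤ C) (hK : 0 ≤ K) (hY : Y' ≤ 3 / 10 * Y) (hY0 : 0 ≤ Y) :
    A + C * K * Y + 4 * C * K * Y' ≤ A + 4 * C * K * Y := by
  have h1 : C * K * Y' ≤ C * K * (3 / 10 * Y) := mul_le_mul_of_nonneg_left hY (mul_nonneg hC hK)
  have h2 : 0 ≤ C * K * Y := mul_nonneg (mul_nonneg hC hK) hY0
  have h3 : C * K * (3 / 10 * Y) = 3 / 10 * (C * K * Y) := by ring
  have h4 : 4 * C * K * Y' = 4 * (C * K * Y') := by ring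
  have h5 : 4 * C * K * Y = 4 * (C * K * Y) := by ring
  rw [h4, h5]
  linarith

theorem ba_A1 {A C K Y : ℝ} (hC : 0 ≤ C) (hK : 0 ≤ K) (hY0 : 0 ≤ Y) :
    A + C * K * Y ≤ A + 4 * C * K * Y := by
  have h2 : 0 ≤ C * K * Y := mul_nonneg (mul_nonneg hC hK) hY0
  have h5 : 4 * C * K * Y = 4 * (C * K * Y) := by ring
  rw [h5]
  linarith

theorem ba_gF1 {C K L w g x : ℝ} (hC : 0 ≤ C) (hK : 0 ≤ K) (hL : 0 ≤ L) (hw : 0 ≤ w) (hg : 0 ≤ g)
    (hx0 : 0 ≤ x) : C * (L * w + K * g) ≤ 4 * C * (L * w + K * g * (1 + 4 * x)) := by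
  have e1 : 0 ≤ L * w := mul_nonneg hL hw
  have e2 : 0 ≤ K * g := mul_nonneg hK hg
  have e4 : 0 ≤ K * g * x := mul_nonneg e2 hx0
  have e5 : 4 * (L * w + K * g * (1 + 4 * x)) = 4 * (L * w) + 4 * (K * g) + 16 * (K * g * x) := by
    ring
  have e3 : L * w + K * g ≤ 4 * (L * w + K * g * (1 + 4 * x)) := by
    rw [e5]
    linarith
  calc C * (L * w + K * g) ≤ C * (4 * (L * w + K * g * (1 + 4 * x))) :=
        mul_le_mul_of_nonneg_left e3 hC
    _ = _ := by ring

theorem ba_gF2 {C K L w g x ν : ℝ} (hC : 0 ≤ C) (hK : 0 ≤ K) (hL : 0 ≤ L) (hw : 0 ≤ w) (hg : 0 ≤ g)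
    (hx0 : 0 ≤ x) (hx : x ≤ 1 / 5) (hν4 : ν ≤ 1 / 4) :
    4 * C * (L * (ν * w) + K * (g * (1 + x)) * (1 + 4 * (x * (1 + x) / 2)))
      ≤ 4 * C * (L * w + K * g * (1 + 4 * x)) := by
  have e1 : L * (ν * w) ≤ L * w := by
    have h1 : ν * w ≤ 1 * w := mul_le_mul_of_nonneg_right (by linarith) hw
    rw [one_mul] at h1
    exact mul_le_mul_of_nonneg_left h1 hL
  have e2 : K * (g * (1 + x)) * (1 + 4 * (x * (1 + x) / 2)) ≤ K * g * (1 + 4 * x) := by
    calc K * (g * (1 + x)) * (1 + 4 * (x * (1 + x) / 2))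
        = K * (g * (1 + x) * (1 + 4 * (x * (1 + x) / 2))) := by ring
      _ ≤ K * (g * (1 + 4 * x)) := mul_le_mul_of_nonneg_left (ba_gx hg hx0 hx) hK
      _ = _ := by ring
  exact mul_le_mul_of_nonneg_left (add_le_add e1 e2) (by linarith)

theorem ba_S1 {C K L Z : ℝ} (hC : 0 ≤ C) (hK : 0 ≤ K) (hL : 0 < L) (hZ : 0 ≤ Z) :
    C * K / L * Z ≤ 4 * C * K / L * Z := by
  apply mul_le_mul_of_nonneg_right _ hZ
  apply div_le_div_of_nonneg_right _ hL.le
  have h1 : 0 ≤ C * K := mul_nonneg hC hK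
  have h2 : 4 * C * K = 4 * (C * K) := by ring
  rw [h2]
  linarith

theorem ba_S2 {C K L w ℓr g x ν : ℝ} (hC : 0 ≤ C) (hK : 0 ≤ K) (hL : 0 < L) (hg : 0 ≤ g)
    (hw : 0 ≤ w) (hℓ : 0 < ℓr) (hν : 0 ≤ ν) (hν4 : ν ≤ 1 / 4) (hx0 : 0 ≤ x) (hx : x ≤ 1 / 5) :
    4 * C * K / L * (ν * w / ℓr + g * (1 + x) * (ν * w)) ≤ 4 * C * K / L * (w / ℓr + g * w) := by
  have h1 := ba_Y hg hw hℓ hν hν4 hx0 hx
  have h2 : 0 ≤ g * w := mul_nonneg hg hw
  have h3 : 0 ≤ w / ℓr := div_nonneg hw hℓ.le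
  have h4 : 0 ≤ 4 * C * K := by
    have : 0 ≤ C * K := mul_nonneg hC hK
    have h2 : 4 * C * K = 4 * (C * K) := by ring
    rw [h2]
    linarith
  apply mul_le_mul_of_nonneg_left _ (div_nonneg h4 hL.le)
  linarith

theorem ba_h24 {ℓr h : ℝ} {P : ℕ} (hℓ : 0 < ℓr) (hℓ2 : 12 * ℓr * 2 ^ (P + 1) ≤ h) :
    24 * ℓr ≤ h := by
  have h2P : (1:ℝ) ≤ 2 ^ P := one_le_pow₀ (by norm_num)
  have e : 12 * ℓr * 2 ^ (P + 1) = 24 * ℓr * 2 ^ P := by rw [pow_succ]; ring
  rw [e] at hℓ2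
  have h1 : 24 * ℓr * 1 ≤ 24 * ℓr * 2 ^ P := mul_le_mul_of_nonneg_left h2P (by linarith)
  linarith

theorem ba_sig {σ w ν : ℝ} (hσ : 1600 * σ ≤ w ^ 2) : 1600 * (ν ^ 2 * σ) ≤ (ν * w) ^ 2 := by
  have h1 : ν ^ 2 * (1600 * σ) ≤ ν ^ 2 * w ^ 2 := mul_le_mul_of_nonneg_left hσ (sq_nonneg ν)
  have h2 : (ν * w) ^ 2 = ν ^ 2 * w ^ 2 := by ring
  have h3 : 1600 * (ν ^ 2 * σ) = ν ^ 2 * (1600 * σ) := by ring
  rw [h2, h3]
  exact h1

theorem ba_lw {lam w g x ν : ℝ} (hlam : 0 ≤ lam) (hw : 0 ≤ w) (hg : 0 ≤ g) (hx0 : 0 ≤ x)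
    (hν4 : ν ≤ 1 / 4) (hlw : lam * w ≤ g) : lam * (ν * w) ≤ g * (1 + x) := by
  have h1 : 0 ≤ lam * w := mul_nonneg hlam hw
  have h2 : lam * (ν * w) = (lam * w) * ν := by ring
  have h3 : (lam * w) * ν ≤ (lam * w) * 1 := mul_le_mul_of_nonneg_left (by linarith) h1
  have h4 : 0 ≤ g * x := mul_nonneg hg hx0
  have h5 : g * (1 + x) = g + g * x := by ring
  rw [h2, h5]
  linarith

theorem ba_x1 {x : ℝ} (hx0 : 0 ≤ x) (hx : x ≤ 1 / 5) : x * (1 + x) / 2 ≤ 3 / 5 * x := by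
  have h1 : x * (1 + x) ≤ x * (6 / 5) := mul_le_mul_of_nonneg_left (by linarith) hx0
  linarith

theorem ba_half {C K ν w h g x lam L σ : ℝ} (hC : 0 ≤ C) (hK : 0 ≤ K) (hh : 0 ≤ h) (hg : 0 ≤ g)
    (hx : x ≤ 1 / 5)
    (hs : C * K * w ^ 2 * (h * g + (lam / L) ^ 2) ≤ ν ^ 2 * σ) :
    C * K * (ν * w) ^ 2 * (h / 2 * (g * (1 + x)) + (lam / L) ^ 2) ≤ ν ^ 2 * (ν ^ 2 * σ) := by
  have h0 : 0 ≤ h * g := mul_nonneg hh hg
  have e1 : h / 2 * (g * (1 + x)) ≤ h * g := by
    have h1 : h / 2 * (g * (1 + x)) = h * g * ((1 + x) / 2) := by ring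
    have h2 : h * g * ((1 + x) / 2) ≤ h * g * 1 := mul_le_mul_of_nonneg_left (by linarith) h0
    rw [h1]
    linarith
  have hCK : 0 ≤ C * K * (ν * w) ^ 2 := mul_nonneg (mul_nonneg hC hK) (sq_nonneg _)
  have e2 : C * K * (ν * w) ^ 2 * (h / 2 * (g * (1 + x)) + (lam / L) ^ 2)
      ≤ C * K * (ν * w) ^ 2 * (h * g + (lam / L) ^ 2) :=
    mul_le_mul_of_nonneg_left (by linarith) hCK
  have e3 : C * K * (ν * w) ^ 2 * (h * g + (lam / L) ^ 2)
      = ν ^ 2 * (C * K * w ^ 2 * (h * g + (lam / L) ^ 2)) := by ring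
  rw [e3] at e2
  exact e2.trans (mul_le_mul_of_nonneg_left hs (sq_nonneg ν))

theorem ba_pow {ℓr h : ℝ} {P : ℕ} (hℓ2 : 12 * ℓr * 2 ^ (P + 1) ≤ h) :
    12 * ℓr * 2 ^ P ≤ h / 2 := by
  have e : 12 * ℓr * 2 ^ (P + 1) = 2 * (12 * ℓr * 2 ^ P) := by rw [pow_succ]; ring
  rw [e] at hℓ2
  linarith

theorem ba_dist {a b C w ν : ℝ} (hC : 0 ≤ C) (hw : 0 ≤ w) (hν4 : ν ≤ 1 / 4)
    (ha : a ≤ 4 * C * (ν * w)) (hb : b ≤ C * w) : a + b ≤ 4 * C * w := by
  have h0 : 0 ≤ C * w := mul_nonneg hC hw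
  have h1 : 4 * C * (ν * w) = 4 * (C * w * ν) := by ring
  have h2 : C * w * ν ≤ C * w * (1 / 4) := mul_le_mul_of_nonneg_left hν4 h0
  have h3 : 4 * C * w = 4 * (C * w) := by ring
  rw [h1] at ha
  rw [h3]
  linarith

theorem ba_gz {g x : ℝ} (hg : 0 ≤ g) (hx0 : 0 ≤ x) : g ≤ g * (1 + 4 * x) := by
  have h1 : 0 ≤ g * x := mul_nonneg hg hx0
  have h2 : g * (1 + 4 * x) = g + 4 * (g * x) := by ring
  rw [h2]
  linarith

theorem ba_Az {A C K Y : ℝ} (hC : 0 ≤ C) (hK : 0 ≤ K) (hY : 0 ≤ Y) : A ≤ A + 4 * C * K * Y := by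
  have h2 : 0 ≤ C * K * Y := mul_nonneg (mul_nonneg hC hK) hY
  have h5 : 4 * C * K * Y = 4 * (C * K * Y) := by ring
  rw [h5]
  linarith

theorem ba_fF {C K L w g y : ℝ} (hC : 0 ≤ C) (hK : 0 ≤ K) (hL : 0 ≤ L) (hw : 0 ≤ w) (hg : 0 ≤ g)
    (hy0 : 0 ≤ y) (hy : 4 * y ≤ 1) :
    4 * C * (L * w + K * g * (1 + 4 * y)) ≤ 2000 * C * (L * w + K * g) := by
  have e1 : 0 ≤ L * w := mul_nonneg hL hw
  have e2 : 0 ≤ K * g := mul_nonneg hK hg
  have e4 : K * g * (4 * y) ≤ K * g * 1 := mul_le_mul_of_nonneg_left hy e2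
  have e3 : 4 * (L * w + K * g * (1 + 4 * y)) ≤ 2000 * (L * w + K * g) := by
    have e5 : 4 * (L * w + K * g * (1 + 4 * y)) = 4 * (L * w) + 4 * (K * g) + 4 * (K * g * (4 * y)) :=
      by ring
    rw [e5]
    linarith
  calc 4 * C * (L * w + K * g * (1 + 4 * y))
      = C * (4 * (L * w + K * g * (1 + 4 * y))) := by ring
    _ ≤ C * (2000 * (L * w + K * g)) := mul_le_mul_of_nonneg_left e3 hC
    _ = _ := by ring

theorem ba_AF {A C K Y : ℝ} (hC : 0 ≤ C) (hK : 0 ≤ K) (hY : 0 ≤ Y) :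
    A + 4 * C * K * Y ≤ A + 2000 * C * K * Y := by
  have h2 : 0 ≤ C * K * Y := mul_nonneg (mul_nonneg hC hK) hY
  have h5 : 4 * C * K * Y = 4 * (C * K * Y) := by ring
  have h6 : 2000 * C * K * Y = 2000 * (C * K * Y) := by ring
  rw [h5, h6]
  linarith

theorem ba_SF {C K L Z : ℝ} (hC : 0 ≤ C) (hK : 0 ≤ K) (hL : 0 < L) (hZ : 0 ≤ Z) :
    4 * C * K / L * Z ≤ 2000 * C * K / L * Z := by
  apply mul_le_mul_of_nonneg_right _ hZ
  apply div_le_div_of_nonneg_right _ hL.le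
  have h1 : 0 ≤ C * K := mul_nonneg hC hK
  have h2 : 4 * C * K = 4 * (C * K) := by ring
  have h3 : 2000 * C * K = 2000 * (C * K) := by ring
  rw [h2, h3]
  linarith

theorem ba_sF {C K w Z V : ℝ} (hC : 0 ≤ C) (hK : 0 ≤ K) (hZ : 0 ≤ Z)
    (h : 2000 * C * K * w ^ 2 * Z ≤ V) : C * K * w ^ 2 * Z ≤ V := by
  have e1 : 0 ≤ C * K * w ^ 2 * Z := mul_nonneg (mul_nonneg (mul_nonneg hC hK) (sq_nonneg w)) hZ
  have e2 : 2000 * C * K * w ^ 2 * Z = 2000 * (C * K * w ^ 2 * Z) := by ring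
  rw [e2] at h
  linarith

theorem ba_lF {ℓr C h : ℝ} {P : ℕ} (hC : 1 ≤ C) (hℓ : 0 < ℓr) (h1 : ℓr * (2000 * C * 2 ^ P) ≤ h) :
    12 * ℓr * 2 ^ P ≤ h := by
  have e2 : 0 < ℓr * 2 ^ P := by positivity
  have e1 : ℓr * (2000 * C * 2 ^ P) = 2000 * C * (ℓr * 2 ^ P) := by ring
  have e3 : 12 * (ℓr * 2 ^ P) ≤ 2000 * C * (ℓr * 2 ^ P) :=
    mul_le_mul_of_nonneg_right (by linarith) e2.le
  rw [e1] at h1
  linarith

theorem ba_sC {C σ V : ℝ} (hC : 1 ≤ C) (hσ : 0 ≤ σ) (h : 2000 * C * σ ≤ V) : 1600 * σ ≤ V := by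
  have h1 : 1 * σ ≤ C * σ := mul_le_mul_of_nonneg_right hC hσ
  have h2 : 2000 * C * σ = 2000 * (C * σ) := by ring
  rw [h2] at h
  linarith

end ES

end

section

/-!
Project ES, Part III, module RAvgA: smoothness of parametric integrals over `[0,1]`.

Induction on `n` (for all `F`): `n = 0`:
`intervalIntegral.continuous_parametric_intervalIntegral_of_continuous`; step: the derivative is
`∫ r in 0..1, (fderiv ℝ f (x, r)).comp (inl)` (`intervalIntegral.hasFDerivAt_integral_of_dominated_of_fderiv_le`, bounds on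
compact neighbourhoods, `E` finite dimensional), `contDiff_succ_iff_fderiv`.
-/

open MeasureTheory Set Filter Topology

namespace ES

private theorem RAvgA_deriv {E F : Type} [NormedAddCommGroup E] [NormedSpace ℝ E]
    [FiniteDimensional ℝ E] [NormedAddCommGroup F] [NormedSpace ℝ F] [CompleteSpace F]
    (f : E × ℝ → F) (hf : ContDiff ℝ 1 f) (x : E) :
    HasFDerivAt (fun x => ∫ r in (0 : ℝ)..1, f (x, r))
      (∫ r in (0 : ℝ)..1, (fderiv ℝ f (x, r)).comp (ContinuousLinearMap.inl ℝ E ℝ)) x := by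
  have : ProperSpace E := FiniteDimensional.proper_real E
  have hfd : Differentiable ℝ f := hf.differentiable (by norm_num)
  have hcont : Continuous (fderiv ℝ f) := hf.continuous_fderiv (by norm_num)
  have hc2 : Continuous fun z : E × ℝ =>
      (fderiv ℝ f z).comp (ContinuousLinearMap.inl ℝ E ℝ) :=
    hcont.clm_comp continuous_const
  have hK : IsCompact (Metric.closedBall x 1 ×ˢ Icc (0 : ℝ) 1) :=
    (isCompact_closedBall x 1).prod isCompact_Icc
  obtain ⟨C, hC⟩ := hK.exists_bound_of_continuousOn hc2.continuousOn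
  refine intervalIntegral.hasFDerivAt_integral_of_dominated_of_fderiv_le
    (F := fun x r => f (x, r))
    (F' := fun x r => (fderiv ℝ f (x, r)).comp (ContinuousLinearMap.inl ℝ E ℝ))
    (bound := fun _ => C) (s := Metric.closedBall x 1)
    (Metric.closedBall_mem_nhds x one_pos) ?_ ?_ ?_ ?_ ?_ ?_
  · refine Filter.Eventually.of_forall fun y => ?_
    exact (hf.continuous.comp (by fun_prop : Continuous fun r : ℝ => (y, r))).aestronglyMeasurable
  · exact (hf.continuous.comp (by fun_prop : Continuous fun r : ℝ => (x, r))).intervalIntegrable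
      0 1
  · exact (hc2.comp (by fun_prop : Continuous fun r : ℝ => (x, r))).aestronglyMeasurable
  · refine Filter.Eventually.of_forall fun t ht y hy => ?_
    apply hC (y, t)
    refine ⟨hy, ?_⟩
    rw [uIoc_of_le zero_le_one] at ht
    exact ⟨ht.1.le, ht.2⟩
  · exact intervalIntegrable_const
  · refine Filter.Eventually.of_forall fun t _ y _ => ?_
    have h1 : HasFDerivAt f (fderiv ℝ f (y, t)) (y, t) := (hfd (y, t)).hasFDerivAt
    have h2 : HasFDerivAt (fun z : E => (z, t)) (ContinuousLinearMap.inl ℝ E ℝ) y :=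
      hasFDerivAt_prodMk_left y t
    exact h1.comp y h2

theorem contDiff_param {E F : Type} [NormedAddCommGroup E] [NormedSpace ℝ E]
    [FiniteDimensional ℝ E] [NormedAddCommGroup F] [NormedSpace ℝ F] [CompleteSpace F] (n : ℕ)
    (f : E × ℝ → F) (hf : ContDiff ℝ n f) :
    ContDiff ℝ n fun x => ∫ r in (0 : ℝ)..1, f (x, r) := by
  induction n generalizing F with
  | zero =>
    have h : ContDiff ℝ 0 f := by simpa using hf
    have : ContDiff ℝ 0 fun x => ∫ r in (0 : ℝ)..1, f (x, r) := by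
      rw [contDiff_zero] at h ⊢
      have hu : Continuous (Function.uncurry fun (x : E) (r : ℝ) => f (x, r)) := h
      exact intervalIntegral.continuous_parametric_intervalIntegral_of_continuous hu
        continuous_const
    simpa using this
  | succ n ih =>
    have hf' : ContDiff ℝ ((n : WithTop ℕ∞) + 1) f := by
      have := hf
      push_cast at this
      exact this
    have h1 : ContDiff ℝ 1 f := hf'.of_le le_add_self
    have hd := RAvgA_deriv f h1
    have hfd : fderiv ℝ (fun x => ∫ r in (0 : ℝ)..1, f (x, r)) =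
        fun x => ∫ r in (0 : ℝ)..1, (fderiv ℝ f (x, r)).comp (ContinuousLinearMap.inl ℝ E ℝ) := by
      funext x
      exact (hd x).fderiv
    have h2 : ContDiff ℝ n fun z : E × ℝ =>
        (fderiv ℝ f z).comp (ContinuousLinearMap.inl ℝ E ℝ) :=
      (hf'.fderiv_right le_rfl).clm_comp contDiff_const
    have h3 := ih (F := E →L[ℝ] F) _ h2
    have h4 : ContDiff ℝ ((n : WithTop ℕ∞) + 1) fun x => ∫ r in (0 : ℝ)..1, f (x, r) := by
      rw [contDiff_succ_iff_fderiv]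
      refine ⟨fun x => (hd x).differentiableAt, ?_, ?_⟩
      · intro h
        exact absurd h (by simp)
      · rw [hfd]
        exact h3
    push_cast
    exact h4

/-- The derivative of the parametric integral. -/
theorem hasFDerivAt_param {E F : Type} [NormedAddCommGroup E] [NormedSpace ℝ E]
    [FiniteDimensional ℝ E] [NormedAddCommGroup F] [NormedSpace ℝ F] [CompleteSpace F]
    (f : E × ℝ → F) (hf : ContDiff ℝ 1 f) (x : E) :
    HasFDerivAt (fun x => ∫ r in (0 : ℝ)..1, f (x, r))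
      (∫ r in (0 : ℝ)..1, (fderiv ℝ f (x, r)).comp (ContinuousLinearMap.inl ℝ E ℝ)) x :=
  RAvgA_deriv f hf x

end ES

end

section

/-!
Project ES, Part III, module RDimA: upper bound for the Hausdorff dimension from covers
(`Measure.hausdorffMeasure_le_liminf_sum`, `dimH_le_of_hausdorffMeasure_ne_top`).
-/

open MeasureTheory Set Filter Topology
open scoped ENNReal NNReal

namespace ES

theorem dimH_le_of_covers {B : Set ℝ} {d : ℝ≥0} (N : ℕ → ℕ) (L : ℕ → ℝ)
    (I : (q : ℕ) → Fin (N q) → Set ℝ) (hcov : ∀ q, B ⊆ ⋃ i, I q i) (hL0 : ∀ q, 0 ≤ L q)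
    (hdiam : ∀ q i, Metric.ediam (I q i) ≤ ENNReal.ofReal (L q))
    (hL : Tendsto L atTop (𝓝 0)) (C : ℝ)
    (hC : ∀ q, (N q : ℝ) * (L q) ^ (d : ℝ) ≤ C) : dimH B ≤ d := by
  have hr : Tendsto (fun q => ENNReal.ofReal (L q)) atTop (𝓝 0) := by
    have h := (ENNReal.continuous_ofReal.tendsto 0).comp hL
    rwa [ENNReal.ofReal_zero] at h
  have h1 := Measure.hausdorffMeasure_le_liminf_sum (d : ℝ) B (l := atTop)
    (fun q => ENNReal.ofReal (L q)) hr I (Eventually.of_forall fun q i => hdiam q i)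
    (Eventually.of_forall hcov)
  have h2 : ∀ q, ∑ i, Metric.ediam (I q i) ^ (d : ℝ) ≤ ENNReal.ofReal C := by
    intro q
    calc ∑ i, Metric.ediam (I q i) ^ (d : ℝ)
        ≤ ∑ _i : Fin (N q), ENNReal.ofReal (L q) ^ (d : ℝ) :=
          Finset.sum_le_sum fun i _ => ENNReal.rpow_le_rpow (hdiam q i) d.coe_nonneg
      _ = ENNReal.ofReal ((N q : ℝ) * (L q) ^ (d : ℝ)) := by
          rw [Finset.sum_const, Finset.card_univ, Fintype.card_fin, nsmul_eq_mul,
            ENNReal.ofReal_rpow_of_nonneg (hL0 q) d.coe_nonneg,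
            ENNReal.ofReal_mul (Nat.cast_nonneg _), ENNReal.ofReal_natCast]
      _ ≤ ENNReal.ofReal C := ENNReal.ofReal_le_ofReal (hC q)
  have h3 : liminf (fun q => ∑ i, Metric.ediam (I q i) ^ (d : ℝ)) atTop ≤ ENNReal.ofReal C := by
    refine liminf_le_of_le (by isBoundedDefault) ?_
    intro b hb
    obtain ⟨q, hq⟩ := hb.exists
    exact hq.trans (h2 q)
  exact dimH_le_of_hausdorffMeasure_ne_top
    (ne_top_of_le_ne_top ENNReal.ofReal_ne_top (h1.trans h3))

end ES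

end

section

/-!
Project ES, Part III, module RDimC: for `0 ≤ s < 1` a closed subset of `[0,1]` of Hausdorff
dimension `s`.

`s = 0`: a point.  `0 < s < 1`: `r = 2^(-1/s) < 1/2`, `K` = the set of the sums
`c(a) = (1-r) ∑ a_n r^n`, `a : ℕ → Fin 2`; compact as a continuous image of `ℕ → Fin 2`.
Upper bound: `K` is covered by `2^N` sets of diameter at most `r^N` (fixed first `N` digits) and
`2^N (r^N)^s = 1` (`dimH_le_of_covers`).
Lower bound: if `a`, `b` differ first at `n`, then `|c(a)-c(b)| ≥ r^n (1-2r)` and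
`|ofDigits a - ofDigits b| ≤ 2^(-n) = (r^n)^s` (`Real.abs_ofDigits_sub_ofDigits_le`), so the map
`c(a) ↦ Real.ofDigits a` is well defined and Hoelder of exponent `s` on `K`, with image `⊇ [0,1)`
(`Real.ofDigits_digits`); `HolderOnWith.dimH_image_le` gives `1 ≤ dimH K / s`.
-/

open MeasureTheory Set Filter Topology
open scoped ENNReal NNReal

namespace ES

/-- The point with the digits `a`. -/
private noncomputable def RDimC_c (r : ℝ) (a : ℕ → Fin 2) : ℝ :=
  ∑' n, (1 - r) * r ^ n * ((a n : ℕ) : ℝ)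

private theorem RDimC_dig (x : Fin 2) : (0 : ℝ) ≤ ((x : ℕ) : ℝ) ∧ ((x : ℕ) : ℝ) ≤ 1 := by
  refine ⟨Nat.cast_nonneg _, ?_⟩
  have h := x.2
  have : (x : ℕ) ≤ 1 := by omega
  exact_mod_cast this

private theorem RDimC_bd {r : ℝ} (h0 : 0 < r) (h1 : r < 1) (a : ℕ → Fin 2) (n : ℕ) :
    ‖(1 - r) * r ^ n * ((a n : ℕ) : ℝ)‖ ≤ (1 - r) * r ^ n := by
  have h2 := RDimC_dig (a n)
  have h3 : 0 ≤ (1 - r) * r ^ n := mul_nonneg (by linarith) (pow_nonneg h0.le n)
  rw [Real.norm_eq_abs, abs_of_nonneg (mul_nonneg h3 h2.1)]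
  exact mul_le_of_le_one_right h3 h2.2

private theorem RDimC_geo {r : ℝ} (h0 : 0 < r) (h1 : r < 1) :
    Summable (fun n : ℕ => (1 - r) * r ^ n) :=
  (summable_geometric_of_lt_one h0.le h1).mul_left _

private theorem RDimC_sum {r : ℝ} (h0 : 0 < r) (h1 : r < 1) (a : ℕ → Fin 2) :
    Summable (fun n => (1 - r) * r ^ n * ((a n : ℕ) : ℝ)) :=
  Summable.of_norm_bounded (RDimC_geo h0 h1) (RDimC_bd h0 h1 a)

private theorem RDimC_nonneg {r : ℝ} (h0 : 0 < r) (h1 : r < 1) (a : ℕ → Fin 2) :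
    0 ≤ RDimC_c r a :=
  tsum_nonneg fun n => mul_nonneg (mul_nonneg (by linarith) (pow_nonneg h0.le n))
    (RDimC_dig _).1

private theorem RDimC_le_one {r : ℝ} (h0 : 0 < r) (h1 : r < 1) (a : ℕ → Fin 2) :
    RDimC_c r a ≤ 1 := by
  calc RDimC_c r a ≤ ∑' n : ℕ, (1 - r) * r ^ n := by
        refine (RDimC_sum h0 h1 a).tsum_le_tsum ?_ (RDimC_geo h0 h1)
        intro n
        exact (le_abs_self _).trans (RDimC_bd h0 h1 a n)
    _ = 1 := by
        rw [tsum_mul_left, tsum_geometric_of_lt_one h0.le h1]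
        exact mul_inv_cancel₀ (by linarith)

private theorem RDimC_step {r : ℝ} (h0 : 0 < r) (h1 : r < 1) (a : ℕ → Fin 2) :
    RDimC_c r a = (1 - r) * ((a 0 : ℕ) : ℝ) + r * RDimC_c r (fun n => a (n + 1)) := by
  unfold RDimC_c
  rw [(RDimC_sum h0 h1 a).tsum_eq_zero_add, ← tsum_mul_left]
  congr 1
  · simp
  · refine tsum_congr fun n => ?_
    rw [pow_succ]
    ring

private theorem RDimC_close {r : ℝ} (h0 : 0 < r) (h1 : r < 1) (N : ℕ) :
    ∀ a b : ℕ → Fin 2, (∀ i < N, a i = b i) → |RDimC_c r a - RDimC_c r b| ≤ r ^ N := by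
  induction N with
  | zero =>
    intro a b _
    rw [pow_zero, abs_le]
    have := RDimC_nonneg h0 h1 a
    have := RDimC_nonneg h0 h1 b
    have := RDimC_le_one h0 h1 a
    have := RDimC_le_one h0 h1 b
    constructor <;> linarith
  | succ N ih =>
    intro a b hab
    rw [RDimC_step h0 h1 a, RDimC_step h0 h1 b, hab 0 (by omega), add_sub_add_left_eq_sub,
      ← mul_sub, abs_mul, abs_of_pos h0, pow_succ, mul_comm _ r]
    exact mul_le_mul_of_nonneg_left (ih _ _ fun i hi => hab (i + 1) (by omega)) h0.le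

private theorem RDimC_far {r : ℝ} (h0 : 0 < r) (h1 : r < 1) (N : ℕ) :
    ∀ a b : ℕ → Fin 2, (∀ i < N, a i = b i) → a N ≠ b N →
      r ^ N * (1 - 2 * r) ≤ |RDimC_c r a - RDimC_c r b| := by
  induction N with
  | zero =>
    intro a b _ hab
    rw [pow_zero, one_mul, RDimC_step h0 h1 a, RDimC_step h0 h1 b]
    have e1 := RDimC_nonneg h0 h1 (fun n => a (n + 1))
    have e2 := RDimC_nonneg h0 h1 (fun n => b (n + 1))
    have e3 := RDimC_le_one h0 h1 (fun n => a (n + 1))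
    have e4 := RDimC_le_one h0 h1 (fun n => b (n + 1))
    have hcase : ((a 0 : ℕ) = 0 ∧ (b 0 : ℕ) = 1) ∨ ((a 0 : ℕ) = 1 ∧ (b 0 : ℕ) = 0) := by
      have ha := (a 0).2
      have hb := (b 0).2
      have hne : (a 0 : ℕ) ≠ (b 0 : ℕ) := fun h => hab (Fin.ext h)
      omega
    rcases hcase with ⟨ha, hb⟩ | ⟨ha, hb⟩
    · rw [ha, hb]
      refine le_trans ?_ (neg_le_abs _)
      push_cast
      nlinarith
    · rw [ha, hb]
      refine le_trans ?_ (le_abs_self _)
      push_cast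
      nlinarith
  | succ N ih =>
    intro a b hab hN
    rw [RDimC_step h0 h1 a, RDimC_step h0 h1 b, hab 0 (by omega), add_sub_add_left_eq_sub,
      ← mul_sub, abs_mul, abs_of_pos h0, pow_succ, mul_comm _ r, mul_assoc]
    exact mul_le_mul_of_nonneg_left
      (ih _ _ (fun i hi => hab (i + 1) (by omega)) hN) h0.le

private theorem RDimC_cont {r : ℝ} (h0 : 0 < r) (h1 : r < 1) :
    Continuous (RDimC_c r) := by
  refine continuous_tsum (u := fun n => (1 - r) * r ^ n) ?_ (RDimC_geo h0 h1) ?_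
  · intro n
    refine continuous_const.mul ?_
    exact (continuous_of_discreteTopology (f := fun x : Fin 2 => ((x : ℕ) : ℝ))).comp
      (continuous_apply n)
  · intro n a
    exact RDimC_bd h0 h1 a n

private theorem RDimC_diff {a b : ℕ → Fin 2} (h : a ≠ b) :
    ∃ n, (∀ i < n, a i = b i) ∧ a n ≠ b n := by
  classical
  have h1 : ∃ n, a n ≠ b n := by
    by_contra h2
    push Not at h2
    exact h (funext h2)
  refine ⟨Nat.find h1, ?_, Nat.find_spec h1⟩
  intro i hi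
  by_contra h2
  exact Nat.find_min h1 hi h2

theorem exists_compact_dimH_eq {s : ℝ} (hs0 : 0 ≤ s) (hs1 : s < 1) :
    ∃ K : Set ℝ, IsClosed K ∧ K ⊆ Set.Icc 0 1 ∧ dimH K = ENNReal.ofReal s := by
  rcases hs0.eq_or_lt with hs | hs
  · refine ⟨{0}, isClosed_singleton, ?_, ?_⟩
    · intro x hx
      rw [mem_singleton_iff] at hx
      rw [hx]
      exact ⟨le_rfl, zero_le_one⟩
    · rw [dimH_singleton, ← hs, ENNReal.ofReal_zero]
  set r : ℝ := (2 : ℝ) ^ (-(1 / s)) with hr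
  have hr0 : 0 < r := Real.rpow_pos_of_pos two_pos _
  have hr2 : r < 1 / 2 := by
    have h1 : r < (2 : ℝ) ^ (-1 : ℝ) := by
      apply Real.rpow_lt_rpow_of_exponent_lt one_lt_two
      have : 1 < 1 / s := by
        rw [lt_div_iff₀ hs]
        linarith
      linarith
    rwa [Real.rpow_neg_one, ← one_div] at h1
  have hr1 : r < 1 := by linarith
  have hrs : r ^ s = 1 / 2 := by
    rw [hr, ← Real.rpow_mul two_pos.le]
    have : -(1 / s) * s = -1 := by
      field_simp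
    rw [this, Real.rpow_neg_one, one_div]
  have hrns : ∀ n : ℕ, (r ^ n) ^ s = (1 / 2) ^ n := by
    intro n
    rw [← Real.rpow_natCast r n, ← Real.rpow_mul hr0.le, mul_comm, Real.rpow_mul hr0.le,
      hrs, Real.rpow_natCast]
  have hcont := RDimC_cont hr0 hr1
  refine ⟨range (RDimC_c r), (isCompact_range hcont).isClosed, ?_, ?_⟩
  · rintro _ ⟨a, rfl⟩
    exact ⟨RDimC_nonneg hr0 hr1 a, RDimC_le_one hr0 hr1 a⟩
  apply le_antisymm
  · -- the upper bound
    have h2 : dimH (range (RDimC_c r)) ≤ (s.toNNReal : ℝ≥0∞) := by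
      refine dimH_le_of_covers (fun q => 2 ^ q) (fun q => r ^ q)
        (fun q i => RDimC_c r '' {a | ∀ j : Fin q, a j = finFunctionFinEquiv.symm i j})
        ?_ (fun q => pow_nonneg hr0.le q) ?_ (tendsto_pow_atTop_nhds_zero_of_lt_one hr0.le hr1)
        1 ?_
      · rintro q _ ⟨a, rfl⟩
        rw [mem_iUnion]
        refine ⟨finFunctionFinEquiv (fun j : Fin q => a j), a, ?_, rfl⟩
        intro j
        rw [Equiv.symm_apply_apply]
      · intro q i
        refine Metric.ediam_le ?_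
        rintro _ ⟨a, ha, rfl⟩ _ ⟨b, hb, rfl⟩
        rw [edist_dist, Real.dist_eq]
        refine ENNReal.ofReal_le_ofReal (RDimC_close hr0 hr1 q a b ?_)
        intro j hj
        exact (ha ⟨j, hj⟩).trans (hb ⟨j, hj⟩).symm
      · intro q
        rw [Real.coe_toNNReal s hs0, hrns]
        push_cast
        rw [← mul_pow]
        norm_num
    exact h2
  · -- the lower bound
    classical
    have hinj : Function.Injective (RDimC_c r) := by
      intro a b hab
      by_contra hne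
      obtain ⟨n, h1, h2⟩ := RDimC_diff hne
      have h3 := RDimC_far hr0 hr1 n a b h1 h2
      rw [hab, sub_self, abs_zero] at h3
      have h4 : 0 < r ^ n * (1 - 2 * r) := mul_pos (pow_pos hr0 n) (by linarith)
      linarith
    let g : ℝ → ℝ := fun x => Real.ofDigits (Function.invFun (RDimC_c r) x)
    have hg : ∀ a, g (RDimC_c r a) = Real.ofDigits a := by
      intro a
      simp only [g]
      rw [Function.leftInverse_invFun hinj a]
    have h12 : 0 < 1 - 2 * r := by linarith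
    have hhol : HolderOnWith (((1 - 2 * r) ^ s)⁻¹).toNNReal s.toNNReal g
        (range (RDimC_c r)) := by
      rintro _ ⟨a, rfl⟩ _ ⟨b, rfl⟩
      rw [hg, hg]
      by_cases hab : a = b
      · rw [hab, edist_self]
        exact bot_le
      obtain ⟨n, h1, h2⟩ := RDimC_diff hab
      have h3 := RDimC_far hr0 hr1 n a b h1 h2
      have h4 := Real.abs_ofDigits_sub_ofDigits_le h1
      rw [edist_dist, edist_dist, Real.dist_eq, Real.dist_eq, Real.coe_toNNReal s hs0,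
        ENNReal.ofReal_rpow_of_nonneg (abs_nonneg _) hs0]
      change _ ≤ ENNReal.ofReal _ * _
      rw [← ENNReal.ofReal_mul (inv_nonneg.2 (Real.rpow_nonneg h12.le s))]
      apply ENNReal.ofReal_le_ofReal
      refine h4.trans ?_
      have h5 : (r ^ n * (1 - 2 * r)) ^ s ≤ |RDimC_c r a - RDimC_c r b| ^ s :=
        Real.rpow_le_rpow (mul_nonneg (pow_nonneg hr0.le n) h12.le) h3 hs0
      rw [Real.mul_rpow (pow_nonneg hr0.le n) h12.le, hrns] at h5
      have h6 : 0 < (1 - 2 * r) ^ s := Real.rpow_pos_of_pos h12 s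
      rw [inv_mul_eq_div, le_div_iff₀ h6]
      refine le_trans (le_of_eq ?_) h5
      push_cast
      rw [one_div, inv_pow]
    have h5 : Icc (0 : ℝ) 1 ⊆ g '' range (RDimC_c r) := by
      intro y hy
      obtain ⟨a, -, ha⟩ := Real.ofDigits_SurjOn (b := 2) one_lt_two hy
      exact ⟨RDimC_c r a, ⟨a, rfl⟩, by rw [hg, ha]⟩
    have h6 : (1 : ℝ≥0∞) ≤ dimH (g '' range (RDimC_c r)) := by
      have h7 : dimH (Icc (0 : ℝ) 1) = Module.finrank ℝ ℝ := by
        apply Real.dimH_of_nonempty_interior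
        rw [interior_Icc]
        exact ⟨1 / 2, by norm_num, by norm_num⟩
      rw [Module.finrank_self, Nat.cast_one] at h7
      rw [← h7]
      exact dimH_mono h5
    have hs' : 0 < s.toNNReal := Real.toNNReal_pos.2 hs
    have h8 := h6.trans (hhol.dimH_image_le hs')
    rw [ENNReal.le_div_iff_mul_le (Or.inl (by exact_mod_cast hs'.ne'))
      (Or.inl ENNReal.coe_ne_top), one_mul] at h8
    exact h8

end ES

end

section

/-!
Project ES, Part III, module R3Dh: the set of bad times.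
`B' = {t | T0/T*t ∈ B} ∪ {T r | r ∈ K}`, `K` from `exists_compact_dimH_eq` with `s = 2β/(1-β) < 1`;
`dimH_union`, images under `t ↦ c t` (`c > 0`) have the same dimension (`AntilipschitzWith`, `LipschitzWith`).
-/

open MeasureTheory Set Filter Topology

namespace ES

private theorem R3Dh_dimH_mul {c : ℝ} (hc : 0 < c) (A : Set ℝ) :
    dimH ((fun t => c * t) '' A) = dimH A := by
  apply le_antisymm
  · have h : LipschitzWith (Real.toNNReal c) (fun t : ℝ => c * t) := by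
      apply LipschitzWith.of_dist_le_mul
      intro x y
      rw [Real.coe_toNNReal _ hc.le, Real.dist_eq, Real.dist_eq, ← mul_sub, abs_mul,
        abs_of_pos hc]
    exact h.dimH_image_le A
  · have h : AntilipschitzWith (Real.toNNReal c⁻¹) (fun t : ℝ => c * t) := by
      apply AntilipschitzWith.of_le_mul_dist
      intro x y
      rw [Real.coe_toNNReal _ (inv_pos.mpr hc).le, Real.dist_eq, Real.dist_eq, ← mul_sub, abs_mul,
        abs_of_pos hc, ← mul_assoc, inv_mul_cancel₀ hc.ne', one_mul]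
    exact h.le_dimH_image A

theorem exists_badset {β : ℝ} (hβ0 : 0 ≤ β) (hβ : β < 1 / 3) {T0 : ℝ} {B : Set ℝ} (hT0 : 0 < T0)
    (hBc : IsClosed B) (hBs : B ⊆ Icc 0 T0) (hBd : dimH B ≤ ENNReal.ofReal (2 * β / (1 - β)))
    {T : ℝ} (hT : 0 < T) :
    ∃ B' : Set ℝ, IsClosed B' ∧ B' ⊆ Icc 0 T ∧ (∀ t, T0 / T * t ∈ B → t ∈ B') ∧
      dimH B' = ENNReal.ofReal (2 * β / (1 - β)) := by
  have h1 : 0 < 1 - β := by linarith
  have hs0 : 0 ≤ 2 * β / (1 - β) := div_nonneg (by linarith) h1.le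
  have hs1 : 2 * β / (1 - β) < 1 := by
    rw [div_lt_one h1]
    linarith
  obtain ⟨K, hKc, hKs, hKd⟩ := exists_compact_dimH_eq hs0 hs1
  have hc : 0 < T / T0 := div_pos hT hT0
  have hcc : Continuous fun t : ℝ => T * t := continuous_const.mul continuous_id
  have hKcomp : IsCompact K := isCompact_Icc.of_isClosed_subset hKc hKs
  refine ⟨(fun t => T0 / T * t) ⁻¹' B ∪ (fun t => T * t) '' K, ?_, ?_, ?_, ?_⟩
  · exact (hBc.preimage (continuous_const.mul continuous_id)).union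
      (hKcomp.image hcc).isClosed
  · rintro t (ht | ⟨r, hr, rfl⟩)
    · have h2 := hBs ht
      have h3 : t = T / T0 * (T0 / T * t) := by
        field_simp
      constructor
      · rw [h3]
        exact mul_nonneg hc.le h2.1
      · rw [h3]
        calc T / T0 * (T0 / T * t) ≤ T / T0 * T0 := mul_le_mul_of_nonneg_left h2.2 hc.le
          _ = T := by field_simp
    · have h2 := hKs hr
      constructor
      · exact mul_nonneg hT.le h2.1
      · calc T * r ≤ T * 1 := mul_le_mul_of_nonneg_left h2.2 hT.le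
          _ = T := mul_one T
  · intro t ht
    exact Or.inl ht
  · have h2 : (fun t => T0 / T * t) ⁻¹' B = (fun t => T / T0 * t) '' B := by
      ext t
      constructor
      · intro ht
        exact ⟨T0 / T * t, ht, by
          change T / T0 * (T0 / T * t) = t
          field_simp⟩
      · rintro ⟨r, hr, rfl⟩
        change T0 / T * (T / T0 * r) ∈ B
        have : T0 / T * (T / T0 * r) = r := by field_simp
        rw [this]
        exact hr
    rw [dimH_union, h2, R3Dh_dimH_mul hc, R3Dh_dimH_mul hT, hKd]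
    exact max_eq_right hBd

end ES

end

section

/-!
The definitions used in the statement of the theorem: weak solutions of the incompressible Euler
equations on `𝕋³ × [0,T]`, `𝕋³ = ℝ³/ℤ³`.  Functions on `𝕋³` are `ℤ³`-periodic functions on `ℝ³`,
integrals over `𝕋³` are integrals over the cell `[0,1)³`.
-/

open MeasureTheory Set

namespace EulerTimes

/-- The problem for the exponent `β` on `[0,T]`: a non-conservative weak solution in `C^β` which is
smooth off a closed set of times of Hausdorff dimension exactly `2β/(1-β)`. -/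
def SharpSolution (β T : ℝ) : Prop :=
  ∃ (v : R3 → ℝ → R3) (B : Set ℝ), WeakSolution T v ∧ HolderClass β T v ∧ NonConservative T v ∧
    IsClosed B ∧ B ⊆ Icc 0 T ∧ SmoothOff T B v ∧ dimH B = ENNReal.ofReal (2 * β / (1 - β))

end EulerTimes

end
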