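import Pool.Agent.H16.TSS.M11
import Pool.Agent.H16.TSS.M14

/-! The parts of this file: ES.RAvgD, ES.RAvgB, ES.RAvgE, ES.RInitB, ES.V06, ES.V07, ES.V16. -/

section

/-!
Project ES, Part III: averages over the third variable (definitions).
-/

open MeasureTheory Set EulerTimes

namespace ES

/-- The point of `ℝ³` over `z ∈ ℝ²` (coordinates divided by `2π`) with third coordinate `r`. -/
noncomputable def emb (z : Fin 2 → ℝ) (r : ℝ) : R3 :=
  WithLp.toLp 2 ![z 0 / (2 * Real.pi), z 1 / (2 * Real.pi), r]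

/-- Average over the third variable of a test field, rescaled in time. -/
noncomputable def avg (c : ℝ) (φ : R3 → ℝ → R3) : Fld := fun z s a =>
  ∫ r in (0 : ℝ)..1, φ (emb z r) (s / c) (Fin.castSucc a)

/-- Average over the third variable of a scalar function. -/
noncomputable def avs (ψ : R3 → ℝ) : (Fin 2 → ℝ) → ℝ := fun z => ∫ r in (0 : ℝ)..1, ψ (emb z r)

end ES

end

section

/-!
Project ES, Part III, module RAvgB: derivatives of the averages
(`hasFDerivAt_param`, chain rule with the affine map `(z, r) ↦ emb z r` and `s ↦ s/c`).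
-/

open MeasureTheory Set EulerTimes

namespace ES

private theorem RAvgB_emb_smooth (n : WithTop ℕ∞) :
    ContDiff ℝ n fun p : (Fin 2 → ℝ) × ℝ => emb p.1 p.2 := by
  rw [contDiff_euclidean]
  intro i
  have h0 : ContDiff ℝ n fun p : (Fin 2 → ℝ) × ℝ => p.1 0 :=
    (contDiff_apply ℝ ℝ (0 : Fin 2)).comp contDiff_fst
  have h1 : ContDiff ℝ n fun p : (Fin 2 → ℝ) × ℝ => p.1 1 :=
    (contDiff_apply ℝ ℝ (1 : Fin 2)).comp contDiff_fst
  fin_cases i
  · exact h0.div_const _
  · exact h1.div_const _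
  · exact contDiff_snd

private theorem RAvgB_key {E : Type} [NormedAddCommGroup E] [NormedSpace ℝ E]
    [FiniteDimensional ℝ E] (f : E × ℝ → ℝ) (hf : ContDiff ℝ 1 f) (x v : E) :
    fderiv ℝ (fun x => ∫ r in (0 : ℝ)..1, f (x, r)) x v =
      ∫ r in (0 : ℝ)..1, fderiv ℝ (fun y => f (y, r)) x v := by
  rw [(hasFDerivAt_param f hf x).fderiv, ContinuousLinearMap.intervalIntegral_apply]
  · refine intervalIntegral.integral_congr fun r _ => ?_
    have h1 : HasFDerivAt f (fderiv ℝ f (x, r)) (x, r) :=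
      (hf.differentiable (by norm_num) (x, r)).hasFDerivAt
    have h2 : HasFDerivAt (fun e : E => (e, r)) (ContinuousLinearMap.inl ℝ E ℝ) x :=
      hasFDerivAt_prodMk_left x r
    have h3 : fderiv ℝ (fun y => f (y, r)) x =
        (fderiv ℝ f (x, r)).comp (ContinuousLinearMap.inl ℝ E ℝ) :=
      (HasFDerivAt.comp (g := f) x h1 h2).fderiv
    change _ = fderiv ℝ (fun y => f (y, r)) x v
    rw [h3]
  · have hc : Continuous fun r : ℝ => (fderiv ℝ f (x, r)).comp (ContinuousLinearMap.inl ℝ E ℝ) := by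
      refine Continuous.clm_comp ?_ continuous_const
      exact (hf.continuous_fderiv (by norm_num)).comp (continuous_const.prodMk continuous_id)
    exact hc.intervalIntegrable _ _

/-- The linear part of `emb`. -/
private noncomputable def RAvgB_A : (Fin 2 → ℝ) →ₗ[ℝ] R3 where
  toFun y := WithLp.toLp 2 ![y 0 / (2 * Real.pi), y 1 / (2 * Real.pi), 0]
  map_add' y z := by
    ext i
    fin_cases i <;> simp [add_div]
  map_smul' c y := by
    ext i
    fin_cases i <;> simp [mul_div_assoc]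

private theorem RAvgB_emb (y : Fin 2 → ℝ) (r : ℝ) :
    emb y r = RAvgB_A.toContinuousLinearMap y + emb 0 r := by
  change emb y r = WithLp.toLp 2 ![y 0 / (2 * Real.pi), y 1 / (2 * Real.pi), 0] + emb 0 r
  unfold emb
  ext i
  fin_cases i <;> simp

private theorem RAvgB_single (b : Fin 2) :
    RAvgB_A.toContinuousLinearMap (Pi.single b 1) =
      (2 * Real.pi)⁻¹ • EuclideanSpace.single (Fin.castSucc b) (1 : ℝ) := by
  change WithLp.toLp 2 ![(Pi.single b 1 : Fin 2 → ℝ) 0 / (2 * Real.pi),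
    (Pi.single b 1 : Fin 2 → ℝ) 1 / (2 * Real.pi), 0] = _
  ext i
  fin_cases b <;> fin_cases i <;> simp

private theorem RAvgB_lin (G : R3 → ℝ) (hG : Differentiable ℝ G) (z : Fin 2 → ℝ) (r : ℝ)
    (b : Fin 2) : fderiv ℝ (fun y => G (emb y r)) z (Pi.single b 1) =
      (2 * Real.pi)⁻¹ * pd (Fin.castSucc b) G (emb z r) := by
  have h1 : HasFDerivAt (fun y => emb y r) RAvgB_A.toContinuousLinearMap z := by
    have h2 := (RAvgB_A.toContinuousLinearMap.hasFDerivAt (x := z)).add_const (emb 0 r)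
    refine h2.congr_of_eventuallyEq (Filter.Eventually.of_forall fun y => ?_)
    exact RAvgB_emb y r
  have h3 := ((hG (emb z r)).hasFDerivAt.comp z h1).fderiv
  have h4 : fderiv ℝ (fun y => G (emb y r)) z =
      (fderiv ℝ G (emb z r)).comp RAvgB_A.toContinuousLinearMap := h3
  rw [h4, ContinuousLinearMap.comp_apply, RAvgB_single, map_smul, smul_eq_mul]
  rfl

private theorem RAvgB_coord (i : Fin 3) (n : WithTop ℕ∞) : ContDiff ℝ n fun x : R3 => x i :=
  (contDiff_euclidean.1 (contDiff_id (𝕜 := ℝ) (E := R3) (n := n))) i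

/-- Derivatives of the average. -/
theorem avg_deriv {c T : ℝ} (hc : 0 < c) {φ : R3 → ℝ → R3} (hφ : TestField T φ)
    (z : Fin 2 → ℝ) (s : ℝ) (a : Fin 2) :
    deriv (fun s => avg c φ z s a) s =
      c⁻¹ * ∫ r in (0 : ℝ)..1, deriv (fun s => φ (emb z r) s (Fin.castSucc a)) (s / c) := by
  have hf : ContDiff ℝ 1 fun p : ℝ × ℝ => φ (emb z p.2) (p.1 / c) (Fin.castSucc a) := by
    have h1 : ContDiff ℝ 1 fun p : R3 × ℝ => φ p.1 p.2 := by exact_mod_cast hφ.smooth 1
    have h2 : ContDiff ℝ 1 fun p : ℝ × ℝ => emb z p.2 :=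
      (RAvgB_emb_smooth 1).comp (contDiff_const.prodMk contDiff_snd)
    exact (RAvgB_coord _ 1).comp (h1.comp (h2.prodMk (contDiff_fst.div_const c)))
  have h3 := RAvgB_key (fun p : ℝ × ℝ => φ (emb z p.2) (p.1 / c) (Fin.castSucc a)) hf s 1
  rw [fderiv_apply_one_eq_deriv] at h3
  change deriv (fun s => avg c φ z s a) s = _ at h3
  rw [h3, ← intervalIntegral.integral_const_mul]
  refine intervalIntegral.integral_congr fun r _ => ?_
  change fderiv ℝ (fun y => φ (emb z r) (y / c) (Fin.castSucc a)) s 1 =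
    c⁻¹ * deriv (fun s => φ (emb z r) s (Fin.castSucc a)) (s / c)
  rw [fderiv_apply_one_eq_deriv]
  have h4 := deriv_comp_mul_left c⁻¹ (fun s => φ (emb z r) s (Fin.castSucc a)) s
  simp only [div_eq_inv_mul]
  rw [h4, smul_eq_mul]

theorem avg_fderiv {c T : ℝ} (hc : 0 < c) {φ : R3 → ℝ → R3} (hφ : TestField T φ)
    (z : Fin 2 → ℝ) (s : ℝ) (a b : Fin 2) :
    fderiv ℝ (fun y => avg c φ y s a) z (Pi.single b 1) =
      (2 * Real.pi)⁻¹ * ∫ r in (0 : ℝ)..1,
        pd (Fin.castSucc b) (fun y => φ y (s / c) (Fin.castSucc a)) (emb z r) := by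
  have h1 : ContDiff ℝ 1 fun p : R3 × ℝ => φ p.1 p.2 := by exact_mod_cast hφ.smooth 1
  have hG : ContDiff ℝ 1 fun y : R3 => φ y (s / c) (Fin.castSucc a) :=
    (RAvgB_coord _ 1).comp (h1.comp (contDiff_id.prodMk contDiff_const))
  have hf : ContDiff ℝ 1 fun p : (Fin 2 → ℝ) × ℝ =>
      φ (emb p.1 p.2) (s / c) (Fin.castSucc a) := hG.comp (RAvgB_emb_smooth 1)
  have h3 := RAvgB_key (fun p : (Fin 2 → ℝ) × ℝ => φ (emb p.1 p.2) (s / c) (Fin.castSucc a))
    hf z (Pi.single b 1)
  change fderiv ℝ (fun y => avg c φ y s a) z (Pi.single b 1) = _ at h3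
  rw [h3, ← intervalIntegral.integral_const_mul]
  refine intervalIntegral.integral_congr fun r _ => ?_
  exact RAvgB_lin _ (hG.differentiable (by norm_num)) z r b

/-- The average of a scalar test function. -/
theorem avs_smooth {ψ : R3 → ℝ} (hψ : ∀ n : ℕ, ContDiff ℝ n ψ) : ContDiff ℝ 2 (avs ψ) := by
  have h := contDiff_param 2 (fun p : (Fin 2 → ℝ) × ℝ => ψ (emb p.1 p.2))
    ((hψ 2).comp (RAvgB_emb_smooth _))
  exact_mod_cast h

theorem avs_fderiv {ψ : R3 → ℝ} (hψ : ∀ n : ℕ, ContDiff ℝ n ψ) (z : Fin 2 → ℝ) (b : Fin 2) :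
    fderiv ℝ (avs ψ) z (Pi.single b 1) =
      (2 * Real.pi)⁻¹ * ∫ r in (0 : ℝ)..1, pd (Fin.castSucc b) ψ (emb z r) := by
  have h1 : ContDiff ℝ 1 ψ := by exact_mod_cast hψ 1
  have h3 := RAvgB_key (fun p : (Fin 2 → ℝ) × ℝ => ψ (emb p.1 p.2))
    (h1.comp (RAvgB_emb_smooth 1)) z (Pi.single b 1)
  change fderiv ℝ (avs ψ) z (Pi.single b 1) = _ at h3
  rw [h3, ← intervalIntegral.integral_const_mul]
  refine intervalIntegral.integral_congr fun r _ => ?_
  exact RAvgB_lin _ (h1.differentiable (by norm_num)) z r b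

theorem avs_periodic {ψ : R3 → ℝ} (hp : Periodic3 ψ) (z : Fin 2 → ℝ) (n : Fin 2 → ℤ) :
    avs ψ (fun a => z a + 2 * Real.pi * n a) = avs ψ z := by
  unfold avs
  refine intervalIntegral.integral_congr fun r _ => ?_
  have h1 : emb (fun a => z a + 2 * Real.pi * n a) r =
      emb z r + WithLp.toLp 2 fun i => ((![n 0, n 1, 0] : Fin 3 → ℤ) i : ℝ) := by
    have hpi : (2 * Real.pi) ≠ 0 := by positivity
    unfold emb
    ext i
    fin_cases i
    · simp [add_div, mul_div_cancel_left₀ _ hpi]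
    · simp [add_div, mul_div_cancel_left₀ _ hpi]
    · simp
  change ψ (emb (fun a => z a + 2 * Real.pi * n a) r) = ψ (emb z r)
  rw [h1]
  exact hp (emb z r) ![n 0, n 1, 0]

end ES

end

section

/-!
Project ES, Part III, module RAvgE: integration over the cell in the coordinates `(z, r)`.

Transfer `EuclideanSpace ℝ (Fin 3)` to `Fin 3 → ℝ` (`EuclideanSpace.volume_preserving_symm_measurableEquiv_toLp` or the
current name) and to `(Fin 2 → ℝ) × ℝ` (`MeasureTheory.volume_preserving_piFinSuccAbove` at the last index),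
Fubini, scaling by `2π` in the first two coordinates; half open and closed boxes agree a.e.
-/

open MeasureTheory Set EulerTimes
open scoped Pointwise

namespace ES

private theorem RAvgE_ae : (Set.pi Set.univ (fun _ : Fin 2 => Ico (0 : ℝ) 1)) =ᵐ[volume]
    (Icc 0 (fun _ => 1) : Set (Fin 2 → ℝ)) := by
  have h := Measure.univ_pi_Ico_ae_eq_Icc (μ := fun _ : Fin 2 => (volume : Measure ℝ))
    (f := fun _ => (0 : ℝ)) (g := fun _ => (1 : ℝ))
  exact h

private theorem RAvgE_smul : (2 * Real.pi) • (Icc 0 (fun _ => 1) : Set (Fin 2 → ℝ)) = Bx := by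
  have hp : (0 : ℝ) < 2 * Real.pi := by positivity
  unfold Bx
  ext z
  rw [Set.mem_smul_set_iff_inv_smul_mem₀ hp.ne']
  simp only [mem_Icc, Pi.le_def, Pi.smul_apply, smul_eq_mul, Pi.zero_apply]
  have h1 : ∀ t : ℝ, (0 ≤ (2 * Real.pi)⁻¹ * t ↔ 0 ≤ t) := fun t => by
    rw [mul_nonneg_iff_of_pos_left (inv_pos.2 hp)]
  have h2 : ∀ t : ℝ, ((2 * Real.pi)⁻¹ * t ≤ 1 ↔ t ≤ 2 * Real.pi) := fun t => by
    rw [inv_mul_le_iff₀ hp, mul_one]
  simp only [h1, h2]

/-- From the cell to the plane times the line. -/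
private theorem RAvgE_one {f : R3 → ℝ} (hf : Continuous f) :
    ∫ x in Cell, f x = ∫ z in (Set.pi Set.univ (fun _ : Fin 2 => Ico (0 : ℝ) 1)),
      ∫ r in Ico (0 : ℝ) 1, f (WithLp.toLp 2 ![z 0, z 1, r]) := by
  -- the first step: to `Fin 3 → ℝ`
  set g : (Fin 3 → ℝ) → ℝ := fun y => f (WithLp.toLp 2 y) with hg
  have hgc : Continuous g := hf.comp (PiLp.continuous_toLp 2 _)
  have e1 : ∫ x in Cell, f x = ∫ y in Set.pi Set.univ (fun _ : Fin 3 => Ico (0 : ℝ) 1), g y := by
    have h1 := (PiLp.volume_preserving_toLp (Fin 3)).setIntegral_preimage_emb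
      (MeasurableEquiv.toLp 2 (Fin 3 → ℝ)).measurableEmbedding f Cell
    rw [← h1]
    have h2 : (WithLp.toLp 2 : (Fin 3 → ℝ) → R3) ⁻¹' Cell =
        Set.pi Set.univ (fun _ : Fin 3 => Ico (0 : ℝ) 1) := by
      ext y
      simp only [mem_preimage, Cell, mem_ofPred_eq, Set.mem_pi, Set.mem_univ, true_implies]
    rw [h2]
  rw [e1]
  -- the second step: to the product
  have hmp := (volume_preserving_piFinSuccAbove (fun _ : Fin 3 => ℝ) (Fin.last 2)).symm
  have h3 := hmp.setIntegral_preimage_emb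
    (MeasurableEquiv.piFinSuccAbove (fun _ : Fin 3 => ℝ) (Fin.last 2)).symm.measurableEmbedding g
    (Set.pi Set.univ (fun _ : Fin 3 => Ico (0 : ℝ) 1))
  rw [← h3]
  have h4 : ∀ p : ℝ × (Fin 2 → ℝ),
      (MeasurableEquiv.piFinSuccAbove (fun _ : Fin 3 => ℝ) (Fin.last 2)).symm p =
        ![p.2 0, p.2 1, p.1] := by
    intro p
    funext i
    fin_cases i <;> rfl
  have h5 : (MeasurableEquiv.piFinSuccAbove (fun _ : Fin 3 => ℝ) (Fin.last 2)).symm ⁻¹'
      (Set.pi Set.univ (fun _ : Fin 3 => Ico (0 : ℝ) 1)) =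
      (Ico (0 : ℝ) 1) ×ˢ (Set.pi Set.univ (fun _ : Fin 2 => Ico (0 : ℝ) 1)) := by
    ext p
    rw [mem_preimage, h4, mem_prod]
    constructor
    · intro h
      refine ⟨h 2 (Set.mem_univ _), fun i _ => ?_⟩
      fin_cases i
      · exact h 0 (Set.mem_univ _)
      · exact h 1 (Set.mem_univ _)
    · rintro ⟨c, d⟩ i _
      fin_cases i
      · exact d 0 (Set.mem_univ _)
      · exact d 1 (Set.mem_univ _)
      · exact c
  rw [h5]
  simp only [h4]
  -- Fubini
  set P : Set (Fin 2 → ℝ) := Set.pi Set.univ (fun _ : Fin 2 => Ico (0 : ℝ) 1) with hP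
  have hG : Continuous fun p : (Fin 2 → ℝ) × ℝ => g ![p.1 0, p.1 1, p.2] := by
    refine hgc.comp ?_
    refine continuous_pi fun i => ?_
    fin_cases i
    · change Continuous fun p : (Fin 2 → ℝ) × ℝ => p.1 0
      exact (continuous_apply 0).comp continuous_fst
    · change Continuous fun p : (Fin 2 → ℝ) × ℝ => p.1 1
      exact (continuous_apply 1).comp continuous_fst
    · change Continuous fun p : (Fin 2 → ℝ) × ℝ => p.2
      exact continuous_snd
  have h6 := setIntegral_prod_swap (μ := (volume : Measure (Fin 2 → ℝ)))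
    (ν := (volume : Measure ℝ)) P (Ico (0 : ℝ) 1)
    (fun p : (Fin 2 → ℝ) × ℝ => g ![p.1 0, p.1 1, p.2])
  simp only [Prod.fst_swap, Prod.snd_swap] at h6
  have h7 : ∫ p in (Ico (0 : ℝ) 1) ×ˢ P, g ![p.2 0, p.2 1, p.1] =
      ∫ p in P ×ˢ (Ico (0 : ℝ) 1), g ![p.1 0, p.1 1, p.2] := h6
  rw [h7]
  have hint : IntegrableOn (fun p : (Fin 2 → ℝ) × ℝ => g ![p.1 0, p.1 1, p.2])
      (P ×ˢ (Ico (0 : ℝ) 1)) (volume.prod volume) := by
    have hK : IsCompact ((Icc 0 (fun _ => 1) : Set (Fin 2 → ℝ)) ×ˢ (Icc (0 : ℝ) 1)) :=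
      isCompact_Icc.prod isCompact_Icc
    have h8 : IntegrableOn (fun p : (Fin 2 → ℝ) × ℝ => g ![p.1 0, p.1 1, p.2])
        ((Icc 0 (fun _ => 1) : Set (Fin 2 → ℝ)) ×ˢ (Icc (0 : ℝ) 1)) (volume.prod volume) :=
      hG.continuousOn.integrableOn_compact hK
    refine h8.mono_set (Set.prod_mono ?_ Ico_subset_Icc_self)
    intro z hz
    rw [hP] at hz
    exact ⟨fun i => (hz i (Set.mem_univ i)).1, fun i => (hz i (Set.mem_univ i)).2.le⟩
  exact setIntegral_prod _ hint

theorem cell_integral {f : R3 → ℝ} (hf : Continuous f) :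
    ∫ x in Cell, f x = ((2 * Real.pi) ^ 2)⁻¹ * ∫ z in Bx, ∫ r in (0 : ℝ)..1, f (emb z r) := by
  have hp : (0 : ℝ) < 2 * Real.pi := by positivity
  rw [RAvgE_one hf, setIntegral_congr_set RAvgE_ae]
  have h1 := Measure.setIntegral_comp_smul (volume : Measure (Fin 2 → ℝ))
    (fun z => ∫ r in (0 : ℝ)..1, f (emb z r)) (Icc 0 (fun _ => 1) : Set (Fin 2 → ℝ)) hp.ne'
  rw [RAvgE_smul, Module.finrank_fin_fun, smul_eq_mul, abs_of_pos (by positivity)] at h1
  rw [← h1]
  congr 1
  funext z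
  have h2 : ∀ r : ℝ, emb ((2 * Real.pi) • z) r = WithLp.toLp 2 ![z 0, z 1, r] := by
    intro r
    unfold emb
    have h3 : ∀ t : ℝ, 2 * Real.pi * t / (2 * Real.pi) = t := fun t =>
      mul_div_cancel_left₀ t hp.ne'
    simp only [Pi.smul_apply, smul_eq_mul, h3]
  simp only [h2]
  rw [intervalIntegral.integral_of_le zero_le_one, ← integral_Icc_eq_integral_Ioc,
    integral_Icc_eq_integral_Ico]

end ES

end

section

/-!
Project ES, Part III, module RInitB: bound and energy of the initial field.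
`∫_Bx sin²(x_1) > 0` (continuous, non-negative, not zero), at `t = 0` times `1`, at `t = T0` times `4`.
-/

open MeasureTheory Set

namespace ES

private theorem RInitB_clp {T0 : ℝ} (hT : 1 ≤ T0) (t : ℝ) :
    0 ≤ clp 0 T0 t / T0 ∧ clp 0 T0 t / T0 ≤ 1 := by
  have h0 : 0 < T0 := by linarith
  have h1 : 0 ≤ clp 0 T0 t := le_max_left _ _
  have h2 : clp 0 T0 t ≤ T0 := max_le h0.le (min_le_left _ _)
  exact ⟨div_nonneg h1 h0.le, (div_le_one h0).2 h2⟩

theorem Vin_bdd {T0 : ℝ} (hT : 1 ≤ T0) (x : Fin 2 → ℝ) (t : ℝ) (a : Fin 2) :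
    |Vin T0 x t a| ≤ 2 := by
  obtain ⟨h1, h2⟩ := RInitB_clp hT t
  unfold Vin
  split_ifs with h
  · rw [abs_mul, abs_of_nonneg (by linarith)]
    have h3 := Real.abs_sin_le_one (x 1)
    have h4 := abs_nonneg (Real.sin (x 1))
    nlinarith
  · rw [abs_zero]
    norm_num

private theorem RInitB_sin_pos : 0 < ∫ x in Bx, Real.sin (x 1) ^ 2 := by
  have hc : Continuous fun x : Fin 2 → ℝ => Real.sin (x 1) ^ 2 := by fun_prop
  have hcomp : IsCompact Bx := isCompact_Icc
  have hint : IntegrableOn (fun x : Fin 2 → ℝ => Real.sin (x 1) ^ 2) Bx :=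
    hc.continuousOn.integrableOn_compact hcomp
  rw [setIntegral_pos_iff_support_of_nonneg_ae
    (Filter.Eventually.of_forall fun x => sq_nonneg _) hint]
  have hU : IsOpen (Set.pi Set.univ (fun _ : Fin 2 => Set.Ioo (0 : ℝ) Real.pi)) :=
    isOpen_set_pi Set.finite_univ fun _ _ => isOpen_Ioo
  have hne : (Set.pi Set.univ (fun _ : Fin 2 => Set.Ioo (0 : ℝ) Real.pi)).Nonempty :=
    ⟨fun _ => Real.pi / 2, fun _ _ => ⟨by positivity, by linarith [Real.pi_pos]⟩⟩
  refine lt_of_lt_of_le (hU.measure_pos volume hne) (measure_mono ?_)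
  intro x hx
  refine ⟨?_, ?_, ?_⟩
  · have h := hx 1 (Set.mem_univ _)
    exact pow_ne_zero 2 (Real.sin_pos_of_mem_Ioo h).ne'
  · intro a
    exact (hx a (Set.mem_univ _)).1.le
  · intro a
    have h := (hx a (Set.mem_univ _)).2
    show x a ≤ 2 * Real.pi
    linarith [Real.pi_pos]

theorem Vin_energy {T0 : ℝ} (hT : 1 ≤ T0) :
    ∫ x in Bx, ∑ a, Vin T0 x 0 a ^ 2 ≠ ∫ x in Bx, ∑ a, Vin T0 x T0 a ^ 2 := by
  have h0 : 0 < T0 := by linarith
  have e0 : clp 0 T0 0 = 0 := by
    unfold clp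
    rw [min_eq_right h0.le, max_self]
  have e1 : clp 0 T0 T0 = T0 := by
    unfold clp
    rw [min_self, max_eq_right h0.le]
  have h1 : ∀ x : Fin 2 → ℝ, ∑ a, Vin T0 x 0 a ^ 2 = Real.sin (x 1) ^ 2 := by
    intro x
    rw [Fin.sum_univ_two]
    simp [Vin, e0]
  have h2 : ∀ x : Fin 2 → ℝ, ∑ a, Vin T0 x T0 a ^ 2 = 4 * Real.sin (x 1) ^ 2 := by
    intro x
    rw [Fin.sum_univ_two]
    simp only [Vin, e1, if_true, div_self h0.ne', one_ne_zero, if_false]
    ring
  simp_rw [h1, h2]
  rw [integral_const_mul]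
  have h3 := RInitB_sin_pos
  intro h4
  linarith

end ES

end

section

/-!
ES-V06 (Part II, helper27): change of variables on the periodic box.

`X` is a bijection of the plane, differentiable with determinant one, commuting with the
translations by `2π ℤ²`.  Then `∫_{Bx} g(X z) dz = ∫_{Bx} g` for continuous periodic `g`.

Proof.  Let `b` be the basis `2π e_i` of `Fin 2 → ℝ` and `Δ = ZSpan.fundamentalDomain b`
(`= {x | ∀ i, 0 ≤ x i < 2π}`, equal to `Bx` up to a null set: `Bx \ Δ` is contained in two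
hyperplanes; e.g. `MeasureTheory.Measure.univ_pi_Ico_ae_eq_Icc` or `volume` of the difference).
`ZSpan.isAddFundamentalDomain b volume`.  The set `X '' Δ` is a fundamental domain of the same
lattice: measurable (`MeasureTheory.measurable_image_of_fderivWithin`), and every `x` has exactly
one lattice translate in `X '' Δ` (apply `X⁻¹`, which commutes with the translations):
`MeasureTheory.IsAddFundamentalDomain.mk'`.  Hence `∫_{X''Δ} g = ∫_Δ g`
(`IsAddFundamentalDomain.setIntegral_eq`), and `∫_{X''Δ} g = ∫_Δ |det X'| g(X z) dz`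
(`MeasureTheory.integral_image_eq_integral_abs_det_fderiv_smul`).
(If you find another route, e.g. covering by boxes, it is welcome.)
-/

open MeasureTheory

namespace ES

/-- The homomorphism of the lattice. -/
private noncomputable def v06_hom : (Fin 2 → ℤ) →+ (Fin 2 → ℝ) where
  toFun n := fun a => 2 * Real.pi * n a
  map_zero' := by
    funext a
    simp
  map_add' m n := by
    funext a
    simp only [Pi.add_apply]
    push_cast
    ring

/-- The lattice. -/
private noncomputable def v06_L : AddSubgroup (Fin 2 → ℝ) := v06_hom.range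

private instance : Countable v06_L := by
  unfold v06_L
  exact Set.countable_coe_iff.2 (Set.countable_range v06_hom)

/-- The half open box. -/
private def v06_D : Set (Fin 2 → ℝ) :=
  Set.pi Set.univ (fun _ => Set.Ico (0 : ℝ) (2 * Real.pi))

private theorem v06_D_meas : MeasurableSet v06_D :=
  MeasurableSet.univ_pi (fun _ => measurableSet_Ico)

private theorem v06_D_ae : (v06_D : Set (Fin 2 → ℝ)) =ᵐ[volume] Bx := by
  have h := Measure.univ_pi_Ico_ae_eq_Icc (μ := fun _ : Fin 2 => (volume : Measure ℝ))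
    (f := fun _ => (0 : ℝ)) (g := fun _ => 2 * Real.pi)
  exact h

private theorem v06_exists (x : Fin 2 → ℝ) : ∃! g : v06_L, g +ᵥ x ∈ v06_D := by
  have hp : (0 : ℝ) < 2 * Real.pi := by positivity
  have hmem : ∀ n : Fin 2 → ℤ, v06_hom n ∈ v06_L := fun n => ⟨n, rfl⟩
  have h1 : ∀ a : Fin 2, ∃! m : ℤ, x a + m • (2 * Real.pi) ∈ Set.Ico (0 : ℝ) (0 + 2 * Real.pi) :=
    fun a => existsUnique_add_zsmul_mem_Ico hp (x a) 0
  choose n hn hu using h1
  refine ⟨⟨v06_hom n, hmem n⟩, ?_, ?_⟩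
  · intro a _
    have h2 := hn a
    simp only [zero_add, zsmul_eq_mul] at h2
    change 2 * Real.pi * (n a : ℝ) + x a ∈ Set.Ico (0 : ℝ) (2 * Real.pi)
    have e : 2 * Real.pi * (n a : ℝ) + x a = x a + n a * (2 * Real.pi) := by ring
    rw [e]
    exact h2
  · rintro ⟨y, ⟨m, rfl⟩⟩ hy
    apply Subtype.ext
    change v06_hom m = v06_hom n
    congr 1
    funext a
    refine hu a (m a) ?_
    have h3 := hy a (Set.mem_univ a)
    change 2 * Real.pi * (m a : ℝ) + x a ∈ Set.Ico (0 : ℝ) (2 * Real.pi) at h3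
    simp only [zero_add, zsmul_eq_mul]
    have e : 2 * Real.pi * (m a : ℝ) + x a = x a + m a * (2 * Real.pi) := by ring
    rw [e] at h3
    exact h3

theorem integral_comp_periodic {X : (Fin 2 → ℝ) → (Fin 2 → ℝ)}
    {X' : (Fin 2 → ℝ) → ((Fin 2 → ℝ) →L[ℝ] (Fin 2 → ℝ))}
    (hbij : Function.Bijective X) (hd : ∀ z, HasFDerivAt X (X' z) z) (hdet : ∀ z, (X' z).det = 1)
    (hper : ∀ z (n : Fin 2 → ℤ), X (fun a => z a + 2 * Real.pi * n a)
      = fun a => X z a + 2 * Real.pi * n a)
    {g : (Fin 2 → ℝ) → ℝ} (hg : Continuous g)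
    (hgp : ∀ x (n : Fin 2 → ℤ), g (fun a => x a + 2 * Real.pi * n a) = g x) :
    ∫ z in Bx, g (X z) = ∫ x in Bx, g x := by
  have hXg : ∀ (y : v06_L) (z : Fin 2 → ℝ), y +ᵥ X z = X (y +ᵥ z) := by
    rintro ⟨y, ⟨n, rfl⟩⟩ z
    have h1 := hper z n
    have e1 : (⟨v06_hom n, ⟨n, rfl⟩⟩ : v06_L) +ᵥ z = fun a => z a + 2 * Real.pi * n a := by
      funext a
      change 2 * Real.pi * (n a : ℝ) + z a = _
      ring
    have e2 : (⟨v06_hom n, ⟨n, rfl⟩⟩ : v06_L) +ᵥ X z = fun a => X z a + 2 * Real.pi * n a := by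
      funext a
      change 2 * Real.pi * (n a : ℝ) + X z a = _
      ring
    rw [e1, e2, h1]
  have hgg : ∀ (y : v06_L) (z : Fin 2 → ℝ), g (y +ᵥ z) = g z := by
    rintro ⟨y, ⟨n, rfl⟩⟩ z
    have e1 : (⟨v06_hom n, ⟨n, rfl⟩⟩ : v06_L) +ᵥ z = fun a => z a + 2 * Real.pi * n a := by
      funext a
      change 2 * Real.pi * (n a : ℝ) + z a = _
      ring
    rw [e1, hgp]
  have hD : IsAddFundamentalDomain v06_L v06_D (volume : Measure (Fin 2 → ℝ)) :=
    IsAddFundamentalDomain.mk' v06_D_meas.nullMeasurableSet v06_exists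
  have himg : MeasurableSet (X '' v06_D) :=
    measurable_image_of_fderivWithin v06_D_meas (fun z _ => (hd z).hasFDerivWithinAt)
      hbij.1.injOn
  have hXD : IsAddFundamentalDomain v06_L (X '' v06_D) (volume : Measure (Fin 2 → ℝ)) := by
    refine IsAddFundamentalDomain.mk' himg.nullMeasurableSet ?_
    intro x
    obtain ⟨z, rfl⟩ := hbij.2 x
    obtain ⟨y, hy, hyu⟩ := v06_exists z
    refine ⟨y, ?_, ?_⟩
    · change y +ᵥ X z ∈ X '' v06_D
      rw [hXg]
      exact ⟨_, hy, rfl⟩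
    · intro y' hy'
      refine hyu y' ?_
      change y' +ᵥ X z ∈ X '' v06_D at hy'
      rw [hXg] at hy'
      obtain ⟨u, hu, hue⟩ := hy'
      rw [hbij.1 hue] at hu
      exact hu
  calc ∫ z in Bx, g (X z) = ∫ z in v06_D, g (X z) := (setIntegral_congr_set v06_D_ae).symm
    _ = ∫ z in v06_D, |(X' z).det| • g (X z) := by
        refine setIntegral_congr_fun v06_D_meas (fun z _ => ?_)
        simp only [hdet, abs_one, one_smul]
    _ = ∫ x in X '' v06_D, g x :=
        (integral_image_eq_integral_abs_det_fderiv_smul volume v06_D_meas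
          (fun z _ => (hd z).hasFDerivWithinAt) hbij.1.injOn g).symm
    _ = ∫ x in v06_D, g x := hXD.setIntegral_eq hD hgg
    _ = ∫ x in Bx, g x := setIntegral_congr_set v06_D_ae

theorem volume_Bx : volume Bx = ENNReal.ofReal ((2 * Real.pi) ^ 2) := by
  unfold Bx
  rw [Real.volume_Icc_pi]
  simp only [Pi.zero_apply, sub_zero, Finset.prod_const, Finset.card_univ, Fintype.card_fin]
  rw [ENNReal.ofReal_pow (by positivity)]

theorem isCompact_Bx : IsCompact Bx := isCompact_Icc

theorem abs_integral_Bx_le {g : (Fin 2 → ℝ) → ℝ} {C : ℝ} (h : ∀ x, |g x| ≤ C) :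
    |∫ x in Bx, g x| ≤ C * (2 * Real.pi) ^ 2 := by
  have h1 : volume Bx < ⊤ := by
    rw [volume_Bx]
    exact ENNReal.ofReal_lt_top
  have h2 := norm_setIntegral_le_of_norm_le_const (μ := (volume : Measure (Fin 2 → ℝ))) (f := g)
    h1 (fun x _ => h x)
  have h3 : (volume : Measure (Fin 2 → ℝ)).real Bx = (2 * Real.pi) ^ 2 := by
    rw [Measure.real, volume_Bx, ENNReal.toReal_ofReal (by positivity)]
  rw [h3] at h2
  exact h2

end ES

end

section

/-!
ES-V07 (Part II, helper27): periodic integration by parts on the box.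

`integral_partial_zero`: divergence theorem on the box `[0,2π]^2`
(`MeasureTheory.integral_divergence_of_hasFDerivAt_off_countable'` with `n = 1`,
`Fin (n+1) → ℝ`, the field having `G` as component `b` and `0` as the other one); the two face
integrals cancel by periodicity.  Alternatively Fubini and the fundamental theorem in one variable.
`integral_by_parts`: apply it to the product.
-/

open MeasureTheory

namespace ES

/-- Periodic with period `2π` in each variable. -/
def Per {E : Type*} (G : (Fin 2 → ℝ) → E) : Prop :=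
  ∀ x (n : Fin 2 → ℤ), G (fun a => x a + 2 * Real.pi * n a) = G x

theorem integral_partial_zero {G : (Fin 2 → ℝ) → ℝ} (hG : ContDiff ℝ 1 G) (hp : Per G)
    (b : Fin 2) : ∫ x in Bx, fderiv ℝ G x (Pi.single b 1) = 0 := by
  have hdiff : Differentiable ℝ G := hG.differentiable (by norm_num)
  have hcf : Continuous (fun x => fderiv ℝ G x) := hG.continuous_fderiv (by norm_num)
  have hle : (0 : Fin 2 → ℝ) ≤ (fun _ => 2 * Real.pi) := by
    intro i
    simp only [Pi.zero_apply]
    positivity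
  have hsum : ∀ x : Fin 2 → ℝ,
      ∑ i : Fin 2, (if i = b then fderiv ℝ G x else 0) (Pi.single i 1)
        = fderiv ℝ G x (Pi.single b 1) := by
    intro x
    rw [Finset.sum_eq_single b]
    · simp
    · intro i _ hi
      simp [hi]
    · intro h
      exact absurd (Finset.mem_univ b) h
  have key := integral_divergence_of_hasFDerivAt_off_countable' (n := 1) (E := ℝ)
    (0 : Fin 2 → ℝ) (fun _ => 2 * Real.pi) hle
    (fun i x => if i = b then G x else 0)
    (fun i x => if i = b then fderiv ℝ G x else 0) ∅ Set.countable_empty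
    (by
      intro i
      by_cases h : i = b
      · simp only [h, if_true]
        exact hdiff.continuous.continuousOn
      · simp only [h, if_false]
        exact continuousOn_const)
    (by
      intro x _ i
      by_cases h : i = b
      · simp only [h, if_true]
        exact (hdiff x).hasFDerivAt
      · simp only [h, if_false]
        exact hasFDerivAt_const _ _)
    (by
      simp only [hsum]
      exact ((hcf.clm_apply continuous_const).continuousOn).integrableOn_compact isCompact_Icc)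
  simp only [hsum] at key
  unfold Bx
  rw [key]
  apply Finset.sum_eq_zero
  intro i _
  by_cases h : i = b
  · simp only [h, if_true]
    rw [sub_eq_zero]
    apply integral_congr_ae
    filter_upwards with x
    have := hp (b.insertNth (0 : ℝ) x) (Pi.single b 1)
    rw [show ((0 : Fin 2 → ℝ) i) = 0 from rfl]
    rw [← this]
    congr 1
    funext a
    by_cases ha : a = b
    · subst ha
      simp
    · obtain ⟨c, hc⟩ := Fin.exists_succAbove_eq ha
      subst hc
      simp
  · simp only [h, if_false]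
    simp

theorem integral_by_parts {G H : (Fin 2 → ℝ) → ℝ} (hG : ContDiff ℝ 1 G) (hp : Per G)
    (hH : ContDiff ℝ 1 H) (hq : Per H) (b : Fin 2) :
    ∫ x in Bx, fderiv ℝ G x (Pi.single b 1) * H x
      = -∫ x in Bx, G x * fderiv ℝ H x (Pi.single b 1) := by
  have hGd : Differentiable ℝ G := hG.differentiable (by norm_num)
  have hHd : Differentiable ℝ H := hH.differentiable (by norm_num)
  have hGf : Continuous (fun x => fderiv ℝ G x) := hG.continuous_fderiv (by norm_num)
  have hHf : Continuous (fun x => fderiv ℝ H x) := hH.continuous_fderiv (by norm_num)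
  have h0 := integral_partial_zero (G := fun x => G x * H x) (hG.mul hH)
    (by
      intro x n
      show G _ * H _ = G x * H x
      rw [hp x n, hq x n]) b
  have e1 : ∀ x : Fin 2 → ℝ, fderiv ℝ (fun x => G x * H x) x (Pi.single b 1)
      = fderiv ℝ G x (Pi.single b 1) * H x + G x * fderiv ℝ H x (Pi.single b 1) := by
    intro x
    rw [fderiv_fun_mul (hGd x) (hHd x)]
    simp
    ring
  simp only [e1] at h0
  rw [integral_add] at h0
  · linarith
  · exact ((((hGf.clm_apply continuous_const).mul hHd.continuous)).continuousOn).integrableOn_compact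
      isCompact_Icc
  · exact (((hGd.continuous.mul (hHf.clm_apply continuous_const))).continuousOn).integrableOn_compact
      isCompact_Icc

theorem Per.fderiv {E : Type*} [NormedAddCommGroup E] [NormedSpace ℝ E] {G : (Fin 2 → ℝ) → E}
    (hp : Per G) (w : Fin 2 → ℝ) : Per (fun x => _root_.fderiv ℝ G x w) := by
  intro x n
  show _root_.fderiv ℝ G (fun a => x a + 2 * Real.pi * n a) w = _root_.fderiv ℝ G x w
  have h1 : (fun y : Fin 2 → ℝ => G (y + (fun a => 2 * Real.pi * n a))) = G := by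
    funext y
    exact hp y n
  have h2 := fderiv_comp_add_right (𝕜 := ℝ) (f := G) (x := x) (fun a => 2 * Real.pi * (n a : ℝ))
  rw [h1] at h2
  rw [h2]
  rfl

end ES

end

section

/-!
ES-V16 (Part II, helper27): standard frequencies and Fourier coefficients of elements of `WT`.

`κs`: variable number 0 has frequency `(1,0)`, variable number 1 has frequency `(0,1)`, all others 0.
`ix m n`: the index `m e_0 + n e_1`.  `fc G m n`: Fourier coefficient on the box.
`fc_ev`: for `f` of level 2, `ev κs f x t = ∑_{m,n} f_{ix m n}(t) e^{i(m x_0 + n x_1)}` (all other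
coefficients vanish, `eq_ix`), absolutely convergent; integrate term by term
(`integral_tsum`/`hasSum_integral_of_summable_norm`) and use the orthogonality `integral_exp_Bx`
(Fubini, `∫_0^{2π} e^{i m x} dx = 2π δ_{m0}`).
-/

open MeasureTheory

namespace ES

/-- Standard frequencies. -/
def κs : Kp where
  k a j := if (a = 0 ∧ j = 0) ∨ (a = 1 ∧ j = 1) then 1 else 0
  bdd := ⟨1, fun a j => by split_ifs <;> simp⟩

noncomputable def ix (m n : ℤ) : Gx := Finsupp.single 0 m + Finsupp.single 1 n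

theorem ix_zero_apply (m n : ℤ) : ix m n 0 = m := by
  simp [ix]

theorem ix_one_apply (m n : ℤ) : ix m n 1 = n := by
  simp [ix]

theorem ix_injective {m n m' n' : ℤ} (h : ix m n = ix m' n') : m = m' ∧ n = n' := by
  constructor
  · rw [← ix_zero_apply m n, h, ix_zero_apply]
  · rw [← ix_one_apply m n, h, ix_one_apply]

private theorem v16_kap (a : Fin 2) (j0 : ℕ) (h : ∀ j : ℕ, κs.k a j = if j = j0 then 1 else 0)
    (ν : Gx) : kap κs a ν = ν j0 := by
  unfold kap Finsupp.sum
  simp only [h]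
  rw [Finset.sum_eq_single j0]
  · simp
  · intro j _ hj
    simp [hj]
  · intro hj
    simpa using hj

theorem kap_κs_zero (ν : Gx) : kap κs 0 ν = ν 0 := by
  apply v16_kap
  intro j
  simp [κs]

theorem kap_κs_one (ν : Gx) : kap κs 1 ν = ν 1 := by
  apply v16_kap
  intro j
  simp [κs]

theorem eq_ix {ν : Gx} (h : ¬ ∃ j, 2 ≤ j ∧ ν j ≠ 0) : ν = ix (ν 0) (ν 1) := by
  push Not at h
  ext j
  rcases j with _ | _ | j
  · rw [ix_zero_apply]
  · rw [zero_add, ix_one_apply]
  · rw [h (j + 1 + 1) (by omega)]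
    simp [ix]

theorem len_ix (m n : ℤ) : len (ix m n) = m.natAbs + n.natAbs := by
  classical
  unfold len
  have h : (ix m n).sum (fun _ n => n.natAbs) = ∑ j ∈ ({0, 1} : Finset ℕ), ((ix m n) j).natAbs := by
    refine Finsupp.sum_of_support_subset _ ?_ _ (by simp)
    intro j hj
    rw [Finsupp.mem_support_iff] at hj
    rcases j with _ | _ | j
    · simp
    · simp
    · exact absurd (by simp [ix]) hj
  rw [h, Finset.sum_pair (by norm_num), ix_zero_apply, ix_one_apply]

/-- The character. -/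
noncomputable def chx (m n : ℤ) (x : Fin 2 → ℝ) : ℂ :=
  Complex.exp (Complex.I * ((m : ℂ) * (x 0 : ℂ) + (n : ℂ) * (x 1 : ℂ)))

private theorem v16_one (m : ℤ) :
    ∫ x in Set.Icc (0 : ℝ) (2 * Real.pi), Complex.exp (Complex.I * ((m : ℂ) * (x : ℂ)))
      = if m = 0 then ((2 * Real.pi : ℝ) : ℂ) else 0 := by
  have hpi : (0 : ℝ) ≤ 2 * Real.pi := by positivity
  rw [integral_Icc_eq_integral_Ioc, ← intervalIntegral.integral_of_le hpi]
  split_ifs with h
  · subst h
    simp
  · have hc : Complex.I * (m : ℂ) ≠ 0 := by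
      simp [h]
    have e : (fun x : ℝ => Complex.exp (Complex.I * ((m : ℂ) * (x : ℂ))))
        = fun x : ℝ => Complex.exp ((Complex.I * (m : ℂ)) * (x : ℂ)) := by
      funext x; rw [mul_assoc]
    rw [e, integral_exp_mul_complex hc]
    have e1 : Complex.exp (Complex.I * (m : ℂ) * ((2 * Real.pi : ℝ) : ℂ)) = 1 := by
      rw [Complex.exp_eq_one_iff]
      exact ⟨m, by push_cast; ring⟩
    rw [e1]
    simp

theorem integral_chx (m n : ℤ) :
    ∫ x in Bx, chx m n x = if m = 0 ∧ n = 0 then ((2 * Real.pi : ℝ) : ℂ) ^ 2 else 0 := by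
  have hmp := (volume_preserving_finTwoArrow ℝ)
  have e1 : Bx = (MeasurableEquiv.finTwoArrow (α := ℝ)) ⁻¹'
      (Set.Icc (0 : ℝ) (2 * Real.pi) ×ˢ Set.Icc (0 : ℝ) (2 * Real.pi)) := by
    ext x
    simp only [Bx, Set.mem_Icc, Set.mem_preimage, Set.mem_prod, MeasurableEquiv.finTwoArrow,
      Pi.le_def, Fin.forall_fin_two]
    simp
    tauto
  have e2 : ∀ x : Fin 2 → ℝ, chx m n x = (fun p : ℝ × ℝ =>
      Complex.exp (Complex.I * ((m : ℂ) * (p.1 : ℂ))) *
        Complex.exp (Complex.I * ((n : ℂ) * (p.2 : ℂ)))) (MeasurableEquiv.finTwoArrow x) := by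
    intro x
    simp only [MeasurableEquiv.finTwoArrow]
    rw [chx, mul_add, Complex.exp_add]
    rfl
  have e3 := hmp.setIntegral_preimage_emb (MeasurableEquiv.measurableEmbedding _)
    (fun p : ℝ × ℝ => Complex.exp (Complex.I * ((m : ℂ) * (p.1 : ℂ))) *
        Complex.exp (Complex.I * ((n : ℂ) * (p.2 : ℂ))))
    (Set.Icc (0 : ℝ) (2 * Real.pi) ×ˢ Set.Icc (0 : ℝ) (2 * Real.pi))
  have e4 : ∫ x in Bx, chx m n x = ∫ x in (MeasurableEquiv.finTwoArrow (α := ℝ)) ⁻¹'
      (Set.Icc (0 : ℝ) (2 * Real.pi) ×ˢ Set.Icc (0 : ℝ) (2 * Real.pi)),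
      (fun p : ℝ × ℝ => Complex.exp (Complex.I * ((m : ℂ) * (p.1 : ℂ))) *
        Complex.exp (Complex.I * ((n : ℂ) * (p.2 : ℂ)))) (MeasurableEquiv.finTwoArrow x) := by
    rw [← e1]
    exact integral_congr_ae (Filter.Eventually.of_forall e2)
  have e5 := setIntegral_prod_mul (μ := (volume : Measure ℝ)) (ν := (volume : Measure ℝ))
    (fun x : ℝ => Complex.exp (Complex.I * ((m : ℂ) * (x : ℂ))))
    (fun x : ℝ => Complex.exp (Complex.I * ((n : ℂ) * (x : ℂ))))
    (Set.Icc (0 : ℝ) (2 * Real.pi)) (Set.Icc (0 : ℝ) (2 * Real.pi))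
  rw [e4, e3, Measure.volume_eq_prod]
  refine e5.trans ?_
  rw [v16_one, v16_one]
  by_cases hm : m = 0
  · by_cases hn : n = 0
    · rw [if_pos hm, if_pos hn, if_pos ⟨hm, hn⟩, sq]
    · rw [if_neg hn, if_neg (fun h : m = 0 ∧ n = 0 => hn h.2), mul_zero]
  · rw [if_neg hm, if_neg (fun h : m = 0 ∧ n = 0 => hm h.1), zero_mul]

/-- Fourier coefficients on the box. -/
noncomputable def fc (G : (Fin 2 → ℝ) → ℂ) (m n : ℤ) : ℂ :=
  (((2 * Real.pi : ℝ) : ℂ) ^ 2)⁻¹ * ∫ x in Bx, G x * chx (-m) (-n) x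

private theorem v16_norm_chx (m n : ℤ) (x : Fin 2 → ℝ) : ‖chx m n x‖ = 1 := by
  rw [chx, show Complex.I * ((m : ℂ) * (x 0 : ℂ) + (n : ℂ) * (x 1 : ℂ))
    = (((m : ℝ) * x 0 + (n : ℝ) * x 1 : ℝ) : ℂ) * Complex.I by push_cast; ring]
  exact Complex.norm_exp_ofReal_mul_I _

private theorem v16_continuous_chx (m n : ℤ) : Continuous (chx m n) := by
  unfold chx
  fun_prop

private theorem v16_vol : volume.real Bx = (2 * Real.pi) ^ 2 := by
  have h : volume Bx = ENNReal.ofReal ((2 * Real.pi) ^ 2) := by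
    unfold Bx
    rw [Real.volume_Icc_pi]
    simp only [Pi.zero_apply, sub_zero, Finset.prod_const, Finset.card_univ, Fintype.card_fin]
    rw [ENNReal.ofReal_pow (by positivity)]
  rw [measureReal_def, h, ENNReal.toReal_ofReal (by positivity)]

private theorem v16_vol_lt : volume Bx < ⊤ := by
  unfold Bx
  exact isCompact_Icc.measure_lt_top

private theorem v16_mul (m n m' n' : ℤ) (x : Fin 2 → ℝ) :
    chx m n x * chx m' n' x = chx (m + m') (n + n') x := by
  rw [chx, chx, chx, ← Complex.exp_add]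
  congr 1
  push_cast
  ring

theorem fc_ev {f : WT} (hf : Lev 2 f) (t : ℝ) (m n : ℤ) :
    fc (fun x => ev κs f x t) m n = f.co (ix m n) t := by
  have hint : ∀ ν : Gx, Integrable (fun x : Fin 2 → ℝ => f.co ν t *
      chx (ν 0 + -m) (ν 1 + -n) x) (volume.restrict Bx) := by
    intro ν
    have : IntegrableOn (fun x : Fin 2 → ℝ => f.co ν t * chx (ν 0 + -m) (ν 1 + -n) x) Bx :=
      (continuous_const.mul (v16_continuous_chx _ _)).continuousOn.integrableOn_compact
        (by unfold Bx; exact isCompact_Icc)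
    exact this
  have hnorm : ∀ ν : Gx, ∫ x in Bx, ‖f.co ν t * chx (ν 0 + -m) (ν 1 + -n) x‖
      = ‖f.co ν t‖ * (2 * Real.pi) ^ 2 := by
    intro ν
    simp only [norm_mul, v16_norm_chx, mul_one]
    rw [setIntegral_const, v16_vol, smul_eq_mul, mul_comm]
  have hsum : Summable fun ν : Gx => ∫ x in Bx, ‖f.co ν t * chx (ν 0 + -m) (ν 1 + -n) x‖ := by
    simp only [hnorm]
    refine Summable.mul_right _ ?_
    exact Summable.of_nonneg_of_le (fun _ => norm_nonneg _)
      (fun ν => (f.co ν).norm_coe_le_norm t) (rapid_norm f.rapid)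
  have h := (hasSum_integral_of_summable_integral_norm hint hsum).tsum_eq
  have e1 : ∀ x : Fin 2 → ℝ, ev κs f x t * chx (-m) (-n) x
      = ∑' ν : Gx, f.co ν t * chx (ν 0 + -m) (ν 1 + -n) x := by
    intro x
    unfold ev
    rw [← tsum_mul_right]
    refine tsum_congr fun ν => ?_
    rw [← v16_mul, kap_κs_zero, kap_κs_one, mul_assoc]
    rfl
  have hpi : ((2 * Real.pi : ℝ) : ℂ) ^ 2 ≠ 0 := by
    have : (2 * Real.pi : ℝ) ≠ 0 := by positivity
    exact pow_ne_zero _ (by exact_mod_cast this)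
  unfold fc
  simp only [e1]
  rw [← h, tsum_eq_single (ix m n)]
  · rw [integral_const_mul, integral_chx, ix_zero_apply, ix_one_apply]
    simp only [add_neg_cancel, and_self, if_true]
    field_simp
  · intro ν hν
    rw [integral_const_mul, integral_chx]
    by_cases hL : ∃ j, 2 ≤ j ∧ ν j ≠ 0
    · rw [hf ν hL]
      simp
    · have h2 : ¬ (ν 0 + -m = 0 ∧ ν 1 + -n = 0) := by
        rintro ⟨h3, h4⟩
        apply hν
        rw [eq_ix hL]
        congr 1 <;> omega
      rw [if_neg h2, mul_zero]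

theorem norm_fc_le {G : (Fin 2 → ℝ) → ℂ} {C : ℝ} (h : ∀ x, ‖G x‖ ≤ C) (m n : ℤ) :
    ‖fc G m n‖ ≤ C := by
  have h1 : ‖∫ x in Bx, G x * chx (-m) (-n) x‖ ≤ C * volume.real Bx := by
    refine norm_setIntegral_le_of_norm_le_const v16_vol_lt fun x _ => ?_
    rw [norm_mul, v16_norm_chx, mul_one]
    exact h x
  rw [v16_vol] at h1
  have hpi : (0 : ℝ) < (2 * Real.pi) ^ 2 := by positivity
  unfold fc
  rw [norm_mul, norm_inv, norm_pow, Complex.norm_real, Real.norm_eq_abs,
    abs_of_pos (by positivity : (0 : ℝ) < 2 * Real.pi)]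
  rw [inv_mul_le_iff₀ hpi, mul_comm]
  exact h1

theorem fc_congr {G H : (Fin 2 → ℝ) → ℂ} (h : ∀ x, G x = H x) (m n : ℤ) : fc G m n = fc H m n := by
  rw [show G = H from funext h]

end ES

end
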