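import Pool.Agent.H16.TSS.M10
import Pool.Agent.H16.TSS.M13
import Pool.Agent.H16.TSS.M15
import Pool.Agent.H16.TSS.M16

/-! The parts of this file: ES.V05, ES.V09, ES.V11, ES.V12, ES.V13, ES.V14, ES.V15, ES.V18, ES.BPass. -/

section

/-!
ES-V05 (Part II, helper27): Eulerian derivatives at a fixed time.

`f` represents `G` at time `t` if `G ∘ X_t = evR f · t`.  Then `∂_b G` is represented by
`ED d b f = ∑_j M_{jb} D_j f`.
Proof: `G = (evR f · t) ∘ Y_t` with `Y_t = X_t⁻¹` continuous (`Good.exists_inv`), so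
`HasFDerivAt.of_local_left_inverse` (with the equivalence built from `DX`, `DY`, `Good.DX_DY`,
`Good.DY_DX`) gives the derivative `DY d t z` of `Y_t` at `X_t z`; chain rule with
`hasFDerivAt_evR`.  `contDiff`: induction on `n` with `contDiff_succ_iff_fderiv` (or
`contDiff_succ_iff_hasFDerivAt`); the derivative is a combination of the functions represented by
`ED d b f`; for `n = 0` continuity.
-/

namespace ES

/-- `f` represents the scalar function `G` at time `t`. -/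
def RepT (d : Dat) (t : ℝ) (G : (Fin 2 → ℝ) → ℝ) (f : WT) : Prop :=
  ∀ z, G (Xm d t z) = evR d.κ f z t

/-- Eulerian derivative. -/
noncomputable def ED (d : Dat) (b : Fin 2) (f : WT) : WT := ∑ j, d.M j b * D d.κ j f

private theorem v05_lin (L : (Fin 2 → ℝ) →L[ℝ] ℝ) (v : Fin 2 → ℝ) :
    L v = ∑ b, v b * L (Pi.single b 1) := by
  have h : v = v 0 • Pi.single (0 : Fin 2) (1 : ℝ) + v 1 • Pi.single (1 : Fin 2) (1 : ℝ) := by
    funext j
    fin_cases j <;> simp
  have h2 : L (v 0 • Pi.single (0 : Fin 2) (1 : ℝ) + v 1 • Pi.single (1 : Fin 2) (1 : ℝ))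
      = v 0 * L (Pi.single 0 1) + v 1 * L (Pi.single 1 1) := by
    rw [map_add, map_smul, map_smul, smul_eq_mul, smul_eq_mul]
  rw [← h] at h2
  rw [h2, Fin.sum_univ_two]

private theorem v05_sum_apply (c : Fin 2 → ℝ) (w : Fin 2 → ℝ) :
    (∑ b, c b • (ContinuousLinearMap.proj b : (Fin 2 → ℝ) →L[ℝ] ℝ)) w = ∑ b, c b * w b := by
  rw [Fin.sum_univ_two, Fin.sum_univ_two]
  rfl

section

variable {d : Dat} {t0 t1 lam g σ ρ c A : ℝ}

theorem Good.isR_ED (h : Good d t0 t1 lam g σ ρ c A) (b : Fin 2) {f : WT} (hf : IsR f) :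
    IsR (ED d b f) := IsR.sum _ fun j _ => (h.isR_M j b).mul hf.D

/-- Derivative of the inverse map. -/
private theorem v05_inv (h : Good d t0 t1 lam g σ ρ c A) {t : ℝ} {Y : (Fin 2 → ℝ) → (Fin 2 → ℝ)}
    (h1 : ∀ x, Xm d t (Y x) = x) (h2 : ∀ z, Y (Xm d t z) = z) (hY : Continuous Y)
    (z : Fin 2 → ℝ) : HasFDerivAt Y (DY d t z) (Xm d t z) := by
  have hX := hasFDerivAt_Xm d t z
  have e : HasFDerivAt Y (((ContinuousLinearEquiv.equivOfInverse (DX d t z) (DY d t z)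
      (h.DY_DX t z) (h.DX_DY t z)).symm : (Fin 2 → ℝ) ≃L[ℝ] (Fin 2 → ℝ)) :
      (Fin 2 → ℝ) →L[ℝ] (Fin 2 → ℝ)) (Xm d t z) := by
    refine HasFDerivAt.of_local_left_inverse hY.continuousAt (f := Xm d t) ?_
      (Filter.Eventually.of_forall h1)
    rw [h2]
    exact hX
  exact e

theorem RepT.hasFDerivAt (h : Good d t0 t1 lam g σ ρ c A) (hρ : 0 ≤ ρ) (hc : c ≤ 1 / 10) {t : ℝ}
    {G : (Fin 2 → ℝ) → ℝ} {f : WT} (hf : IsR f) (hG : RepT d t G f) (z : Fin 2 → ℝ) :
    HasFDerivAt G (∑ b, evR d.κ (ED d b f) z t • (ContinuousLinearMap.proj b : (Fin 2 → ℝ) →L[ℝ] ℝ))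
      (Xm d t z) := by
  obtain ⟨Y, h1, h2, h3⟩ := h.exists_inv hρ hc
  have hYc : Continuous (Y t) :=
    h3.comp (continuous_id.prodMk (continuous_const (y := t)))
  have hY := v05_inv h (h1 t) (h2 t) hYc z
  have hE : G = fun x => evR d.κ f (Y t x) t := by
    funext x
    rw [← hG (Y t x), h1]
  have hf1 : HasFDerivAt (fun z => evR d.κ f z t)
      (∑ a : Fin 2, evR d.κ (D d.κ a f) z t • (ContinuousLinearMap.proj a : (Fin 2 → ℝ) →L[ℝ] ℝ))
      (Y t (Xm d t z)) := by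
    rw [h2]
    exact hasFDerivAt_evR d.κ f z t
  have hc1 := hf1.comp (Xm d t z) hY
  rw [hE]
  refine HasFDerivAt.congr_fderiv hc1 ?_
  refine ContinuousLinearMap.ext fun w => ?_
  rw [ContinuousLinearMap.comp_apply, v05_sum_apply, v05_sum_apply]
  have h4 : ∀ b, evR d.κ (ED d b f) z t
      = ∑ j, evR d.κ (d.M j b) z t * evR d.κ (D d.κ j f) z t := by
    intro b
    unfold ED
    rw [evR_sum]
    exact Finset.sum_congr rfl fun j _ => evR_mul (h.isR_M j b) hf.D z t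
  have h5 : ∀ a, DY d t z w a = ∑ b, evR d.κ (d.M a b) z t * w b := fun a => DY_apply d t z w a
  simp only [h4, h5, Fin.sum_univ_two]
  ring

theorem RepT.fderiv (h : Good d t0 t1 lam g σ ρ c A) (hρ : 0 ≤ ρ) (hc : c ≤ 1 / 10) {t : ℝ}
    {G : (Fin 2 → ℝ) → ℝ} {f : WT} (hf : IsR f) (hG : RepT d t G f) (b : Fin 2) :
    RepT d t (fun x => _root_.fderiv ℝ G x (Pi.single b 1)) (ED d b f) := by
  intro z
  show _root_.fderiv ℝ G (Xm d t z) (Pi.single b 1) = _
  rw [(RepT.hasFDerivAt h hρ hc hf hG z).fderiv, v05_sum_apply, Finset.sum_eq_single b]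
  · rw [Pi.single_eq_same, mul_one]
  · intro j _ hj
    rw [Pi.single_eq_of_ne hj, mul_zero]
  · intro hb
    exact absurd (Finset.mem_univ b) hb

private theorem v05_diff (h : Good d t0 t1 lam g σ ρ c A) (hρ : 0 ≤ ρ) (hc : c ≤ 1 / 10) {t : ℝ}
    {G : (Fin 2 → ℝ) → ℝ} {f : WT} (hf : IsR f) (hG : RepT d t G f) : Differentiable ℝ G := by
  intro x
  obtain ⟨z, rfl⟩ := (h.bij hρ hc t).2 x
  exact (RepT.hasFDerivAt h hρ hc hf hG z).differentiableAt

theorem RepT.contDiff (h : Good d t0 t1 lam g σ ρ c A) (hρ : 0 ≤ ρ) (hc : c ≤ 1 / 10) {t : ℝ}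
    {G : (Fin 2 → ℝ) → ℝ} {f : WT} (hf : IsR f) (hG : RepT d t G f) (n : ℕ) :
    ContDiff ℝ n G := by
  induction n generalizing G f with
  | zero =>
    have h1 : Differentiable ℝ G := v05_diff h hρ hc hf hG
    exact contDiff_zero.2 h1.continuous
  | succ n ih =>
    have h1 : Differentiable ℝ G := v05_diff h hρ hc hf hG
    have h2 : ContDiff ℝ n (_root_.fderiv ℝ G) := by
      have h3 : _root_.fderiv ℝ G = fun x => ∑ b : Fin 2, (_root_.fderiv ℝ G x (Pi.single b 1)) •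
          (ContinuousLinearMap.proj b : (Fin 2 → ℝ) →L[ℝ] ℝ) := by
        funext x
        refine ContinuousLinearMap.ext fun w => ?_
        rw [v05_sum_apply, v05_lin (_root_.fderiv ℝ G x) w]
        exact Finset.sum_congr rfl fun b _ => mul_comm _ _
      rw [h3]
      refine ContDiff.sum fun b _ => ?_
      exact (ih (h.isR_ED b hf) (RepT.fderiv h hρ hc hf hG b)).smul contDiff_const
    have h4 : ((n + 1 : ℕ) : WithTop ℕ∞) = (n : WithTop ℕ∞) + 1 := by norm_cast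
    rw [h4]
    refine contDiff_succ_iff_fderiv.2 ⟨h1, fun h5 => ?_, h2⟩
    exact absurd h5 (by simp)

theorem RepT.periodic (h : Good d t0 t1 lam g σ ρ c A) (hρ : 0 ≤ ρ) (hc : c ≤ 1 / 10) {t : ℝ}
    {G : (Fin 2 → ℝ) → ℝ} {f : WT} (hG : RepT d t G f) (x : Fin 2 → ℝ) (n : Fin 2 → ℤ) :
    G (fun a => x a + 2 * Real.pi * n a) = G x := by
  obtain ⟨z, rfl⟩ := (h.bij hρ hc t).2 x
  rw [← Xm_periodic, hG, hG, evR_periodic]

theorem RepT.abs_le (h : Good d t0 t1 lam g σ ρ c A) (hρ : 0 ≤ ρ) (hc : c ≤ 1 / 10) {t : ℝ}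
    {G : (Fin 2 → ℝ) → ℝ} {f : WT} (hG : RepT d t G f) (x : Fin 2 → ℝ) :
    |G x| ≤ ∑' ν, ‖f.co ν‖ := by
  obtain ⟨z, rfl⟩ := (h.bij hρ hc t).2 x
  rw [hG]
  exact abs_evR_le_tsum d.κ f z t

/-- Chain rule for smooth functions composed with the coordinates:
`∂_j (ψ ∘ X) = ∑_b F_{bj} (∂_b ψ) ∘ X`. -/
theorem fderiv_comp_Xm (d : Dat) (t : ℝ) {ψ : (Fin 2 → ℝ) → ℝ} {z : Fin 2 → ℝ}
    (hψ : DifferentiableAt ℝ ψ (Xm d t z)) (j : Fin 2) :
    _root_.fderiv ℝ (fun z => ψ (Xm d t z)) z (Pi.single j 1)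
      = ∑ b, evR d.κ (d.F b j) z t * _root_.fderiv ℝ ψ (Xm d t z) (Pi.single b 1) := by
  have h1 : HasFDerivAt (fun z => ψ (Xm d t z))
      ((_root_.fderiv ℝ ψ (Xm d t z)).comp (DX d t z)) z :=
    HasFDerivAt.comp z hψ.hasFDerivAt (hasFDerivAt_Xm d t z)
  rw [h1.fderiv, ContinuousLinearMap.comp_apply,
    v05_lin (_root_.fderiv ℝ ψ (Xm d t z)) (DX d t z (Pi.single j 1))]
  refine Finset.sum_congr rfl fun b _ => ?_
  rw [DX_apply, Finset.sum_eq_single j]
  · rw [Pi.single_eq_same, mul_one]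
  · intro k _ hk
    rw [Pi.single_eq_of_ne hk, mul_zero]
  · intro hb
    exact absurd (Finset.mem_univ j) hb

/-- Inverse form: `(∂_a ψ) ∘ X = ∑_j M_{ja} ∂_j (ψ ∘ X)`. -/
theorem fderiv_comp_Xm' (h : Good d t0 t1 lam g σ ρ c A) (t : ℝ) {ψ : (Fin 2 → ℝ) → ℝ}
    {z : Fin 2 → ℝ} (hψ : DifferentiableAt ℝ ψ (Xm d t z)) (a : Fin 2) :
    _root_.fderiv ℝ ψ (Xm d t z) (Pi.single a 1)
      = ∑ j, evR d.κ (d.M j a) z t * _root_.fderiv ℝ (fun z => ψ (Xm d t z)) z (Pi.single j 1) := by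
  have h1 : ∀ j, evR d.κ (d.M j a) z t *
      _root_.fderiv ℝ (fun z => ψ (Xm d t z)) z (Pi.single j 1)
      = ∑ b, (evR d.κ (d.F b j) z t * evR d.κ (d.M j a) z t) *
        _root_.fderiv ℝ ψ (Xm d t z) (Pi.single b 1) := by
    intro j
    rw [fderiv_comp_Xm d t hψ j, Finset.mul_sum]
    exact Finset.sum_congr rfl fun b _ => by ring
  rw [Finset.sum_congr rfl fun j _ => h1 j, Finset.sum_comm]
  have h2 : ∀ b, ∑ j, (evR d.κ (d.F b j) z t * evR d.κ (d.M j a) z t) *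
        _root_.fderiv ℝ ψ (Xm d t z) (Pi.single b 1)
      = (if b = a then 1 else 0) * _root_.fderiv ℝ ψ (Xm d t z) (Pi.single b 1) := by
    intro b
    rw [← Finset.sum_mul, h.evR_FM b a z t]
  rw [Finset.sum_congr rfl fun b _ => h2 b, Finset.sum_eq_single a]
  · rw [if_pos rfl, one_mul]
  · intro b _ hb
    rw [if_neg hb, zero_mul]
  · intro hb
    exact absurd (Finset.mem_univ a) hb

end

end ES

end

section

/-!
ES-V09 (Part II, helper27): change of variables for represented functions; the facts `per` and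
`divf`.

`integral_comp_Xm`: `integral_comp_periodic` with `X = Xm d t`, `X' = DX d t`.
`fact_divf`: by `integral_comp_Xm`,
`∫ ∑_a V_a ∂_a ψ = ∫ ∑_a v_a (∂_a ψ)(X) = ∫ ∑_j (M v)_j ∂_j (ψ ∘ X)` (`fderiv_comp_Xm'`)
`= -∫ D·(M v) ψ ∘ X = 0` (`integral_by_parts`, `hasFDerivAt_evR`, `Good.dvg_Mv`).
Here `ψ ∘ X` is `C¹` (`ψ` is `C²`, `Xm d t` is `C¹`: `contDiff_Xm`) and periodic.
-/

open MeasureTheory

namespace ES

theorem contDiff_evR (κ : Kp) (f : WT) (t : ℝ) (n : ℕ) : ContDiff ℝ n fun z => evR κ f z t := by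
  induction n generalizing f with
  | zero =>
    rw [Nat.cast_zero, contDiff_zero]
    exact (continuous_evR κ f).comp (continuous_id.prodMk continuous_const)
  | succ n ih =>
    rw [Nat.cast_succ]
    refine contDiff_succ_iff_hasFDerivAt.2 ⟨fun z => ∑ a : Fin 2, evR κ (D κ a f) z t •
      (ContinuousLinearMap.proj a : (Fin 2 → ℝ) →L[ℝ] ℝ), ?_, fun z => hasFDerivAt_evR κ f z t⟩
    exact ContDiff.sum fun a _ => (ih (D κ a f)).smul contDiff_const

theorem contDiff_Xm (d : Dat) (t : ℝ) (n : ℕ) : ContDiff ℝ n (Xm d t) := by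
  rw [contDiff_pi]
  intro a
  change ContDiff ℝ n fun z : Fin 2 → ℝ => z a + evR d.κ (d.ξ a) z t
  exact (contDiff_apply ℝ ℝ a).add (contDiff_evR d.κ (d.ξ a) t n)

theorem per_evR (κ : Kp) (f : WT) (t : ℝ) : Per fun z => evR κ f z t :=
  fun x n => evR_periodic κ f x n t

private theorem v09_fderiv_evR (κ : Kp) (f : WT) (t : ℝ) (z : Fin 2 → ℝ) (b : Fin 2) :
    fderiv ℝ (fun z => evR κ f z t) z (Pi.single b 1) = evR κ (D κ b f) z t := by
  rw [(hasFDerivAt_evR κ f z t).fderiv]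
  fin_cases b <;> simp

section

variable {d : Dat} {t0 t1 lam g σ ρ c A : ℝ}

theorem integral_comp_Xm (h : Good d t0 t1 lam g σ ρ c A) (hρ : 0 ≤ ρ) (hc : c ≤ 1 / 10) (t : ℝ)
    {G : (Fin 2 → ℝ) → ℝ} (hG : Continuous G) (hp : Per G) :
    ∫ z in Bx, G (Xm d t z) = ∫ x in Bx, G x :=
  integral_comp_periodic (h.bij hρ hc t) (hasFDerivAt_Xm d t) (h.det_DX t) (Xm_periodic d t) hG hp

end

theorem fact_per (V : Fld) (t0 t1 lam g σ ρ c A : ℝ) (h : BI V t0 t1 lam g σ ρ c A) :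
    ∀ t ∈ Set.Icc t0 t1, PerF V t := by
  obtain ⟨d, _, hR⟩ := h
  intro t ht x n
  obtain ⟨hb, hV⟩ := hR t ht
  obtain ⟨z, rfl⟩ := hb.2 x
  funext a
  rw [← Xm_periodic, hV, hV, evR_periodic]

theorem fact_divf (V : Fld) (t0 t1 lam g σ ρ c A : ℝ) (h : BI V t0 t1 lam g σ ρ c A) (hρ : 0 < ρ)
    (h0 : 0 ≤ c) (hc : c ≤ 1 / 10) : ∀ t ∈ Set.Icc t0 t1, DF V t := by
  have hPer := fact_per V t0 t1 lam g σ ρ c A h
  obtain ⟨d, hg, hR⟩ := h
  intro t ht ψ hψ hψp
  obtain ⟨hb, hV⟩ := hR t ht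
  have hPt := hPer t ht
  -- regularity of the field
  have hVa : ∀ a, Continuous fun x => V x t a := fun a => by
    have h1 : RepT d t (fun x => V x t a) (d.v a) := fun z => hV z a
    exact (h1.contDiff hg hρ.le hc (hg.rv a) 0).continuous
  have hdψ : ∀ a : Fin 2, Continuous fun x => fderiv ℝ ψ x (Pi.single a 1) := fun a =>
    (hψ.continuous_fderiv (by norm_num)).clm_apply continuous_const
  have hψP : Per ψ := hψp
  have hGc : Continuous fun x => ∑ a, V x t a * fderiv ℝ ψ x (Pi.single a 1) :=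
    continuous_finsetSum _ fun a _ => (hVa a).mul (hdψ a)
  have hGp : Per fun x => ∑ a, V x t a * fderiv ℝ ψ x (Pi.single a 1) := by
    intro x n
    refine Finset.sum_congr rfl fun a _ => ?_
    have h1 := hψP.fderiv (Pi.single a 1 : Fin 2 → ℝ) x n
    have h2 := congrFun (hPt x n) a
    simp only at h1
    rw [h1, h2]
  rw [← integral_comp_Xm hg hρ.le hc t hGc hGp]
  -- the composed test function
  have hΨ : ContDiff ℝ 1 fun z => ψ (Xm d t z) :=
    (hψ.of_le (by norm_num)).comp (by exact_mod_cast contDiff_Xm d t 1)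
  have hΨp : Per fun z => ψ (Xm d t z) := by
    intro z n
    change ψ (Xm d t fun a => z a + 2 * Real.pi * n a) = _
    rw [Xm_periodic, hψP (Xm d t z) n]
  have hH : ∀ j, ContDiff ℝ 1 fun z => evR d.κ (mulv d.M d.v j) z t := fun j => by
    exact_mod_cast contDiff_evR d.κ (mulv d.M d.v j) t 1
  -- the integrand in Lagrangian form
  have hpt : ∀ z, ∑ a, V (Xm d t z) t a * fderiv ℝ ψ (Xm d t z) (Pi.single a 1)
      = ∑ j, fderiv ℝ (fun z => ψ (Xm d t z)) z (Pi.single j 1)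
          * evR d.κ (mulv d.M d.v j) z t := by
    intro z
    have hd : DifferentiableAt ℝ ψ (Xm d t z) := (hψ.differentiable (by norm_num)).differentiableAt
    have h1 : ∀ j, evR d.κ (mulv d.M d.v j) z t
        = ∑ a, evR d.κ (d.M j a) z t * evR d.κ (d.v a) z t := fun j => by
      unfold mulv
      rw [evR_sum]
      exact Finset.sum_congr rfl fun a _ => evR_mul (hg.isR_M j a) (hg.rv a) z t
    simp only [h1, hV, fderiv_comp_Xm' hg t hd, Finset.mul_sum]
    rw [Finset.sum_comm]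
    refine Finset.sum_congr rfl fun j _ => Finset.sum_congr rfl fun a _ => ?_
    ring
  simp only [hpt]
  have hΨ' : ∀ j : Fin 2, Continuous fun z =>
      fderiv ℝ (fun z => ψ (Xm d t z)) z (Pi.single j 1) := fun j =>
    (hΨ.continuous_fderiv (by norm_num)).clm_apply continuous_const
  have hint : ∀ (F : (Fin 2 → ℝ) → ℝ), Continuous F → Integrable F (volume.restrict Bx) :=
    fun F hF => hF.continuousOn.integrableOn_compact isCompact_Bx
  rw [integral_finsetSum _ fun j _ => hint (fun z => fderiv ℝ (fun z => ψ (Xm d t z)) z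
    (Pi.single j 1) * evR d.κ (mulv d.M d.v j) z t) ((hΨ' j).mul (hH j).continuous)]
  have hj : ∀ j : Fin 2, ∫ z in Bx, fderiv ℝ (fun z => ψ (Xm d t z)) z (Pi.single j 1)
      * evR d.κ (mulv d.M d.v j) z t
      = -∫ z in Bx, ψ (Xm d t z) * evR d.κ (D d.κ j (mulv d.M d.v j)) z t := fun j => by
    rw [integral_by_parts hΨ hΨp (hH j) (per_evR d.κ _ t) j]
    simp only [v09_fderiv_evR]
  simp only [hj]
  have hc2 : ∀ j : Fin 2, Continuous fun z => evR d.κ (D d.κ j (mulv d.M d.v j)) z t := fun j =>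
    (continuous_evR d.κ _).comp (continuous_id.prodMk continuous_const)
  rw [Finset.sum_neg_distrib, ← integral_finsetSum _ fun j _ => hint (fun z => ψ (Xm d t z) *
    evR d.κ (D d.κ j (mulv d.M d.v j)) z t) (hΨ.continuous.mul (hc2 j))]
  have hz : ∀ z, ∑ j, ψ (Xm d t z) * evR d.κ (D d.κ j (mulv d.M d.v j)) z t = 0 := by
    intro z
    rw [← Finset.mul_sum, ← evR_sum]
    have h1 : ∑ j, D d.κ j (mulv d.M d.v j) = 0 := hg.dvg_Mv
    rw [h1, evR_zero, mul_zero]
  simp [hz]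

end ES

end

section

/-!
ES-V11 (Part II, helper27): the pairing and the weak form in the moving coordinates.

For a test function `φ` (jointly `C²`): `pr V φ t = prL d φ t` and `wf V φ t = wfL d φ t` for
`t ∈ [t0,t1]` by `integral_comp_Xm` (the integrands are continuous and periodic in `x`:
`V · t a` is represented by `d.v a`, `RepT.contDiff`, `RepT.periodic`).
Time derivative of `prL`: `hasDerivAt_integral_Bx`; pointwise product rule with `hasDerivAt_evR`
(`h.tdv`) and the chain rule for `s ↦ φ (Xm d s z) s a` (joint differentiability of `φ`,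
`h.tdξ`): its derivative is `∂_t φ_a + ∑_b U_b ∂_b φ_a`.
-/

open MeasureTheory

namespace ES

/-- Spatial partial derivative of a component of a test function. -/
noncomputable def dφ (φ : Fld) (b a : Fin 2) (x : Fin 2 → ℝ) (t : ℝ) : ℝ :=
  fderiv ℝ (fun y => φ y t a) x (Pi.single b 1)

/-- Time derivative of a component of a test function. -/
noncomputable def dtφ (φ : Fld) (a : Fin 2) (x : Fin 2 → ℝ) (t : ℝ) : ℝ :=
  deriv (fun s => φ x s a) t

noncomputable def prL (d : Dat) (φ : Fld) (t : ℝ) : ℝ :=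
  ∫ z in Bx, ∑ a, evR d.κ (d.v a) z t * φ (Xm d t z) t a

noncomputable def prL' (d : Dat) (φ : Fld) (t : ℝ) : ℝ :=
  ∫ z in Bx, ∑ a, (evR d.κ (d.rhs a) z t * φ (Xm d t z) t a
    + evR d.κ (d.v a) z t * (dtφ φ a (Xm d t z) t
      + ∑ b, evR d.κ (d.U b) z t * dφ φ b a (Xm d t z) t))

noncomputable def wfL (d : Dat) (φ : Fld) (t : ℝ) : ℝ :=
  ∫ z in Bx, ((∑ a, evR d.κ (d.v a) z t * dtφ φ a (Xm d t z) t)
    + ∑ a, ∑ b, evR d.κ (d.v a) z t * evR d.κ (d.v b) z t * dφ φ b a (Xm d t z) t)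

/-- Components are jointly `C²`. -/
private theorem v11_cd {φ : Fld} (hφ : Tst φ) (a : Fin 2) :
    ContDiff ℝ 2 fun p : (Fin 2 → ℝ) × ℝ => φ p.1 p.2 a :=
  (contDiff_pi.1 hφ.smooth) a

private theorem v11_fd {φ : Fld} (hφ : Tst φ) (a : Fin 2) (p : (Fin 2 → ℝ) × ℝ) :
    HasFDerivAt (fun p : (Fin 2 → ℝ) × ℝ => φ p.1 p.2 a)
      (fderiv ℝ (fun p : (Fin 2 → ℝ) × ℝ => φ p.1 p.2 a) p) p :=
  ((v11_cd hφ a).differentiable (by norm_num) p).hasFDerivAt

private theorem v11_dφ {φ : Fld} (hφ : Tst φ) (b a : Fin 2) (x : Fin 2 → ℝ) (t : ℝ) :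
    dφ φ b a x t =
      fderiv ℝ (fun p : (Fin 2 → ℝ) × ℝ => φ p.1 p.2 a) (x, t) (Pi.single b 1, 0) := by
  have h1 : HasFDerivAt (fun y : Fin 2 → ℝ => (y, t))
      (ContinuousLinearMap.inl ℝ (Fin 2 → ℝ) ℝ) x := hasFDerivAt_prodMk_left x t
  have h2 := (v11_fd hφ a (x, t)).comp x h1
  have h3 : fderiv ℝ (fun y => φ y t a) x =
      (fderiv ℝ (fun p : (Fin 2 → ℝ) × ℝ => φ p.1 p.2 a) (x, t)).comp
        (ContinuousLinearMap.inl ℝ (Fin 2 → ℝ) ℝ) := h2.fderiv
  unfold dφ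
  rw [h3]
  rfl

private theorem v11_dtφ {φ : Fld} (hφ : Tst φ) (a : Fin 2) (x : Fin 2 → ℝ) (t : ℝ) :
    dtφ φ a x t =
      fderiv ℝ (fun p : (Fin 2 → ℝ) × ℝ => φ p.1 p.2 a) (x, t) (0, 1) := by
  have h1 : HasDerivAt (fun s : ℝ => (x, s)) ((0 : Fin 2 → ℝ), (1 : ℝ)) t :=
    (hasDerivAt_const t x).prodMk (hasDerivAt_id t)
  have h2 := (v11_fd hφ a (x, t)).comp_hasDerivAt t h1
  exact h2.deriv

private theorem v11_cfd {φ : Fld} (hφ : Tst φ) (a : Fin 2) (w : (Fin 2 → ℝ) × ℝ) :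
    Continuous fun p : (Fin 2 → ℝ) × ℝ =>
      fderiv ℝ (fun p : (Fin 2 → ℝ) × ℝ => φ p.1 p.2 a) p w :=
  ((v11_cd hφ a).continuous_fderiv (by norm_num)).clm_apply continuous_const

theorem Tst.continuous_dφ {φ : Fld} (hφ : Tst φ) (b a : Fin 2) :
    Continuous fun p : (Fin 2 → ℝ) × ℝ => dφ φ b a p.1 p.2 := by
  have h : (fun p : (Fin 2 → ℝ) × ℝ => dφ φ b a p.1 p.2) = fun p =>
      fderiv ℝ (fun p : (Fin 2 → ℝ) × ℝ => φ p.1 p.2 a) p (Pi.single b 1, 0) := by
    funext p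
    exact v11_dφ hφ b a p.1 p.2
  rw [h]
  exact v11_cfd hφ a _

theorem Tst.continuous_dtφ {φ : Fld} (hφ : Tst φ) (a : Fin 2) :
    Continuous fun p : (Fin 2 → ℝ) × ℝ => dtφ φ a p.1 p.2 := by
  have h : (fun p : (Fin 2 → ℝ) × ℝ => dtφ φ a p.1 p.2) = fun p =>
      fderiv ℝ (fun p : (Fin 2 → ℝ) × ℝ => φ p.1 p.2 a) p (0, 1) := by
    funext p
    exact v11_dtφ hφ a p.1 p.2
  rw [h]
  exact v11_cfd hφ a _

theorem Tst.per_dφ {φ : Fld} (hφ : Tst φ) (b a : Fin 2) (t : ℝ) : Per fun x => dφ φ b a x t := by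
  have h : Per fun y => φ y t a := fun x n => congrFun (hφ.per x n t) a
  exact Per.fderiv h (Pi.single b 1)

theorem Tst.per_dtφ {φ : Fld} (hφ : Tst φ) (a : Fin 2) (t : ℝ) : Per fun x => dtφ φ a x t := by
  intro x n
  show deriv (fun s => φ (fun b => x b + 2 * Real.pi * n b) s a) t = deriv (fun s => φ x s a) t
  have h : (fun s => φ (fun b => x b + 2 * Real.pi * n b) s a) = fun s => φ x s a := by
    funext s
    exact congrFun (hφ.per x n s) a
  rw [h]

section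

variable {d : Dat} {t0 t1 lam g σ ρ c A : ℝ} {V φ : Fld}

private theorem v11_rep (hV : Rep d V t0 t1) {t : ℝ} (ht : t ∈ Set.Icc t0 t1) (a : Fin 2) :
    RepT d t (fun x => V x t a) (d.v a) := fun z => (hV t ht).2 z a

private theorem v11_cV (h : Good d t0 t1 lam g σ ρ c A) (hρ : 0 ≤ ρ) (hc : c ≤ 1 / 10)
    (hV : Rep d V t0 t1) {t : ℝ} (ht : t ∈ Set.Icc t0 t1) (a : Fin 2) :
    Continuous fun x => V x t a :=
  (RepT.contDiff h hρ hc (h.rv a) (v11_rep hV ht a) 0).continuous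

private theorem v11_pV (h : Good d t0 t1 lam g σ ρ c A) (hρ : 0 ≤ ρ) (hc : c ≤ 1 / 10)
    (hV : Rep d V t0 t1) {t : ℝ} (ht : t ∈ Set.Icc t0 t1) (a : Fin 2) :
    Per fun x => V x t a := fun x n =>
  RepT.periodic h hρ hc (v11_rep hV ht a) x n

private theorem v11_cφ (hφ : Tst φ) (a : Fin 2) :
    Continuous fun p : (Fin 2 → ℝ) × ℝ => φ p.1 p.2 a := (v11_cd hφ a).continuous

private theorem v11_slice {E : Type*} [TopologicalSpace E] {f : (Fin 2 → ℝ) × ℝ → E}
    (hf : Continuous f) (t : ℝ) : Continuous fun x => f (x, t) :=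
  hf.comp (continuous_id.prodMk continuous_const)

private theorem v11_mv (d : Dat) {f : (Fin 2 → ℝ) × ℝ → ℝ} (hf : Continuous f) :
    Continuous fun p : (Fin 2 → ℝ) × ℝ => f (Xm d p.2 p.1, p.2) :=
  hf.comp ((continuous_Xm d).prodMk continuous_snd)

theorem pr_eq (h : Good d t0 t1 lam g σ ρ c A) (hρ : 0 ≤ ρ) (hc : c ≤ 1 / 10)
    (hV : Rep d V t0 t1) (hφ : Tst φ) {t : ℝ} (ht : t ∈ Set.Icc t0 t1) :
    pr V φ t = prL d φ t := by
  have h1 := integral_comp_Xm h hρ hc t (G := fun x => ∑ a, V x t a * φ x t a)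
    (continuous_finsetSum _ fun a _ => (v11_cV h hρ hc hV ht a).mul (v11_slice (v11_cφ hφ a) t))
    (fun x n => Finset.sum_congr rfl fun a _ => by
      have e : V (fun b => x b + 2 * Real.pi * n b) t a = V x t a := v11_pV h hρ hc hV ht a x n
      rw [e, hφ.per x n t])
  unfold pr prL
  rw [← h1]
  refine integral_congr_ae (Filter.Eventually.of_forall fun z => ?_)
  exact Finset.sum_congr rfl fun a _ => by rw [(hV t ht).2 z a]

theorem wf_eq (h : Good d t0 t1 lam g σ ρ c A) (hρ : 0 ≤ ρ) (hc : c ≤ 1 / 10)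
    (hV : Rep d V t0 t1) (hφ : Tst φ) {t : ℝ} (ht : t ∈ Set.Icc t0 t1) :
    wf V φ t = wfL d φ t := by
  have h1 := integral_comp_Xm h hρ hc t
    (G := fun x => (∑ a, V x t a * dtφ φ a x t) + ∑ a, ∑ b, V x t a * V x t b * dφ φ b a x t)
    ((continuous_finsetSum _ fun a _ => (v11_cV h hρ hc hV ht a).mul
        (v11_slice (Tst.continuous_dtφ hφ a) t)).add
      (continuous_finsetSum _ fun a _ => continuous_finsetSum _ fun b _ =>
        ((v11_cV h hρ hc hV ht a).mul (v11_cV h hρ hc hV ht b)).mul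
          (v11_slice (Tst.continuous_dφ hφ b a) t)))
    (fun x n => by
      have e1 : ∀ a, V (fun b => x b + 2 * Real.pi * n b) t a = V x t a := fun a =>
        v11_pV h hρ hc hV ht a x n
      have e2 : ∀ a, dtφ φ a (fun b => x b + 2 * Real.pi * n b) t = dtφ φ a x t := fun a =>
        Tst.per_dtφ hφ a t x n
      have e3 : ∀ b a, dφ φ b a (fun b => x b + 2 * Real.pi * n b) t = dφ φ b a x t := fun b a =>
        Tst.per_dφ hφ b a t x n
      simp only [e1, e2, e3])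
  unfold wf wfL
  have h2 : (∫ x in Bx, ((∑ a, V x t a * deriv (fun s => φ x s a) t) +
      ∑ a, ∑ b, V x t a * V x t b * fderiv ℝ (fun y => φ y t a) x (Pi.single b 1))) =
      ∫ x in Bx, ((∑ a, V x t a * dtφ φ a x t) +
        ∑ a, ∑ b, V x t a * V x t b * dφ φ b a x t) := rfl
  rw [h2, ← h1]
  refine integral_congr_ae (Filter.Eventually.of_forall fun z => ?_)
  simp only [(hV t ht).2 z]

private theorem v11_c1 (d : Dat) (hφ : Tst φ) :
    Continuous fun p : (Fin 2 → ℝ) × ℝ =>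
      ∑ a, evR d.κ (d.v a) p.1 p.2 * φ (Xm d p.2 p.1) p.2 a :=
  continuous_finsetSum _ fun a _ =>
    (continuous_evR d.κ (d.v a)).mul (v11_mv d (v11_cφ hφ a))

private theorem v11_c2 (d : Dat) (hφ : Tst φ) :
    Continuous fun p : (Fin 2 → ℝ) × ℝ =>
      ∑ a, (evR d.κ (d.rhs a) p.1 p.2 * φ (Xm d p.2 p.1) p.2 a
        + evR d.κ (d.v a) p.1 p.2 * (dtφ φ a (Xm d p.2 p.1) p.2
          + ∑ b, evR d.κ (d.U b) p.1 p.2 * dφ φ b a (Xm d p.2 p.1) p.2)) :=
  continuous_finsetSum _ fun a _ =>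
    ((continuous_evR d.κ (d.rhs a)).mul (v11_mv d (v11_cφ hφ a))).add
      ((continuous_evR d.κ (d.v a)).mul ((v11_mv d (Tst.continuous_dtφ hφ a)).add
        (continuous_finsetSum _ fun b _ =>
          (continuous_evR d.κ (d.U b)).mul (v11_mv d (Tst.continuous_dφ hφ b a)))))

theorem continuous_prL (d : Dat) (hφ : Tst φ) : Continuous (prL d φ) :=
  continuous_integral_Bx (v11_c1 d hφ)

theorem continuous_prL' (d : Dat) (hφ : Tst φ) : Continuous (prL' d φ) :=
  continuous_integral_Bx (v11_c2 d hφ)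

theorem continuous_wfL (d : Dat) (hφ : Tst φ) : Continuous (wfL d φ) := by
  refine continuous_integral_Bx ?_
  exact (continuous_finsetSum _ fun a _ =>
    (continuous_evR d.κ (d.v a)).mul (v11_mv d (Tst.continuous_dtφ hφ a))).add
    (continuous_finsetSum _ fun a _ => continuous_finsetSum _ fun b _ =>
      ((continuous_evR d.κ (d.v a)).mul (continuous_evR d.κ (d.v b))).mul
        (v11_mv d (Tst.continuous_dφ hφ b a)))

/-- Derivative of `s ↦ φ (X_s z) s a`. -/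
theorem hasDerivAt_φ_Xm (h : Good d t0 t1 lam g σ ρ c A) (hφ : Tst φ) (a : Fin 2)
    (z : Fin 2 → ℝ) {t : ℝ} (ht : t ∈ Set.Ioo t0 t1) :
    HasDerivAt (fun s => φ (Xm d s z) s a)
      (dtφ φ a (Xm d t z) t + ∑ b, evR d.κ (d.U b) z t * dφ φ b a (Xm d t z) t) t := by
  have h1 : HasDerivAt (fun s => Xm d s z) (fun b => evR d.κ (d.U b) z t) t := by
    refine hasDerivAt_pi.2 fun b => ?_
    exact (hasDerivAt_evR d.κ (h.tdξ b) z ht).const_add (z b)
  have h2 : HasDerivAt (fun s => (Xm d s z, s)) ((fun b => evR d.κ (d.U b) z t), (1 : ℝ)) t :=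
    h1.prodMk (hasDerivAt_id t)
  have h3 := HasFDerivAt.comp_hasDerivAt (f := fun s => (Xm d s z, s)) t
    (v11_fd hφ a (Xm d t z, t)) h2
  have h4 : (fderiv ℝ (fun p : (Fin 2 → ℝ) × ℝ => φ p.1 p.2 a) (Xm d t z, t))
      ((fun b => evR d.κ (d.U b) z t), (1 : ℝ)) =
      dtφ φ a (Xm d t z) t + ∑ b, evR d.κ (d.U b) z t * dφ φ b a (Xm d t z) t := by
    have e : (((fun b => evR d.κ (d.U b) z t), (1 : ℝ)) : (Fin 2 → ℝ) × ℝ) =
        ((0 : Fin 2 → ℝ), (1 : ℝ)) +
          ∑ b, evR d.κ (d.U b) z t • ((Pi.single b 1 : Fin 2 → ℝ), (0 : ℝ)) := by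
      rw [Fin.sum_univ_two]
      refine Prod.ext ?_ ?_
      · funext b
        fin_cases b <;> simp
      · simp
    rw [e, map_add, map_sum, v11_dtφ hφ a]
    congr 1
    refine Finset.sum_congr rfl fun b _ => ?_
    rw [map_smul, v11_dφ hφ b a, smul_eq_mul]
  rw [← h4]
  exact h3

theorem hasDerivAt_prL (h : Good d t0 t1 lam g σ ρ c A) (hφ : Tst φ) {t : ℝ}
    (ht : t ∈ Set.Ioo t0 t1) : HasDerivAt (prL d φ) (prL' d φ t) t := by
  refine hasDerivAt_integral_Bx (a := t0) (b := t1)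
    (G := fun z t => ∑ a, evR d.κ (d.v a) z t * φ (Xm d t z) t a)
    (G' := fun z t => ∑ a, (evR d.κ (d.rhs a) z t * φ (Xm d t z) t a
      + evR d.κ (d.v a) z t * (dtφ φ a (Xm d t z) t
        + ∑ b, evR d.κ (d.U b) z t * dφ φ b a (Xm d t z) t)))
    (v11_c1 d hφ) (v11_c2 d hφ) (fun z s hs => ?_) ht
  refine HasDerivAt.fun_sum fun a _ => ?_
  exact (hasDerivAt_evR d.κ (h.tdv a) z hs).mul (hasDerivAt_φ_Xm h hφ a z hs)

end

end ES

end

section

/-!
ES-V12 (Part II, helper27): `wfL - prL'` is the pairing of the Reynolds stress with `Dφ`.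

Fix `t`; all functions below are functions of `z`, periodic and `C¹`; `ψ_a = φ_a(X_t z, t)`,
`∂_j ψ_a = ∑_b F_{bj} (∂_b φ_a)(X)` (`fderiv_comp_Xm`).  The difference of the integrands is
`∑_a [ v_a ∑_b (v_b - U_b)(∂_b φ_a)(X) - rhs_a ψ_a ]`, and
`rhs_a = -(MᵀDp)_a + (D·(R Mᵀ))_a - (B·D) v_a`.
(1) `∑_b (v_b - U_b)(∂_b φ_a)(X) = ∑_j B_j ∂_j ψ_a` (`Good.evR_FB`).
(2) `∫ ∑_a ∑_j [ v_a B_j ∂_j ψ_a + B_j ∂_j v_a ψ_a ] = -∫ ∑_a (D·B) v_a ψ_a = 0`
    (`integral_partial_zero` for `B_j v_a ψ_a`, `h.div`).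
(3) `∫ ∑_a ∑_j M_{ja} D_j p ψ_a = -∫ p ∑_a ∑_j (D_j M_{ja} ψ_a + M_{ja} ∂_j ψ_a)
    = -∫ p ∑_a (∂_a φ_a)(X) = 0` (`piola`, `fderiv_comp_Xm'`, `hφ.div`).
(4) `-∫ ∑_a ∑_j D_j (R Mᵀ)_{aj} ψ_a = ∫ ∑_a ∑_j (R Mᵀ)_{aj} ∂_j ψ_a
    = ∫ ∑_{a,b} R_{ab} (∂_b φ_a)(X)` (`Good.evR_FM`).
The three identities are the lemmas below; the last theorem adds them.
-/

open MeasureTheory

namespace ES

section

variable {d : Dat} {t0 t1 lam g σ ρ c A : ℝ} {φ : Fld}

private theorem v12_continuous_evR (κ : Kp) (f : WT) (t : ℝ) :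
    Continuous fun z => evR κ f z t :=
  (continuous_evR κ f).comp (continuous_id.prodMk continuous_const)

private theorem v12_contDiff_evR (κ : Kp) (f : WT) (t : ℝ) :
    ContDiff ℝ 1 fun z => evR κ f z t := by
  rw [contDiff_one_iff_hasFDerivAt]
  refine ⟨fun z => ∑ a : Fin 2, evR κ (D κ a f) z t •
    (ContinuousLinearMap.proj a : (Fin 2 → ℝ) →L[ℝ] ℝ), ?_, fun z => hasFDerivAt_evR κ f z t⟩
  refine continuous_finsetSum _ fun a _ => ?_
  exact (v12_continuous_evR κ _ t).smul continuous_const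

private theorem v12_fderiv_evR (κ : Kp) (f : WT) (t : ℝ) (z : Fin 2 → ℝ) (j : Fin 2) :
    fderiv ℝ (fun z => evR κ f z t) z (Pi.single j 1) = evR κ (D κ j f) z t := by
  rw [(hasFDerivAt_evR κ f z t).fderiv]
  fin_cases j <;> simp

private theorem v12_per_evR (κ : Kp) (f : WT) (t : ℝ) : Per fun z => evR κ f z t :=
  fun z n => evR_periodic κ f z n t

private theorem v12_contDiff_phi {φ : Fld} (hφ : Tst φ) (t : ℝ) (a : Fin 2) :
    ContDiff ℝ 1 fun y => φ y t a := by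
  have h1 : ContDiff ℝ 2 (fun x : (Fin 2 → ℝ) × ℝ => φ x.1 x.2 a) :=
    (contDiff_pi.mp hφ.smooth) a
  exact (h1.comp (contDiff_id.prodMk contDiff_const)).of_le (by norm_num)

private theorem v12_contDiff_psi {φ : Fld} (hφ : Tst φ) (d : Dat) (t : ℝ) (a : Fin 2) :
    ContDiff ℝ 1 fun z => φ (Xm d t z) t a := by
  have h1 : ContDiff ℝ 1 (Xm d t) := by
    refine contDiff_pi.mpr fun b => ?_
    exact (contDiff_apply ℝ ℝ b).add (v12_contDiff_evR d.κ (d.ξ b) t)
  exact (v12_contDiff_phi hφ t a).comp h1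

private theorem v12_per_psi {φ : Fld} (hφ : Tst φ) (d : Dat) (t : ℝ) (a : Fin 2) :
    Per fun z => φ (Xm d t z) t a := by
  intro z n
  show φ (Xm d t fun a => z a + 2 * Real.pi * n a) t a = φ (Xm d t z) t a
  rw [Xm_periodic, hφ.per]

private theorem v12_per_mul {A B : (Fin 2 → ℝ) → ℝ} (hA : Per A) (hB : Per B) :
    Per fun z => A z * B z := by
  intro z n
  show A _ * B _ = A z * B z
  rw [hA, hB]

private theorem v12_diff {A : (Fin 2 → ℝ) → ℝ} (hA : ContDiff ℝ 1 A) (z : Fin 2 → ℝ) :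
    DifferentiableAt ℝ A z := (hA.differentiable (by norm_num)) z

private theorem v12_fderiv_mul {A B : (Fin 2 → ℝ) → ℝ} (hA : ContDiff ℝ 1 A)
    (hB : ContDiff ℝ 1 B) (z v : Fin 2 → ℝ) :
    fderiv ℝ (fun z => A z * B z) z v = fderiv ℝ A z v * B z + A z * fderiv ℝ B z v := by
  rw [fderiv_fun_mul (v12_diff hA z) (v12_diff hB z)]
  simp only [add_apply, smul_apply, smul_eq_mul]
  ring

private theorem v12_fderiv_psi {φ : Fld} (hφ : Tst φ) (d : Dat) (t : ℝ) (z : Fin 2 → ℝ)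
    (a j : Fin 2) :
    fderiv ℝ (fun z => φ (Xm d t z) t a) z (Pi.single j 1) =
      ∑ b, evR d.κ (d.F b j) z t * dφ φ b a (Xm d t z) t :=
  fderiv_comp_Xm d t (v12_diff (v12_contDiff_phi hφ t a) _) j

private theorem v12_continuous_dphi {φ : Fld} (hφ : Tst φ) (d : Dat) (t : ℝ) (b a : Fin 2) :
    Continuous fun z => dφ φ b a (Xm d t z) t := by
  have h1 : Continuous fun z => Xm d t z :=
    (continuous_Xm d).comp (continuous_id.prodMk continuous_const)
  exact (hφ.continuous_dφ b a).comp (h1.prodMk continuous_const)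

private theorem v12_continuous_dtphi {φ : Fld} (hφ : Tst φ) (d : Dat) (t : ℝ) (a : Fin 2) :
    Continuous fun z => dtφ φ a (Xm d t z) t := by
  have h1 : Continuous fun z => Xm d t z :=
    (continuous_Xm d).comp (continuous_id.prodMk continuous_const)
  exact (hφ.continuous_dtφ a).comp (h1.prodMk continuous_const)

private theorem v12_intg {A : (Fin 2 → ℝ) → ℝ} (hA : Continuous A) : IntegrableOn A Bx :=
  hA.integrableOn_Icc

private theorem v12_zero (G : Fin 2 → Fin 2 → (Fin 2 → ℝ) → ℝ)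
    (hG : ∀ a j, ContDiff ℝ 1 (G a j)) (hp : ∀ a j, Per (G a j)) :
    ∫ z in Bx, ∑ a, ∑ j, fderiv ℝ (G a j) z (Pi.single j 1) = 0 := by
  have hc : ∀ a j, Continuous fun z => fderiv ℝ (G a j) z (Pi.single j 1) := fun a j =>
    ((hG a j).continuous_fderiv (by norm_num)).clm_apply continuous_const
  rw [integral_finsetSum _ fun a _ => v12_intg (continuous_finsetSum _ fun j _ => hc a j)]
  refine Finset.sum_eq_zero fun a _ => ?_
  rw [integral_finsetSum _ fun j _ => v12_intg (hc a j)]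
  exact Finset.sum_eq_zero fun j _ => integral_partial_zero (hG a j) (hp a j) j

theorem V12_transport (h : Good d t0 t1 lam g σ ρ c A) (hφ : Tst φ) (t : ℝ) :
    ∫ z in Bx, ∑ a, (evR d.κ (d.v a) z t *
        (∑ b, (evR d.κ (d.v b) z t - evR d.κ (d.U b) z t) * dφ φ b a (Xm d t z) t)
      + evR d.κ (adv d.κ d.B d.v a) z t * φ (Xm d t z) t a) = 0 := by
  have key : ∀ z, ∑ a, (evR d.κ (d.v a) z t *
        (∑ b, (evR d.κ (d.v b) z t - evR d.κ (d.U b) z t) * dφ φ b a (Xm d t z) t)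
      + evR d.κ (adv d.κ d.B d.v a) z t * φ (Xm d t z) t a) =
      ∑ a, ∑ j, fderiv ℝ (fun z => evR d.κ (d.B j) z t *
        (evR d.κ (d.v a) z t * φ (Xm d t z) t a)) z (Pi.single j 1) := by
    intro z
    have hdiv : ∑ j, evR d.κ (D d.κ j (d.B j)) z t = 0 := by
      rw [← evR_sum]
      have := h.div
      unfold dvg at this
      rw [this, evR_zero]
    refine Finset.sum_congr rfl fun a _ => ?_
    have hadv : evR d.κ (adv d.κ d.B d.v a) z t =
        ∑ j, evR d.κ (d.B j) z t * evR d.κ (D d.κ j (d.v a)) z t := by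
      unfold adv
      rw [evR_sum]
      exact Finset.sum_congr rfl fun j _ => evR_mul (h.isR_B j) (h.rv a).D z t
    have hd : ∀ j : Fin 2, fderiv ℝ (fun z => evR d.κ (d.B j) z t *
        (evR d.κ (d.v a) z t * φ (Xm d t z) t a)) z (Pi.single j 1) =
        evR d.κ (D d.κ j (d.B j)) z t * (evR d.κ (d.v a) z t * φ (Xm d t z) t a) +
        (evR d.κ (d.B j) z t * evR d.κ (D d.κ j (d.v a)) z t * φ (Xm d t z) t a +
          evR d.κ (d.v a) z t * ∑ b, (evR d.κ (d.F b j) z t * evR d.κ (d.B j) z t) *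
            dφ φ b a (Xm d t z) t) := by
      intro j
      rw [v12_fderiv_mul (v12_contDiff_evR _ _ _)
        ((v12_contDiff_evR _ _ _).mul (v12_contDiff_psi hφ d t a)),
        v12_fderiv_mul (v12_contDiff_evR _ _ _) (v12_contDiff_psi hφ d t a),
        v12_fderiv_evR, v12_fderiv_evR, v12_fderiv_psi hφ]
      have e : ∑ b, (evR d.κ (d.F b j) z t * evR d.κ (d.B j) z t) * dφ φ b a (Xm d t z) t =
          evR d.κ (d.B j) z t * ∑ b, evR d.κ (d.F b j) z t * dφ φ b a (Xm d t z) t := by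
        rw [Finset.mul_sum]
        exact Finset.sum_congr rfl fun b _ => by ring
      rw [e]
      ring
    simp_rw [hd]
    rw [Finset.sum_add_distrib, ← Finset.sum_mul, hdiv, zero_mul, zero_add,
      Finset.sum_add_distrib, ← Finset.sum_mul, ← hadv, ← Finset.mul_sum, Finset.sum_comm]
    have e2 : ∀ b : Fin 2, ∑ j, (evR d.κ (d.F b j) z t * evR d.κ (d.B j) z t) *
        dφ φ b a (Xm d t z) t =
        (evR d.κ (d.v b) z t - evR d.κ (d.U b) z t) * dφ φ b a (Xm d t z) t := by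
      intro b
      rw [← Finset.sum_mul, h.evR_FB]
    simp_rw [e2]
    ring
  simp_rw [key]
  exact v12_zero _
    (fun a j => (v12_contDiff_evR _ _ _).mul
      ((v12_contDiff_evR _ _ _).mul (v12_contDiff_psi hφ d t a)))
    (fun a j => v12_per_mul (v12_per_evR _ _ _)
      (v12_per_mul (v12_per_evR _ _ _) (v12_per_psi hφ d t a)))

theorem V12_pressure (h : Good d t0 t1 lam g σ ρ c A) (hφ : Tst φ) (t : ℝ) :
    ∫ z in Bx, ∑ a, evR d.κ (gradT d.κ d.M d.p a) z t * φ (Xm d t z) t a = 0 := by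
  have key : ∀ z, ∑ a, evR d.κ (gradT d.κ d.M d.p a) z t * φ (Xm d t z) t a =
      ∑ a, ∑ j, fderiv ℝ (fun z => evR d.κ (d.M j a) z t *
        (evR d.κ d.p z t * φ (Xm d t z) t a)) z (Pi.single j 1) := by
    intro z
    have hpi : ∀ a : Fin 2, ∑ j, evR d.κ (D d.κ j (d.M j a)) z t = 0 := by
      intro a
      rw [← evR_sum, piolaM, evR_zero]
    have hdiv : ∑ a, dφ φ a a (Xm d t z) t = 0 := hφ.div (Xm d t z) t
    have hM : ∀ a : Fin 2, ∑ j, evR d.κ (d.M j a) z t *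
        fderiv ℝ (fun z => φ (Xm d t z) t a) z (Pi.single j 1) = dφ φ a a (Xm d t z) t :=
      fun a => (fderiv_comp_Xm' h t (v12_diff (v12_contDiff_phi hφ t a) _) a).symm
    have hg : ∀ a : Fin 2, evR d.κ (gradT d.κ d.M d.p a) z t =
        ∑ j, evR d.κ (d.M j a) z t * evR d.κ (D d.κ j d.p) z t := by
      intro a
      unfold gradT mulvT
      rw [evR_sum]
      exact Finset.sum_congr rfl fun j _ => evR_mul (h.isR_M j a) h.rp.D z t
    have hd : ∀ a j : Fin 2, fderiv ℝ (fun z => evR d.κ (d.M j a) z t *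
        (evR d.κ d.p z t * φ (Xm d t z) t a)) z (Pi.single j 1) =
        evR d.κ (D d.κ j (d.M j a)) z t * (evR d.κ d.p z t * φ (Xm d t z) t a) +
        (evR d.κ (d.M j a) z t * evR d.κ (D d.κ j d.p) z t * φ (Xm d t z) t a +
          evR d.κ d.p z t * (evR d.κ (d.M j a) z t *
            fderiv ℝ (fun z => φ (Xm d t z) t a) z (Pi.single j 1))) := by
      intro a j
      rw [v12_fderiv_mul (v12_contDiff_evR _ _ _)
        ((v12_contDiff_evR _ _ _).mul (v12_contDiff_psi hφ d t a)),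
        v12_fderiv_mul (v12_contDiff_evR _ _ _) (v12_contDiff_psi hφ d t a),
        v12_fderiv_evR, v12_fderiv_evR]
      ring
    have hs : ∀ a : Fin 2, ∑ j, fderiv ℝ (fun z => evR d.κ (d.M j a) z t *
        (evR d.κ d.p z t * φ (Xm d t z) t a)) z (Pi.single j 1) =
        evR d.κ (gradT d.κ d.M d.p a) z t * φ (Xm d t z) t a +
          evR d.κ d.p z t * dφ φ a a (Xm d t z) t := by
      intro a
      simp_rw [hd]
      rw [Finset.sum_add_distrib, ← Finset.sum_mul, hpi, zero_mul, zero_add,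
        Finset.sum_add_distrib, ← Finset.sum_mul, ← hg, ← Finset.mul_sum, hM]
    simp_rw [hs]
    rw [Finset.sum_add_distrib, ← Finset.mul_sum, hdiv, mul_zero, add_zero]
  simp_rw [key]
  exact v12_zero _
    (fun a j => (v12_contDiff_evR _ _ _).mul
      ((v12_contDiff_evR _ _ _).mul (v12_contDiff_psi hφ d t a)))
    (fun a j => v12_per_mul (v12_per_evR _ _ _)
      (v12_per_mul (v12_per_evR _ _ _) (v12_per_psi hφ d t a)))

theorem V12_stress (h : Good d t0 t1 lam g σ ρ c A) (hφ : Tst φ) (t : ℝ) :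
    -∫ z in Bx, ∑ a, evR d.κ (dvm d.κ (mulT d.R d.M) a) z t * φ (Xm d t z) t a
      = ∫ z in Bx, ∑ a, ∑ b, evR d.κ (d.R a b) z t * dφ φ b a (Xm d t z) t := by
  have key : ∀ z, ∑ a, evR d.κ (dvm d.κ (mulT d.R d.M) a) z t * φ (Xm d t z) t a +
      ∑ a, ∑ b, evR d.κ (d.R a b) z t * dφ φ b a (Xm d t z) t =
      ∑ a, ∑ j, fderiv ℝ (fun z => evR d.κ (mulT d.R d.M a j) z t * φ (Xm d t z) t a) z
        (Pi.single j 1) := by
    intro z
    rw [← Finset.sum_add_distrib]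
    refine Finset.sum_congr rfl fun a _ => ?_
    have hX : ∀ j : Fin 2, evR d.κ (mulT d.R d.M a j) z t =
        ∑ k, evR d.κ (d.R a k) z t * evR d.κ (d.M j k) z t := by
      intro j
      unfold mulT
      rw [evR_sum]
      exact Finset.sum_congr rfl fun k _ => evR_mul (h.rR a k) (h.isR_M j k) z t
    have hd : ∀ j : Fin 2, fderiv ℝ (fun z => evR d.κ (mulT d.R d.M a j) z t *
        φ (Xm d t z) t a) z (Pi.single j 1) =
        evR d.κ (D d.κ j (mulT d.R d.M a j)) z t * φ (Xm d t z) t a +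
        ∑ k, ∑ b, evR d.κ (d.R a k) z t * dφ φ b a (Xm d t z) t *
          (evR d.κ (d.F b j) z t * evR d.κ (d.M j k) z t) := by
      intro j
      rw [v12_fderiv_mul (v12_contDiff_evR _ _ _) (v12_contDiff_psi hφ d t a),
        v12_fderiv_evR, v12_fderiv_psi hφ, hX, Finset.sum_mul_sum]
      congr 1
      refine Finset.sum_congr rfl fun k _ => Finset.sum_congr rfl fun b _ => ?_
      ring
    simp_rw [hd]
    rw [Finset.sum_add_distrib, ← Finset.sum_mul]
    congr 1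
    · unfold dvm
      rw [evR_sum]
    · rw [Finset.sum_comm]
      refine Finset.sum_congr rfl fun k _ => ?_
      rw [Finset.sum_comm]
      have e : ∀ b : Fin 2, ∑ j, evR d.κ (d.R a k) z t * dφ φ b a (Xm d t z) t *
          (evR d.κ (d.F b j) z t * evR d.κ (d.M j k) z t) =
          evR d.κ (d.R a k) z t * dφ φ b a (Xm d t z) t * (if b = k then 1 else 0) := by
        intro b
        rw [← Finset.mul_sum, h.evR_FM]
      simp_rw [e]
      simp
  have hz := v12_zero (fun a j z => evR d.κ (mulT d.R d.M a j) z t * φ (Xm d t z) t a)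
    (fun a j => (v12_contDiff_evR _ _ _).mul (v12_contDiff_psi hφ d t a))
    (fun a j => v12_per_mul (v12_per_evR _ _ _) (v12_per_psi hφ d t a))
  simp_rw [← key] at hz
  rw [integral_add] at hz
  · linarith
  · exact v12_intg (continuous_finsetSum _ fun a _ =>
      (v12_continuous_evR _ _ _).mul (v12_contDiff_psi hφ d t a).continuous)
  · exact v12_intg (continuous_finsetSum _ fun a _ => continuous_finsetSum _ fun b _ =>
      (v12_continuous_evR _ _ _).mul (v12_continuous_dphi hφ d t b a))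

theorem wfL_sub_prL' (h : Good d t0 t1 lam g σ ρ c A) (hφ : Tst φ) (t : ℝ) :
    wfL d φ t - prL' d φ t
      = ∫ z in Bx, ∑ a, ∑ b, evR d.κ (d.R a b) z t * dφ φ b a (Xm d t z) t := by
  have hψ : ∀ a : Fin 2, Continuous fun z => φ (Xm d t z) t a := fun a =>
    (v12_contDiff_psi hφ d t a).continuous
  have he : ∀ f : WT, Continuous fun z => evR d.κ f z t := fun f => v12_continuous_evR _ _ _
  have hΦ : ∀ b a : Fin 2, Continuous fun z => dφ φ b a (Xm d t z) t := fun b a =>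
    v12_continuous_dphi hφ d t b a
  have ht : ∀ a : Fin 2, Continuous fun z => dtφ φ a (Xm d t z) t := fun a =>
    v12_continuous_dtphi hφ d t a
  have h1 := V12_transport h hφ t
  have h2 := V12_pressure h hφ t
  have h3 := V12_stress h hφ t
  rw [← h3]
  unfold wfL prL'
  rw [← integral_sub]
  · have e : ∀ z, ((∑ a, evR d.κ (d.v a) z t * dtφ φ a (Xm d t z) t)
        + ∑ a, ∑ b, evR d.κ (d.v a) z t * evR d.κ (d.v b) z t * dφ φ b a (Xm d t z) t) -
        (∑ a, (evR d.κ (d.rhs a) z t * φ (Xm d t z) t a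
          + evR d.κ (d.v a) z t * (dtφ φ a (Xm d t z) t
            + ∑ b, evR d.κ (d.U b) z t * dφ φ b a (Xm d t z) t))) =
        ((∑ a, (evR d.κ (d.v a) z t *
            (∑ b, (evR d.κ (d.v b) z t - evR d.κ (d.U b) z t) * dφ φ b a (Xm d t z) t)
          + evR d.κ (adv d.κ d.B d.v a) z t * φ (Xm d t z) t a)) +
        ∑ a, evR d.κ (gradT d.κ d.M d.p a) z t * φ (Xm d t z) t a) -
        ∑ a, evR d.κ (dvm d.κ (mulT d.R d.M) a) z t * φ (Xm d t z) t a := by
      intro z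
      have hr : ∀ a : Fin 2, evR d.κ (d.rhs a) z t =
          -evR d.κ (gradT d.κ d.M d.p a) z t + evR d.κ (dvm d.κ (mulT d.R d.M) a) z t -
            evR d.κ (adv d.κ d.B d.v a) z t := by
        intro a
        unfold Dat.rhs Dat.acc
        rw [evR_sub, evR_add, evR_neg]
      simp_rw [hr, Fin.sum_univ_two]
      ring
    simp_rw [e]
    rw [integral_sub, integral_add, h1, h2]
    · ring
    · exact v12_intg (continuous_finsetSum _ fun a _ => ((he _).mul
        (continuous_finsetSum _ fun b _ => ((he _).sub (he _)).mul (hΦ b a))).add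
          ((he _).mul (hψ a)))
    · exact v12_intg (continuous_finsetSum _ fun a _ => (he _).mul (hψ a))
    · exact v12_intg ((continuous_finsetSum _ fun a _ => ((he _).mul
        (continuous_finsetSum _ fun b _ => ((he _).sub (he _)).mul (hΦ b a))).add
          ((he _).mul (hψ a))).add (continuous_finsetSum _ fun a _ => (he _).mul (hψ a)))
    · exact v12_intg (continuous_finsetSum _ fun a _ => (he _).mul (hψ a))
  · exact v12_intg ((continuous_finsetSum _ fun a _ => (he _).mul (ht a)).add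
      (continuous_finsetSum _ fun a _ => continuous_finsetSum _ fun b _ =>
        ((he _).mul (he _)).mul (hΦ b a)))
  · exact v12_intg (continuous_finsetSum _ fun a _ => ((he _).mul (hψ a)).add
      ((he _).mul ((ht a).add (continuous_finsetSum _ fun b _ => (he _).mul (hΦ b a)))))

end

end ES

end

section

/-!
ES-V13 (Part II, helper27): the fact `weak`.

With data `d` of `h`: `∫_{t0}^{t1} wf V φ = ∫ wfL = ∫ prL' + ∫ (stress pairing)`, and
`∫_{t0}^{t1} prL' = prL(t1) - prL(t0)` (`intervalIntegral.integral_eq_sub_of_hasDerivAt_of_le`,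
`hasDerivAt_prL`, continuity of `prL`, `prL'`).  The stress pairing at each time is at most
`4 σ Λ (2π)^2` (`wfL_sub_prL'`, `Good.abs_R`, `abs_integral_Bx_le`).
-/

open MeasureTheory

namespace ES

theorem fact_weak (V : Fld) (t0 t1 lam g σ ρ c A : ℝ) (h : BI V t0 t1 lam g σ ρ c A) (hρ : 0 < ρ)
    (h0 : 0 ≤ c) (hc : c ≤ 1 / 10) : WE V t0 t1 (4 * (2 * Real.pi) ^ 2 * σ) := by
  obtain ⟨d, hd, hV⟩ := h
  intro φ hφ Λ hΛ
  have hlt := hd.ht
  have hle := hlt.le
  -- bound of the stress pairing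
  have hb : ∀ t, |wfL d φ t - prL' d φ t| ≤ 4 * σ * Λ * (2 * Real.pi) ^ 2 := by
    intro t
    rw [wfL_sub_prL' hd hφ t]
    refine (abs_integral_Bx_le (C := 4 * σ * Λ) fun z => ?_).trans (le_refl _)
    have h1 : ∀ a b, |evR d.κ (d.R a b) z t * dφ φ b a (Xm d t z) t| ≤ σ * Λ := by
      intro a b
      rw [abs_mul]
      exact mul_le_mul (hd.abs_R hρ.le a b z t) (hΛ _ _ _ _) (abs_nonneg _)
        ((abs_nonneg _).trans (hd.abs_R hρ.le a b z t))
    simp only [Fin.sum_univ_two]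
    have e := fun a b => abs_le.1 (h1 a b)
    rw [abs_le]
    constructor <;> linarith [(e 0 0).1, (e 0 0).2, (e 0 1).1, (e 0 1).2, (e 1 0).1, (e 1 0).2,
      (e 1 1).1, (e 1 1).2]
  -- fundamental theorem for prL
  have hF : ∫ τ in t0..t1, prL' d φ τ = prL d φ t1 - prL d φ t0 :=
    intervalIntegral.integral_eq_sub_of_hasDerivAt_of_le hle (continuous_prL d hφ).continuousOn
      (fun t ht => hasDerivAt_prL hd hφ ht) ((continuous_prL' d hφ).intervalIntegrable _ _)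
  have hW : ∫ τ in t0..t1, wf V φ τ = ∫ τ in t0..t1, wfL d φ τ := by
    apply intervalIntegral.integral_congr
    intro τ hτ
    rw [Set.uIcc_of_le hle] at hτ
    exact wf_eq hd hρ.le hc hV hφ hτ
  have hS : (∫ τ in t0..t1, wfL d φ τ) - (∫ τ in t0..t1, prL' d φ τ)
      = ∫ τ in t0..t1, (wfL d φ τ - prL' d φ τ) :=
    (intervalIntegral.integral_sub ((continuous_wfL d hφ).intervalIntegrable _ _)
      ((continuous_prL' d hφ).intervalIntegrable _ _)).symm
  rw [hW, pr_eq hd hρ.le hc hV hφ (Set.right_mem_Icc.2 hle),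
    pr_eq hd hρ.le hc hV hφ (Set.left_mem_Icc.2 hle), ← hF, hS]
  have h2 := intervalIntegral.norm_integral_le_of_norm_le_const
    (a := t0) (b := t1) (f := fun τ => wfL d φ τ - prL' d φ τ)
    (C := 4 * σ * Λ * (2 * Real.pi) ^ 2) (fun x _ => by rw [Real.norm_eq_abs]; exact hb x)
  rw [Real.norm_eq_abs, abs_of_nonneg (by linarith : (0:ℝ) ≤ t1 - t0)] at h2
  refine h2.trans (le_of_eq ?_)
  ring

end ES

end

section

/-!
ES-V14 (Part II, helper27): continuity and time derivative at fixed Eulerian points.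

Let `Y` be the inverse of `X` (`Good.exists_inv`).  A field `G` represented by `f` on `[t0,t1]` is
`G(x,t) = evR f (Y(x,t)) t`: jointly continuous.
Time derivative of the inverse at `t ∈ (t0,t1)`, `z = Y(x,t)`: put `y(s) = Y(x,s)`, so
`X_s(y(s)) = x`.  The map `(z,s) ↦ X_s(z)` is strictly differentiable at `(z,t)`
(`hasStrictFDerivAt_evR` with `h.tdξ`), with derivative `(w,τ) ↦ DX w + τ U`.  Moreover
`‖y(s) - z‖ ≤ 2 ‖X_s(y(s)) - X_s(z)‖ = 2 ‖X_t(z) - X_s(z)‖ = O(|s-t|)` (`Good.inv_lip`).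
Hence `0 = X_s(y(s)) - X_t(z) = DX (y(s)-z) + (s-t) U + o(|s-t|)`; apply `DY`:
`y'(t) = -DY U`, component `j`: `-∑_b M_{jb} U_b`.
(Or use `HasStrictFDerivAt.to_localInverse` for `(z,s) ↦ (X_s z, s)`.)
Then by the chain rule (`hasStrictFDerivAt_evR`)
`∂_t G = f' - ∑_j (D_j f) ∑_b M_{jb} U_b = f' - ∑_b U_b ED_b f`.
-/

namespace ES

/-- `f` represents `G` on `[t0,t1]`. -/
def RepS (d : Dat) (t0 t1 : ℝ) (G : (Fin 2 → ℝ) → ℝ → ℝ) (f : WT) : Prop :=
  ∀ t ∈ Set.Icc t0 t1, RepT d t (fun x => G x t) f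

theorem Rep.repS {d : Dat} {V : Fld} {t0 t1 : ℝ} (h : Rep d V t0 t1) (a : Fin 2) :
    RepS d t0 t1 (fun x t => V x t a) (d.v a) :=
  fun t ht z => (h t ht).2 z a

section

variable {d : Dat} {t0 t1 lam g σ ρ c A : ℝ}

theorem RepS.continuousOn (h : Good d t0 t1 lam g σ ρ c A) (hρ : 0 ≤ ρ) (hc : c ≤ 1 / 10)
    {G : (Fin 2 → ℝ) → ℝ → ℝ} {f : WT} (hG : RepS d t0 t1 G f) :
    ContinuousOn (fun p : (Fin 2 → ℝ) × ℝ => G p.1 p.2) (Set.univ ×ˢ Set.Icc t0 t1) := by
  obtain ⟨Y, hY1, -, hY3⟩ := h.exists_inv hρ hc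
  have h1 : Continuous fun p : (Fin 2 → ℝ) × ℝ => evR d.κ f (Y p.2 p.1) p.2 :=
    (continuous_evR d.κ f).comp (hY3.prodMk continuous_snd)
  refine h1.continuousOn.congr fun p hp => ?_
  have h2 := hG p.2 hp.2 (Y p.2 p.1)
  rw [hY1] at h2
  exact h2

/-- Strict derivative of `(z,s) ↦ X_s z`. -/
private theorem v14_strict (h : Good d t0 t1 lam g σ ρ c A) (z : Fin 2 → ℝ) {t : ℝ}
    (ht : t ∈ Set.Ioo t0 t1) :
    HasStrictFDerivAt (fun p : (Fin 2 → ℝ) × ℝ => Xm d p.2 p.1)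
      ((DX d t z).comp (ContinuousLinearMap.fst ℝ (Fin 2 → ℝ) ℝ) +
        (ContinuousLinearMap.snd ℝ (Fin 2 → ℝ) ℝ).smulRight
          (fun a => evR d.κ (d.U a) z t)) (z, t) := by
  rw [hasStrictFDerivAt_pi']
  intro a
  have h1 := hasStrictFDerivAt_evR d.κ (h.tdξ a) z ht
  have h2 : HasStrictFDerivAt (fun p : (Fin 2 → ℝ) × ℝ => p.1 a)
      ((ContinuousLinearMap.proj a : (Fin 2 → ℝ) →L[ℝ] ℝ).comp
        (ContinuousLinearMap.fst ℝ (Fin 2 → ℝ) ℝ)) (z, t) :=
    ((ContinuousLinearMap.proj a : (Fin 2 → ℝ) →L[ℝ] ℝ).comp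
        (ContinuousLinearMap.fst ℝ (Fin 2 → ℝ) ℝ)).hasStrictFDerivAt
  refine (h2.add h1).congr_fderiv ?_
  ext1
  · ext w
    simp only [add_apply, ContinuousLinearMap.comp_apply,
      ContinuousLinearMap.inl_apply, ContinuousLinearMap.proj_apply,
      ContinuousLinearMap.coe_fst', ContinuousLinearMap.coe_snd', sum_apply,
      smul_apply, smul_eq_mul, mul_zero, add_zero,
      ContinuousLinearMap.smulRight_apply, zero_smul]
    rw [DX_apply]
    have h3 : ∀ b, evR d.κ (d.F a b) z t = (if a = b then 1 else 0) +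
        evR d.κ (D d.κ b (d.ξ a)) z t := by
      intro b
      have h4 : d.F a b = idm a b + D d.κ b (d.ξ a) := rfl
      rw [h4, evR_add]
      congr 1
      unfold idm
      split_ifs
      · exact evR_one _ _ _
      · exact evR_zero _ _ _
    simp only [h3, add_mul, Finset.sum_add_distrib]
    congr 1
    simp
  · ext
    simp

/-- Time derivative of the inverse map, as a vector. -/
private theorem v14_inv (h : Good d t0 t1 lam g σ ρ c A) (hρ : 0 ≤ ρ) (hc : c ≤ 1 / 10)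
    {Y : ℝ → (Fin 2 → ℝ)} {x : Fin 2 → ℝ} (hY : ∀ s, Xm d s (Y s) = x) {t : ℝ}
    (ht : t ∈ Set.Ioo t0 t1) :
    HasDerivAt Y (-(DY d t (Y t) (fun a => evR d.κ (d.U a) (Y t) t))) t := by
  set z := Y t with hz
  set U : Fin 2 → ℝ := fun a => evR d.κ (d.U a) z t with hU
  have hS := v14_strict h z ht
  have hF : HasFDerivAt (fun p : (Fin 2 → ℝ) × ℝ => Xm d p.2 p.1)
      ((DX d t z).comp (ContinuousLinearMap.fst ℝ (Fin 2 → ℝ) ℝ) +
        (ContinuousLinearMap.snd ℝ (Fin 2 → ℝ) ℝ).smulRight U) (z, t) := hS.hasFDerivAt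
  -- `s ↦ X_s z` is differentiable
  have h1 : HasDerivAt (fun s => Xm d s z) U t := by
    have h2 : HasDerivAt (fun s : ℝ => ((z, s) : (Fin 2 → ℝ) × ℝ)) (0, 1) t :=
      (hasDerivAt_const t z).prodMk (hasDerivAt_id t)
    have h3 := hF.comp_hasDerivAt t h2
    refine h3.congr_deriv ?_
    simp
  have hO : (fun s => Y s - z) =O[nhds t] fun s => s - t := by
    have h4 : (fun s => Xm d s z - Xm d t z) =O[nhds t] fun s => s - t := h1.isBigO_sub
    refine (Asymptotics.IsBigO.of_bound 2 (Filter.Eventually.of_forall fun s => ?_)).trans h4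
    have h5 := h.inv_lip hρ hc s (Y s) z
    rw [hY s, ← hY t, ← hz, norm_sub_rev (Xm d t z)] at h5
    exact h5
  have hT : Filter.Tendsto (fun s => ((Y s, s) : (Fin 2 → ℝ) × ℝ)) (nhds t) (nhds (z, t)) := by
    rw [nhds_prod_eq]
    refine Filter.Tendsto.prodMk ?_ Filter.tendsto_id
    have h6 : Filter.Tendsto (fun s => Y s - z) (nhds t) (nhds 0) := by
      refine hO.trans_tendsto ?_
      have : Filter.Tendsto (fun s : ℝ => s - t) (nhds t) (nhds (t - t)) :=
        (continuous_id.sub continuous_const).tendsto t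
      rwa [sub_self] at this
    have h7 := h6.add_const z
    simpa using h7
  have hO2 : (fun s => ((Y s, s) : (Fin 2 → ℝ) × ℝ) - (z, t)) =O[nhds t] fun s => s - t := by
    have e : (fun s => ((Y s, s) : (Fin 2 → ℝ) × ℝ) - (z, t)) = fun s => (Y s - z, s - t) := rfl
    rw [e]
    exact hO.prod_left (Asymptotics.isBigO_refl _ _)
  have hlo := ((hasFDerivAt_iff_isLittleO.1 hF).comp_tendsto hT).trans_isBigO hO2
  have hlo2 : (fun s => DX d t z (Y s - z) + (s - t) • U) =o[nhds t] fun s => s - t := by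
    refine (hlo.neg_left).congr_left fun s => ?_
    simp only [Function.comp_apply, hY, add_apply,
      ContinuousLinearMap.comp_apply, ContinuousLinearMap.coe_fst', ContinuousLinearMap.coe_snd',
      ContinuousLinearMap.smulRight_apply, Prod.fst_sub, Prod.snd_sub]
    rw [← hY t, ← hz]
    abel
  have hlo3 : (fun s => DY d t z (DX d t z (Y s - z) + (s - t) • U)) =o[nhds t]
      fun s => s - t :=
    ((DY d t z).isBigO_comp _ _).trans_isLittleO hlo2
  rw [hasDerivAt_iff_isLittleO]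
  refine hlo3.congr_left fun s => ?_
  rw [map_add, map_smul, h.DY_DX, smul_neg, sub_neg_eq_add]

theorem RepS.hasDerivAt (h : Good d t0 t1 lam g σ ρ c A) (hρ : 0 ≤ ρ) (hc : c ≤ 1 / 10)
    {G : (Fin 2 → ℝ) → ℝ → ℝ} {f f' : WT} (hf : IsR f) (hf' : TD t0 t1 f f')
    (hG : RepS d t0 t1 G f) {t : ℝ} (ht : t ∈ Set.Ioo t0 t1) (z : Fin 2 → ℝ) :
    HasDerivAt (fun s => G (Xm d t z) s)
      (evR d.κ f' z t - ∑ b, evR d.κ (d.U b) z t * evR d.κ (ED d b f) z t) t := by
  obtain ⟨Y, hY1, hY2, -⟩ := h.exists_inv hρ hc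
  set x := Xm d t z with hx
  have hYt : Y t x = z := hY2 t z
  have h1 := v14_inv h hρ hc (Y := fun s => Y s x) (fun s => hY1 s x) ht
  simp only [hYt] at h1
  have h2 : HasDerivAt (fun s => ((Y s x, s) : (Fin 2 → ℝ) × ℝ))
      (-(DY d t z (fun a => evR d.κ (d.U a) z t)), 1) t := h1.prodMk (hasDerivAt_id t)
  have h3 := hasStrictFDerivAt_evR d.κ hf' z ht
  have h3' : HasFDerivAt (fun p : (Fin 2 → ℝ) × ℝ => evR d.κ f p.1 p.2)
      ((∑ a : Fin 2, evR d.κ (D d.κ a f) z t •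
          ((ContinuousLinearMap.proj a : (Fin 2 → ℝ) →L[ℝ] ℝ).comp
            (ContinuousLinearMap.fst ℝ (Fin 2 → ℝ) ℝ))) +
        evR d.κ f' z t • ContinuousLinearMap.snd ℝ (Fin 2 → ℝ) ℝ) (Y t x, t) := by
    rw [hYt]; exact h3.hasFDerivAt
  have h4 := HasFDerivAt.comp_hasDerivAt (f := fun s => ((Y s x, s) : (Fin 2 → ℝ) × ℝ)) t h3' h2
  have h5 : HasDerivAt (fun s => G x s)
      (((∑ a : Fin 2, evR d.κ (D d.κ a f) z t •
          ((ContinuousLinearMap.proj a : (Fin 2 → ℝ) →L[ℝ] ℝ).comp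
            (ContinuousLinearMap.fst ℝ (Fin 2 → ℝ) ℝ))) +
        evR d.κ f' z t • ContinuousLinearMap.snd ℝ (Fin 2 → ℝ) ℝ)
        (-(DY d t z (fun a => evR d.κ (d.U a) z t)), 1)) t := by
    refine h4.congr_of_eventuallyEq ?_
    filter_upwards [Icc_mem_nhds ht.1 ht.2] with s hs
    have h6 := hG s hs (Y s x)
    simp only [hY1] at h6
    exact h6
  refine h5.congr_deriv ?_
  have hED : ∀ b, evR d.κ (ED d b f) z t = ∑ j, evR d.κ (d.M j b) z t *
      evR d.κ (D d.κ j f) z t := by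
    intro b
    unfold ED
    rw [evR_sum]
    exact Finset.sum_congr rfl fun j _ => evR_mul (h.isR_M j b) hf.D z t
  simp only [hED, add_apply,
    smul_apply, ContinuousLinearMap.comp_apply,
    ContinuousLinearMap.coe_fst', ContinuousLinearMap.coe_snd', ContinuousLinearMap.proj_apply,
    smul_eq_mul, Pi.neg_apply, DY_apply, Fin.sum_univ_two]
  ring

end

end ES

end

section

/-!
ES-V15 (Part II, helper27): the fact `lip`.

Space: `∂_b V_a` is represented by `ED d b (v a) = ∑_j M_{jb} D_j v_a`, bounded by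
`g (|M_{0b}| + |M_{1b}|) ≤ g (1 + 2 c) ≤ 2 g` (`Good.abs_G`, `Good.abs_M_sub`); hence
`|V(x,t,a) - V(y,t,a)| ≤ 4 g ‖x-y‖` (mean value inequality).
Time: at `x = X_t(z)`, `t ∈ (t0,t1)`:
`∂_t V_a = rhs_a - ∑_b U_b ED_b v_a = acc_a - (B·D) v_a - ∑_b U_b ED_b v_a = acc_a - ∑_b v_b ED_b v_a`
since `B_j = ∑_b M_{jb}(v_b - U_b)`; so `|∂_t V_a| ≤ A + 2 v0 · 2 g`.
Mean value theorem on `[t0,t1]`, using the continuity of `t ↦ V x t a` on `[t0,t1]`
(`RepS.continuousOn`).  (`v0 ≥ 0`, as it bounds an absolute value.)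
-/

namespace ES

section

variable {d : Dat} {t0 t1 lam g σ ρ c A v0 : ℝ} {V : Fld}

private theorem v15_ED (h : Good d t0 t1 lam g σ ρ c A) (f : WT) (hf : IsR f) (b : Fin 2)
    (z : Fin 2 → ℝ) (t : ℝ) :
    evR d.κ (ED d b f) z t = ∑ j, evR d.κ (d.M j b) z t * evR d.κ (D d.κ j f) z t := by
  unfold ED
  rw [evR_sum]
  exact Finset.sum_congr rfl fun j _ => evR_mul (h.isR_M j b) hf.D z t

private theorem v15_ED_bound (h : Good d t0 t1 lam g σ ρ c A) (hρ : 0 ≤ ρ) (hc : c ≤ 1 / 10)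
    (a b : Fin 2) (z : Fin 2 → ℝ) (t : ℝ) : |evR d.κ (ED d b (d.v a)) z t| ≤ 2 * g := by
  rw [v15_ED h _ (h.rv a)]
  have hg : 0 ≤ g := (abs_nonneg _).trans (h.abs_G hρ a 0 z t)
  have hM : ∀ j, |evR d.κ (d.M j b) z t| ≤ (if j = b then 1 else 0) + c := by
    intro j
    have h1 := h.abs_M_sub hρ j b z t
    split_ifs at h1 ⊢ with hj
    · have := abs_sub_abs_le_abs_sub (evR d.κ (d.M j b) z t) 1
      rw [abs_one] at this; linarith
    · rw [sub_zero] at h1; linarith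
  have hterm : ∀ j, |evR d.κ (d.M j b) z t * evR d.κ (D d.κ j (d.v a)) z t|
      ≤ ((if j = b then 1 else 0) + c) * g := by
    intro j
    rw [abs_mul]
    exact mul_le_mul (hM j) (h.abs_G hρ a j z t) (abs_nonneg _) ((abs_nonneg _).trans (hM j))
  refine (Finset.abs_sum_le_sum_abs _ _).trans ((Finset.sum_le_sum fun j _ => hterm j).trans ?_)
  rw [Fin.sum_univ_two]
  have : ((if (0 : Fin 2) = b then (1:ℝ) else 0) + c) * g + ((if (1 : Fin 2) = b then (1:ℝ) else 0) + c) * g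
      = (1 + 2 * c) * g := by
    fin_cases b
    · simp; ring
    · simp; ring
  rw [this]
  nlinarith

theorem V15_space (h : Good d t0 t1 lam g σ ρ c A) (hρ : 0 ≤ ρ) (hc0 : 0 ≤ c) (hc : c ≤ 1 / 10)
    (hV : Rep d V t0 t1) {t : ℝ} (ht : t ∈ Set.Icc t0 t1) (x y : Fin 2 → ℝ) (a : Fin 2) :
    |V x t a - V y t a| ≤ 4 * g * ‖x - y‖ := by
  have hR : RepT d t (fun x => V x t a) (d.v a) := hV.repS a t ht
  have hbij := h.bij hρ hc t
  have hg : 0 ≤ g := (abs_nonneg _).trans (h.abs_G hρ a 0 x t)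
  have hd : ∀ w : Fin 2 → ℝ, ∃ f' : (Fin 2 → ℝ) →L[ℝ] ℝ,
      HasFDerivAt (fun x => V x t a) f' w ∧ ‖f'‖ ≤ 4 * g := by
    intro w
    obtain ⟨z, rfl⟩ := hbij.2 w
    refine ⟨_, RepT.hasFDerivAt h hρ hc (h.rv a) hR z, ?_⟩
    refine ContinuousLinearMap.opNorm_le_bound _ (by positivity) fun u => ?_
    rw [ContinuousLinearMap.sum_apply, Real.norm_eq_abs]
    refine (Finset.abs_sum_le_sum_abs _ _).trans ?_
    have h1 : ∀ b : Fin 2, |(evR d.κ (ED d b (d.v a)) z t •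
        (ContinuousLinearMap.proj b : (Fin 2 → ℝ) →L[ℝ] ℝ)) u| ≤ 2 * g * ‖u‖ := by
      intro b
      rw [ContinuousLinearMap.smul_apply, ContinuousLinearMap.proj_apply, smul_eq_mul, abs_mul]
      have h2 : |u b| ≤ ‖u‖ := by
        have := norm_le_pi_norm u b
        rwa [Real.norm_eq_abs] at this
      exact mul_le_mul (v15_ED_bound h hρ hc a b z t) h2 (abs_nonneg _) (by positivity)
    refine (Finset.sum_le_sum fun b _ => h1 b).trans (le_of_eq ?_)
    rw [Fin.sum_univ_two]; ring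
  choose f' hf' hb using hd
  have := Convex.norm_image_sub_le_of_norm_hasFDerivWithin_le (s := Set.univ)
    (fun w _ => (hf' w).hasFDerivWithinAt) (fun w _ => hb w) convex_univ (Set.mem_univ y)
    (Set.mem_univ x)
  simpa [Real.norm_eq_abs] using this

theorem V15_time_deriv (h : Good d t0 t1 lam g σ ρ c A) (hρ : 0 ≤ ρ) (hc0 : 0 ≤ c)
    (hc : c ≤ 1 / 10) (hV : Rep d V t0 t1)
    (hv : ∀ x, ∀ t ∈ Set.Icc t0 t1, ∀ a, |V x t a| ≤ v0) {t : ℝ} (ht : t ∈ Set.Ioo t0 t1)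
    (x : Fin 2 → ℝ) (a : Fin 2) :
    ∃ y : ℝ, HasDerivAt (fun s => V x s a) y t ∧ |y| ≤ A + 4 * g * v0 := by
  have htc : t ∈ Set.Icc t0 t1 := Set.Ioo_subset_Icc_self ht
  obtain ⟨z, rfl⟩ := (h.bij hρ hc t).2 x
  refine ⟨_, RepS.hasDerivAt h hρ hc (h.rv a) (h.tdv a) (hV.repS a) ht z, ?_⟩
  -- the derivative equals acc - v·ED v
  have hadv : evR d.κ (adv d.κ d.B d.v a) z t
      = ∑ j, evR d.κ (d.B j) z t * evR d.κ (D d.κ j (d.v a)) z t := by
    unfold adv
    rw [evR_sum]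
    exact Finset.sum_congr rfl fun j _ => evR_mul (h.isR_B j) (h.rv a).D z t
  have hB : ∀ j, evR d.κ (d.B j) z t
      = ∑ b, evR d.κ (d.M j b) z t * (evR d.κ (d.v b) z t - evR d.κ (d.U b) z t) := by
    intro j
    have h1 : d.B j = ∑ b, d.M j b * (d.v - d.U) b := rfl
    rw [h1, evR_sum]
    refine Finset.sum_congr rfl fun b _ => ?_
    rw [Pi.sub_apply, evR_mul (h.isR_M j b) ((h.rv b).sub (h.rU b)), evR_sub]
  have hrhs : evR d.κ (d.rhs a) z t = evR d.κ (d.acc a) z t - evR d.κ (adv d.κ d.B d.v a) z t := by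
    unfold Dat.rhs
    rw [evR_sub]
  have hED := fun b => v15_ED h (d.v a) (h.rv a) b z t
  have key : evR d.κ (d.rhs a) z t - ∑ b, evR d.κ (d.U b) z t * evR d.κ (ED d b (d.v a)) z t
      = evR d.κ (d.acc a) z t - ∑ b, evR d.κ (d.v b) z t * evR d.κ (ED d b (d.v a)) z t := by
    rw [hrhs, hadv]
    simp only [Fin.sum_univ_two, hED, hB]
    ring
  rw [key]
  have h1 := h.abs_acc hρ a z t
  have h2 : ∀ b, |evR d.κ (d.v b) z t * evR d.κ (ED d b (d.v a)) z t| ≤ v0 * (2 * g) := by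
    intro b
    have h3 : |evR d.κ (d.v b) z t| ≤ v0 := by
      rw [← (hV t htc).2 z b]
      exact hv _ t htc b
    rw [abs_mul]
    exact mul_le_mul h3 (v15_ED_bound h hρ hc a b z t) (abs_nonneg _) ((abs_nonneg _).trans h3)
  have h4 : |∑ b, evR d.κ (d.v b) z t * evR d.κ (ED d b (d.v a)) z t| ≤ 4 * g * v0 := by
    refine (Finset.abs_sum_le_sum_abs _ _).trans ((Finset.sum_le_sum fun b _ => h2 b).trans
      (le_of_eq ?_))
    rw [Fin.sum_univ_two]; ring
  exact (abs_sub _ _).trans (add_le_add h1 h4)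

end

theorem fact_lip (V : Fld) (t0 t1 lam g σ ρ c A v0 : ℝ) (h : BI V t0 t1 lam g σ ρ c A)
    (hρ : 0 < ρ) (h0 : 0 ≤ c) (hc : c ≤ 1 / 10)
    (hv : ∀ x, ∀ t ∈ Set.Icc t0 t1, ∀ a, |V x t a| ≤ v0) :
    Lp V t0 t1 (A + 8 * g * (1 + v0)) := by
  obtain ⟨d, hd, hV⟩ := h
  have hg : 0 ≤ g := (abs_nonneg _).trans (hd.abs_G hρ.le 0 0 0 t0)
  have hA : 0 ≤ A := (abs_nonneg _).trans (hd.abs_acc hρ.le 0 0 t0)
  have hv0 : 0 ≤ v0 := (abs_nonneg _).trans (hv 0 t0 (Set.left_mem_Icc.2 hd.ht.le) 0)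
  intro τ hτ τ' hτ' x y a
  -- time part at fixed point
  have htime : |V y τ a - V y τ' a| ≤ (A + 4 * g * v0) * |τ - τ'| := by
    have hcont : ContinuousOn (fun s => V y s a) (Set.Icc t0 t1) := by
      have h1 := RepS.continuousOn hd hρ.le hc (hV.repS a)
      exact h1.comp (f := fun s : ℝ => (y, s)) (by fun_prop) (fun s hs => ⟨Set.mem_univ _, hs⟩)
    have hgen : ∀ s ∈ Set.Icc t0 t1, ∀ s' ∈ Set.Icc t0 t1, s < s' →
        |V y s' a - V y s a| ≤ (A + 4 * g * v0) * |s' - s| := by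
      intro s hs s' hs' hlt
      have hd' : ∀ u ∈ Set.Ioo s s', ∃ w : ℝ, HasDerivAt (fun r => V y r a) w u ∧
          |w| ≤ A + 4 * g * v0 := fun u hu =>
        V15_time_deriv hd hρ.le h0 hc hV hv ⟨hs.1.trans_lt hu.1, hu.2.trans_le hs'.2⟩ y a
      have hderiv : ∀ u ∈ Set.Ioo s s', HasDerivAt (fun r => V y r a) (deriv (fun r => V y r a) u) u :=
        fun u hu => by
          obtain ⟨w, hw, _⟩ := hd' u hu
          rw [hw.deriv]; exact hw
      obtain ⟨u, hu, hu'⟩ := exists_hasDerivAt_eq_slope (fun r => V y r a)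
        (fun u => deriv (fun r => V y r a) u) hlt
        (hcont.mono (Set.Icc_subset_Icc hs.1 hs'.2)) hderiv
      obtain ⟨w, hw, hwb⟩ := hd' u hu
      have h2 : (V y s' a - V y s a) / (s' - s) = w := by rw [← hu', hw.deriv]
      have h3 : V y s' a - V y s a = w * (s' - s) := by
        rw [← h2, div_mul_cancel₀ _ (sub_pos.2 hlt).ne']
      rw [h3, abs_mul]
      exact mul_le_mul_of_nonneg_right hwb (abs_nonneg _)
    rcases lt_trichotomy τ τ' with hl | hl | hl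
    · have := hgen τ hτ τ' hτ' hl
      rwa [abs_sub_comm, abs_sub_comm τ' τ] at this
    · subst hl; simp
    · exact hgen τ' hτ' τ hτ hl
  have hspace := V15_space hd hρ.le h0 hc hV hτ x y a
  have h5 : |V x τ a - V y τ' a| ≤ 4 * g * ‖x - y‖ + (A + 4 * g * v0) * |τ - τ'| :=
    (abs_sub_le _ (V y τ a) _).trans (add_le_add hspace htime)
  refine h5.trans ?_
  have h6 : 0 ≤ ‖x - y‖ := norm_nonneg _
  have h7 : 0 ≤ |τ - τ'| := abs_nonneg _
  have h8 : 4 * g ≤ A + 8 * g * (1 + v0) := by nlinarith [mul_nonneg hg hv0]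
  have h9 : A + 4 * g * v0 ≤ A + 8 * g * (1 + v0) := by nlinarith [mul_nonneg hg hv0]
  nlinarith [mul_le_mul_of_nonneg_right h8 h6, mul_le_mul_of_nonneg_right h9 h7]

end ES

end

section

/-!
ES-V18 (Part II, helper27): decay of the Fourier coefficients of represented functions.

`fc_partial`: `fc (∂_0 G) m n = i m fc G m n` (real valued `C¹` periodic `G`; integration by parts
against `cos`, `sin`: `integral_by_parts` with `H = cos(m x_0 + n x_1)` and `sin`, then combine).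
`fc_decay`: induction on `k`: `|m|^(k+1) ‖fc G‖ = |m|^k ‖fc (∂_0 G)‖`, and `∂_0 G` is represented
by `ED d 0 f` (`RepT.fderiv`), real (`Good.isR_ED`); for `k = 0` use `norm_fc_le` and `RepT.abs_le`.
-/

open MeasureTheory

namespace ES

/-- The phase. -/
private def v18_th (m n : ℤ) (x : Fin 2 → ℝ) : ℝ := m * x 0 + n * x 1

private theorem v18_th_hasFDerivAt (m n : ℤ) (x : Fin 2 → ℝ) :
    HasFDerivAt (v18_th m n) ((m : ℝ) • (ContinuousLinearMap.proj 0 : (Fin 2 → ℝ) →L[ℝ] ℝ) +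
      (n : ℝ) • (ContinuousLinearMap.proj 1 : (Fin 2 → ℝ) →L[ℝ] ℝ)) x := by
  have h : v18_th m n = fun y => ((m : ℝ) • (ContinuousLinearMap.proj 0 : (Fin 2 → ℝ) →L[ℝ] ℝ) +
      (n : ℝ) • (ContinuousLinearMap.proj 1 : (Fin 2 → ℝ) →L[ℝ] ℝ)) y := by
    funext y
    simp [v18_th]
  rw [h]
  exact ContinuousLinearMap.hasFDerivAt _

private theorem v18_th_contDiff (m n : ℤ) : ContDiff ℝ 1 (v18_th m n) := by
  unfold v18_th
  fun_prop

private theorem v18_cos_fderiv (m n : ℤ) (x : Fin 2 → ℝ) (b : Fin 2) :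
    fderiv ℝ (fun y => Real.cos (v18_th m n y)) x (Pi.single b 1) =
      -(v18_th m n (Pi.single b 1) * Real.sin (v18_th m n x)) := by
  rw [((v18_th_hasFDerivAt m n x).cos).fderiv]
  simp [v18_th]
  ring

private theorem v18_sin_fderiv (m n : ℤ) (x : Fin 2 → ℝ) (b : Fin 2) :
    fderiv ℝ (fun y => Real.sin (v18_th m n y)) x (Pi.single b 1) =
      v18_th m n (Pi.single b 1) * Real.cos (v18_th m n x) := by
  rw [((v18_th_hasFDerivAt m n x).sin).fderiv]
  simp [v18_th]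
  ring

private theorem v18_th_add (m n : ℤ) (x : Fin 2 → ℝ) (p : Fin 2 → ℤ) :
    v18_th m n (fun a => x a + 2 * Real.pi * p a) =
      v18_th m n x + ((m * p 0 + n * p 1 : ℤ) : ℝ) * (2 * Real.pi) := by
  unfold v18_th
  push_cast
  ring

private theorem v18_cos_per (m n : ℤ) : Per (fun y => Real.cos (v18_th m n y)) := by
  intro x p
  change Real.cos (v18_th m n (fun a => x a + 2 * Real.pi * p a)) = _
  rw [v18_th_add, Real.cos_add_int_mul_two_pi]

private theorem v18_sin_per (m n : ℤ) : Per (fun y => Real.sin (v18_th m n y)) := by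
  intro x p
  change Real.sin (v18_th m n (fun a => x a + 2 * Real.pi * p a)) = _
  rw [v18_th_add, Real.sin_add_int_mul_two_pi]

private theorem v18_chx (m n : ℤ) (x : Fin 2 → ℝ) :
    chx (-m) (-n) x = ((Real.cos (v18_th m n x) : ℝ) : ℂ) -
      Complex.I * ((Real.sin (v18_th m n x) : ℝ) : ℂ) := by
  unfold chx
  have h : Complex.I * (((-m : ℤ) : ℂ) * (x 0 : ℂ) + ((-n : ℤ) : ℂ) * (x 1 : ℂ)) =
      ((-(v18_th m n x) : ℝ) : ℂ) * Complex.I := by
    unfold v18_th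
    push_cast
    ring
  rw [h, Complex.exp_mul_I, ← Complex.ofReal_cos, ← Complex.ofReal_sin, Real.cos_neg, Real.sin_neg]
  push_cast
  ring

private theorem v18_fc {G : (Fin 2 → ℝ) → ℝ} (hG : Continuous G) (m n : ℤ) :
    fc (fun x => (G x : ℂ)) m n = (((2 * Real.pi : ℝ) : ℂ) ^ 2)⁻¹ *
      (((∫ x in Bx, G x * Real.cos (v18_th m n x) : ℝ) : ℂ) -
        Complex.I * ((∫ x in Bx, G x * Real.sin (v18_th m n x) : ℝ) : ℂ)) := by
  unfold fc
  congr 1
  have hth := (v18_th_contDiff m n).continuous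
  have hK : IsCompact Bx := isCompact_Icc
  have i1 : IntegrableOn (fun x => G x * Real.cos (v18_th m n x)) Bx :=
    (hG.mul (Real.continuous_cos.comp hth)).continuousOn.integrableOn_compact hK
  have i2 : IntegrableOn (fun x => G x * Real.sin (v18_th m n x)) Bx :=
    (hG.mul (Real.continuous_sin.comp hth)).continuousOn.integrableOn_compact hK
  have h : ∀ x, (G x : ℂ) * chx (-m) (-n) x = ((G x * Real.cos (v18_th m n x) : ℝ) : ℂ) -
      Complex.I * ((G x * Real.sin (v18_th m n x) : ℝ) : ℂ) := by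
    intro x
    rw [v18_chx]
    push_cast
    ring
  simp_rw [h]
  rw [integral_sub i1.ofReal (i2.ofReal.const_mul _), integral_const_mul, integral_complex_ofReal,
    integral_complex_ofReal]

private theorem v18_partial {G : (Fin 2 → ℝ) → ℝ} (hG : ContDiff ℝ 1 G) (hp : Per G) (m n : ℤ)
    (b : Fin 2) :
    fc (fun x => (fderiv ℝ G x (Pi.single b 1) : ℂ)) m n
      = Complex.I * ((v18_th m n (Pi.single b 1) : ℝ) : ℂ) * fc (fun x => (G x : ℂ)) m n := by
  have hc : Continuous fun x => fderiv ℝ G x (Pi.single b 1) :=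
    (hG.continuous_fderiv (by norm_num)).clm_apply continuous_const
  rw [v18_fc hc, v18_fc hG.continuous]
  have h1 := integral_by_parts hG hp (Real.contDiff_cos.comp (v18_th_contDiff m n))
    (v18_cos_per m n) b
  have h2 := integral_by_parts hG hp (Real.contDiff_sin.comp (v18_th_contDiff m n))
    (v18_sin_per m n) b
  have h1' : ∫ x in Bx, fderiv ℝ G x (Pi.single b 1) * Real.cos (v18_th m n x) =
      v18_th m n (Pi.single b 1) * ∫ x in Bx, G x * Real.sin (v18_th m n x) := by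
    rw [← integral_const_mul, ← integral_neg] at *
    refine h1.trans ?_
    congr 1
    funext x
    have h3 := v18_cos_fderiv m n x b
    change -(G x * fderiv ℝ (fun y => Real.cos (v18_th m n y)) x (Pi.single b 1)) = _
    rw [h3]
    ring
  have h2' : ∫ x in Bx, fderiv ℝ G x (Pi.single b 1) * Real.sin (v18_th m n x) =
      -(v18_th m n (Pi.single b 1) * ∫ x in Bx, G x * Real.cos (v18_th m n x)) := by
    rw [← integral_const_mul, ← integral_neg] at *
    refine h2.trans ?_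
    congr 1
    funext x
    have h3 := v18_sin_fderiv m n x b
    change -(G x * fderiv ℝ (fun y => Real.sin (v18_th m n y)) x (Pi.single b 1)) = _
    rw [h3]
    ring
  rw [h1', h2']
  have hI : Complex.I * Complex.I = -1 := Complex.I_mul_I
  generalize (((2 * Real.pi : ℝ) : ℂ) ^ 2)⁻¹ = c0
  generalize v18_th m n (Pi.single b 1) = w
  generalize ∫ x in Bx, G x * Real.sin (v18_th m n x) = S
  generalize ∫ x in Bx, G x * Real.cos (v18_th m n x) = C
  push_cast
  linear_combination (c0 * w * S) * hI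

theorem fc_partial_zero {G : (Fin 2 → ℝ) → ℝ} (hG : ContDiff ℝ 1 G) (hp : Per G) (m n : ℤ) :
    fc (fun x => (fderiv ℝ G x (Pi.single 0 1) : ℂ)) m n
      = Complex.I * m * fc (fun x => (G x : ℂ)) m n := by
  rw [v18_partial hG hp m n 0]
  congr 2
  simp [v18_th]

theorem fc_partial_one {G : (Fin 2 → ℝ) → ℝ} (hG : ContDiff ℝ 1 G) (hp : Per G) (m n : ℤ) :
    fc (fun x => (fderiv ℝ G x (Pi.single 1 1) : ℂ)) m n
      = Complex.I * n * fc (fun x => (G x : ℂ)) m n := by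
  rw [v18_partial hG hp m n 1]
  congr 2
  simp [v18_th]

variable {d : Dat} {t0 t1 lam g σ ρ c A : ℝ}

private theorem v18_base (h : Good d t0 t1 lam g σ ρ c A) (hρ : 0 ≤ ρ) (hc : c ≤ 1 / 10) {t : ℝ}
    {G : (Fin 2 → ℝ) → ℝ} {f : WT} (hG : RepT d t G f) (m n : ℤ) :
    ‖fc (fun x => (G x : ℂ)) m n‖ ≤ ∑' ν, ‖f.co ν‖ := by
  apply norm_fc_le
  intro x
  rw [Complex.norm_real, Real.norm_eq_abs]
  exact hG.abs_le h hρ hc x

private theorem v18_norm (m : ℤ) (z : ℂ) : ‖Complex.I * (m : ℂ) * z‖ = |(m : ℝ)| * ‖z‖ := by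
  rw [norm_mul, norm_mul, Complex.norm_I, one_mul, Complex.norm_intCast]

theorem fc_decay_zero (h : Good d t0 t1 lam g σ ρ c A) (hρ : 0 ≤ ρ) (hc : c ≤ 1 / 10) {t : ℝ}
    (k : ℕ) {G : (Fin 2 → ℝ) → ℝ} {f : WT} (hf : IsR f) (hG : RepT d t G f) (m n : ℤ) :
    |(m : ℝ)| ^ k * ‖fc (fun x => (G x : ℂ)) m n‖ ≤ ∑' ν, ‖((ED d 0)^[k] f).co ν‖ := by
  induction k generalizing G f with
  | zero =>
    rw [pow_zero, one_mul, Function.iterate_zero_apply]
    exact v18_base h hρ hc hG m n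
  | succ k ih =>
    have h1 := ih (h.isR_ED 0 hf) (hG.fderiv h hρ hc hf 0)
    rw [fc_partial_zero (hG.contDiff h hρ hc hf 1) (hG.periodic h hρ hc) m n, v18_norm] at h1
    rw [Function.iterate_succ_apply, pow_succ, mul_assoc]
    exact h1

theorem fc_decay_one (h : Good d t0 t1 lam g σ ρ c A) (hρ : 0 ≤ ρ) (hc : c ≤ 1 / 10) {t : ℝ}
    (k : ℕ) {G : (Fin 2 → ℝ) → ℝ} {f : WT} (hf : IsR f) (hG : RepT d t G f) (m n : ℤ) :
    |(n : ℝ)| ^ k * ‖fc (fun x => (G x : ℂ)) m n‖ ≤ ∑' ν, ‖((ED d 1)^[k] f).co ν‖ := by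
  induction k generalizing G f with
  | zero =>
    rw [pow_zero, one_mul, Function.iterate_zero_apply]
    exact v18_base h hρ hc hG m n
  | succ k ih =>
    have h1 := ih (h.isR_ED 1 hf) (hG.fderiv h hρ hc hf 1)
    rw [fc_partial_one (hG.contDiff h hρ hc hf 1) (hG.periodic h hρ hc) m n, v18_norm] at h1
    rw [Function.iterate_succ_apply, pow_succ, mul_assoc]
    exact h1

end ES

end

section

/-!
ES-BPass: one pass on a block (EW 4, Prop. 4.4): from `pass_exists`, `glue4`, the junctions (BPa)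
and the pieces (BPb) to `PassStatement`.  Constants: `C1 = 10^15`, `p = 5`.
-/

namespace ES

theorem bPass_tau_lt {t0 t1 : ℝ} (h : t0 < t1) : ∀ j < 4, tau t0 t1 j < tau t0 t1 (j + 1) := by
  intro j hj
  have hd : 0 < t1 - t0 := by linarith
  interval_cases j <;> simp [tau] <;> linarith

theorem bPass_tau0 (t0 t1 : ℝ) : tau t0 t1 0 = t0 := by simp [tau]

theorem bPass_tau3 (t0 t1 : ℝ) : tau t0 t1 3 = t0 + (t1 - t0) / 2 := by
  simp [tau]; ring

theorem bPass_tau4 (t0 t1 : ℝ) : tau t0 t1 4 = t1 := by simp [tau]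

theorem bPass_find {t0 t1 t : ℝ} (h : t0 < t1) (ht : t ∈ Set.Icc t0 t1) :
    ∃ j < 4, t ∈ Set.Icc (tau t0 t1 j) (tau t0 t1 (j + 1)) := by
  have h0 := bPass_tau0 t0 t1
  have h4 := bPass_tau4 t0 t1
  rcases le_total t (tau t0 t1 1) with h1 | h1
  · exact ⟨0, by norm_num, by rw [h0]; exact ⟨ht.1, h1⟩⟩
  rcases le_total t (tau t0 t1 2) with h2 | h2
  · exact ⟨1, by norm_num, h1, h2⟩
  rcases le_total t (tau t0 t1 3) with h3 | h3
  · exact ⟨2, by norm_num, h2, h3⟩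
  · exact ⟨3, by norm_num, h3, by rw [h4]; exact ht.2⟩

end ES

end
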