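import Pool.Agent.H16.TSS.ES.LEv_1
import Pool.Agent.H16.TSS.M15

/-! The parts of this file: ES.Ifp, ES.BBlock, ES.RAvgC, ES.V22. -/

section

/-!
Project ES: one pass on a block (EW 4, Prop. 4.4), statement.
`BBlock` proves `PassStatement C1 p → BIFacts → ∃ C0, BlockStatement C0 p`.
-/

namespace ES

/-- One pass on `[t0,t1]`: three sub-blocks of length `(t1-t0)/6` (each: ramp, gap, ramp), then the
final interval `[t0+(t1-t0)/2, t1]`. -/
def PassStatement (C1 : ℝ) (p : ℕ) : Prop :=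
  ∀ (V : Fld) (t0 t1 lam g σ ρ c A m w ℓr : ℝ) (L : ℕ),
    BI V t0 t1 lam g σ ρ c A →
    0 < m → m ≤ 1 → ρ ≤ 2 → 10 * m ≤ ρ →
    1 ≤ lam → 0 < w → 0 ≤ σ → 1600 * σ ≤ w ^ 2 → lam * w ≤ g → 0 ≤ c → c ≤ 1 / 100 →
    (1 + 1 / m) * lam ≤ L → Real.exp (-(m * L / (4 * lam))) ≤ 1 / L →
    C1 * (1 + 1 / m) ^ p * (t1 - t0) * g ≤ 1 →
    0 < ℓr → 24 * ℓr ≤ t1 - t0 →
    ∃ V' : Fld,
      (∀ x t, t ∉ Set.Ioo t0 t1 → V' x t = V x t) ∧
      (∀ x t a, |V' x t a - V x t a| ≤ C1 * w) ∧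
      Prt (fun s t => BI V' s t (2 * L) (C1 * (L * w + (1 + 1 / m) ^ p * g)) 0 (ρ - 8 * m)
            (c + C1 * (1 + 1 / m) ^ p * (t1 - t0) * g)
            (A + C1 * (1 + 1 / m) ^ p * (g * w + w / ℓr)))
          (fun s t => t - s = ℓr ∧
            BI V' s t (2 * L) (C1 * (L * w + (1 + 1 / m) ^ p * g))
            (C1 * (1 + 1 / m) ^ p / L * (w / ℓr + g * w)) (ρ - 8 * m)
            (c + C1 * (1 + 1 / m) ^ p * (t1 - t0) * g)
            (A + C1 * (1 + 1 / m) ^ p * (g * w + w / ℓr)))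
          (fun _ _ => False) t0 (t0 + (t1 - t0) / 2) 6 0 ∧
      BI V' (t0 + (t1 - t0) / 2) t1 lam (g * (1 + C1 * (1 + 1 / m) ^ p * (t1 - t0) * g))
        (C1 * (1 + 1 / m) ^ p * w ^ 2 * ((t1 - t0) * g + (lam / L) ^ 2))
        (ρ - 8 * m) (c + C1 * (1 + 1 / m) ^ p * (t1 - t0) * g)
        (A + C1 * (1 + 1 / m) ^ p * (g * w + w / ℓr))

end ES

end

section

/-!
ES-BBlock: the block theorem from the pass theorem (EW 4, Prop. 4.5): `P` passes, each on the final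
interval of the previous one.  Induction on `P` (backwards: one pass, then `P` passes on the final
interval), with `x = C1 K^p (t1-t0) g`: the final interval has `h' = h/2`, `g' = g (1+x)`,
`x' = x (1+x) / 2`, `w' = ν w`, `σ' = ν² σ`.
-/

namespace ES

theorem prt_lt {G B1 B2 : ℝ → ℝ → Prop} {s t : ℝ} {n m : ℕ} (h : Prt G B1 B2 s t n m) : s < t := by
  induction h with
  | good h _ => exact h
  | fast h _ => exact h
  | tail h _ => exact h
  | cat _ _ h1 h2 => exact h1.trans h2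

theorem prt_mono {G B1 B2 G' B1' B2' : ℝ → ℝ → Prop} {s t : ℝ} {n m : ℕ}
    (h : Prt G B1 B2 s t n m)
    (hG : ∀ a b, s ≤ a → a < b → b ≤ t → G a b → G' a b)
    (h1 : ∀ a b, s ≤ a → a < b → b ≤ t → B1 a b → B1' a b)
    (h2 : ∀ a b, s ≤ a → a < b → b ≤ t → B2 a b → B2' a b) : Prt G' B1' B2' s t n m := by
  induction h with
  | good h hh => exact Prt.good h (hG _ _ le_rfl h le_rfl hh)
  | fast h hh => exact Prt.fast h (h1 _ _ le_rfl h le_rfl hh)
  | tail h hh => exact Prt.tail h (h2 _ _ le_rfl h le_rfl hh)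
  | cat ha hb iha ihb =>
    have la := prt_lt ha
    have lb := prt_lt hb
    exact Prt.cat
      (iha (fun a b x y z => hG a b x y (z.trans lb.le)) (fun a b x y z => h1 a b x y (z.trans lb.le))
        (fun a b x y z => h2 a b x y (z.trans lb.le)))
      (ihb (fun a b x y z => hG a b (la.le.trans x) y z) (fun a b x y z => h1 a b (la.le.trans x) y z)
        (fun a b x y z => h2 a b (la.le.trans x) y z))

/-- The induction step. -/
theorem block_step {C1 : ℝ} {p : ℕ} (hC1 : 1 ≤ C1) (hP : PassStatement C1 p) (hF : BIFacts)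
    (lam m ℓr ν : ℝ) (L : ℕ) (hm : 0 < m) (hm1 : m ≤ 1) (hlam : 1 ≤ lam)
    (hL : (1 + 1 / m) * lam ≤ L) (hexp : Real.exp (-(m * L / (4 * lam))) ≤ 1 / L)
    (hν : 0 < ν) (hν4 : ν ≤ 1 / 4) (hℓ : 0 < ℓr) (P : ℕ) (K : ℝ) (hK : K = (1 + 1 / m) ^ p)
    (ih : ∀ (V : Fld) (t0 t1 g σ ρ c A w : ℝ),
      BI V t0 t1 lam g σ ρ c A → ρ ≤ 2 → 8 * m * P + 2 * m ≤ ρ → 0 < w → 0 ≤ σ →
      1600 * σ ≤ w ^ 2 → lam * w ≤ g → 0 ≤ c →
      c + 4 * (C1 * K * (t1 - t0) * g) ≤ 1 / 100 →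
      C1 * K * (t1 - t0) * g ≤ 1 / 5 →
      C1 * K * w ^ 2 * ((t1 - t0) * g + (lam / L) ^ 2) ≤ ν ^ 2 * σ →
      12 * ℓr * 2 ^ P ≤ t1 - t0 →
      ∃ V' : Fld,
        (∀ x t, t ∉ Set.Ioo t0 t1 → V' x t = V x t) ∧
        (∀ x t a, |V' x t a - V x t a| ≤ 4 * C1 * w) ∧
        Prt (fun s t => BI V' s t (2 * L)
              (4 * C1 * (L * w + K * g *
                (1 + 4 * (C1 * K * (t1 - t0) * g)))) 0 (ρ - 8 * m * P)
              (c + 4 * (C1 * K * (t1 - t0) * g))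
              (A + 4 * C1 * K * (g * w + w / ℓr)))
            (fun s t => t - s = ℓr ∧ BI V' s t (2 * L)
              (4 * C1 * (L * w + K * g *
                (1 + 4 * (C1 * K * (t1 - t0) * g))))
              (4 * C1 * K / L * (w / ℓr + g * w)) (ρ - 8 * m * P)
              (c + 4 * (C1 * K * (t1 - t0) * g))
              (A + 4 * C1 * K * (g * w + w / ℓr)))
            (fun s t => t - s = (t1 - t0) / 2 ^ P ∧
              BI V' s t lam (g * (1 + 4 * (C1 * K * (t1 - t0) * g)))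
              (σ * ν ^ (2 * P)) (ρ - 8 * m * P)
              (c + 4 * (C1 * K * (t1 - t0) * g))
              (A + 4 * C1 * K * (g * w + w / ℓr)))
            t0 t1 (6 * P) 1) :
    ∀ (V : Fld) (t0 t1 g σ ρ c A w : ℝ),
      BI V t0 t1 lam g σ ρ c A → ρ ≤ 2 → 8 * m * ((P + 1 : ℕ) : ℝ) + 2 * m ≤ ρ → 0 < w → 0 ≤ σ →
      1600 * σ ≤ w ^ 2 → lam * w ≤ g → 0 ≤ c →
      c + 4 * (C1 * K * (t1 - t0) * g) ≤ 1 / 100 →
      C1 * K * (t1 - t0) * g ≤ 1 / 5 →
      C1 * K * w ^ 2 * ((t1 - t0) * g + (lam / L) ^ 2) ≤ ν ^ 2 * σ →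
      12 * ℓr * 2 ^ (P + 1) ≤ t1 - t0 →
      ∃ V' : Fld,
        (∀ x t, t ∉ Set.Ioo t0 t1 → V' x t = V x t) ∧
        (∀ x t a, |V' x t a - V x t a| ≤ 4 * C1 * w) ∧
        Prt (fun s t => BI V' s t (2 * L)
              (4 * C1 * (L * w + K * g *
                (1 + 4 * (C1 * K * (t1 - t0) * g)))) 0 (ρ - 8 * m * ((P + 1 : ℕ) : ℝ))
              (c + 4 * (C1 * K * (t1 - t0) * g))
              (A + 4 * C1 * K * (g * w + w / ℓr)))
            (fun s t => t - s = ℓr ∧ BI V' s t (2 * L)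
              (4 * C1 * (L * w + K * g *
                (1 + 4 * (C1 * K * (t1 - t0) * g))))
              (4 * C1 * K / L * (w / ℓr + g * w)) (ρ - 8 * m * ((P + 1 : ℕ) : ℝ))
              (c + 4 * (C1 * K * (t1 - t0) * g))
              (A + 4 * C1 * K * (g * w + w / ℓr)))
            (fun s t => t - s = (t1 - t0) / 2 ^ (P + 1) ∧
              BI V' s t lam (g * (1 + 4 * (C1 * K * (t1 - t0) * g)))
              (σ * ν ^ (2 * (P + 1))) (ρ - 8 * m * ((P + 1 : ℕ) : ℝ))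
              (c + 4 * (C1 * K * (t1 - t0) * g))
              (A + 4 * C1 * K * (g * w + w / ℓr)))
            t0 t1 (6 * (P + 1)) 1 := by
  intro V t0 t1 g σ ρ c A w hB hρ2 hρ hw hσ0 hσ hlw hc0 hc hx hs hℓ2
  have hlam0 : 0 < lam := lt_of_lt_of_le one_pos hlam
  have hK0 : 0 < K := by rw [hK]; positivity
  have hC0 : 0 < C1 := lt_of_lt_of_le one_pos hC1
  have hLpos : (0:ℝ) < L := lt_of_lt_of_le (by positivity) hL
  have hlt : t0 < t1 := by obtain ⟨d, hd, _⟩ := hB; exact hd.ht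
  have hh0 : 0 < t1 - t0 := sub_pos.2 hlt
  have hg0 : 0 < g := lt_of_lt_of_le (mul_pos hlam0 hw) hlw
  have hx0 : 0 ≤ C1 * K * (t1 - t0) * g := by positivity
  have hP0 : (0:ℝ) ≤ P := Nat.cast_nonneg P
  have hmP : 0 ≤ 8 * m * P := mul_nonneg (mul_nonneg (by norm_num) hm.le) hP0
  have hPc : ((P + 1 : ℕ) : ℝ) = (P : ℝ) + 1 := by push_cast; ring
  have hρP : ρ - 8 * m * ((P + 1 : ℕ) : ℝ) = ρ - 8 * m - 8 * m * P := by rw [hPc]; ring
  have hρ' : 8 * m * P + 2 * m ≤ ρ - 8 * m := by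
    rw [hPc] at hρ
    linarith
  have h24 : 24 * ℓr ≤ t1 - t0 := ba_h24 hℓ hℓ2
  obtain ⟨V1, hV1, hV1d, hPrt1, hB1⟩ := hP V t0 t1 lam g σ ρ c A m w ℓr L hB hm hm1 hρ2
    (by linarith) hlam hw hσ0 hσ hlw hc0 (by linarith) hL hexp
    (by rw [← hK]; linarith) hℓ h24
  rw [← hK] at hPrt1 hB1
  -- new parameters
  obtain ⟨h, hh⟩ : ∃ h : ℝ, h = t1 - t0 := ⟨_, rfl⟩
  obtain ⟨x, hxd⟩ : ∃ x : ℝ, x = C1 * K * h * g := ⟨_, rfl⟩
  rw [← hh, ← hxd] at hx0 hPrt1 hB1 hc hx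
  rw [← hh] at h24 hs hℓ2 hh0
  rw [← hh, ← hxd, hρP]
  obtain ⟨tm, htm⟩ : ∃ tm : ℝ, tm = t0 + h / 2 := ⟨_, rfl⟩
  rw [← htm] at hPrt1 hB1
  have htm1 : t1 - tm = h / 2 := by rw [htm, hh]; ring
  -- weaken the stress of the final interval to ν² σ
  have hB1' : BI V1 tm t1 lam (g * (1 + x)) (ν ^ 2 * σ) (ρ - 8 * m) (c + x)
      (A + C1 * K * (g * w + w / ℓr)) :=
    hF.mono V1 tm t1 lam _ _ _ _ _ lam _ _ _ _ _ hB1 hlam0 le_rfl le_rfl le_rfl hs le_rfl
      (by linarith) le_rfl le_rfl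
  have hx' : C1 * K * (t1 - tm) * (g * (1 + x)) = x * (1 + x) / 2 := by
    rw [htm1, hxd]; ring
  have hw' : 0 < ν * w := mul_pos hν hw
  have hx1 : x * (1 + x) / 2 ≤ 3 / 5 * x := ba_x1 hx0 hx
  obtain ⟨V', hV', hV'd, hPrt2⟩ := ih V1 tm t1 (g * (1 + x)) (ν ^ 2 * σ) (ρ - 8 * m) (c + x)
    (A + C1 * K * (g * w + w / ℓr)) (ν * w) hB1' (by linarith) hρ' hw'
    (mul_nonneg (sq_nonneg ν) hσ0)
    (ba_sig hσ) (ba_lw hlam0.le hw.le hg0.le hx0 hν4 hlw) (add_nonneg hc0 hx0)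
    (by rw [hx']; linarith) (by rw [hx']; linarith)
    (by
      rw [htm1]
      exact ba_half hC0.le hK0.le hh0.le hg0.le hx hs)
    (by
      rw [htm1]
      exact ba_pow hℓ2)
  rw [hx'] at hPrt2
  -- comparison of the constants
  have hgx := ba_gx hg0.le hx0 hx
  have hY0 : 0 ≤ g * w + w / ℓr := add_nonneg (mul_nonneg hg0.le hw.le) (div_nonneg hw.le hℓ.le)
  have hY1 : 0 ≤ w / ℓr + g * w := add_nonneg (div_nonneg hw.le hℓ.le) (mul_nonneg hg0.le hw.le)
  have hY' := ba_Y hg0.le hw.le hℓ hν.le hν4 hx0 hx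
  have hAA := ba_AA (A := A) hC0.le hK0.le hY' hY0
  have hA1 := ba_A1 (A := A) hC0.le hK0.le hY0
  have hcc : c + x + 4 * (x * (1 + x) / 2) ≤ c + 4 * x := by linarith
  have hcx : c + x ≤ c + 4 * x := by linarith
  have hgF1 : C1 * (L * w + K * g) ≤ 4 * C1 * (L * w + K * g * (1 + 4 * x)) :=
    ba_gF1 hC0.le hK0.le hLpos.le hw.le hg0.le hx0
  have hgF2 : 4 * C1 * (L * (ν * w) + K * (g * (1 + x)) * (1 + 4 * (x * (1 + x) / 2)))
      ≤ 4 * C1 * (L * w + K * g * (1 + 4 * x)) :=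
    ba_gF2 hC0.le hK0.le hLpos.le hw.le hg0.le hx0 hx hν4
  have hS1 : C1 * K / L * (w / ℓr + g * w) ≤ 4 * C1 * K / L * (w / ℓr + g * w) :=
    ba_S1 hC0.le hK0.le hLpos hY1
  have hS2 : 4 * C1 * K / L * (ν * w / ℓr + g * (1 + x) * (ν * w))
      ≤ 4 * C1 * K / L * (w / ℓr + g * w) :=
    ba_S2 hC0.le hK0.le hLpos hg0.le hw.le hℓ hν.le hν4 hx0 hx
  have h2L : (0:ℝ) < 2 * L := mul_pos two_pos hLpos
  have hρP0 : 0 ≤ ρ - 8 * m - 8 * m * P := by linarith
  have hρPl : ρ - 8 * m - 8 * m * P ≤ ρ - 8 * m := by linarith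
  have htm0 : t0 < tm := by rw [htm]; linarith
  have hσe : ν ^ 2 * σ * ν ^ (2 * P) = σ * ν ^ (2 * (P + 1)) := by
    rw [show 2 * (P + 1) = 2 * P + 2 by ring, pow_add]; ring
  have hhe : h / 2 / 2 ^ P = h / 2 ^ (P + 1) := by rw [pow_succ]; field_simp
  clear ih hP hB hB1' hs hx' hσ hlw hexp hL hc hℓ2 h24 hB1
  refine ⟨V', ?_, ?_, ?_⟩
  · intro y t ht
    have ht2 : t ∉ Set.Ioo tm t1 := fun h' => ht ⟨htm0.trans h'.1, h'.2⟩
    rw [hV' y t ht2, hV1 y t ht]
  · intro y t a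
    exact (abs_sub_le _ _ _).trans (ba_dist hC0.le hw.le hν4 (hV'd y t a) (hV1d y t a))
  · have hPrt3 := prt_mono (G' := fun s t => BI V' s t (2 * L)
        (4 * C1 * (L * w + K * g * (1 + 4 * x))) 0 (ρ - 8 * m - 8 * m * P) (c + 4 * x)
        (A + 4 * C1 * K * (g * w + w / ℓr)))
      (B1' := fun s t => t - s = ℓr ∧ BI V' s t (2 * L)
        (4 * C1 * (L * w + K * g * (1 + 4 * x)))
        (4 * C1 * K / L * (w / ℓr + g * w)) (ρ - 8 * m - 8 * m * P) (c + 4 * x)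
        (A + 4 * C1 * K * (g * w + w / ℓr)))
      (B2' := fun s t => t - s = h / 2 ^ (P + 1) ∧
        BI V' s t lam (g * (1 + 4 * x)) (σ * ν ^ (2 * (P + 1))) (ρ - 8 * m - 8 * m * P)
        (c + 4 * x) (A + 4 * C1 * K * (g * w + w / ℓr))) hPrt1
      (by
        intro a b _ _ hb hbi
        have h1 := hF.congr V1 V' a b _ _ _ _ _ _ hbi (fun y t ht => hV' y t fun h' =>
          absurd (ht.2.trans hb) (not_le.2 h'.1))
        exact hF.mono V' a b _ _ _ _ _ _ _ _ _ _ _ _ h1 h2L le_rfl hgF1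
          (div_le_div_of_nonneg_right hgF1 h2L.le) le_rfl hρPl hρP0 hcx hA1)
      (by
        intro a b _ _ hb hbi
        refine ⟨hbi.1, ?_⟩
        have h1 := hF.congr V1 V' a b _ _ _ _ _ _ hbi.2 (fun y t ht => hV' y t fun h' =>
          absurd (ht.2.trans hb) (not_le.2 h'.1))
        exact hF.mono V' a b _ _ _ _ _ _ _ _ _ _ _ _ h1 h2L le_rfl hgF1
          (div_le_div_of_nonneg_right hgF1 h2L.le) hS1 hρPl hρP0 hcx hA1)
      (fun _ _ _ _ _ hff => hff.elim)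
    have hPrt4 := prt_mono (G' := fun s t => BI V' s t (2 * L)
        (4 * C1 * (L * w + K * g * (1 + 4 * x))) 0 (ρ - 8 * m - 8 * m * P) (c + 4 * x)
        (A + 4 * C1 * K * (g * w + w / ℓr)))
      (B1' := fun s t => t - s = ℓr ∧ BI V' s t (2 * L)
        (4 * C1 * (L * w + K * g * (1 + 4 * x)))
        (4 * C1 * K / L * (w / ℓr + g * w)) (ρ - 8 * m - 8 * m * P) (c + 4 * x)
        (A + 4 * C1 * K * (g * w + w / ℓr)))
      (B2' := fun s t => t - s = h / 2 ^ (P + 1) ∧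
        BI V' s t lam (g * (1 + 4 * x)) (σ * ν ^ (2 * (P + 1))) (ρ - 8 * m - 8 * m * P)
        (c + 4 * x) (A + 4 * C1 * K * (g * w + w / ℓr))) hPrt2
      (by
        intro a b _ _ hb hbi
        exact hF.mono V' a b _ _ _ _ _ _ _ _ _ _ _ _ hbi h2L le_rfl hgF2
          (div_le_div_of_nonneg_right hgF2 h2L.le) le_rfl le_rfl hρP0 hcc hAA)
      (by
        intro a b _ _ hb hbi
        refine ⟨hbi.1, ?_⟩
        exact hF.mono V' a b _ _ _ _ _ _ _ _ _ _ _ _ hbi.2 h2L le_rfl hgF2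
          (div_le_div_of_nonneg_right hgF2 h2L.le) hS2 le_rfl hρP0 hcc hAA)
      (by
        intro a b _ _ hb hbi
        refine ⟨by rw [hbi.1, htm1, hhe], ?_⟩
        exact hF.mono V' a b _ _ _ _ _ _ _ _ _ _ _ _ hbi.2 hlam0 le_rfl hgx
          (div_le_div_of_nonneg_right hgx hlam0.le)
          (le_of_eq hσe) le_rfl hρP0
          hcc hAA)
    have hfin := Prt.cat hPrt3 hPrt4
    rw [show 6 * (P + 1) = 6 + 6 * P by ring]
    rw [Nat.zero_add] at hfin
    exact hfin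

/-- The induction. -/
theorem block_ind {C1 : ℝ} {p : ℕ} (hC1 : 1 ≤ C1) (hP : PassStatement C1 p) (hF : BIFacts)
    (lam m ℓr ν : ℝ) (L : ℕ) (hm : 0 < m) (hm1 : m ≤ 1) (hlam : 1 ≤ lam)
    (hL : (1 + 1 / m) * lam ≤ L) (hexp : Real.exp (-(m * L / (4 * lam))) ≤ 1 / L)
    (hν : 0 < ν) (hν4 : ν ≤ 1 / 4) (hℓ : 0 < ℓr) (P : ℕ) :
    ∀ (V : Fld) (t0 t1 g σ ρ c A w : ℝ),
      BI V t0 t1 lam g σ ρ c A → ρ ≤ 2 → 8 * m * P + 2 * m ≤ ρ → 0 < w → 0 ≤ σ →
      1600 * σ ≤ w ^ 2 → lam * w ≤ g → 0 ≤ c →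
      c + 4 * (C1 * (1 + 1 / m) ^ p * (t1 - t0) * g) ≤ 1 / 100 →
      C1 * (1 + 1 / m) ^ p * (t1 - t0) * g ≤ 1 / 5 →
      C1 * (1 + 1 / m) ^ p * w ^ 2 * ((t1 - t0) * g + (lam / L) ^ 2) ≤ ν ^ 2 * σ →
      12 * ℓr * 2 ^ P ≤ t1 - t0 →
      ∃ V' : Fld,
        (∀ x t, t ∉ Set.Ioo t0 t1 → V' x t = V x t) ∧
        (∀ x t a, |V' x t a - V x t a| ≤ 4 * C1 * w) ∧
        Prt (fun s t => BI V' s t (2 * L)
              (4 * C1 * (L * w + (1 + 1 / m) ^ p * g *
                (1 + 4 * (C1 * (1 + 1 / m) ^ p * (t1 - t0) * g)))) 0 (ρ - 8 * m * P)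
              (c + 4 * (C1 * (1 + 1 / m) ^ p * (t1 - t0) * g))
              (A + 4 * C1 * (1 + 1 / m) ^ p * (g * w + w / ℓr)))
            (fun s t => t - s = ℓr ∧ BI V' s t (2 * L)
              (4 * C1 * (L * w + (1 + 1 / m) ^ p * g *
                (1 + 4 * (C1 * (1 + 1 / m) ^ p * (t1 - t0) * g))))
              (4 * C1 * (1 + 1 / m) ^ p / L * (w / ℓr + g * w)) (ρ - 8 * m * P)
              (c + 4 * (C1 * (1 + 1 / m) ^ p * (t1 - t0) * g))
              (A + 4 * C1 * (1 + 1 / m) ^ p * (g * w + w / ℓr)))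
            (fun s t => t - s = (t1 - t0) / 2 ^ P ∧
              BI V' s t lam (g * (1 + 4 * (C1 * (1 + 1 / m) ^ p * (t1 - t0) * g)))
              (σ * ν ^ (2 * P)) (ρ - 8 * m * P)
              (c + 4 * (C1 * (1 + 1 / m) ^ p * (t1 - t0) * g))
              (A + 4 * C1 * (1 + 1 / m) ^ p * (g * w + w / ℓr)))
            t0 t1 (6 * P) 1 := by
  have hlam0 : 0 < lam := lt_of_lt_of_le one_pos hlam
  have hK0 : 0 < (1 + 1 / m) ^ p := by positivity
  have hC0 : 0 < C1 := lt_of_lt_of_le one_pos hC1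
  have hLpos : (0:ℝ) < L := lt_of_lt_of_le (by positivity) hL
  obtain ⟨K, hK⟩ : ∃ K : ℝ, K = (1 + 1 / m) ^ p := ⟨_, rfl⟩
  rw [← hK] at hK0
  rw [← hK]
  induction P with
  | zero =>
    intro V t0 t1 g σ ρ c A w hB hρ2 hρ hw hσ0 hσ hlw hc0 hc hx hs hℓ2
    have hlt : t0 < t1 := by obtain ⟨d, hd, _⟩ := hB; exact hd.ht
    have hg : 0 ≤ g := le_trans (mul_pos hlam0 hw).le hlw
    have hx0 : 0 ≤ C1 * K * (t1 - t0) * g :=
      mul_nonneg (mul_nonneg (mul_nonneg hC0.le hK0.le) (sub_pos.2 hlt).le) hg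
    refine ⟨V, fun _ _ _ => rfl, fun x t a => by
      rw [sub_self, abs_zero]
      exact mul_nonneg (mul_nonneg (by norm_num) hC0.le) hw.le, ?_⟩
    refine Prt.tail hlt ⟨by rw [pow_zero, div_one], ?_⟩
    have hY : 0 ≤ g * w + w / ℓr := add_nonneg (mul_nonneg hg hw.le) (div_nonneg hw.le hℓ.le)
    have hg' : g ≤ g * (1 + 4 * (C1 * K * (t1 - t0) * g)) := ba_gz hg hx0
    have hρ0 : 0 ≤ ρ := by
      rw [Nat.cast_zero, mul_zero, zero_add] at hρ
      linarith
    refine hF.mono V t0 t1 lam g σ ρ c A lam _ _ _ _ _ hB hlam0 le_rfl hg'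
      (div_le_div_of_nonneg_right hg' hlam0.le) (by rw [mul_zero, pow_zero, mul_one])
      (by rw [Nat.cast_zero, mul_zero, sub_zero]) (by rw [Nat.cast_zero, mul_zero, sub_zero]; exact hρ0)
      (by linarith) (ba_Az hC0.le hK0.le hY)
  | succ P ih =>
    intro V t0 t1 g σ ρ c A w hB hρ2 hρ hw hσ0 hσ hlw hc0 hc hx hs hℓ2
    exact block_step hC1 hP hF lam m ℓr ν L hm hm1 hlam hL hexp hν hν4 hℓ P K hK ih V t0 t1 g σ ρ c A w
      hB hρ2 hρ hw hσ0 hσ hlw hc0 hc hx hs hℓ2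

/-- The block theorem. -/
theorem block_of_pass {C1 : ℝ} {p : ℕ} (hC1 : 1 ≤ C1) (hP : PassStatement C1 p) (hF : BIFacts) :
    BlockStatement (2000 * C1) p := by
  intro V t0 t1 lam g σ ρ c A m w ℓr ν L P hB hm hm1 hρ2 hρ hlam hw hσ0 hσ hlw hc0 hc hL hexp hh
    hν hν4 hs hℓ hℓ2
  have hC0 : 0 < C1 := by linarith
  have hlt : t0 < t1 := by obtain ⟨d, hd, _⟩ := hB; exact hd.ht
  have hh0 : 0 < t1 - t0 := by linarith
  have hg0 : 0 < g := lt_of_lt_of_le (by positivity) hlw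
  have hK0 : 0 < (1 + 1 / m) ^ p := by positivity
  set K := (1 + 1 / m) ^ p with hK
  have hLpos : (0:ℝ) < L := by
    have h1 : 0 < (1 + 1 / m) * lam := by positivity
    linarith
  have e0 : 2000 * C1 * K * (t1 - t0) * g = 2000 * (C1 * K * (t1 - t0) * g) := by ring
  have hx0 : 0 ≤ C1 * K * (t1 - t0) * g := by positivity
  have h2P : (0:ℝ) < 2 ^ P := by positivity
  obtain ⟨V', h1, h2, h3⟩ := block_ind hC1 hP hF lam m ℓr ν L hm hm1 hlam hL hexp hν hν4 hℓ P
    V t0 t1 g σ ρ c A w hB hρ2 hρ hw hσ0.le (ba_sC hC1 hσ0.le hσ) hlw hc0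
    (by rw [← hK]; linarith) (by rw [← hK]; linarith)
    (by
      rw [← hK]
      exact ba_sF hC0.le hK0.le (add_nonneg (mul_nonneg hh0.le hg0.le) (sq_nonneg _)) hs)
    (ba_lF hC1 hℓ hℓ2)
  rw [← hK] at h3
  have hx1 : 4 * (C1 * K * (t1 - t0) * g) ≤ 1 := by linarith
  have hgF : 4 * C1 * (L * w + K * g * (1 + 4 * (C1 * K * (t1 - t0) * g)))
      ≤ 2000 * C1 * (L * w + K * g) := by
    exact ba_fF hC0.le hK0.le hLpos.le hw.le hg0.le hx0 hx1
  have hcF : c + 4 * (C1 * K * (t1 - t0) * g) ≤ c + 2000 * C1 * K * (t1 - t0) * g := by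
    rw [e0]; linarith
  have hAF : A + 4 * C1 * K * (g * w + w / ℓr) ≤ A + 2000 * C1 * K * (g * w + w / ℓr) := by
    exact ba_AF hC0.le hK0.le (add_nonneg (mul_nonneg hg0.le hw.le) (div_nonneg hw.le hℓ.le))
  have hSF : 4 * C1 * K / L * (w / ℓr + g * w) ≤ 2000 * C1 * K / L * (w / ℓr + g * w) := by
    exact ba_SF hC0.le hK0.le hLpos (add_nonneg (div_nonneg hw.le hℓ.le) (mul_nonneg hg0.le hw.le))
  have hgT : g * (1 + 4 * (C1 * K * (t1 - t0) * g)) ≤ g * (1 + 2000 * C1 * K * (t1 - t0) * g) := by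
    apply mul_le_mul_of_nonneg_left _ hg0.le
    rw [e0]; linarith
  have h2L : (0:ℝ) < 2 * L := by positivity
  have hlam0 : 0 < lam := by linarith
  have hρ0 : 0 ≤ ρ - 8 * m * P := by linarith
  refine ⟨V', h1, fun x t a => (h2 x t a).trans (by
    have : 0 < C1 * w := by positivity
    nlinarith), ?_⟩
  refine prt_mono h3 ?_ ?_ ?_
  · intro a b _ _ _ hbi
    exact hF.mono V' a b _ _ _ _ _ _ _ _ _ _ _ _ hbi h2L le_rfl hgF
      (div_le_div_of_nonneg_right hgF h2L.le) le_rfl le_rfl hρ0 hcF hAF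
  · intro a b _ _ _ hbi
    exact ⟨hbi.1, hF.mono V' a b _ _ _ _ _ _ _ _ _ _ _ _ hbi.2 h2L le_rfl hgF
      (div_le_div_of_nonneg_right hgF h2L.le) hSF le_rfl hρ0 hcF hAF⟩
  · intro a b _ _ _ hbi
    exact ⟨hbi.1, hF.mono V' a b _ _ _ _ _ _ _ _ _ _ _ _ hbi.2 hlam0 le_rfl hgT
      (div_le_div_of_nonneg_right hgT hlam0.le) le_rfl le_rfl hρ0 hcF hAF⟩

end ES

end

section

/-!
Project ES, Part III, module RAvgC: the average of a test field is a test field.

Smoothness `contDiff_param`; periodic with period `2π`; divergence (`avg_fderiv`)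
`(2π)⁻¹ ∫ (∂_0 φ_0 + ∂_1 φ_1) = -(2π)⁻¹ ∫_0^1 ∂_2 φ_2 dr = 0` by periodicity in the third variable
(`intervalIntegral.integral_deriv_eq_sub`).
`avg_zero`: `φ` vanishes at the times `0` and `T`.  `avg_bdd`: the gradient is bounded for all times
(periodic in space, zero for `s ∉ [a c, b c]`, continuous on a compact set).
-/

open MeasureTheory Set EulerTimes

namespace ES

private theorem RAvgC_emb_smooth (n : ℕ) :
    ContDiff ℝ n (fun p : (Fin 2 → ℝ) × ℝ => emb p.1 p.2) := by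
  rw [contDiff_euclidean]
  intro i
  fin_cases i
  · simp only [emb]
    exact ((contDiff_apply ℝ ℝ (0 : Fin 2)).comp contDiff_fst).div_const _
  · simp only [emb]
    exact ((contDiff_apply ℝ ℝ (1 : Fin 2)).comp contDiff_fst).div_const _
  · simp only [emb]
    exact contDiff_snd

private theorem RAvgC_smooth {c T : ℝ} {φ : R3 → ℝ → R3} (hφ : TestField T φ) (a : Fin 3)
    (n : ℕ) : ContDiff ℝ n (fun p : ((Fin 2 → ℝ) × ℝ) × ℝ =>
      φ (emb p.1.1 p.2) (p.1.2 / c) a) := by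
  have h1 : ContDiff ℝ n (fun p : R3 × ℝ => φ p.1 p.2 a) := by
    have := hφ.smooth n
    rw [contDiff_euclidean] at this
    exact this a
  have h2 : ContDiff ℝ n (fun p : ((Fin 2 → ℝ) × ℝ) × ℝ =>
      ((emb p.1.1 p.2, p.1.2 / c) : R3 × ℝ)) := by
    apply ContDiff.prodMk
    · exact (RAvgC_emb_smooth n).comp ((contDiff_fst.comp contDiff_fst).prodMk contDiff_snd)
    · exact (contDiff_snd.comp contDiff_fst).div_const _
  exact h1.comp h2

private theorem RAvgC_avg_smooth {c T : ℝ} {φ : R3 → ℝ → R3} (hφ : TestField T φ) (n : ℕ) :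
    ContDiff ℝ n (fun x : (Fin 2 → ℝ) × ℝ => avg c φ x.1 x.2) := by
  rw [contDiff_pi]
  intro a
  exact contDiff_param n _ (RAvgC_smooth hφ (Fin.castSucc a) n)

private theorem RAvgC_per {c T : ℝ} {φ : R3 → ℝ → R3} (hφ : TestField T φ)
    (x : Fin 2 → ℝ) (n : Fin 2 → ℤ) (t : ℝ) :
    avg c φ (fun a => x a + 2 * Real.pi * n a) t = avg c φ x t := by
  funext a
  unfold avg
  congr 1
  funext r
  have h1 : emb (fun a => x a + 2 * Real.pi * n a) r =
      emb x r + WithLp.toLp 2 (fun i : Fin 3 => ((![n 0, n 1, 0] i : ℤ) : ℝ)) := by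
    ext i
    have hpi : (2 * Real.pi) ≠ 0 := by positivity
    fin_cases i
    · simp only [emb]
      simp
      field_simp
    · simp only [emb]
      simp
      field_simp
    · simp only [emb]
      simp
  have h2 : φ (emb x r + WithLp.toLp 2 (fun i : Fin 3 => ((![n 0, n 1, 0] i : ℤ) : ℝ))) (t / c) =
      φ (emb x r) (t / c) := hφ.periodic (t / c) (emb x r) ![n 0, n 1, 0]
  rw [h1, h2]

/-- Line derivative in the third variable. -/
private theorem RAvgC_line {T : ℝ} {φ : R3 → ℝ → R3} (hφ : TestField T φ) (x : Fin 2 → ℝ)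
    (t r : ℝ) :
    HasDerivAt (fun r => φ (emb x r) t 2) (pd 2 (fun y => φ y t 2) (emb x r)) r := by
  have h1 : ContDiff ℝ (1 : ℕ) (fun p : R3 × ℝ => φ p.1 p.2 2) := by
    have := hφ.smooth 1
    rw [contDiff_euclidean] at this
    exact this 2
  have h2 : ContDiff ℝ (1 : ℕ) (fun y : R3 => φ y t 2) :=
    h1.comp (contDiff_id.prodMk contDiff_const)
  have h3 : HasFDerivAt (fun y : R3 => φ y t 2) (fderiv ℝ (fun y => φ y t 2) (emb x r)) (emb x r) :=
    (h2.differentiable (by norm_num)).differentiableAt.hasFDerivAt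
  have h4 : HasDerivAt (fun r => emb x r) (EuclideanSpace.single (2 : Fin 3) (1 : ℝ)) r := by
    have h5 : (fun r => emb x r) = fun r => emb x 0 + r • EuclideanSpace.single (2 : Fin 3) (1 : ℝ) := by
      funext r
      ext i
      fin_cases i <;> simp [emb]
    rw [h5]
    have h6 := ((hasDerivAt_id r).smul_const (EuclideanSpace.single (2 : Fin 3) (1 : ℝ))).const_add
      (emb x 0)
    simpa using h6
  exact h3.comp_hasDerivAt r h4

private theorem RAvgC_pd_cont {T : ℝ} {φ : R3 → ℝ → R3} (hφ : TestField T φ) (i j : Fin 3) (t : ℝ)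
    (x : Fin 2 → ℝ) : Continuous fun r => pd i (fun y => φ y t j) (emb x r) := by
  have h1 : ContDiff ℝ (1 : ℕ) (fun p : R3 × ℝ => φ p.1 p.2 j) := by
    have := hφ.smooth 1
    rw [contDiff_euclidean] at this
    exact this j
  have h2 : ContDiff ℝ (1 : ℕ) (fun y : R3 => φ y t j) :=
    h1.comp (contDiff_id.prodMk contDiff_const)
  have h3 : Continuous fun y : R3 => fderiv ℝ (fun y => φ y t j) y :=
    h2.continuous_fderiv (by norm_num)
  have h4 : Continuous fun r => emb x r :=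
    ((RAvgC_emb_smooth 0).continuous).comp (continuous_const.prodMk continuous_id)
  unfold pd
  exact (h3.comp h4).clm_apply continuous_const

theorem avg_tst {c T : ℝ} (hc : 0 < c) {φ : R3 → ℝ → R3} (hφ : TestField T φ) :
    Tst (avg c φ) := by
  refine ⟨RAvgC_avg_smooth hφ 2, fun x n t => RAvgC_per hφ x n t, fun x t => ?_⟩
  have h1 : ∀ a : Fin 2, fderiv ℝ (fun y => avg c φ y t a) x (Pi.single a 1) =
      (2 * Real.pi)⁻¹ * ∫ r in (0 : ℝ)..1,
        pd (Fin.castSucc a) (fun y => φ y (t / c) (Fin.castSucc a)) (emb x r) :=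
    fun a => avg_fderiv hc hφ x t a a
  rw [Finset.sum_congr rfl fun a _ => h1 a, ← Finset.mul_sum]
  have h2 : ∑ a : Fin 2, ∫ r in (0 : ℝ)..1,
        pd (Fin.castSucc a) (fun y => φ y (t / c) (Fin.castSucc a)) (emb x r) =
      ∫ r in (0 : ℝ)..1, ∑ a : Fin 2,
        pd (Fin.castSucc a) (fun y => φ y (t / c) (Fin.castSucc a)) (emb x r) := by
    rw [intervalIntegral.integral_finsetSum]
    intro a _
    exact (RAvgC_pd_cont hφ _ _ _ _).intervalIntegrable _ _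
  rw [h2]
  have h3 : ∀ r : ℝ, ∑ a : Fin 2,
        pd (Fin.castSucc a) (fun y => φ y (t / c) (Fin.castSucc a)) (emb x r) =
      -pd 2 (fun y => φ y (t / c) 2) (emb x r) := by
    intro r
    have h4 := hφ.divfree (emb x r) (t / c)
    rw [Fin.sum_univ_castSucc] at h4
    have h5 : (Fin.last 2 : Fin 3) = 2 := rfl
    rw [h5] at h4
    linarith
  simp only [h3]
  rw [intervalIntegral.integral_neg]
  have h6 : ∫ r in (0 : ℝ)..1, pd 2 (fun y => φ y (t / c) 2) (emb x r) =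
      φ (emb x 1) (t / c) 2 - φ (emb x 0) (t / c) 2 :=
    intervalIntegral.integral_eq_sub_of_hasDerivAt (fun r _ => RAvgC_line hφ x (t / c) r)
      ((RAvgC_pd_cont hφ _ _ _ _).intervalIntegrable _ _)
  have h7 : φ (emb x 1) (t / c) = φ (emb x 0) (t / c) := by
    have h8 : emb x 1 = emb x 0 + WithLp.toLp 2 (fun i : Fin 3 => ((![0, 0, 1] i : ℤ) : ℝ)) := by
      ext i
      fin_cases i <;> simp [emb]
    rw [h8]
    exact hφ.periodic (t / c) (emb x 0) ![0, 0, 1]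
  rw [h6, h7]
  simp

theorem avg_zero {c T : ℝ} (hc : 0 < c) (hT : 0 < T) {φ : R3 → ℝ → R3} (hφ : TestField T φ)
    (z : Fin 2 → ℝ) : avg c φ z 0 = 0 ∧ avg c φ z (c * T) = 0 := by
  obtain ⟨a, b, ha, hb, hs⟩ := hφ.support
  constructor
  · funext i
    have h : ∀ r, φ (emb z r) (0 / c) = 0 := fun r =>
      hs _ (by rw [zero_div]; intro h; exact absurd h.1 (not_le.2 ha)) _
    unfold avg
    simp only [h]
    simp
  · funext i
    have h : ∀ r, φ (emb z r) (c * T / c) = 0 := fun r =>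
      hs _ (by rw [mul_div_cancel_left₀ _ hc.ne']; intro h; exact absurd h.2 (not_le.2 hb)) _
    unfold avg
    simp only [h]
    simp

theorem avg_bdd {c T : ℝ} (hc : 0 < c) {φ : R3 → ℝ → R3} (hφ : TestField T φ) :
    ∃ Γ : ℝ, ∀ x τ a b, |fderiv ℝ (fun y => avg c φ y τ a) x (Pi.single b 1)| ≤ Γ := by
  obtain ⟨a0, b0, -, -, hs⟩ := hφ.support
  have hkey : ∀ a b : Fin 2, ∃ M : ℝ, ∀ x τ,
      |fderiv ℝ (fun y => avg c φ y τ a) x (Pi.single b 1)| ≤ M := by
    intro a b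
    have hF : ContDiff ℝ (1 : ℕ) (fun p : (Fin 2 → ℝ) × ℝ => avg c φ p.1 p.2 a) := by
      have := RAvgC_avg_smooth (c := c) hφ 1
      rw [contDiff_pi] at this
      exact this a
    have hH : ∀ x τ, fderiv ℝ (fun y => avg c φ y τ a) x (Pi.single b 1) =
        fderiv ℝ (fun p : (Fin 2 → ℝ) × ℝ => avg c φ p.1 p.2 a) (x, τ) (Pi.single b 1, 0) := by
      intro x τ
      have h1 : HasFDerivAt (fun p : (Fin 2 → ℝ) × ℝ => avg c φ p.1 p.2 a)
          (fderiv ℝ (fun p : (Fin 2 → ℝ) × ℝ => avg c φ p.1 p.2 a) (x, τ)) (x, τ) :=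
        (hF.differentiable (by norm_num)).differentiableAt.hasFDerivAt
      have h2 : HasFDerivAt (fun y : Fin 2 → ℝ => ((y, τ) : (Fin 2 → ℝ) × ℝ))
          (ContinuousLinearMap.inl ℝ (Fin 2 → ℝ) ℝ) x := hasFDerivAt_prodMk_left x τ
      have h3 := h1.comp x h2
      have h4 : (fun p : (Fin 2 → ℝ) × ℝ => avg c φ p.1 p.2 a) ∘
          (fun y : Fin 2 → ℝ => ((y, τ) : (Fin 2 → ℝ) × ℝ)) = fun y => avg c φ y τ a := rfl
      rw [h4] at h3
      rw [h3.fderiv]
      simp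
    have hcont : Continuous fun p : (Fin 2 → ℝ) × ℝ =>
        fderiv ℝ (fun p : (Fin 2 → ℝ) × ℝ => avg c φ p.1 p.2 a) p (Pi.single b 1, 0) :=
      (hF.continuous_fderiv (by norm_num)).clm_apply continuous_const
    have hK : IsCompact ((Set.Icc (0 : Fin 2 → ℝ) (fun _ => 2 * Real.pi)) ×ˢ
        (Set.Icc (c * a0) (c * b0))) := isCompact_Icc.prod isCompact_Icc
    obtain ⟨M, hM⟩ := (hK.image hcont.abs).bddAbove
    refine ⟨max M 0, fun x τ => ?_⟩
    by_cases hτ : τ ∈ Set.Icc (c * a0) (c * b0)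
    · -- reduce to the box
      set n : Fin 2 → ℤ := fun i => -⌊x i / (2 * Real.pi)⌋ with hn
      have hpi : 0 < 2 * Real.pi := by positivity
      set y : Fin 2 → ℝ := fun i => x i + 2 * Real.pi * n i with hy
      have hyK : y ∈ Set.Icc (0 : Fin 2 → ℝ) (fun _ => 2 * Real.pi) := by
        have hx : ∀ i, y i = 2 * Real.pi * Int.fract (x i / (2 * Real.pi)) := by
          intro i
          have h1 : x i = 2 * Real.pi * (x i / (2 * Real.pi)) := by field_simp
          simp only [hy, hn, Int.fract]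
          push_cast
          rw [mul_sub, ← h1]
          ring
        constructor
        · intro i
          rw [hx i]
          exact mul_nonneg hpi.le (Int.fract_nonneg _)
        · intro i
          rw [hx i]
          calc 2 * Real.pi * Int.fract (x i / (2 * Real.pi)) ≤ 2 * Real.pi * 1 :=
                mul_le_mul_of_nonneg_left (Int.fract_lt_one _).le hpi.le
            _ = 2 * Real.pi := mul_one _
      have hper : fderiv ℝ (fun y => avg c φ y τ a) x = fderiv ℝ (fun y => avg c φ y τ a) y := by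
        have h1 : (fun z => avg c φ z τ a) =
            fun z => (fun y => avg c φ y τ a) (z + fun i => 2 * Real.pi * (n i : ℝ)) := by
          funext z
          exact (congrFun (RAvgC_per (c := c) hφ z n τ) a).symm
        have h2 : y = x + fun i => 2 * Real.pi * (n i : ℝ) := rfl
        rw [h2]
        calc fderiv ℝ (fun y => avg c φ y τ a) x = fderiv ℝ (fun z => (fun y => avg c φ y τ a)
              (z + fun i => 2 * Real.pi * (n i : ℝ))) x := by rw [← h1]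
          _ = _ := fderiv_comp_add_right (𝕜 := ℝ) (f := fun y => avg c φ y τ a)
              (fun i => 2 * Real.pi * (n i : ℝ))
      rw [hper, hH y τ]
      refine le_trans (hM ⟨(y, τ), ⟨hyK, hτ⟩, rfl⟩) (le_max_left _ _)
    · have h0 : (fun y => avg c φ y τ a) = fun _ => (0 : ℝ) := by
        funext y
        have h : ∀ r, φ (emb y r) (τ / c) = 0 := fun r => hs _ (by
          intro h
          apply hτ
          constructor
          · have := (le_div_iff₀ hc).1 h.1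
            linarith
          · have := (div_le_iff₀ hc).1 h.2
            linarith) _
        simp [avg, h]
      rw [h0]
      simp
  choose M hM using hkey
  refine ⟨∑ a, ∑ b, |M a b|, fun x τ a b => ?_⟩
  refine (hM a b x τ).trans ((le_abs_self _).trans ?_)
  refine le_trans ?_ (Finset.single_le_sum (f := fun a => ∑ b, |M a b|)
    (fun i _ => Finset.sum_nonneg fun j _ => abs_nonneg _) (Finset.mem_univ a))
  exact Finset.single_le_sum (f := fun b => |M a b|) (fun j _ => abs_nonneg _) (Finset.mem_univ b)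

end ES

end

section

/-!
ES-V22 (Part II, helper27): several time derivatives, joint smoothness.

`TDn a b n f`: `f` has `n` successive time derivatives in `WT` on `(a,b)`.
Closure under the algebra operations by induction on `n` (`TD.add`, `TD.mul`, `TD.mlt`; for the
product: the derivative of `f * g` is `f' * g + f * g'`, and `TDn.of_succ`).
`TDn_all`: if `d/dt g_a = - ∑ ∑ Ps (D (g_b g_c))` then all `g_a` are `TDn n` for all `n`, by
induction on `n` (`TDn (n+1)` of `g_a` holds since the right hand side is `TDn n`).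
`contDiffOn`: induction on `n` for all `f`: `hasStrictFDerivAt_evR` gives the derivative
`∑_a evR (D_a f) dz_a + evR f' dt`, whose coefficient functions are `ContDiffOn n` by induction
(`TDn n` of `D_a f` and of `f'`); `contDiffOn_succ_iff_fderiv_of_isOpen` or
`contDiffOn_succ_iff_hasFDerivWithinAt`.
-/

namespace ES

/-- `n` time derivatives. -/
def TDn (a b : ℝ) : ℕ → WT → Prop
  | 0, _ => True
  | n + 1, f => ∃ g, TD a b f g ∧ TDn a b n g

theorem TDn.of_succ {a b : ℝ} {n : ℕ} {f : WT} (h : TDn a b (n + 1) f) : TDn a b n f := by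
  induction n generalizing f with
  | zero => trivial
  | succ n ih =>
    obtain ⟨g, h1, h2⟩ := h
    exact ⟨g, h1, ih h2⟩

theorem TDn.zero (a b : ℝ) (n : ℕ) : TDn a b n 0 := by
  induction n with
  | zero => trivial
  | succ n ih => exact ⟨0, TD.zero a b, ih⟩

theorem TDn.add {a b : ℝ} {n : ℕ} {f g : WT} (hf : TDn a b n f) (hg : TDn a b n g) :
    TDn a b n (f + g) := by
  induction n generalizing f g with
  | zero => trivial
  | succ n ih =>
    obtain ⟨f', h1, h2⟩ := hf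
    obtain ⟨g', h3, h4⟩ := hg
    exact ⟨f' + g', h1.add h3, ih h2 h4⟩

theorem TDn.neg {a b : ℝ} {n : ℕ} {f : WT} (hf : TDn a b n f) : TDn a b n (-f) := by
  induction n generalizing f with
  | zero => trivial
  | succ n ih =>
    obtain ⟨f', h1, h2⟩ := hf
    exact ⟨-f', h1.neg, ih h2⟩

theorem TDn.sum {a b : ℝ} {n : ℕ} {ι : Type*} (s : Finset ι) {f : ι → WT}
    (hf : ∀ j ∈ s, TDn a b n (f j)) : TDn a b n (∑ j ∈ s, f j) := by
  classical
  induction s using Finset.induction_on with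
  | empty => simpa using TDn.zero a b n
  | insert i s hi ih =>
    rw [Finset.sum_insert hi]
    exact (hf i (Finset.mem_insert_self i s)).add
      (ih fun j hj => hf j (Finset.mem_insert_of_mem hj))

theorem TDn.mul {a b : ℝ} {n : ℕ} {f g : WT} (hf : TDn a b n f) (hg : TDn a b n g) :
    TDn a b n (f * g) := by
  induction n generalizing f g with
  | zero => trivial
  | succ n ih =>
    have hf0 := hf.of_succ
    have hg0 := hg.of_succ
    obtain ⟨f', h1, h2⟩ := hf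
    obtain ⟨g', h3, h4⟩ := hg
    exact ⟨f' * g + f * g', h1.mul h3, (ih h2 hg0).add (ih hf0 h4)⟩

theorem TDn.mlt {a b : ℝ} {n : ℕ} {s : Gx → ℂ} (hs : PG s) {f : WT} (hf : TDn a b n f) :
    TDn a b n (ES.mlt s hs f) := by
  induction n generalizing f with
  | zero => trivial
  | succ n ih =>
    obtain ⟨f', h1, h2⟩ := hf
    exact ⟨ES.mlt s hs f', h1.mlt hs, ih h2⟩

theorem TDn.D {a b : ℝ} {n : ℕ} (κ : Kp) (i : Fin 2) {f : WT} (hf : TDn a b n f) :
    TDn a b n (ES.D κ i f) := hf.mlt _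

theorem TDn.Ps {a b : ℝ} {n : ℕ} (κ : Kp) (i j : Fin 2) {f : WT} (hf : TDn a b n f) :
    TDn a b n (ES.Ps κ i j f) := by
  have h1 : TDn a b n (ES.Pg κ i j f) := hf.mlt _
  have h2 : TDn a b n ((if i = j then ES.Pnz κ else 0) f) := by
    split_ifs
    · exact hf.mlt _
    · exact TDn.zero a b n
  have e : ES.Ps κ i j f = (if i = j then ES.Pnz κ else 0) f + -(ES.Pg κ i j f) := by
    unfold ES.Ps
    rw [LinearMap.sub_apply, sub_eq_add_neg]
  rw [e]
  exact h2.add h1.neg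

theorem TDn_all {a b : ℝ} {κ : Kp} {g : Fin 2 → WT}
    (h : ∀ i, TD a b (g i) (-∑ j, ∑ l, ES.Ps κ i l (ES.D κ j (g j * g l)))) (n : ℕ) (i : Fin 2) :
    TDn a b n (g i) := by
  induction n generalizing i with
  | zero => trivial
  | succ n ih =>
    exact ⟨_, h i, (TDn.sum _ fun j _ => TDn.sum _ fun l _ =>
      ((((ih j).mul (ih l)).D κ j).Ps κ i l)).neg⟩

theorem TDn.contDiffOn {a b : ℝ} (κ : Kp) (n : ℕ) {f : WT} (hf : TDn a b n f) :
    ContDiffOn ℝ n (fun p : (Fin 2 → ℝ) × ℝ => evR κ f p.1 p.2) (Set.univ ×ˢ Set.Ioo a b) := by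
  induction n generalizing f with
  | zero =>
    exact contDiffOn_zero.2 (continuous_evR κ f).continuousOn
  | succ n ih =>
    have hf0 := hf.of_succ
    obtain ⟨f', h1, h2⟩ := hf
    have hopen : IsOpen ((Set.univ : Set (Fin 2 → ℝ)) ×ˢ Set.Ioo a b) :=
      isOpen_univ.prod isOpen_Ioo
    have hd : ∀ p ∈ (Set.univ : Set (Fin 2 → ℝ)) ×ˢ Set.Ioo a b,
        HasFDerivAt (fun p : (Fin 2 → ℝ) × ℝ => evR κ f p.1 p.2)
          ((∑ a : Fin 2, evR κ (ES.D κ a f) p.1 p.2 •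
            ((ContinuousLinearMap.proj a : (Fin 2 → ℝ) →L[ℝ] ℝ).comp
              (ContinuousLinearMap.fst ℝ (Fin 2 → ℝ) ℝ))) +
          evR κ f' p.1 p.2 • ContinuousLinearMap.snd ℝ (Fin 2 → ℝ) ℝ) p := by
      rintro ⟨z, t⟩ ⟨-, ht⟩
      exact (hasStrictFDerivAt_evR κ h1 z ht).hasFDerivAt
    have hcast : ((n + 1 : ℕ) : WithTop ℕ∞) = (n : WithTop ℕ∞) + 1 := by push_cast; rfl
    rw [hcast, contDiffOn_succ_iff_fderiv_of_isOpen hopen]
    refine ⟨fun p hp => (hd p hp).differentiableAt.differentiableWithinAt, ?_, ?_⟩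
    · intro h
      exact absurd h (by simp)
    · refine ContDiffOn.congr ?_ fun p hp => (hd p hp).fderiv
      refine ContDiffOn.add (ContDiffOn.sum fun a _ => ?_) ?_
      · exact (ih (hf0.D κ a)).smul contDiffOn_const
      · exact (ih h2).smul contDiffOn_const

end ES

end
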