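import Pool.Agent.H16.TSS.M04

/-! The parts of this file: ES.LBd_8, ES.LExp_4. -/

section

/-!
ES-LBd: calculus of the bounds `Bd k r f c` (see `Defs`), i.e. of the weighted norms
`∑_ν sup_t (1+|ν|)^k e^{r(t)|ν|} |f_ν(t)| ≤ c` in the majorant form.
Products: the majorants are convolved (`one_add_len_le`, `len_add`, `summable_prod_shift`).
-/

open scoped BoundedContinuousFunction

namespace ES

theorem Bd.sum {k : ℕ} {r : ℝ → ℝ} {ι : Type*} (s : Finset ι) {f : ι → WT} {c : ι → ℝ}
    (hf : ∀ j ∈ s, Bd k r (f j) (c j)) : Bd k r (∑ j ∈ s, f j) (∑ j ∈ s, c j) := by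
  classical
  induction s using Finset.induction_on with
  | empty => simpa using Bd.zero k r le_rfl
  | insert j s hj ih =>
    rw [Finset.sum_insert hj, Finset.sum_insert hj]
    exact (hf j (Finset.mem_insert_self _ _)).add
      (ih fun i hi => hf i (Finset.mem_insert_of_mem hi))

end ES

end

section

/-!
ES-LExp: the exponential in `WT`.
`texpc f ν = ∑' n, (f^n).co ν / n!`.  With `N_k(f) = ∑ (1+|ν|)^k ‖f_ν‖` one has
`N_k(f^n) ≤ N_k(f)^n`, so the family is rapidly decreasing for every `f`.
Useful device: for a bound `Bd k r f c` the partial sums of the exponential satisfy `Bd k r _ (exp c)`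
and the series of differences is dominated by `c^n/n!`.
Additivity: Cauchy product (`tsum_mul_tsum_eq_tsum_sum_antidiagonal_of_summable_norm` in the complete
ring `Ct`, after exchanging sums), or uniqueness.  Derivations: `∂ (f^n) = n f^(n-1) ∂ f`.
-/

open scoped BoundedContinuousFunction

namespace ES

/-! ### norms and absolutely convergent series -/

/-- Lipschitz bound. -/
theorem Bd.texp_sub {k : ℕ} {r : ℝ → ℝ} (hr0 : ∀ t, 0 ≤ r t) {f g : WT} {c e : ℝ}
    (hf : Bd k r f c) (hg : Bd k r g c) (hfg : Bd k r (f - g) e) :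
    Bd k r (ES.texp f - ES.texp g) (e * Real.exp c) := by
  have h1 : ∀ n, Bd k r (et f (n + 1) - et g (n + 1)) (c ^ n / n.factorial * e) := by
    intro n
    have e1 : et f (n + 1) - et g (n + 1) = (((n + 1).factorial : ℂ)⁻¹) •
        ((∑ i ∈ Finset.range (n + 1), f ^ i * g ^ (n + 1 - 1 - i)) * (f - g)) := by
      rw [(Commute.all f g).geom_sum₂_mul]
      unfold et
      rw [smul_sub]
    rw [e1]
    have h2 : Bd k r (∑ i ∈ Finset.range (n + 1), f ^ i * g ^ (n + 1 - 1 - i))
        (∑ i ∈ Finset.range (n + 1), c ^ n) := by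
      refine Bd.sum _ fun i hi => ?_
      have hi' : i ≤ n := Nat.lt_succ_iff.mp (Finset.mem_range.mp hi)
      have h3 := Bd.mul hr0 (Bd.pow hr0 hf i) (Bd.pow hr0 hg (n + 1 - 1 - i))
      rw [← pow_add] at h3
      have h4 : i + (n + 1 - 1 - i) = n := by omega
      rwa [h4] at h3
    rw [Finset.sum_const, Finset.card_range, nsmul_eq_mul] at h2
    have h5 := Bd.smul (((n + 1).factorial : ℂ)⁻¹) (Bd.mul hr0 h2 hfg)
    rw [norm_fact] at h5
    refine h5.mono (le_of_eq ?_)
    rw [Nat.factorial_succ]
    push_cast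
    have n1 : (n.factorial : ℝ) ≠ 0 := by exact_mod_cast n.factorial_ne_zero
    have n2 : (n : ℝ) + 1 ≠ 0 := by positivity
    field_simp
  have h2 : ∀ ν t, HasSum (fun n => (et f (n + 1) - et g (n + 1)).co ν t)
      ((ES.texp f - ES.texp g).co ν t) := by
    intro ν t
    have h3 := (HS_apply (texp_HS f) ν t).sub (HS_apply (texp_HS g) ν t)
    have h4 : HasSum (fun n => (et f n - et g n).co ν t) ((ES.texp f - ES.texp g).co ν t) := by
      simpa using h3
    rw [hasSum_nat_add_iff (f := fun n => (et f n - et g n).co ν t) 1]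
    have h0 : (et f 0 - et g 0).co ν t = 0 := by
      unfold et
      simp
    rw [Finset.sum_range_one, h0, add_zero]
    exact h4
  have h3 := Bd_series h1 ((Real.summable_pow_div_factorial c).mul_right e) h2
  rw [tsum_mul_right, ← exp_tsum, mul_comm] at h3
  exact h3

end ES

end
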