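import Pool.Agent.H16.TSS.ES.SDer
import Pool.Agent.H16.TSS.ES.SPost
import Pool.Agent.H16.TSS.ES.XAvg
import Pool.Agent.H16.TSS.ES.XNew
import Pool.Agent.H16.TSS.M12

/-! The parts of this file: ES.XAvg_2, ES.XNew_3. -/

section

/-!
ES-XAvg: averaging over a sub-block (EW 4, Lemma 4.3).
-/

open scoped BoundedContinuousFunction

namespace ES

section
variable {P : SB} {lam g σ ρ c A ρ0 m w η : ℝ} {ζ E W a q : Vec}

/-- The mean of `W0 ⊗ W0`. -/
theorem W0_W0 (H : SBH P lam g σ ρ c A ρ0 m w η) (k l : Fin 2) :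
    mean P.d.i (P.W0 k * P.W0 l) = (kp P.k0 k * kp P.k0 l) • (P.b * P.b) +
      ((P.L : ℂ)⁻¹ ^ 2) • (dp P.d.κ k P.b * dp P.d.κ l P.b) := by
  have hm := H.hm
  have hL : 0 < P.L := by
    have h1 := H.hL
    have h2 := H.hlam
    have h3 : 0 < lam * (1 + 1 / m) := by positivity
    have h4 : (0 : ℝ) < P.L := lt_of_lt_of_le h3 h1
    exact_mod_cast h4
  have hb : osc P.d.i P.b = 0 := Lev.osc le_rfl H.bl
  have hk : ∀ a, P.d.κ.k a P.d.i = 0 := fun a => H.good.k0 a P.d.i le_rfl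
  have hW : ∀ j, P.W0 j = (((Real.sqrt 2 : ℝ) : ℂ) * kp P.k0 j) • (P.b * cs P.d.i) +
      ((P.L : ℂ)⁻¹ * ((Real.sqrt 2 : ℝ) : ℂ)) • (dp P.d.κ j P.b * sn P.d.i) := by
    intro j
    rw [W0_eq P hk hb hL j]
    rfl
  have hs2 : ((Real.sqrt 2 : ℝ) : ℂ) * ((Real.sqrt 2 : ℝ) : ℂ) = 2 := by
    rw [← Complex.ofReal_mul, Real.mul_self_sqrt (by norm_num)]
    norm_num
  have hdk : ∀ j, osc P.d.i (dp P.d.κ j P.b) = 0 := XAvg_dp_osc hb
  have hprod : P.W0 k * P.W0 l =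
      (2 * (kp P.k0 k * kp P.k0 l)) • (P.b * P.b * (cs P.d.i * cs P.d.i)) +
      (2 * (kp P.k0 k * (P.L : ℂ)⁻¹)) • (P.b * dp P.d.κ l P.b * (cs P.d.i * sn P.d.i)) +
      (2 * (kp P.k0 l * (P.L : ℂ)⁻¹)) • (P.b * dp P.d.κ k P.b * (cs P.d.i * sn P.d.i)) +
      (2 * ((P.L : ℂ)⁻¹ ^ 2)) • (dp P.d.κ k P.b * dp P.d.κ l P.b * (sn P.d.i * sn P.d.i)) := by
    rw [hW k, hW l, ← hs2]
    simp only [Algebra.smul_def, map_mul, map_pow]
    ring
  rw [hprod, map_add, map_add, map_add, map_smul, map_smul, map_smul, map_smul,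
    mean_mul_left _ (osc_mul_zero _ hb hb), mean_mul_left _ (osc_mul_zero _ hb (hdk l)),
    mean_mul_left _ (osc_mul_zero _ hb (hdk k)), mean_mul_left _ (osc_mul_zero _ (hdk k) (hdk l)),
    cs_sq_mean, sn_sq_mean, cs_sn_mean, mul_zero, mul_zero, smul_zero, smul_zero, add_zero,
    add_zero, mul_smul_comm, mul_smul_comm, mul_one, mul_one, smul_smul, smul_smul]
  congr 2
  · ring
  · ring

/-! the averaging operator -/

theorem XAvg_J_bd {k : ℕ} {ρ : ℝ} {f : WT} {c a b : ℝ} (hab : a ≤ b)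
    (hf : Bd k (cr ρ) f c) : Bd k (cr ρ) (XAvg_J a b f) ((b - a) * c) := by
  unfold XAvg_J
  exact Bd.frz b (Bd.intg hab (fun _ _ _ => le_rfl) hf)

end

end ES

end

section

/-!
ES-XNew: regularity and bounds of the new coordinates and velocities, common to gap, ramps and
final interval (EW 3, Prop. 3.5).  Constants are generous.  `K = 1 + 1/m`, radius `P.r ρ0 m`.
-/

open scoped BoundedContinuousFunction

namespace ES

section
variable {P : SB} {lam g σ ρ c A ρ0 m w η : ℝ} {ζ E W a q : Vec}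

theorem XNew_ch (H : SBH P lam g σ ρ c A ρ0 m w η) (S : SB0 P lam g ρ0 m w ζ E W a q) :
    CH P.d.κ lam m m (P.r ρ0 m) ζ := H.dh.ch (SB0.bh H S).z

/-- Levels, reality, clamping of the new quantities. -/
theorem new_lev (H : SBH P lam g σ ρ c A ρ0 m w η) (S : SB0 P lam g ρ0 m w ζ E W a q)
    (j : Fin 2) : Lev P.d.i (nX P.d ζ j) ∧ Lev P.d.i (nV P.d ζ E j) ∧
      Lev (P.d.i + 1) (nu' P.d ζ E W j) ∧ Lev P.d.i (comp P.d.κ ζ P.d.p) ∧
      (∀ k, Lev P.d.i (FF P.d ζ j k) ∧ Lev P.d.i (MM P.d ζ j k)) ∧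
      Lev (P.d.i + 1) (P.f ζ E W j) := by
  have C := XNew_lev P.d.κ P.d.i P.d.i
  have C' := XNew_lev P.d.κ P.d.i (P.d.i + 1)
  have HA := fun j => XNew_all (E := E) C H
    (fun hf hX => Lev.comp (XNew_ch H S) S.lζ (XNew_fin H hf) hX) S.lζ S.lE H.good.levξ
    H.good.levv H.good.levp H.good.levR j
  obtain ⟨h1, h2, h3, h4, h5, h6⟩ := HA j
  have up : ∀ {f : WT}, Lev P.d.i f → Lev (P.d.i + 1) f := fun h => h.mono (Nat.le_succ _)
  refine ⟨h1, h2, ?_, h3, h4, ?_⟩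
  · exact C'.add (up h2) (C'.mulv (fun a b => up ((HA a).2.2.2.1 b).1) S.lW j)
  · exact C'.f (fun a b => up ((HA a).2.2.2.1 b).1) (fun a b => up ((HA a).2.2.2.1 b).2)
      (fun a b => up ((HA a).2.2.2.2.1 b)) (fun a b => up ((HA a).2.2.2.2.2 b))
      (fun a => up (S.lE a)) S.lW j

end

/-! Clamping to a subinterval of data. -/

end ES

end
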