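import Pool.Agent.H16.TSS.ES.LBd_6
import Pool.Agent.H16.TSS.ES.SDer_1

/-! The parts of this file: ES.SF, ES.SF_3. -/

section

/-!
ES-SF: bounds and Lipschitz bounds of the right hand side `f` and of `g` of the sub-block system,
and of the initial wave `W0` (EW 2, Lemmas 2.1, 2.2).  `K = 1 + 1/m`, always `lam w ≤ g`,
`σ ≤ w²`.

`f = -2 LL (E+W) - ((E+W)·D)(F'E) - [ (W·D)(F'(E+W)) + bet W · F' dth (E+W) ] - D·(R M'ᵀ)`:
  `N0(2 LL (E+W)) ≤ 2·2·2g·35w`,  `N0(((E+W)·D)(F'E)) ≤ 2·35w·lam·6K·2w`,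
  `N0((W·D)(F'(E+W))) ≤ 2·33w·lam·6K·131K w`,  `N0(bet) ≤ 2 lam·129K w`, `N0(F' dth(E+W)) ≤ 1.03·131K w`,
  `N0(D·(R M'ᵀ)) ≤ 12 K² lam σ`;  the sum is `≤ 10^5 K² g w`.
-/

open scoped BoundedContinuousFunction

namespace ES

/-! private helpers -/

theorem SF_sum2 {k : ℕ} {r : ℝ → ℝ} {f : Fin 2 → WT} {c c0 c1 : ℝ}
    (h0 : Bd k r (f 0) c0) (h1 : Bd k r (f 1) c1) (h : c0 + c1 ≤ c) :
    Bd k r (∑ j, f j) c := by
  rw [Fin.sum_univ_two]; exact (h0.add h1).mono h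

theorem SF_mulv {k : ℕ} {r : ℝ → ℝ} (hr0 : ∀ t, 0 ≤ r t) {X : Mat} {v : Vec} {x e : ℝ}
    {a : Fin 2} (hX : ∀ c, Bd k r (X a c) x) (hv : ∀ c, Bd k r (v c) e) :
    Bd k r (mulv X v a) (2 * (x * e)) :=
  SF_sum2 ((hX 0).mul hr0 (hv 0)) ((hX 1).mul hr0 (hv 1)) (by linarith)

theorem SF_mulvT {k : ℕ} {r : ℝ → ℝ} (hr0 : ∀ t, 0 ≤ r t) {X : Mat} {v : Vec} {x e : ℝ}
    {a : Fin 2} (hX : ∀ c, Bd k r (X c a) x) (hv : ∀ c, Bd k r (v c) e) :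
    Bd k r (mulvT X v a) (2 * (x * e)) :=
  SF_sum2 ((hX 0).mul hr0 (hv 0)) ((hX 1).mul hr0 (hv 1)) (by linarith)

theorem SF_adv {r : ℝ → ℝ} (hr0 : ∀ t, 0 ≤ r t) {κ : Kp} {lam : ℝ} (hκ : KB κ lam)
    {x y : Vec} {p q : ℝ} {a : Fin 2} (hx : ∀ b, Bd 0 r (x b) p) (hy : Bd 1 r (y a) q) :
    Bd 0 r (adv κ x y a) (2 * (p * (lam * q))) :=
  SF_sum2 ((hx 0).mul hr0 (hy.D hκ 0)) ((hx 1).mul hr0 (hy.D hκ 1)) (by linarith)

theorem SF_two {k : ℕ} {r : ℝ → ℝ} {f : WT} {c : ℝ} (h : Bd k r f c) :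
    Bd k r (2 * f) (2 * c) := by
  have e : 2 * f = f + f := two_mul f
  rw [e]; exact (h.add h).mono (by linarith)

theorem SF_mulv_sub (X X' : Mat) (v v' : Vec) (a : Fin 2) :
    mulv X v a - mulv X' v' a = mulv X (v - v') a + mulv (fun a b => X a b - X' a b) v' a := by
  simp only [mulv, Fin.sum_univ_two, Pi.sub_apply]; ring

theorem SF_adv_sub (κ : Kp) (x x' y y' : Vec) (a : Fin 2) :
    adv κ x y a - adv κ x' y' a = adv κ (x - x') y a + adv κ x' (y - y') a := by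
  simp only [adv, Fin.sum_univ_two, Pi.sub_apply, map_sub]; ring

theorem SF_bet_sub (P : SB) (W W' : Vec) : P.bet W - P.bet W' = P.bet (W - W') := by
  simp only [SB.bet, dvg, Fin.sum_univ_two, Pi.sub_apply, map_sub, map_add]; ring

section
variable {P : SB} {lam g σ c m r0 w s : ℝ} {r : ℝ → ℝ} {ζ ζ' E E' W W' a a' q q' : Vec}

theorem SF_r0 {d : Dat} (H : DH d lam g σ c m r0 r) (t : ℝ) : 0 ≤ r t :=
  H.r00.le.trans (H.hr t)

/-- `E + W` at order 0 -/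
theorem SF_EW0 (B : BH lam m w r ζ E W) (j : Fin 2) : Bd 0 r ((E + W) j) (35 * w) :=
  (((B.e j).weaken (Nat.zero_le _) fun _ => le_rfl).add (B.w0 j)).mono (by linarith)

theorem SF_EW1 {d : Dat} (H : DH d lam g σ c m r0 r) (hw : 0 ≤ w)
    (B : BH lam m w r ζ E W) (j : Fin 2) : Bd 1 r ((E + W) j) (131 * (1 + 1 / m) * w) := by
  refine ((B.e j).add (B.w1 j)).mono ?_
  nlinarith [mul_le_mul_of_nonneg_right H.K2 hw]

/-- numbers -/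
theorem SF_num {K X Y : ℝ} (hK : 2 ≤ K) (hX : 0 ≤ X) (hXY : X ≤ Y)
    {c0 c1 c2 C : ℝ} (h0 : 0 ≤ c0) (h1 : 0 ≤ c1) (h2 : 0 ≤ c2) (hC : c0 / 4 + c1 / 2 + c2 ≤ C) :
    c0 * Y + c1 * K * X + c2 * K ^ 2 * X ≤ C * K ^ 2 * Y := by
  have hY : 0 ≤ Y := hX.trans hXY
  have hK0 : 0 ≤ K := by linarith
  have e1 : 4 ≤ K ^ 2 := by nlinarith
  have e2 : 2 * K ≤ K ^ 2 := by nlinarith
  have a0 : c0 * Y ≤ c0 / 4 * K ^ 2 * Y := by
    have := mul_le_mul_of_nonneg_left e1 (mul_nonneg h0 hY)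
    nlinarith
  have a1 : c1 * K * X ≤ c1 / 2 * K ^ 2 * Y := by
    have b1 : c1 * K * X ≤ c1 * K * Y := mul_le_mul_of_nonneg_left hXY (mul_nonneg h1 hK0)
    have b2 := mul_le_mul_of_nonneg_left e2 (mul_nonneg h1 hY)
    nlinarith
  have a2 : c2 * K ^ 2 * X ≤ c2 * K ^ 2 * Y :=
    mul_le_mul_of_nonneg_left hXY (mul_nonneg h2 (sq_nonneg K))
  have a3 := mul_le_mul_of_nonneg_right hC (mul_nonneg (sq_nonneg K) hY)
  nlinarith

theorem SF_dEW1 (hE : ∀ j, Bd 1 r (E j - E' j) (s * w))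
    (hW : ∀ j, Bd 1 r (W j - W' j) (s * w)) (j : Fin 2) :
    Bd 1 r ((E + W - (E' + W')) j) (2 * (s * w)) := by
  have e : (E + W - (E' + W')) j = (E j - E' j) + (W j - W' j) := by
    simp only [Pi.sub_apply, Pi.add_apply]; ring
  rw [e]
  exact ((hE j).add (hW j)).mono (by linarith)

end

end ES

end

section

/-!
ES-SF: bounds and Lipschitz bounds of the right hand side `f` and of `g` of the sub-block system,
and of the initial wave `W0` (EW 2, Lemmas 2.1, 2.2).  `K = 1 + 1/m`, always `lam w ≤ g`,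
`σ ≤ w²`.

`f = -2 LL (E+W) - ((E+W)·D)(F'E) - [ (W·D)(F'(E+W)) + bet W · F' dth (E+W) ] - D·(R M'ᵀ)`:
  `N0(2 LL (E+W)) ≤ 2·2·2g·35w`,  `N0(((E+W)·D)(F'E)) ≤ 2·35w·lam·6K·2w`,
  `N0((W·D)(F'(E+W))) ≤ 2·33w·lam·6K·131K w`,  `N0(bet) ≤ 2 lam·129K w`, `N0(F' dth(E+W)) ≤ 1.03·131K w`,
  `N0(D·(R M'ᵀ)) ≤ 12 K² lam σ`;  the sum is `≤ 10^5 K² g w`.
-/

open scoped BoundedContinuousFunction

namespace ES

/-! private helpers -/

theorem SF_bet {P : SB} {r : ℝ → ℝ} {lam e : ℝ} (hκ : KB P.d.κ lam) {W : Vec}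
    (hW : ∀ j, Bd 1 r (W j) e) : Bd 0 r (P.bet W) (2 * lam * e) := by
  unfold SB.bet
  exact ((SF_sum2 ((hW 0).D hκ 0) ((hW 1).D hκ 1) (by linarith)).ith _).neg

section
variable {P : SB} {lam g σ c m r0 w s : ℝ} {r : ℝ → ℝ} {ζ ζ' E E' W W' a a' q q' : Vec}

theorem SF_dth {d : Dat} (H : DH d lam g σ c m r0 r) (hw : 0 ≤ w)
    (B : BH lam m w r ζ E W) (i : ℕ) (j : Fin 2) :
    Bd 0 r (ES.dth i (E j + W j)) (131 * (1 + 1 / m) * w) :=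
  (SF_EW1 H hw B j).dth i

/-- the four terms of `f` -/
private theorem SF_T1 {d : Dat} (H : DH d lam g σ c m r0 r)
    (B : BH lam m w r ζ E W) (j : Fin 2) :
    Bd 0 r (2 * mulv (LL d ζ) (E + W) j) (280 * (g * w)) :=
  (SF_two (SF_mulv (SF_r0 H) (fun c => H.bd_LL0 B.z j c) (SF_EW0 B))).mono (by linarith)

theorem SF_FE {d : Dat} (H : DH d lam g σ c m r0 r)
    (B : BH lam m w r ζ E W) (j : Fin 2) :
    Bd 1 r (mulv (FF d ζ) E j) (12 * (1 + 1 / m) * w) :=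
  (H.mulv_F1 B.z B.e j).mono (by linarith)

theorem SF_FEW {d : Dat} (H : DH d lam g σ c m r0 r) (hw : 0 ≤ w)
    (B : BH lam m w r ζ E W) (j : Fin 2) :
    Bd 1 r (mulv (FF d ζ) (E + W) j) (786 * (1 + 1 / m) ^ 2 * w) :=
  (H.mulv_F1 B.z (SF_EW1 H hw B) j).mono (le_of_eq (by ring))

private theorem SF_T2 {d : Dat} (H : DH d lam g σ c m r0 r)
    (B : BH lam m w r ζ E W) (j : Fin 2) :
    Bd 0 r (adv d.κ (E + W) (mulv (FF d ζ) E) j) (840 * (1 + 1 / m) * (lam * w * w)) :=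
  (SF_adv (SF_r0 H) H.kb (SF_EW0 B) (SF_FE H B j)).mono (le_of_eq (by ring))

private theorem SF_T3 {d : Dat} (H : DH d lam g σ c m r0 r) (hw : 0 ≤ w)
    (B : BH lam m w r ζ E W) (j : Fin 2) :
    Bd 0 r (adv d.κ W (mulv (FF d ζ) (E + W)) j)
      (51876 * (1 + 1 / m) ^ 2 * (lam * w * w)) :=
  (SF_adv (SF_r0 H) H.kb B.w0 (SF_FEW H hw B j)).mono (le_of_eq (by ring))

theorem SF_Fdth {d : Dat} (H : DH d lam g σ c m r0 r) (hw : 0 ≤ w)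
    (B : BH lam m w r ζ E W) (i : ℕ) (j : Fin 2) :
    Bd 0 r (mulv (FF d ζ) (fun c => ES.dth i (E c + W c)) j) (135 * (1 + 1 / m) * w) := by
  refine (H.mulv_F0 B.z (SF_dth H hw B i) j).mono ?_
  have : 0 ≤ (1 + 1 / m) * w := mul_nonneg (by linarith [H.K2]) hw
  linarith

theorem SF_T4 (H : DH P.d lam g σ c m r0 r) (hw : 0 ≤ w)
    (B : BH lam m w r ζ E W) (j : Fin 2) :
    Bd 0 r (P.bet W * mulv (FF P.d ζ) (fun c => ES.dth P.d.i (E c + W c)) j)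
      (34830 * (1 + 1 / m) ^ 2 * (lam * w * w)) :=
  ((SF_bet H.kb B.w1).mul (SF_r0 H) (SF_Fdth H hw B P.d.i j)).mono (le_of_eq (by ring))

theorem SF_T5 {d : Dat} (H : DH d lam g σ c m r0 r) (hσ : σ ≤ w ^ 2)
    (B : BH lam m w r ζ E W) (j : Fin 2) :
    Bd 0 r (dvm d.κ (mulT (RR d ζ) (MM d ζ)) j) (12 * (1 + 1 / m) ^ 2 * (lam * w * w)) := by
  refine (H.bd_dvm B.z j).mono ?_
  have h1 : 0 ≤ 12 * (1 + 1 / m) ^ 2 * lam := by
    have := H.hlam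
    positivity
  calc 12 * (1 + 1 / m) ^ 2 * lam * σ ≤ 12 * (1 + 1 / m) ^ 2 * lam * w ^ 2 :=
        mul_le_mul_of_nonneg_left hσ h1
    _ = _ := by ring

theorem f_bd (H : DH P.d lam g σ c m r0 r) (hw : 0 ≤ w) (hlw : lam * w ≤ g) (hσ : σ ≤ w ^ 2)
    (B : BH lam m w r ζ E W) (j : Fin 2) :
    Bd 0 r (P.f ζ E W j) (10 ^ 5 * (1 + 1 / m) ^ 2 * g * w) := by
  have h := (((SF_T1 H B j).neg.sub (SF_T2 H B j)).sub
    ((SF_T3 H hw B j).add (SF_T4 H hw B j))).sub (SF_T5 H hσ B j)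
  refine Bd.mono h ?_
  have hl := H.hlam
  have h1 := SF_num (K := 1 + 1 / m) (X := lam * w * w) (Y := g * w) H.K2 (by positivity)
    (mul_le_mul_of_nonneg_right hlw hw) (c0 := 280) (c1 := 840) (c2 := 86718) (C := 10 ^ 5)
    (by norm_num) (by norm_num) (by norm_num) (by norm_num)
  linarith

end

end ES

end
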