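import Pool.Agent.H16.TSS.ES.SEx_1
import Pool.Agent.H16.TSS.ES.SPost_1
import Pool.Agent.H16.TSS.ES.XAvg_1
import Pool.Agent.H16.TSS.ES.XDet
import Pool.Agent.H16.TSS.ES.XEq
import Pool.Agent.H16.TSS.ES.XNew_1
import Pool.Agent.H16.TSS.ES.XPsi_1
import Pool.Agent.H16.TSS.M10
import Pool.Agent.H16.TSS.M13

/-! The parts of this file: ES.XStep_1, ES.BCore_1. -/

section

/-!
ES-XStep: one sub-block step inside a block `[t0,t1]` with data `d` (EW 4): `mk_SBH`, `sb_exists0`,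
`sb_post`, `det_P`, `psi_exists`, `avg_id`; `Ψb = Ψa + frz tb (intg ta tb φ)`,
`πb = frz tb (intg ta tb π)`.  Bounds of `F'`: `Bd.sub_frz`, `td_FF`, `new_DV'`, `frz_FF_left/right`.
-/

open scoped BoundedContinuousFunction

namespace ES

/-- The step. -/
theorem step {d : Dat} {t0 t1 lam g σ ρ c A : ℝ} (G : Good d t0 t1 lam g σ ρ c A)
    {ta tb ℓr ρ0 m w y e ψ δ : ℝ} {L : ℕ} {k0 : Fin 2 → ℤ} {b : WT} {ζa Ea : Vec} {Ψa : WT}
    (h0 : t0 ≤ ta) (h2 : tb ≤ t1) (hℓ : 0 < ℓr) (hℓ2 : 2 * ℓr < tb - ta)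
    (hm : 0 < m) (hm1 : m ≤ 1) (hρ : ρ ≤ 2) (hρ0 : 3 * m ≤ ρ0) (hρ1 : ρ0 + 2 * m ≤ ρ)
    (hlam : 1 ≤ lam) (hw : 0 < w) (hlw : lam * w ≤ g) (hσ0 : 0 ≤ σ) (hσ : σ ≤ w ^ 2)
    (hc : c ≤ 1 / 100) (hL : lam * (1 + 1 / m) ≤ L) (hk : ∀ a, |k0 a| ≤ 2)
    (bb : Bd 0 (cr (ρ0 + m)) b w) (bl : Lev d.i b) (br : IsR b) (bt : ∀ t₀, ES.frz t₀ b = b)
    (hh : 10 ^ 13 * (1 + 1 / m) ^ 5 * (t1 - t0) * g ≤ 1)
    (St : StA d t0 ρ0 y e ψ δ ta ζa Ea Ψa)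
    (hy : y ≤ 10 ^ 8 * (1 + 1 / m) ^ 2 * (t1 - t0) * g / lam)
    (he0 : 0 ≤ e) (he : e ≤ 10 ^ 8 * (1 + 1 / m) ^ 4 * (t1 - t0) * lam * w ^ 2)
    (hψ : ψ ≤ 10 ^ 6 * (t1 - t0) * w ^ 2) (hδ : δ ≤ 100 * (1 + 1 / m) * (t1 - t0) * g) :
    ∃ (ζ E W a q : Vec) (Ψb πb : WT) (Er : Mat),
      SBH (mkSB d ta tb ℓr L k0 b ζa Ea) lam g σ ρ c A ρ0 m w e ∧
      SB0 (mkSB d ta tb ℓr L k0 b ζa Ea) lam g ρ0 m w ζ E W a q ∧
      SBR (mkSB d ta tb ℓr L k0 b ζa Ea) (10 ^ 7) lam g ρ0 m w e ζ E W a q ∧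
      det2 (Pm (d.tcl ta tb) ζ) = 1 ∧
      (∀ j, Bd 1 ((mkSB d ta tb ℓr L k0 b ζa Ea).r ρ0 m) (ζ j)
        (y + 10 ^ 7 * (1 + 1 / m) ^ 2 * (tb - ta) * g / lam)) ∧
      (∀ j, Bd 1 ((mkSB d ta tb ℓr L k0 b ζa Ea).r ρ0 m) (E j)
        (2 * e + 10 ^ 7 * (1 + 1 / m) ^ 4 * (tb - ta) * lam * w ^ 2)) ∧
      StA d t0 (ρ0 - m) (y + 10 ^ 7 * (1 + 1 / m) ^ 2 * (tb - ta) * g / lam)
        (2 * e + 10 ^ 7 * (1 + 1 / m) ^ 4 * (tb - ta) * lam * w ^ 2)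
        (2 * ψ + 18000 * (tb - ta) * w ^ 2) (δ + 14 * (1 + 1 / m) * (tb - ta) * g) tb
        (fun j => ES.frz tb (ζ j)) (fun j => ES.frz tb (E j)) Ψb ∧
      (∀ k l, Bd 0 (cr (ρ0 - m)) (Er k l) ((tb - ta) * w ^ 2 *
        (10 ^ 11 * (1 + 1 / m) ^ 4 * (t1 - t0) * g + 10 * (1 + 1 / m) ^ 2 * (lam / L) ^ 2))) ∧
      Pnz d.κ πb = πb ∧ Fin0 (ρ0 - m) πb ∧
      ∀ j, mulv (F0 d t0) (fun k => dp d.κ k (Ψb - Ψa)) j + gradT d.κ (adj (F0 d t0)) πb j =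
        dvm d.κ (fun k l => mainS (mkSB d ta tb ℓr L k0 b ζa Ea) (F0 d t0) k l + Er k l) j := by
  have hab : ta < tb := by linarith
  have hab' : tb - ta ≤ t1 - t0 := by linarith
  have hg : 0 < g := lt_of_lt_of_le (by positivity) hlw
  have hK0 : 0 < 1 + 1 / m := by positivity
  have hl0 : 0 < lam := by linarith
  have hHb : 0 < t1 - t0 := by linarith
  have hh' : 10 ^ 8 * (1 + 1 / m) ^ 5 * (tb - ta) * g ≤ 1 := by
    have h1 : (1 + 1 / m) ^ 5 * (tb - ta) * g ≤ (1 + 1 / m) ^ 5 * (t1 - t0) * g := by gcongr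
    have h3 : 0 < (1 + 1 / m) ^ 5 * (t1 - t0) * g := by positivity
    linarith
  have hh12 : 10 ^ 12 * (1 + 1 / m) ^ 5 * (t1 - t0) * g ≤ 1 := by
    have h3 : 0 < (1 + 1 / m) ^ 5 * (t1 - t0) * g := by positivity
    linarith
  have H := mk_SBH G h0 h2 hℓ hℓ2 hm hm1 hρ hρ0 hρ1 hlam hw hlw hσ0 hσ hc hL hk bb bl br bt hh St
    hy he0 he
  set P := mkSB d ta tb ℓr L k0 b ζa Ea with hP
  have rle : ∀ t, P.r ρ0 m t ≤ ρ0 := fun t => rad_le hab hm.le t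
  have ler : ∀ t, ρ0 - m ≤ P.r ρ0 m t := fun t => le_rad hab hm.le t
  have rtb : P.r ρ0 m tb = ρ0 - m := rad_right hab
  obtain ⟨ζ, E, W, a, q, S⟩ := sb_exists0 P H hh'
  have R := sb_post P H hh' S
  have hdet := det_P H hh' S (div_E H S)
  obtain ⟨φ, π, ha, hq, hE, zφ, zπ, lφ, lπ, rφ, rπ, cφ, cπ, bΨ', bφ, bπ, hid⟩ :=
    psi_exists H hh' S R (Ψa := Ψa) (ψa := ψ) St.eΨ St.zΨ St.bΨ St.lΨ St.rΨ St.tΨ
  -- bounds of ζ and E
  have hz2 : ∀ j, Bd 2 (P.r ρ0 m) (ζ j)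
      (y + 10 ^ 7 * (1 + 1 / m) ^ 2 * (tb - ta) * g / lam) := by
    intro j
    have h1 : Bd 2 (P.r ρ0 m) (ζa j) y := (St.zb j).weaken le_rfl rle
    have h3 := h1.add (R.nζ j)
    have e1 : ζa j + (ζ j - P.ζa j) = ζ j := by
      have : P.ζa j = ζa j := rfl
      rw [this]; abel
    rw [e1] at h3
    exact h3
  have hz1 : ∀ j, Bd 1 (P.r ρ0 m) (ζ j)
      (y + 10 ^ 7 * (1 + 1 / m) ^ 2 * (tb - ta) * g / lam) := fun j =>
    (hz2 j).weaken (by norm_num) fun _ => le_rfl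
  have hE1 : ∀ j, Bd 1 (P.r ρ0 m) (E j)
      (2 * e + 10 ^ 7 * (1 + 1 / m) ^ 4 * (tb - ta) * lam * w ^ 2) := fun j => R.nE j
  -- the matrix FF
  have hFd : ∀ k l, Bd 0 (cr (ρ0 - m)) (FF P.d ζ k l - FF (d.frz ta) ζa k l)
      ((tb - ta) * (14 * (1 + 1 / m) * g)) := by
    intro k l
    have h1 := td_FF H S k l
    have h3 : Bd 0 (cr (ρ0 - m)) (D P.d.κ l (nV P.d ζ E k)) (14 * (1 + 1 / m) * g) :=
      (new_DV' H S k l).weaken le_rfl ler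
    have h4 := Bd.sub_frz hab h1 (((new_cl H S k).2.2.2.2.1 l).1) h3 ta
    have h5 : ES.frz ta (FF P.d ζ k l) = FF (d.frz ta) ζa k l := frz_FF_left G H S k l
    rw [h5] at h4
    exact h4
  have hδ0 : ∀ k l, Bd 0 (cr (ρ0 - m)) (FF (d.frz ta) ζa k l - F0 d t0 k l) δ := fun k l =>
    (St.hδ k l).weaken le_rfl fun _ => by simp only [cr]; linarith
  -- averaging
  have hδ0' : 0 ≤ δ := (hδ0 0 0).nonneg
  have hy0 : 0 ≤ y := (St.zb 0).nonneg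
  have hψ0 : 0 ≤ ψ := St.bΨ.nonneg
  obtain ⟨Er, hEr, hid2⟩ := avg_id H S R (Hb := t1 - t0) hab' hh12 bφ bπ bΨ' hid hψ hz1
    (by
      have e1 : lam * (y + 10 ^ 7 * (1 + 1 / m) ^ 2 * (tb - ta) * g / lam) =
          lam * y + 10 ^ 7 * (1 + 1 / m) ^ 2 * (tb - ta) * g := by
        field_simp
      have e2 : lam * y ≤ 10 ^ 8 * (1 + 1 / m) ^ 2 * (t1 - t0) * g := by
        rw [le_div_iff₀ hl0] at hy
        linarith
      have e3 : (1 + 1 / m) ^ 2 * (tb - ta) * g ≤ (1 + 1 / m) ^ 2 * (t1 - t0) * g := by gcongr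
      have e4 : 0 < (1 + 1 / m) ^ 2 * (t1 - t0) * g := by positivity
      rw [e1]
      linarith)
    (ξ0 := fun j => ES.frz t0 (d.ξ j)) (fun j t₀ => frz_frz t₀ t0 (d.ξ j))
    (by
      intro k l
      have h1 : Fm P.d.κ (fun j => ES.frz t0 (d.ξ j)) k l - idm k l =
          ES.frz t0 (grad d.κ d.ξ k l) := by
        have h : Fm P.d.κ (fun j => ES.frz t0 (d.ξ j)) k l =
            idm k l + D d.κ l (ES.frz t0 (d.ξ k)) := rfl
        rw [h, add_sub_cancel_left]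
        unfold grad ES.frz
        rw [tcomp_D]
      rw [h1]
      have h3 : Bd 0 (cr ρ) (ES.frz t0 (grad d.κ d.ξ k l)) c := Bd.frz t0 (G.bF k l)
      exact (h3.weaken le_rfl fun _ => by simp only [cr]; linarith).mono (by linarith))
    (by
      intro k l
      have h1 := (hFd k l).add (hδ0 k l)
      have e1 : FF P.d ζ k l - FF (d.frz ta) ζa k l + (FF (d.frz ta) ζa k l - F0 d t0 k l) =
          FF P.d ζ k l - Fm P.d.κ (fun j => ES.frz t0 (d.ξ j)) k l := by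
        have : Fm P.d.κ (fun j => ES.frz t0 (d.ξ j)) k l = F0 d t0 k l := rfl
        rw [this]; abel
      rw [e1] at h1
      refine h1.mono ?_
      have e3 : (1 + 1 / m) * (tb - ta) * g ≤ (1 + 1 / m) * (t1 - t0) * g := by gcongr
      have e4 : 0 < (1 + 1 / m) * (t1 - t0) * g := by positivity
      linarith)
  have hEf : ∀ j, ES.frz tb (E j) = dp d.κ j (Ψa + ES.frz tb (intg ta tb φ)) := by
    intro j
    have h1 : E j = dp d.κ j (Ψa + intg ta tb φ) := hE j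
    rw [h1, XStep_frz_dp, XStep_frz_add, St.tΨ]
  have hPΨ : Pnz d.κ (Ψa + ES.frz tb (intg ta tb φ)) = Ψa + ES.frz tb (intg ta tb φ) := by
    have h1 : Pnz d.κ φ = φ := zφ
    rw [map_add, St.zΨ, ← XStep_frz_Pnz, ← XStep_intg_Pnz, h1]
  have hΨb : ES.frz tb (Ψa + intg ta tb φ) = Ψa + ES.frz tb (intg ta tb φ) := by
    rw [XStep_frz_add, St.tΨ]
  refine ⟨ζ, E, W, a, q, Ψa + ES.frz tb (intg ta tb φ), ES.frz tb (intg ta tb π), Er, H, S, R,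
    hdet, hz1, hE1, ?_, hEr, ?_, ?_, ?_⟩
  · refine ⟨?_, ?_, ?_, ?_, ?_, ?_, ?_, ?_, ?_, hEf, hPΨ, ?_, ?_, ?_, ?_, ?_⟩
    · intro j
      have h1 := Bd.frz tb (hz2 j)
      rwa [rtb] at h1
    · intro j
      exact (S.lζ j).tcomp _
    · intro j
      exact (S.rζ j).frz
    · intro j t₀
      exact frz_frz t₀ tb (ζ j)
    · have h1 : det2 (Fm d.κ ζ) = 1 := hdet
      rw [XStep_frz_det, h1]
      exact tcomp_one _
    · intro j
      have h1 := Bd.frz tb (hE1 j)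
      rwa [rtb] at h1
    · intro j
      exact (S.lE j).tcomp _
    · intro j
      exact (S.rE j).frz
    · intro j t₀
      exact frz_frz t₀ tb (E j)
    · have h1 := Bd.frz tb bΨ'
      rw [rtb] at h1
      have h3 : ES.frz tb (Ψa + intg P.ta P.tb φ) = Ψa + ES.frz tb (intg ta tb φ) := hΨb
      rwa [h3] at h1
    · exact St.lΨ.add ((lφ.intg ta tb).tcomp _)
    · exact St.rΨ.add (rφ.intg).frz
    · intro t₀
      rw [XStep_frz_add, St.tΨ, frz_frz]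
    · intro k l
      have h1 := Bd.frz tb (hFd k l)
      have h3 : ES.frz tb (FF P.d ζ k l) = FF (d.frz tb) (fun j => ES.frz tb (ζ j)) k l :=
        frz_FF_right G H S k l
      have h4 : ES.frz tb (FF (d.frz ta) ζa k l) = FF (d.frz ta) ζa k l := by
        have h5 : ES.frz ta (FF P.d ζ k l) = FF (d.frz ta) ζa k l := frz_FF_left G H S k l
        rw [← h5, frz_frz]
      rw [XStep_frz_sub, h3, h4] at h1
      have h6 := h1.add (hδ0 k l)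
      have e1 : FF (d.frz tb) (fun j => ES.frz tb (ζ j)) k l - FF (d.frz ta) ζa k l +
          (FF (d.frz ta) ζa k l - F0 d t0 k l) =
          FF (d.frz tb) (fun j => ES.frz tb (ζ j)) k l - F0 d t0 k l := by abel
      rw [e1] at h6
      exact h6.mono (le_of_eq (by ring))
  · have h1 : Pnz d.κ π = π := zπ
    rw [← XStep_frz_Pnz, ← XStep_intg_Pnz, h1]
  · have h1 : Bd 0 (cr (ρ0 - m)) π (256 * (1 + 1 / m) * g * ψ + 10 ^ 4 * w ^ 2) :=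
      bπ.weaken le_rfl ler
    have h3 := Bd.frz tb (Bd.intg hab.le (fun _ _ _ => le_rfl) h1)
    exact ⟨_, h3⟩
  · intro j
    have h1 := hid2 j
    rw [add_sub_cancel_left]
    exact h1

end ES

end

section

/-!
ES-BCore: the four steps of a pass and the potential at the end (EW 4, Lemma 4.3, Prop. 4.4).
-/

open scoped BoundedContinuousFunction

namespace ES

/-- One sub-block. -/
private theorem BCore_one {d : Dat} {t0 t1 lam g σ ρ c A m w ℓr : ℝ} {L : ℕ}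
    (G : Good d t0 t1 lam g σ ρ c A)
    (hm : 0 < m) (hm1 : m ≤ 1) (hρ : ρ ≤ 2) (hρ0 : 10 * m ≤ ρ)
    (hlam : 1 ≤ lam) (hw : 0 < w) (hlw : lam * w ≤ g) (hσ0 : 0 ≤ σ) (hσ : 1600 * σ ≤ w ^ 2)
    (hc : c ≤ 1 / 100) (hL : lam * (1 + 1 / m) ≤ L)
    (hh : 10 ^ 13 * (1 + 1 / m) ^ 5 * (t1 - t0) * g ≤ 1)
    (hℓ : 0 < ℓr) (hℓ2 : 24 * ℓr ≤ t1 - t0) {j : ℕ} (hj : j < 4) {b : WT}
    (bb : Bd 0 (cr ρ) b w) (bl : Lev d.i b) (br : IsR b) (bt : ∀ t₀, ES.frz t₀ b = b)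
    {ζa Ea : Vec} {Ψa : WT} (St : BCore_ST d t0 t1 lam g ρ m w j ζa Ea Ψa) :
    ∃ (ζ E W a q : Vec) (Ψb πb : WT) (Er : Mat),
      (∃ η, SBH (mkSB d (tau t0 t1 j) (tau t0 t1 (j + 1)) ℓr L (kd j) b ζa Ea)
        lam g σ ρ c A (ρ - ((j : ℝ) + 2) * m) m w η ∧
      SB0 (mkSB d (tau t0 t1 j) (tau t0 t1 (j + 1)) ℓr L (kd j) b ζa Ea)
        lam g (ρ - ((j : ℝ) + 2) * m) m w ζ E W a q ∧
      SBR (mkSB d (tau t0 t1 j) (tau t0 t1 (j + 1)) ℓr L (kd j) b ζa Ea)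
        (10 ^ 7) lam g (ρ - ((j : ℝ) + 2) * m) m w η ζ E W a q) ∧
      det2 (Pm (d.tcl (tau t0 t1 j) (tau t0 t1 (j + 1))) ζ) = 1 ∧
      (∀ k, Bd 1 ((mkSB d (tau t0 t1 j) (tau t0 t1 (j + 1)) ℓr L (kd j) b ζa Ea).r
        (ρ - ((j : ℝ) + 2) * m) m) (ζ k) (10 ^ 8 * (1 + 1 / m) ^ 2 * (t1 - t0) * g / lam)) ∧
      (∀ k, Bd 1 ((mkSB d (tau t0 t1 j) (tau t0 t1 (j + 1)) ℓr L (kd j) b ζa Ea).r
        (ρ - ((j : ℝ) + 2) * m) m) (E k) (10 ^ 8 * (1 + 1 / m) ^ 4 * (t1 - t0) * lam * w ^ 2)) ∧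
      BCore_ST d t0 t1 lam g ρ m w (j + 1) (fun k => ES.frz (tau t0 t1 (j + 1)) (ζ k))
        (fun k => ES.frz (tau t0 t1 (j + 1)) (E k)) Ψb ∧
      (∀ k l, Bd 0 (cr (ρ - 6 * m)) (Er k l) ((tau t0 t1 (j + 1) - tau t0 t1 j) * (w ^ 2 *
        (10 ^ 11 * (1 + 1 / m) ^ 4 * (t1 - t0) * g + 10 * (1 + 1 / m) ^ 2 * (lam / L) ^ 2)))) ∧
      Pnz d.κ πb = πb ∧ Fin0 (ρ - 6 * m) πb ∧
      ∀ i, mulv (F0 d t0) (fun k => dp d.κ k (Ψb - Ψa)) i + gradT d.κ (adj (F0 d t0)) πb i =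
        dvm d.κ (fun k l => mainS (mkSB d (tau t0 t1 j) (tau t0 t1 (j + 1)) ℓr L (kd j) b ζa Ea)
          (F0 d t0) k l + Er k l) i := by
  obtain ⟨f1, f2, f3, f4⟩ := BCore_tau G.ht hj
  have hT : 0 < t1 - t0 := by linarith [G.ht]
  have hj3 : (j : ℝ) ≤ 3 := by exact_mod_cast Nat.lt_succ_iff.1 hj
  have hj0 : (0 : ℝ) ≤ j := Nat.cast_nonneg j
  have hjm : (j : ℝ) * m ≤ 3 * m := mul_le_mul_of_nonneg_right hj3 hm.le
  have hjm0 : 0 ≤ (j : ℝ) * m := by positivity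
  have hg : 0 ≤ g := le_trans (by positivity) hlw
  have h2j : (2 : ℝ) ^ j ≤ 8 := by
    calc (2 : ℝ) ^ j ≤ 2 ^ 3 := pow_le_pow_right₀ (by norm_num) (Nat.lt_succ_iff.1 hj)
      _ = 8 := by norm_num
  have h2j1 : (1 : ℝ) ≤ 2 ^ j := one_le_pow₀ (by norm_num)
  have hs0 : 0 ≤ tau t0 t1 j - t0 := by linarith
  have hs1 : 0 ≤ tau t0 t1 (j + 1) - tau t0 t1 j := by linarith
  have hs2 : tau t0 t1 (j + 1) - t0 ≤ t1 - t0 := by linarith
  have hs3 : 0 ≤ tau t0 t1 (j + 1) - t0 := by linarith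
  have h4 : (2 : ℝ) ^ j * (tau t0 t1 j - t0) ≤ 4 * (t1 - t0) := by
    calc (2 : ℝ) ^ j * (tau t0 t1 j - t0) ≤ 8 * ((t1 - t0) / 2) :=
          mul_le_mul h2j f2 hs0 (by norm_num)
      _ = 4 * (t1 - t0) := by ring
  have hK : 0 ≤ 1 + 1 / m := by positivity
  have hlam0 : 0 < lam := by linarith
  -- bounds
  have hy : 10 ^ 7 * (1 + 1 / m) ^ 2 * (tau t0 t1 j - t0) * g / lam ≤
      10 ^ 8 * (1 + 1 / m) ^ 2 * (t1 - t0) * g / lam := by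
    apply div_le_div_of_nonneg_right _ hlam0.le
    apply mul_le_mul_of_nonneg_right _ hg
    have h5 : 0 ≤ (1 + 1 / m) ^ 2 := by positivity
    calc 10 ^ 7 * (1 + 1 / m) ^ 2 * (tau t0 t1 j - t0)
        = (1 + 1 / m) ^ 2 * (10 ^ 7 * (tau t0 t1 j - t0)) := by ring
      _ ≤ (1 + 1 / m) ^ 2 * (10 ^ 8 * (t1 - t0)) :=
          mul_le_mul_of_nonneg_left (by linarith) h5
      _ = _ := by ring
  have hy' : 10 ^ 7 * (1 + 1 / m) ^ 2 * (tau t0 t1 j - t0) * g / lam +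
      10 ^ 7 * (1 + 1 / m) ^ 2 * (tau t0 t1 (j + 1) - tau t0 t1 j) * g / lam ≤
      10 ^ 8 * (1 + 1 / m) ^ 2 * (t1 - t0) * g / lam := by
    rw [← add_div]
    apply div_le_div_of_nonneg_right _ hlam0.le
    rw [← add_mul]
    apply mul_le_mul_of_nonneg_right _ hg
    have h5 : 0 ≤ (1 + 1 / m) ^ 2 := by positivity
    calc 10 ^ 7 * (1 + 1 / m) ^ 2 * (tau t0 t1 j - t0) +
          10 ^ 7 * (1 + 1 / m) ^ 2 * (tau t0 t1 (j + 1) - tau t0 t1 j)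
        = (1 + 1 / m) ^ 2 * (10 ^ 7 * (tau t0 t1 (j + 1) - t0)) := by ring
      _ ≤ (1 + 1 / m) ^ 2 * (10 ^ 8 * (t1 - t0)) :=
          mul_le_mul_of_nonneg_left (by linarith) h5
      _ = _ := by ring
  have hZ : 0 ≤ (1 + 1 / m) ^ 4 * lam * w ^ 2 := by positivity
  have he : 2 ^ j * (10 ^ 7 * (1 + 1 / m) ^ 4 * (tau t0 t1 j - t0) * lam * w ^ 2) ≤
      10 ^ 8 * (1 + 1 / m) ^ 4 * (t1 - t0) * lam * w ^ 2 := by
    calc 2 ^ j * (10 ^ 7 * (1 + 1 / m) ^ 4 * (tau t0 t1 j - t0) * lam * w ^ 2)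
        = ((1 + 1 / m) ^ 4 * lam * w ^ 2) * (10 ^ 7 * (2 ^ j * (tau t0 t1 j - t0))) := by ring
      _ ≤ ((1 + 1 / m) ^ 4 * lam * w ^ 2) * (10 ^ 8 * (t1 - t0)) :=
          mul_le_mul_of_nonneg_left (by linarith) hZ
      _ = _ := by ring
  have he' : 2 * (2 ^ j * (10 ^ 7 * (1 + 1 / m) ^ 4 * (tau t0 t1 j - t0) * lam * w ^ 2)) +
      10 ^ 7 * (1 + 1 / m) ^ 4 * (tau t0 t1 (j + 1) - tau t0 t1 j) * lam * w ^ 2 ≤
      10 ^ 8 * (1 + 1 / m) ^ 4 * (t1 - t0) * lam * w ^ 2 := by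
    calc 2 * (2 ^ j * (10 ^ 7 * (1 + 1 / m) ^ 4 * (tau t0 t1 j - t0) * lam * w ^ 2)) +
          10 ^ 7 * (1 + 1 / m) ^ 4 * (tau t0 t1 (j + 1) - tau t0 t1 j) * lam * w ^ 2
        = ((1 + 1 / m) ^ 4 * lam * w ^ 2) * (10 ^ 7 * (2 * (2 ^ j * (tau t0 t1 j - t0)) +
            (tau t0 t1 (j + 1) - tau t0 t1 j))) := by ring
      _ ≤ ((1 + 1 / m) ^ 4 * lam * w ^ 2) * (10 ^ 8 * (t1 - t0)) :=
          mul_le_mul_of_nonneg_left (by linarith) hZ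
      _ = _ := by ring
  have hψ : 2 ^ j * (18000 * (tau t0 t1 j - t0) * w ^ 2) ≤ 10 ^ 6 * (t1 - t0) * w ^ 2 := by
    calc 2 ^ j * (18000 * (tau t0 t1 j - t0) * w ^ 2)
        = (18000 * (2 ^ j * (tau t0 t1 j - t0))) * w ^ 2 := by ring
      _ ≤ (10 ^ 6 * (t1 - t0)) * w ^ 2 :=
          mul_le_mul_of_nonneg_right (by linarith) (by positivity)
      _ = _ := by ring
  have hδ : 14 * (1 + 1 / m) * (tau t0 t1 j - t0) * g ≤ 100 * (1 + 1 / m) * (t1 - t0) * g := by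
    apply mul_le_mul_of_nonneg_right _ hg
    calc 14 * (1 + 1 / m) * (tau t0 t1 j - t0) = (1 + 1 / m) * (14 * (tau t0 t1 j - t0)) := by ring
      _ ≤ (1 + 1 / m) * (100 * (t1 - t0)) := mul_le_mul_of_nonneg_left (by linarith) hK
      _ = _ := by ring
  have hw2 : 0 < w ^ 2 := by positivity
  obtain ⟨ζ, E, W, a, q, Ψb, πb, Er, r1, r2, r3, r4, r5, r6, r7, r8, r9, r10, r11⟩ :=
    step G (ta := tau t0 t1 j) (tb := tau t0 t1 (j + 1)) (ℓr := ℓr)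
      (ρ0 := ρ - ((j : ℝ) + 2) * m) (m := m) (w := w) (L := L) (k0 := kd j) (b := b)
      f1 f3 hℓ (by linarith) hm hm1 hρ (by linarith) (by linarith) hlam hw hlw hσ0
      (by linarith) hc hL (BCore_kd j) (bb.weaken (le_refl 0) (fun _ => by
        show ρ - ((j : ℝ) + 2) * m + m ≤ ρ
        linarith)) bl br bt hh St hy (by positivity) he hψ hδ
  have hrad : ρ - ((j : ℝ) + 2) * m - m = ρ - (((j + 1 : ℕ) : ℝ) + 2) * m := by
    push_cast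
    ring
  have hrad6 : ρ - 6 * m ≤ ρ - ((j : ℝ) + 2) * m - m := by linarith
  refine ⟨ζ, E, W, a, q, Ψb, πb, Er, ⟨_, r1, r2, r3⟩, r4, fun k => (r5 k).mono hy',
    fun k => (r6 k).mono he', ?_, fun k l => ?_, r9, ?_, r11⟩
  · unfold BCore_ST
    rw [hrad] at r7
    refine BCore_mono r7 (le_of_eq ?_) ?_ ?_ (le_of_eq ?_)
    · ring
    · have h5 : 0 ≤ ((1 + 1 / m) ^ 4 * lam * w ^ 2) *
          (10 ^ 7 * ((2 * 2 ^ j - 1) * (tau t0 t1 (j + 1) - tau t0 t1 j))) :=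
        mul_nonneg hZ (mul_nonneg (by norm_num) (mul_nonneg (by linarith) hs1))
      have h6 : 2 ^ (j + 1) * (10 ^ 7 * (1 + 1 / m) ^ 4 * (tau t0 t1 (j + 1) - t0) * lam * w ^ 2) -
          (2 * (2 ^ j * (10 ^ 7 * (1 + 1 / m) ^ 4 * (tau t0 t1 j - t0) * lam * w ^ 2)) +
          10 ^ 7 * (1 + 1 / m) ^ 4 * (tau t0 t1 (j + 1) - tau t0 t1 j) * lam * w ^ 2) =
          ((1 + 1 / m) ^ 4 * lam * w ^ 2) *
          (10 ^ 7 * ((2 * 2 ^ j - 1) * (tau t0 t1 (j + 1) - tau t0 t1 j))) := by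
        rw [pow_succ]
        ring
      linarith
    · have h5 : 0 ≤ w ^ 2 *
          (18000 * ((2 * 2 ^ j - 1) * (tau t0 t1 (j + 1) - tau t0 t1 j))) :=
        mul_nonneg hw2.le (mul_nonneg (by norm_num) (mul_nonneg (by linarith) hs1))
      have h6 : 2 ^ (j + 1) * (18000 * (tau t0 t1 (j + 1) - t0) * w ^ 2) -
          (2 * (2 ^ j * (18000 * (tau t0 t1 j - t0) * w ^ 2)) +
          18000 * (tau t0 t1 (j + 1) - tau t0 t1 j) * w ^ 2) =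
          w ^ 2 * (18000 * ((2 * 2 ^ j - 1) * (tau t0 t1 (j + 1) - tau t0 t1 j))) := by
        rw [pow_succ]
        ring
      linarith
    · ring
  · refine ((r8 k l).weaken (le_refl 0) (fun _ => hrad6)).mono (le_of_eq ?_)
    ring
  · obtain ⟨c', hc'⟩ := r10
    exact ⟨c', hc'.weaken (le_refl 0) (fun _ => hrad6)⟩

/-- The integral of `χ²`. -/
private theorem BCore_om (d : Dat) {ta tb ℓr : ℝ} (L : ℕ) (k0 : Fin 2 → ℤ) (b : WT)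
    (ζa Ea : Vec) (hℓ : 0 < ℓr) (hℓ2 : 2 * ℓr < tb - ta) :
    om (mkSB d ta tb ℓr L k0 b ζa Ea) = (tb - ta) - 4 * ℓr / 3 := by
  have h := om_eq (mkSB d ta tb ℓr L k0 b ζa Ea)
    (show ta < ta + ℓr by linarith) (show ta + ℓr < tb - ℓr by linarith)
    (show tb - ℓr < tb by linarith)
  rw [h]
  show (tb - ℓr - (ta + ℓr)) + (ta + ℓr - ta) / 3 + (tb - (tb - ℓr)) / 3 = _
  ring

private theorem BCore_kd0 : kd 0 = kdir 0 := by decide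
private theorem BCore_kd1 : kd 1 = kdir 1 := by decide
private theorem BCore_kd2 : kd 2 = kdir 2 := by decide

/-- Existence.  `exists_amp` with `ω = om` (the same for `j = 0,1,2`: length `(t1-t0)/6`, ramps
`ℓr ≤ (t1-t0)/24`), `Ri = frz t1 (intg t0 t1 R)`; then `step` for `j = 0,1,2` (amplitudes `b j`) and
`j = 3` (`b = 0`, time length `(t1-t0)/2`); the radii `ρ - (j+2) m`.  Sum of the four identities:
the integrals of `R` over the sub-blocks add up to `Ri`, the wave parts cancel against `Ri` up to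
`Hb w²/16 • M0ᵀ`, whose divergence vanishes (`piola`); then `pot_bd` with `ξ0 = frz t0 ξ`. -/
theorem pass_exists {d : Dat} {t0 t1 lam g σ ρ c A m w ℓr : ℝ} {L : ℕ}
    (G : Good d t0 t1 lam g σ ρ c A)
    (hm : 0 < m) (hm1 : m ≤ 1) (hρ : ρ ≤ 2) (hρ0 : 10 * m ≤ ρ)
    (hlam : 1 ≤ lam) (hw : 0 < w) (hlw : lam * w ≤ g) (hσ0 : 0 ≤ σ) (hσ : 1600 * σ ≤ w ^ 2)
    (hc : c ≤ 1 / 100) (hL : lam * (1 + 1 / m) ≤ L)
    (hh : 10 ^ 13 * (1 + 1 / m) ^ 5 * (t1 - t0) * g ≤ 1)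
    (hℓ : 0 < ℓr) (hℓ2 : 24 * ℓr ≤ t1 - t0) :
    ∃ (b : ℕ → WT) (ζ E W a q : ℕ → Vec) (Ψ1 : WT),
      Pass d t0 t1 lam g σ ρ c A m w ℓr L b ζ E W a q Ψ1 := by
  have hT : 0 < t1 - t0 := by linarith [G.ht]
  have hρpos : 0 < ρ := by linarith
  have hw2 : 0 < w ^ 2 := by positivity
  -- the frozen deformation
  set ξ0 : Vec := fun j => frz t0 (d.ξ j) with hξ0
  have tξ : ∀ k t₀, frz t₀ (ξ0 k) = ξ0 k := fun k t₀ => frz_frz t₀ t0 (d.ξ k)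
  have hFb : ∀ k l, Bd 0 (cr ρ) (Fm d.κ ξ0 k l - idm k l) (1 / 100) := by
    intro k l
    have h1 : Fm d.κ ξ0 k l - idm k l = frz t0 (grad d.κ d.ξ k l) := by
      show idm k l + D d.κ l (frz t0 (d.ξ k)) - idm k l = frz t0 (D d.κ l (d.ξ k))
      have h2 : frz t0 (D d.κ l (d.ξ k)) = D d.κ l (frz t0 (d.ξ k)) := tcomp_D _ _ _ _
      rw [h2]
      ring
    rw [h1]
    exact ((G.bF k l).frz t0).mono hc
  have hfF : ∀ k l, frz t0 (d.F k l) = Fm d.κ ξ0 k l := by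
    intro k l
    have h1 : frz t0 (d.F k l) = frz t0 (idm k l) + frz t0 (D d.κ l (d.ξ k)) := tcomp_add _ _ _
    have h2 : frz t0 (D d.κ l (d.ξ k)) = D d.κ l (frz t0 (d.ξ k)) := tcomp_D _ _ _ _
    rw [h1, h2, BCore_frz_idm]
    rfl
  have hdet : det2 (Fm d.κ ξ0) = 1 := by
    have h1 : frz t0 (det2 d.F) = frz t0 (d.F 0 0) * frz t0 (d.F 1 1) -
        frz t0 (d.F 0 1) * frz t0 (d.F 1 0) := by
      show tcomp _ (d.F 0 0 * d.F 1 1 - d.F 0 1 * d.F 1 0) = _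
      rw [tcomp_sub, tcomp_mul, tcomp_mul]
      rfl
    rw [G.det, hfF, hfF, hfF, hfF] at h1
    have h2 : frz t0 (1 : WT) = 1 := tcomp_one _
    rw [h2] at h1
    exact h1.symm
  have lF : ∀ k, Lev d.i (ξ0 k) := fun k => (G.levξ k).tcomp _
  have rF : ∀ k, IsR (ξ0 k) := fun k => (G.rξ k).frz
  -- the integral of the stress
  set Ri : Mat := fun k l => frz t1 (intg t0 t1 (d.R k l)) with hRi
  have hR : ∀ k l, Bd 0 (cr ρ) (Ri k l) ((t1 - t0) * σ) := fun k l =>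
    (Bd.intg G.ht.le (fun _ _ _ => le_refl _) (G.bR k l)).frz t1
  have sR : ∀ k l, Ri k l = Ri l k := by
    intro k l
    simp only [hRi]
    rw [G.symm k l]
  have lR : ∀ k l, Lev d.i (Ri k l) := fun k l => ((G.levR k l).intg t0 t1).tcomp _
  have rR : ∀ k l, IsR (Ri k l) := fun k l => (G.rR k l).intg.frz
  have tR : ∀ k l t₀, frz t₀ (Ri k l) = Ri k l := fun k l t₀ => frz_frz t₀ t1 _
  set ω : ℝ := (t1 - t0) / 6 - 4 * ℓr / 3 with hω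
  obtain ⟨bf, hb1, hb2, hb3, hb4, hb5⟩ := exists_amp (κ := d.κ) (ρ := ρ) (w := w) (σ := σ)
    (ω := ω) (Hb := t1 - t0) hρpos hw hσ0 hσ (by rw [hω]; linarith) (by rw [hω]; linarith)
    (by rw [hω]; linarith) (i := d.i) (ξ0 := ξ0) hFb hdet lF rF tξ (Ri := Ri) hR sR lR rR tR
  -- the four steps
  have St0 : BCore_ST d t0 t1 lam g ρ m w 0 0 0 0 := by
    have h1 := StA.start G (ρ0 := ρ - (((0 : ℕ) : ℝ) + 2) * m) (by
      push_cast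
      linarith)
    unfold BCore_ST
    rw [BCore_tau0, sub_self]
    simp only [mul_zero, zero_mul, zero_div]
    exact h1
  obtain ⟨ζ0, E0, W0, a0, q0, Ψ1, π0, Er0, H0, P0, y0, e0, S1, er0, z0, f0, i0⟩ :=
    BCore_one G hm hm1 hρ hρ0 hlam hw hlw hσ0 hσ hc hL hh hℓ hℓ2 (j := 0) (by norm_num)
      (hb1 0) (hb2 0) (hb3 0) (hb4 0) St0
  obtain ⟨ζ1, E1, W1, a1, q1, Ψ2, π1, Er1, H1, P1, y1, e1, S2, er1, z1, f1, i1⟩ :=
    BCore_one G hm hm1 hρ hρ0 hlam hw hlw hσ0 hσ hc hL hh hℓ hℓ2 (j := 1) (by norm_num)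
      (hb1 1) (hb2 1) (hb3 1) (hb4 1) S1
  obtain ⟨ζ2, E2, W2, a2, q2, Ψ3, π2, Er2, H2, P2, y2, e2, S3, er2, z2, f2, i2⟩ :=
    BCore_one G hm hm1 hρ hρ0 hlam hw hlw hσ0 hσ hc hL hh hℓ hℓ2 (j := 2) (by norm_num)
      (hb1 2) (hb2 2) (hb3 2) (hb4 2) S2
  obtain ⟨ζ3, E3, W3, a3, q3, Ψ4, π3, Er3, H3, P3, y3, e3, S4, er3, z3, f3, i3⟩ :=
    BCore_one G hm hm1 hρ hρ0 hlam hw hlw hσ0 hσ hc hL hh hℓ hℓ2 (j := 3) (by norm_num)
      (b := 0) (Bd.zero 0 (cr ρ) hw.le) (Lev.zero _) IsR.zero (fun t₀ => tcomp_zero _) S3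
  -- the potential at the end
  set cc : ℂ := (((t1 - t0) * (w ^ 2 / 16) : ℝ) : ℂ) with hcc
  have hlen : ∀ {j : ℕ}, j < 3 → tau t0 t1 (j + 1) - tau t0 t1 j = (t1 - t0) / 6 := by
    intro j hj
    interval_cases j
    · show tau t0 t1 1 - tau t0 t1 0 = _
      rw [BCore_tau0, BCore_tau1]
      ring
    · show tau t0 t1 2 - tau t0 t1 1 = _
      rw [BCore_tau1, BCore_tau2]
      ring
    · show tau t0 t1 3 - tau t0 t1 2 = _
      rw [BCore_tau2, BCore_tau3]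
      ring
  have hom : ∀ {j : ℕ}, j < 3 → ∀ (k0 : Fin 2 → ℤ) (b : WT) (ζa Ea : Vec),
      om (mkSB d (tau t0 t1 j) (tau t0 t1 (j + 1)) ℓr L k0 b ζa Ea) = ω := by
    intro j hj k0 b ζa Ea
    have h1 := hlen hj
    rw [BCore_om d L k0 b ζa Ea hℓ (by linarith), h1, hω]
  have hM : ∀ k l,
      mainS (mkSB d (tau t0 t1 0) (tau t0 t1 (0 + 1)) ℓr L (kd 0) (bf 0) 0 0) (F0 d t0) k l +
      mainS (mkSB d (tau t0 t1 1) (tau t0 t1 (1 + 1)) ℓr L (kd 1) (bf 1)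
        (fun k => frz (tau t0 t1 (0 + 1)) (ζ0 k)) (fun k => frz (tau t0 t1 (0 + 1)) (E0 k)))
        (F0 d t0) k l +
      mainS (mkSB d (tau t0 t1 2) (tau t0 t1 (2 + 1)) ℓr L (kd 2) (bf 2)
        (fun k => frz (tau t0 t1 (1 + 1)) (ζ1 k)) (fun k => frz (tau t0 t1 (1 + 1)) (E1 k)))
        (F0 d t0) k l +
      mainS (mkSB d (tau t0 t1 3) (tau t0 t1 (3 + 1)) ℓr L (kd 3) 0
        (fun k => frz (tau t0 t1 (2 + 1)) (ζ2 k)) (fun k => frz (tau t0 t1 (2 + 1)) (E2 k)))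
        (F0 d t0) k l = -(cc • adj (Fm d.κ ξ0) l k) := by
    intro k l
    have h5 := hb5 k l
    rw [Fin.sum_univ_three] at h5
    have hadd : ∀ e, Ri k e =
        frz (tau t0 t1 1) (intg (tau t0 t1 0) (tau t0 t1 1)
          (tcl (tau t0 t1 0) (tau t0 t1 1) (d.R k e))) +
        frz (tau t0 t1 2) (intg (tau t0 t1 1) (tau t0 t1 2)
          (tcl (tau t0 t1 1) (tau t0 t1 2) (d.R k e))) +
        frz (tau t0 t1 3) (intg (tau t0 t1 2) (tau t0 t1 3)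
          (tcl (tau t0 t1 2) (tau t0 t1 3) (d.R k e))) +
        frz (tau t0 t1 4) (intg (tau t0 t1 3) (tau t0 t1 4)
          (tcl (tau t0 t1 3) (tau t0 t1 4) (d.R k e))) := fun e =>
      (BCore_addint G.ht (d.R k e)).symm
    have hmul : mulT Ri (adj (Fm d.κ ξ0)) k l =
        Ri k 0 * adj (Fm d.κ ξ0) l 0 + Ri k 1 * adj (Fm d.κ ξ0) l 1 := by
      show ∑ e, Ri k e * adj (Fm d.κ ξ0) l e = _
      rw [Fin.sum_univ_two]
    rw [hmul, hadd 0, hadd 1] at h5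
    have m0 : mainS (mkSB d (tau t0 t1 0) (tau t0 t1 (0 + 1)) ℓr L (kd 0) (bf 0) 0 0)
        (F0 d t0) k l =
        -(((ω : ℂ) * kp (kdir 0) l) • (bf 0 * bf 0 * ∑ e, kp (kdir 0) e • Fm d.κ ξ0 k e)) -
        (frz (tau t0 t1 1) (intg (tau t0 t1 0) (tau t0 t1 1)
          (tcl (tau t0 t1 0) (tau t0 t1 1) (d.R k 0))) * adj (Fm d.κ ξ0) l 0 +
        frz (tau t0 t1 1) (intg (tau t0 t1 0) (tau t0 t1 1)
          (tcl (tau t0 t1 0) (tau t0 t1 1) (d.R k 1))) * adj (Fm d.κ ξ0) l 1) := by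
      unfold mainS mulT
      rw [hom (show 0 < 3 by norm_num), Fin.sum_univ_two (fun e => _ * _), ← BCore_kd0]
      rfl
    have m1 : mainS (mkSB d (tau t0 t1 1) (tau t0 t1 (1 + 1)) ℓr L (kd 1) (bf 1)
        (fun k => frz (tau t0 t1 (0 + 1)) (ζ0 k)) (fun k => frz (tau t0 t1 (0 + 1)) (E0 k)))
        (F0 d t0) k l =
        -(((ω : ℂ) * kp (kdir 1) l) • (bf 1 * bf 1 * ∑ e, kp (kdir 1) e • Fm d.κ ξ0 k e)) -
        (frz (tau t0 t1 2) (intg (tau t0 t1 1) (tau t0 t1 2)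
          (tcl (tau t0 t1 1) (tau t0 t1 2) (d.R k 0))) * adj (Fm d.κ ξ0) l 0 +
        frz (tau t0 t1 2) (intg (tau t0 t1 1) (tau t0 t1 2)
          (tcl (tau t0 t1 1) (tau t0 t1 2) (d.R k 1))) * adj (Fm d.κ ξ0) l 1) := by
      unfold mainS mulT
      rw [hom (show 1 < 3 by norm_num), Fin.sum_univ_two (fun e => _ * _), ← BCore_kd1]
      rfl
    have m2 : mainS (mkSB d (tau t0 t1 2) (tau t0 t1 (2 + 1)) ℓr L (kd 2) (bf 2)
        (fun k => frz (tau t0 t1 (1 + 1)) (ζ1 k)) (fun k => frz (tau t0 t1 (1 + 1)) (E1 k)))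
        (F0 d t0) k l =
        -(((ω : ℂ) * kp (kdir 2) l) • (bf 2 * bf 2 * ∑ e, kp (kdir 2) e • Fm d.κ ξ0 k e)) -
        (frz (tau t0 t1 3) (intg (tau t0 t1 2) (tau t0 t1 3)
          (tcl (tau t0 t1 2) (tau t0 t1 3) (d.R k 0))) * adj (Fm d.κ ξ0) l 0 +
        frz (tau t0 t1 3) (intg (tau t0 t1 2) (tau t0 t1 3)
          (tcl (tau t0 t1 2) (tau t0 t1 3) (d.R k 1))) * adj (Fm d.κ ξ0) l 1) := by
      unfold mainS mulT
      rw [hom (show 2 < 3 by norm_num), Fin.sum_univ_two (fun e => _ * _), ← BCore_kd2]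
      rfl
    have m3 : mainS (mkSB d (tau t0 t1 3) (tau t0 t1 (3 + 1)) ℓr L (kd 3) 0
        (fun k => frz (tau t0 t1 (2 + 1)) (ζ2 k)) (fun k => frz (tau t0 t1 (2 + 1)) (E2 k)))
        (F0 d t0) k l =
        -(frz (tau t0 t1 4) (intg (tau t0 t1 3) (tau t0 t1 4)
          (tcl (tau t0 t1 3) (tau t0 t1 4) (d.R k 0))) * adj (Fm d.κ ξ0) l 0 +
        frz (tau t0 t1 4) (intg (tau t0 t1 3) (tau t0 t1 4)
          (tcl (tau t0 t1 3) (tau t0 t1 4) (d.R k 1))) * adj (Fm d.κ ξ0) l 1) := by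
      unfold mainS mulT
      rw [Fin.sum_univ_two (fun e => _ * _)]
      show -(_ • ((0 : WT) * 0 * _)) - _ = _
      rw [zero_mul, zero_mul, smul_zero, neg_zero, zero_sub]
      rfl
    rw [m0, m1, m2, m3]
    linear_combination -h5
  -- the sum of the identities
  have hsum : ∀ i, mulv (Fm d.κ ξ0) (fun k => dp d.κ k Ψ4) i +
      gradT d.κ (adj (Fm d.κ ξ0)) (π0 + π1 + π2 + π3) i =
      dvm d.κ (fun k l => Er0 k l + Er1 k l + Er2 k l + Er3 k l) i := by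
    intro i
    have j0 := i0 i
    have j1 := i1 i
    have j2 := i2 i
    have j3 := i3 i
    have hp := piola d.κ ξ0 i
    have hF0 : F0 d t0 = Fm d.κ ξ0 := rfl
    have hm0 := congrArg (D d.κ 0) (hM i 0)
    have hm1' := congrArg (D d.κ 1) (hM i 1)
    rw [Fin.sum_univ_two] at hp
    simp only [map_add, map_neg, map_smul] at hm0 hm1'
    have hs : cc • D d.κ 0 (adj (Fm d.κ ξ0) 0 i) + cc • D d.κ 1 (adj (Fm d.κ ξ0) 1 i) = 0 := by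
      rw [← smul_add, hp, smul_zero]
    simp only [mulv, gradT, mulvT, dvm, Fin.sum_univ_two, map_add, map_sub, map_zero] at j0 j1 j2 j3 ⊢
    rw [hF0] at j0 j1 j2 j3 hm0 hm1'
    linear_combination j0 + j1 + j2 + j3 + hm0 + hm1' - hs
  have hS4 : StA d t0 (ρ - (((3 + 1 : ℕ) : ℝ) + 2) * m) _ _ _ _ (tau t0 t1 (3 + 1)) _ _ Ψ4 := S4
  have hr6 : ρ - (((3 + 1 : ℕ) : ℝ) + 2) * m = ρ - 6 * m := by
    push_cast
    ring
  rw [hr6] at hS4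
  have hr0 : ∀ _t : ℝ, (0 : ℝ) ≤ ρ - 6 * m := fun _ => by linarith
  obtain ⟨c0, g0⟩ := f0
  obtain ⟨c1, g1⟩ := f1
  obtain ⟨c2, g2⟩ := f2
  obtain ⟨c3, g3⟩ := f3
  have hpot := pot_bd d.κ ξ0 (r := cr (ρ - 6 * m)) hr0
    (fun k l => ((hFb k l).weaken (le_refl 0) (fun _ => by
      show ρ - 6 * m ≤ ρ
      linarith)).mono (by norm_num)) (φ := Ψ4) (π := π0 + π1 + π2 + π3) hS4.zΨ
    (by rw [map_add, map_add, map_add, z0, z1, z2, z3])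
    (hS4.bΨ.mono (le_max_left _ (c0 + c1 + c2 + c3)))
    ((((g0.add g1).add g2).add g3).mono (le_max_right _ (c0 + c1 + c2 + c3)))
    (S := fun k l => Er0 k l + Er1 k l + Er2 k l + Er3 k l)
    (fun k l => (((er0 k l).add (er1 k l)).add (er2 k l)).add (er3 k l)) hsum
  refine ⟨BCore_sel (bf 0) (bf 1) (bf 2) 0, BCore_sel ζ0 ζ1 ζ2 ζ3, BCore_sel E0 E1 E2 E3,
    BCore_sel W0 W1 W2 W3, BCore_sel a0 a1 a2 a3, BCore_sel q0 q1 q2 q3, Ψ4, ?_⟩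
  refine ⟨rfl, ?_, ?_, ?_, ?_, ?_, ?_, hS4.lΨ, hS4.rΨ, hS4.tΨ⟩
  · intro j hj
    interval_cases j
    · exact H0
    · exact H1
    · exact H2
    · exact H3
  · intro j hj
    interval_cases j
    · exact P0
    · exact P1
    · exact P2
    · exact P3
  · intro j hj
    interval_cases j
    · exact y0
    · exact y1
    · exact y2
    · exact y3
  · intro j hj
    interval_cases j
    · exact e0
    · exact e1
    · exact e2
    · exact e3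
  · intro k
    have h1 := hS4.eΨ k
    have h2 : tau t0 t1 (3 + 1) = t1 := BCore_tau4 t0 t1
    rw [h2] at h1
    exact h1
  · refine hpot.1.mono (le_of_eq ?_)
    show 8 * ((tau t0 t1 1 - tau t0 t1 0) * _ + (tau t0 t1 2 - tau t0 t1 1) * _ +
      (tau t0 t1 3 - tau t0 t1 2) * _ + (tau t0 t1 4 - tau t0 t1 3) * _) = _
    rw [BCore_tau0, BCore_tau4]
    ring

end ES

end
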