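import Mathlib

/-! The parts of this file: ES.RParD, ES.RParA, ES.RParC. -/

section

/-!
Project ES, Part III, module RParD: the parameters of the recursion.

`lamN n = 2^(n^3)` frequency, `del n = 2^(-2 β n^3)/n^4`, `sigN n = del (n+1)` stress,
`wN n = √(C0 del(n+1))` wave amplitude, `gN n = 2 C0 lamN n √(C0 del n)` gradient,
`mN n = 1/(200 n^4)` loss of radius per sub-block, `KN n = 1 + 1/mN n`, `hN n = 4^(-n)/gN n` length
of the blocks, `lN n = 2 C0 KN^p √(C0 del n)/(lamN n sigN n)` length of the bad intervals,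
`PN n = ⌊log₂ (hN n/(2 C0 lN (n+1)))⌋` number of passes.
-/

open Filter

namespace ES

/-- `δ_n`. -/
noncomputable def del (β : ℝ) (n : ℕ) : ℝ := (2 : ℝ) ^ (-(2 * β * (n : ℝ) ^ 3)) / (n : ℝ) ^ 4

/-- Frequencies. -/
def lamN (n : ℕ) : ℕ := 2 ^ (n ^ 3)

/-- Stress bound at stage `n`. -/
noncomputable def sigN (β : ℝ) (n : ℕ) : ℝ := del β (n + 1)

/-- Wave amplitude at stage `n`. -/
noncomputable def wN (C0 β : ℝ) (n : ℕ) : ℝ := Real.sqrt (C0 * del β (n + 1))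

/-- Gradient bound at stage `n`. -/
noncomputable def gN (C0 β : ℝ) (n : ℕ) : ℝ := 2 * C0 * (lamN n : ℝ) * Real.sqrt (C0 * del β n)

/-- Loss of radius. -/
noncomputable def mN (n : ℕ) : ℝ := 1 / (200 * (n : ℝ) ^ 4)

/-- `1 + 1/m`. -/
noncomputable def KN (n : ℕ) : ℝ := 1 + 1 / mN n

/-- Maximal length of the blocks. -/
noncomputable def hN (C0 β : ℝ) (n : ℕ) : ℝ := (1 / 4 : ℝ) ^ n / gN C0 β n

/-- Length of the bad intervals of stage `n` (between `lN n` and `4 C0 lN n`). -/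
noncomputable def lN (C0 : ℝ) (p : ℕ) (β : ℝ) (n : ℕ) : ℝ :=
  2 * C0 * KN n ^ p * Real.sqrt (C0 * del β n) / ((lamN n : ℝ) * sigN β n)

/-- Number of passes. -/
noncomputable def PN (C0 : ℝ) (p : ℕ) (β : ℝ) (n : ℕ) : ℕ :=
  Nat.log 2 ⌊hN C0 β n / (2 * C0 * lN C0 p β (n + 1))⌋₊

/-- Deformation bound. -/
noncomputable def cN (n : ℕ) : ℝ := 1 / 200 * (1 - (1 / 2) ^ n)

/-- Radius. -/
noncomputable def rN (n : ℕ) : ℝ := 1 + 1 / (n : ℝ)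

/-- The inequalities needed at stage `n`. -/
structure PC (C0 : ℝ) (p : ℕ) (β : ℝ) (n : ℕ) : Prop where
  n4 : 4 ≤ n
  mP : 8 * mN n * PN C0 p β n ≤ 1 / (n : ℝ) - 1 / ((n : ℝ) + 1)
  mP2 : 8 * mN n * PN C0 p β n + 2 * mN n ≤ 1
  gw : 2 * (lamN n : ℝ) * wN C0 β n ≤ gN C0 β n
  kl : KN n * (2 * (lamN n : ℝ)) ≤ lamN (n + 1)
  ex : Real.exp (-(mN n * lamN (n + 1) / (8 * lamN n))) ≤ 1 / (lamN (n + 1) : ℝ)
  hg : C0 * KN n ^ p * hN C0 β n * gN C0 β n ≤ 1 / 200 * (1 / 2) ^ (n + 1)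
  nu : C0 * KN n ^ p * wN C0 β n ^ 2 *
    (hN C0 β n * gN C0 β n + (2 * (lamN n : ℝ) / lamN (n + 1)) ^ 2) ≤ (1 / 2) ^ n * sigN β n
  lr : lN C0 p β (n + 1) * (C0 * 2 ^ PN C0 p β n) ≤ hN C0 β n / 2
  lr2 : hN C0 β n / 2 ^ PN C0 p β n ≤ 4 * C0 * lN C0 p β (n + 1)
  g1 : C0 * ((lamN (n + 1) : ℝ) * wN C0 β n + KN n ^ p * gN C0 β n) ≤ gN C0 β (n + 1)
  g2 : 2 * gN C0 β n ≤ gN C0 β (n + 1)
  s1 : C0 * KN n ^ p / (lamN (n + 1) : ℝ) *
    (wN C0 β n / lN C0 p β (n + 1) + gN C0 β n * wN C0 β n) ≤ sigN β (n + 1)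
  s2 : sigN β n * ((1 / 2 : ℝ) ^ n) ^ PN C0 p β n ≤ sigN β (n + 1)
  A1 : gN C0 β n + C0 * KN n ^ p * (gN C0 β n * wN C0 β n + wN C0 β n / lN C0 p β (n + 1)) ≤
    gN C0 β (n + 1)
  hl : hN C0 β n ≤ lN C0 p β n
  hl' : hN C0 β (n + 1) ≤ lN C0 p β (n + 1)
  w1 : wN C0 β (n + 1) ≤ wN C0 β n
  cnt : 2 * (4 * C0 * lN C0 p β n) / hN C0 β n * (6 * (PN C0 p β n : ℝ) + 1) ≤
    (2 : ℝ) ^ (2 * β * (((n : ℝ) + 1) ^ 3 - (n : ℝ) ^ 3) + 4 * (2 * (n : ℝ) + 1))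

end ES

end

section

/-!
Project ES, Part III, module RParA: elementary facts on the parameters.
-/

open Filter

namespace ES

theorem lamN_pos (n : ℕ) : (0 : ℝ) < lamN n := by
  unfold lamN
  positivity

theorem one_le_lamN (n : ℕ) : (1 : ℝ) ≤ lamN n := by
  unfold lamN
  exact_mod_cast Nat.one_le_two_pow

theorem lamN_rpow (n : ℕ) : (lamN n : ℝ) = (2 : ℝ) ^ ((n : ℝ) ^ 3) := by
  unfold lamN
  rw [← Nat.cast_pow, Real.rpow_natCast]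
  push_cast
  rfl

theorem del_pos (β : ℝ) {n : ℕ} (hn : 1 ≤ n) : 0 < del β n := by
  have h : (0 : ℝ) < n := by exact_mod_cast hn
  unfold del
  positivity

theorem sqrt_del {C0 : ℝ} (hC : 1 ≤ C0) (β : ℝ) {n : ℕ} (hn : 1 ≤ n) :
    Real.sqrt (C0 * del β n) = Real.sqrt C0 * (2 : ℝ) ^ (-(β * (n : ℝ) ^ 3)) / (n : ℝ) ^ 2 := by
  have h : (0 : ℝ) < n := by exact_mod_cast hn
  have hC0 : (0 : ℝ) ≤ C0 := by linarith
  have e : del β n = ((2 : ℝ) ^ (-(β * (n : ℝ) ^ 3)) / (n : ℝ) ^ 2) ^ 2 := by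
    unfold del
    have e1 : (2 : ℝ) ^ (-(2 * β * (n : ℝ) ^ 3)) = ((2 : ℝ) ^ (-(β * (n : ℝ) ^ 3))) ^ 2 := by
      rw [← Real.rpow_natCast ((2 : ℝ) ^ (-(β * (n : ℝ) ^ 3))), ← Real.rpow_mul (by norm_num)]
      congr 1
      push_cast
      ring
    rw [e1, div_pow, ← pow_mul]
  rw [Real.sqrt_mul hC0, e, Real.sqrt_sq (by positivity)]
  ring

theorem sigN_pos (β : ℝ) (n : ℕ) : 0 < sigN β n := by
  unfold sigN
  exact del_pos β (by omega)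

theorem wN_pos {C0 : ℝ} (hC : 1 ≤ C0) (β : ℝ) (n : ℕ) : 0 < wN C0 β n := by
  unfold wN
  apply Real.sqrt_pos.2
  have := del_pos β (n := n + 1) (by omega)
  positivity

theorem wN_sq {C0 : ℝ} (hC : 1 ≤ C0) (β : ℝ) (n : ℕ) : wN C0 β n ^ 2 = C0 * sigN β n := by
  unfold wN sigN
  have := del_pos β (n := n + 1) (by omega)
  exact Real.sq_sqrt (by positivity)

theorem gN_pos {C0 : ℝ} (hC : 1 ≤ C0) (β : ℝ) {n : ℕ} (hn : 1 ≤ n) : 0 < gN C0 β n := by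
  have h1 := lamN_pos n
  have h2 := del_pos β hn
  have h3 : 0 < Real.sqrt (C0 * del β n) := Real.sqrt_pos.2 (by positivity)
  unfold gN
  positivity

theorem mN_pos {n : ℕ} (hn : 1 ≤ n) : 0 < mN n := by
  have h : (0 : ℝ) < n := by exact_mod_cast hn
  unfold mN
  positivity

theorem mN_le {n : ℕ} (hn : 1 ≤ n) : mN n ≤ 1 / 200 := by
  have h : (1 : ℝ) ≤ n := by exact_mod_cast hn
  have h4 : (1 : ℝ) ≤ (n : ℝ) ^ 4 := one_le_pow₀ h
  unfold mN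
  exact one_div_le_one_div_of_le (by norm_num) (by linarith)

theorem KN_eq {n : ℕ} (hn : 1 ≤ n) : KN n = 1 + 200 * (n : ℝ) ^ 4 := by
  have h : (0 : ℝ) < n := by exact_mod_cast hn
  unfold KN mN
  rw [one_div_one_div]

theorem KN_pos {n : ℕ} (hn : 1 ≤ n) : 1 ≤ KN n := by
  rw [KN_eq hn]
  have : (0 : ℝ) ≤ 200 * (n : ℝ) ^ 4 := by positivity
  linarith

theorem hN_pos {C0 : ℝ} (hC : 1 ≤ C0) (β : ℝ) {n : ℕ} (hn : 1 ≤ n) : 0 < hN C0 β n := by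
  have h1 := gN_pos hC β hn
  unfold hN
  positivity

theorem lN_pos {C0 : ℝ} (hC : 1 ≤ C0) (p : ℕ) (β : ℝ) {n : ℕ} (hn : 1 ≤ n) :
    0 < lN C0 p β n := by
  have h1 := lamN_pos n
  have h2 := del_pos β hn
  have h3 : 0 < Real.sqrt (C0 * del β n) := Real.sqrt_pos.2 (by positivity)
  have h4 := sigN_pos β n
  have h5 := KN_pos hn
  have h6 : 0 < KN n := by linarith
  unfold lN
  positivity

theorem hN_gN {C0 : ℝ} (hC : 1 ≤ C0) (β : ℝ) {n : ℕ} (hn : 1 ≤ n) :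
    hN C0 β n * gN C0 β n = (1 / 4) ^ n := by
  have h1 := gN_pos hC β hn
  unfold hN
  field_simp

end ES

end

section

/-!
Project ES, Part III, module RParC: the gauge (a polynomial in `n` is eventually smaller than
`2^(a n)`, `a > 0`): `KN (n+1) = 1 + 200 (n+1)^4 ≤ 201 (n+2)^4`;
`tendsto_pow_const_div_const_pow_of_one_lt` or `isLittleO_pow_exp_pos_mul_atTop`.
-/

open Filter

namespace ES

/-- The gauge: polynomial factors are smaller than any exponential. -/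
theorem gauge (C : ℝ) (p q : ℕ) {a : ℝ} (ha : 0 < a) :
    ∀ᶠ n : ℕ in atTop, C * KN (n + 1) ^ p * ((n : ℝ) + 2) ^ q ≤ (2 : ℝ) ^ (a * n) := by
  set r : ℝ := (2 : ℝ) ^ a with hr
  have hr1 : 1 < r := by
    rw [hr]
    exact Real.one_lt_rpow (by norm_num) ha
  have hr0 : 0 < r := by linarith
  have h1 : Tendsto (fun n : ℕ => ((n + 2 : ℕ) : ℝ) ^ (4 * p + q) / r ^ (n + 2)) atTop (nhds 0) :=
    (tendsto_pow_const_div_const_pow_of_one_lt (4 * p + q) hr1).comp (tendsto_add_atTop_nat 2)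
  set D : ℝ := (|C| + 1) * 201 ^ p * r ^ 2 with hD
  have hD0 : 0 < D := by positivity
  have h2 : ∀ᶠ n : ℕ in atTop, ((n + 2 : ℕ) : ℝ) ^ (4 * p + q) / r ^ (n + 2) < 1 / D :=
    h1.eventually_lt_const (by positivity)
  filter_upwards [h2] with n hn
  have h3 : KN (n + 1) ≤ 201 * ((n : ℝ) + 2) ^ 4 := by
    rw [KN_eq (by omega)]
    push_cast
    have h4 : ((n : ℝ) + 1) ^ 4 ≤ ((n : ℝ) + 2) ^ 4 :=
      pow_le_pow_left₀ (by positivity) (by linarith) 4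
    have h5 : (1 : ℝ) ≤ ((n : ℝ) + 2) ^ 4 := one_le_pow₀ (by linarith [Nat.cast_nonneg (α := ℝ) n])
    linarith
  have h0 : 0 ≤ KN (n + 1) := le_trans zero_le_one (KN_pos (by omega))
  have h4 : KN (n + 1) ^ p ≤ 201 ^ p * ((n : ℝ) + 2) ^ (4 * p) := by
    calc KN (n + 1) ^ p ≤ (201 * ((n : ℝ) + 2) ^ 4) ^ p := pow_le_pow_left₀ h0 h3 p
      _ = 201 ^ p * ((n : ℝ) + 2) ^ (4 * p) := by rw [mul_pow, ← pow_mul]
  have h5 : (2 : ℝ) ^ (a * n) = r ^ n := by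
    rw [hr, ← Real.rpow_natCast, ← Real.rpow_mul (by norm_num)]
  rw [h5]
  have h6 : C * KN (n + 1) ^ p * ((n : ℝ) + 2) ^ q ≤
      (|C| + 1) * 201 ^ p * ((n : ℝ) + 2) ^ (4 * p + q) := by
    calc C * KN (n + 1) ^ p * ((n : ℝ) + 2) ^ q
        ≤ (|C| + 1) * KN (n + 1) ^ p * ((n : ℝ) + 2) ^ q := by
          have h7 : C ≤ |C| + 1 := (le_abs_self C).trans (by linarith)
          have h8 : 0 ≤ KN (n + 1) ^ p := pow_nonneg h0 p
          exact mul_le_mul_of_nonneg_right (mul_le_mul_of_nonneg_right h7 h8) (by positivity)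
      _ ≤ (|C| + 1) * (201 ^ p * ((n : ℝ) + 2) ^ (4 * p)) * ((n : ℝ) + 2) ^ q :=
          mul_le_mul_of_nonneg_right (mul_le_mul_of_nonneg_left h4 (by positivity)) (by positivity)
      _ = (|C| + 1) * 201 ^ p * ((n : ℝ) + 2) ^ (4 * p + q) := by rw [pow_add]; ring
  refine h6.trans ?_
  rw [div_lt_div_iff₀ (by positivity) hD0] at hn
  push_cast at hn
  rw [hD, pow_add r n 2, one_mul] at hn
  have h9 : 0 < r ^ 2 := by positivity
  have h10 : (|C| + 1) * 201 ^ p * ((n : ℝ) + 2) ^ (4 * p + q) * r ^ 2 ≤ r ^ n * r ^ 2 := by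
    calc _ = ((n : ℝ) + 2) ^ (4 * p + q) * ((|C| + 1) * 201 ^ p * r ^ 2) := by ring
      _ ≤ _ := hn.le
  exact le_of_mul_le_mul_right h10 h9

end ES

end
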