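import Pool.Agent.H16.TSS.M05
import Pool.Agent.H16.TSS.M06

/-! The parts of this file: ES.RGlue, ES.RBlock, ES.RSeq. -/

section

/-!
Project ES, Part III, module RGlue: modification of a field on consecutive intervals.

`Md V V' s t e`: `V' = V` at the times outside the open interval `(s,t)`, and `|V' - V| ≤ e`.
`Rf G B V s t e N`: there is a modification `V'` of `V` on `(s,t)` and a tree of `[s,t]`, valid for
`V'`, with at most `N` bad leaves.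
Proof of `Rf.cat`: take `V' = glue u V1 V2`; on `[s,u]` it equals `V1` and on `[u,t]` it equals `V2`
(at the time `u` both are equal to `V`), then use `Cg` and `PT.Valid.mono`-like inductions.
-/

namespace ES

/-- The predicate depends only on the field on the closed interval. -/
def Cg (G : Fld → ℝ → ℝ → Prop) : Prop :=
  ∀ (V V' : Fld) (s t : ℝ), G V s t → (∀ x, ∀ τ ∈ Set.Icc s t, V' x τ = V x τ) → G V' s t

/-- `V'` is a modification of `V` on `(s,t)` by at most `e`. -/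
def Md (V V' : Fld) (s t e : ℝ) : Prop :=
  (∀ x τ, τ ∉ Set.Ioo s t → V' x τ = V x τ) ∧ ∀ x τ a, |V' x τ a - V x τ a| ≤ e

/-- Refinement of one interval. -/
def Rf (G B : Fld → ℝ → ℝ → Prop) (V : Fld) (s t e : ℝ) (N : ℕ) : Prop :=
  ∃ (V' : Fld) (τ : PT), τ.lo = s ∧ τ.hi = t ∧ τ.Valid (G V') (B V') ∧ τ.nb ≤ N ∧ Md V V' s t e

/-- `V1` up to the time `u`, `V2` after it. -/
noncomputable def glue (u : ℝ) (V1 V2 : Fld) : Fld := fun x t => if t ≤ u then V1 x t else V2 x t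

/-- Validity of a tree only depends on the field on the interval of the tree. -/
theorem PT.Valid.congr {G B : Fld → ℝ → ℝ → Prop} (hG : Cg G) (hB : Cg B) {V V' : Fld} {τ : PT}
    (h : τ.Valid (G V) (B V)) (hV : ∀ x, ∀ t ∈ Set.Icc τ.lo τ.hi, V' x t = V x t) :
    τ.Valid (G V') (B V') := by
  induction τ with
  | ex s t => exact ⟨h.1, hG V V' s t h.2 hV⟩
  | bd s t => exact ⟨h.1, hB V V' s t h.2 hV⟩
  | cat l r ihl ihr =>
    obtain ⟨h1, h2, h3⟩ := h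
    have l1 := PT.Valid.lt h1
    have l2 := PT.Valid.lt h2
    refine ⟨ihl h1 fun x t ht => ?_, ihr h2 fun x t ht => ?_, h3⟩
    · refine hV x t ⟨ht.1, ?_⟩
      show t ≤ r.hi
      exact ht.2.trans (h3.le.trans l2.le)
    · refine hV x t ⟨?_, ht.2⟩
      show l.lo ≤ t
      exact l1.le.trans (h3.le.trans ht.1)

private theorem RGlue_le {u : ℝ} {V1 V2 : Fld} {x : Fin 2 → ℝ} {t : ℝ} (ht : t ≤ u) :
    glue u V1 V2 x t = V1 x t := by
  unfold glue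
  rw [if_pos ht]

private theorem RGlue_gt {u : ℝ} {V1 V2 : Fld} {x : Fin 2 → ℝ} {t : ℝ} (ht : u < t) :
    glue u V1 V2 x t = V2 x t := by
  unfold glue
  rw [if_neg (not_le.2 ht)]

theorem Rf.mono {G B : Fld → ℝ → ℝ → Prop} {V : Fld} {s t e e' : ℝ} {N N' : ℕ}
    (h : Rf G B V s t e N) (he : e ≤ e') (hN : N ≤ N') : Rf G B V s t e' N' := by
  obtain ⟨V', τ, h1, h2, h3, h4, h5, h6⟩ := h
  exact ⟨V', τ, h1, h2, h3, h4.trans hN, h5, fun x τ a => (h6 x τ a).trans he⟩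

theorem Rf.cat {G B : Fld → ℝ → ℝ → Prop} (hG : Cg G) (hB : Cg B) {V : Fld} {s u t e : ℝ}
    {N1 N2 : ℕ} (h1 : Rf G B V s u e N1) (h2 : Rf G B V u t e N2) (hsu : s < u) (hut : u < t) :
    Rf G B V s t e (N1 + N2) := by
  obtain ⟨V1, τ1, a1, a2, a3, a4, a5, a6⟩ := h1
  obtain ⟨V2, τ2, b1, b2, b3, b4, b5, b6⟩ := h2
  refine ⟨glue u V1 V2, PT.cat τ1 τ2, a1, b2, ⟨?_, ?_, a2.trans b1.symm⟩, ?_, ?_, ?_⟩
  · refine PT.Valid.congr hG hB a3 fun x t' ht' => ?_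
    rw [a1, a2] at ht'
    exact RGlue_le ht'.2
  · refine PT.Valid.congr hG hB b3 fun x t' ht' => ?_
    rw [b1, b2] at ht'
    rcases ht'.1.eq_or_lt with h3 | h3
    · rw [← h3, RGlue_le le_rfl, a5 x u fun h4 => lt_irrefl _ h4.2,
        b5 x u fun h4 => lt_irrefl _ h4.1]
    · exact RGlue_gt h3
  · show τ1.nb + τ2.nb ≤ N1 + N2
    exact add_le_add a4 b4
  · intro x t' ht'
    rcases le_or_gt t' u with h3 | h3
    · rw [RGlue_le h3]
      exact a5 x t' fun h4 => ht' ⟨h4.1, h4.2.trans hut⟩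
    · rw [RGlue_gt h3]
      exact b5 x t' fun h4 => ht' ⟨hsu.trans h4.1, h4.2⟩
  · intro x t' a
    rcases le_or_gt t' u with h3 | h3
    · rw [RGlue_le h3]
      exact a6 x t' a
    · rw [RGlue_gt h3]
      exact b6 x t' a

/-- Subdivision into `M` blocks of equal length: by induction on `M`, cutting off the first block. -/
theorem Rf.iter {G B : Fld → ℝ → ℝ → Prop} (hG : Cg G) (hB : Cg B) {V : Fld} {s t e : ℝ} {N : ℕ}
    (M : ℕ) (hM : 1 ≤ M) (hst : s < t)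
    (h : ∀ a b, s ≤ a → b ≤ t → b - a = (t - s) / M → Rf G B V a b e N) :
    Rf G B V s t e (M * N) := by
  induction M, hM using Nat.le_induction generalizing s with
  | base =>
    rw [one_mul]
    exact h s t le_rfl le_rfl (by rw [Nat.cast_one, div_one])
  | succ M hM ih =>
    have hM0 : (0 : ℝ) < M := by exact_mod_cast hM
    have hd : 0 < (t - s) / (M + 1) := div_pos (sub_pos.2 hst) (by linarith)
    have hMd : (M : ℝ) * ((t - s) / (M + 1)) + (t - s) / (M + 1) = t - s := by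
      field_simp
    have hMd' : 0 < (M : ℝ) * ((t - s) / (M + 1)) := mul_pos hM0 hd
    have hu1 : s < s + (t - s) / (M + 1) := by linarith
    have hu2 : s + (t - s) / (M + 1) < t := by linarith
    have h1 : Rf G B V s (s + (t - s) / (M + 1)) e N := by
      refine h _ _ le_rfl hu2.le ?_
      rw [Nat.cast_add, Nat.cast_one]
      ring
    have h2 : Rf G B V (s + (t - s) / (M + 1)) t e (M * N) := by
      refine ih hu2 fun a b ha hb hab => ?_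
      refine h a b (hu1.le.trans ha) hb ?_
      rw [hab, Nat.cast_add, Nat.cast_one, div_eq_iff hM0.ne']
      linarith
    have h3 := Rf.cat hG hB h1 h2 hu1 hu2
    have e1 : (M + 1) * N = N + M * N := by ring
    rw [e1]
    exact h3

/-- One stage: all bad leaves of a valid tree are refined simultaneously. -/
theorem stage_step {G B G' B' : Fld → ℝ → ℝ → Prop} (hG' : Cg G') (hB' : Cg B')
    {e : ℝ} (he : 0 ≤ e) {N : ℕ} {V : Fld} {τ : PT} (h : τ.Valid (G V) (B V))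
    (hGG : ∀ s t, G V s t → G' V s t)
    (hR : ∀ s t, s < t → B V s t → Rf G' B' V s t e N) :
    ∃ (V' : Fld) (τ' : PT), τ'.lo = τ.lo ∧ τ'.hi = τ.hi ∧ τ'.Valid (G' V') (B' V') ∧
      τ'.nb ≤ N * τ.nb ∧ τ'.bads ⊆ τ.bads ∧ τ'.ends ⊆ τ.ends ∪ τ.bads ∧
      (∀ x t, t ∉ τ.obads → V' x t = V x t) ∧ ∀ x t a, |V' x t a - V x t a| ≤ e := by
  induction τ with
  | ex s t =>
    refine ⟨V, PT.ex s t, rfl, rfl, ⟨h.1, hGG s t h.2⟩, Nat.zero_le _, fun _ h1 => h1,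
      fun _ h1 => Or.inl h1, fun _ _ _ => rfl, fun x t a => ?_⟩
    rw [sub_self, abs_zero]
    exact he
  | bd s t =>
    obtain ⟨V', τ', a1, a2, a3, a4, a5, a6⟩ := hR s t h.1 h.2
    refine ⟨V', τ', a1, a2, a3, ?_, ?_, ?_, a5, a6⟩
    · show τ'.nb ≤ N * 1
      rw [mul_one]
      exact a4
    · have h1 := PT.Valid.bads_sub a3
      rw [a1, a2] at h1
      exact h1
    · have h1 := PT.Valid.ends_sub a3
      rw [a1, a2] at h1
      exact fun x hx => Or.inr (h1 hx)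
  | cat l r ihl ihr =>
    obtain ⟨h1, h2, h3⟩ := h
    obtain ⟨V1, τ1, a1, a2, a3, a4, a5, a6, a7, a8⟩ := ihl h1
    obtain ⟨V2, τ2, b1, b2, b3, b4, b5, b6, b7, b8⟩ := ihr h2
    have hl := PT.Valid.obads_sub h1
    have hr := PT.Valid.obads_sub h2
    refine ⟨glue l.hi V1 V2, PT.cat τ1 τ2, a1, b2,
      ⟨?_, ?_, a2.trans (h3.trans b1.symm)⟩, ?_, ?_, ?_, ?_, ?_⟩
    · refine PT.Valid.congr hG' hB' a3 fun x t' ht' => ?_
      rw [a1, a2] at ht'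
      exact RGlue_le ht'.2
    · refine PT.Valid.congr hG' hB' b3 fun x t' ht' => ?_
      rw [b1, b2, ← h3] at ht'
      rcases ht'.1.eq_or_lt with h4 | h4
      · rw [← h4, RGlue_le le_rfl, a7 x l.hi fun h5 => lt_irrefl _ (hl h5).2,
          b7 x l.hi fun h5 => lt_irrefl _ (h3.le.trans_lt (hr h5).1)]
      · exact RGlue_gt h4
    · show τ1.nb + τ2.nb ≤ N * (l.nb + r.nb)
      rw [mul_add]
      exact add_le_add a4 b4
    · show τ1.bads ∪ τ2.bads ⊆ l.bads ∪ r.bads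
      exact Set.union_subset_union a5 b5
    · show τ1.ends ∪ τ2.ends ⊆ (l.ends ∪ r.ends) ∪ (l.bads ∪ r.bads)
      rintro t' (h4 | h4)
      · rcases a6 h4 with h5 | h5
        · exact Or.inl (Or.inl h5)
        · exact Or.inr (Or.inl h5)
      · rcases b6 h4 with h5 | h5
        · exact Or.inl (Or.inr h5)
        · exact Or.inr (Or.inr h5)
    · intro x t' ht'
      rcases le_or_gt t' l.hi with h4 | h4
      · rw [RGlue_le h4]
        exact a7 x t' fun h5 => ht' (Or.inl h5)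
      · rw [RGlue_gt h4]
        exact b7 x t' fun h5 => ht' (Or.inr h5)
    · intro x t' a
      rcases le_or_gt t' l.hi with h4 | h4
      · rw [RGlue_le h4]
        exact a8 x t' a
      · rw [RGlue_gt h4]
        exact b8 x t' a

end ES

end

section

/-!
Project ES, Part III, module RBlock: one bad interval of stage `n`.

`ExP n V s t`  : exact piece (stress `0`), with gradient and acceleration bounded by `gN n`.
`BdP Lm n V s t` : bad piece of stage `n`, of length between `hN n` and `Lm`.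

`block_rf` : the block theorem `BlockStatement` applied with `lam`, `g` of the piece and
`σ = sigN n`, `ρ = rN n`, `c = cN n`, `A = gN n`, `m = mN n`, `w = wN n`, `ℓr = lN (n+1)`,
`ν = √((1/2)^n)` (so `ν² = (1/2)^n`, `ν^(2P) = ((1/2)^n)^P`), `L = lamN (n+1)`, `P = PN n`,
on an interval of length between `hN n/2` and `hN n`.  The fast pieces have length `lN (n+1)`, the
tail has length `(t1-t0)/2^P ∈ [C0 lN(n+1), 4 C0 lN(n+1)]` (`lr`, `lr2`).  Use `BIFacts.mono` to pass to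
the bounds of stage `n+1` (at equal `lam`; for fast pieces `g` is replaced by `gN (n+1)`, for tails
`g' = g (1 + C0 K^p (t1-t0) g) ≤ 2 g ≤ 2 gN n ≤ gN (n+1)` is kept), and `PT.of_Prt`.
`piece_rf` : division of a bad piece of length `x ≥ hN n` into `⌈x/hN n⌉` blocks of equal length
(`Rf.iter`), which lies in `[hN n/2, hN n]`; restriction by `BIFacts.restrict`.
-/

namespace ES

/-- Exact piece of stage `n`. -/
def ExP (C0 β : ℝ) (n : ℕ) (V : Fld) (s t : ℝ) : Prop :=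
  ∃ lam g ρ c A : ℝ, BI V s t lam g 0 ρ c A ∧ 0 < ρ ∧ 0 ≤ c ∧ c ≤ 1 / 10 ∧ g ≤ gN C0 β n ∧
    A ≤ gN C0 β n

/-- Bad piece of stage `n`. -/
def BdP (C0 β Lm : ℝ) (n : ℕ) (V : Fld) (s t : ℝ) : Prop :=
  hN C0 β n ≤ t - s ∧ t - s ≤ Lm ∧
    ∃ lam g : ℝ, 1 ≤ lam ∧ lam ≤ 2 * (lamN n : ℝ) ∧ lam * wN C0 β n ≤ g ∧ g ≤ gN C0 β n ∧
      BI V s t lam g (sigN β n) (rN n) (cN n) (gN C0 β n)

theorem ExP.cg (hF : BIFacts) (C0 β : ℝ) (n : ℕ) : Cg (ExP C0 β n) := by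
  intro V V' s t h hV
  obtain ⟨lam, g, ρ, c, A, h1, h2⟩ := h
  exact ⟨lam, g, ρ, c, A, hF.congr V V' s t lam g 0 ρ c A h1 hV, h2⟩

theorem BdP.cg (hF : BIFacts) (C0 β Lm : ℝ) (n : ℕ) : Cg (BdP C0 β Lm n) := by
  intro V V' s t h hV
  obtain ⟨h1, h2, lam, g, h3, h4, h5, h6, h7⟩ := h
  exact ⟨h1, h2, lam, g, h3, h4, h5, h6, hF.congr V V' s t _ _ _ _ _ _ h7 hV⟩

theorem ExP.mono {C0 β : ℝ} {n n' : ℕ} {V : Fld} {s t : ℝ} (h : ExP C0 β n V s t)
    (hg : gN C0 β n ≤ gN C0 β n') : ExP C0 β n' V s t := by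
  obtain ⟨lam, g, ρ, c, A, h1, h2, h3, h4, h5, h6⟩ := h
  exact ⟨lam, g, ρ, c, A, h1, h2, h3, h4, h5.trans hg, h6.trans hg⟩

private theorem RBlock_cN (n : ℕ) : 0 ≤ cN n ∧ cN n ≤ 1 / 200 := by
  unfold cN
  have h1 : (0 : ℝ) ≤ (1 / 2) ^ n := by positivity
  have h2 : ((1 : ℝ) / 2) ^ n ≤ 1 := pow_le_one₀ (by norm_num) (by norm_num)
  constructor
  · nlinarith
  · nlinarith

private theorem RBlock_cN_succ (n : ℕ) : cN n + 1 / 200 * (1 / 2) ^ (n + 1) = cN (n + 1) := by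
  unfold cN
  rw [pow_succ]
  ring

theorem block_rf (hF : BIFacts) {C0 : ℝ} (hC : 1 ≤ C0) {p : ℕ} (hB : BlockStatement C0 p) {β : ℝ}
    {n : ℕ} (hP : PC C0 p β n) {V : Fld} {s t lam g : ℝ}
    (h1 : hN C0 β n / 2 ≤ t - s) (h2 : t - s ≤ hN C0 β n) (hl : 1 ≤ lam)
    (hl2 : lam ≤ 2 * (lamN n : ℝ)) (hlw : lam * wN C0 β n ≤ g) (hg : g ≤ gN C0 β n)
    (hV : BI V s t lam g (sigN β n) (rN n) (cN n) (gN C0 β n)) :
    Rf (ExP C0 β (n + 1)) (BdP C0 β (4 * C0 * lN C0 p β (n + 1)) (n + 1)) V s t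
      (C0 * wN C0 β n) (6 * PN C0 p β n + 1) := by
  have hn4 := hP.n4
  have hn1 : 1 ≤ n := by omega
  have hC0 : 0 < C0 := by linarith
  have hnr : (4 : ℝ) ≤ n := by exact_mod_cast hn4
  have hm0 := mN_pos hn1
  have hm1 := mN_le hn1
  have hw0 := wN_pos hC β n
  have hw0' := wN_pos hC β (n + 1)
  have hσ0 := sigN_pos β n
  have hl0 : 0 < lN C0 p β (n + 1) := lN_pos hC p β (by omega)
  have hh0 := hN_pos hC β hn1
  have hts : 0 < t - s := by linarith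
  have hg0 : 0 < g := lt_of_lt_of_le (mul_pos (by linarith) hw0) hlw
  have hK1 := KN_pos hn1
  have hKp : 0 < KN n ^ p := pow_pos (by linarith) p
  have hL0 := lamN_pos n
  have hL1 := lamN_pos (n + 1)
  have hCK : 0 < C0 * KN n ^ p := mul_pos hC0 hKp
  have hgN0 : 0 < gN C0 β n := gN_pos hC β hn1
  -- the quantity `C0 K^p (t-s) g`
  have hx : C0 * KN n ^ p * (t - s) * g ≤ 1 / 200 * (1 / 2) ^ (n + 1) := by
    refine le_trans ?_ hP.hg
    refine mul_le_mul ?_ hg hg0.le (by positivity)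
    exact mul_le_mul_of_nonneg_left h2 hCK.le
  have hx0 : 0 ≤ C0 * KN n ^ p * (t - s) * g := by positivity
  have hhalf : ((1 : ℝ) / 2) ^ (n + 1) ≤ 1 := pow_le_one₀ (by norm_num) (by norm_num)
  have hx1 : C0 * KN n ^ p * (t - s) * g ≤ 1 := by linarith
  obtain ⟨hc0, hc1⟩ := RBlock_cN n
  have hν0 : (0 : ℝ) < (1 / 2) ^ n := by positivity
  have hν2 : Real.sqrt ((1 / 2 : ℝ) ^ n) ^ 2 = (1 / 2) ^ n := Real.sq_sqrt hν0.le
  have hKdef : (1 + 1 / mN n) = KN n := rfl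
  have key := hB V s t lam g (sigN β n) (rN n) (cN n) (gN C0 β n) (mN n) (wN C0 β n)
    (lN C0 p β (n + 1)) (Real.sqrt ((1 / 2 : ℝ) ^ n)) (lamN (n + 1)) (PN C0 p β n)
  rw [hKdef] at key
  have hex : Real.exp (-(mN n * (lamN (n + 1) : ℝ) / (4 * lam))) ≤ 1 / (lamN (n + 1) : ℝ) := by
    refine le_trans (Real.exp_le_exp.mpr ?_) hP.ex
    refine neg_le_neg ?_
    refine div_le_div_of_nonneg_left (by positivity) (by linarith) ?_
    linarith
  have hnu : C0 * KN n ^ p * wN C0 β n ^ 2 * ((t - s) * g + (lam / (lamN (n + 1) : ℝ)) ^ 2) ≤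
      Real.sqrt ((1 / 2 : ℝ) ^ n) ^ 2 * sigN β n := by
    rw [hν2]
    refine le_trans (mul_le_mul_of_nonneg_left (add_le_add ?_ ?_) (by positivity)) hP.nu
    · exact mul_le_mul h2 hg hg0.le hh0.le
    · refine pow_le_pow_left₀ (by positivity) ?_ 2
      exact div_le_div_of_nonneg_right hl2 hL1.le
  have hr1 : rN n ≤ 2 := by
    unfold rN
    have : 1 / (n : ℝ) ≤ 1 := by
      rw [div_le_one (by linarith)]
      linarith
    linarith
  have hr2 : 8 * mN n * (PN C0 p β n : ℝ) + 2 * mN n ≤ rN n := by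
    refine hP.mP2.trans ?_
    unfold rN
    have : 0 ≤ 1 / (n : ℝ) := by positivity
    linarith
  have hr3 : rN (n + 1) ≤ rN n - 8 * mN n * (PN C0 p β n : ℝ) := by
    have := hP.mP
    unfold rN
    push_cast
    linarith
  have hr4 : 1 ≤ rN (n + 1) := by
    unfold rN
    have : 0 ≤ 1 / ((n + 1 : ℕ) : ℝ) := by positivity
    linarith
  have hKl : KN n * lam ≤ (lamN (n + 1) : ℝ) :=
    (mul_le_mul_of_nonneg_left hl2 (by linarith)).trans hP.kl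
  have hsq : Real.sqrt ((1 / 2 : ℝ) ^ n) ≤ 1 / 4 := by
    rw [Real.sqrt_le_left (by norm_num)]
    calc ((1 : ℝ) / 2) ^ n ≤ (1 / 2) ^ 4 := pow_le_pow_of_le_one (by norm_num) (by norm_num) hn4
      _ = (1 / 4) ^ 2 := by norm_num
  obtain ⟨V', hV1, hV2, hprt⟩ := key hV hm0 (by linarith) hr1 hr2 hl hw0 hσ0
    (wN_sq hC β n).symm.le hlw hc0 hc1 hKl hex hx1 (Real.sqrt_pos.mpr hν0) hsq hnu hl0
    (hP.lr.trans h1)
  obtain ⟨τ, hlo, hhi, hnb, hval⟩ := PT.of_Prt hprt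
  refine ⟨V', τ, hlo, hhi, ?_, hnb.le, hV1, hV2⟩
  -- the bounds of stage `n + 1`
  have hgb : C0 * ((lamN (n + 1) : ℝ) * wN C0 β n + KN n ^ p * g) ≤ gN C0 β (n + 1) := by
    refine le_trans (mul_le_mul_of_nonneg_left (add_le_add le_rfl ?_) hC0.le) hP.g1
    exact mul_le_mul_of_nonneg_left hg hKp.le
  have hAb : gN C0 β n + C0 * KN n ^ p * (g * wN C0 β n + wN C0 β n / lN C0 p β (n + 1)) ≤
      gN C0 β (n + 1) := by
    refine le_trans (add_le_add le_rfl (mul_le_mul_of_nonneg_left (add_le_add ?_ le_rfl) hCK.le)) hP.A1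
    exact mul_le_mul_of_nonneg_right hg hw0.le
  have hcb : cN n + C0 * KN n ^ p * (t - s) * g ≤ cN (n + 1) := by
    rw [← RBlock_cN_succ]
    linarith
  have hcb0 : 0 ≤ cN n + C0 * KN n ^ p * (t - s) * g := by linarith
  have hc10 := (RBlock_cN (n + 1)).2
  have hlen : ∀ x : ℝ, x = (t - s) / 2 ^ PN C0 p β n → lN C0 p β (n + 1) ≤ x ∧
      x ≤ 4 * C0 * lN C0 p β (n + 1) := by
    intro x hx'
    have h2P : (0 : ℝ) < 2 ^ PN C0 p β n := by positivity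
    constructor
    · rw [hx', le_div_iff₀ h2P]
      refine le_trans ?_ (hP.lr.trans h1)
      refine mul_le_mul_of_nonneg_left ?_ hl0.le
      nlinarith only [mul_nonneg (sub_nonneg.2 hC) h2P.le]
    · rw [hx']
      exact (div_le_div_of_nonneg_right h2 h2P.le).trans hP.lr2
  refine PT.Valid.mono hval ?_ ?_
  · intro a b _ _ hG
    exact ⟨_, _, _, _, _, hG, by linarith, hcb0, by linarith, hgb, hAb⟩
  · intro a b _ _ hG
    rcases hG with ⟨hab, hG⟩ | ⟨hab, hG⟩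
    · refine ⟨by rw [hab]; exact hP.hl', ?_, 2 * (lamN (n + 1) : ℝ), gN C0 β (n + 1), ?_, le_rfl,
        ?_, le_rfl, ?_⟩
      · rw [hab]
        nlinarith only [mul_nonneg (sub_nonneg.2 hC) hl0.le, hl0]
      · have := one_le_lamN (n + 1)
        linarith
      · have h3 : gN C0 β (n + 1) = 2 * C0 * (lamN (n + 1) : ℝ) * wN C0 β n := rfl
        rw [h3]
        calc 2 * (lamN (n + 1) : ℝ) * wN C0 β (n + 1) ≤ 2 * (lamN (n + 1) : ℝ) * wN C0 β n :=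
              mul_le_mul_of_nonneg_left hP.w1 (by positivity)
          _ = 1 * (2 * (lamN (n + 1) : ℝ) * wN C0 β n) := (one_mul _).symm
          _ ≤ C0 * (2 * (lamN (n + 1) : ℝ) * wN C0 β n) :=
              mul_le_mul_of_nonneg_right hC (by positivity)
          _ = _ := by ring
      · refine hF.mono V' a b _ _ _ _ _ _ _ _ _ _ _ _ hG (by positivity) le_rfl hgb
          (div_le_div_of_nonneg_right hgb (by positivity)) ?_ hr3 (by linarith) hcb hAb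
        refine le_trans (mul_le_mul_of_nonneg_left (add_le_add le_rfl ?_) (by positivity)) hP.s1
        exact mul_le_mul_of_nonneg_right hg hw0.le
    · obtain ⟨hb1, hb2⟩ := hlen (b - a) hab
      have hg1 : g ≤ g * (1 + C0 * KN n ^ p * (t - s) * g) := by
        nlinarith only [mul_nonneg hg0.le hx0]
      refine ⟨hP.hl'.trans hb1, hb2, lam, g * (1 + C0 * KN n ^ p * (t - s) * g), hl, ?_, ?_, ?_, ?_⟩
      · refine hl2.trans ?_
        have h3 : (lamN n : ℝ) ≤ lamN (n + 1) := by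
          have h4 := hP.kl
          nlinarith only [h4, mul_nonneg (sub_nonneg.2 hK1) hL0.le, hL0]
        linarith
      · refine le_trans ?_ (hlw.trans hg1)
        exact mul_le_mul_of_nonneg_left hP.w1 (by linarith)
      · have h3 : g * (1 + C0 * KN n ^ p * (t - s) * g) ≤ 2 * g := by
          nlinarith only [mul_nonneg hg0.le (sub_nonneg.2 hx1)]
        have h4 := hP.g2
        linarith
      · refine hF.mono V' a b _ _ _ _ _ _ _ _ _ _ _ _ hG (by linarith) le_rfl le_rfl le_rfl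
          ?_ hr3 (by linarith) hcb hAb
        rw [pow_mul, hν2]
        exact hP.s2

theorem piece_rf (hF : BIFacts) {C0 : ℝ} (hC : 1 ≤ C0) {p : ℕ} (hB : BlockStatement C0 p) {β : ℝ}
    {n : ℕ} (hP : PC C0 p β n) {V : Fld} {s t Lm : ℝ} (hst : s < t)
    (hV : BdP C0 β Lm n V s t) :
    Rf (ExP C0 β (n + 1)) (BdP C0 β (4 * C0 * lN C0 p β (n + 1)) (n + 1)) V s t
      (C0 * wN C0 β n) (⌈Lm / hN C0 β n⌉₊ * (6 * PN C0 p β n + 1)) := by
  have hn4 := hP.n4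
  have hn1 : 1 ≤ n := by omega
  have hh0 := hN_pos hC β hn1
  obtain ⟨h1, h2, lam, g, h3, h4, h5, h6, h7⟩ := hV
  set x : ℝ := (t - s) / hN C0 β n with hx
  have hx1 : 1 ≤ x := by
    rw [hx, le_div_iff₀ hh0]
    linarith
  have hxe : t - s = x * hN C0 β n := by
    rw [hx, div_mul_cancel₀ _ hh0.ne']
  have hM1 : x ≤ (⌈x⌉₊ : ℝ) := Nat.le_ceil x
  have hM2 : (⌈x⌉₊ : ℝ) < x + 1 := Nat.ceil_lt_add_one (by linarith)
  have hM0 : 1 ≤ ⌈x⌉₊ := by
    rw [Nat.one_le_ceil_iff]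
    linarith
  have hMpos : (0 : ℝ) < (⌈x⌉₊ : ℝ) := by linarith
  have hmain := Rf.iter (ExP.cg hF C0 β (n + 1)) (BdP.cg hF C0 β (4 * C0 * lN C0 p β (n + 1)) (n + 1))
    (V := V) (e := C0 * wN C0 β n) (N := 6 * PN C0 p β n + 1) ⌈x⌉₊ hM0 hst (by
      intro a b ha hb hab
      have hl1 : hN C0 β n / 2 ≤ b - a := by
        rw [hab, hxe, le_div_iff₀ hMpos]
        nlinarith
      have hl2 : b - a ≤ hN C0 β n := by
        rw [hab, hxe, div_le_iff₀ hMpos]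
        nlinarith
      refine block_rf hF hC hB hP hl1 hl2 h3 h4 h5 h6 ?_
      exact hF.restrict V s t a b _ _ _ _ _ _ h7 ha (by linarith) hb)
  refine hmain.mono le_rfl (Nat.mul_le_mul_right _ ?_)
  exact Nat.ceil_mono (div_le_div_of_nonneg_right h2 hh0.le)

end ES

end

section

/-!
Project ES, Part III, module RSeq: the sequence of stages.

Start at stage `n0` with the tree `bd 0 T0` and iterate `stage_step` with
`G = ExP C0 β n`, `B = BdP C0 β (Lseq k) n`, `n = n0 + k`, where `Lseq 0 = T0` and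
`Lseq (k+1) = 4 C0 lN (n0+k+1)` (dependent choice, `Nat.rec` on a subtype / sigma type).
-/

namespace ES

/-- Maximal length of the bad intervals after `k` steps. -/
noncomputable def Lseq (C0 : ℝ) (p : ℕ) (β : ℝ) (n0 : ℕ) (T0 : ℝ) : ℕ → ℝ
  | 0 => T0
  | k + 1 => 4 * C0 * lN C0 p β (n0 + k + 1)

/-- The stages. -/
structure RSt (C0 : ℝ) (p : ℕ) (β : ℝ) (n0 : ℕ) (T0 : ℝ) (V0 : Fld) (V : ℕ → Fld)
    (τ : ℕ → PT) : Prop where
  V0 : V 0 = V0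
  lo : ∀ k, (τ k).lo = 0
  hi : ∀ k, (τ k).hi = T0
  nb0 : (τ 0).nb = 1
  valid : ∀ k, (τ k).Valid (ExP C0 β (n0 + k) (V k))
    (BdP C0 β (Lseq C0 p β n0 T0 k) (n0 + k) (V k))
  nb : ∀ k, (τ (k + 1)).nb ≤
    (⌈Lseq C0 p β n0 T0 k / hN C0 β (n0 + k)⌉₊ * (6 * PN C0 p β (n0 + k) + 1)) * (τ k).nb
  bads : ∀ k, (τ (k + 1)).bads ⊆ (τ k).bads
  ends : ∀ k, (τ (k + 1)).ends ⊆ (τ k).ends ∪ (τ k).bads
  eq : ∀ k x t, t ∉ (τ k).obads → V (k + 1) x t = V k x t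
  near : ∀ k x t a, |V (k + 1) x t a - V k x t a| ≤ C0 * wN C0 β (n0 + k)

theorem exists_stages (hF : BIFacts) {C0 : ℝ} (hC : 1 ≤ C0) {p : ℕ} (hB : BlockStatement C0 p)
    {β : ℝ} {n0 : ℕ} (hP : ∀ n, n0 ≤ n → PC C0 p β n) {T0 : ℝ} (hT0 : 0 < T0) {V0 : Fld}
    (h0 : BdP C0 β T0 n0 V0 0 T0) :
    ∃ (V : ℕ → Fld) (τ : ℕ → PT), RSt C0 p β n0 T0 V0 V τ := by
  have hstep : ∀ (k : ℕ) (q : {q : Fld × PT // q.2.lo = 0 ∧ q.2.hi = T0 ∧
      q.2.Valid (ExP C0 β (n0 + k) q.1) (BdP C0 β (Lseq C0 p β n0 T0 k) (n0 + k) q.1)}),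
      ∃ q' : {q : Fld × PT // q.2.lo = 0 ∧ q.2.hi = T0 ∧
        q.2.Valid (ExP C0 β (n0 + (k + 1)) q.1)
          (BdP C0 β (Lseq C0 p β n0 T0 (k + 1)) (n0 + (k + 1)) q.1)},
        q'.1.2.nb ≤ (⌈Lseq C0 p β n0 T0 k / hN C0 β (n0 + k)⌉₊ *
          (6 * PN C0 p β (n0 + k) + 1)) * q.1.2.nb ∧
        q'.1.2.bads ⊆ q.1.2.bads ∧ q'.1.2.ends ⊆ q.1.2.ends ∪ q.1.2.bads ∧
        (∀ x t, t ∉ q.1.2.obads → q'.1.1 x t = q.1.1 x t) ∧
        ∀ x t a, |q'.1.1 x t a - q.1.1 x t a| ≤ C0 * wN C0 β (n0 + k) := by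
    rintro k ⟨⟨V, τ⟩, hlo, hhi, hval⟩
    have hPk := hP (n0 + k) (Nat.le_add_right _ _)
    have hg0 : 0 ≤ gN C0 β (n0 + k) := by
      unfold gN
      have hC0 : 0 ≤ C0 := by linarith
      positivity
    have hgg : gN C0 β (n0 + k) ≤ gN C0 β (n0 + k + 1) := by
      have := hPk.g2
      linarith
    have he : 0 ≤ C0 * wN C0 β (n0 + k) :=
      mul_nonneg (by linarith) (Real.sqrt_nonneg _)
    obtain ⟨V', τ', h1, h2, h3, h4, h5, h6, h7, h8⟩ :=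
      stage_step (G' := ExP C0 β (n0 + k + 1))
        (B' := BdP C0 β (4 * C0 * lN C0 p β (n0 + k + 1)) (n0 + k + 1))
        (ExP.cg hF C0 β (n0 + k + 1)) (BdP.cg hF C0 β _ (n0 + k + 1)) he
        (N := ⌈Lseq C0 p β n0 T0 k / hN C0 β (n0 + k)⌉₊ * (6 * PN C0 p β (n0 + k) + 1))
        hval (fun s t h => h.mono hgg) (fun s t hst h => piece_rf hF hC hB hPk hst h)
    exact ⟨⟨(V', τ'), h1.trans hlo, h2.trans hhi, h3⟩, h4, h5, h6, h7, h8⟩
  choose f hf using hstep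
  obtain ⟨seq, hs0, hs⟩ : ∃ seq : ∀ k : ℕ, {q : Fld × PT // q.2.lo = 0 ∧ q.2.hi = T0 ∧
      q.2.Valid (ExP C0 β (n0 + k) q.1) (BdP C0 β (Lseq C0 p β n0 T0 k) (n0 + k) q.1)},
      seq 0 = ⟨(V0, PT.bd 0 T0), rfl, rfl, hT0, h0⟩ ∧ ∀ k, seq (k + 1) = f k (seq k) :=
    ⟨fun k => Nat.rec ⟨(V0, PT.bd 0 T0), rfl, rfl, hT0, h0⟩ f k, rfl, fun k => rfl⟩
  refine ⟨fun k => (seq k).1.1, fun k => (seq k).1.2, ?_⟩
  refine ⟨?_, fun k => (seq k).2.1, fun k => (seq k).2.2.1, ?_, fun k => (seq k).2.2.2,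
    fun k => ?_, fun k => ?_, fun k => ?_, fun k => ?_, fun k => ?_⟩
  · show (seq 0).1.1 = V0
    rw [hs0]
  · show (seq 0).1.2.nb = 1
    rw [hs0]
    rfl
  · show (seq (k + 1)).1.2.nb ≤ _
    rw [hs]
    exact (hf k (seq k)).1
  · show (seq (k + 1)).1.2.bads ⊆ _
    rw [hs]
    exact (hf k (seq k)).2.1
  · show (seq (k + 1)).1.2.ends ⊆ _
    rw [hs]
    exact (hf k (seq k)).2.2.1
  · intro x t ht
    show (seq (k + 1)).1.1 x t = _
    rw [hs]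
    exact (hf k (seq k)).2.2.2.1 x t ht
  · intro x t a
    show |(seq (k + 1)).1.1 x t a - (seq k).1.1 x t a| ≤ _
    rw [hs]
    exact (hf k (seq k)).2.2.2.2 x t a

private theorem RSeq_gpos {C0 β : ℝ} (hC : 1 ≤ C0) {n : ℕ} (hn : 4 ≤ n) : 0 < gN C0 β n := by
  have hn' : (0 : ℝ) < n := by exact_mod_cast (by omega : 0 < n)
  have hC0 : 0 < C0 := by linarith
  have hd : 0 < del β n := by
    unfold del
    exact div_pos (Real.rpow_pos_of_pos (by norm_num) _) (by positivity)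
  have hl : (0 : ℝ) < lamN n := by
    unfold lamN
    positivity
  have hs : 0 < Real.sqrt (C0 * del β n) := Real.sqrt_pos.mpr (mul_pos hC0 hd)
  unfold gN
  positivity

private theorem RSeq_hpos {C0 β : ℝ} (hC : 1 ≤ C0) {n : ℕ} (hn : 4 ≤ n) : 0 < hN C0 β n :=
  div_pos (by positivity) (RSeq_gpos hC hn)

private theorem RSeq_step {C0 : ℝ} (hC : 1 ≤ C0) {p : ℕ} {β : ℝ} {n0 : ℕ}
    (hP : ∀ n, n0 ≤ n → PC C0 p β n) {T0 : ℝ} {V0 : Fld} {V : ℕ → Fld} {τ : ℕ → PT}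
    (h : RSt C0 p β n0 T0 V0 V τ) (k : ℕ) :
    ((τ (k + 1 + 1)).nb : ℝ) ≤
      (2 : ℝ) ^ (2 * β * ((((n0 + (k + 1) : ℕ) : ℝ) + 1) ^ 3 - ((n0 + (k + 1) : ℕ) : ℝ) ^ 3) +
        4 * (2 * ((n0 + (k + 1) : ℕ) : ℝ) + 1)) * (τ (k + 1)).nb := by
  have hPk := hP (n0 + (k + 1)) (Nat.le_add_right _ _)
  have hh := RSeq_hpos (β := β) hC hPk.n4
  have h1 : ((τ (k + 1 + 1)).nb : ℝ) ≤
      ((⌈Lseq C0 p β n0 T0 (k + 1) / hN C0 β (n0 + (k + 1))⌉₊ : ℝ) *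
        (6 * (PN C0 p β (n0 + (k + 1)) : ℝ) + 1)) * (τ (k + 1)).nb := by
    exact_mod_cast h.nb (k + 1)
  refine h1.trans (mul_le_mul_of_nonneg_right ?_ (Nat.cast_nonneg _))
  refine le_trans ?_ hPk.cnt
  refine mul_le_mul_of_nonneg_right ?_ (by positivity)
  have hL : Lseq C0 p β n0 T0 (k + 1) = 4 * C0 * lN C0 p β (n0 + (k + 1)) := rfl
  rw [hL]
  have hx : 1 ≤ 4 * C0 * lN C0 p β (n0 + (k + 1)) / hN C0 β (n0 + (k + 1)) := by
    rw [le_div_iff₀ hh, one_mul]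
    have h2 := hPk.hl
    have h3 : 0 < lN C0 p β (n0 + (k + 1)) := lt_of_lt_of_le hh h2
    nlinarith
  have h4 := (Nat.ceil_lt_add_one (by linarith :
    0 ≤ 4 * C0 * lN C0 p β (n0 + (k + 1)) / hN C0 β (n0 + (k + 1)))).le
  have h5 : 2 * (4 * C0 * lN C0 p β (n0 + (k + 1))) / hN C0 β (n0 + (k + 1)) =
      2 * (4 * C0 * lN C0 p β (n0 + (k + 1)) / hN C0 β (n0 + (k + 1))) := by ring
  rw [h5]
  linarith

/-- Counting: `nb (τ k) ≤ N* 2^(2β n³ + 4n²)`, `n = n0 + k`, for `k ≥ 1`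
(`cnt`, `⌈x⌉₊ ≤ 2x` for `x ≥ 1`, `hl`). -/
theorem RSt.count {C0 : ℝ} (hC : 1 ≤ C0) {p : ℕ} {β : ℝ} {n0 : ℕ}
    (hP : ∀ n, n0 ≤ n → PC C0 p β n) {T0 : ℝ} {V0 : Fld} {V : ℕ → Fld} {τ : ℕ → PT}
    (h : RSt C0 p β n0 T0 V0 V τ) :
    ∃ Ns : ℝ, ∀ k, 1 ≤ k → ((τ k).nb : ℝ) ≤
      Ns * (2 : ℝ) ^ (2 * β * ((n0 + k : ℕ) : ℝ) ^ 3 + 4 * ((n0 + k : ℕ) : ℝ) ^ 2) := by
  refine ⟨((τ 1).nb : ℝ) /
    (2 : ℝ) ^ (2 * β * ((n0 + 1 : ℕ) : ℝ) ^ 3 + 4 * ((n0 + 1 : ℕ) : ℝ) ^ 2), ?_⟩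
  intro k hk
  induction k, hk using Nat.le_induction with
  | base =>
    have h2 : (0 : ℝ) < (2 : ℝ) ^ (2 * β * ((n0 + 1 : ℕ) : ℝ) ^ 3 + 4 * ((n0 + 1 : ℕ) : ℝ) ^ 2) :=
      Real.rpow_pos_of_pos (by norm_num) _
    rw [div_mul_cancel₀ _ h2.ne']
  | succ k hk ih =>
    obtain ⟨j, rfl⟩ : ∃ j, k = j + 1 := ⟨k - 1, by omega⟩
    have h1 := RSeq_step hC hP h j
    refine h1.trans ?_
    have h2 : (0 : ℝ) ≤ (2 : ℝ) ^ (2 * β * ((((n0 + (j + 1) : ℕ) : ℝ) + 1) ^ 3 -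
        ((n0 + (j + 1) : ℕ) : ℝ) ^ 3) + 4 * (2 * ((n0 + (j + 1) : ℕ) : ℝ) + 1)) :=
      Real.rpow_nonneg (by norm_num) _
    refine (mul_le_mul_of_nonneg_left ih h2).trans (le_of_eq ?_)
    have h3 : 2 * β * ((n0 + (j + 1 + 1) : ℕ) : ℝ) ^ 3 + 4 * ((n0 + (j + 1 + 1) : ℕ) : ℝ) ^ 2 =
        (2 * β * ((((n0 + (j + 1) : ℕ) : ℝ) + 1) ^ 3 -
        ((n0 + (j + 1) : ℕ) : ℝ) ^ 3) + 4 * (2 * ((n0 + (j + 1) : ℕ) : ℝ) + 1)) +
        (2 * β * ((n0 + (j + 1) : ℕ) : ℝ) ^ 3 + 4 * ((n0 + (j + 1) : ℕ) : ℝ) ^ 2) := by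
      push_cast
      ring
    rw [h3, Real.rpow_add (by norm_num : (0 : ℝ) < 2)
      (2 * β * ((((n0 + (j + 1) : ℕ) : ℝ) + 1) ^ 3 -
        ((n0 + (j + 1) : ℕ) : ℝ) ^ 3) + 4 * (2 * ((n0 + (j + 1) : ℕ) : ℝ) + 1))]
    ring

end ES

end
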