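import Pool.Agent.H16.TSS.ES.LCompB
import Pool.Agent.H16.TSS.M11

/-! The parts of this file: ES.RLimD, ES.RLimA, ES.RWfA, ES.RLimB, ES.RWfC. -/

section

/-!
Project ES, Part III: abstract sequences of stages (definitions).
-/

open MeasureTheory Set Filter Topology

namespace ES

/-- An abstract sequence of stages. -/
structure LSeq (T0 : ℝ) (V : ℕ → Fld) (τ : ℕ → PT) (e Λ ε : ℕ → ℝ) (v : ℝ) : Prop where
  pos : 0 < T0
  lo : ∀ k, (τ k).lo = 0
  hi : ∀ k, (τ k).hi = T0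
  bads : ∀ k, (τ (k + 1)).bads ⊆ (τ k).bads
  ends : ∀ k, (τ (k + 1)).ends ⊆ (τ k).ends ∪ (τ k).bads
  eq : ∀ k x t, t ∉ (τ k).obads → V (k + 1) x t = V k x t
  near : ∀ k x t a, |V (k + 1) x t a - V k x t a| ≤ e k
  esum : Summable e
  vbd : ∀ k x, ∀ t ∈ Icc 0 T0, ∀ a, |V k x t a| ≤ v
  lip0 : ∀ k, 0 ≤ Λ k
  lip : ∀ k, Lp (V k) 0 T0 (Λ k)
  per : ∀ k, ∀ t ∈ Icc 0 T0, PerF (V k) t
  df : ∀ k, ∀ t ∈ Icc 0 T0, DF (V k) t
  we : ∀ k, WE (V k) 0 T0 (ε k)
  elim : Tendsto ε atTop (𝓝 0)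
  sm : ∀ k, (τ k).Valid
    (fun s t => ∀ n : ℕ, ContDiffOn ℝ n (uc (V k)) (univ ×ˢ Ioo s t)) (fun _ _ => True)

/-- The limit. -/
noncomputable def Vlim (V : ℕ → Fld) : Fld := fun x t a =>
  V 0 x t a + ∑' k, (V (k + 1) x t a - V k x t a)

end ES

end

section

/-!
Project ES, Part III, module RLimA: the limit, first properties.

`tail`: the partial sums of the telescoping series.  `eq_of_not_bad`: if `t ∉ bads (τ k)` then
`t ∉ bads (τ j) ⊇ obads (τ j)` for `j ≥ k`, so `V (j+1) = V j` at the time `t` for `j ≥ k`.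
`at_zero`, `at_T0`: `obads ⊆ Ioo lo hi` (`Valid.obads_sub`).
-/

open MeasureTheory Set Filter Topology

namespace ES

variable {T0 : ℝ} {V : ℕ → Fld} {τ : ℕ → PT} {e Λ ε : ℕ → ℝ} {v : ℝ}

namespace LSeq

theorem e_nonneg (h : LSeq T0 V τ e Λ ε v) (k : ℕ) : 0 ≤ e k :=
  (abs_nonneg _).trans (h.near k 0 0 0)

private theorem RLimA_summable (h : LSeq T0 V τ e Λ ε v) (x : Fin 2 → ℝ) (t : ℝ) (a : Fin 2) :
    Summable fun k => V (k + 1) x t a - V k x t a :=
  Summable.of_norm_bounded h.esum (fun k => by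
    rw [Real.norm_eq_abs]; exact h.near k x t a)

private theorem RLimA_sub (h : LSeq T0 V τ e Λ ε v) (k : ℕ) (x : Fin 2 → ℝ) (t : ℝ)
    (a : Fin 2) :
    Vlim V x t a - V k x t a = ∑' j, (V (j + k + 1) x t a - V (j + k) x t a) := by
  have h1 := (RLimA_summable h x t a).sum_add_tsum_nat_add k
  have h2 : ∑ i ∈ Finset.range k, (V (i + 1) x t a - V i x t a) = V k x t a - V 0 x t a :=
    Finset.sum_range_sub (fun i => V i x t a) k
  have h3 : Vlim V x t a = V 0 x t a + ∑' k, (V (k + 1) x t a - V k x t a) := rfl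
  rw [h3, ← h1, h2]
  ring

theorem tail (h : LSeq T0 V τ e Λ ε v) (k : ℕ) (x : Fin 2 → ℝ) (t : ℝ) (a : Fin 2) :
    |Vlim V x t a - V k x t a| ≤ ∑' j, e (j + k) := by
  rw [RLimA_sub h k x t a, ← Real.norm_eq_abs]
  have hs : Summable fun j => e (j + k) := (summable_nat_add_iff k).2 h.esum
  refine tsum_of_norm_bounded hs.hasSum (fun j => ?_)
  rw [Real.norm_eq_abs]
  exact h.near (j + k) x t a

/-- Off the closed bad set of stage `k` the limit is `V k`. -/
theorem eq_of_not_bad (h : LSeq T0 V τ e Λ ε v) {k : ℕ} {t : ℝ} (ht : t ∉ (τ k).bads)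
    (x : Fin 2 → ℝ) : Vlim V x t = V k x t := by
  have hb : ∀ j, t ∉ (τ (j + k)).bads := by
    intro j
    induction j with
    | zero => simpa using ht
    | succ j ih =>
      intro hmem
      apply ih
      have e1 : j + 1 + k = j + k + 1 := by ring
      rw [e1] at hmem
      exact h.bads (j + k) hmem
  funext a
  have h1 := RLimA_sub h k x t a
  have h2 : ∀ j, V (j + k + 1) x t a - V (j + k) x t a = 0 := by
    intro j
    rw [h.eq (j + k) x t (fun hm => hb j ((τ (j + k)).obads_sub_bads hm)), sub_self]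
  simp only [h2, tsum_zero] at h1
  linarith

private theorem RLimA_off (h : LSeq T0 V τ e Λ ε v) {t : ℝ} (ht : ∀ k, t ∉ (τ k).obads)
    (x : Fin 2 → ℝ) : Vlim V x t = V 0 x t := by
  funext a
  have h1 := RLimA_sub h 0 x t a
  have h2 : ∀ j, V (j + 0 + 1) x t a - V (j + 0) x t a = 0 := by
    intro j
    rw [h.eq (j + 0) x t (ht _), sub_self]
  simp only [h2, tsum_zero] at h1
  linarith

theorem at_zero (h : LSeq T0 V τ e Λ ε v) (x : Fin 2 → ℝ) : Vlim V x 0 = V 0 x 0 := by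
  refine RLimA_off h (fun k hk => ?_) x
  have h1 := (h.sm k).obads_sub hk
  rw [h.lo k] at h1
  exact lt_irrefl _ h1.1

theorem at_T0 (h : LSeq T0 V τ e Λ ε v) (x : Fin 2 → ℝ) : Vlim V x T0 = V 0 x T0 := by
  refine RLimA_off h (fun k hk => ?_) x
  have h1 := (h.sm k).obads_sub hk
  rw [h.hi k] at h1
  exact lt_irrefl _ h1.2

end LSeq

end ES

end

section

/-!
Project ES, Part III, module RWfA: continuity in time of the integrands.

`Lp.cont_on`: `Lp V s t Λ` implies joint continuity on `univ ×ˢ Icc s t`.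
`wf_cont`, `pr_cont`: continuity on `Icc s t` of parametric integrals over the compact box `Bx`
(`φ` is `C²`, so `φ`, `∂_t φ`, `∇φ` are jointly continuous, hence bounded on `Bx ×ˢ Icc s t`;
`MeasureTheory.continuousOn_of_dominated`).
-/

open MeasureTheory Set Filter Topology

namespace ES

theorem Lp.cont_on {V : Fld} {s t Λ : ℝ} (h : Lp V s t Λ) :
    ContinuousOn (uc V) (univ ×ˢ Icc s t) := by
  rw [continuousOn_pi]
  intro a
  have hL : LipschitzOnWith (Real.toNNReal (2 * |Λ|)) (fun x => uc V x a) (univ ×ˢ Icc s t) := by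
    refine LipschitzOnWith.of_dist_le_mul ?_
    rintro ⟨x, τ⟩ hx ⟨y, τ'⟩ hy
    rw [Real.coe_toNNReal _ (by positivity)]
    have h1 := h τ hx.2 τ' hy.2 x y a
    have h2 : ‖x - y‖ ≤ dist (x, τ) (y, τ') := by
      rw [← dist_eq_norm, Prod.dist_eq]; exact le_max_left _ _
    have h3 : |τ - τ'| ≤ dist (x, τ) (y, τ') := by
      rw [← Real.dist_eq, Prod.dist_eq]; exact le_max_right _ _
    have h4 : 0 ≤ ‖x - y‖ + |τ - τ'| := by positivity
    calc dist (uc V (x, τ) a) (uc V (y, τ') a) = |V x τ a - V y τ' a| := by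
          rw [Real.dist_eq]; rfl
      _ ≤ Λ * (‖x - y‖ + |τ - τ'|) := h1
      _ ≤ |Λ| * (‖x - y‖ + |τ - τ'|) := mul_le_mul_of_nonneg_right (le_abs_self _) h4
      _ ≤ |Λ| * (2 * dist (x, τ) (y, τ')) :=
          mul_le_mul_of_nonneg_left (by linarith) (abs_nonneg _)
      _ = 2 * |Λ| * dist (x, τ) (y, τ') := by ring
  exact hL.continuousOn

private theorem RWfA_param {F : (Fin 2 → ℝ) → ℝ → ℝ} {s t : ℝ}
    (hF : ContinuousOn (fun x : (Fin 2 → ℝ) × ℝ => F x.1 x.2) (univ ×ˢ Icc s t)) :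
    ContinuousOn (fun τ => ∫ x in Bx, F x τ) (Icc s t) := by
  rcases le_or_gt s t with hst | hst
  · have hc : Continuous fun τ : ℝ => max s (min t τ) := by fun_prop
    have hm : ∀ τ : ℝ, max s (min t τ) ∈ Icc s t := fun τ =>
      ⟨le_max_left _ _, max_le hst (min_le_left _ _)⟩
    have h1 : Continuous (Function.uncurry fun (τ : ℝ) (x : Fin 2 → ℝ) =>
        F x (max s (min t τ))) := by
      have h2 : Continuous fun q : ℝ × (Fin 2 → ℝ) => ((q.2, max s (min t q.1)) :
          (Fin 2 → ℝ) × ℝ) := by fun_prop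
      have h3 := hF.comp_continuous h2 (fun q => ⟨mem_univ _, hm q.1⟩)
      exact h3
    have h4 : Continuous fun τ : ℝ => ∫ x in Bx, F x (max s (min t τ)) :=
      continuous_parametric_integral_of_continuous h1 isCompact_Icc
    refine h4.continuousOn.congr fun τ hτ => ?_
    have h5 : max s (min t τ) = τ := by rw [min_eq_right hτ.2, max_eq_right hτ.1]
    simp only [h5]
  · rw [Icc_eq_empty (not_le.2 hst)]; exact continuousOn_empty _

private theorem RWfA_dt {φ : Fld} (hφ : Tst φ) (x : Fin 2 → ℝ) (τ : ℝ) (a : Fin 2) :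
    deriv (fun r => φ x r a) τ
      = fderiv ℝ (fun p : (Fin 2 → ℝ) × ℝ => φ p.1 p.2) (x, τ) (0, 1) a := by
  have h1 : HasFDerivAt (fun p : (Fin 2 → ℝ) × ℝ => φ p.1 p.2)
      (fderiv ℝ (fun p : (Fin 2 → ℝ) × ℝ => φ p.1 p.2) (x, τ)) (x, τ) :=
    (hφ.smooth.differentiable (by norm_num) _).hasFDerivAt
  have h2 : HasDerivAt (fun r : ℝ => ((x, r) : (Fin 2 → ℝ) × ℝ)) (0, 1) τ :=
    (hasDerivAt_const τ x).prodMk (hasDerivAt_id τ)
  have h3 : HasDerivAt (fun r : ℝ => φ x r)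
      (fderiv ℝ (fun p : (Fin 2 → ℝ) × ℝ => φ p.1 p.2) (x, τ) (0, 1)) τ :=
    h1.comp_hasDerivAt τ h2
  exact ((hasDerivAt_pi.1 h3) a).deriv

private theorem RWfA_dx {φ : Fld} (hφ : Tst φ) (x : Fin 2 → ℝ) (τ : ℝ) (a b : Fin 2) :
    fderiv ℝ (fun y => φ y τ a) x (Pi.single b 1)
      = fderiv ℝ (fun p : (Fin 2 → ℝ) × ℝ => φ p.1 p.2) (x, τ) (Pi.single b 1, 0) a := by
  have h1 : HasFDerivAt (fun p : (Fin 2 → ℝ) × ℝ => φ p.1 p.2)
      (fderiv ℝ (fun p : (Fin 2 → ℝ) × ℝ => φ p.1 p.2) (x, τ)) (x, τ) :=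
    (hφ.smooth.differentiable (by norm_num) _).hasFDerivAt
  have h2 : HasFDerivAt (fun y : Fin 2 → ℝ => ((y, τ) : (Fin 2 → ℝ) × ℝ))
      ((ContinuousLinearMap.id ℝ (Fin 2 → ℝ)).prod 0) x :=
    (hasFDerivAt_id x).prodMk (hasFDerivAt_const τ x)
  have h3 : HasFDerivAt (fun y : Fin 2 → ℝ => φ y τ)
      ((fderiv ℝ (fun p : (Fin 2 → ℝ) × ℝ => φ p.1 p.2) (x, τ)).comp
        ((ContinuousLinearMap.id ℝ (Fin 2 → ℝ)).prod 0)) x :=
    HasFDerivAt.comp (g := fun p : (Fin 2 → ℝ) × ℝ => φ p.1 p.2) x h1 h2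
  have h4 := (hasFDerivAt_pi'.1 h3) a
  rw [h4.fderiv]
  rfl

private theorem RWfA_cf {φ : Fld} (hφ : Tst φ) (v : (Fin 2 → ℝ) × ℝ) (a : Fin 2) :
    Continuous fun p : (Fin 2 → ℝ) × ℝ =>
      fderiv ℝ (fun p : (Fin 2 → ℝ) × ℝ => φ p.1 p.2) p v a := by
  have h1 : Continuous (fderiv ℝ (fun p : (Fin 2 → ℝ) × ℝ => φ p.1 p.2)) :=
    hφ.smooth.continuous_fderiv (by norm_num)
  have h2 : Continuous fun p : (Fin 2 → ℝ) × ℝ =>
      fderiv ℝ (fun p : (Fin 2 → ℝ) × ℝ => φ p.1 p.2) p v := h1.clm_apply continuous_const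
  exact (continuous_apply a).comp h2

theorem wf_cont {V φ : Fld} {s t : ℝ} (hV : ContinuousOn (uc V) (univ ×ˢ Icc s t)) (hφ : Tst φ) :
    ContinuousOn (fun τ => wf V φ τ) (Icc s t) := by
  unfold wf
  have hVa : ∀ a : Fin 2, ContinuousOn (fun x : (Fin 2 → ℝ) × ℝ => V x.1 x.2 a)
      (univ ×ˢ Icc s t) := fun a => continuousOn_pi.1 hV a
  refine RWfA_param (F := fun x τ => (∑ a, V x τ a * deriv (fun s => φ x s a) τ) +
    ∑ a, ∑ b, V x τ a * V x τ b * fderiv ℝ (fun y => φ y τ a) x (Pi.single b 1)) ?_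
  refine ContinuousOn.add ?_ ?_
  · refine continuousOn_finsetSum _ fun a _ => (hVa a).mul ?_
    refine (RWfA_cf hφ (0, 1) a).continuousOn.congr fun p _ => ?_
    exact RWfA_dt hφ p.1 p.2 a
  · refine continuousOn_finsetSum _ fun a _ => continuousOn_finsetSum _ fun b _ =>
      ((hVa a).mul (hVa b)).mul ?_
    refine (RWfA_cf hφ (Pi.single b 1, 0) a).continuousOn.congr fun p _ => ?_
    exact RWfA_dx hφ p.1 p.2 a b

end ES

end

section

/-!
Project ES, Part III, module RLimB: continuity, periodicity and divergence of the limit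
(uniform limits; for `DF` the convergence of the integrals over the compact box `Bx`).
-/

open MeasureTheory Set Filter Topology

namespace ES

variable {T0 : ℝ} {V : ℕ → Fld} {τ : ℕ → PT} {e Λ ε : ℕ → ℝ} {v : ℝ}

namespace LSeq

private theorem RLimB_unif (h : LSeq T0 V τ e Λ ε v) :
    TendstoUniformlyOn (fun k => uc (V k)) (uc (Vlim V)) atTop univ := by
  rw [Metric.tendstoUniformlyOn_iff]
  intro δ hδ
  have h1 := tendsto_sum_nat_add e
  filter_upwards [h1.eventually (gt_mem_nhds hδ)] with k hk x _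
  rw [dist_eq_norm, pi_norm_lt_iff hδ]
  intro a
  exact (h.tail k x.1 x.2 a).trans_lt hk

theorem cont (h : LSeq T0 V τ e Λ ε v) : ContinuousOn (uc (Vlim V)) (univ ×ˢ Icc 0 T0) := by
  refine ((RLimB_unif h).mono (subset_univ _)).continuousOn ?_
  exact (Eventually.of_forall fun k => (h.lip k).cont_on).frequently

theorem lim_per (h : LSeq T0 V τ e Λ ε v) {t : ℝ} (ht : t ∈ Icc 0 T0) : PerF (Vlim V) t := by
  intro x n
  have hp : ∀ k, V k (fun a => x a + 2 * Real.pi * n a) t = V k x t := fun k =>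
    h.per k t ht x n
  funext a
  simp only [Vlim, hp]

theorem lim_df (h : LSeq T0 V τ e Λ ε v) {t : ℝ} (ht : t ∈ Icc 0 T0) : DF (Vlim V) t := by
  intro ψ hψ hper
  have hD : ∀ a : Fin 2, Continuous fun x => fderiv ℝ ψ x (Pi.single a 1) := fun a =>
    (hψ.continuous_fderiv (by norm_num)).clm_apply continuous_const
  have hVc : ∀ k, Continuous fun x => V k x t := by
    intro k
    have h1 := (h.lip k).cont_on
    rw [← continuousOn_univ]
    exact h1.comp (f := fun x : Fin 2 → ℝ => (x, t))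
      (continuous_id.prodMk continuous_const).continuousOn (fun x _ => ⟨mem_univ _, ht⟩)
  have hBx : IsCompact Bx := isCompact_Icc
  have hlim : Tendsto (fun k => ∫ x in Bx, ∑ a, V k x t a * fderiv ℝ ψ x (Pi.single a 1)) atTop
      (𝓝 (∫ x in Bx, ∑ a, Vlim V x t a * fderiv ℝ ψ x (Pi.single a 1))) := by
    refine tendsto_integral_of_dominated_convergence
      (fun x => ∑ a, v * |fderiv ℝ ψ x (Pi.single a 1)|) ?_ ?_ ?_ ?_
    · intro k
      refine Continuous.aestronglyMeasurable ?_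
      exact continuous_finsetSum _ fun a _ =>
        ((continuous_apply a).comp (hVc k)).mul (hD a)
    · refine ContinuousOn.integrableOn_compact hBx ?_
      exact (continuous_finsetSum _ fun a _ => continuous_const.mul (hD a).abs).continuousOn
    · intro k
      refine Eventually.of_forall fun x => ?_
      refine (_root_.norm_sum_le _ _).trans (Finset.sum_le_sum fun a _ => ?_)
      rw [norm_mul, Real.norm_eq_abs, Real.norm_eq_abs]
      exact mul_le_mul_of_nonneg_right (h.vbd k x t ht a) (abs_nonneg _)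
    · refine Eventually.of_forall fun x => ?_
      refine tendsto_finsetSum _ fun a _ => Tendsto.mul_const _ ?_
      have h1 := (RLimB_unif h).tendsto_at (mem_univ (x, t))
      exact ((continuous_apply a).tendsto _).comp h1
  have h0 : ∀ k, ∫ x in Bx, ∑ a, V k x t a * fderiv ℝ ψ x (Pi.single a 1) = 0 := fun k =>
    h.df k t ht ψ hψ hper
  simp only [h0] at hlim
  exact (tendsto_nhds_unique hlim tendsto_const_nhds)

end LSeq

end ES

end

section

/-!
Project ES, Part III, module RWfC: gluing of the weak formulation.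

`WE.cat`: `∫_s^u + ∫_u^t = ∫_s^t` (`wf_cont` gives integrability) and `pr V φ t - pr V φ s` telescopes.
`PT.Valid.we`: induction on the tree (`Valid.lt`).
-/

open MeasureTheory Set Filter Topology

namespace ES

theorem WE.cat {V : Fld} {s u t ε : ℝ} (hsu : s ≤ u) (hut : u ≤ t)
    (hV : ContinuousOn (uc V) (univ ×ˢ Icc s t)) (h1 : WE V s u ε) (h2 : WE V u t ε) :
    WE V s t ε := by
  intro φ hφ Λ hΛ
  have hc := wf_cont hV hφ
  have i1 : IntervalIntegrable (fun τ => wf V φ τ) volume s u := by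
    apply ContinuousOn.intervalIntegrable
    rw [uIcc_of_le hsu]
    exact hc.mono (Icc_subset_Icc le_rfl hut)
  have i2 : IntervalIntegrable (fun τ => wf V φ τ) volume u t := by
    apply ContinuousOn.intervalIntegrable
    rw [uIcc_of_le hut]
    exact hc.mono (Icc_subset_Icc hsu le_rfl)
  have e := intervalIntegral.integral_add_adjacent_intervals i1 i2
  have a1 := h1 φ hφ Λ hΛ
  have a2 := h2 φ hφ Λ hΛ
  rw [← e]
  have e2 : (∫ τ in s..u, wf V φ τ) + (∫ τ in u..t, wf V φ τ) - (pr V φ t - pr V φ s) =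
      ((∫ τ in s..u, wf V φ τ) - (pr V φ u - pr V φ s)) +
        ((∫ τ in u..t, wf V φ τ) - (pr V φ t - pr V φ u)) := by ring
  rw [e2]
  refine (abs_add_le _ _).trans ((add_le_add a1 a2).trans (le_of_eq (by ring)))

/-- Gluing of the weak formulation over the leaves. -/
theorem PT.Valid.we {V : Fld} {ε : ℝ} {G B : ℝ → ℝ → Prop} {τ : PT} (h : τ.Valid G B)
    (hV : ContinuousOn (uc V) (univ ×ˢ Icc τ.lo τ.hi))
    (hG : ∀ s t, G s t → WE V s t ε) (hB : ∀ s t, B s t → WE V s t ε) : WE V τ.lo τ.hi ε := by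
  induction τ with
  | ex s t => exact hG s t h.2
  | bd s t => exact hB s t h.2
  | cat l r ihl ihr =>
    obtain ⟨hl, hr, he⟩ := h
    have l1 : l.lo < l.hi := hl.lt
    have l2 : r.lo < r.hi := hr.lt
    have hlo : (PT.cat l r).lo = l.lo := rfl
    have hhi : (PT.cat l r).hi = r.hi := rfl
    rw [hlo, hhi] at hV ⊢
    have h1 := ihl hl (hV.mono (prod_mono le_rfl (Icc_subset_Icc le_rfl (by rw [he]; exact l2.le))))
    have h2 := ihr hr (hV.mono (prod_mono le_rfl (Icc_subset_Icc (by rw [← he]; exact l1.le) le_rfl)))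
    rw [← he] at h2
    exact WE.cat l1.le (by rw [he]; exact l2.le) hV h1 h2

end ES

end
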