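import Pool.Agent.H16.TSS.ES.LBd_6
import Pool.Agent.H16.TSS.ES.LEv_1
import Pool.Agent.H16.TSS.M08
import Pool.Agent.H16.TSS.M14
import Pool.Agent.H16.TSS.M18
import Pool.Agent.H16.TSS.M19
import Pool.Agent.H16.TSS.M20

/-! The parts of this file: ES.RDimB, ES.RLimC, ES.RLimF, ES.RLimE, ES.R2Da, ES.V10. -/

section

/-!
Project ES, Part III, module RDimB: the dimension of the set of bad times.

`Bset τ = ⋂ k, (bads (τ k) ∪ ends (τ k))` is closed, contained in `[0,T0]`, contains `0` and `T0`, and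
is contained in `(⋂ k, bads (τ k)) ∪ ⋃ k, ends (τ k)` (use `ends_sub`: if `t ∉ bads (τ k)` for some
`k` then `t ∈ ends (τ k)`).  The second set is countable (dimension `0`, `dimH_union`,
`dimH_countable`); for the first use `dimH_le_of_covers` with the covers of stage `k ≥ k1`
(`Valid.bads_eq`, lengths `≤ Lseq k = 4 C0 lN`, `RSt.count`, `ev_dim`) for every real `d > 2β/(1-β)`.
-/

open Filter Topology

namespace ES

/-- The set of bad times. -/
def Bset (τ : ℕ → PT) : Set ℝ := ⋂ k, ((τ k).bads ∪ (τ k).ends)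

theorem Bset_closed (τ : ℕ → PT) : IsClosed (Bset τ) :=
  isClosed_iInter fun k => (PT.bads_closed (τ k)).union (PT.ends_finite (τ k)).isClosed

theorem RSt.Bset_sub {C0 : ℝ} {p : ℕ} {β : ℝ} {n0 : ℕ} {T0 : ℝ} {V0 : Fld} {V : ℕ → Fld}
    {τ : ℕ → PT} (h : RSt C0 p β n0 T0 V0 V τ) : Bset τ ⊆ Set.Icc 0 T0 := by
  intro t ht
  have h1 := Set.mem_iInter.mp ht 0
  rw [← h.lo 0, ← h.hi 0]
  rcases h1 with h2 | h2
  · exact (h.valid 0).bads_sub h2
  · exact (h.valid 0).ends_sub h2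

theorem RSt.zero_mem {C0 : ℝ} {p : ℕ} {β : ℝ} {n0 : ℕ} {T0 : ℝ} {V0 : Fld} {V : ℕ → Fld}
    {τ : ℕ → PT} (h : RSt C0 p β n0 T0 V0 V τ) : (0 : ℝ) ∈ Bset τ := by
  refine Set.mem_iInter.mpr fun k => Or.inr ?_
  have h1 := PT.lo_mem_ends (τ k)
  rwa [h.lo k] at h1

theorem RSt.T0_mem {C0 : ℝ} {p : ℕ} {β : ℝ} {n0 : ℕ} {T0 : ℝ} {V0 : Fld} {V : ℕ → Fld}
    {τ : ℕ → PT} (h : RSt C0 p β n0 T0 V0 V τ) : T0 ∈ Bset τ := by
  refine Set.mem_iInter.mpr fun k => Or.inr ?_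
  have h1 := PT.hi_mem_ends (τ k)
  rwa [h.hi k] at h1

private theorem RDimB_lN_nonneg {C0 : ℝ} (hC : 1 ≤ C0) (p : ℕ) (β : ℝ) (n : ℕ) :
    0 ≤ lN C0 p β n := by
  have hC0 : 0 ≤ C0 := by linarith
  have h1 : 0 ≤ KN n := by
    unfold KN mN
    positivity
  have h2 : 0 ≤ sigN β n := by
    unfold sigN del
    positivity
  unfold lN
  positivity

theorem RSt.dimH_le {C0 : ℝ} (hC : 1 ≤ C0) {p : ℕ} {β : ℝ} (hβ0 : 0 ≤ β) (hβ : β < 1 / 3)
    {n0 : ℕ} (hP : ∀ n, n0 ≤ n → PC C0 p β n) {T0 : ℝ} {V0 : Fld} {V : ℕ → Fld} {τ : ℕ → PT}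
    (h : RSt C0 p β n0 T0 V0 V τ) :
    dimH (Bset τ) ≤ ENNReal.ofReal (2 * β / (1 - β)) := by
  have hs0 : 0 ≤ 2 * β / (1 - β) := div_nonneg (by linarith) (by linarith)
  have hsub : Bset τ ⊆ (⋂ k, (τ k).bads) ∪ ⋃ k, (τ k).ends := by
    intro t ht
    by_cases h1 : ∀ k, t ∈ (τ k).bads
    · exact Or.inl (Set.mem_iInter.mpr h1)
    · push Not at h1
      obtain ⟨k, hk⟩ := h1
      rcases Set.mem_iInter.mp ht k with h2 | h2
      · exact absurd h2 hk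
      · exact Or.inr (Set.mem_iUnion.mpr ⟨k, h2⟩)
  have hcount : (⋃ k, (τ k).ends).Countable :=
    Set.countable_iUnion fun k => (PT.ends_finite (τ k)).countable
  refine (dimH_mono hsub).trans ?_
  rw [dimH_union, hcount.dimH_zero, max_eq_left (zero_le)]
  apply ENNReal.le_of_forall_pos_le_add
  intro ε hε _
  set d : NNReal := Real.toNNReal (2 * β / (1 - β)) + ε with hd
  have hdr : (d : ℝ) = 2 * β / (1 - β) + ε := by
    rw [hd, NNReal.coe_add, Real.coe_toNNReal _ hs0]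
  have hd' : 2 * β / (1 - β) < (d : ℝ) := by
    rw [hdr]
    have : (0 : ℝ) < ε := by exact_mod_cast hε
    linarith
  have hgoal : ENNReal.ofReal (2 * β / (1 - β)) + (ε : ENNReal) = (d : ENNReal) := by
    rw [hd, ENNReal.coe_add]
    rfl
  rw [hgoal]
  obtain ⟨n1, hn1⟩ := eventually_atTop.mp (ev_dim hC p hβ0 hβ hd')
  obtain ⟨Ns, hNs⟩ := h.count hC hP
  choose a b hab hbe using fun k => (h.valid k).bads_eq
  refine dimH_le_of_covers (fun q => (τ (q + (n1 + 1))).nb)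
    (fun q => Lseq C0 p β n0 T0 (q + (n1 + 1)))
    (fun q i => Set.Icc (a (q + (n1 + 1)) i) (b (q + (n1 + 1)) i)) ?_ ?_ ?_ ?_ |Ns| ?_
  · intro q t ht
    rw [← hbe]
    exact Set.mem_iInter.mp ht _
  · intro q
    have h1 := RDimB_lN_nonneg hC p β (n0 + (q + n1) + 1)
    change 0 ≤ 4 * C0 * lN C0 p β (n0 + (q + n1) + 1)
    have : 0 ≤ C0 := by linarith
    positivity
  · intro q i
    rw [Real.ediam_Icc]
    exact ENNReal.ofReal_le_ofReal (hab _ i).2.2.1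
  · have h1 : Tendsto (fun q : ℕ => n0 + (q + n1) + 1) atTop atTop :=
      tendsto_atTop_mono (fun q => by change q ≤ n0 + (q + n1) + 1; omega) tendsto_id
    have h2 := ((tendsto_lN hC p hβ0 hβ).comp h1).const_mul (4 * C0)
    rw [mul_zero] at h2
    exact h2
  · intro q
    have h1 := hn1 (n0 + (q + (n1 + 1))) (by omega)
    have h2 := hNs (q + (n1 + 1)) (by omega)
    have hL : 0 ≤ Lseq C0 p β n0 T0 (q + (n1 + 1)) := by
      have h1 := RDimB_lN_nonneg hC p β (n0 + (q + n1) + 1)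
      change 0 ≤ 4 * C0 * lN C0 p β (n0 + (q + n1) + 1)
      have : 0 ≤ C0 := by linarith
      positivity
    have h1' : (2 : ℝ) ^ (2 * β * ((n0 + (q + (n1 + 1)) : ℕ) : ℝ) ^ 3 +
        4 * ((n0 + (q + (n1 + 1)) : ℕ) : ℝ) ^ 2) *
        (Lseq C0 p β n0 T0 (q + (n1 + 1))) ^ (d : ℝ) ≤ 1 := h1
    have hLd : 0 ≤ (Lseq C0 p β n0 T0 (q + (n1 + 1))) ^ (d : ℝ) := Real.rpow_nonneg hL _
    have h2p : 0 ≤ (2 : ℝ) ^ (2 * β * ((n0 + (q + (n1 + 1)) : ℕ) : ℝ) ^ 3 +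
        4 * ((n0 + (q + (n1 + 1)) : ℕ) : ℝ) ^ 2) := by positivity
    calc ((τ (q + (n1 + 1))).nb : ℝ) * (Lseq C0 p β n0 T0 (q + (n1 + 1))) ^ (d : ℝ)
        ≤ Ns * (2 : ℝ) ^ (2 * β * ((n0 + (q + (n1 + 1)) : ℕ) : ℝ) ^ 3 +
            4 * ((n0 + (q + (n1 + 1)) : ℕ) : ℝ) ^ 2) *
            (Lseq C0 p β n0 T0 (q + (n1 + 1))) ^ (d : ℝ) := mul_le_mul_of_nonneg_right h2 hLd
      _ = Ns * ((2 : ℝ) ^ (2 * β * ((n0 + (q + (n1 + 1)) : ℕ) : ℝ) ^ 3 +
            4 * ((n0 + (q + (n1 + 1)) : ℕ) : ℝ) ^ 2) *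
            (Lseq C0 p β n0 T0 (q + (n1 + 1))) ^ (d : ℝ)) := by rw [mul_assoc]
      _ ≤ |Ns| * ((2 : ℝ) ^ (2 * β * ((n0 + (q + (n1 + 1)) : ℕ) : ℝ) ^ 3 +
            4 * ((n0 + (q + (n1 + 1)) : ℕ) : ℝ) ^ 2) *
            (Lseq C0 p β n0 T0 (q + (n1 + 1))) ^ (d : ℝ)) :=
          mul_le_mul_of_nonneg_right (le_abs_self _) (mul_nonneg h2p hLd)
      _ ≤ |Ns| * 1 := mul_le_mul_of_nonneg_left h1' (abs_nonneg _)
      _ = |Ns| := mul_one _

end ES

end

section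

/-!
Project ES, Part III, module RLimC: Hoelder continuity of the limit.

Let `d = ‖x-y‖ + |s-t|`.  For `k ≥ 0`, `D_k = V (k+1) - V k` satisfies
`|D_k x s a - D_k y t a| ≤ 2 e k` and `≤ (Λ k + Λ (k+1)) d`, hence `≤ (2 e k)^(1-β) ((Λ k + Λ (k+1)) d)^β`
(`a ≤ A`, `a ≤ B` imply `a = a^(1-β) a^β ≤ A^(1-β) B^β`, also for `β = 0`).  The same for `V 0` with `2 v`
and `Λ 0`.  Sum over `k`.
-/

open MeasureTheory Set Filter Topology

namespace ES

variable {T0 : ℝ} {V : ℕ → Fld} {τ : ℕ → PT} {e Λ ε : ℕ → ℝ} {v : ℝ}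

namespace LSeq

private theorem RLimC_interp {z A B d β : ℝ} (hz : 0 ≤ z) (hA : z ≤ A) (hB : z ≤ B * d)
    (hB0 : 0 ≤ B) (hd : 0 ≤ d) (hβ0 : 0 ≤ β) (hβ : β < 1) :
    z ≤ A ^ (1 - β) * B ^ β * d ^ β := by
  have h1 : z = z ^ (1 - β) * z ^ β := by
    rw [← Real.rpow_add_of_nonneg hz (by linarith) hβ0]
    simp
  rw [h1, mul_assoc, ← Real.mul_rpow hB0 hd]
  exact mul_le_mul (Real.rpow_le_rpow hz hA (by linarith)) (Real.rpow_le_rpow hz hB hβ0)
    (Real.rpow_nonneg hz _) (Real.rpow_nonneg (hz.trans hA) _)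

/-- Hoelder continuity of the limit by interpolation:
`|a| ≤ A` and `|a| ≤ B d` imply `|a| ≤ A^(1-β) (B d)^β`. -/
theorem hoelder (h : LSeq T0 V τ e Λ ε v) {β : ℝ} (hβ0 : 0 ≤ β) (hβ : β < 1)
    (hs : Summable fun k => (e k) ^ (1 - β) * (Λ k + Λ (k + 1)) ^ β) :
    ∃ C : ℝ, ∀ x y, ∀ s ∈ Icc 0 T0, ∀ t ∈ Icc 0 T0, ∀ a,
      |Vlim V x s a - Vlim V y t a| ≤ C * (‖x - y‖ + |s - t|) ^ β := by
  refine ⟨(2 * v) ^ (1 - β) * (Λ 0) ^ β +
    2 ^ (1 - β) * ∑' k, (e k) ^ (1 - β) * (Λ k + Λ (k + 1)) ^ β, ?_⟩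
  intro x y s hs' t ht a
  have hd : 0 ≤ ‖x - y‖ + |s - t| := by positivity
  have h0 : |V 0 x s a - V 0 y t a| ≤ (2 * v) ^ (1 - β) * (Λ 0) ^ β *
      (‖x - y‖ + |s - t|) ^ β := by
    refine RLimC_interp (abs_nonneg _) ?_ (h.lip 0 s hs' t ht x y a) (h.lip0 0) hd hβ0 hβ
    have h1 := h.vbd 0 x s hs' a
    have h2 := h.vbd 0 y t ht a
    calc |V 0 x s a - V 0 y t a| ≤ |V 0 x s a| + |V 0 y t a| := abs_sub _ _
      _ ≤ 2 * v := by linarith
  have hk : ∀ k, ‖(V (k + 1) x s a - V k x s a) - (V (k + 1) y t a - V k y t a)‖ ≤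
      2 ^ (1 - β) * ((e k) ^ (1 - β) * (Λ k + Λ (k + 1)) ^ β) *
        (‖x - y‖ + |s - t|) ^ β := by
    intro k
    rw [Real.norm_eq_abs]
    have h1 : |(V (k + 1) x s a - V k x s a) - (V (k + 1) y t a - V k y t a)| ≤ 2 * e k := by
      have h1 := h.near k x s a
      have h2 := h.near k y t a
      calc _ ≤ |V (k + 1) x s a - V k x s a| + |V (k + 1) y t a - V k y t a| := abs_sub _ _
        _ ≤ 2 * e k := by linarith
    have h2 : |(V (k + 1) x s a - V k x s a) - (V (k + 1) y t a - V k y t a)| ≤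
        (Λ k + Λ (k + 1)) * (‖x - y‖ + |s - t|) := by
      have h1 := h.lip k s hs' t ht x y a
      have h2 := h.lip (k + 1) s hs' t ht x y a
      have e1 : (V (k + 1) x s a - V k x s a) - (V (k + 1) y t a - V k y t a)
          = (V (k + 1) x s a - V (k + 1) y t a) - (V k x s a - V k y t a) := by ring
      rw [e1]
      calc _ ≤ |V (k + 1) x s a - V (k + 1) y t a| + |V k x s a - V k y t a| := abs_sub _ _
        _ ≤ (Λ k + Λ (k + 1)) * (‖x - y‖ + |s - t|) := by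
          rw [add_mul]; linarith
    have h3 := RLimC_interp (abs_nonneg _) h1 h2 (add_nonneg (h.lip0 k) (h.lip0 (k + 1))) hd
      hβ0 hβ
    rw [Real.mul_rpow (by norm_num) (h.e_nonneg k)] at h3
    calc _ ≤ _ := h3
      _ = _ := by ring
  have hsum : Summable fun k => 2 ^ (1 - β) * ((e k) ^ (1 - β) * (Λ k + Λ (k + 1)) ^ β) *
        (‖x - y‖ + |s - t|) ^ β := (hs.mul_left _).mul_right _
  have hD : ∀ (x : Fin 2 → ℝ) (t : ℝ), Summable fun k => V (k + 1) x t a - V k x t a :=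
    fun x t => Summable.of_norm_bounded h.esum (fun k => by
      rw [Real.norm_eq_abs]; exact h.near k x t a)
  have h1 : Vlim V x s a - Vlim V y t a = (V 0 x s a - V 0 y t a) +
      ∑' k, ((V (k + 1) x s a - V k x s a) - (V (k + 1) y t a - V k y t a)) := by
    rw [(hD x s).tsum_sub (hD y t)]
    unfold Vlim
    ring
  have h2 : |∑' k, ((V (k + 1) x s a - V k x s a) - (V (k + 1) y t a - V k y t a))| ≤
      ∑' k, 2 ^ (1 - β) * ((e k) ^ (1 - β) * (Λ k + Λ (k + 1)) ^ β) *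
        (‖x - y‖ + |s - t|) ^ β := by
    rw [← Real.norm_eq_abs]
    exact tsum_of_norm_bounded hsum.hasSum hk
  rw [h1]
  refine (abs_add_le _ _).trans ?_
  rw [tsum_mul_right, tsum_mul_left] at h2
  calc _ ≤ _ := add_le_add h0 h2
    _ = _ := by ring

end LSeq

end ES

end

section

/-!
Project ES, Part III, module RLimF: smoothness off the set of bad times.

Let `t ∈ Ioo 0 T0`, `t ∉ bads (τ k) ∪ ends (τ k)`.  By `PT.Valid.cover` there is an exact leaf `(s,u) ∋ t` with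
`V k` smooth on `univ ×ˢ Ioo s u` and `Vlim V = V k` there (`eq_of_not_bad`).  The set is open in
`univ ×ˢ Ioo 0 T0`; `ContDiffOn` is local.
-/

open MeasureTheory Set Filter Topology

namespace ES

variable {T0 : ℝ} {V : ℕ → Fld} {τ : ℕ → PT} {e Λ ε : ℕ → ℝ} {v : ℝ}

namespace LSeq

/-- Smoothness off the set of bad times (`PT.Valid.cover`, `eq_of_not_bad`). -/
theorem smooth (h : LSeq T0 V τ e Λ ε v) (n : ℕ) :
    ContDiffOn ℝ n (uc (Vlim V)) (univ ×ˢ (Ioo 0 T0 \ ⋂ k, ((τ k).bads ∪ (τ k).ends))) := by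
  rintro ⟨x, t⟩ ⟨-, ht, hnot⟩
  rw [mem_iInter] at hnot
  push Not at hnot
  obtain ⟨k, hk⟩ := hnot
  have hk1 : t ∉ (τ k).bads := fun hb => hk (Or.inl hb)
  have hk2 : t ∉ (τ k).ends := fun hb => hk (Or.inr hb)
  have htI : t ∈ Icc (τ k).lo (τ k).hi := by
    rw [h.lo k, h.hi k]; exact ⟨ht.1.le, ht.2.le⟩
  obtain ⟨s, u, hG, -, -, htsu, hbad⟩ := (h.sm k).cover htI hk1 hk2
  have hopen : IsOpen ((univ : Set (Fin 2 → ℝ)) ×ˢ Ioo s u) := isOpen_univ.prod isOpen_Ioo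
  have hmem : ((x, t) : (Fin 2 → ℝ) × ℝ) ∈ (univ : Set (Fin 2 → ℝ)) ×ˢ Ioo s u :=
    ⟨mem_univ _, htsu⟩
  have hat : ContDiffAt ℝ n (uc (V k)) (x, t) := (hG n).contDiffAt (hopen.mem_nhds hmem)
  refine (hat.congr_of_eventuallyEq ?_).contDiffWithinAt
  filter_upwards [hopen.mem_nhds hmem] with p hp
  exact h.eq_of_not_bad (hbad p.2 hp.2) p.1

end LSeq

end ES

end

section

/-!
Project ES, Part III, module RLimE: the weak formulation of the limit.

`WE (V k) 0 T0 (ε k)` with the bound `Γ` of the gradient of `φ` gives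
`|∫ wf (V k) φ - (pr (V k) φ T0 - pr (V k) φ 0)| ≤ ε k T0 Γ → 0`.
`Tst.bdd` on `[0,T0]` gives `M`; with `tail_k = ∑' j, e (j+k) → 0`,
`|∫ wf (V k) φ - ∫ wf (Vlim V) φ| ≤ T0 (2π)² M (2 + 8 v') tail_k` (`wf_sub_le`, `wf_cont` for
integrability, `v' = v + ∑ e`) and `pr_sub_le`; let `k → ∞`.
-/

open MeasureTheory Set Filter Topology

namespace ES

variable {T0 : ℝ} {V : ℕ → Fld} {τ : ℕ → PT} {e Λ ε : ℕ → ℝ} {v : ℝ}

namespace LSeq

private theorem RLimE_slice {W : Fld} {s : Set ℝ} (h : ContinuousOn (uc W) (univ ×ˢ s)) {t : ℝ}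
    (ht : t ∈ s) : Continuous fun x => W x t := by
  have h1 : Continuous fun x : Fin 2 → ℝ => ((x, t) : (Fin 2 → ℝ) × ℝ) := by fun_prop
  have h2 := h.comp_continuous h1 (fun x => ⟨mem_univ _, ht⟩)
  exact h2

theorem weak (h : LSeq T0 V τ e Λ ε v) {φ : Fld} (hφ : Tst φ) {Γ : ℝ}
    (hΓ : ∀ x τ a b, |fderiv ℝ (fun y => φ y τ a) x (Pi.single b 1)| ≤ Γ) :
    ∫ t in (0)..T0, wf (Vlim V) φ t = pr (Vlim V) φ T0 - pr (Vlim V) φ 0 := by
  obtain ⟨M, hM0, hM⟩ := Tst.bdd hφ 0 T0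
  have hT := h.pos
  have h0m : (0 : ℝ) ∈ Icc 0 T0 := ⟨le_refl _, hT.le⟩
  have hTm : T0 ∈ Icc 0 T0 := ⟨hT.le, le_refl _⟩
  set δ : ℕ → ℝ := fun k => ∑' j, e (j + k) with hδ
  have hδ0 : ∀ k, 0 ≤ δ k := fun k => tsum_nonneg fun j => h.e_nonneg _
  have hδl : Tendsto δ atTop (𝓝 0) := tendsto_sum_nat_add e
  set v' : ℝ := v + δ 0 with hv'
  have hWv : ∀ x, ∀ t ∈ Icc 0 T0, ∀ a, |Vlim V x t a| ≤ v' := by
    intro x t ht a
    have h1 := h.tail 0 x t a
    have h2 := h.vbd 0 x t ht a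
    rw [abs_le] at h1 h2 ⊢
    have h3 : ∑' j, e (j + 0) = δ 0 := rfl
    rw [h3] at h1
    constructor <;> linarith [h1.1, h1.2, h2.1, h2.2]
  have hVv : ∀ k x, ∀ t ∈ Icc 0 T0, ∀ a, |V k x t a| ≤ v' := by
    intro k x t ht a
    exact (h.vbd k x t ht a).trans (by linarith [hδ0 0])
  have hv'0 : 0 ≤ v' := (abs_nonneg _).trans (hWv 0 0 h0m 0)
  have hWc := h.cont
  have hVc : ∀ k, ContinuousOn (uc (V k)) (univ ×ˢ Icc 0 T0) := fun k => (h.lip k).cont_on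
  have hφc : ∀ t, Continuous fun x => φ x t := by
    intro t
    have h1 : Continuous fun x : Fin 2 → ℝ => ((x, t) : (Fin 2 → ℝ) × ℝ) := by fun_prop
    exact hφ.smooth.continuous.comp h1
  have hbound : ∀ k, |(∫ t in (0)..T0, wf (Vlim V) φ t) -
      (pr (Vlim V) φ T0 - pr (Vlim V) φ 0)| ≤
      ε k * (T0 - 0) * Γ + ((2 * Real.pi) ^ 2 * M * (2 * δ k + 8 * v' * δ k)) * |T0 - 0| +
        2 * (2 * (2 * Real.pi) ^ 2 * M * δ k) := by
    intro k
    have h1 := h.we k φ hφ Γ hΓ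
    have h2 : |pr (V k) φ T0 - pr (Vlim V) φ T0| ≤ 2 * (2 * Real.pi) ^ 2 * M * δ k := by
      apply pr_sub_le (fun x _ a => (hM x T0 hTm a).1) (RLimE_slice (hVc k) hTm)
        (RLimE_slice hWc hTm) (hφc T0)
      intro x _ a
      rw [abs_sub_comm]
      exact h.tail k x T0 a
    have h3 : |pr (V k) φ 0 - pr (Vlim V) φ 0| ≤ 2 * (2 * Real.pi) ^ 2 * M * δ k := by
      apply pr_sub_le (fun x _ a => (hM x 0 h0m a).1) (RLimE_slice (hVc k) h0m)
        (RLimE_slice hWc h0m) (hφc 0)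
      intro x _ a
      rw [abs_sub_comm]
      exact h.tail k x 0 a
    have hiW : IntervalIntegrable (fun t => wf (Vlim V) φ t) volume 0 T0 := by
      apply ContinuousOn.intervalIntegrable
      rw [uIcc_of_le hT.le]
      exact wf_cont hWc hφ
    have hiV : IntervalIntegrable (fun t => wf (V k) φ t) volume 0 T0 := by
      apply ContinuousOn.intervalIntegrable
      rw [uIcc_of_le hT.le]
      exact wf_cont (hVc k) hφ
    have h4 : |(∫ t in (0)..T0, wf (Vlim V) φ t) - ∫ t in (0)..T0, wf (V k) φ t| ≤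
        ((2 * Real.pi) ^ 2 * M * (2 * δ k + 8 * v' * δ k)) * |T0 - 0| := by
      rw [← intervalIntegral.integral_sub hiW hiV, ← Real.norm_eq_abs]
      apply intervalIntegral.norm_integral_le_of_norm_le_const
      intro t ht
      rw [uIoc_of_le hT.le] at ht
      have htm : t ∈ Icc 0 T0 := ⟨ht.1.le, ht.2⟩
      rw [Real.norm_eq_abs]
      apply wf_sub_le hφ (fun x _ a => (hM x t htm a).2) (RLimE_slice hWc htm)
        (RLimE_slice (hVc k) htm) (fun x _ a => ⟨hWv x t htm a, hVv k x t htm a⟩)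
      intro x _ a
      exact h.tail k x t a
    rw [abs_le] at h1 h2 h3 h4 ⊢
    constructor <;> linarith [h1.1, h1.2, h2.1, h2.2, h3.1, h3.2, h4.1, h4.2]
  have hlim : Tendsto (fun k => ε k * (T0 - 0) * Γ +
      ((2 * Real.pi) ^ 2 * M * (2 * δ k + 8 * v' * δ k)) * |T0 - 0| +
        2 * (2 * (2 * Real.pi) ^ 2 * M * δ k)) atTop (𝓝 0) := by
    have e1 : Tendsto (fun k => ε k * (T0 - 0) * Γ) atTop (𝓝 (0 * (T0 - 0) * Γ)) :=
      (h.elim.mul_const _).mul_const _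
    have e2 : Tendsto (fun k => ((2 * Real.pi) ^ 2 * M * (2 * δ k + 8 * v' * δ k)) * |T0 - 0|)
        atTop (𝓝 (((2 * Real.pi) ^ 2 * M * (2 * 0 + 8 * v' * 0)) * |T0 - 0|)) :=
      (((hδl.const_mul _).add (hδl.const_mul _)).const_mul _).mul_const _
    have e3 : Tendsto (fun k => 2 * (2 * (2 * Real.pi) ^ 2 * M * δ k)) atTop
        (𝓝 (2 * (2 * (2 * Real.pi) ^ 2 * M * 0))) := (hδl.const_mul _).const_mul _
    have e4 := (e1.add e2).add e3
    have e5 : 0 * (T0 - 0) * Γ + ((2 * Real.pi) ^ 2 * M * (2 * 0 + 8 * v' * 0)) * |T0 - 0| +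
        2 * (2 * (2 * Real.pi) ^ 2 * M * 0) = 0 := by ring
    rw [e5] at e4
    exact e4
  have hle := ge_of_tendsto' hlim hbound
  have h5 := abs_nonpos_iff.mp hle
  linarith

end LSeq

end ES

end

section

/-!
Project ES, Part III, module R2Da: the stages form an abstract sequence.

`e k = C0 wN (n0+k)`, `Λ k = gN (n0+k) (1 + 8 (1 + v))`, `v = 2 + ∑' C0 wN (n0+k)`,
`ε k = 4 (2π)² sigN (n0+k)`.  On every leaf of stage `k` the field `V k` is represented by good data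
(`ExP`, `BdP`) with `g, A ≤ gN (n0+k)`, stress `0` or `sigN`, `0 < ρ`, `0 ≤ c ≤ 1/10`
(on bad leaves `ρ = rN > 0`, `0 ≤ cN ≤ 1/200`): use `BIFacts.lip`, `per`, `divf`, `weak`, `smooth` and
`PT.Valid.lp`, `PT.Valid.we` (continuity by `Lp.cont_on`), `PT.Valid.leaf`, `PT.Valid.mono`.
-/

open MeasureTheory Set Filter Topology

namespace ES

private theorem R2Da_lp_mono {V : Fld} {s t Λ Λ' : ℝ} (h : Lp V s t Λ) (hΛ : Λ ≤ Λ') : Lp V s t Λ' := by
  intro τ hτ τ' hτ' x y a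
  refine (h τ hτ τ' hτ' x y a).trans (mul_le_mul_of_nonneg_right hΛ ?_)
  positivity

private theorem R2Da_we_mono {V : Fld} {s t ε ε' : ℝ} (h : WE V s t ε) (hst : s ≤ t) (hε : ε ≤ ε') :
    WE V s t ε' := by
  intro φ hφ Λ hΛ
  have hΛ0 : 0 ≤ Λ := (abs_nonneg _).trans (hΛ 0 0 0 0)
  refine (h φ hφ Λ hΛ).trans ?_
  exact mul_le_mul_of_nonneg_right (mul_le_mul_of_nonneg_right hε (sub_nonneg.2 hst)) hΛ0

/-- common form of the two kinds of pieces -/
private theorem R2Da_piece {C0 : ℝ} {β Lm : ℝ} {n : ℕ} (hn : 4 ≤ n) {V : Fld} {s t : ℝ}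
    (h : ExP C0 β n V s t ∨ BdP C0 β Lm n V s t) :
    ∃ lam g σ ρ c A : ℝ, BI V s t lam g σ ρ c A ∧ 0 < ρ ∧ 0 ≤ c ∧ c ≤ 1 / 10 ∧ g ≤ gN C0 β n ∧
      A ≤ gN C0 β n ∧ σ ≤ sigN β n := by
  rcases h with ⟨lam, g, ρ, c, A, h1, h2, h3, h4, h5, h6⟩ | ⟨_, _, lam, g, _, _, _, h1, h2⟩
  · exact ⟨lam, g, 0, ρ, c, A, h1, h2, h3, h4, h5, h6, (sigN_pos β n).le⟩
  · have h0 : (0 : ℝ) < n := by exact_mod_cast (by omega : 0 < n)
    have h3 : (0 : ℝ) ≤ (1 / 2) ^ n := by positivity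
    have h4 : ((1 : ℝ) / 2) ^ n ≤ 1 := pow_le_one₀ (by norm_num) (by norm_num)
    refine ⟨lam, g, sigN β n, rN n, cN n, gN C0 β n, h2, ?_, ?_, ?_, h1, le_rfl, le_rfl⟩
    · unfold rN
      positivity
    · unfold cN
      linarith
    · unfold cN
      linarith

theorem RSt.lseq (hF : BIFacts) {C0 : ℝ} (hC : 1 ≤ C0) {p : ℕ} {β : ℝ} (hβ0 : 0 ≤ β)
    (hβ : β < 1 / 3) {n0 : ℕ} (hP : ∀ n, n0 ≤ n → PC C0 p β n) {T0 : ℝ} (hT0 : 0 < T0)
    {V0 : Fld} (hV0 : ∀ x t a, |V0 x t a| ≤ 2) {V : ℕ → Fld} {τ : ℕ → PT}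
    (h : RSt C0 p β n0 T0 V0 V τ) :
    ∃ v : ℝ, LSeq T0 V τ (fun k => C0 * wN C0 β (n0 + k))
      (fun k => gN C0 β (n0 + k) * (1 + 8 * (1 + v)))
      (fun k => 4 * (2 * Real.pi) ^ 2 * sigN β (n0 + k)) v ∧ 0 ≤ v := by
  have hsum : Summable fun k : ℕ => C0 * wN C0 β (n0 + k) := by
    have h1 := (summable_nat_add_iff n0).2 (summable_wN hC hβ0)
    refine (h1.congr fun k => ?_).mul_left C0
    rw [add_comm]
  have he0 : ∀ k : ℕ, 0 ≤ C0 * wN C0 β (n0 + k) := fun k =>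
    mul_nonneg (by linarith) (wN_pos hC β _).le
  have hn4 : ∀ k : ℕ, 4 ≤ n0 + k := fun k => (hP (n0 + k) (Nat.le_add_right _ _)).n4
  obtain ⟨v, hv⟩ : ∃ v, v = 2 + ∑' k, C0 * wN C0 β (n0 + k) := ⟨_, rfl⟩
  have hv0 : 0 ≤ v := by
    have : 0 ≤ ∑' k, C0 * wN C0 β (n0 + k) := tsum_nonneg he0
    linarith
  have hbd : ∀ k x t a, |V k x t a| ≤ v := by
    intro k x t a
    have h1 : ∀ k, |V k x t a| ≤ 2 + ∑ j ∈ Finset.range k, C0 * wN C0 β (n0 + j) := by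
      intro k
      induction k with
      | zero =>
        rw [h.V0]
        simpa using hV0 x t a
      | succ k ih =>
        rw [Finset.sum_range_succ]
        have h2 := h.near k x t a
        have h3 : |V (k + 1) x t a| ≤ |V k x t a| + |V (k + 1) x t a - V k x t a| := by
          have h4 : V (k + 1) x t a = V k x t a + (V (k + 1) x t a - V k x t a) := by ring
          calc |V (k + 1) x t a| = |V k x t a + (V (k + 1) x t a - V k x t a)| := by rw [← h4]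
            _ ≤ _ := abs_add_le _ _
        linarith
    have h2 : ∑ j ∈ Finset.range k, C0 * wN C0 β (n0 + j) ≤ ∑' k, C0 * wN C0 β (n0 + k) :=
      hsum.sum_le_tsum _ fun j _ => he0 j
    have h3 := h1 k
    linarith
  have hlip : ∀ k, Lp (V k) 0 T0 (gN C0 β (n0 + k) * (1 + 8 * (1 + v))) := by
    intro k
    have key : ∀ s t, ExP C0 β (n0 + k) (V k) s t ∨ BdP C0 β (Lseq C0 p β n0 T0 k) (n0 + k) (V k) s t →
        Lp (V k) s t (gN C0 β (n0 + k) * (1 + 8 * (1 + v))) := by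
      intro s t hs
      obtain ⟨lam, g, σ, ρ, c, A, h1, h2, h3, h4, h5, h6, _⟩ := R2Da_piece (hn4 k) hs
      refine R2Da_lp_mono (hF.lip (V k) s t lam g σ ρ c A v h1 h2 h3 h4 fun x t _ a => hbd k x t a) ?_
      have h7 : g * (1 + v) ≤ gN C0 β (n0 + k) * (1 + v) := mul_le_mul_of_nonneg_right h5 (by linarith)
      nlinarith
    have h1 := (h.valid k).lp (fun s t hs => key s t (Or.inl hs)) fun s t hs => key s t (Or.inr hs)
    rw [h.lo, h.hi] at h1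
    exact h1
  have hleaf : ∀ k, ∀ t ∈ Icc 0 T0, ∃ s u, (ExP C0 β (n0 + k) (V k) s u ∨
      BdP C0 β (Lseq C0 p β n0 T0 k) (n0 + k) (V k) s u) ∧ t ∈ Icc s u := by
    intro k t ht
    obtain ⟨s, u, h1, _, _, _, h2⟩ := (h.valid k).leaf (by rw [h.lo, h.hi]; exact ht)
    exact ⟨s, u, h1, h2⟩
  refine ⟨v, ?_, hv0⟩
  exact
    { pos := hT0
      lo := h.lo
      hi := h.hi
      bads := h.bads
      ends := h.ends
      eq := h.eq
      near := h.near
      esum := hsum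
      vbd := fun k x t _ a => hbd k x t a
      lip0 := fun k => mul_nonneg (gN_pos hC β (by have := hn4 k; omega)).le (by linarith)
      lip := hlip
      per := fun k t ht => by
        obtain ⟨s, u, h1, h2⟩ := hleaf k t ht
        obtain ⟨lam, g, σ, ρ, c, A, h3, _⟩ := R2Da_piece (hn4 k) h1
        exact hF.per (V k) s u lam g σ ρ c A h3 t h2
      df := fun k t ht => by
        obtain ⟨s, u, h1, h2⟩ := hleaf k t ht
        obtain ⟨lam, g, σ, ρ, c, A, h3, h4, h5, h6, _⟩ := R2Da_piece (hn4 k) h1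
        exact hF.divf (V k) s u lam g σ ρ c A h3 h4 h5 h6 t h2
      we := fun k => by
        have key : ∀ s t, ExP C0 β (n0 + k) (V k) s t ∨
            BdP C0 β (Lseq C0 p β n0 T0 k) (n0 + k) (V k) s t →
            WE (V k) s t (4 * (2 * Real.pi) ^ 2 * sigN β (n0 + k)) := by
          intro s t hs
          obtain ⟨lam, g, σ, ρ, c, A, h1, h2, h3, h4, _, _, h5⟩ := R2Da_piece (hn4 k) hs
          have hst : s < t := by
            obtain ⟨d, hd, _⟩ := h1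
            exact hd.ht
          refine R2Da_we_mono (hF.weak (V k) s t lam g σ ρ c A h1 h2 h3 h4) hst.le ?_
          exact mul_le_mul_of_nonneg_left h5 (by positivity)
        have h1 := PT.Valid.we (h.valid k) (by rw [h.lo, h.hi]; exact (hlip k).cont_on)
          (fun s t hs => key s t (Or.inl hs)) fun s t hs => key s t (Or.inr hs)
        rw [h.lo, h.hi] at h1
        exact h1
      elim := by
        have h1 : Tendsto (fun k : ℕ => n0 + k) atTop atTop := tendsto_atTop_mono (fun k => Nat.le_add_left k n0) tendsto_id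
        have h2 := ((tendsto_sigN hβ0).comp h1).const_mul (4 * (2 * Real.pi) ^ 2)
        rw [mul_zero] at h2
        exact h2
      sm := fun k => (h.valid k).mono
        (fun s t _ _ hs n => by
          obtain ⟨lam, g, ρ, c, A, h1, h2, h3, h4, _, _⟩ := hs
          exact hF.smooth (V k) s t lam g ρ c A h1 h2 h3 h4 n)
        fun _ _ _ _ _ => trivial }

end ES

end

section

/-!
ES-V10 (Part II, helper27): the elementary facts `mono`, `restrict`, `congr`.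

`mono`: same data; `Bd.mono`, `Bd.weaken` (constant radii, `ρ' ≤ ρ`), `KB` monotone.
`restrict`: data `d.tcl s0 s1`.  All derived quantities commute with `tcl` (`tcomp_*` lemmas of
LTime): `(d.tcl s0 s1).F a b = tcl s0 s1 (d.F a b)` etc.  `TD`: `TD.mono` and `TD.congr` (on the open
interval the clamp is the identity).  `Cl.tcl`.  Bounds `Bd.tcomp`.  `Rep`: `evR_tcomp`, `clp_of_mem`.
-/

namespace ES

theorem fact_mono (V : Fld) (t0 t1 lam g σ ρ c A lam' g' σ' ρ' c' A' : ℝ)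
    (h : BI V t0 t1 lam g σ ρ c A) (h0 : 0 < lam) (h1 : lam ≤ lam') (h2 : g ≤ g')
    (h3 : g / lam ≤ g' / lam') (h4 : σ ≤ σ') (h5 : ρ' ≤ ρ) (h6 : 0 ≤ ρ') (h7 : c ≤ c')
    (h8 : A ≤ A') : BI V t0 t1 lam' g' σ' ρ' c' A' := by
  obtain ⟨d, hd, hr⟩ := h
  have hw : ∀ {f : WT} {x y : ℝ}, Bd 0 (cr ρ) f x → x ≤ y → Bd 0 (cr ρ') f y := by
    intro f x y hf hxy
    exact (hf.weaken le_rfl fun _ => h5).mono hxy
  have hfin : ∀ {f : WT}, Fin0 ρ f → Fin0 ρ' f := by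
    rintro f ⟨y, hy⟩
    exact ⟨y, hw hy le_rfl⟩
  refine ⟨d, ?_, hr⟩
  exact
    { ht := hd.ht
      kb := fun a j => (hd.kb a j).trans h1
      k0 := hd.k0
      levξ := hd.levξ
      levU := hd.levU
      levv := hd.levv
      levp := hd.levp
      levR := hd.levR
      rξ := hd.rξ
      rU := hd.rU
      rv := hd.rv
      rp := hd.rp
      rR := hd.rR
      cξ := hd.cξ
      cU := hd.cU
      cv := hd.cv
      cp := hd.cp
      cR := hd.cR
      fξ := fun a => hfin (hd.fξ a)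
      fU := fun a => hfin (hd.fU a)
      fv := fun a => hfin (hd.fv a)
      fp := hfin hd.fp
      symm := hd.symm
      tdξ := hd.tdξ
      tdv := hd.tdv
      det := hd.det
      div := hd.div
      bF := fun a b => hw (hd.bF a b) h7
      bB := fun a => hw (hd.bB a) h3
      bG := fun a b => hw (hd.bG a b) h2
      bR := fun a b => hw (hd.bR a b) h4
      bA := fun a => hw (hd.bA a) h8 }

theorem fact_congr (V V' : Fld) (t0 t1 lam g σ ρ c A : ℝ) (h : BI V t0 t1 lam g σ ρ c A)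
    (h' : ∀ x, ∀ t ∈ Set.Icc t0 t1, V' x t = V x t) : BI V' t0 t1 lam g σ ρ c A := by
  obtain ⟨d, hd, hr⟩ := h
  refine ⟨d, hd, fun t ht => ⟨(hr t ht).1, fun z a => ?_⟩⟩
  rw [h' _ t ht]
  exact (hr t ht).2 z a

private theorem v10_add (a b : ℝ) (f h : WT) :
    ES.tcl a b (f + h) = ES.tcl a b f + ES.tcl a b h := tcomp_add _ f h

private theorem v10_neg (a b : ℝ) (f : WT) : ES.tcl a b (-f) = -ES.tcl a b f := tcomp_neg _ f

private theorem v10_sub (a b : ℝ) (f h : WT) :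
    ES.tcl a b (f - h) = ES.tcl a b f - ES.tcl a b h := tcomp_sub _ f h

private theorem v10_mul (a b : ℝ) (f h : WT) :
    ES.tcl a b (f * h) = ES.tcl a b f * ES.tcl a b h := tcomp_mul _ f h

private theorem v10_one (a b : ℝ) : ES.tcl a b 1 = 1 := tcomp_one _

private theorem v10_zero (a b : ℝ) : ES.tcl a b 0 = 0 := tcomp_zero _

private theorem v10_sum (a b : ℝ) (f : Fin 2 → WT) :
    ES.tcl a b (∑ j, f j) = ∑ j, ES.tcl a b (f j) := tcomp_sum _ _ f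

private theorem v10_D (a b : ℝ) (κ : Kp) (c : Fin 2) (f : WT) :
    ES.tcl a b (D κ c f) = D κ c (ES.tcl a b f) := tcomp_D _ κ c f

private theorem v10_F (d : Dat) (s0 s1 : ℝ) (a b : Fin 2) :
    (d.tcl s0 s1).F a b = ES.tcl s0 s1 (d.F a b) := by
  show idm a b + D d.κ b (ES.tcl s0 s1 (d.ξ a)) = ES.tcl s0 s1 (idm a b + D d.κ b (d.ξ a))
  rw [v10_add, v10_D]
  congr 1
  unfold idm
  split_ifs
  · rw [v10_one]
  · rw [v10_zero]

private theorem v10_adj (F F' : Mat) (s0 s1 : ℝ) (h : ∀ a b, F' a b = ES.tcl s0 s1 (F a b))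
    (a b : Fin 2) : adj F' a b = ES.tcl s0 s1 (adj F a b) := by
  unfold adj
  split_ifs
  · exact h _ _
  · rw [v10_neg, h]
  · rw [v10_neg, h]
  · exact h _ _

private theorem v10_M (d : Dat) (s0 s1 : ℝ) (a b : Fin 2) :
    (d.tcl s0 s1).M a b = ES.tcl s0 s1 (d.M a b) :=
  v10_adj _ _ _ _ (v10_F d s0 s1) a b

private theorem v10_B (d : Dat) (s0 s1 : ℝ) (a : Fin 2) :
    (d.tcl s0 s1).B a = ES.tcl s0 s1 (d.B a) := by
  show ∑ b, (d.tcl s0 s1).M a b * (ES.tcl s0 s1 (d.v b) - ES.tcl s0 s1 (d.U b)) =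
    ES.tcl s0 s1 (∑ b, d.M a b * (d.v b - d.U b))
  rw [v10_sum]
  refine Finset.sum_congr rfl fun b _ => ?_
  rw [v10_mul, v10_sub, v10_M]

private theorem v10_G (d : Dat) (s0 s1 : ℝ) (a b : Fin 2) :
    (d.tcl s0 s1).G a b = ES.tcl s0 s1 (d.G a b) := (v10_D s0 s1 d.κ b (d.v a)).symm

private theorem v10_acc (d : Dat) (s0 s1 : ℝ) (a : Fin 2) :
    (d.tcl s0 s1).acc a = ES.tcl s0 s1 (d.acc a) := by
  show -(∑ j, (d.tcl s0 s1).M j a * D d.κ j (ES.tcl s0 s1 d.p)) +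
      ∑ j, D d.κ j (∑ k, ES.tcl s0 s1 (d.R a k) * (d.tcl s0 s1).M j k) =
    ES.tcl s0 s1 (-(∑ j, d.M j a * D d.κ j d.p) + ∑ j, D d.κ j (∑ k, d.R a k * d.M j k))
  rw [v10_add, v10_neg, v10_sum, v10_sum]
  congr 1
  · congr 1
    refine Finset.sum_congr rfl fun j _ => ?_
    rw [v10_mul, v10_D, v10_M]
  · refine Finset.sum_congr rfl fun j _ => ?_
    rw [v10_D, v10_sum]
    congr 1
    refine Finset.sum_congr rfl fun k _ => ?_
    rw [v10_mul, v10_M]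

private theorem v10_rhs (d : Dat) (s0 s1 : ℝ) (a : Fin 2) :
    (d.tcl s0 s1).rhs a = ES.tcl s0 s1 (d.rhs a) := by
  show (d.tcl s0 s1).acc a - ∑ b, (d.tcl s0 s1).B b * D d.κ b (ES.tcl s0 s1 (d.v a)) =
    ES.tcl s0 s1 (d.acc a - ∑ b, d.B b * D d.κ b (d.v a))
  rw [v10_sub, v10_sum, v10_acc]
  congr 1
  refine Finset.sum_congr rfl fun b _ => ?_
  rw [v10_mul, v10_D, v10_B]

private theorem v10_TD {t0 t1 s0 s1 : ℝ} (h0 : t0 ≤ s0) (h2 : s1 ≤ t1) {f f' : WT}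
    (h : TD t0 t1 f f') : TD s0 s1 (ES.tcl s0 s1 f) (ES.tcl s0 s1 f') := by
  refine (h.mono h0 h2).congr (fun ν t ht => ?_) (fun ν t ht => ?_)
  · show f.co ν (clp s0 s1 t) = f.co ν t
    rw [clp_of_mem (Set.Ioo_subset_Icc_self ht)]
  · show f'.co ν (clp s0 s1 t) = f'.co ν t
    rw [clp_of_mem (Set.Ioo_subset_Icc_self ht)]

private theorem v10_lev {i : ℕ} {f : WT} (s0 s1 : ℝ) (h : Lev i f) : Lev i (ES.tcl s0 s1 f) :=
  h.tcomp _

private theorem v10_bd {ρ c : ℝ} {f : WT} (s0 s1 : ℝ) (h : Bd 0 (cr ρ) f c) :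
    Bd 0 (cr ρ) (ES.tcl s0 s1 f) c := h.tcomp _

private theorem v10_fin {ρ : ℝ} {f : WT} (s0 s1 : ℝ) (h : Fin0 ρ f) :
    Fin0 ρ (ES.tcl s0 s1 f) := by
  obtain ⟨y, hy⟩ := h
  exact ⟨y, v10_bd s0 s1 hy⟩

/-- Restriction of good data to a subinterval. -/
theorem Good.tclV {d : Dat} {t0 t1 lam g σ ρ c A : ℝ} (h : Good d t0 t1 lam g σ ρ c A) {s0 s1 : ℝ}
    (h0 : t0 ≤ s0) (h1 : s0 < s1) (h2 : s1 ≤ t1) : Good (d.tcl s0 s1) s0 s1 lam g σ ρ c A := by
  exact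
    { ht := h1
      kb := h.kb
      k0 := h.k0
      levξ := fun a => v10_lev s0 s1 (h.levξ a)
      levU := fun a => v10_lev s0 s1 (h.levU a)
      levv := fun a => v10_lev s0 s1 (h.levv a)
      levp := v10_lev s0 s1 h.levp
      levR := fun a b => v10_lev s0 s1 (h.levR a b)
      rξ := fun a => (h.rξ a).tcl
      rU := fun a => (h.rU a).tcl
      rv := fun a => (h.rv a).tcl
      rp := h.rp.tcl
      rR := fun a b => (h.rR a b).tcl
      cξ := fun a => Cl.tcl h1.le (d.ξ a)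
      cU := fun a => Cl.tcl h1.le (d.U a)
      cv := fun a => Cl.tcl h1.le (d.v a)
      cp := Cl.tcl h1.le d.p
      cR := fun a b => Cl.tcl h1.le (d.R a b)
      fξ := fun a => v10_fin s0 s1 (h.fξ a)
      fU := fun a => v10_fin s0 s1 (h.fU a)
      fv := fun a => v10_fin s0 s1 (h.fv a)
      fp := v10_fin s0 s1 h.fp
      symm := fun a b => congrArg (ES.tcl s0 s1) (h.symm a b)
      tdξ := fun a => v10_TD h0 h2 (h.tdξ a)
      tdv := fun a => by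
        rw [v10_rhs]
        exact v10_TD h0 h2 (h.tdv a)
      det := by
        have h3 := congrArg (ES.tcl s0 s1) h.det
        unfold det2 at h3 ⊢
        rw [v10_sub, v10_mul, v10_mul, v10_one] at h3
        rw [v10_F, v10_F, v10_F, v10_F]
        exact h3
      div := by
        have h3 := congrArg (ES.tcl s0 s1) h.div
        unfold dvg at h3 ⊢
        rw [v10_sum, v10_zero] at h3
        rw [← h3]
        refine Finset.sum_congr rfl fun a _ => ?_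
        rw [v10_D, v10_B]
        rfl
      bF := fun a b => by
        have h3 := v10_bd s0 s1 (h.bF a b)
        have e : grad (d.tcl s0 s1).κ (d.tcl s0 s1).ξ a b = ES.tcl s0 s1 (grad d.κ d.ξ a b) :=
          (v10_D s0 s1 d.κ b (d.ξ a)).symm
        rw [e]
        exact h3
      bB := fun a => by
        rw [v10_B]
        exact v10_bd s0 s1 (h.bB a)
      bG := fun a b => by
        rw [v10_G]
        exact v10_bd s0 s1 (h.bG a b)
      bR := fun a b => v10_bd s0 s1 (h.bR a b)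
      bA := fun a => by
        rw [v10_acc]
        exact v10_bd s0 s1 (h.bA a) }

private theorem v10_evR (κ : Kp) (f : WT) (z : Fin 2 → ℝ) {s0 s1 t : ℝ}
    (ht : t ∈ Set.Icc s0 s1) : evR κ (ES.tcl s0 s1 f) z t = evR κ f z t := by
  have h : evR κ (ES.tcl s0 s1 f) z t = evR κ f z (clp s0 s1 t) :=
    congrArg Complex.re (ev_tcomp κ ⟨clp s0 s1, clp_continuous s0 s1⟩ f z t)
  rw [h, clp_of_mem ht]

theorem fact_restrict (V : Fld) (t0 t1 s0 s1 lam g σ ρ c A : ℝ)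
    (h : BI V t0 t1 lam g σ ρ c A) (h0 : t0 ≤ s0) (h1 : s0 < s1) (h2 : s1 ≤ t1) :
    BI V s0 s1 lam g σ ρ c A := by
  obtain ⟨d, hd, hr⟩ := h
  refine ⟨d.tcl s0 s1, hd.tclV h0 h1 h2, fun t ht => ?_⟩
  have ht' : t ∈ Set.Icc t0 t1 := ⟨h0.trans ht.1, ht.2.trans h2⟩
  have e : Xm (d.tcl s0 s1) t = Xm d t := by
    funext z a
    show z a + evR d.κ (ES.tcl s0 s1 (d.ξ a)) z t = z a + evR d.κ (d.ξ a) z t
    rw [v10_evR _ _ _ ht]
  refine ⟨by rw [e]; exact (hr t ht').1, fun z a => ?_⟩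
  rw [e, (hr t ht').2 z a]
  exact (v10_evR d.κ (d.v a) z ht).symm

end ES

end
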