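import Pool.Agent.H16.TSS.ES.LBd_6
import Pool.Agent.H16.TSS.ES.LPic
import Pool.Agent.H16.TSS.ES.SEx
import Pool.Agent.H16.TSS.ES.SLip_1
import Pool.Agent.H16.TSS.ES.SW
import Pool.Agent.H16.TSS.M12

/-! The parts of this file: ES.SEx_3, ES.SEx_2. -/

section

/-!
ES-SEx: existence of the solution of the sub-block system (EW 2, Lemma 2.3) by `fixpt` with
`ι = Fin 5 × Fin 2` (components ζ, E, W, a, q), powers `k = 2,1,1,0,0`, weights
`1/(512 lam K)`, `w`, `w`, `G w`, `G w`, `G = 10^6 K² g`, radius `r = P.r ρ0 m`,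
start `x0 = (ζa, Ea, χ W0, 0, 0)`.
 (S1) `N2(T ζ - ζa) ≤ h K N1(comp B + P E) ≤ h K (K g/lam + 3 w) ≤ 4 K² h g / lam` (`Bd.intg_gain`);
      differences: `≤ h K s (K g/lam + 3w)`.
 (S2),(S3) `N1 ≤ h K N0(a) ≤ h K G w`;  differences `h K s G w`;  `|χ| ≤ 1`.
 (S4) `N0 ≤ 2 (10^5 K² g w + 0.048 G w) ≤ G w / 2`;
      differences `≤ 2 (10^5 s K² g w + 0.0525 s G w) ≤ s G w / 2`.
 The constraint `Q` is the conjunction of the closed conditions of `SB0` (levels, mean of W,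
 reality, clamping, and: `b = 0 → W = 0, osc a = 0, osc q = 0`).
-/

open scoped BoundedContinuousFunction

namespace ES

/-! admissible elements: level, reality, clamping -/

section ok
variable {a b : ℝ} {n : ℕ} {f g : WT}

theorem ExOk.comp {κ : Kp} {lam r0 z : ℝ} {r : ℝ → ℝ} {ζ : Vec} (H : CH κ lam r0 z r ζ)
    (hζ : ∀ j, ExOk a b n (ζ j)) {c : ℝ} (hb : Bd 0 (fun t => r t + z) f c)
    (hf : ExOk a b n f) : ExOk a b n (ES.comp κ ζ f) :=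
  ⟨Lev.comp H (fun j => (hζ j).l) hb hf.l, IsR.comp H (fun j => (hζ j).r) hb hf.r,
    Cl.comp H (fun j => (hζ j).c) hb hf.c⟩

end ok

/-! the data are admissible -/

section data
variable {d : Dat} {t0 t1 lam g σ ρ c A : ℝ}

variable {m r0 : ℝ} {r : ℝ → ℝ} {ζ : Vec}

theorem ex_wk (H : DH d lam g σ c m r0 r) {f : WT} {e : ℝ}
    (hf : Bd 0 (fun t => r t + 2 * m) f e) : Bd 0 (fun t => r t + m) f e :=
  hf.weaken le_rfl fun t => by have := H.hm; show r t + m ≤ r t + 2 * m; linarith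

end data

section rhs

end rhs

/-! cutoff and initial wave -/

private theorem ex_sn (a b : ℝ) (i : ℕ) : ExOk a b (i + 1) (sn i) :=
  ⟨sn_lev i, sn_real i, ((ex_eb a b _).sub (ex_eb a b _)).smul _⟩

theorem ex_W0 {P : SB} {a b : ℝ} (hb : ExOk a b P.d.i P.b) (j : Fin 2) :
    ExOk a b (P.d.i + 1) (P.W0 j) := by
  have h1 : ExOk a b (P.d.i + 1) (P.b * sn P.d.i) := (hb.mono (Nat.le_succ _)).mul (ex_sn a b _)
  have h2 := ((h1.rsmul (Real.sqrt 2)).dp P.κ' j).rsmul ((P.L : ℝ)⁻¹)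
  rw [Complex.ofReal_inv, Complex.ofReal_natCast] at h2
  exact h2

theorem ex_mean_W0 {P : SB} (hb : Lev P.d.i P.b) (j : Fin 2) : mean P.d.i (P.W0 j) = 0 := by
  unfold SB.W0
  rw [map_smul, ex_mean_dp, map_smul, mean_mul_left P.d.i (hb.osc le_rfl), sn_mean, mul_zero,
    smul_zero, map_zero, smul_zero]

/-! the map -/

noncomputable def exZ (P : SB) (ζ E : Vec) : Vec := fun j =>
  P.ζa j + intg P.ta P.tb (comp P.d.κ ζ (P.d.B j) + mulv (Pm P.d ζ) E j)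

section cn
variable {P : SB} {lam g σ ρ c A ρ0 m w η : ℝ} {ζ E W a q : Vec}

theorem ex_start (H : SBH P lam g σ ρ c A ρ0 m w η) :
    ExCn P P.ζa P.Ea (fun j => cst P.χ * P.W0 j) 0 0 := by
  have hb : ExOk P.ta P.tb P.d.i P.b := ExOk.of_frz H.bl H.br H.bt
  refine ⟨fun j => ExOk.of_frz (H.zl j) (H.zr j) (H.zt j),
    fun j => ExOk.of_frz (H.el j) (H.er j) (H.et j),
    fun j => (ex_chi H.h1 H.h2 H.h3 _).mul (ex_W0 hb j), fun j => ExOk.zero, fun j => ExOk.zero,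
    fun j => ?_, fun h0 j => ⟨?_, Lev.zero _, Lev.zero _⟩⟩
  · rw [ex_mean_cst, ex_mean_W0 H.bl, mul_zero]
  · show cst P.χ * P.W0 j = 0
    rw [W0_zero P h0 j, mul_zero]

end cn

/-! closedness -/

theorem ex_ok_cl {a b : ℝ} {n : ℕ} {x : ℕ → WT} {y : WT} (hx : ∀ k, ExOk a b n (x k))
    (h : ∀ ν t, Filter.Tendsto (fun k => (x k).co ν t) Filter.atTop (nhds (y.co ν t))) :
    ExOk a b n y :=
  ⟨Lev_of_tendsto (fun k => (hx k).l) h, IsR_of_tendsto (fun k => (hx k).r) h,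
    Cl_of_tendsto (fun k => (hx k).c) h⟩

/-! indexing by `Fin 5 × Fin 2` -/

/-! numerical facts, `K = 1 + 1/m` -/

section est
variable {P : SB} {lam g σ ρ c A ρ0 m w η s : ℝ} {ζ E W a q ζ' E' W' a' q' : Vec}

theorem ex_rle (H : SBH P lam g σ ρ c A ρ0 m w η) (t : ℝ) : P.r ρ0 m t ≤ ρ0 :=
  rad_le (ex_hab H) H.hm.le t

/-- Gain by time integration. -/
theorem ex_gain (H : SBH P lam g σ ρ c A ρ0 m w η) {k : ℕ} {f : WT} {e : ℝ}
    (hf : Bd k (P.r ρ0 m) f e) :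
    Bd (k + 1) (P.r ρ0 m) (intg P.ta P.tb f) ((P.tb - P.ta) * (1 + 1 / m) * e) :=
  Bd.intg_gain le_rfl (ex_hab H).le le_rfl (ex_hab H) H.hm hf

theorem ex_gain' (H : SBH P lam g σ ρ c A ρ0 m w η) {k : ℕ} {f : WT} {e : ℝ}
    (hf : Bd k (P.r ρ0 m) f e) :
    Bd (k + 1) (P.r ρ0 m) (intg P.s1 P.s2 f) ((P.tb - P.ta) * (1 + 1 / m) * e) :=
  Bd.intg_gain H.h1.le H.h2.le H.h3.le (ex_hab H) H.hm hf

theorem ex_sumPs {κ : Kp} {k : ℕ} {r : ℝ → ℝ} {x y : Vec} {e : ℝ}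
    (h : ∀ j, Bd k r (x j - y j) e) (j : Fin 2) :
    Bd k r ((∑ b, Ps κ j b (x b)) - ∑ b, Ps κ j b (y b)) (2 * e) := by
  have e1 : (∑ b, Ps κ j b (x b)) - ∑ b, Ps κ j b (y b) = ∑ b, Ps κ j b (x b - y b) := by
    rw [← Finset.sum_sub_distrib]
    exact Finset.sum_congr rfl fun b _ => by rw [map_sub]
  rw [e1]
  refine (Bd.sum Finset.univ (c := fun _ => e) fun b _ => (h b).Ps κ j b).mono (le_of_eq ?_)
  simp

theorem ex_sumPg {κ : Kp} {k : ℕ} {r : ℝ → ℝ} {x y : Vec} {e : ℝ}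
    (h : ∀ j, Bd k r (x j - y j) e) (j : Fin 2) :
    Bd k r ((∑ b, Pg κ j b (x b)) - ∑ b, Pg κ j b (y b)) (2 * e) := by
  have e1 : (∑ b, Pg κ j b (x b)) - ∑ b, Pg κ j b (y b) = ∑ b, Pg κ j b (x b - y b) := by
    rw [← Finset.sum_sub_distrib]
    exact Finset.sum_congr rfl fun b _ => by rw [map_sub]
  rw [e1]
  refine (Bd.sum Finset.univ (c := fun _ => e) fun b _ => (h b).Pg κ j b).mono (le_of_eq ?_)
  simp

end est

end ES

end

section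

/-!
ES-SEx: existence of the solution of the sub-block system (EW 2, Lemma 2.3) by `fixpt` with
`ι = Fin 5 × Fin 2` (components ζ, E, W, a, q), powers `k = 2,1,1,0,0`, weights
`1/(512 lam K)`, `w`, `w`, `G w`, `G w`, `G = 10^6 K² g`, radius `r = P.r ρ0 m`,
start `x0 = (ζa, Ea, χ W0, 0, 0)`.
 (S1) `N2(T ζ - ζa) ≤ h K N1(comp B + P E) ≤ h K (K g/lam + 3 w) ≤ 4 K² h g / lam` (`Bd.intg_gain`);
      differences: `≤ h K s (K g/lam + 3w)`.
 (S2),(S3) `N1 ≤ h K N0(a) ≤ h K G w`;  differences `h K s G w`;  `|χ| ≤ 1`.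
 (S4) `N0 ≤ 2 (10^5 K² g w + 0.048 G w) ≤ G w / 2`;
      differences `≤ 2 (10^5 s K² g w + 0.0525 s G w) ≤ s G w / 2`.
 The constraint `Q` is the conjunction of the closed conditions of `SB0` (levels, mean of W,
 reality, clamping, and: `b = 0 → W = 0, osc a = 0, osc q = 0`).
-/

open scoped BoundedContinuousFunction

namespace ES

/-! admissible elements: level, reality, clamping -/

section ok

end ok

/-! the data are admissible -/

section data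
variable {d : Dat} {t0 t1 lam g σ ρ c A : ℝ}

variable {m r0 : ℝ} {r : ℝ → ℝ} {ζ : Vec}

private theorem ex_comp (H : DH d lam g σ c m r0 r) (hζ : ZH lam m r ζ)
    (hz : ∀ j, ExOk t0 t1 d.i (ζ j)) {f : WT} {e : ℝ}
    (hf : Bd 0 (fun t => r t + 2 * m) f e) (hfo : ExOk t0 t1 d.i f) :
    ExOk t0 t1 d.i (comp d.κ ζ f) :=
  ExOk.comp (H.ch hζ) hz (ex_wk H hf) hfo

private theorem ex_FF (G : Good d t0 t1 lam g σ ρ c A) (H : DH d lam g σ c m r0 r)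
    (hζ : ZH lam m r ζ) (hz : ∀ j, ExOk t0 t1 d.i (ζ j)) (i j : Fin 2) :
    ExOk t0 t1 d.i (FF d ζ i j) :=
  ExOk.sum fun k _ => (ex_comp H hζ hz (ex_bF H i k) (ex_F G i k)).mul (ExOk.Fm d.κ hz k j)

private theorem ex_MM (G : Good d t0 t1 lam g σ ρ c A) (H : DH d lam g σ c m r0 r)
    (hζ : ZH lam m r ζ) (hz : ∀ j, ExOk t0 t1 d.i (ζ j)) (i j : Fin 2) :
    ExOk t0 t1 d.i (MM d ζ i j) := ExOk.adj (ex_FF G H hζ hz) i j

private theorem ex_LL (G : Good d t0 t1 lam g σ ρ c A) (H : DH d lam g σ c m r0 r)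
    (hζ : ZH lam m r ζ) (hz : ∀ j, ExOk t0 t1 d.i (ζ j)) (i j : Fin 2) :
    ExOk t0 t1 d.i (LL d ζ i j) :=
  ExOk.sum fun k _ => (ex_comp H hζ hz (H.bG i k) (ex_G G i k)).mul (ExOk.Fm d.κ hz k j)

private theorem ex_RR (G : Good d t0 t1 lam g σ ρ c A) (H : DH d lam g σ c m r0 r)
    (hζ : ZH lam m r ζ) (hz : ∀ j, ExOk t0 t1 d.i (ζ j)) (i j : Fin 2) :
    ExOk t0 t1 d.i (RR d ζ i j) :=
  ex_comp H hζ hz (H.bR i j) (ex_R G i j)

end data

section rhs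
variable {P : SB} {t0 t1 lam g σ ρ c A m r0 : ℝ} {r : ℝ → ℝ} {ζ E W a q : Vec} {n : ℕ}

private theorem ex_f (G : Good P.d t0 t1 lam g σ ρ c A) (H : DH P.d lam g σ c m r0 r)
    (hζ : ZH lam m r ζ) (hz : ∀ j, ExOk t0 t1 P.d.i (ζ j)) (hE : ∀ j, ExOk t0 t1 P.d.i (E j))
    (hn : P.d.i ≤ n) (hW : ∀ j, ExOk t0 t1 n (W j)) (j : Fin 2) :
    ExOk t0 t1 n (P.f ζ E W j) := by
  have hFF : ∀ i j, ExOk t0 t1 n (FF P.d ζ i j) := fun i j => (ex_FF G H hζ hz i j).mono hn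
  have hMM : ∀ i j, ExOk t0 t1 n (MM P.d ζ i j) := fun i j => (ex_MM G H hζ hz i j).mono hn
  have hLL : ∀ i j, ExOk t0 t1 n (LL P.d ζ i j) := fun i j => (ex_LL G H hζ hz i j).mono hn
  have hRR : ∀ i j, ExOk t0 t1 n (RR P.d ζ i j) := fun i j => (ex_RR G H hζ hz i j).mono hn
  have hE' : ∀ j, ExOk t0 t1 n (E j) := fun j => (hE j).mono hn
  have hEW : ∀ j, ExOk t0 t1 n ((E + W) j) := fun j => (hE' j).add (hW j)
  have hbet : ExOk t0 t1 n (P.bet W) := ((ExOk.dvg P.d.κ hW).ith P.d.i).neg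
  unfold SB.f
  refine (((ExOk.two.mul (ExOk.mulv hLL hEW j)).neg.sub
    (ExOk.adv P.d.κ hEW (ExOk.mulv hFF hE') j)).sub
    ((ExOk.adv P.d.κ hW (ExOk.mulv hFF hEW) j).add
      (hbet.mul (ExOk.mulv hFF (fun k => ((hE' k).add (hW k)).dth P.d.i) j)))).sub
    (ExOk.dvm P.d.κ (ExOk.mulT hRR hMM) j)

private theorem ex_g (G : Good P.d t0 t1 lam g σ ρ c A) (H : DH P.d lam g σ c m r0 r)
    (hζ : ZH lam m r ζ) (hz : ∀ j, ExOk t0 t1 P.d.i (ζ j)) (hE : ∀ j, ExOk t0 t1 P.d.i (E j))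
    (hn : P.d.i ≤ n) (hW : ∀ j, ExOk t0 t1 n (W j)) (ha : ∀ j, ExOk t0 t1 n (a j))
    (hq : ∀ j, ExOk t0 t1 n (q j)) (j : Fin 2) :
    ExOk t0 t1 n (P.g ζ E W a q j) := by
  have hFF : ∀ i j, ExOk t0 t1 n (FF P.d ζ i j) := fun i j => (ex_FF G H hζ hz i j).mono hn
  have hMM : ∀ i j, ExOk t0 t1 n (MM P.d ζ i j) := fun i j => (ex_MM G H hζ hz i j).mono hn
  unfold SB.g
  exact ((ex_f G H hζ hz hE hn hW j).sub ((ExOk.mulv hFF ha j).sub (ha j))).sub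
    ((ExOk.mulvT hMM hq j).sub (hq j))

end rhs

/-! cutoff and initial wave -/

/-! the map -/

section cn
variable {P : SB} {lam g σ ρ c A ρ0 m w η : ℝ} {ζ E W a q : Vec}

theorem ex_pres (H : SBH P lam g σ ρ c A ρ0 m w η) (C : ExCn P ζ E W a q)
    (hζ : ZH lam m (P.r ρ0 m) ζ) :
    ExCn P (exZ P ζ E) (exE P a) (exW P a) (exA P (P.g ζ E W a q)) (exQ P (P.g ζ E W a q)) := by
  have hab : P.ta ≤ P.tb := (H.h1.trans (H.h2.trans H.h3)).le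
  have hb : ExOk P.ta P.tb P.d.i P.b := ExOk.of_frz H.bl H.br H.bt
  have hg := ex_g H.good H.dh hζ C.oz C.oe (Nat.le_succ _) C.ow C.oa C.oq
  refine ⟨fun j => ?_, fun j => ?_, fun j => ?_, fun j => ?_, fun j => ?_, fun j => ?_,
    fun h0 j => ?_⟩
  · exact (ExOk.of_frz (H.zl j) (H.zr j) (H.zt j)).add
      (ExOk.intg le_rfl hab le_rfl ((ex_comp H.dh hζ C.oz (H.dh.bB j) (ex_B H.good j)).add
        (ExOk.mulv (ExOk.Fm P.d.κ C.oz) C.oe j)))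
  · exact (ExOk.of_frz (H.el j) (H.er j) (H.et j)).add (ExOk.intg le_rfl hab le_rfl (C.oa j).meanL)
  · exact (ex_chi H.h1 H.h2 H.h3 _).mul ((ex_W0 hb j).add
      (ExOk.intg H.h1.le H.h2.le H.h3.le ((C.oa j).osc _)))
  · exact ExOk.sum fun b _ => (hg b).Ps _ _ _
  · exact ExOk.sum fun b _ => (hg b).Pg _ _ _
  · show mean P.d.i (cst P.χ * (P.W0 j + intg P.s1 P.s2 (osc P.d.i (a j)))) = 0
    rw [ex_mean_cst, map_add, ex_mean_W0 H.bl, ← intg_mean, mean_osc, map_zero, add_zero, mul_zero]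
  · have hW : ∀ j, ExOk P.ta P.tb P.d.i (W j) := fun j => by
      rw [(C.b0 h0 j).1]
      exact ExOk.zero
    have ha : ∀ j, ExOk P.ta P.tb P.d.i (a j) := fun j =>
      ⟨(C.b0 h0 j).2.1, (C.oa j).r, (C.oa j).c⟩
    have hq : ∀ j, ExOk P.ta P.tb P.d.i (q j) := fun j =>
      ⟨(C.b0 h0 j).2.2, (C.oq j).r, (C.oq j).c⟩
    have hg0 := ex_g H.good H.dh hζ C.oz C.oe le_rfl hW ha hq
    refine ⟨?_, ?_, ?_⟩
    · show cst P.χ * (P.W0 j + intg P.s1 P.s2 (osc P.d.i (a j))) = 0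
      rw [W0_zero P h0 j, (ha j).l.osc le_rfl, map_zero, add_zero, mul_zero]
    · have : ExOk P.ta P.tb P.d.i (exA P (P.g ζ E W a q) j) :=
        ExOk.sum fun b _ => (hg0 b).Ps _ _ _
      exact this.l
    · have : ExOk P.ta P.tb P.d.i (exQ P (P.g ζ E W a q) j) :=
        ExOk.sum fun b _ => (hg0 b).Pg _ _ _
      exact this.l

end cn

/-! closedness -/

/-! indexing by `Fin 5 × Fin 2` -/

/-! numerical facts, `K = 1 + 1/m` -/

section est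
variable {P : SB} {lam g σ ρ c A ρ0 m w η s : ℝ} {ζ E W a q ζ' E' W' a' q' : Vec}

theorem ex_BH (H : SBH P lam g σ ρ c A ρ0 m w η)
    (B : ExBl P lam g m w (P.r ρ0 m) ζ E W a q) : BH lam m w (P.r ρ0 m) ζ E W := by
  have hl0 : 0 < lam := by linarith [H.hlam]
  have hm0 := H.hm
  have hK2 : 2 ≤ 1 + 1 / m := H.dh.K2
  have hK0 : 0 < 1 + 1 / m := by linarith
  have hw0 := H.hw
  have hχ : ∀ (k : ℕ) (j : Fin 2) {e : ℝ}, Bd k (P.r ρ0 m) (P.W0 j) e →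
      Bd k (P.r ρ0 m) (cst P.χ * P.W0 j) e := fun k j e h => by
    have := h.cst_mul (ex_chi_le P)
    rwa [one_mul] at this
  refine ⟨fun j => ?_, fun j => ?_, fun j => ?_, fun j => ?_⟩
  · have h1 := (B.bz j).add ((H.zb j).weaken le_rfl (ex_rle H))
    rw [sub_add_cancel] at h1
    refine h1.mono ?_
    have e1 : 1 / (512 * lam * (1 + 1 / m)) = (1 / 512) * (1 / (lam * (1 + 1 / m))) := by
      rw [mul_assoc, one_div_mul_one_div]
    have e2 : 1 / (1024 * lam * (1 + 1 / m)) = (1 / 1024) * (1 / (lam * (1 + 1 / m))) := by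
      rw [mul_assoc, one_div_mul_one_div]
    have e3 : 1 / (256 * lam * (1 + 1 / m)) = (1 / 256) * (1 / (lam * (1 + 1 / m))) := by
      rw [mul_assoc, one_div_mul_one_div]
    rw [e1, e2, e3]
    have : 0 ≤ 1 / (lam * (1 + 1 / m)) := by positivity
    linarith
  · have h1 := (B.be j).add ((H.eb' j).weaken le_rfl (ex_rle H))
    rw [sub_add_cancel] at h1
    exact h1.mono (by linarith [H.hη])
  · have h1 := ((B.bw j).weaken (Nat.zero_le 1) (fun t => le_rfl)).add (hχ 0 j (W0_bd0 H j))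
    rw [sub_add_cancel] at h1
    exact h1.mono (by linarith)
  · have h1 := (B.bw j).add (hχ 1 j (W0_bd1 H j))
    rw [sub_add_cancel] at h1
    exact h1.mono (by nlinarith)

theorem ex_dE (H : SBH P lam g σ ρ c A ρ0 m w η)
    (hh : 10 ^ 8 * (1 + 1 / m) ^ 5 * (P.tb - P.ta) * g ≤ 1) (hs : 0 ≤ s)
    (D : ∀ j, Bd 0 (P.r ρ0 m) (a j - a' j) (s * (10 ^ 6 * (1 + 1 / m) ^ 2 * g * w))) (j : Fin 2) :
    Bd 1 (P.r ρ0 m) (exE P a j - exE P a' j) (s / 2 * w) := by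
  have e : exE P a j - exE P a' j = intg P.ta P.tb (mean P.d.i (a j - a' j)) := by
    unfold exE
    rw [map_sub, map_sub]
    ring
  rw [e]
  have h1 := ex_gain H ((D j).mean P.d.i)
  refine h1.mono ?_
  have h2 := ex_num2 H.dh.K2 (by linarith [ex_hab H]) (ex_gpos H) H.hw.le hh
  have h3 := mul_le_mul_of_nonneg_left h2 hs
  calc (P.tb - P.ta) * (1 + 1 / m) * (s * (10 ^ 6 * (1 + 1 / m) ^ 2 * g * w))
      = s * ((P.tb - P.ta) * (1 + 1 / m) * (10 ^ 6 * (1 + 1 / m) ^ 2 * g * w)) := by ring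
    _ ≤ s * (1 / 2 * w) := h3
    _ = s / 2 * w := by ring

theorem ex_dW (H : SBH P lam g σ ρ c A ρ0 m w η)
    (hh : 10 ^ 8 * (1 + 1 / m) ^ 5 * (P.tb - P.ta) * g ≤ 1) (hs : 0 ≤ s)
    (D : ∀ j, Bd 0 (P.r ρ0 m) (a j - a' j) (s * (10 ^ 6 * (1 + 1 / m) ^ 2 * g * w))) (j : Fin 2) :
    Bd 1 (P.r ρ0 m) (exW P a j - exW P a' j) (s / 2 * w) := by
  have e : exW P a j - exW P a' j = cst P.χ * intg P.s1 P.s2 (osc P.d.i (a j - a' j)) := by
    unfold exW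
    rw [map_sub, map_sub]
    ring
  rw [e]
  have h1 := (ex_gain' H ((D j).osc P.d.i)).cst_mul (ex_chi_le P)
  refine h1.mono ?_
  have h2 := ex_num2 H.dh.K2 (by linarith [ex_hab H]) (ex_gpos H) H.hw.le hh
  have h3 := mul_le_mul_of_nonneg_left h2 hs
  calc 1 * ((P.tb - P.ta) * (1 + 1 / m) * (s * (10 ^ 6 * (1 + 1 / m) ^ 2 * g * w)))
      = s * ((P.tb - P.ta) * (1 + 1 / m) * (10 ^ 6 * (1 + 1 / m) ^ 2 * g * w)) := by ring
    _ ≤ s * (1 / 2 * w) := h3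
    _ = s / 2 * w := by ring

theorem ex_dZ0 (H : SBH P lam g σ ρ c A ρ0 m w η)
    (hh : 10 ^ 8 * (1 + 1 / m) ^ 5 * (P.tb - P.ta) * g ≤ 1)
    (hζ : ZH lam m (P.r ρ0 m) ζ) (hE : ∀ j, Bd 1 (P.r ρ0 m) (E j) w) (j : Fin 2) :
    Bd 2 (P.r ρ0 m) (exZ P ζ E j - P.ζa j) (1 / 2 * (1 / (512 * lam * (1 + 1 / m)))) := by
  have e : exZ P ζ E j - P.ζa j =
      intg P.ta P.tb (comp P.d.κ ζ (P.d.B j) + mulv (Pm P.d ζ) E j) := by
    unfold exZ
    ring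
  rw [e]
  have h1 := ex_gain H ((H.dh.bd_B1 hζ j).add (H.dh.mulv_P hζ hE j))
  refine h1.mono ?_
  have h2 := ex_num1 H.hlam H.dh.K2 (by linarith [ex_hab H]) (ex_gpos H) H.hlw hh
  refine le_trans ?_ h2
  have hK2 : 2 ≤ 1 + 1 / m := H.dh.K2
  refine mul_le_mul_of_nonneg_left ?_ (mul_nonneg (by linarith [ex_hab H]) (by linarith))
  linarith [H.hw]

theorem ex_dZ (H : SBH P lam g σ ρ c A ρ0 m w η)
    (hh : 10 ^ 8 * (1 + 1 / m) ^ 5 * (P.tb - P.ta) * g ≤ 1) (hs : 0 ≤ s)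
    (B : ExBl P lam g m w (P.r ρ0 m) ζ E W a q) (B' : ExBl P lam g m w (P.r ρ0 m) ζ' E' W' a' q')
    (D : ExDf lam g m w s (P.r ρ0 m) ζ E W a q ζ' E' W' a' q') (j : Fin 2) :
    Bd 2 (P.r ρ0 m) (exZ P ζ E j - exZ P ζ' E' j) (s / 2 * (1 / (512 * lam * (1 + 1 / m)))) := by
  have e : exZ P ζ E j - exZ P ζ' E' j =
      intg P.ta P.tb ((comp P.d.κ ζ (P.d.B j) - comp P.d.κ ζ' (P.d.B j)) +
        (mulv (Pm P.d ζ) (fun k => E k - E' k) j +
          ∑ b, (Pm P.d ζ j b - Pm P.d ζ' j b) * E' b)) := by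
    have e2 : mulv (Pm P.d ζ) (fun k => E k - E' k) j +
          ∑ b, (Pm P.d ζ j b - Pm P.d ζ' j b) * E' b =
        mulv (Pm P.d ζ) E j - mulv (Pm P.d ζ') E' j := by
      unfold mulv
      rw [← Finset.sum_add_distrib, ← Finset.sum_sub_distrib]
      exact Finset.sum_congr rfl fun b _ => by ring
    rw [e2]
    have e3 : (comp P.d.κ ζ (P.d.B j) - comp P.d.κ ζ' (P.d.B j)) +
        (mulv (Pm P.d ζ) E j - mulv (Pm P.d ζ') E' j) =
        (comp P.d.κ ζ (P.d.B j) + mulv (Pm P.d ζ) E j) -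
          (comp P.d.κ ζ' (P.d.B j) + mulv (Pm P.d ζ') E' j) := by ring
    rw [e3, map_sub]
    unfold exZ
    ring
  rw [e]
  have hb := ex_BH H B
  have hb' := ex_BH H B'
  have hr0 : ∀ t, 0 ≤ P.r ρ0 m t := fun t => H.hm.le.trans (H.dh.hr t)
  have hK2 : 2 ≤ 1 + 1 / m := H.dh.K2
  have h1 := H.dh.lip_B1 hb.z hb'.z (ex_DZ H D) j
  have h2 := H.dh.mulv_P hb.z (x := fun k => E k - E' k) D.de j
  have h3 : Bd 1 (P.r ρ0 m) (∑ b, (Pm P.d ζ j b - Pm P.d ζ' j b) * E' b)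
      (∑ _b : Fin 2, s / (512 * (1 + 1 / m)) * (2 * w)) :=
    Bd.sum Finset.univ fun b _ => (H.dh.lip_P (ex_DZ H D) j b).mul hr0 (hb'.e b)
  have h4 := ex_gain H (h1.add (h2.add h3))
  refine h4.mono ?_
  have h5 := ex_num1 H.hlam H.dh.K2 (by linarith [ex_hab H]) (ex_gpos H) H.hlw hh
  have h6 := mul_le_mul_of_nonneg_left h5 hs
  have hsw : 0 ≤ s * w := mul_nonneg hs H.hw.le
  have h7 : s / (512 * (1 + 1 / m)) * (2 * w) ≤ 1 / 512 * (s * w) := by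
    have : s / (512 * (1 + 1 / m)) * (2 * w) = (2 / (1 + 1 / m)) * (1 / 512 * (s * w)) := by
      field_simp
    rw [this]
    have h8 : 2 / (1 + 1 / m) ≤ 1 := (div_le_one (by linarith)).2 hK2
    nlinarith
  calc (P.tb - P.ta) * (1 + 1 / m) * (s * (1 + 1 / m) * (g / lam) +
        (101 / 100 * (s * w) + ∑ _b : Fin 2, s / (512 * (1 + 1 / m)) * (2 * w)))
      ≤ (P.tb - P.ta) * (1 + 1 / m) * (s * ((1 + 1 / m) * (g / lam) + 2 * w)) := by
        refine mul_le_mul_of_nonneg_left ?_ (mul_nonneg (by linarith [ex_hab H]) (by linarith))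
        rw [Fin.sum_univ_two]
        nlinarith
    _ = s * ((P.tb - P.ta) * (1 + 1 / m) * ((1 + 1 / m) * (g / lam) + 2 * w)) := by ring
    _ ≤ s * (1 / 2 * (1 / (512 * lam * (1 + 1 / m)))) := h6
    _ = s / 2 * (1 / (512 * lam * (1 + 1 / m))) := by ring

end est

end ES

end
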