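import Pool.Agent.H16.TSS.ES.LEv_1
import Pool.Agent.H16.TSS.M11
import Pool.Agent.H16.TSS.M18

/-! The parts of this file: ES.RInitA, ES.R2Dc. -/

section

/-!
Project ES, Part III, module RInitA: the initial field is represented by good data.

Data: `κ` has the single frequency `(0,1)` on variable `0` (`κ.k 0 j = 0`, `κ.k 1 0 = 1`, `κ.k 1 j = 0`
for `j ≥ 1`), `i = 1`, `ξ = U = 0`, `v 0 = cst φ * sn 0`, `v 1 = 0`,
`φ(t) = 1 + clp 0 T0 t/T0`, `p = 0`, `R 0 1 = R 1 0 = -(1/T0) • cs 0`, `R 0 0 = R 1 1 = 0`.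
Then `F = M = I`, `B = v`, `(B·D) v = 0` (as `D_0 v = 0`, `v 1 = 0`),
`∂_t v_0 = (1/T0) sn 0 = D_1 (R 0 1)` (`D_1 (cs 0) = - sn 0`), `det F = 1`, `D·B = D_0 v_0 = 0`.
Norms: `Bd 0 (cr ρ) (sn 0) (exp ρ)`, `Bd 0 (cr ρ) (cs 0) (exp ρ)`, `exp 2 ≤ 8`, `|φ| ≤ 2`; the time
derivative of `φ` is `1/T0` on the open interval `(0,T0)` only (this is what `TD` asks).
-/

namespace ES

/-! ### elements with two frequencies -/

/-- the index `(1, 0, 0, ...)` -/
private noncomputable def RInitA_e1 : Gx := Finsupp.single 0 1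

/-- the index `(-1, 0, 0, ...)` -/
private noncomputable def RInitA_e2 : Gx := Finsupp.single 0 (-1)

private theorem RInitA_ne : RInitA_e1 ≠ RInitA_e2 := by
  intro h
  have := congrArg (fun f : Gx => f 0) h
  simp [RInitA_e1, RInitA_e2] at this

private theorem RInitA_neg1 : -RInitA_e1 = RInitA_e2 := by
  simp [RInitA_e1, RInitA_e2]

private theorem RInitA_neg2 : -RInitA_e2 = RInitA_e1 := by
  simp [RInitA_e1, RInitA_e2]

/-- the element `α e_{1} + β e_{-1}` -/
private noncomputable def RInitA_el (α β : Ct) : WT :=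
  ⟨Pi.single RInitA_e1 α, rapid_single α RInitA_e1⟩ +
    ⟨Pi.single RInitA_e2 β, rapid_single β RInitA_e2⟩

private theorem RInitA_co1 (α β : Ct) : (RInitA_el α β).co RInitA_e1 = α := by
  simp [RInitA_el, RInitA_ne]

private theorem RInitA_co2 (α β : Ct) : (RInitA_el α β).co RInitA_e2 = β := by
  simp [RInitA_el, RInitA_ne.symm]

private theorem RInitA_co0 (α β : Ct) {ν : Gx} (h1 : ν ≠ RInitA_e1) (h2 : ν ≠ RInitA_e2) :
    (RInitA_el α β).co ν = 0 := by
  simp [RInitA_el, h1, h2]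

private theorem RInitA_ext {f : WT} {α β : Ct} (h1 : f.co RInitA_e1 = α) (h2 : f.co RInitA_e2 = β)
    (h0 : ∀ ν, ν ≠ RInitA_e1 → ν ≠ RInitA_e2 → f.co ν = 0) : f = RInitA_el α β := by
  refine WT.ext ?_
  funext ν
  by_cases k1 : ν = RInitA_e1
  · rw [k1, h1, RInitA_co1]
  · by_cases k2 : ν = RInitA_e2
    · rw [k2, h2, RInitA_co2]
    · rw [h0 ν k1 k2, RInitA_co0 _ _ k1 k2]

private theorem RInitA_lev (α β : Ct) : Lev 1 (RInitA_el α β) := by
  rintro ν ⟨j, hj, hn⟩
  refine RInitA_co0 _ _ ?_ ?_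
  · rintro rfl
    apply hn
    simp only [RInitA_e1]
    rw [Finsupp.single_apply, if_neg (by omega)]
  · rintro rfl
    apply hn
    simp only [RInitA_e2]
    rw [Finsupp.single_apply, if_neg (by omega)]

private theorem RInitA_isR {α β : Ct} (h : ∀ t, β t = (starRingEnd ℂ) (α t)) :
    IsR (RInitA_el α β) := by
  intro ν t
  by_cases k1 : ν = RInitA_e1
  · rw [k1, RInitA_neg1, RInitA_co1, RInitA_co2, h]
  · by_cases k2 : ν = RInitA_e2
    · rw [k2, RInitA_neg2, RInitA_co1, RInitA_co2, h]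
      simp
    · have k3 : -ν ≠ RInitA_e1 := by
        intro h3
        apply k2
        rw [← RInitA_neg1, ← h3, neg_neg]
      have k4 : -ν ≠ RInitA_e2 := by
        intro h3
        apply k1
        rw [← RInitA_neg2, ← h3, neg_neg]
      rw [RInitA_co0 _ _ k1 k2, RInitA_co0 _ _ k3 k4]
      simp

private theorem RInitA_cl {a b : ℝ} {α β : Ct} (h1 : ∀ t, α (clp a b t) = α t)
    (h2 : ∀ t, β (clp a b t) = β t) : Cl a b (RInitA_el α β) := by
  rw [Cl_iff]
  intro ν t
  by_cases k1 : ν = RInitA_e1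
  · rw [k1, RInitA_co1, h1]
  · by_cases k2 : ν = RInitA_e2
    · rw [k2, RInitA_co2, h2]
    · rw [RInitA_co0 _ _ k1 k2]
      simp

private theorem RInitA_td {a b : ℝ} {α β α' β' : Ct}
    (h1 : ∀ t ∈ Set.Ioo a b, HasDerivAt (fun s => α s) (α' t) t)
    (h2 : ∀ t ∈ Set.Ioo a b, HasDerivAt (fun s => β s) (β' t) t) :
    TD a b (RInitA_el α β) (RInitA_el α' β') := by
  intro ν t ht
  by_cases k1 : ν = RInitA_e1
  · rw [k1, RInitA_co1, RInitA_co1]
    exact h1 t ht
  · by_cases k2 : ν = RInitA_e2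
    · rw [k2, RInitA_co2, RInitA_co2]
      exact h2 t ht
    · rw [RInitA_co0 _ _ k1 k2, RInitA_co0 _ _ k1 k2]
      simpa using hasDerivAt_const t (0 : ℂ)

private theorem RInitA_len1 : len RInitA_e1 = 1 := by
  simp [len, RInitA_e1]

private theorem RInitA_len2 : len RInitA_e2 = 1 := by
  rw [← RInitA_neg1, len_neg]
  exact RInitA_len1

private theorem RInitA_bd {ρ c : ℝ} {α β : Ct} (h1 : ∀ t, ‖α t‖ ≤ c) (h2 : ∀ t, ‖β t‖ ≤ c)
    (hρ : ρ ≤ 2) : Bd 0 (cr ρ) (RInitA_el α β) (16 * c) := by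
  have hc : 0 ≤ c := (norm_nonneg _).trans (h1 0)
  have he : Real.exp ρ ≤ 8 := by
    have h3 : Real.exp ρ ≤ Real.exp 2 := Real.exp_le_exp.2 hρ
    have h4 : Real.exp 2 = Real.exp 1 * Real.exp 1 := by
      rw [← Real.exp_add]; norm_num
    have h5 := Real.exp_one_lt_d9
    have h6 := Real.exp_pos 1
    nlinarith
  refine ⟨fun ν => if ν ∈ ({RInitA_e1, RInitA_e2} : Finset Gx) then 8 * c else 0, ?_, ?_, ?_, ?_⟩
  · intro ν
    show 0 ≤ (if ν ∈ ({RInitA_e1, RInitA_e2} : Finset Gx) then 8 * c else 0)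
    split_ifs
    · positivity
    · exact le_refl _
  · refine summable_of_ne_finset_zero (s := {RInitA_e1, RInitA_e2}) fun ν hν => ?_
    rw [if_neg hν]
  · rw [tsum_eq_sum (s := {RInitA_e1, RInitA_e2}) (fun ν hν => by rw [if_neg hν])]
    rw [Finset.sum_pair RInitA_ne]
    simp only [Finset.mem_insert, Finset.mem_singleton, true_or, or_true, if_true]
    linarith
  · intro ν t
    by_cases k1 : ν = RInitA_e1
    · rw [k1, RInitA_co1, RInitA_len1]
      simp only [Finset.mem_insert, Finset.mem_singleton, true_or, if_true, pow_zero, one_mul,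
        Nat.cast_one, mul_one]
      exact mul_le_mul he (h1 t) (norm_nonneg _) (by norm_num)
    · by_cases k2 : ν = RInitA_e2
      · rw [k2, RInitA_co2, RInitA_len2]
        simp only [Finset.mem_insert, Finset.mem_singleton, or_true, if_true, pow_zero, one_mul,
          Nat.cast_one, mul_one]
        exact mul_le_mul he (h2 t) (norm_nonneg _) (by norm_num)
      · rw [RInitA_co0 _ _ k1 k2]
        simp [k1, k2]

/-! ### the frequencies -/

/-- the frequencies -/
private noncomputable def RInitA_κ : Kp where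
  k a j := if a = 1 ∧ j = 0 then 1 else 0
  bdd := ⟨1, fun a j => by split_ifs <;> simp⟩

private theorem RInitA_kap0 (ν : Gx) : kap RInitA_κ 0 ν = 0 := by
  simp [kap, RInitA_κ]

private theorem RInitA_kap1 : kap RInitA_κ 1 RInitA_e1 = 1 := by
  simp [kap, RInitA_κ, RInitA_e1]

private theorem RInitA_kap2 : kap RInitA_κ 1 RInitA_e2 = -1 := by
  simp [kap, RInitA_κ, RInitA_e2]

private theorem RInitA_D0 (f : WT) : D RInitA_κ 0 f = 0 := by
  refine WT.ext ?_
  funext ν
  rw [D_co, RInitA_kap0]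
  simp

private theorem RInitA_D1 (α β : Ct) :
    D RInitA_κ 1 (RInitA_el α β) = RInitA_el (Complex.I • α) (-(Complex.I • β)) := by
  refine RInitA_ext ?_ ?_ ?_
  · rw [D_co, RInitA_kap1, RInitA_co1]
    simp
  · rw [D_co, RInitA_kap2, RInitA_co2]
    simp
  · intro ν k1 k2
    rw [D_co, RInitA_co0 _ _ k1 k2]
    simp

private theorem RInitA_ev (α β : Ct) (z : Fin 2 → ℝ) (t : ℝ) :
    ev RInitA_κ (RInitA_el α β) z t = α t * Complex.exp (Complex.I * (z 1 : ℂ)) +
      β t * Complex.exp (-(Complex.I * (z 1 : ℂ))) := by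
  unfold ev
  rw [tsum_eq_sum (s := {RInitA_e1, RInitA_e2})]
  · rw [Finset.sum_pair RInitA_ne, RInitA_co1, RInitA_co2, RInitA_kap0, RInitA_kap0, RInitA_kap1,
      RInitA_kap2]
    congr 2
    · congr 1
      push_cast
      ring
    · congr 1
      push_cast
      ring
  · intro ν hν
    simp only [Finset.mem_insert, Finset.mem_singleton, not_or] at hν
    rw [RInitA_co0 _ _ hν.1 hν.2]
    simp

/-! ### the data -/

/-- the amplitude `φ(t) = 1 + clp 0 T0 t / T0` -/
private noncomputable def RInitA_φ (T0 : ℝ) : Ct :=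
  BoundedContinuousFunction.ofNormedAddCommGroup (fun t => ((1 + clp 0 T0 t / T0 : ℝ) : ℂ))
    (Complex.continuous_ofReal.comp (continuous_const.add ((clp_continuous 0 T0).div_const T0)))
    (1 + |T0| / |T0|) (by
      intro t
      rw [Complex.norm_real, Real.norm_eq_abs]
      refine (abs_add_le _ _).trans ?_
      rw [abs_one, abs_div]
      have h1 : |clp 0 T0 t| ≤ |T0| := by
        unfold clp
        rw [abs_of_nonneg (le_max_left _ _)]
        exact max_le (abs_nonneg _) ((min_le_left _ _).trans (le_abs_self _))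
      have h2 : |clp 0 T0 t| / |T0| ≤ |T0| / |T0| := by
        by_cases h : |T0| = 0
        · simp [h]
        · exact div_le_div_of_nonneg_right h1 (abs_nonneg _)
      linarith)

private theorem RInitA_φ_apply (T0 t : ℝ) :
    RInitA_φ T0 t = ((1 + clp 0 T0 t / T0 : ℝ) : ℂ) := rfl

private theorem RInitA_φ_norm {T0 : ℝ} (hT : 1 ≤ T0) (t : ℝ) : ‖RInitA_φ T0 t‖ ≤ 2 := by
  rw [RInitA_φ_apply, Complex.norm_real, Real.norm_eq_abs]
  have h0 : (0:ℝ) ≤ T0 := by linarith
  have h := clp_mem h0 t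
  have h1 : 0 ≤ clp 0 T0 t / T0 := div_nonneg h.1 h0
  have h2 : clp 0 T0 t / T0 ≤ 1 := div_le_one_of_le₀ h.2 h0
  rw [abs_of_nonneg (by linarith)]
  linarith

/-- constants -/
private noncomputable def RInitA_c (c : ℂ) : Ct := BoundedContinuousFunction.const ℝ c

private theorem RInitA_smul_apply (c : ℂ) (φ : Ct) (t : ℝ) : (c • φ) t = c * φ t := rfl

private theorem RInitA_c_apply (c : ℂ) (t : ℝ) : RInitA_c c t = c := rfl

/-- the velocity component `φ sin θ` -/
private noncomputable def RInitA_v (T0 : ℝ) : WT :=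
  RInitA_el (-(Complex.I / 2) • RInitA_φ T0) ((Complex.I / 2) • RInitA_φ T0)

/-- the stress component `-(1/T0) cos θ` -/
private noncomputable def RInitA_R (T0 : ℝ) : WT :=
  RInitA_el (RInitA_c (-(1 / (2 * T0) : ℝ) : ℂ)) (RInitA_c (-(1 / (2 * T0) : ℝ) : ℂ))

/-- the derivative `(1/T0) sin θ` -/
private noncomputable def RInitA_w (T0 : ℝ) : WT :=
  RInitA_el (RInitA_c (-Complex.I * (1 / (2 * T0) : ℝ)))
    (RInitA_c (Complex.I * (1 / (2 * T0) : ℝ)))

private theorem RInitA_DR (T0 : ℝ) : D RInitA_κ 1 (RInitA_R T0) = RInitA_w T0 := by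
  unfold RInitA_R RInitA_w
  rw [RInitA_D1]
  congr 1
  · ext t
    simp only [BoundedContinuousFunction.coe_smul, RInitA_c_apply, smul_eq_mul]
    ring
  · ext t
    simp only [BoundedContinuousFunction.coe_smul, BoundedContinuousFunction.coe_neg, Pi.neg_apply,
      RInitA_c_apply, smul_eq_mul]
    ring

private theorem RInitA_tdv {T0 : ℝ} (hT : 1 ≤ T0) : TD 0 T0 (RInitA_v T0) (RInitA_w T0) := by
  have hφ : ∀ t ∈ Set.Ioo 0 T0, HasDerivAt (fun s => RInitA_φ T0 s) ((1 / T0 : ℝ) : ℂ) t := by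
    intro t ht
    have h1 : HasDerivAt (fun s : ℝ => 1 + s / T0) (1 / T0) t := by
      have := ((hasDerivAt_id t).div_const T0).const_add 1
      simpa using this
    have h2 := h1.ofReal_comp
    refine h2.congr_of_eventuallyEq ?_
    filter_upwards [Ioo_mem_nhds ht.1 ht.2] with s hs
    rw [RInitA_φ_apply, clp_of_mem ⟨hs.1.le, hs.2.le⟩]
  have hT0 : (T0 : ℂ) ≠ 0 := by
    have : T0 ≠ 0 := by linarith
    exact_mod_cast this
  refine RInitA_td ?_ ?_
  · intro t ht
    have h3 := (hφ t ht).const_mul (-(Complex.I / 2))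
    refine HasDerivAt.congr_deriv h3 ?_
    rw [RInitA_c_apply]
    push_cast
    field_simp
  · intro t ht
    have h3 := (hφ t ht).const_mul (Complex.I / 2)
    refine HasDerivAt.congr_deriv h3 ?_
    rw [RInitA_c_apply]
    push_cast
    field_simp

/-- the data -/
private noncomputable def RInitA_d (T0 : ℝ) : Dat where
  κ := RInitA_κ
  i := 1
  ξ := fun _ => 0
  U := fun _ => 0
  v := fun a => if a = 0 then RInitA_v T0 else 0
  p := 0
  R := fun a b => if a = b then 0 else RInitA_R T0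

private theorem RInitA_F (T0 : ℝ) : (RInitA_d T0).F = idm := by
  funext a b
  show idm a b + D RInitA_κ b 0 = idm a b
  rw [map_zero, add_zero]

private theorem RInitA_M (T0 : ℝ) : (RInitA_d T0).M = idm := by
  unfold Dat.M
  rw [RInitA_F]
  funext a b
  fin_cases a <;> fin_cases b <;> simp [adj, idm]

private theorem RInitA_B (T0 : ℝ) : (RInitA_d T0).B = (RInitA_d T0).v := by
  unfold Dat.B
  rw [RInitA_M]
  funext a
  show ∑ b, idm a b * ((RInitA_d T0).v b - 0) = (RInitA_d T0).v a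
  fin_cases a <;> simp [idm]

private theorem RInitA_acc0 (T0 : ℝ) : (RInitA_d T0).acc 0 = RInitA_w T0 := by
  unfold Dat.acc
  rw [RInitA_M]
  show -(∑ j, idm j 0 * D RInitA_κ j 0) +
    ∑ j, D RInitA_κ j (∑ k, (RInitA_d T0).R 0 k * idm j k) = RInitA_w T0
  simp only [Fin.sum_univ_two, RInitA_D0, map_zero, mul_zero, add_zero, neg_zero, zero_add]
  have h : (RInitA_d T0).R 0 0 * idm 1 0 + (RInitA_d T0).R 0 1 * idm 1 1 = RInitA_R T0 := by
    simp [idm, RInitA_d]
  rw [h, RInitA_DR]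

private theorem RInitA_acc1 (T0 : ℝ) : (RInitA_d T0).acc 1 = 0 := by
  unfold Dat.acc
  rw [RInitA_M]
  show -(∑ j, idm j 1 * D RInitA_κ j 0) +
    ∑ j, D RInitA_κ j (∑ k, (RInitA_d T0).R 1 k * idm j k) = 0
  simp only [Fin.sum_univ_two, RInitA_D0, map_zero, mul_zero, add_zero, neg_zero, zero_add]
  have h : (RInitA_d T0).R 1 0 * idm 1 0 + (RInitA_d T0).R 1 1 * idm 1 1 = 0 := by
    simp [idm, RInitA_d]
  rw [h, map_zero]

private theorem RInitA_adv (T0 : ℝ) (a : Fin 2) :
    adv (RInitA_d T0).κ (RInitA_d T0).B (RInitA_d T0).v a = 0 := by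
  rw [RInitA_B]
  show ∑ b, (RInitA_d T0).v b * D RInitA_κ b ((RInitA_d T0).v a) = 0
  simp only [Fin.sum_univ_two, RInitA_D0, mul_zero, zero_add]
  have h : (RInitA_d T0).v 1 = 0 := by simp [RInitA_d]
  rw [h, zero_mul]

theorem init_BI {T0 σ ρ c A g : ℝ} (hT : 1 ≤ T0) (hσ : 100 / T0 ≤ σ) (hρ0 : 0 ≤ ρ) (hρ : ρ ≤ 2)
    (hc : 0 ≤ c) (hg : 100 ≤ g) (hA : 100 ≤ A) : BI (Vin T0) 0 T0 1 g σ ρ c A := by
  have hT0 : 0 < T0 := by linarith
  have hv0 : (RInitA_d T0).v 0 = RInitA_v T0 := by simp [RInitA_d]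
  have hv1 : (RInitA_d T0).v 1 = 0 := by simp [RInitA_d]
  have hR : ∀ a b, (RInitA_d T0).R a b = 0 ∨ (RInitA_d T0).R a b = RInitA_R T0 := by
    intro a b
    by_cases h : a = b
    · left; simp [RInitA_d, h]
    · right; simp [RInitA_d, h]
  have hσ0 : 0 ≤ σ := le_trans (by positivity) hσ
  -- norms
  have hnφ1 : ∀ t, ‖(-(Complex.I / 2) • RInitA_φ T0) t‖ ≤ 1 := by
    intro t
    rw [BoundedContinuousFunction.coe_smul, norm_smul, norm_neg, norm_div, Complex.norm_I]
    have := RInitA_φ_norm hT t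
    norm_num
    linarith
  have hnφ2 : ∀ t, ‖((Complex.I / 2) • RInitA_φ T0) t‖ ≤ 1 := by
    intro t
    rw [BoundedContinuousFunction.coe_smul, norm_smul, norm_div, Complex.norm_I]
    have := RInitA_φ_norm hT t
    norm_num
    linarith
  have bv : Bd 0 (cr ρ) (RInitA_v T0) 16 := by
    have := RInitA_bd (ρ := ρ) hnφ1 hnφ2 hρ
    simpa [RInitA_v] using this
  have bDv : Bd 0 (cr ρ) (D RInitA_κ 1 (RInitA_v T0)) 16 := by
    have h1 : ∀ t, ‖(Complex.I • (-(Complex.I / 2) • RInitA_φ T0)) t‖ ≤ 1 := by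
      intro t
      rw [BoundedContinuousFunction.coe_smul, norm_smul, Complex.norm_I, one_mul]
      exact hnφ1 t
    have h2 : ∀ t, ‖(-(Complex.I • ((Complex.I / 2) • RInitA_φ T0))) t‖ ≤ 1 := by
      intro t
      rw [BoundedContinuousFunction.coe_neg, Pi.neg_apply, norm_neg,
        BoundedContinuousFunction.coe_smul, norm_smul, Complex.norm_I, one_mul]
      exact hnφ2 t
    have := RInitA_bd (ρ := ρ) h1 h2 hρ
    unfold RInitA_v
    rw [RInitA_D1]
    simpa using this
  have hn : ∀ t, ‖RInitA_c (-(1 / (2 * T0) : ℝ) : ℂ) t‖ ≤ 1 / T0 := by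
    intro t
    rw [RInitA_c_apply, norm_neg, Complex.norm_real, Real.norm_eq_abs, abs_of_pos (by positivity)]
    apply div_le_div_of_nonneg_left (by norm_num) hT0
    linarith
  have bR : Bd 0 (cr ρ) (RInitA_R T0) (16 * (1 / T0)) := RInitA_bd hn hn hρ
  have hw1 : ∀ t, ‖RInitA_c (-Complex.I * (1 / (2 * T0) : ℝ)) t‖ ≤ 1 / T0 := by
    intro t
    rw [RInitA_c_apply, norm_mul, norm_neg, Complex.norm_I, one_mul, Complex.norm_real,
      Real.norm_eq_abs, abs_of_pos (by positivity)]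
    apply div_le_div_of_nonneg_left (by norm_num) hT0
    linarith
  have hw2 : ∀ t, ‖RInitA_c (Complex.I * (1 / (2 * T0) : ℝ)) t‖ ≤ 1 / T0 := by
    intro t
    rw [RInitA_c_apply, norm_mul, Complex.norm_I, one_mul, Complex.norm_real,
      Real.norm_eq_abs, abs_of_pos (by positivity)]
    apply div_le_div_of_nonneg_left (by norm_num) hT0
    linarith
  have bw : Bd 0 (cr ρ) (RInitA_w T0) (16 * (1 / T0)) := RInitA_bd hw1 hw2 hρ
  have hT1 : 1 / T0 ≤ 1 := (div_le_one hT0).2 hT
  -- clamping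
  have hcl : ∀ t, RInitA_φ T0 (clp 0 T0 t) = RInitA_φ T0 t := by
    intro t
    rw [RInitA_φ_apply, RInitA_φ_apply, clp_clp hT0.le]
  have hvCl : Cl 0 T0 (RInitA_v T0) := by
    refine RInitA_cl ?_ ?_
    · intro t
      rw [RInitA_smul_apply, RInitA_smul_apply, hcl]
    · intro t
      rw [RInitA_smul_apply, RInitA_smul_apply, hcl]
  have hRCl : Cl 0 T0 (RInitA_R T0) := RInitA_cl (fun _ => rfl) (fun _ => rfl)
  -- reality
  have hvR : IsR (RInitA_v T0) := by
    refine RInitA_isR fun t => ?_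
    rw [RInitA_smul_apply, RInitA_smul_apply, RInitA_φ_apply]
    simp only [map_mul, map_neg, map_div₀, Complex.conj_I, Complex.conj_ofReal]
    rw [show (starRingEnd ℂ) (2 : ℂ) = 2 from Complex.conj_ofNat 2]
    ring
  have hRR : IsR (RInitA_R T0) := by
    refine RInitA_isR fun t => ?_
    rw [RInitA_c_apply, map_neg, Complex.conj_ofReal]
  refine ⟨RInitA_d T0, ?_, ?_⟩
  · refine
      { ht := hT0
        kb := ?_
        k0 := ?_
        levξ := fun _ => Lev.zero _
        levU := fun _ => Lev.zero _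
        levv := ?_
        levp := Lev.zero _
        levR := ?_
        rξ := fun _ => IsR.zero
        rU := fun _ => IsR.zero
        rv := ?_
        rp := IsR.zero
        rR := ?_
        cξ := fun _ => Cl.zero _ _
        cU := fun _ => Cl.zero _ _
        cv := ?_
        cp := Cl.zero _ _
        cR := ?_
        fξ := fun _ => ⟨0, Bd.zero _ _ le_rfl⟩
        fU := fun _ => ⟨0, Bd.zero _ _ le_rfl⟩
        fv := ?_
        fp := ⟨0, Bd.zero _ _ le_rfl⟩
        symm := ?_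
        tdξ := fun _ => TD.zero _ _
        tdv := ?_
        det := ?_
        div := ?_
        bF := ?_
        bB := ?_
        bG := ?_
        bR := ?_
        bA := ?_ }
    · intro a j
      show |(((if a = 1 ∧ j = 0 then 1 else 0 : ℤ)) : ℝ)| ≤ 1
      split_ifs <;> simp
    · intro a j hj
      show (if a = 1 ∧ j = 0 then 1 else 0 : ℤ) = 0
      rw [if_neg]
      rintro ⟨-, rfl⟩
      exact absurd hj (by show ¬ (1 ≤ 0); omega)
    · intro a
      fin_cases a
      · show Lev 1 ((RInitA_d T0).v 0)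
        rw [hv0]; exact RInitA_lev _ _
      · show Lev 1 ((RInitA_d T0).v 1)
        rw [hv1]; exact Lev.zero _
    · intro a b
      rcases hR a b with h | h
      · rw [h]; exact Lev.zero _
      · rw [h]; exact RInitA_lev _ _
    · intro a
      fin_cases a
      · show IsR ((RInitA_d T0).v 0)
        rw [hv0]; exact hvR
      · show IsR ((RInitA_d T0).v 1)
        rw [hv1]; exact IsR.zero
    · intro a b
      rcases hR a b with h | h
      · rw [h]; exact IsR.zero
      · rw [h]; exact hRR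
    · intro a
      fin_cases a
      · show Cl 0 T0 ((RInitA_d T0).v 0)
        rw [hv0]; exact hvCl
      · show Cl 0 T0 ((RInitA_d T0).v 1)
        rw [hv1]; exact Cl.zero _ _
    · intro a b
      rcases hR a b with h | h
      · rw [h]; exact Cl.zero _ _
      · rw [h]; exact hRCl
    · intro a
      fin_cases a
      · show Fin0 ρ ((RInitA_d T0).v 0)
        rw [hv0]; exact ⟨_, bv⟩
      · show Fin0 ρ ((RInitA_d T0).v 1)
        rw [hv1]; exact ⟨0, Bd.zero _ _ le_rfl⟩
    · intro a b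
      show (if a = b then 0 else RInitA_R T0) = (if b = a then 0 else RInitA_R T0)
      by_cases h : a = b
      · rw [if_pos h, if_pos h.symm]
      · rw [if_neg h, if_neg (fun e => h e.symm)]
    · intro a
      fin_cases a
      · show TD 0 T0 ((RInitA_d T0).v 0) ((RInitA_d T0).rhs 0)
        unfold Dat.rhs
        rw [hv0, RInitA_acc0, RInitA_adv, sub_zero]
        exact RInitA_tdv hT
      · show TD 0 T0 ((RInitA_d T0).v 1) ((RInitA_d T0).rhs 1)
        unfold Dat.rhs
        rw [hv1, RInitA_acc1, RInitA_adv, sub_zero]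
        exact TD.zero _ _
    · rw [RInitA_F]
      simp [det2, idm]
    · rw [RInitA_B]
      show ∑ a, D RInitA_κ a ((RInitA_d T0).v a) = 0
      rw [Fin.sum_univ_two, RInitA_D0, hv1, map_zero, add_zero]
    · intro a b
      show Bd 0 (cr ρ) (D RInitA_κ b 0) c
      rw [map_zero]
      exact Bd.zero _ _ hc
    · intro a
      rw [RInitA_B, div_one]
      fin_cases a
      · show Bd 0 (cr ρ) ((RInitA_d T0).v 0) g
        rw [hv0]; exact bv.mono (by linarith)
      · show Bd 0 (cr ρ) ((RInitA_d T0).v 1) g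
        rw [hv1]; exact Bd.zero _ _ (by linarith)
    · intro a b
      show Bd 0 (cr ρ) (D RInitA_κ b ((RInitA_d T0).v a)) g
      fin_cases a
      · show Bd 0 (cr ρ) (D RInitA_κ b ((RInitA_d T0).v 0)) g
        rw [hv0]
        fin_cases b
        · show Bd 0 (cr ρ) (D RInitA_κ 0 (RInitA_v T0)) g
          rw [RInitA_D0]; exact Bd.zero _ _ (by linarith)
        · exact bDv.mono (by linarith)
      · show Bd 0 (cr ρ) (D RInitA_κ b ((RInitA_d T0).v 1)) g
        rw [hv1, map_zero]; exact Bd.zero _ _ (by linarith)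
    · intro a b
      rcases hR a b with h | h
      · rw [h]; exact Bd.zero _ _ hσ0
      · rw [h]
        refine bR.mono (le_trans ?_ hσ)
        rw [mul_one_div]
        exact div_le_div_of_nonneg_right (by norm_num) hT0.le
    · intro a
      fin_cases a
      · show Bd 0 (cr ρ) ((RInitA_d T0).acc 0) A
        rw [RInitA_acc0]; exact bw.mono (by linarith)
      · show Bd 0 (cr ρ) ((RInitA_d T0).acc 1) A
        rw [RInitA_acc1]; exact Bd.zero _ _ (by linarith)
  · intro t ht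
    have hX : Xm (RInitA_d T0) t = id := by
      funext z a
      show z a + (ev RInitA_κ 0 z t).re = z a
      rw [ev_zero]
      simp
    refine ⟨by rw [hX]; exact Function.bijective_id, ?_⟩
    intro z a
    rw [hX]
    show Vin T0 z t a = (ev RInitA_κ ((RInitA_d T0).v a) z t).re
    fin_cases a
    · show Vin T0 z t 0 = (ev RInitA_κ ((RInitA_d T0).v 0) z t).re
      rw [hv0]
      unfold RInitA_v
      rw [RInitA_ev]
      rw [RInitA_smul_apply, RInitA_smul_apply, RInitA_φ_apply]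
      have hs : -(Complex.I / 2) * (((1 + clp 0 T0 t / T0 : ℝ)) : ℂ) *
          Complex.exp (Complex.I * (z 1 : ℂ)) +
          (Complex.I / 2) * (((1 + clp 0 T0 t / T0 : ℝ)) : ℂ) *
          Complex.exp (-(Complex.I * (z 1 : ℂ))) =
          (((1 + clp 0 T0 t / T0) * Real.sin (z 1) : ℝ) : ℂ) := by
        rw [Complex.ofReal_mul, Complex.ofReal_sin, Complex.sin]
        rw [show -(z 1 : ℂ) * Complex.I = -(Complex.I * (z 1 : ℂ)) by ring,
          show (z 1 : ℂ) * Complex.I = Complex.I * (z 1 : ℂ) by ring]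
        ring
      rw [hs, Complex.ofReal_re]
      simp [Vin]
    · show Vin T0 z t 1 = (ev RInitA_κ ((RInitA_d T0).v 1) z t).re
      rw [hv1, ev_zero]
      simp [Vin]

end ES

end

section

/-!
Project ES, Part III, module R2Dc: the initial field is a bad piece of stage `n0`.

`T0 = max 1 (max (hN n0) (100/sigN n0))`, `lam = 1`, `g = gN n0` (`gw`: `2 lamN wN ≤ gN`, `lamN ≥ 1`),
`init_BI`.
-/

open MeasureTheory Set Filter Topology

namespace ES

theorem init_BdP {C0 : ℝ} (hC : 1 ≤ C0) {p : ℕ} {β : ℝ} {n0 : ℕ} (hP : PC C0 p β n0)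
    (hg : 100 ≤ gN C0 β n0) :
    ∃ T0 : ℝ, 1 ≤ T0 ∧ BdP C0 β T0 n0 (Vin T0) 0 T0 := by
  have hn4 := hP.n4
  have hn0 : (4 : ℝ) ≤ (n0 : ℝ) := by exact_mod_cast hn4
  have hσ : 0 < sigN β n0 := by
    unfold sigN del
    positivity
  have hlam : (1 : ℝ) ≤ (lamN n0 : ℝ) := by
    have : 1 ≤ lamN n0 := Nat.one_le_two_pow
    exact_mod_cast this
  have hw0 : 0 ≤ wN C0 β n0 := Real.sqrt_nonneg _
  have hwg : 1 * wN C0 β n0 ≤ gN C0 β n0 := by
    have h1 := hP.gw
    have h2 : 1 * wN C0 β n0 ≤ 2 * (lamN n0 : ℝ) * wN C0 β n0 :=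
      mul_le_mul_of_nonneg_right (by linarith) hw0
    linarith
  set T0 : ℝ := max 1 (max (hN C0 β n0) (100 / sigN β n0)) with hT0
  have h1 : 1 ≤ T0 := le_max_left _ _
  have h2 : hN C0 β n0 ≤ T0 := (le_max_left _ _).trans (le_max_right _ _)
  have h3 : 100 / sigN β n0 ≤ T0 := (le_max_right _ _).trans (le_max_right _ _)
  have h4 : 100 / T0 ≤ sigN β n0 := by
    rw [div_le_iff₀ hσ] at h3
    rw [div_le_iff₀ (by linarith)]
    linarith
  have hr0 : 0 ≤ rN n0 := by
    unfold rN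
    positivity
  have hr2 : rN n0 ≤ 2 := by
    unfold rN
    have : 1 / (n0 : ℝ) ≤ 1 := by
      rw [div_le_one (by linarith)]
      linarith
    linarith
  have hc0 : 0 ≤ cN n0 := by
    unfold cN
    have : (1 / 2 : ℝ) ^ n0 ≤ 1 := pow_le_one₀ (by norm_num) (by norm_num)
    have h5 : 0 ≤ 1 - (1 / 2 : ℝ) ^ n0 := by linarith
    positivity
  refine ⟨T0, h1, ?_, ?_, 1, gN C0 β n0, le_rfl, ?_, hwg, le_rfl,
    init_BI h1 h4 hr0 hr2 hc0 hg hg⟩
  · rw [sub_zero]
    exact h2
  · rw [sub_zero]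
  · linarith

end ES

end
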