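import Pool.Agent.H16.TSS.M10
import Pool.Agent.H16.TSS.M15
import Pool.Agent.H16.TSS.M21
import Pool.Agent.H16.TSS.M22

/-! The parts of this file: ES.R2D, ES.R3Da, ES.R3Dc, ES.R3Df. -/

section

/-!
Project ES, Part III, module R2D: the two-dimensional theorem (assembly, complete).
-/

open MeasureTheory Set Filter Topology

namespace ES

/-- The solution in two dimensions. -/
structure Sol2 (β T0 : ℝ) (V : Fld) (B : Set ℝ) : Prop where
  pos : 0 < T0
  closed : IsClosed B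
  sub : B ⊆ Icc 0 T0
  zero : (0 : ℝ) ∈ B
  last : T0 ∈ B
  dim : dimH B ≤ ENNReal.ofReal (2 * β / (1 - β))
  per : ∀ t ∈ Icc 0 T0, PerF V t
  df : ∀ t ∈ Icc 0 T0, DF V t
  cont : ContinuousOn (uc V) (univ ×ˢ Icc 0 T0)
  hold : ∃ C : ℝ, ∀ x y, ∀ s ∈ Icc 0 T0, ∀ t ∈ Icc 0 T0, ∀ a,
    |V x s a - V y t a| ≤ C * (‖x - y‖ + |s - t|) ^ β
  weak : ∀ φ : Fld, Tst φ →
    (∃ Γ : ℝ, ∀ x τ a b, |fderiv ℝ (fun y => φ y τ a) x (Pi.single b 1)| ≤ Γ) →
    (∀ x, φ x 0 = 0) → (∀ x, φ x T0 = 0) → ∫ t in (0)..T0, wf V φ t = 0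
  smooth : ∀ n : ℕ, ContDiffOn ℝ n (uc V) (univ ×ˢ (Ioo 0 T0 \ B))
  energy : ∫ x in Bx, ∑ a, V x 0 a ^ 2 ≠ ∫ x in Bx, ∑ a, V x T0 a ^ 2

theorem exists_sol2 (hF : BIFacts) {C0 : ℝ} (hC : 1 ≤ C0) {p : ℕ} (hB : BlockStatement C0 p)
    {β : ℝ} (hβ0 : 0 ≤ β) (hβ : β < 1 / 3) :
    ∃ (T0 : ℝ) (V : Fld) (B : Set ℝ), Sol2 β T0 V B := by
  obtain ⟨n0, hP, hg⟩ := exists_start hC p hβ0 hβ
  obtain ⟨T0, hT0, h0⟩ := init_BdP hC (hP n0 le_rfl) hg
  have hT : 0 < T0 := by linarith
  obtain ⟨V, τ, hS⟩ := exists_stages hF hC hB hP hT h0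
  obtain ⟨v, hL, hv⟩ := hS.lseq hF hC hβ0 hβ hP hT (fun x t a => Vin_bdd hT0 x t a)
  refine ⟨T0, Vlim V, Bset τ, ?_⟩
  exact
    { pos := hT
      closed := Bset_closed τ
      sub := hS.Bset_sub
      zero := hS.zero_mem
      last := hS.T0_mem
      dim := hS.dimH_le hC hβ0 hβ hP
      per := fun t ht => hL.lim_per ht
      df := fun t ht => hL.lim_df ht
      cont := hL.cont
      hold := hL.hoelder hβ0 (by linarith) (hoelder_sum hC hβ0 hβ hP hv)
      weak := by
        rintro φ hφ ⟨Γ, hΓ⟩ h1 h2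
        rw [hL.weak hφ hΓ]
        simp [pr, h1, h2]
      smooth := fun n => hL.smooth n
      energy := by
        have e0 : ∀ x, Vlim V x 0 = Vin T0 x 0 := fun x => by rw [hL.at_zero, hS.V0]
        have e1 : ∀ x, Vlim V x T0 = Vin T0 x T0 := fun x => by rw [hL.at_T0, hS.V0]
        simp only [e0, e1]
        exact Vin_energy hT0 }

end ES

end

section

/-!
Project ES, Part III, module R3Da: continuity, periodicity, square integrability of `v3`.
(`t ∈ Icc 0 T` implies `T0/T*t ∈ Icc 0 T0`; a continuous function is bounded on the compact closure of the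
cell times `Icc 0 T`; measurability from `ContinuousOn.aestronglyMeasurable`.)
-/

open MeasureTheory Set EulerTimes

namespace ES

private theorem R3Da_map {T0 T t : ℝ} (hT0 : 0 < T0) (hT : 0 < T) (ht : t ∈ Icc 0 T) :
    T0 / T * t ∈ Icc 0 T0 := by
  have h1 : 0 < T0 / T := div_pos hT0 hT
  refine ⟨mul_nonneg h1.le ht.1, ?_⟩
  calc T0 / T * t ≤ T0 / T * T := mul_le_mul_of_nonneg_left ht.2 h1.le
    _ = T0 := by field_simp

private theorem R3Da_prj : Continuous prj := by
  unfold prj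
  fun_prop

theorem v3_cont {β T0 : ℝ} {V : Fld} {B : Set ℝ} (h : Sol2 β T0 V B) {T : ℝ} (hT : 0 < T) :
    ContinuousOn (fun p : R3 × ℝ => v3 (T0 / T) V p.1 p.2) (univ ×ˢ Icc 0 T) := by
  have hq : Continuous fun p : R3 × ℝ => (prj p.1, T0 / T * p.2) :=
    (R3Da_prj.comp continuous_fst).prodMk (continuous_const.mul continuous_snd)
  have h1 : ContinuousOn (fun p : R3 × ℝ => uc V (prj p.1, T0 / T * p.2)) (univ ×ˢ Icc 0 T) := by
    refine h.cont.comp hq.continuousOn ?_
    intro p hp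
    exact ⟨mem_univ _, R3Da_map h.pos hT hp.2⟩
  have h2 : ∀ a, ContinuousOn (fun p : R3 × ℝ => V (prj p.1) (T0 / T * p.2) a) (univ ×ˢ Icc 0 T) :=
    fun a => (continuousOn_pi.1 h1 a)
  unfold v3
  refine (PiLp.continuous_toLp 2 (fun _ : Fin 3 => ℝ)).comp_continuousOn (continuousOn_pi.2 ?_)
  intro i
  fin_cases i
  · exact (continuousOn_const (c := T0 / T / (2 * Real.pi))).mul (h2 0)
  · exact (continuousOn_const (c := T0 / T / (2 * Real.pi))).mul (h2 1)
  · exact continuousOn_const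

theorem v3_periodic {β T0 : ℝ} {V : Fld} {B : Set ℝ} (h : Sol2 β T0 V B) {T : ℝ} (hT : 0 < T) :
    ∀ t ∈ Icc 0 T, Periodic3 fun x => v3 (T0 / T) V x t := by
  intro t ht x n
  have h1 := h.per (T0 / T * t) (R3Da_map h.pos hT ht) (prj x) (fun a => n (Fin.castSucc a))
  have h2 : prj (x + WithLp.toLp 2 fun i => (n i : ℝ)) =
      fun a => prj x a + 2 * Real.pi * n (Fin.castSucc a) := by
    funext a
    unfold prj
    simp
    ring
  simp only
  unfold v3
  rw [h2, h1]

theorem v3_square {β T0 : ℝ} {V : Fld} {B : Set ℝ} (h : Sol2 β T0 V B) {T : ℝ} (hT : 0 < T) :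
    MemLp (fun p : R3 × ℝ => v3 (T0 / T) V p.1 p.2) 2 (volume.restrict (Cell ×ˢ Icc 0 T)) := by
  obtain ⟨K, hK⟩ : ∃ K : Set R3, K = (fun y : Fin 3 → ℝ => (WithLp.toLp 2 y : R3)) ''
      (Set.pi univ fun _ => Icc (0 : ℝ) 1) := ⟨_, rfl⟩
  have hKc : IsCompact K := by
    rw [hK]
    exact (isCompact_univ_pi fun _ => isCompact_Icc).image (PiLp.continuous_toLp 2 (fun _ : Fin 3 => ℝ))
  have hsub : Cell ⊆ K := by
    intro x hx
    rw [hK]
    refine ⟨fun i => x i, fun i _ => ⟨(hx i).1, (hx i).2.le⟩, ?_⟩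
    rfl
  have hKT : IsCompact (K ×ˢ Icc (0 : ℝ) T) := hKc.prod isCompact_Icc
  have hcont : ContinuousOn (fun p : R3 × ℝ => v3 (T0 / T) V p.1 p.2) (K ×ˢ Icc 0 T) :=
    (v3_cont h hT).mono (prod_mono (subset_univ _) le_rfl)
  obtain ⟨C, hC⟩ := hKT.exists_bound_of_continuousOn hcont
  have : IsFiniteMeasure ((volume : Measure (R3 × ℝ)).restrict (K ×ˢ Icc (0 : ℝ) T)) :=
    ⟨by
      rw [Measure.restrict_apply_univ]
      exact hKT.measure_lt_top⟩
  have h1 : MemLp (fun p : R3 × ℝ => v3 (T0 / T) V p.1 p.2) 2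
      ((volume : Measure (R3 × ℝ)).restrict (K ×ˢ Icc (0 : ℝ) T)) :=
    MemLp.of_bound (hcont.aestronglyMeasurable hKT.measurableSet) C
      ((ae_restrict_iff' hKT.measurableSet).2 (Filter.Eventually.of_forall hC))
  exact h1.mono_measure (Measure.restrict_mono (prod_mono hsub le_rfl) le_rfl)

end ES

end

section

/-!
Project ES, Part III, module R3Dc: at each time the three-dimensional integrand reduces to
`wf V (avg c φ)`, `c = T0/T`.

`cell_integral`; with `s = c t`: `∫ ∂_t φ_a dr = c ∂_s (avg)_a`, `∫ ∂_b φ_a dr = 2π ∂_b (avg)_a`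
(`avg_deriv`, `avg_fderiv`); the left side is
`(2π)^(-2) ∫_Bx [(c/2π) c V_a ∂_s avg_a + (c/2π)² 2π V_a V_b ∂_b avg_a] = c²/(2π)³ wf V (avg c φ) (c t)`.
-/

open MeasureTheory Set EulerTimes

namespace ES

private theorem R3Dc_prj_emb (z : Fin 2 → ℝ) (r : ℝ) : prj (emb z r) = z := by
  funext a
  have hpi : (2 * Real.pi) ≠ 0 := by positivity
  fin_cases a
  · show 2 * Real.pi * (emb z r) (Fin.castSucc (0 : Fin 2)) = z 0
    simp only [emb, Fin.castSucc_zero]
    simp
    field_simp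
  · show 2 * Real.pi * (emb z r) (Fin.castSucc (1 : Fin 2)) = z 1
    simp only [emb]
    simp
    field_simp

private theorem R3Dc_v3_emb (c : ℝ) (V : Fld) (z : Fin 2 → ℝ) (r t : ℝ) (a : Fin 2) :
    v3 c V (emb z r) t (Fin.castSucc a) = c / (2 * Real.pi) * V z (c * t) a := by
  unfold v3
  rw [R3Dc_prj_emb]
  fin_cases a <;> simp

private theorem R3Dc_v3_last (c : ℝ) (V : Fld) (x : R3) (t : ℝ) :
    v3 c V x t (Fin.last 2) = 0 := by
  unfold v3
  simp [Fin.last]

private theorem R3Dc_cont_deriv {T : ℝ} {φ : R3 → ℝ → R3} (hφ : TestField T φ) (t : ℝ)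
    (i : Fin 3) : Continuous fun x => deriv (fun s => φ x s i) t := by
  have h1 : ContDiff ℝ 1 (fun p : R3 × ℝ => φ p.1 p.2 i) := by
    have h := hφ.smooth 1
    have h' : ContDiff ℝ 1 (fun p : R3 × ℝ => φ p.1 p.2) := by exact_mod_cast h
    exact (EuclideanSpace.proj (𝕜 := ℝ) (ι := Fin 3) i).contDiff.comp h'
  have h2 : ∀ x, deriv (fun s => φ x s i) t =
      fderiv ℝ (fun p : R3 × ℝ => φ p.1 p.2 i) (x, t) (0, 1) := by
    intro x
    have hd : HasFDerivAt (fun p : R3 × ℝ => φ p.1 p.2 i)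
        (fderiv ℝ (fun p : R3 × ℝ => φ p.1 p.2 i) (x, t)) (x, t) :=
      (h1.differentiable (by norm_num) (x, t)).hasFDerivAt
    have hc : HasDerivAt (fun s : ℝ => (x, s)) ((0 : R3), (1 : ℝ)) t :=
      (hasDerivAt_const t x).prodMk (hasDerivAt_id t)
    exact (hd.comp_hasDerivAt t hc).deriv
  simp_rw [h2]
  have h3 : Continuous (fderiv ℝ (fun p : R3 × ℝ => φ p.1 p.2 i)) :=
    h1.continuous_fderiv (by norm_num)
  exact (h3.comp (by fun_prop : Continuous fun x : R3 => (x, t))).clm_apply continuous_const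

private theorem R3Dc_cont_pd {T : ℝ} {φ : R3 → ℝ → R3} (hφ : TestField T φ) (t : ℝ)
    (i j : Fin 3) : Continuous fun x => pd j (fun y => φ y t i) x := by
  have h1 : ContDiff ℝ 1 (fun x : R3 => φ x t i) := by
    have h := hφ.smooth 1
    have h' : ContDiff ℝ 1 (fun p : R3 × ℝ => φ p.1 p.2) := by exact_mod_cast h
    have h2 : ContDiff ℝ 1 (fun x : R3 => (x, t)) := contDiff_id.prodMk contDiff_const
    exact (EuclideanSpace.proj (𝕜 := ℝ) (ι := Fin 3) i).contDiff.comp (h'.comp h2)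
  unfold pd
  exact (h1.continuous_fderiv (by norm_num)).clm_apply continuous_const

private theorem R3Dc_cont_emb (z : Fin 2 → ℝ) : Continuous fun r => emb z r := by
  unfold emb
  refine (PiLp.continuous_toLp 2 _).comp ?_
  refine continuous_pi fun i => ?_
  fin_cases i
  · exact continuous_const
  · exact continuous_const
  · exact continuous_id

theorem v3_weak_time {β T0 : ℝ} {V : Fld} {B : Set ℝ} (h : Sol2 β T0 V B) {T : ℝ} (hT : 0 < T)
    {φ : R3 → ℝ → R3} (hφ : TestField T φ) {t : ℝ} (ht : t ∈ Icc 0 T) :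
    ∫ x in Cell, ((∑ i, v3 (T0 / T) V x t i * deriv (fun s => φ x s i) t) +
      ∑ i, ∑ j, v3 (T0 / T) V x t i * v3 (T0 / T) V x t j * pd j (fun y => φ y t i) x) =
    (T0 / T) ^ 2 / (2 * Real.pi) ^ 3 * wf V (avg (T0 / T) φ) (T0 / T * t) := by
  have hpi : (2 * Real.pi) ≠ 0 := by positivity
  set c : ℝ := T0 / T with hc
  have hc0 : 0 < c := div_pos h.pos hT
  have hv : Continuous fun x => v3 c V x t := by
    have h1 := v3_cont h hT
    have h2 : Continuous fun x : R3 => ((x, t) : R3 × ℝ) := by fun_prop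
    have h3 : ContinuousOn (fun x : R3 => v3 c V x t) univ :=
      h1.comp h2.continuousOn (fun x _ => ⟨mem_univ _, ht⟩)
    exact continuousOn_univ.1 h3
  have hvi : ∀ i : Fin 3, Continuous fun x => v3 c V x t i := fun i =>
    (EuclideanSpace.proj (𝕜 := ℝ) (ι := Fin 3) i).continuous.comp hv
  have hf : Continuous fun x => ((∑ i, v3 c V x t i * deriv (fun s => φ x s i) t) +
      ∑ i, ∑ j, v3 c V x t i * v3 c V x t j * pd j (fun y => φ y t i) x) := by
    refine (continuous_finsetSum _ fun i _ => (hvi i).mul (R3Dc_cont_deriv hφ t i)).add ?_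
    exact continuous_finsetSum _ fun i _ => continuous_finsetSum _ fun j _ =>
      ((hvi i).mul (hvi j)).mul (R3Dc_cont_pd hφ t i j)
  rw [cell_integral hf]
  unfold wf
  rw [← integral_const_mul, ← integral_const_mul]
  refine setIntegral_congr_fun measurableSet_Icc fun z _ => ?_
  have hcd : ∀ a : Fin 2, Continuous
      (fun r => deriv (fun s => φ (emb z r) s (Fin.castSucc a)) t) := fun a =>
    (R3Dc_cont_deriv hφ t (Fin.castSucc a)).comp (R3Dc_cont_emb z)
  have hcp : ∀ a b : Fin 2, Continuous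
      (fun r => pd (Fin.castSucc b) (fun y => φ y t (Fin.castSucc a)) (emb z r)) :=
    fun a b => (R3Dc_cont_pd hφ t (Fin.castSucc a) (Fin.castSucc b)).comp (R3Dc_cont_emb z)
  have e1 : ∀ r, ((∑ i, v3 c V (emb z r) t i * deriv (fun s => φ (emb z r) s i) t) +
      ∑ i, ∑ j, v3 c V (emb z r) t i * v3 c V (emb z r) t j *
        pd j (fun y => φ y t i) (emb z r)) =
      (∑ a : Fin 2, c / (2 * Real.pi) * V z (c * t) a *
        deriv (fun s => φ (emb z r) s (Fin.castSucc a)) t) +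
      ∑ a : Fin 2, ∑ b : Fin 2, (c / (2 * Real.pi)) ^ 2 * (V z (c * t) a * V z (c * t) b) *
        pd (Fin.castSucc b) (fun y => φ y t (Fin.castSucc a)) (emb z r) := by
    intro r
    rw [Fin.sum_univ_castSucc, Fin.sum_univ_castSucc (n := 2)
      (f := fun i => ∑ j, v3 c V (emb z r) t i * v3 c V (emb z r) t j *
        pd j (fun y => φ y t i) (emb z r))]
    simp only [R3Dc_v3_last, zero_mul, add_zero, Finset.sum_const_zero]
    congr 1
    · refine Finset.sum_congr rfl fun a _ => ?_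
      rw [R3Dc_v3_emb]
    · refine Finset.sum_congr rfl fun a _ => ?_
      rw [Fin.sum_univ_castSucc]
      simp only [R3Dc_v3_last, mul_zero, zero_mul, add_zero]
      refine Finset.sum_congr rfl fun b _ => ?_
      rw [R3Dc_v3_emb, R3Dc_v3_emb]
      ring
  have e2 : (∫ r in (0 : ℝ)..1, ((∑ i, v3 c V (emb z r) t i *
      deriv (fun s => φ (emb z r) s i) t) +
      ∑ i, ∑ j, v3 c V (emb z r) t i * v3 c V (emb z r) t j *
        pd j (fun y => φ y t i) (emb z r))) =
      (∑ a : Fin 2, c / (2 * Real.pi) * V z (c * t) a *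
        ∫ r in (0 : ℝ)..1, deriv (fun s => φ (emb z r) s (Fin.castSucc a)) t) +
      ∑ a : Fin 2, ∑ b : Fin 2, (c / (2 * Real.pi)) ^ 2 * (V z (c * t) a * V z (c * t) b) *
        ∫ r in (0 : ℝ)..1,
          pd (Fin.castSucc b) (fun y => φ y t (Fin.castSucc a)) (emb z r) := by
    simp_rw [e1]
    rw [intervalIntegral.integral_add]
    · congr 1
      · rw [intervalIntegral.integral_finsetSum]
        · refine Finset.sum_congr rfl fun a _ => ?_
          rw [intervalIntegral.integral_const_mul]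
        · intro a _
          exact (continuous_const.mul (hcd a)).intervalIntegrable _ _
      · rw [intervalIntegral.integral_finsetSum]
        · refine Finset.sum_congr rfl fun a _ => ?_
          rw [intervalIntegral.integral_finsetSum]
          · refine Finset.sum_congr rfl fun b _ => ?_
            rw [intervalIntegral.integral_const_mul]
          · intro b _
            exact (continuous_const.mul (hcp a b)).intervalIntegrable _ _
        · intro a _
          exact (continuous_finsetSum _ fun b _ =>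
            continuous_const.mul (hcp a b)).intervalIntegrable _ _
    · exact (continuous_finsetSum _ fun a _ =>
        continuous_const.mul (hcd a)).intervalIntegrable _ _
    · exact (continuous_finsetSum _ fun a _ => continuous_finsetSum _ fun b _ =>
        continuous_const.mul (hcp a b)).intervalIntegrable _ _
  have e3 : ∀ a : Fin 2, (∫ r in (0 : ℝ)..1,
      deriv (fun s => φ (emb z r) s (Fin.castSucc a)) t) =
      c * deriv (fun s => avg c φ z s a) (c * t) := by
    intro a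
    rw [avg_deriv hc0 hφ z (c * t) a, mul_div_cancel_left₀ _ hc0.ne']
    field_simp
  have e4 : ∀ a b : Fin 2, (∫ r in (0 : ℝ)..1,
      pd (Fin.castSucc b) (fun y => φ y t (Fin.castSucc a)) (emb z r)) =
      (2 * Real.pi) * fderiv ℝ (fun y => avg c φ y (c * t) a) z (Pi.single b 1) := by
    intro a b
    rw [avg_fderiv hc0 hφ z (c * t) a b, mul_div_cancel_left₀ _ hc0.ne']
    field_simp
  simp only
  rw [e2]
  simp_rw [e3, e4]
  rw [mul_add, mul_add, Finset.mul_sum, Finset.mul_sum, Finset.mul_sum, Finset.mul_sum]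
  congr 1
  · refine Finset.sum_congr rfl fun a _ => ?_
    field_simp
  · refine Finset.sum_congr rfl fun a _ => ?_
    rw [Finset.mul_sum, Finset.mul_sum]
    refine Finset.sum_congr rfl fun b _ => ?_
    field_simp

end ES

end

section

/-!
Project ES, Part III, module R3Df: Hoelder class and energy of `v3`.
Hoelder: `‖prj x - prj y‖ ≤ 2π ‖x - y‖`, the norm of `R3` of a vector with three entries bounded by `a` is at
most `2 a`, `(K d)^β = K^β d^β`.  Energy: `‖v3‖² = (c/2π)² ∑ V_a²`, `cell_integral`, times `0` and `T`.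
-/

open MeasureTheory Set EulerTimes

namespace ES

private theorem R3Df_norm (u : R3) {A : ℝ} (hA : 0 ≤ A) (h0 : |u 0| ≤ A) (h1 : |u 1| ≤ A)
    (h2 : u 2 = 0) : ‖u‖ ≤ 2 * A := by
  rw [EuclideanSpace.norm_eq, Fin.sum_univ_three, h2]
  simp only [Real.norm_eq_abs, sq_abs]
  rw [Real.sqrt_le_left (by linarith)]
  have h3 : u 0 ^ 2 ≤ A ^ 2 := by
    rw [← sq_abs]
    exact pow_le_pow_left₀ (abs_nonneg _) h0 2
  have h4 : u 1 ^ 2 ≤ A ^ 2 := by
    rw [← sq_abs]
    exact pow_le_pow_left₀ (abs_nonneg _) h1 2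
  nlinarith [sq_nonneg A]

private theorem R3Df_prj (x y : R3) : ‖prj x - prj y‖ ≤ 2 * Real.pi * ‖x - y‖ := by
  rw [pi_norm_le_iff_of_nonneg (by positivity)]
  intro a
  have h : (prj x - prj y) a = 2 * Real.pi * (x - y) (Fin.castSucc a) := by
    simp only [prj, Pi.sub_apply, PiLp.sub_apply]
    ring
  rw [h, norm_mul, Real.norm_of_nonneg (by positivity : (0 : ℝ) ≤ 2 * Real.pi)]
  exact mul_le_mul_of_nonneg_left (PiLp.norm_apply_le (x - y) _) (by positivity)

theorem v3_holder {β T0 : ℝ} (hβ : 0 ≤ β) {V : Fld} {B : Set ℝ} (h : Sol2 β T0 V B) {T : ℝ}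
    (hT : 0 < T) : HolderClass β T (v3 (T0 / T) V) := by
  refine ⟨v3_cont h hT, ?_⟩
  obtain ⟨C, hC⟩ := h.hold
  have hT0 : 0 < T0 := h.pos
  have hc : 0 < T0 / T := div_pos hT0 hT
  have hmem : ∀ s ∈ Icc 0 T, T0 / T * s ∈ Icc 0 T0 := by
    rintro s ⟨hs0, hs1⟩
    refine ⟨by positivity, ?_⟩
    calc T0 / T * s ≤ T0 / T * T := mul_le_mul_of_nonneg_left hs1 hc.le
      _ = T0 := by field_simp
  generalize T0 / T = c at *
  refine ⟨2 * (c / (2 * Real.pi) * (|C| * (2 * Real.pi + c) ^ β)), ?_⟩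
  intro x y s hs t ht
  have hd0 : 0 ≤ ‖x - y‖ + |s - t| := by positivity
  have hdist : ‖prj x - prj y‖ + |c * s - c * t| ≤ (2 * Real.pi + c) * (‖x - y‖ + |s - t|) := by
    have h1 := R3Df_prj x y
    have h2 : |c * s - c * t| = c * |s - t| := by
      rw [← mul_sub, abs_mul, abs_of_pos hc]
    have h3 : 0 ≤ 2 * Real.pi * |s - t| := by positivity
    have h4 : 0 ≤ c * ‖x - y‖ := by positivity
    rw [h2]
    nlinarith
  have hent : ∀ a, |V (prj x) (c * s) a - V (prj y) (c * t) a| ≤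
      |C| * (2 * Real.pi + c) ^ β * (‖x - y‖ + |s - t|) ^ β := by
    intro a
    calc |V (prj x) (c * s) a - V (prj y) (c * t) a|
        ≤ C * (‖prj x - prj y‖ + |c * s - c * t|) ^ β := hC _ _ _ (hmem s hs) _ (hmem t ht) a
      _ ≤ |C| * (‖prj x - prj y‖ + |c * s - c * t|) ^ β :=
          mul_le_mul_of_nonneg_right (le_abs_self C) (Real.rpow_nonneg (by positivity) _)
      _ ≤ |C| * ((2 * Real.pi + c) * (‖x - y‖ + |s - t|)) ^ β :=
          mul_le_mul_of_nonneg_left (Real.rpow_le_rpow (by positivity) hdist hβ) (abs_nonneg _)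
      _ = |C| * (2 * Real.pi + c) ^ β * (‖x - y‖ + |s - t|) ^ β := by
          rw [Real.mul_rpow (by positivity) hd0]
          ring
  have hk : 0 ≤ c / (2 * Real.pi) := by positivity
  have hA : 0 ≤ c / (2 * Real.pi) *
      (|C| * (2 * Real.pi + c) ^ β * (‖x - y‖ + |s - t|) ^ β) := by
    have h1 : 0 ≤ (2 * Real.pi + c) ^ β := Real.rpow_nonneg (by positivity) _
    have h2 : 0 ≤ (‖x - y‖ + |s - t|) ^ β := Real.rpow_nonneg hd0 _
    positivity
  have hn := R3Df_norm (v3 c V x s - v3 c V y t) hA (by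
      have h1 : (v3 c V x s - v3 c V y t) 0 =
          c / (2 * Real.pi) * (V (prj x) (c * s) 0 - V (prj y) (c * t) 0) := by
        simp [v3]
        ring
      rw [h1, abs_mul, abs_of_nonneg hk]
      exact mul_le_mul_of_nonneg_left (hent 0) hk) (by
      have h1 : (v3 c V x s - v3 c V y t) 1 =
          c / (2 * Real.pi) * (V (prj x) (c * s) 1 - V (prj y) (c * t) 1) := by
        simp [v3]
        ring
      rw [h1, abs_mul, abs_of_nonneg hk]
      exact mul_le_mul_of_nonneg_left (hent 1) hk) (by simp [v3])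
  refine hn.trans (le_of_eq ?_)
  ring

private theorem R3Df_sq (c : ℝ) (V : Fld) (x : R3) (t : ℝ) :
    ‖v3 c V x t‖ ^ 2 = (c / (2 * Real.pi)) ^ 2 * ∑ a, V (prj x) (c * t) a ^ 2 := by
  rw [EuclideanSpace.norm_eq, Real.sq_sqrt (by positivity), Fin.sum_univ_three, Fin.sum_univ_two]
  simp only [Real.norm_eq_abs, sq_abs]
  have h0 : (v3 c V x t) 0 = c / (2 * Real.pi) * V (prj x) (c * t) 0 := by simp [v3]
  have h1 : (v3 c V x t) 1 = c / (2 * Real.pi) * V (prj x) (c * t) 1 := by simp [v3]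
  have h2 : (v3 c V x t) 2 = 0 := by simp [v3]
  rw [h0, h1, h2]
  ring

private theorem R3Df_prj_emb (z : Fin 2 → ℝ) (r : ℝ) : prj (emb z r) = z := by
  have hpi : (2 * Real.pi) ≠ 0 := by positivity
  funext a
  fin_cases a
  · simp [prj, emb]
    field_simp
  · simp [prj, emb]
    field_simp

private theorem R3Df_energy {β T0 : ℝ} {V : Fld} {B : Set ℝ} (h : Sol2 β T0 V B) {T : ℝ}
    (hT : 0 < T) {t : ℝ} (ht : t ∈ Icc 0 T) :
    energy (v3 (T0 / T) V) t = 1 / 2 * (((2 * Real.pi) ^ 2)⁻¹ * ((T0 / T / (2 * Real.pi)) ^ 2 *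
      ∫ z in Bx, ∑ a, V z (T0 / T * t) a ^ 2)) := by
  have hcont : Continuous fun x => ‖v3 (T0 / T) V x t‖ ^ 2 := by
    have h1 : Continuous fun x => v3 (T0 / T) V x t := by
      rw [← continuousOn_univ]
      exact (v3_cont h hT).comp (continuous_id.prodMk continuous_const).continuousOn
        fun x _ => ⟨mem_univ _, ht⟩
    exact h1.norm.pow 2
  unfold energy
  rw [cell_integral hcont]
  congr 2
  rw [← integral_const_mul]
  congr 1
  funext z
  simp only [R3Df_sq, R3Df_prj_emb, intervalIntegral.integral_const, sub_zero, one_smul]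

theorem v3_energy {β T0 : ℝ} {V : Fld} {B : Set ℝ} (h : Sol2 β T0 V B) {T : ℝ} (hT : 0 < T) :
    NonConservative T (v3 (T0 / T) V) := by
  refine ⟨0, ⟨le_rfl, hT.le⟩, T, ⟨hT.le, le_rfl⟩, ?_⟩
  rw [R3Df_energy h hT ⟨le_rfl, hT.le⟩, R3Df_energy h hT ⟨hT.le, le_rfl⟩]
  have hT0 : 0 < T0 := h.pos
  have h1 : T0 / T * T = T0 := by field_simp
  rw [mul_zero, h1]
  intro he
  have hk1 : (1 / 2 : ℝ) ≠ 0 := by norm_num
  have hk2 : ((2 * Real.pi) ^ 2)⁻¹ ≠ 0 := by positivity
  have hk3 : (T0 / T / (2 * Real.pi)) ^ 2 ≠ 0 := by positivity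
  exact h.energy (mul_left_cancel₀ hk3 (mul_left_cancel₀ hk2 (mul_left_cancel₀ hk1 he)))

end ES

end
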