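import Pool.Agent.H16.TSS.M10
import Pool.Agent.H16.TSS.M15

/-! The parts of this file: ES.V17, ES.V19, ES.V20, ES.V21. -/

section

/-!
ES-V17 (Part II, helper27): Fourier inversion on the box.

`G` continuous, `2π`-periodic in each variable, with absolutely summable coefficients `fc G m n`.
Then `G x = ∑_{m,n} fc G m n e^{i(m x_0 + n x_1)}`.
Route A: transfer to `UnitAddTorus (Fin 2)` (`x = 2π y`) and use
`UnitAddTorus.hasSum_mFourier_series_apply_of_summable`; the coefficient `mFourierCoeff` is the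
integral over the unit square (`UnitAddTorus`/`AddCircle` measure is the volume of `Ioc 0 1`),
change of variables `x = 2π y` (`Measure.setIntegral_comp_smul`).
Route B: the sum `S(x)` of the series is continuous with the same coefficients as `G`; the continuous
periodic function `G - S` is orthogonal to all characters, hence `0` (Stone-Weierstrass,
`UnitAddTorus.span_mFourier_closure_eq_top`), or iterate the one dimensional theorem
`has_pointwise_sum_fourier_series_of_summable`.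
-/

open MeasureTheory
open scoped Pointwise

namespace ES

/-- Projection to the torus. -/
private def v17_pr (y : Fin 2 → ℝ) : UnitAddTorus (Fin 2) := fun i => (y i : UnitAddCircle)

private theorem v17_quot : IsOpenQuotientMap v17_pr := by
  have h : IsOpenQuotientMap (Pi.map (fun (_ : Fin 2) (y : ℝ) => (y : UnitAddCircle))) :=
    IsOpenQuotientMap.piMap fun _ => QuotientAddGroup.isOpenQuotientMap_mk
  exact h

private theorem v17_lift {G : (Fin 2 → ℝ) → ℂ} (hG : Continuous G) (hp : Per G) :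
    ∃ f : C(UnitAddTorus (Fin 2), ℂ), ∀ y : Fin 2 → ℝ, f (v17_pr y) = G (fun i => 2 * Real.pi * y i) := by
  have hs : Function.Surjective v17_pr := v17_quot.surjective
  let o : UnitAddTorus (Fin 2) → (Fin 2 → ℝ) := Function.surjInv hs
  have ho : ∀ x, v17_pr (o x) = x := Function.surjInv_eq hs
  have key : ∀ y : Fin 2 → ℝ, G (fun i => 2 * Real.pi * o (v17_pr y) i) = G (fun i => 2 * Real.pi * y i) := by
    intro y
    have h1 : v17_pr (o (v17_pr y)) = v17_pr y := ho _
    have h2 : ∀ i, ∃ n : ℤ, o (v17_pr y) i = y i + n := by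
      intro i
      have h3 : ((o (v17_pr y) i : ℝ) : UnitAddCircle) = ((y i : ℝ) : UnitAddCircle) := congrFun h1 i
      have h4 := QuotientAddGroup.eq_iff_sub_mem.1 h3
      obtain ⟨n, hn⟩ := AddSubgroup.mem_zmultiples_iff.1 h4
      refine ⟨n, ?_⟩
      have : (n : ℝ) = o (v17_pr y) i - y i := by simpa using hn
      linarith
    choose n hn using h2
    have := hp (fun i => 2 * Real.pi * y i) n
    rw [← this]
    congr 1
    funext i
    rw [hn i]; ring
  refine ⟨⟨fun x => G (fun i => 2 * Real.pi * o x i), ?_⟩, key⟩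
  rw [v17_quot.isQuotientMap.continuous_iff]
  have : ((fun x => G (fun i => 2 * Real.pi * o x i)) ∘ v17_pr)
      = fun y : Fin 2 → ℝ => G (fun i => 2 * Real.pi * y i) := funext key
  rw [this]
  exact hG.comp (by fun_prop)

private theorem v17_mF (n : Fin 2 → ℤ) (y : Fin 2 → ℝ) :
    UnitAddTorus.mFourier n (v17_pr y) = chx (n 0) (n 1) (fun i => 2 * Real.pi * y i) := by
  unfold UnitAddTorus.mFourier v17_pr chx
  simp only [ContinuousMap.coe_mk, Fin.prod_univ_two, fourier_coe_apply]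
  rw [← Complex.exp_add]
  congr 1
  push_cast
  ring

private theorem v17_coeff {G : (Fin 2 → ℝ) → ℂ} {f : C(UnitAddTorus (Fin 2), ℂ)}
    (hf : ∀ y : Fin 2 → ℝ, f (v17_pr y) = G (fun i => 2 * Real.pi * y i)) (n : Fin 2 → ℤ) :
    UnitAddTorus.mFourierCoeff f n = fc G (n 0) (n 1) := by
  rw [UnitAddTorus.mFourierCoeff_eq_integral f n 0]
  have h1 : ∀ y : Fin 2 → ℝ,
      ((UnitAddTorus.mFourier (-n)) fun i => (y i : UnitAddCircle)) • f (fun i => (y i : UnitAddCircle))
        = (fun x : Fin 2 → ℝ => G x * chx (-(n 0)) (-(n 1)) x) ((2 * Real.pi) • y) := by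
    intro y
    have h2 := v17_mF (-n) y
    have h3 := hf y
    unfold v17_pr at h2 h3
    rw [h2, h3]
    simp only [Pi.neg_apply, smul_eq_mul]
    have h4 : (fun i => 2 * Real.pi * y i) = (2 * Real.pi) • y := by
      funext i; simp
    rw [h4]; ring
  simp only [h1]
  rw [Measure.setIntegral_comp_smul volume (fun x : Fin 2 → ℝ => G x * chx (-(n 0)) (-(n 1)) x) _
    (by positivity : (2 * Real.pi) ≠ 0)]
  have h5 : ((2 * Real.pi) • {x : Fin 2 → ℝ | ∀ i, x i ∈ Set.Ioc ((0 : Fin 2 → ℝ) i) ((0 : Fin 2 → ℝ) i + 1)})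
      = Set.pi Set.univ (fun _ => Set.Ioc (0 : ℝ) (2 * Real.pi)) := by
    ext x
    have h2pi : (0:ℝ) < 2 * Real.pi := by positivity
    rw [Set.mem_smul_set_iff_inv_smul_mem₀ h2pi.ne']
    simp only [Set.mem_setOf_eq, Pi.smul_apply, smul_eq_mul, Pi.zero_apply, zero_add, Set.mem_Ioc,
      Set.mem_pi, Set.mem_univ, true_implies]
    refine forall_congr' fun i => ?_
    constructor
    · rintro ⟨h1, h2⟩
      constructor
      · have := mul_pos h2pi h1
        rwa [mul_inv_cancel_left₀ h2pi.ne'] at this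
      · have := mul_le_mul_of_nonneg_left h2 h2pi.le
        rwa [mul_inv_cancel_left₀ h2pi.ne', mul_one] at this
    · rintro ⟨h1, h2⟩
      constructor
      · positivity
      · rw [inv_mul_le_iff₀ h2pi]; linarith
  rw [h5]
  have h6 : ∫ x in Set.pi Set.univ (fun _ : Fin 2 => Set.Ioc (0 : ℝ) (2 * Real.pi)),
      G x * chx (-(n 0)) (-(n 1)) x = ∫ x in Bx, G x * chx (-(n 0)) (-(n 1)) x := by
    apply setIntegral_congr_set
    have : Bx = Set.Icc (fun _ : Fin 2 => (0:ℝ)) (fun _ => 2 * Real.pi) := rfl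
    rw [this]
    exact Measure.univ_pi_Ioc_ae_eq_Icc
  rw [h6]
  unfold fc
  rw [Complex.real_smul]
  congr 1
  rw [abs_of_pos (by positivity)]
  simp

theorem fourier_inversion {G : (Fin 2 → ℝ) → ℂ} (hG : Continuous G) (hp : Per G)
    (hs : Summable fun p : ℤ × ℤ => ‖fc G p.1 p.2‖) (x : Fin 2 → ℝ) :
    HasSum (fun p : ℤ × ℤ => fc G p.1 p.2 * chx p.1 p.2 x) (G x) := by
  obtain ⟨f, hf⟩ := v17_lift hG hp
  let e : (Fin 2 → ℤ) ≃ ℤ × ℤ := finTwoArrowEquiv ℤ
  have hsum : Summable (UnitAddTorus.mFourierCoeff f) := by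
    have h1 : Summable fun p : ℤ × ℤ => fc G p.1 p.2 := hs.of_norm
    have h2 := (e.summable_iff (f := fun p : ℤ × ℤ => fc G p.1 p.2)).2 h1
    refine h2.congr fun n => ?_
    rw [v17_coeff hf n]; rfl
  have h3 := UnitAddTorus.hasSum_mFourier_series_apply_of_summable hsum
    (v17_pr (fun i => (2 * Real.pi)⁻¹ * x i))
  have hx : (fun i => 2 * Real.pi * ((2 * Real.pi)⁻¹ * x i)) = x := by
    funext i
    rw [mul_inv_cancel_left₀ (by positivity)]
  rw [hf, hx] at h3
  have h4 := (e.symm.hasSum_iff).2 h3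
  refine h4.congr_fun ?_
  intro p
  simp only [Function.comp_apply]
  rw [v17_coeff hf, v17_mF, hx]
  rfl

end ES

end

section

/-!
ES-V19 (Part II, helper27): a field with rapidly decreasing Fourier coefficients is the evaluation
of an element of `WT` with the standard frequencies.

Define `g.co ν t = fc (G · (clp t0 t1 t)) (ν 0) (ν 1)` if `ν` has level 2 (no entry `≥ 2`), `0`
otherwise.  Continuous in `t`: continuity of the parametric integral over the compact box
(`continuousOn_integral_Bx` for real and imaginary part, or directly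
`continuous_parametric_integral_of_continuous` after composing with the clamp).  Bounded by the decay
hypothesis with `k = 0`.
Rapid: for every `N`, `(1+|m|+|n|)^(N+4) ≤ C (1 + |m|^(N+4) + |n|^(N+4))`, so
`(1+len)^N ‖g_ν‖ ≤ C' (1+|m|)^{-2} (1+|n|)^{-2}`, summable over `ℤ × ℤ`; the sum over `Gx` is a sum
over the image of the injection `(m,n) ↦ ix m n` (`eq_ix`, `len_ix`).
Evaluation: `fourier_inversion` and `tsum` over `ix`.  `IsR`: `fc` of a real function is conjugation
symmetric.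
-/

open MeasureTheory

namespace ES

private theorem v19_summable_one : Summable fun m : ℤ => 1 / (1 + |(m : ℝ)|) ^ 2 := by
  have h : Summable fun n : ℕ => 1 / (1 + (n : ℝ)) ^ 2 := by
    have h1 := (summable_nat_add_iff 1).2 (Real.summable_one_div_nat_pow.2 one_lt_two)
    refine h1.congr fun n => ?_
    push_cast
    rw [add_comm]
  rw [summable_int_iff_summable_nat_and_neg]
  constructor
  · refine h.congr fun n => ?_
    simp
  · refine h.congr fun n => ?_
    simp

private theorem v19_summable_two (K : ℝ) :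
    Summable fun p : ℤ × ℤ => K * ((1 / (1 + |(p.1 : ℝ)|) ^ 2) * (1 / (1 + |(p.2 : ℝ)|) ^ 2)) := by
  refine Summable.mul_left K ?_
  exact v19_summable_one.mul_of_nonneg v19_summable_one (fun m => by positivity)
    (fun m => by positivity)

private theorem v19_pow (x y : ℝ) (hx : 0 ≤ x) (hy : 0 ≤ y) (k : ℕ) :
    (1 + x + y) ^ k * ((1 + x) ^ 2 * (1 + y) ^ 2) ≤
      3 ^ (k + 4) * (1 + x ^ (k + 4) + y ^ (k + 4)) := by
  have h1 : (1 + x + y) ^ k * ((1 + x) ^ 2 * (1 + y) ^ 2) ≤ (1 + x + y) ^ (k + 4) := by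
    have a1 : (1 + x) ^ 2 ≤ (1 + x + y) ^ 2 := pow_le_pow_left₀ (by positivity) (by linarith) 2
    have a2 : (1 + y) ^ 2 ≤ (1 + x + y) ^ 2 := pow_le_pow_left₀ (by positivity) (by linarith) 2
    calc (1 + x + y) ^ k * ((1 + x) ^ 2 * (1 + y) ^ 2)
        ≤ (1 + x + y) ^ k * ((1 + x + y) ^ 2 * (1 + x + y) ^ 2) :=
          mul_le_mul_of_nonneg_left (mul_le_mul a1 a2 (by positivity) (by positivity))
            (by positivity)
      _ = _ := by rw [← pow_add, ← pow_add]
  refine h1.trans ?_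
  set M := max 1 (max x y) with hM
  have hM0 : 0 ≤ M := zero_le_one.trans (le_max_left _ _)
  have h2 : 1 + x + y ≤ 3 * M := by
    have b1 : 1 ≤ M := le_max_left _ _
    have b2 : x ≤ M := (le_max_left x y).trans (le_max_right _ _)
    have b3 : y ≤ M := (le_max_right x y).trans (le_max_right _ _)
    linarith
  have h3 : M ^ (k + 4) ≤ 1 + x ^ (k + 4) + y ^ (k + 4) := by
    have c1 : 0 ≤ x ^ (k + 4) := pow_nonneg hx _
    have c2 : 0 ≤ y ^ (k + 4) := pow_nonneg hy _
    rcases max_choice 1 (max x y) with h | h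
    · rw [hM, h, one_pow]; linarith
    · rcases max_choice x y with h' | h'
      · rw [hM, h, h']; linarith
      · rw [hM, h, h']; linarith
  calc (1 + x + y) ^ (k + 4) ≤ (3 * M) ^ (k + 4) := pow_le_pow_left₀ (by positivity) h2 _
    _ = 3 ^ (k + 4) * M ^ (k + 4) := mul_pow _ _ _
    _ ≤ _ := mul_le_mul_of_nonneg_left h3 (by positivity)

private theorem v19_bound {G : (Fin 2 → ℝ) → ℝ → ℝ} {t0 t1 : ℝ} 
    (hd : ∀ k : ℕ, ∃ C : ℝ, ∀ t ∈ Set.Icc t0 t1, ∀ m n : ℤ,
      |(m : ℝ)| ^ k * ‖fc (fun x => (G x t : ℂ)) m n‖ ≤ C ∧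
      |(n : ℝ)| ^ k * ‖fc (fun x => (G x t : ℂ)) m n‖ ≤ C) (k : ℕ) :
    ∃ K : ℝ, ∀ t ∈ Set.Icc t0 t1, ∀ m n : ℤ,
      (1 + |(m : ℝ)| + |(n : ℝ)|) ^ k * ‖fc (fun x => (G x t : ℂ)) m n‖ ≤
        K * ((1 / (1 + |(m : ℝ)|) ^ 2) * (1 / (1 + |(n : ℝ)|) ^ 2)) := by
  obtain ⟨C0, hC0⟩ := hd 0
  obtain ⟨C1, hC1⟩ := hd (k + 4)
  refine ⟨3 ^ (k + 4) * (C0 + C1 + C1), fun t ht m n => ?_⟩
  have h0 := (hC0 t ht m n).1
  have h1 := hC1 t ht m n
  rw [pow_zero, one_mul] at h0
  set N := ‖fc (fun x => (G x t : ℂ)) m n‖ with hN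
  have hN0 : 0 ≤ N := norm_nonneg _
  have hp := mul_le_mul_of_nonneg_right
    (v19_pow |(m : ℝ)| |(n : ℝ)| (abs_nonneg _) (abs_nonneg _) k) hN0
  have hden : 0 < (1 + |(m : ℝ)|) ^ 2 * (1 + |(n : ℝ)|) ^ 2 := by positivity
  have e : 3 ^ (k + 4) * (C0 + C1 + C1) *
      ((1 / (1 + |(m : ℝ)|) ^ 2) * (1 / (1 + |(n : ℝ)|) ^ 2)) =
      3 ^ (k + 4) * (C0 + C1 + C1) / ((1 + |(m : ℝ)|) ^ 2 * (1 + |(n : ℝ)|) ^ 2) := by
    rw [one_div_mul_one_div, mul_one_div]
  rw [e, le_div_iff₀ hden]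
  have h2 : 3 ^ (k + 4) * (1 + |(m : ℝ)| ^ (k + 4) + |(n : ℝ)| ^ (k + 4)) * N ≤
      3 ^ (k + 4) * (C0 + C1 + C1) := by
    rw [mul_assoc]
    refine mul_le_mul_of_nonneg_left ?_ (by positivity)
    linarith [h1.1, h1.2]
  calc (1 + |(m : ℝ)| + |(n : ℝ)|) ^ k * N * ((1 + |(m : ℝ)|) ^ 2 * (1 + |(n : ℝ)|) ^ 2)
      = (1 + |(m : ℝ)| + |(n : ℝ)|) ^ k * ((1 + |(m : ℝ)|) ^ 2 * (1 + |(n : ℝ)|) ^ 2) * N := by
        ring
    _ ≤ _ := hp.trans h2

private theorem v19_continuous_chx (m n : ℤ) : Continuous fun x => chx m n x := by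
  unfold chx; fun_prop

private theorem v19_chx_conj (m n : ℤ) (x : Fin 2 → ℝ) :
    (starRingEnd ℂ) (chx m n x) = chx (-m) (-n) x := by
  unfold chx
  rw [← Complex.exp_conj]
  congr 1
  simp only [map_mul, map_add, Complex.conj_I, Complex.conj_ofReal, map_intCast]
  push_cast
  ring

private theorem v19_fc_conj (u : (Fin 2 → ℝ) → ℝ) (m n : ℤ) :
    fc (fun x => (u x : ℂ)) (-m) (-n) = (starRingEnd ℂ) (fc (fun x => (u x : ℂ)) m n) := by
  unfold fc
  rw [map_mul, ← integral_conj, map_inv₀, map_pow, Complex.conj_ofReal]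
  congr 1
  refine integral_congr_ae (Filter.Eventually.of_forall fun x => ?_)
  simp only [map_mul, Complex.conj_ofReal]
  rw [v19_chx_conj]

private theorem v19_cont {G : (Fin 2 → ℝ) → ℝ → ℝ} {t0 t1 : ℝ} (h01 : t0 ≤ t1)
    (hG : ContinuousOn (fun p : (Fin 2 → ℝ) × ℝ => G p.1 p.2) (Set.univ ×ˢ Set.Icc t0 t1))
    (m n : ℤ) : Continuous fun t => fc (fun x => (G x (clp t0 t1 t) : ℂ)) m n := by
  unfold fc
  refine continuous_const.mul ?_
  have h1 : Continuous (fun q : ℝ × (Fin 2 → ℝ) => G q.2 (clp t0 t1 q.1)) := by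
    have h2 : Continuous (fun q : ℝ × (Fin 2 → ℝ) => (q.2, clp t0 t1 q.1)) :=
      continuous_snd.prodMk ((clp_continuous t0 t1).comp continuous_fst)
    exact hG.comp_continuous h2 fun q => ⟨Set.mem_univ _, clp_mem h01 _⟩
  have h3 : Continuous (Function.uncurry fun (t : ℝ) (x : Fin 2 → ℝ) =>
      (G x (clp t0 t1 t) : ℂ) * chx (-m) (-n) x) :=
    (Complex.continuous_ofReal.comp h1).mul ((v19_continuous_chx (-m) (-n)).comp continuous_snd)
  exact continuous_parametric_integral_of_continuous h3 (isCompact_Icc : IsCompact Bx)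

private theorem v19_ix_apply {m n : ℤ} {j : ℕ} (hj : 2 ≤ j) : ix m n j = 0 := by
  have h0 : (0 : ℕ) ≠ j := by omega
  have h1 : (1 : ℕ) ≠ j := by omega
  simp [ix, Finsupp.single_apply, h0, h1]

theorem exists_hat {G : (Fin 2 → ℝ) → ℝ → ℝ} {t0 t1 : ℝ} (h01 : t0 ≤ t1)
    (hG : ContinuousOn (fun p : (Fin 2 → ℝ) × ℝ => G p.1 p.2) (Set.univ ×ˢ Set.Icc t0 t1))
    (hp : ∀ t ∈ Set.Icc t0 t1, Per fun x => G x t)
    (hd : ∀ k : ℕ, ∃ C : ℝ, ∀ t ∈ Set.Icc t0 t1, ∀ m n : ℤ,
      |(m : ℝ)| ^ k * ‖fc (fun x => (G x t : ℂ)) m n‖ ≤ C ∧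
      |(n : ℝ)| ^ k * ‖fc (fun x => (G x t : ℂ)) m n‖ ≤ C) :
    ∃ g : WT, Lev 2 g ∧ IsR g ∧
      (∀ t ∈ Set.Icc t0 t1, ∀ m n, g.co (ix m n) t = fc (fun x => (G x t : ℂ)) m n) ∧
      ∀ t ∈ Set.Icc t0 t1, ∀ x, evR κs g x t = G x t := by
  classical
  obtain ⟨C0, hC0⟩ := hd 0
  have hb : ∀ m n : ℤ, ∀ t, ‖fc (fun x => (G x (clp t0 t1 t) : ℂ)) m n‖ ≤ C0 := by
    intro m n t
    have := (hC0 _ (clp_mem h01 t) m n).1
    rwa [pow_zero, one_mul] at this
  let φ : ℤ → ℤ → Ct := fun m n => BoundedContinuousFunction.ofNormedAddCommGroup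
    (fun t => fc (fun x => (G x (clp t0 t1 t) : ℂ)) m n) (v19_cont h01 hG m n) C0 (hb m n)
  have hφ : ∀ m n t, φ m n t = fc (fun x => (G x (clp t0 t1 t) : ℂ)) m n := fun m n t => rfl
  let co : Gx → Ct := fun ν => if ∃ j, 2 ≤ j ∧ ν j ≠ 0 then 0 else φ (ν 0) (ν 1)
  have hinj : Function.Injective fun p : ℤ × ℤ => ix p.1 p.2 := by
    rintro ⟨m, n⟩ ⟨m', n'⟩ h
    have := ix_injective h
    exact Prod.ext this.1 this.2
  have hco_ix : ∀ m n, co (ix m n) = φ m n := by
    intro m n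
    have h : ¬ ∃ j, 2 ≤ j ∧ ix m n j ≠ 0 := by
      rintro ⟨j, hj, h⟩
      exact h (v19_ix_apply hj)
    show (if ∃ j, 2 ≤ j ∧ ix m n j ≠ 0 then 0 else φ (ix m n 0) (ix m n 1)) = φ m n
    rw [if_neg h, ix_zero_apply, ix_one_apply]
  have hco_out : ∀ ν : Gx, ν ∉ Set.range (fun p : ℤ × ℤ => ix p.1 p.2) → co ν = 0 := by
    intro ν hν
    by_cases h : ∃ j, 2 ≤ j ∧ ν j ≠ 0
    · exact if_pos h
    · exact absurd ⟨(ν 0, ν 1), (eq_ix h).symm⟩ hν
  have hnorm : ∀ k : ℕ, ∃ K : ℝ, ∀ p : ℤ × ℤ,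
      (1 + (len (ix p.1 p.2) : ℝ)) ^ k * ‖co (ix p.1 p.2)‖ ≤
        K * ((1 / (1 + |(p.1 : ℝ)|) ^ 2) * (1 / (1 + |(p.2 : ℝ)|) ^ 2)) := by
    intro k
    obtain ⟨K, hK⟩ := v19_bound hd k
    refine ⟨K, fun p => ?_⟩
    rw [hco_ix]
    have hl : (1 + (len (ix p.1 p.2) : ℝ)) = 1 + |(p.1 : ℝ)| + |(p.2 : ℝ)| := by
      rw [len_ix]
      push_cast
      rw [Nat.cast_natAbs, Nat.cast_natAbs]
      push_cast
      ring
    rw [hl]
    have hpos : 0 < (1 + |(p.1 : ℝ)| + |(p.2 : ℝ)|) ^ k := by positivity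
    rw [mul_comm, ← le_div_iff₀ hpos]
    have hKt := hK _ (clp_mem h01 t0) p.1 p.2
    have hRHS : 0 ≤ K * ((1 / (1 + |(p.1 : ℝ)|) ^ 2) * (1 / (1 + |(p.2 : ℝ)|) ^ 2)) :=
      le_trans (by positivity) hKt
    rw [BoundedContinuousFunction.norm_le (div_nonneg hRHS hpos.le)]
    intro t
    rw [le_div_iff₀ hpos, mul_comm, hφ]
    exact hK _ (clp_mem h01 t) p.1 p.2
  have hrapid : Rapid co := by
    intro k
    obtain ⟨K, hK⟩ := hnorm k
    rw [← hinj.summable_iff]
    · exact Summable.of_nonneg_of_le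
        (fun p => mul_nonneg (pow_nonneg (by positivity) _) (norm_nonneg _)) hK
        (v19_summable_two K)
    · intro ν hν
      rw [hco_out ν hν, norm_zero, mul_zero]
  refine ⟨⟨co, hrapid⟩, fun ν hν => if_pos hν, ?_, ?_, ?_⟩
  · -- reality
    intro ν t
    show co (-ν) t = (starRingEnd ℂ) (co ν t)
    by_cases h : ∃ j, 2 ≤ j ∧ ν j ≠ 0
    · have h' : ∃ j, 2 ≤ j ∧ (-ν) j ≠ 0 := by
        obtain ⟨j, hj, hne⟩ := h
        exact ⟨j, hj, by simpa using hne⟩
      have e1 : co ν = 0 := if_pos h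
      have e2 : co (-ν) = 0 := if_pos h'
      rw [e1, e2]; simp
    · have h' : ¬ ∃ j, 2 ≤ j ∧ (-ν) j ≠ 0 := by
        rintro ⟨j, hj, hne⟩
        exact h ⟨j, hj, by simpa using hne⟩
      have e1 : co ν = φ (ν 0) (ν 1) := if_neg h
      have e2 : co (-ν) = φ ((-ν) 0) ((-ν) 1) := if_neg h'
      rw [e1, e2, hφ, hφ]
      exact v19_fc_conj (fun x => G x (clp t0 t1 t)) (ν 0) (ν 1)
  · -- coefficients
    intro t ht m n
    show co (ix m n) t = _
    rw [hco_ix, hφ, clp_of_mem ht]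
  · -- evaluation
    intro t ht x
    have hc : Continuous fun x => G x t := by
      have h : ContinuousOn (fun x : Fin 2 → ℝ => G x t) Set.univ :=
        hG.comp (f := fun x : Fin 2 → ℝ => (x, t)) (by fun_prop)
          (fun x _ => ⟨Set.mem_univ _, ht⟩)
      exact continuousOn_univ.1 h
    have hs : Summable fun p : ℤ × ℤ => ‖fc (fun x => (G x t : ℂ)) p.1 p.2‖ := by
      obtain ⟨K, hK⟩ := v19_bound hd 0
      refine Summable.of_nonneg_of_le (fun p => norm_nonneg _) (fun p => ?_) (v19_summable_two K)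
      have := hK t ht p.1 p.2
      rwa [pow_zero, one_mul] at this
    have hper : Per fun x => (G x t : ℂ) := fun x k =>
      congrArg (fun y : ℝ => (y : ℂ)) (hp t ht x k)
    have hF : HasSum (fun p : ℤ × ℤ => fc (fun x => (G x t : ℂ)) p.1 p.2 * chx p.1 p.2 x)
        (G x t : ℂ) := fourier_inversion (Complex.continuous_ofReal.comp hc) hper hs x
    have hev : ev κs ⟨co, hrapid⟩ x t = (G x t : ℂ) := by
      unfold ev
      rw [← hF.tsum_eq]
      rw [← hinj.tsum_eq]
      · refine tsum_congr fun p => ?_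
        show co (ix p.1 p.2) t * _ = _
        rw [hco_ix, hφ, clp_of_mem ht, kap_κs_zero, kap_κs_one, ix_zero_apply, ix_one_apply]
        rfl
      · intro ν hν
        by_contra h
        apply hν
        show co ν t * _ = 0
        rw [hco_out ν h]
        simp
    unfold evR
    rw [hev, Complex.ofReal_re]

end ES

end

section

/-!
ES-V20 (Part II, helper27): time derivative of the Fourier coefficients of an exact solution, tested
form.

`V` is continuous on `ℝ² × [t0,t1]`, and satisfies the weak form without error on every subinterval.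
For a time independent test function `w` (smooth, periodic, divergence free), `φ x t = w x` is a
`Tst`, `wf V φ τ = ∫ ∑_a ∑_b V_a V_b ∂_b w_a =: Q(τ)` is continuous on `[t0,t1]`
(`continuousOn_integral_Bx`) and `P(t) - P(s) = ∫_s^t Q` with `P(t) = ∫ ∑_a V_a w_a`; so `P` has
derivative `Q(t)` at every `t ∈ (t0,t1)`
(`intervalIntegral.integral_hasDerivAt_right` or `hasDerivAt_iff` from the integral formula).
`hasDerivAt_test` is this statement, `hasDerivAt_char` the special case (real and imaginary part)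
`w_a = w0_a e^{-i(m x_0 + n x_1)}` with `m w0_0 + n w0_1 = 0`, in terms of `fc`:
`∂_b w_a = -i k_b w0_a e^{...}`, `k = (m,n)`.
`div_char`: `DF V t` with `ψ = cos(m x_0 + n x_1), sin(...)`.
-/

open MeasureTheory

namespace ES

/-! private helpers -/

/-- A continuous periodic function is bounded. -/
private theorem v20_bdd {G : (Fin 2 → ℝ) → ℝ} (hG : Continuous G) (hp : Per G) :
    ∃ C : ℝ, ∀ x, |G x| ≤ C := by
  have hc : IsCompact Bx := isCompact_Icc
  obtain ⟨C, hC⟩ := hc.exists_bound_of_continuousOn hG.continuousOn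
  refine ⟨C, fun x => ?_⟩
  have hpi : 0 < 2 * Real.pi := by positivity
  have h := hp x (fun a => -⌊x a / (2 * Real.pi)⌋)
  rw [← h]
  refine hC _ ?_
  constructor
  · intro a
    have h1 := Int.floor_le (x a / (2 * Real.pi))
    rw [le_div_iff₀ hpi] at h1
    simp only [Pi.zero_apply]
    push_cast
    nlinarith
  · intro a
    have h1 := (Int.lt_floor_add_one (x a / (2 * Real.pi))).le
    rw [div_le_iff₀ hpi] at h1
    push_cast
    nlinarith

private theorem v20_cont_comp {w : (Fin 2 → ℝ) → (Fin 2 → ℝ)} (hw : ContDiff ℝ 2 w) (a : Fin 2) :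
    ContDiff ℝ 2 fun y => w y a :=
  contDiff_pi.1 hw a

private theorem v20_cont_fderiv {w : (Fin 2 → ℝ) → (Fin 2 → ℝ)} (hw : ContDiff ℝ 2 w)
    (a b : Fin 2) :
    Continuous fun x => fderiv ℝ (fun y => w y a) x (Pi.single b 1) :=
  ((v20_cont_comp hw a).continuous_fderiv (by norm_num)).clm_apply continuous_const

variable {V : Fld} {t0 t1 : ℝ}

theorem hasDerivAt_test
    (hc : ∀ a, ContinuousOn (fun p : (Fin 2 → ℝ) × ℝ => V p.1 p.2 a) (Set.univ ×ˢ Set.Icc t0 t1))
    (hW : ∀ s t, t0 ≤ s → s < t → t ≤ t1 → WE V s t 0)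
    {w : (Fin 2 → ℝ) → (Fin 2 → ℝ)} (hw : ContDiff ℝ 2 w)
    (hp : Per w) (hdiv : ∀ x, ∑ a : Fin 2, fderiv ℝ (fun y => w y a) x (Pi.single a 1) = 0)
    {t : ℝ} (ht : t ∈ Set.Ioo t0 t1) :
    HasDerivAt (fun s => ∫ x in Bx, ∑ a, V x s a * w x a)
      (∫ x in Bx, ∑ a, ∑ b, V x t a * V x t b * fderiv ℝ (fun y => w y a) x (Pi.single b 1)) t := by
  have h01 : t0 ≤ t1 := (ht.1.trans ht.2).le
  set Q : ℝ → ℝ := fun τ => ∫ x in Bx, ∑ a, ∑ b, V x τ a * V x τ b *
    fderiv ℝ (fun y => w y a) x (Pi.single b 1) with hQ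
  set φ : Fld := fun x _ => w x with hφ
  have hT : Tst φ := by
    refine ⟨hw.comp contDiff_fst, fun x n _ => hp x n, fun x _ => hdiv x⟩
  -- bound of the gradient
  have hpc : ∀ a, Per fun x => w x a := fun a x n => by
    have := hp x n
    exact congrFun this a
  obtain ⟨Λ, hΛ⟩ : ∃ Λ : ℝ, ∀ x (a b : Fin 2),
      |fderiv ℝ (fun y => w y a) x (Pi.single b 1)| ≤ Λ := by
    have h : ∀ a b : Fin 2, ∃ C : ℝ, ∀ x,
        |fderiv ℝ (fun y => w y a) x (Pi.single b 1)| ≤ C := fun a b =>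
      v20_bdd (v20_cont_fderiv hw a b) ((hpc a).fderiv _)
    choose C hC using h
    refine ⟨∑ a, ∑ b, |C a b|, fun x a b => (hC a b x).trans ((le_abs_self _).trans ?_)⟩
    refine (Finset.single_le_sum (f := fun b => |C a b|) (fun _ _ => abs_nonneg _)
      (Finset.mem_univ b)).trans ?_
    exact Finset.single_le_sum (f := fun a => ∑ b, |C a b|)
      (fun _ _ => Finset.sum_nonneg fun _ _ => abs_nonneg _) (Finset.mem_univ a)
  -- the integral formula
  have hwf : ∀ τ, wf V φ τ = Q τ := by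
    intro τ
    simp only [wf, hQ, hφ]
    refine integral_congr_ae (Filter.Eventually.of_forall fun x => ?_)
    simp
  have hint : ∀ s u, t0 ≤ s → s < u → u ≤ t1 → ∫ τ in s..u, Q τ = pr V φ u - pr V φ s := by
    intro s u h1 h2 h3
    have h := hW s u h1 h2 h3 φ hT Λ fun x _ a b => hΛ x a b
    rw [zero_mul, zero_mul] at h
    have h4 := abs_eq_zero.1 (le_antisymm h (abs_nonneg _))
    have h5 : (∫ τ in s..u, wf V φ τ) = ∫ τ in s..u, Q τ :=
      intervalIntegral.integral_congr fun τ _ => hwf τ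
    rw [h5] at h4
    linarith
  -- continuity of `Q`
  have hQc : ContinuousOn Q (Set.Icc t0 t1) := by
    refine continuousOn_integral_Bx h01 ?_
    refine continuousOn_finset_sum _ fun a _ => continuousOn_finset_sum _ fun b _ => ?_
    refine ((hc a).mul (hc b)).mul ?_
    exact ((v20_cont_fderiv hw a b).comp continuous_fst).continuousOn
  have hnh : Set.Icc t0 t1 ∈ nhds t := Icc_mem_nhds ht.1 ht.2
  have hP : (fun s => ∫ x in Bx, ∑ a, V x s a * w x a) =ᶠ[nhds t]
      fun u => pr V φ t0 + ∫ τ in t0..u, Q τ := by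
    filter_upwards [Icc_mem_nhds ht.1 ht.2] with u hu
    have e : (∫ x in Bx, ∑ a, V x u a * w x a) = pr V φ u := rfl
    rw [e]
    rcases hu.1.eq_or_lt with h | h
    · rw [← h, intervalIntegral.integral_same, add_zero]
    · rw [hint t0 u le_rfl h hu.2]; ring
  have hI : IntervalIntegrable Q volume t0 t := by
    refine (hQc.mono ?_).intervalIntegrable_of_Icc ht.1.le
    exact Set.Icc_subset_Icc_right ht.2.le
  have hm : StronglyMeasurableAtFilter Q (nhds t) volume :=
    hQc.stronglyMeasurableAtFilter_nhdsWithin measurableSet_Icc t |>.filter_mono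
      (by rw [nhdsWithin_eq_nhds.2 hnh])
  have hca : ContinuousAt Q t := hQc.continuousAt hnh
  have hd := intervalIntegral.integral_hasDerivAt_right hI hm hca
  exact (hd.const_add (pr V φ t0)).congr_of_eventuallyEq hP

/-- Frequency vector. -/
def kv (m n : ℤ) (a : Fin 2) : ℤ := if a = 0 then m else n

private noncomputable def v20_L (m n : ℤ) : (Fin 2 → ℝ) →L[ℝ] ℝ :=
  (m : ℝ) • (ContinuousLinearMap.proj 0 : (Fin 2 → ℝ) →L[ℝ] ℝ) +
    (n : ℝ) • (ContinuousLinearMap.proj 1 : (Fin 2 → ℝ) →L[ℝ] ℝ)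

private theorem v20_L_apply (m n : ℤ) (x : Fin 2 → ℝ) :
    v20_L m n x = (m : ℝ) * x 0 + (n : ℝ) * x 1 := by
  simp [v20_L]

private theorem v20_L_single (m n : ℤ) (b : Fin 2) :
    v20_L m n (Pi.single b 1) = (kv m n b : ℝ) := by
  rw [v20_L_apply]
  fin_cases b <;> simp [kv]

private theorem v20_L_per (m n : ℤ) (x : Fin 2 → ℝ) (k : Fin 2 → ℤ) :
    v20_L m n (fun a => x a + 2 * Real.pi * k a) =
      v20_L m n x + ((m * k 0 + n * k 1 : ℤ) : ℝ) * (2 * Real.pi) := by
  rw [v20_L_apply, v20_L_apply]; push_cast; ring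

private theorem v20_chx (m n : ℤ) (x : Fin 2 → ℝ) :
    chx (-m) (-n) x = ((Real.cos (v20_L m n x) : ℝ) : ℂ) -
      Complex.I * ((Real.sin (v20_L m n x) : ℝ) : ℂ) := by
  unfold chx
  have e : Complex.I * (((-m : ℤ) : ℂ) * (x 0 : ℂ) + ((-n : ℤ) : ℂ) * (x 1 : ℂ)) =
      ((-(v20_L m n x) : ℝ) : ℂ) * Complex.I := by
    rw [v20_L_apply]; push_cast; ring
  rw [e, Complex.exp_mul_I, ← Complex.ofReal_cos, ← Complex.ofReal_sin, Real.cos_neg,
    Real.sin_neg]
  push_cast; ring

private theorem v20_integrable {E : Type*} [NormedAddCommGroup E] {G : (Fin 2 → ℝ) → E}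
    (hG : Continuous G) : IntegrableOn G Bx :=
  hG.continuousOn.integrableOn_compact (isCompact_Icc : IsCompact Bx)

/-- `fc` in terms of `cos`, `sin`. -/
private theorem v20_fc {u : (Fin 2 → ℝ) → ℝ} (hu : Continuous u) (m n : ℤ) :
    fc (fun x => (u x : ℂ)) m n = (((2 * Real.pi : ℝ) : ℂ) ^ 2)⁻¹ *
      (((∫ x in Bx, u x * Real.cos (v20_L m n x) : ℝ) : ℂ) -
        Complex.I * ((∫ x in Bx, u x * Real.sin (v20_L m n x) : ℝ) : ℂ)) := by
  have hL : Continuous fun x => v20_L m n x := (v20_L m n).continuous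
  unfold fc
  congr 1
  have e : (fun x => (u x : ℂ) * chx (-m) (-n) x) = fun x =>
      ((u x * Real.cos (v20_L m n x) : ℝ) : ℂ) -
        Complex.I * ((u x * Real.sin (v20_L m n x) : ℝ) : ℂ) := by
    funext x
    rw [v20_chx]; push_cast; ring
  rw [e, integral_sub, integral_const_mul, integral_complex_ofReal, integral_complex_ofReal]
  · exact v20_integrable (Complex.continuous_ofReal.comp (hu.mul (Real.continuous_cos.comp hL)))
  · exact (v20_integrable (continuous_const.mul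
      (Complex.continuous_ofReal.comp (hu.mul (Real.continuous_sin.comp hL)))))

private theorem v20_cos_fderiv (m n : ℤ) (x : Fin 2 → ℝ) :
    HasFDerivAt (fun y => Real.cos (v20_L m n y)) (-(Real.sin (v20_L m n x)) • v20_L m n) x :=
  (v20_L m n).hasFDerivAt.cos

private theorem v20_sin_fderiv (m n : ℤ) (x : Fin 2 → ℝ) :
    HasFDerivAt (fun y => Real.sin (v20_L m n y)) ((Real.cos (v20_L m n x)) • v20_L m n) x :=
  (v20_L m n).hasFDerivAt.sin

private theorem v20_cos_apply (m n : ℤ) (c : ℝ) (x : Fin 2 → ℝ) (b : Fin 2) :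
    fderiv ℝ (fun y => c * Real.cos (v20_L m n y)) x (Pi.single b 1) =
      -(c * (kv m n b : ℝ) * Real.sin (v20_L m n x)) := by
  rw [((v20_cos_fderiv m n x).const_mul c).fderiv]
  simp only [ContinuousLinearMap.smul_apply, smul_eq_mul, v20_L_single]
  ring

private theorem v20_sin_apply (m n : ℤ) (c : ℝ) (x : Fin 2 → ℝ) (b : Fin 2) :
    fderiv ℝ (fun y => c * Real.sin (v20_L m n y)) x (Pi.single b 1) =
      c * (kv m n b : ℝ) * Real.cos (v20_L m n x) := by
  rw [((v20_sin_fderiv m n x).const_mul c).fderiv]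
  simp only [ContinuousLinearMap.smul_apply, smul_eq_mul, v20_L_single]
  ring

private theorem v20_int_sum {ι : Type*} (s : Finset ι) (c : ι → ℝ) (u : ι → (Fin 2 → ℝ) → ℝ)
    (hu : ∀ i, Continuous (u i)) {h : (Fin 2 → ℝ) → ℝ} (hh : Continuous h) :
    ∑ i ∈ s, c i * ∫ x in Bx, u i x * h x = ∫ x in Bx, ∑ i ∈ s, u i x * (c i * h x) := by
  rw [integral_finset_sum]
  · refine Finset.sum_congr rfl fun i _ => ?_
    rw [← integral_const_mul]
    refine integral_congr_ae (Filter.Eventually.of_forall fun x => ?_)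
    simp only
    ring
  · intro i _
    exact v20_integrable ((hu i).mul (continuous_const.mul hh))

theorem hasDerivAt_char
    (hc : ∀ a, ContinuousOn (fun p : (Fin 2 → ℝ) × ℝ => V p.1 p.2 a) (Set.univ ×ˢ Set.Icc t0 t1))
    (hW : ∀ s t, t0 ≤ s → s < t → t ≤ t1 → WE V s t 0) (m n : ℤ) (w0 : Fin 2 → ℝ)
    (hw : (m : ℝ) * w0 0 + (n : ℝ) * w0 1 = 0) {t : ℝ} (ht : t ∈ Set.Ioo t0 t1) :
    HasDerivAt (fun s => ∑ a, (w0 a : ℂ) * fc (fun x => (V x s a : ℂ)) m n)
      (∑ a, ∑ b, (w0 a : ℂ) * (-(Complex.I * (kv m n b : ℂ))) *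
        fc (fun x => ((V x t a * V x t b : ℝ) : ℂ)) m n) t := by
  have hL : Continuous fun x => v20_L m n x := (v20_L m n).continuous
  have hcos : Continuous fun x => Real.cos (v20_L m n x) := Real.continuous_cos.comp hL
  have hsin : Continuous fun x => Real.sin (v20_L m n x) := Real.continuous_sin.comp hL
  have hVc : ∀ s ∈ Set.Icc t0 t1, ∀ a, Continuous fun x => V x s a := by
    intro s hs a
    have h : ContinuousOn (fun x : Fin 2 → ℝ => V x s a) Set.univ :=
      (hc a).comp (f := fun x : Fin 2 → ℝ => (x, s)) (by fun_prop)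
        (fun x _ => ⟨Set.mem_univ _, hs⟩)
    exact continuousOn_univ.1 h
  -- the two test functions
  have h1 := hasDerivAt_test hc hW (w := fun x a => w0 a * Real.cos (v20_L m n x))
    (contDiff_pi.2 fun a => contDiff_const.mul (Real.contDiff_cos.comp (v20_L m n).contDiff))
    (fun x k => by
      funext a
      simp only
      rw [v20_L_per, Real.cos_add_int_mul_two_pi])
    (fun x => by
      simp only [v20_cos_apply, Fin.sum_univ_two]
      have e0 : (kv m n 0 : ℝ) = m := by simp [kv]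
      have e1 : (kv m n 1 : ℝ) = n := by simp [kv]
      rw [e0, e1]
      linear_combination -(Real.sin (v20_L m n x)) * hw) ht
  have h2 := hasDerivAt_test hc hW (w := fun x a => w0 a * Real.sin (v20_L m n x))
    (contDiff_pi.2 fun a => contDiff_const.mul (Real.contDiff_sin.comp (v20_L m n).contDiff))
    (fun x k => by
      funext a
      simp only
      rw [v20_L_per, Real.sin_add_int_mul_two_pi])
    (fun x => by
      simp only [v20_sin_apply, Fin.sum_univ_two]
      have e0 : (kv m n 0 : ℝ) = m := by simp [kv]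
      have e1 : (kv m n 1 : ℝ) = n := by simp [kv]
      rw [e0, e1]
      linear_combination (Real.cos (v20_L m n x)) * hw) ht
  have h3 := (h1.ofReal_comp.sub (h2.ofReal_comp.const_mul Complex.I)).const_mul
    ((((2 * Real.pi : ℝ) : ℂ) ^ 2)⁻¹)
  have hev : (fun s => ∑ a, (w0 a : ℂ) * fc (fun x => (V x s a : ℂ)) m n) =ᶠ[nhds t]
      fun s => (((2 * Real.pi : ℝ) : ℂ) ^ 2)⁻¹ *
        (((∫ x in Bx, ∑ a, V x s a * (w0 a * Real.cos (v20_L m n x)) : ℝ) : ℂ) -
          Complex.I * ((∫ x in Bx, ∑ a, V x s a * (w0 a * Real.sin (v20_L m n x)) : ℝ) : ℂ)) := by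
    filter_upwards [Icc_mem_nhds ht.1 ht.2] with s hs
    rw [← v20_int_sum Finset.univ w0 (fun a x => V x s a) (hVc s hs) hcos,
      ← v20_int_sum Finset.univ w0 (fun a x => V x s a) (hVc s hs) hsin]
    simp only [Fin.sum_univ_two]
    rw [v20_fc (hVc s hs 0), v20_fc (hVc s hs 1)]
    generalize (((2 * Real.pi : ℝ) : ℂ) ^ 2)⁻¹ = K
    push_cast
    ring
  refine HasDerivAt.congr_of_eventuallyEq ?_ hev
  refine h3.congr_deriv ?_
  have htI : t ∈ Set.Icc t0 t1 := ⟨ht.1.le, ht.2.le⟩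
  have hVV : ∀ p : Fin 2 × Fin 2, Continuous fun x => V x t p.1 * V x t p.2 := fun p =>
    (hVc t htI p.1).mul (hVc t htI p.2)
  have e1 : (∫ x in Bx, ∑ a, ∑ b, V x t a * V x t b *
      fderiv ℝ (fun y => (fun x a => w0 a * Real.cos (v20_L m n x)) y a) x (Pi.single b 1)) =
      ∑ p : Fin 2 × Fin 2, (-(w0 p.1 * kv m n p.2)) *
        ∫ x in Bx, (V x t p.1 * V x t p.2) * Real.sin (v20_L m n x) := by
    rw [v20_int_sum Finset.univ (fun p : Fin 2 × Fin 2 => -(w0 p.1 * kv m n p.2))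
      (fun p x => V x t p.1 * V x t p.2) hVV hsin]
    refine integral_congr_ae (Filter.Eventually.of_forall fun x => ?_)
    simp only [v20_cos_apply]
    rw [← Finset.sum_product', Finset.univ_product_univ]
    refine Finset.sum_congr rfl fun p _ => ?_
    ring
  have e2 : (∫ x in Bx, ∑ a, ∑ b, V x t a * V x t b *
      fderiv ℝ (fun y => (fun x a => w0 a * Real.sin (v20_L m n x)) y a) x (Pi.single b 1)) =
      ∑ p : Fin 2 × Fin 2, (w0 p.1 * kv m n p.2) *
        ∫ x in Bx, (V x t p.1 * V x t p.2) * Real.cos (v20_L m n x) := by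
    rw [v20_int_sum Finset.univ (fun p : Fin 2 × Fin 2 => (w0 p.1 * kv m n p.2))
      (fun p x => V x t p.1 * V x t p.2) hVV hcos]
    refine integral_congr_ae (Filter.Eventually.of_forall fun x => ?_)
    simp only [v20_sin_apply]
    rw [← Finset.sum_product', Finset.univ_product_univ]
  rw [e1, e2]
  rw [← Finset.sum_product', Finset.univ_product_univ]
  have e3 : ∀ p : Fin 2 × Fin 2, (w0 p.1 : ℂ) * (-(Complex.I * (kv m n p.2 : ℂ))) *
        fc (fun x => ((V x t p.1 * V x t p.2 : ℝ) : ℂ)) m n =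
      (((2 * Real.pi : ℝ) : ℂ) ^ 2)⁻¹ *
        ((((-(w0 p.1 * kv m n p.2)) *
          ∫ x in Bx, (V x t p.1 * V x t p.2) * Real.sin (v20_L m n x) : ℝ) : ℂ) -
        Complex.I * (((w0 p.1 * kv m n p.2) *
          ∫ x in Bx, (V x t p.1 * V x t p.2) * Real.cos (v20_L m n x) : ℝ) : ℂ)) := by
    intro p
    rw [v20_fc (hVV p)]
    generalize (((2 * Real.pi : ℝ) : ℂ) ^ 2)⁻¹ = K
    push_cast
    have hI : Complex.I * Complex.I = -1 := Complex.I_mul_I
    linear_combination K * (w0 p.1 : ℂ) * (kv m n p.2 : ℂ) *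
      (((∫ x in Bx, (V x t p.1 * V x t p.2) * Real.sin (v20_L m n x) : ℝ)) : ℂ) * hI
  rw [Finset.sum_congr rfl fun p _ => e3 p, ← Finset.mul_sum, Finset.sum_sub_distrib,
    ← Finset.mul_sum]
  push_cast
  rfl

theorem div_char (hV : DF V t0)
    (hc : ∀ a, Continuous fun x => V x t0 a) (m n : ℤ) :
    ∑ a, (kv m n a : ℂ) * fc (fun x => (V x t0 a : ℂ)) m n = 0 := by
  have hL : Continuous fun x => v20_L m n x := (v20_L m n).continuous
  have hcos : Continuous fun x => Real.cos (v20_L m n x) := Real.continuous_cos.comp hL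
  have hsin : Continuous fun x => Real.sin (v20_L m n x) := Real.continuous_sin.comp hL
  have h1 := hV (fun x => 1 * Real.cos (v20_L m n x))
    (contDiff_const.mul (Real.contDiff_cos.comp (v20_L m n).contDiff))
    (fun x k => by rw [v20_L_per, Real.cos_add_int_mul_two_pi])
  have h2 := hV (fun x => 1 * Real.sin (v20_L m n x))
    (contDiff_const.mul (Real.contDiff_sin.comp (v20_L m n).contDiff))
    (fun x k => by rw [v20_L_per, Real.sin_add_int_mul_two_pi])
  have e1 : (∫ x in Bx, ∑ a, V x t0 a *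
      fderiv ℝ (fun x => 1 * Real.cos (v20_L m n x)) x (Pi.single a 1)) =
      -∑ a, (kv m n a : ℝ) * ∫ x in Bx, V x t0 a * Real.sin (v20_L m n x) := by
    rw [v20_int_sum Finset.univ (fun a => (kv m n a : ℝ)) (fun a x => V x t0 a) hc hsin,
      ← integral_neg]
    refine integral_congr_ae (Filter.Eventually.of_forall fun x => ?_)
    simp only [v20_cos_apply]
    rw [← Finset.sum_neg_distrib]
    refine Finset.sum_congr rfl fun a _ => ?_
    ring
  have e2 : (∫ x in Bx, ∑ a, V x t0 a *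
      fderiv ℝ (fun x => 1 * Real.sin (v20_L m n x)) x (Pi.single a 1)) =
      ∑ a, (kv m n a : ℝ) * ∫ x in Bx, V x t0 a * Real.cos (v20_L m n x) := by
    rw [v20_int_sum Finset.univ (fun a => (kv m n a : ℝ)) (fun a x => V x t0 a) hc hcos]
    refine integral_congr_ae (Filter.Eventually.of_forall fun x => ?_)
    simp only [v20_sin_apply]
    refine Finset.sum_congr rfl fun a _ => ?_
    ring
  rw [e1, neg_eq_zero] at h1
  rw [e2] at h2
  have h1' := congrArg (fun y : ℝ => (y : ℂ)) h1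
  have h2' := congrArg (fun y : ℝ => (y : ℂ)) h2
  simp only [Fin.sum_univ_two] at h1' h2' ⊢
  push_cast at h1' h2'
  rw [v20_fc (hc 0), v20_fc (hc 1)]
  generalize (((2 * Real.pi : ℝ) : ℂ) ^ 2)⁻¹ = K
  linear_combination K * h2' - K * Complex.I * h1'

end ES

end

section

/-!
ES-V21 (Part II, helper27): the Euler equation for the Fourier coefficients, as a `TD` statement.

`g a` represents `V · · a` with the standard frequencies, level 2.  Claim: coefficientwise
`d/dt (g a) = - ∑_b ∑_c Ps κs a c (D κs b (g b * g c))`.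
Coefficient at an index not of level 2: both sides zero (`Lev.mul`, `Lev.D`, `Lev.mlt`).
Coefficient at `ix m n`, `k = (m,n) ≠ 0`, `k^⊥ = (-n, m)`: by `div_char`, `k · ĝ = 0`, so
`ĝ_a = k^⊥_a (∑_c k^⊥_c ĝ_c) / |k|²` for all `t ∈ [t0,t1]`; `hasDerivAt_char` with `w0 = k^⊥` gives
the derivative `k^⊥_a /|k|² ∑_{c,b} k^⊥_c (-i k_b) (V_c V_b)^`, and
`(V_c V_b)^ (m,n) = (g b * g c).co (ix m n) t` (`fc_ev` for `g b * g c`, `ev_mul`, `ev_real`), and the
symbol of `Ps κs a c` at `ix m n` is `k^⊥_a k^⊥_c / |k|²`.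
`k = 0`: `hasDerivAt_char` with `w0` a unit vector gives derivative `0`; the symbol of `Ps` at `0` is 0.
(Only `t ∈ (t0,t1)` is needed; near such `t` the identities hold for all `s ∈ [t0,t1]`,
use `HasDerivAt.congr_of_eventuallyEq`.)
-/

open MeasureTheory

namespace ES

variable {V : Fld} {t0 t1 : ℝ}

theorem fc_mul {g : Fin 2 → WT} (hL : ∀ a, Lev 2 (g a)) (hR : ∀ a, IsR (g a))
    (hg : ∀ a, ∀ t ∈ Set.Icc t0 t1, ∀ x, evR κs (g a) x t = V x t a) (a b : Fin 2) {t : ℝ}
    (ht : t ∈ Set.Icc t0 t1) (m n : ℤ) :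
    fc (fun x => ((V x t a * V x t b : ℝ) : ℂ)) m n = (g a * g b).co (ix m n) t := by
  rw [← fc_ev (Lev.mul (hL a) (hL b)) t m n]
  refine fc_congr (fun x => ?_) m n
  rw [ev_mul, ev_real (hR a), ev_real (hR b), hg a t ht x, hg b t ht x, Complex.ofReal_mul]

/-- symbol of `Ps` at the standard frequencies -/
private noncomputable def v21_ps (a c : Fin 2) (ν : Gx) : ℂ :=
  (if a = c then (if ksq κs ν = 0 then 0 else 1) else 0)
    - ((kap κs a ν : ℂ) * (kap κs c ν : ℂ)) / (ksq κs ν : ℂ)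

private theorem v21_Ps (a c : Fin 2) (f : WT) (ν : Gx) (t : ℝ) :
    (Ps κs a c f).co ν t = v21_ps a c ν * f.co ν t := by
  have h1 : (Pg κs a c f).co ν t
      = ((kap κs a ν : ℂ) * (kap κs c ν : ℂ)) / (ksq κs ν : ℂ) * f.co ν t := rfl
  have h2 : (Pnz κs f).co ν t = (if ksq κs ν = 0 then 0 else 1) * f.co ν t := rfl
  unfold Ps v21_ps
  by_cases hac : a = c
  · rw [if_pos hac, if_pos hac, LinearMap.sub_apply, WT.co_sub, Pi.sub_apply,
      BoundedContinuousFunction.coe_sub, Pi.sub_apply, h1, h2, sub_mul]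
  · rw [if_neg hac, if_neg hac, LinearMap.sub_apply, WT.co_sub, Pi.sub_apply,
      BoundedContinuousFunction.coe_sub, Pi.sub_apply, h1, LinearMap.zero_apply, sub_mul]
    simp

/-- the coefficient of the right hand side -/
private theorem v21_rhs (g : Fin 2 → WT) (a : Fin 2) (ν : Gx) (t : ℝ) :
    (-∑ b, ∑ c, Ps κs a c (D κs b (g b * g c))).co ν t
      = -∑ b, ∑ c, v21_ps a c ν * (Complex.I * (kap κs b ν : ℂ) * (g b * g c).co ν t) := by
  let L : WT →+ ℂ :=
    { toFun := fun f => f.co ν t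
      map_zero' := rfl
      map_add' := fun _ _ => rfl }
  have h1 : (-∑ b, ∑ c, Ps κs a c (D κs b (g b * g c))).co ν t
      = L (-∑ b, ∑ c, Ps κs a c (D κs b (g b * g c))) := rfl
  rw [h1, map_neg, map_sum]
  congr 1
  refine Finset.sum_congr rfl fun b _ => ?_
  rw [map_sum]
  refine Finset.sum_congr rfl fun c _ => ?_
  have h2 : L (Ps κs a c (D κs b (g b * g c))) = (Ps κs a c (D κs b (g b * g c))).co ν t := rfl
  rw [h2, v21_Ps]
  congr 1

/-- the orthogonal vector -/
private def v21_w (m n : ℤ) (a : Fin 2) : ℝ := if a = 0 then -(n : ℝ) else (m : ℝ)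

private theorem v21_proj {m n : ℤ} (hk : (m : ℂ) ^ 2 + (n : ℂ) ^ 2 ≠ 0) {u : Fin 2 → ℂ}
    (hu : (m : ℂ) * u 0 + (n : ℂ) * u 1 = 0) (a : Fin 2) :
    u a = (v21_w m n a : ℂ) / ((m : ℂ) ^ 2 + (n : ℂ) ^ 2) * ∑ c, (v21_w m n c : ℂ) * u c := by
  rw [Fin.sum_univ_two]
  unfold v21_w
  fin_cases a
  · simp only [Fin.zero_eta, Fin.isValue, ↓reduceIte, one_ne_zero, Complex.ofReal_neg,
      Complex.ofReal_intCast]
    field_simp
    linear_combination (m : ℂ) * hu
  · simp only [Fin.mk_one, Fin.isValue, ↓reduceIte, one_ne_zero, Complex.ofReal_neg,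
      Complex.ofReal_intCast]
    field_simp
    linear_combination (n : ℂ) * hu

theorem TD_hat
    (hc : ∀ a, ContinuousOn (fun p : (Fin 2 → ℝ) × ℝ => V p.1 p.2 a) (Set.univ ×ˢ Set.Icc t0 t1))
    (hW : ∀ s t, t0 ≤ s → s < t → t ≤ t1 → WE V s t 0)
    (hdf : ∀ t ∈ Set.Icc t0 t1, DF V t) {g : Fin 2 → WT} (hL : ∀ a, Lev 2 (g a))
    (hR : ∀ a, IsR (g a))
    (hg : ∀ a, ∀ t ∈ Set.Icc t0 t1, ∀ x, evR κs (g a) x t = V x t a) (a : Fin 2) :
    TD t0 t1 (g a) (-∑ b, ∑ c, Ps κs a c (D κs b (g b * g c))) := by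
  intro ν t ht
  have htI : t ∈ Set.Icc t0 t1 := ⟨ht.1.le, ht.2.le⟩
  rw [v21_rhs]
  by_cases hν : ∃ j, 2 ≤ j ∧ ν j ≠ 0
  · -- not of level 2: both sides vanish
    have h1 : (g a).co ν = 0 := hL a ν hν
    have h2 : ∀ b c, (g b * g c).co ν = 0 := fun b c => Lev.mul (hL b) (hL c) ν hν
    have h3 : (fun s => (g a).co ν s) = fun _ => (0 : ℂ) := by
      funext s
      rw [h1]; rfl
    rw [h3]
    have h4 : -∑ b, ∑ c, v21_ps a c ν * (Complex.I * (kap κs b ν : ℂ) * (g b * g c).co ν t) = 0 := by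
      rw [neg_eq_zero]
      refine Finset.sum_eq_zero fun b _ => Finset.sum_eq_zero fun c _ => ?_
      rw [h2 b c]
      simp
    rw [h4]
    exact hasDerivAt_const t 0
  · obtain ⟨m, n, rfl⟩ : ∃ m n, ν = ix m n := ⟨ν 0, ν 1, eq_ix hν⟩
    have hcoef : ∀ c, ∀ s ∈ Set.Icc t0 t1,
        fc (fun x => (V x s c : ℂ)) m n = (g c).co (ix m n) s := by
      intro c s hs
      rw [← fc_ev (hL c) s m n]
      refine fc_congr (fun x => ?_) m n
      rw [ev_real (hR c), hg c s hs x]
    have hmul : ∀ b c, fc (fun x => ((V x t b * V x t c : ℝ) : ℂ)) m n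
        = (g b * g c).co (ix m n) t := fun b c => fc_mul hL hR hg b c htI m n
    have hk0 : kap κs 0 (ix m n) = m := by rw [kap_κs_zero, ix_zero_apply]
    have hk1 : kap κs 1 (ix m n) = n := by rw [kap_κs_one, ix_one_apply]
    have hksq : ksq κs (ix m n) = (m : ℝ) ^ 2 + (n : ℝ) ^ 2 := by
      unfold ksq; rw [hk0, hk1]
    have hnhds : Set.Icc t0 t1 ∈ nhds t := Icc_mem_nhds ht.1 ht.2
    by_cases hmn : (m : ℝ) ^ 2 + (n : ℝ) ^ 2 = 0
    · -- zero frequency
      have hm : m = 0 := by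
        have : (m : ℝ) ^ 2 = 0 := by nlinarith [sq_nonneg (m : ℝ), sq_nonneg (n : ℝ)]
        have h2 : (m : ℝ) = 0 := by simpa using this
        exact_mod_cast h2
      have hn : n = 0 := by
        have : (n : ℝ) ^ 2 = 0 := by nlinarith [sq_nonneg (m : ℝ), sq_nonneg (n : ℝ)]
        have h2 : (n : ℝ) = 0 := by simpa using this
        exact_mod_cast h2
      have h1 := hasDerivAt_char hc hW m n (fun c => if c = a then 1 else 0)
        (by rw [hm, hn]; simp) ht
      have h2 : ∑ c, ∑ b, ((if c = a then (1 : ℝ) else 0 : ℝ) : ℂ) *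
          (-(Complex.I * (kv m n b : ℂ))) *
          fc (fun x => ((V x t c * V x t b : ℝ) : ℂ)) m n = 0 := by
        refine Finset.sum_eq_zero fun c _ => Finset.sum_eq_zero fun b _ => ?_
        have : kv m n b = 0 := by unfold kv; rw [hm, hn]; simp
        rw [this]; simp
      rw [h2] at h1
      have h3 : -∑ b, ∑ c, v21_ps a c (ix m n) *
          (Complex.I * (kap κs b (ix m n) : ℂ) * (g b * g c).co (ix m n) t) = 0 := by
        rw [neg_eq_zero]
        refine Finset.sum_eq_zero fun b _ => Finset.sum_eq_zero fun c _ => ?_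
        have : kap κs b (ix m n) = 0 := by
          fin_cases b
          · exact hk0.trans hm
          · exact hk1.trans hn
        rw [this]; simp
      rw [h3]
      refine h1.congr_of_eventuallyEq ?_
      filter_upwards [hnhds] with s hs
      rw [Finset.sum_eq_single a]
      · rw [if_pos rfl, hcoef a s hs]; simp
      · intro c _ hca
        rw [if_neg hca]; simp
      · intro h; exact absurd (Finset.mem_univ a) h
    · -- nonzero frequency
      have hmnC : (m : ℂ) ^ 2 + (n : ℂ) ^ 2 ≠ 0 := by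
        intro h
        apply hmn
        exact_mod_cast h
      have h1 := hasDerivAt_char hc hW m n (v21_w m n)
        (by unfold v21_w; simp; ring) ht
      have h2 := h1.const_mul ((v21_w m n a : ℂ) / ((m : ℂ) ^ 2 + (n : ℂ) ^ 2))
      have h3 : HasDerivAt (fun s => (g a).co (ix m n) s)
          ((v21_w m n a : ℂ) / ((m : ℂ) ^ 2 + (n : ℂ) ^ 2) *
            ∑ c, ∑ b, (v21_w m n c : ℂ) * (-(Complex.I * (kv m n b : ℂ))) *
              fc (fun x => ((V x t c * V x t b : ℝ) : ℂ)) m n) t := by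
        refine h2.congr_of_eventuallyEq ?_
        filter_upwards [hnhds] with s hs
        have hcs : ∀ c, Continuous fun x => V x s c := by
          intro c
          have h4 : Continuous fun x : Fin 2 → ℝ => (x, s) := by fun_prop
          exact (hc c).comp_continuous h4 fun x => ⟨Set.mem_univ _, hs⟩
        have h5 := div_char (hdf s hs) hcs m n
        rw [Fin.sum_univ_two, hcoef 0 s hs, hcoef 1 s hs] at h5
        have h6 : (m : ℂ) * (g 0).co (ix m n) s + (n : ℂ) * (g 1).co (ix m n) s = 0 := by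
          simpa [kv] using h5
        have h7 := v21_proj hmnC (u := fun c => (g c).co (ix m n) s) h6 a
        have h8 : ∑ c, (v21_w m n c : ℂ) * fc (fun x => (V x s c : ℂ)) m n
            = ∑ c, (v21_w m n c : ℂ) * (g c).co (ix m n) s :=
          Finset.sum_congr rfl fun c _ => by rw [hcoef c s hs]
        rw [h8]
        exact h7
      convert h3 using 1
      -- comparison of the two expressions
      have hsym : ∀ b c, (g b * g c).co (ix m n) t = (g c * g b).co (ix m n) t := fun b c => by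
        rw [mul_comm]
      have hksqC : (ksq κs (ix m n) : ℂ) = (m : ℂ) ^ 2 + (n : ℂ) ^ 2 := by
        rw [hksq]; push_cast; ring
      have hps : ∀ c, v21_ps a c (ix m n)
          = (v21_w m n a : ℂ) * (v21_w m n c : ℂ) / ((m : ℂ) ^ 2 + (n : ℂ) ^ 2) := by
        intro c
        unfold v21_ps v21_w
        rw [hksqC, hksq, if_neg hmn]
        fin_cases a <;> fin_cases c <;>
          simp only [Fin.zero_eta, Fin.mk_one, Fin.isValue, ↓reduceIte, one_ne_zero, zero_ne_one,
            hk0, hk1, Complex.ofReal_neg, Complex.ofReal_intCast] <;> field_simp <;> ring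
      have hkv : ∀ b, (kap κs b (ix m n) : ℂ) = (kv m n b : ℂ) := by
        intro b
        unfold kv
        fin_cases b
        · simp [hk0]
        · simp [hk1]
      rw [Finset.sum_comm, Finset.mul_sum, ← Finset.sum_neg_distrib]
      refine Finset.sum_congr rfl fun c _ => ?_
      rw [Finset.mul_sum, ← Finset.sum_neg_distrib]
      refine Finset.sum_congr rfl fun b _ => ?_
      rw [hmul c b, hsym b c, hps c, hkv b]
      ring

end ES

end
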