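import Pool.Agent.H16.TSS.M17
import Pool.Agent.H16.TSS.M23
import Pool.Agent.H16.TSS.M24
import Pool.Agent.H16.TSS.M25

/-! The parts of this file: ES.R3Db, ES.R3De, ES.R3Dg, ES.R3D, ES.V23. -/

section

/-!
Project ES, Part III, module R3Db: `v3` is weakly divergence free.
`cell_integral`, `avs ψ` is a two-dimensional test function, `Sol2.df` at the time `T0/T*t`.
-/

open MeasureTheory Set EulerTimes

namespace ES

private lemma R3Db_prj_emb (z : Fin 2 → ℝ) (r : ℝ) : prj (emb z r) = z := by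
  have hpi : (2 * Real.pi) ≠ 0 := by positivity
  funext a
  fin_cases a
  · simp only [prj, emb]
    change 2 * Real.pi * (z 0 / (2 * Real.pi)) = z 0
    field_simp
  · simp only [prj, emb]
    change 2 * Real.pi * (z 1 / (2 * Real.pi)) = z 1
    field_simp

private lemma R3Db_cont_prj : Continuous prj := by
  unfold prj
  fun_prop

private lemma R3Db_cont_emb (z : Fin 2 → ℝ) : Continuous (emb z) := by
  unfold emb
  refine (PiLp.continuous_toLp 2 _).comp ?_
  refine continuous_pi fun i => ?_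
  fin_cases i
  · exact continuous_const
  · exact continuous_const
  · exact continuous_id

private lemma R3Db_cont_pd {ψ : R3 → ℝ} (hψ : ∀ n : ℕ, ContDiff ℝ n ψ) (i : Fin 3) :
    Continuous (pd i ψ) := by
  have h1 : ContDiff ℝ 1 ψ := by exact_mod_cast hψ 1
  have h2 : Continuous (fderiv ℝ ψ) := h1.continuous_fderiv (by norm_num)
  exact h2.clm_apply continuous_const

private lemma R3Db_sum (c : ℝ) (V : Fld) (t : ℝ) (ψ : R3 → ℝ) (x : R3) :
    ∑ i, v3 c V x t i * pd i ψ x =
      ∑ a : Fin 2, c / (2 * Real.pi) * V (prj x) (c * t) a * pd (Fin.castSucc a) ψ x := by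
  rw [Fin.sum_univ_three, Fin.sum_univ_two]
  have h0 : v3 c V x t 0 = c / (2 * Real.pi) * V (prj x) (c * t) 0 := rfl
  have h1 : v3 c V x t 1 = c / (2 * Real.pi) * V (prj x) (c * t) 1 := rfl
  have h2 : v3 c V x t 2 = 0 := rfl
  rw [h0, h1, h2, zero_mul, add_zero]
  rfl

theorem v3_div {β T0 : ℝ} {V : Fld} {B : Set ℝ} (h : Sol2 β T0 V B) {T : ℝ} (hT : 0 < T) :
    ∀ t ∈ Icc 0 T, ∀ ψ : R3 → ℝ, (∀ n : ℕ, ContDiff ℝ n ψ) → Periodic3 ψ →
      ∫ x in Cell, ∑ i, v3 (T0 / T) V x t i * pd i ψ x = 0 := by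
  intro t ht ψ hψ hp
  have hT0 := h.pos
  have hpi : (0 : ℝ) < 2 * Real.pi := by positivity
  set c : ℝ := T0 / T with hc
  have hc0 : 0 < c := div_pos hT0 hT
  have hct : c * t ∈ Icc 0 T0 := by
    refine ⟨mul_nonneg hc0.le ht.1, ?_⟩
    calc c * t ≤ c * T := mul_le_mul_of_nonneg_left ht.2 hc0.le
      _ = T0 := by rw [hc]; field_simp
  have hVc : Continuous fun z : Fin 2 → ℝ => V z (c * t) := by
    have h1 : Continuous fun z : Fin 2 → ℝ => uc V (z, c * t) := by
      have := h.cont.comp_continuous (f := fun z : Fin 2 → ℝ => ((z, c * t) : (Fin 2 → ℝ) × ℝ))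
        (by fun_prop) (fun z => ⟨mem_univ _, hct⟩)
      exact this
    exact h1
  have hVa : ∀ a : Fin 2, Continuous fun x : R3 => V (prj x) (c * t) a := fun a =>
    (continuous_apply a).comp (hVc.comp R3Db_cont_prj)
  have hf : Continuous fun x : R3 =>
      ∑ a : Fin 2, c / (2 * Real.pi) * V (prj x) (c * t) a * pd (Fin.castSucc a) ψ x := by
    refine continuous_finsetSum _ fun a _ => ?_
    exact (continuous_const.mul (hVa a)).mul (R3Db_cont_pd hψ _)
  have e1 : ∫ x in Cell, ∑ i, v3 c V x t i * pd i ψ x =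
      ∫ x in Cell, ∑ a : Fin 2, c / (2 * Real.pi) * V (prj x) (c * t) a *
        pd (Fin.castSucc a) ψ x := by
    congr 1
    funext x
    exact R3Db_sum c V t ψ x
  rw [e1, cell_integral hf]
  have e2 : ∀ z : Fin 2 → ℝ, ∫ r in (0 : ℝ)..1, ∑ a : Fin 2, c / (2 * Real.pi) *
      V (prj (emb z r)) (c * t) a * pd (Fin.castSucc a) ψ (emb z r) =
      c * ∑ a : Fin 2, V z (c * t) a * fderiv ℝ (avs ψ) z (Pi.single a 1) := by
    intro z
    have hcont : ∀ a : Fin 2, Continuous fun r : ℝ => pd (Fin.castSucc a) ψ (emb z r) :=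
      fun a => (R3Db_cont_pd hψ _).comp (R3Db_cont_emb z)
    simp only [R3Db_prj_emb]
    rw [intervalIntegral.integral_finsetSum, Finset.mul_sum]
    · refine Finset.sum_congr rfl fun a _ => ?_
      rw [intervalIntegral.integral_const_mul, avs_fderiv hψ z a]
      field_simp
    · intro a _
      exact (continuous_const.mul (hcont a)).intervalIntegrable _ _
  simp only [e2]
  rw [integral_const_mul, h.df (c * t) hct (avs ψ) (avs_smooth hψ)
    (fun z n => avs_periodic hp z n), mul_zero, mul_zero]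

end ES

end

section

/-!
Project ES, Part III, module R3De: the weak formulation of `v3`
(`v3_weak_time`, substitution `s = (T0/T) t`, `Sol2.weak`, `avg_tst`, `avg_zero`, `avg_bdd`).
-/

open MeasureTheory Set EulerTimes

namespace ES

theorem v3_weak {β T0 : ℝ} {V : Fld} {B : Set ℝ} (h : Sol2 β T0 V B) {T : ℝ} (hT : 0 < T) :
    ∀ φ : R3 → ℝ → R3, TestField T φ →
    ∫ t in (0)..T, ∫ x in Cell, ((∑ i, v3 (T0 / T) V x t i * deriv (fun s => φ x s i) t) +
      ∑ i, ∑ j, v3 (T0 / T) V x t i * v3 (T0 / T) V x t j * pd j (fun y => φ y t i) x) = 0 := by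
  intro φ hφ
  have hT0 := h.pos
  have hc : 0 < T0 / T := div_pos hT0 hT
  have hcT : T0 / T * T = T0 := div_mul_cancel₀ T0 hT.ne'
  have h1 : ∫ t in (0)..T, ∫ x in Cell,
      ((∑ i, v3 (T0 / T) V x t i * deriv (fun s => φ x s i) t) +
      ∑ i, ∑ j, v3 (T0 / T) V x t i * v3 (T0 / T) V x t j * pd j (fun y => φ y t i) x) =
      ∫ t in (0)..T, (T0 / T) ^ 2 / (2 * Real.pi) ^ 3 * wf V (avg (T0 / T) φ) (T0 / T * t) := by
    apply intervalIntegral.integral_congr
    intro t ht
    rw [uIcc_of_le hT.le] at ht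
    exact v3_weak_time h hT hφ ht
  rw [h1, intervalIntegral.integral_const_mul,
    intervalIntegral.integral_comp_mul_left (fun s => wf V (avg (T0 / T) φ) s) hc.ne', mul_zero,
    hcT, h.weak (avg (T0 / T) φ) (avg_tst hc hφ) (avg_bdd hc hφ)
      (fun x => (avg_zero hc hT hφ x).1) (fun x => by
        have h2 := (avg_zero hc hT hφ x).2
        rwa [hcT] at h2), smul_zero, mul_zero]

end ES

end

section

/-!
Project ES, Part III, module R3Dg: smoothness of `v3` off the bad times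
(`Sol2.zero`, `Sol2.last`: the end points are bad times, so `T0/T*t ∈ Ioo 0 T0 ∖ B`).
-/

open MeasureTheory Set EulerTimes

namespace ES

theorem v3_smooth {β T0 : ℝ} {V : Fld} {B : Set ℝ} (h : Sol2 β T0 V B) {T : ℝ} (hT : 0 < T)
    {B' : Set ℝ} (hB' : ∀ t, T0 / T * t ∈ B → t ∈ B') :
    SmoothOff T B' (v3 (T0 / T) V) := by
  intro n
  have hg : ContDiff ℝ n (fun p : R3 × ℝ => (prj p.1, T0 / T * p.2)) := by
    refine ContDiff.prodMk ?_ (contDiff_const.mul contDiff_snd)
    rw [contDiff_pi]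
    intro a
    unfold prj
    have h1 : ContDiff ℝ n (fun x : R3 => x (Fin.castSucc a)) := by fun_prop
    exact contDiff_const.mul (h1.comp contDiff_fst)
  have hmaps : MapsTo (fun p : R3 × ℝ => (prj p.1, T0 / T * p.2)) (univ ×ˢ (Icc 0 T \ B'))
      (univ ×ˢ (Ioo 0 T0 \ B)) := by
    rintro ⟨x, t⟩ ⟨_, ⟨ht0, htT⟩, htB⟩
    have hnB : T0 / T * t ∉ B := fun hb => htB (hB' t hb)
    have hT0 := h.pos
    have e0 : 0 ≤ T0 / T * t := by
      have : 0 ≤ t := ht0
      positivity
    have e1 : T0 / T * t ≤ T0 := by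
      have h2 : T0 / T * t ≤ T0 / T * T := mul_le_mul_of_nonneg_left htT (by positivity)
      have h3 : T0 / T * T = T0 := by field_simp
      linarith
    refine ⟨mem_univ _, ⟨lt_of_le_of_ne e0 ?_, lt_of_le_of_ne e1 ?_⟩, hnB⟩
    · intro he
      have he' : 0 = T0 / T * t := he
      apply hnB
      rw [← he']
      exact h.zero
    · intro he
      have he' : T0 / T * t = T0 := he
      apply hnB
      rw [he']
      exact h.last
  have hcomp := (h.smooth n).comp hg.contDiffOn hmaps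
  have hc : ∀ a : Fin 2, ContDiffOn ℝ n (fun p : R3 × ℝ => V (prj p.1) (T0 / T * p.2) a)
      (univ ×ˢ (Icc 0 T \ B')) := by
    intro a
    exact (contDiffOn_pi.1 hcomp) a
  rw [contDiffOn_euclidean]
  intro i
  fin_cases i
  · exact contDiffOn_const.mul (hc 0)
  · exact contDiffOn_const.mul (hc 1)
  · exact contDiffOn_const

end ES

end

section

/-!
Project ES, Part III, module R3D: the three-dimensional theorem (assembly, complete).
-/

open MeasureTheory Set EulerTimes

namespace ES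

theorem main3 (hF : BIFacts) {C0 : ℝ} (hC : 1 ≤ C0) {p : ℕ} (hB : BlockStatement C0 p)
    {β : ℝ} (hβ0 : 0 ≤ β) (hβ : β < 1 / 3) {T : ℝ} (hT : 0 < T) : SharpSolution β T := by
  obtain ⟨T0, V, B, h⟩ := exists_sol2 hF hC hB hβ0 hβ
  obtain ⟨B', h1, h2, h3, h4⟩ := exists_badset hβ0 hβ h.pos h.closed h.sub h.dim hT
  exact ⟨v3 (T0 / T) V, B', ⟨v3_periodic h hT, v3_square h hT, v3_div h hT, v3_weak h hT⟩,
    v3_holder hβ0 h hT, v3_energy h hT, h1, h2, v3_smooth h hT h3, h4⟩

end ES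

end

section

/-!
ES-V23 (Part II, helper27): the fact `smooth`, and the list of facts.

Given `BI V t0 t1 lam g 0 ρ c A` with data `d`.  Each component `V · · a` is represented by `d.v a`,
continuous on `ℝ² × [t0,t1]` (`RepS.continuousOn`), periodic (`RepT.periodic`), with uniformly
decreasing Fourier coefficients (`fc_decay_zero/one`); `exists_hat` gives `g a`.  `WE V s t 0` on
subintervals: `fact_restrict` and `fact_weak` with `σ = 0`; `fact_divf`.  `TD_hat`, `TDn_all`,
`TDn.contDiffOn` with `κs`; congruence on the open set (`ContDiffOn.congr`), components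
(`contDiffOn_pi`).
-/

namespace ES

theorem fact_smooth (V : Fld) (t0 t1 lam g ρ c A : ℝ) (h : BI V t0 t1 lam g 0 ρ c A)
    (hρ : 0 < ρ) (h0 : 0 ≤ c) (hc : c ≤ 1 / 10) (n : ℕ) :
    ContDiffOn ℝ n (fun x : (Fin 2 → ℝ) × ℝ => V x.1 x.2) (Set.univ ×ˢ Set.Ioo t0 t1) := by
  have h' := h
  obtain ⟨d, hd, hV⟩ := h
  have hle := hd.ht.le
  have hcont : ∀ a, ContinuousOn (fun p : (Fin 2 → ℝ) × ℝ => V p.1 p.2 a)
      (Set.univ ×ˢ Set.Icc t0 t1) := fun a => RepS.continuousOn hd hρ.le hc (hV.repS a)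
  have hper : ∀ a, ∀ t ∈ Set.Icc t0 t1, Per fun x => V x t a := fun a t ht x n =>
    RepT.periodic hd hρ.le hc (hV.repS a t ht) x n
  have hdec : ∀ a, ∀ k : ℕ, ∃ C : ℝ, ∀ t ∈ Set.Icc t0 t1, ∀ m n : ℤ,
      |(m : ℝ)| ^ k * ‖fc (fun x => (V x t a : ℂ)) m n‖ ≤ C ∧
      |(n : ℝ)| ^ k * ‖fc (fun x => (V x t a : ℂ)) m n‖ ≤ C := by
    intro a k
    refine ⟨max (∑' ν, ‖((ED d 0)^[k] (d.v a)).co ν‖) (∑' ν, ‖((ED d 1)^[k] (d.v a)).co ν‖),
      fun t ht m n => ⟨?_, ?_⟩⟩
    · exact (fc_decay_zero hd hρ.le hc k (hd.rv a) (hV.repS a t ht) m n).trans (le_max_left _ _)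
    · exact (fc_decay_one hd hρ.le hc k (hd.rv a) (hV.repS a t ht) m n).trans (le_max_right _ _)
  have hex := fun a => exists_hat (G := fun x t => V x t a) hle (hcont a) (hper a) (hdec a)
  choose G hL hR _ hG using hex
  have hW : ∀ s t, t0 ≤ s → s < t → t ≤ t1 → WE V s t 0 := by
    intro s t hs hst ht
    have h1 := fact_weak V s t lam g 0 ρ c A
      (fact_restrict V t0 t1 s t lam g 0 ρ c A h' hs hst ht) hρ h0 hc
    rwa [mul_zero] at h1
  have hdf := fact_divf V t0 t1 lam g 0 ρ c A h' hρ h0 hc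
  have hTD := TD_hat hcont hW hdf hL hR hG
  have hn := TDn_all hTD
  rw [contDiffOn_pi]
  intro a
  refine (TDn.contDiffOn κs n (hn n a)).congr ?_
  rintro ⟨x, t⟩ ⟨_, ht⟩
  exact (hG a t (Set.Ioo_subset_Icc_self ht) x).symm

theorem bi_facts : BIFacts where
  mono := fact_mono
  restrict := fact_restrict
  congr := fact_congr
  lip := fact_lip
  per := fact_per
  divf := fact_divf
  weak := fact_weak
  smooth := fact_smooth

end ES

end
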